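import Pool.Agent.Y755.Fin

set_option autoImplicit false

/-! Moments of the randomly shifted zeta function near the critical line. -/

namespace Pool.Agent.Y755

open Finset Filter MeasureTheory
open Pool.Agent.W184.NZ
open Pool.Agent.W184 (zn zn_nonneg zn_cont zn_le')
open Pool.Agent.H306R2 (dv cf cf_tsum_tendsto aF)

/-- the moment -/
noncomputable def mom (β σ x T : ℝ) : ℝ :=
  ∫ u in (0:ℝ)..1, ‖riemannZeta (σ + x * Complex.I + (u * T) * Complex.I)‖ ^ β

/-- the Dirichlet series of the squares of the generalised divisor function -/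
noncomputable def Dser (β σ : ℝ) : ℝ := ∑' n : ℕ, dv (β / 2) n ^ 2 * (n:ℝ) ^ (-(2 * σ))

lemma Dser_eq (α δ : ℝ) : Dser (2 * α) (1 / 2 + δ) = DD α δ := by
  unfold Dser DD
  refine tsum_congr fun n => ?_
  have e1 : 2 * α / 2 = α := by ring
  rw [e1]
  rcases Nat.eq_zero_or_pos n with h0 | h0
  · subst h0
    unfold g2 dv
    simp
  · have hn : (0:ℝ) < n := by exact_mod_cast h0
    unfold g2 wδ
    congr 1
    rw [mul_one_div, ← Real.rpow_sub_one hn.ne']
    congr 1; ring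

lemma mom_eq (β σ x : ℝ) {T : ℝ} (hT : 0 < T) : mom β σ x T = T⁻¹ * ∫ t in x..(T + x), zn σ t ^ β := by
  unfold mom
  have h5 := intervalIntegral.integral_comp_mul_add (a := (0:ℝ)) (b := 1)
    (fun t => zn σ t ^ β) hT.ne' x
  rw [mul_zero, zero_add, mul_one, smul_eq_mul] at h5
  rw [← h5]
  refine intervalIntegral.integral_congr fun u _ => ?_
  unfold zn
  congr 3
  push_cast
  ring

lemma small_x (x : ℝ) {α : ℝ} (hα : 0 < α) : ∃ C : ℝ, 0 ≤ C ∧ ∀ δ : ℝ, 0 < δ → δ ≤ 1 / 16 →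
    |∫ t in (0:ℝ)..x, zn (1 / 2 + δ) t ^ (2 * α)| ≤ C := by
  refine ⟨(12 * (1 + |x|)) ^ (2 * α) * |x|, by positivity, fun δ hδ hδ1 => ?_⟩
  have h1 : ∀ t ∈ Set.uIoc (0:ℝ) x, ‖zn (1 / 2 + δ) t ^ (2 * α)‖ ≤ (12 * (1 + |x|)) ^ (2 * α) := by
    intro t ht
    rw [Real.norm_of_nonneg (Real.rpow_nonneg (zn_nonneg _ _) _)]
    have hz := zn_le' (σ := 1 / 2 + δ) (t := t) (by linarith) (by linarith)
    have ht2 : |t| ≤ |x| := by
      rcases Set.mem_uIoc.mp ht with h | h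
      · rw [abs_of_pos h.1, abs_of_pos (lt_of_lt_of_le h.1 h.2)]; exact h.2
      · rw [abs_of_nonpos h.2, abs_of_neg (lt_of_lt_of_le h.1 h.2)]; linarith [h.1]
    exact Real.rpow_le_rpow (zn_nonneg _ _) (by linarith) (by positivity)
  have h2 := intervalIntegral.norm_integral_le_of_norm_le_const h1
  rwa [Real.norm_eq_abs, sub_zero] at h2

/-- conditions for the shift -/
lemma shift_ev (x : ℝ) {lam C κ : ℝ} (hlam : 1 ≤ lam) (hκ : 0 < κ) {P : ℝ → Prop} (hP : ∀ᶠ X : ℝ in atTop, P X) :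
    ∀ᶠ T : ℝ in atTop, P (T + x) ∧ C ≤ κ * T ∧ (1 - κ) * T ≤ T + x ∧ T + x ≤ (1 + κ) * T ∧ 1 ≤ T ∧ 0 < Real.log T ∧
      0 < Real.log (T + x) ∧ lam / Real.log (T + x) ≤ 2 * lam / Real.log T := by
  have h1 : Tendsto (fun T : ℝ => T + x) atTop atTop := tendsto_atTop_add_const_right _ _ tendsto_id
  have h2 : Tendsto (fun T : ℝ => κ * T) atTop atTop := tendsto_id.const_mul_atTop hκ
  filter_upwards [h1.eventually hP, h2.eventually_ge_atTop C, h2.eventually_ge_atTop |x|, eventually_ge_atTop 4,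
    eventually_ge_atTop (2 * |x|)] with T g1 g2 g3 g4 g5
  have hx1 := neg_abs_le x
  have hx2 := le_abs_self x
  have hT0 : 0 < T := by linarith
  have hTx : T / 2 ≤ T + x := by linarith
  have hL0 : 0 < Real.log T := Real.log_pos (by linarith)
  have hL1 : 0 < Real.log (T + x) := Real.log_pos (by linarith)
  refine ⟨g1, g2, by linarith, by linarith, by linarith, hL0, hL1, ?_⟩
  rw [div_le_div_iff₀ hL1 hL0]
  have h3 : Real.log T ≤ 2 * Real.log (T + x) := by
    have h4 : T ≤ (T + x) ^ 2 := by nlinarith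
    have h5 := Real.log_le_log hT0 h4
    rw [Real.log_pow] at h5
    exact_mod_cast h5
  nlinarith

/-- the lower bound for the moments -/
theorem mom_low {α : ℝ} (hα : 0 < α) (hα2 : α ≤ 2) {ε : ℝ} (hε : 0 < ε) :
    ∃ lam : ℝ, 1 ≤ lam ∧ ∀ x : ℝ, ∀ᶠ T : ℝ in atTop, ∀ δ : ℝ, lam / Real.log T ≤ δ → δ ≤ 1 / 16 →
      (1 - ε) * DD α δ ≤ mom (2 * α) (1 / 2 + δ) x T := by
  set e := min (ε / 3) (1 / 2) with he
  have he0 : 0 < e := lt_min (by positivity) (by norm_num)
  have he1 : e ≤ ε / 3 := min_le_left _ _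
  have he2 : e ≤ 1 / 2 := min_le_right _ _
  obtain ⟨lam, hl1, hw⟩ := full_low hα hα2 he0
  refine ⟨2 * lam, by linarith, fun x => ?_⟩
  obtain ⟨C, hC0, hC⟩ := small_x x hα
  filter_upwards [shift_ev x (C := C) hl1 he0 hw] with T h δ hδ1 hδ2
  obtain ⟨h1, h2, h3, h4, h5, h6, h7, h8⟩ := h
  have hT0 : 0 < T := by linarith
  have hδ0 : 0 < δ := lt_of_lt_of_le (div_pos (by linarith) h6) hδ1
  have hD := DD_ge_one hα hδ0
  have g1 := h1 δ (h8.trans hδ1) hδ2
  have g2 := (abs_le.mp (hC δ hδ0 hδ2)).2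
  have hi : ∀ a b : ℝ, IntervalIntegrable (fun t => zn (1 / 2 + δ) t ^ (2 * α)) volume a b := fun a b =>
    (znp_cont (by linarith) (by linarith)).intervalIntegrable _ _
  have g3 := intervalIntegral.integral_add_adjacent_intervals (hi 0 x) (hi x (T + x))
  rw [mom_eq _ _ _ hT0, inv_mul_eq_div, le_div_iff₀ hT0]
  set D := DD α δ
  have g4 : (1 - e) * ((1 - e) * T * D) ≤ (1 - e) * ((T + x) * D) :=
    mul_le_mul_of_nonneg_left (mul_le_mul_of_nonneg_right h3 (by linarith)) (by linarith)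
  have hTD : T ≤ T * D := le_mul_of_one_le_right hT0.le hD
  have g5 : C ≤ e * (T * D) := h2.trans (mul_le_mul_of_nonneg_left hTD he0.le)
  have g6 : (1 - ε) * D * T ≤ (1 - e) * ((1 - e) * T * D) - e * (T * D) := by
    have : 0 ≤ T * D := by positivity
    nlinarith [sq_nonneg e]
  linarith

/-- the upper bound for the moments -/
theorem mom_up {α : ℝ} (hα : 0 < α) (hα1 : α ≤ 1) {ε : ℝ} (hε : 0 < ε) :
    ∃ lam : ℝ, 1 ≤ lam ∧ ∀ x : ℝ, ∀ᶠ T : ℝ in atTop, ∀ δ : ℝ, lam / Real.log T ≤ δ → δ ≤ 1 / 16 →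
      mom (2 * α) (1 / 2 + δ) x T ≤ (1 + ε) * DD α δ := by
  set e := min (ε / 4) (1 / 2) with he
  have he0 : 0 < e := lt_min (by positivity) (by norm_num)
  have he1 : e ≤ ε / 4 := min_le_left _ _
  have he2 : e ≤ 1 / 2 := min_le_right _ _
  obtain ⟨lam, hl1, hw⟩ := full_up hα hα1 he0
  refine ⟨2 * lam, by linarith, fun x => ?_⟩
  obtain ⟨C, hC0, hC⟩ := small_x x hα
  filter_upwards [shift_ev x (C := C) hl1 he0 hw] with T h δ hδ1 hδ2
  obtain ⟨h1, h2, h3, h4, h5, h6, h7, h8⟩ := h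
  have hT0 : 0 < T := by linarith
  have hδ0 : 0 < δ := lt_of_lt_of_le (div_pos (by linarith) h6) hδ1
  have hD := DD_ge_one hα hδ0
  have g1 := h1 δ (h8.trans hδ1) hδ2
  have g2 := (abs_le.mp (hC δ hδ0 hδ2)).1
  have hi : ∀ a b : ℝ, IntervalIntegrable (fun t => zn (1 / 2 + δ) t ^ (2 * α)) volume a b := fun a b =>
    (znp_cont (by linarith) (by linarith)).intervalIntegrable _ _
  have g3 := intervalIntegral.integral_add_adjacent_intervals (hi 0 x) (hi x (T + x))
  rw [mom_eq _ _ _ hT0, inv_mul_eq_div, div_le_iff₀ hT0]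
  set D := DD α δ
  have g4 : (1 + e) * ((T + x) * D) ≤ (1 + e) * ((1 + e) * T * D) :=
    mul_le_mul_of_nonneg_left (mul_le_mul_of_nonneg_right h4 (by linarith)) (by linarith)
  have hTD : T ≤ T * D := le_mul_of_one_le_right hT0.le hD
  have g5 : C ≤ e * (T * D) := h2.trans (mul_le_mul_of_nonneg_left hTD he0.le)
  have g6 : (1 + e) * ((1 + e) * T * D) + e * (T * D) ≤ (1 + ε) * D * T := by
    have : 0 ≤ T * D := by positivity
    nlinarith [sq_nonneg e]
  linarith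

/-- the size of the Dirichlet series -/
theorem DD_asym {α : ℝ} (hα : 0 < α) {δ : ℝ → ℝ} (h0 : ∀ᶠ T in atTop, 0 < δ T) (h1 : Tendsto δ atTop (nhds 0)) :
    Tendsto (fun T => (2 * δ T) ^ (α ^ 2) * DD α (δ T)) atTop (nhds (aF α)) := by
  have h := cf_tsum_tendsto (fun _ : Fin 1 => α) (fun _ => hα) (fun _ => 1) (fun _ => one_pos)
  simp only [univ_unique, sum_const, card_singleton, one_smul, prod_const, pow_one, Real.one_rpow, mul_one] at h
  have h2 : Tendsto (fun T => (2 * δ T)⁻¹) atTop atTop := by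
    refine Tendsto.inv_tendsto_nhdsGT_zero ?_
    rw [tendsto_nhdsWithin_iff]
    refine ⟨by simpa using h1.const_mul 2, h0.mono fun T hT => ?_⟩
    show 0 < 2 * δ T
    linarith
  refine (h.comp h2).congr' ?_
  filter_upwards [h0] with T hT
  simp only [Function.comp]
  have e1 : (fun _ : Fin 1 => 1 / (2 * δ T)⁻¹) = fun _ => 2 * δ T := by
    funext i; field_simp
  rw [e1]
  simp_rw [cf_fin1]
  have hp : 0 < 2 * δ T := by linarith
  rw [Real.inv_rpow hp.le, div_inv_eq_mul, mul_comm]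
  rfl

/-- the asymptotics along a path -/
theorem mom_path {α : ℝ} (hα : 0 < α) (hα1 : α ≤ 1) (x : ℝ) {δ : ℝ → ℝ} (h1 : Tendsto δ atTop (nhds 0))
    (h2 : Tendsto (fun T => δ T * Real.log T) atTop atTop) :
    Tendsto (fun T => (2 * δ T) ^ (α ^ 2) * mom (2 * α) (1 / 2 + δ T) x T) atTop (nhds (aF α)) := by
  have hpos : ∀ᶠ T in atTop, 0 < δ T := by
    filter_upwards [h2.eventually_gt_atTop 0, eventually_gt_atTop 1] with T hT hT1
    exact (pos_iff_pos_of_mul_pos hT).mpr (Real.log_pos hT1)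
  have hD := DD_asym hα hpos h1
  have hr : Tendsto (fun T => mom (2 * α) (1 / 2 + δ T) x T / DD α (δ T)) atTop (nhds 1) := by
    rw [Metric.tendsto_nhds]
    intro ε hε
    obtain ⟨l1, hl1, hu⟩ := mom_up hα hα1 (half_pos hε)
    obtain ⟨l2, hl2, hl⟩ := mom_low hα (by linarith) (half_pos hε)
    filter_upwards [hu x, hl x, h2.eventually_ge_atTop (max l1 l2), hpos, h1.eventually (gt_mem_nhds (show (0:ℝ) < 1 / 16 by norm_num)),
      eventually_gt_atTop 1] with T g1 g2 g3 g4 g5 g6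
    have hL := Real.log_pos g6
    have a1 := g1 (δ T) (by rw [div_le_iff₀ hL]; exact (le_max_left _ _).trans g3) g5.le
    have a2 := g2 (δ T) (by rw [div_le_iff₀ hL]; exact (le_max_right _ _).trans g3) g5.le
    have hD1 := DD_ge_one hα g4
    have hD0 : 0 < DD α (δ T) := by linarith
    rw [Real.dist_eq]
    refine lt_of_le_of_lt ?_ (half_lt_self hε)
    rw [abs_le]
    constructor
    · rw [le_sub_iff_add_le, le_div_iff₀ hD0]; linarith
    · rw [sub_le_iff_le_add, div_le_iff₀ hD0]; linarith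
  have h3 := hD.mul hr
  rw [mul_one] at h3
  refine h3.congr' ?_
  filter_upwards [hpos] with T hT
  have hD1 := DD_ge_one hα hT
  have : DD α (δ T) ≠ 0 := by linarith
  field_simp

end Pool.Agent.Y755
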