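import Pool.Agent.Y755.Wi6
import Pool.Agent.Y755.Res

set_option autoImplicit false

/-! The upper bounds for the moments of order between two and four. -/

namespace Pool.Agent.Y755

open Finset Filter MeasureTheory
open Pool.Agent.W184.NZ
open Pool.Agent.W184 (zn zn_nonneg zn_cont zn_le')
open Pool.Agent.H306R2 (dv cf cf_tsum_tendsto aF)

/-- the window ending at `X` -/
theorem win_X4 {α : ℝ} (hα1 : 1 ≤ α) (hα2 : α ≤ 2) {ε : ℝ} (hε : 0 < ε) :
    ∃ lam : ℝ, 1 ≤ lam ∧ ∀ᶠ X : ℝ in atTop, ∀ δ : ℝ, lam / Real.log X ≤ δ → δ ≤ 1 / 16 →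
      ∫ t in ((2 * X) ^ ((4:ℝ)/5))..X, zn (1 / 2 + δ) t ^ (2 * α) ≤ (1 + ε) * (X * DD α δ) := by
  set e := min (ε / 64) (1 / 10) with he
  have he0 : 0 < e := lt_min (by positivity) (by norm_num)
  have he1 : 64 * e ≤ ε := by have := min_le_left (ε / 64) (1 / 10); linarith
  obtain ⟨lam, hl1, hw⟩ := win_main4 hα1 hα2 he0 (min_le_right _ _)
  refine ⟨lam, hl1, ?_⟩
  filter_upwards [two_mul_tendsto.eventually hw, Real.tendsto_log_atTop.eventually_ge_atTop 1, eventually_gt_atTop 0]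
    with X h1 h2 h3 δ hδ1 hδ2
  have h4 : lam / Real.log (2 * X) ≤ δ := by
    refine le_trans (div_le_div_of_nonneg_left (by linarith) (by linarith) ?_) hδ1
    exact Real.log_le_log h3 (by linarith)
  have h6 := h1 δ h4 hδ2
  have e1 : 2 * X / 2 = X := by ring
  rw [e1] at h6
  have hδ0 : 0 < δ := lt_of_lt_of_le (div_pos (by linarith) (by linarith)) hδ1
  have hD := DD_ge_one (by linarith : 0 < α) hδ0
  have hXD : 0 ≤ X * DD α δ := by positivity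
  refine h6.trans ?_
  exact mul_le_mul_of_nonneg_right (by linarith) hXD

lemma small_int4 {α δ X : ℝ} (hα : 0 < α) (hα2 : α ≤ 2) (hδ : 0 < δ) (hδ1 : δ ≤ 1 / 16) (hX : 1 ≤ X) {Y : ℝ}
    (hY : 0 ≤ Y) (hY1 : Y ≤ X ^ ((1:ℝ) / 8)) :
    ∫ t in (0:ℝ)..Y, zn (1 / 2 + δ) t ^ (2 * α) ≤ 331776 * X ^ ((5:ℝ) / 8) := by
  have hX0 : 0 < X := by linarith
  have hX4 : 1 ≤ X ^ ((1:ℝ) / 8) := Real.one_le_rpow hX (by norm_num)
  have h1 : ∀ t ∈ Set.uIoc (0:ℝ) Y, ‖zn (1 / 2 + δ) t ^ (2 * α)‖ ≤ 331776 * X ^ ((1:ℝ) / 2) := by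
    intro t ht
    rw [Set.uIoc_of_le hY] at ht
    rw [Real.norm_of_nonneg (Real.rpow_nonneg (zn_nonneg _ _) _)]
    have hz := zn_le' (σ := 1 / 2 + δ) (t := t) (by linarith) (by linarith)
    rw [abs_of_pos ht.1] at hz
    have hz2 : zn (1 / 2 + δ) t ≤ 24 * X ^ ((1:ℝ) / 8) := by linarith [ht.2]
    calc zn (1 / 2 + δ) t ^ (2 * α) ≤ (24 * X ^ ((1:ℝ) / 8)) ^ (2 * α) :=
          Real.rpow_le_rpow (zn_nonneg _ _) hz2 (by positivity)
      _ ≤ (24 * X ^ ((1:ℝ) / 8)) ^ (4:ℝ) := Real.rpow_le_rpow_of_exponent_le (by linarith) (by linarith)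
      _ = 331776 * X ^ ((1:ℝ) / 2) := by
          rw [show (4:ℝ) = ((4:ℕ):ℝ) by norm_num, Real.rpow_natCast, mul_pow, ← Real.rpow_natCast (X ^ ((1:ℝ) / 8)),
            ← Real.rpow_mul hX0.le]
          norm_num
  have h2 := intervalIntegral.norm_integral_le_of_norm_le_const h1
  have h3 := (le_abs_self _).trans (by rwa [Real.norm_eq_abs, sub_zero, abs_of_nonneg hY] at h2)
  refine h3.trans ?_
  calc 331776 * X ^ ((1:ℝ) / 2) * Y ≤ 331776 * X ^ ((1:ℝ) / 2) * X ^ ((1:ℝ) / 8) := by gcongr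
    _ = 331776 * X ^ ((5:ℝ) / 8) := by rw [mul_assoc, ← Real.rpow_add hX0]; norm_num

/-- the upper bound -/
theorem full_up4 {α : ℝ} (hα1 : 1 ≤ α) (hα2 : α ≤ 2) {ε : ℝ} (hε : 0 < ε) :
    ∃ lam : ℝ, 1 ≤ lam ∧ ∀ᶠ X : ℝ in atTop, ∀ δ : ℝ, lam / Real.log X ≤ δ → δ ≤ 1 / 16 →
      ∫ t in (0:ℝ)..X, zn (1 / 2 + δ) t ^ (2 * α) ≤ (1 + ε) * (X * DD α δ) := by
  have hα : 0 < α := by linarith
  set e := min (ε / 4) 1 with he
  have he0 : 0 < e := lt_min (by positivity) one_pos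
  have he1 : e ≤ ε / 4 := min_le_left _ _
  have he2 : e ≤ 1 := min_le_right _ _
  obtain ⟨lam, hl1, hw⟩ := win_X4 hα1 hα2 he0
  have hev := (hw.and ((rpow_ev (p := 4 / 5) (q := 1) (by norm_num) 4).and (eventually_ge_atTop 1)))
  rw [eventually_atTop] at hev
  obtain ⟨X0, hX0⟩ := hev
  refine ⟨8 * lam, by linarith, ?_⟩
  have ht4 : Tendsto (fun X : ℝ => X ^ ((1:ℝ) / 8)) atTop atTop := tendsto_rpow_atTop (by norm_num)
  filter_upwards [ht4.eventually_ge_atTop X0, rpow_ev (p := 4 / 5) (q := 1) (by norm_num) (8 / (ε / 4)),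
    rpow_ev (p := 5 / 8) (q := 1) (by norm_num) (331776 / (ε / 4)), eventually_ge_atTop 3] with X h1 h2 h3 h4 δ hδ1 hδ2
  have hXp : 0 < X := by linarith
  have hX1 : 1 ≤ X := by linarith
  have hL0 : 0 < Real.log X := Real.log_pos (by linarith)
  have hδ0 : 0 < δ := lt_of_lt_of_le (div_pos (by linarith) hL0) hδ1
  have hD := DD_ge_one hα hδ0
  set D := DD α δ
  have hX4 : X ^ ((1:ℝ) / 8) ≤ X := by
    have := Real.rpow_le_rpow_of_exponent_le hX1 (show (1:ℝ) / 8 ≤ 1 by norm_num)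
    rwa [Real.rpow_one] at this
  have hi : ∀ a b : ℝ, IntervalIntegrable (fun t => zn (1 / 2 + δ) t ^ (2 * α)) volume a b := fun a b =>
    (znp_cont (by linarith) (by linarith)).intervalIntegrable _ _
  have hwin : ∀ Y : ℝ, X ^ ((1:ℝ) / 8) ≤ Y → Y ≤ X →
      (2 * Y) ^ ((4:ℝ)/5) ≤ Y / 2 ∧
      ∫ t in ((2 * Y) ^ ((4:ℝ)/5))..Y, zn (1 / 2 + δ) t ^ (2 * α) ≤ (1 + e) * (Y * D) := by
    intro Y hY1 hY2
    obtain ⟨g1, g2, g3⟩ := hX0 Y (h1.trans hY1)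
    have hY0 : 0 < Y := by linarith
    constructor
    · rw [Real.rpow_one] at g2
      rw [Real.mul_rpow (by norm_num) hY0.le]
      have h5 : (2:ℝ) ^ ((4:ℝ)/5) ≤ 2 := by
        have := Real.rpow_le_rpow_of_exponent_le (show (1:ℝ) ≤ 2 by norm_num) (show (4:ℝ)/5 ≤ 1 by norm_num)
        rwa [Real.rpow_one] at this
      have h6 : (2:ℝ) ^ ((4:ℝ)/5) * Y ^ ((4:ℝ)/5) ≤ 2 * Y ^ ((4:ℝ)/5) := mul_le_mul_of_nonneg_right h5 (by positivity)
      linarith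
    · refine g1 δ ?_ hδ2
      refine le_trans ?_ hδ1
      have h5 : Real.log X / 8 ≤ Real.log Y := by
        have := Real.log_le_log (by positivity) hY1
        rw [Real.log_rpow hXp] at this
        linarith
      rw [div_le_div_iff₀ (by linarith) hL0]
      nlinarith
  have hclaim : ∀ n : ℕ, ∀ Y : ℝ, 0 ≤ Y → Y ≤ X → Y ≤ 2 ^ n * X ^ ((1:ℝ) / 8) →
      ∫ t in (0:ℝ)..Y, zn (1 / 2 + δ) t ^ (2 * α) ≤ 4 * (Y * D) + 331776 * X ^ ((5:ℝ) / 8) := by
    intro n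
    induction n with
    | zero =>
      intro Y hY0 _ hY1
      rw [pow_zero, one_mul] at hY1
      have := small_int4 hα hα2 hδ0 hδ2 hX1 hY0 hY1
      have : 0 ≤ Y * D := by positivity
      linarith
    | succ n ih =>
      intro Y hY0 hYX hY1
      rcases le_or_gt Y (X ^ ((1:ℝ) / 8)) with h5 | h5
      · have := small_int4 hα hα2 hδ0 hδ2 hX1 hY0 h5
        have : 0 ≤ Y * D := by positivity
        linarith
      · obtain ⟨g1, g2⟩ := hwin Y h5.le hYX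
        have g3 := ih (Y / 2) (by linarith) (by linarith) (by rw [pow_succ] at hY1; linarith)
        have g4 := intervalIntegral.integral_add_adjacent_intervals (hi 0 (Y / 2)) (hi (Y / 2) Y)
        have g5 : ∫ t in (Y / 2)..Y, zn (1 / 2 + δ) t ^ (2 * α) ≤ ∫ t in ((2 * Y) ^ ((4:ℝ)/5))..Y, zn (1 / 2 + δ) t ^ (2 * α) :=
          intervalIntegral.integral_mono_interval g1 (by linarith) le_rfl
            (Filter.Eventually.of_forall fun t => Real.rpow_nonneg (zn_nonneg _ _) _) (hi _ _)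
        have g6 : (1 + e) * (Y * D) ≤ 2 * (Y * D) := mul_le_mul_of_nonneg_right (by linarith) (by positivity)
        linarith
  obtain ⟨n, hn⟩ : ∃ n : ℕ, X ≤ 2 ^ n * X ^ ((1:ℝ) / 8) := by
    obtain ⟨n, hn⟩ := exists_nat_gt X
    refine ⟨n, ?_⟩
    have h5 : (n:ℝ) ≤ 2 ^ n := by
      have : n < 2 ^ n := Nat.lt_two_pow_self
      exact_mod_cast this.le
    have h6 : 1 ≤ X ^ ((1:ℝ) / 8) := Real.one_le_rpow hX1 (by norm_num)
    nlinarith
  obtain ⟨g1, g2⟩ := hwin X hX4 le_rfl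
  have hY0 : 0 ≤ (2 * X) ^ ((4:ℝ)/5) := by positivity
  have g3 := hclaim n ((2 * X) ^ ((4:ℝ)/5)) hY0 (by linarith) (by linarith)
  have g4 := intervalIntegral.integral_add_adjacent_intervals (hi 0 ((2 * X) ^ ((4:ℝ)/5))) (hi ((2 * X) ^ ((4:ℝ)/5)) X)
  rw [Real.rpow_one] at h2 h3
  have g5 : 4 * ((2 * X) ^ ((4:ℝ)/5) * D) ≤ ε / 4 * (X * D) := by
    rw [Real.mul_rpow (by norm_num) hXp.le]
    have h5 : (2:ℝ) ^ ((4:ℝ)/5) ≤ 2 := by
      have := Real.rpow_le_rpow_of_exponent_le (show (1:ℝ) ≤ 2 by norm_num) (show (4:ℝ)/5 ≤ 1 by norm_num)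
      rwa [Real.rpow_one] at this
    have h6 := mul_le_mul_of_nonneg_left h2 (by positivity : 0 ≤ ε / 4)
    have e6 : ε / 4 * (8 / (ε / 4) * X ^ ((4:ℝ) / 5)) = 8 * X ^ ((4:ℝ) / 5) := by field_simp
    rw [e6] at h6
    have h7 : (2:ℝ) ^ ((4:ℝ)/5) * X ^ ((4:ℝ)/5) ≤ 2 * X ^ ((4:ℝ)/5) := mul_le_mul_of_nonneg_right h5 (by positivity)
    calc 4 * ((2:ℝ) ^ ((4:ℝ)/5) * X ^ ((4:ℝ)/5) * D) = 4 * ((2:ℝ) ^ ((4:ℝ)/5) * X ^ ((4:ℝ)/5)) * D := by ring
      _ ≤ (ε / 4 * X) * D := mul_le_mul_of_nonneg_right (by linarith) (by linarith)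
      _ = _ := by ring
  have g6 : 331776 * X ^ ((5:ℝ) / 8) ≤ ε / 4 * (X * D) := by
    have h6 := mul_le_mul_of_nonneg_left h3 (by positivity : 0 ≤ ε / 4)
    have e6 : ε / 4 * (331776 / (ε / 4) * X ^ ((5:ℝ) / 8)) = 331776 * X ^ ((5:ℝ) / 8) := by field_simp
    rw [e6] at h6
    have h7 : X ≤ X * D := le_mul_of_one_le_right hXp.le hD
    calc _ ≤ ε / 4 * X := h6
      _ ≤ ε / 4 * (X * D) := mul_le_mul_of_nonneg_left h7 (by positivity)
  have g7 : (1 + e) * (X * D) ≤ (1 + ε / 4) * (X * D) := mul_le_mul_of_nonneg_right (by linarith) (by positivity)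
  have hXD : 0 ≤ X * D := by positivity
  nlinarith

/-- the upper bound for the moments -/
theorem mom_up4 {α : ℝ} (hα1 : 1 ≤ α) (hα2 : α ≤ 2) {ε : ℝ} (hε : 0 < ε) :
    ∃ lam : ℝ, 1 ≤ lam ∧ ∀ x : ℝ, ∀ᶠ T : ℝ in atTop, ∀ δ : ℝ, lam / Real.log T ≤ δ → δ ≤ 1 / 16 →
      mom (2 * α) (1 / 2 + δ) x T ≤ (1 + ε) * DD α δ := by
  have hα : 0 < α := by linarith
  set e := min (ε / 4) (1 / 2) with he
  have he0 : 0 < e := lt_min (by positivity) (by norm_num)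
  have he1 : e ≤ ε / 4 := min_le_left _ _
  have he2 : e ≤ 1 / 2 := min_le_right _ _
  obtain ⟨lam, hl1, hw⟩ := full_up4 hα1 hα2 he0
  refine ⟨2 * lam, by linarith, fun x => ?_⟩
  obtain ⟨C, hC0, hC⟩ := small_x x hα
  filter_upwards [shift_ev x (C := C) hl1 he0 hw] with T h δ hδ1 hδ2
  obtain ⟨h1, h2, h3, h4, h5, h6, h7, h8⟩ := h
  have hT0 : 0 < T := by linarith
  have hδ0 : 0 < δ := lt_of_lt_of_le (div_pos (by linarith) h6) hδ1
  have hD := DD_ge_one hα hδ0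
  have g1 := h1 δ (h8.trans hδ1) hδ2
  have g2 := (abs_le.mp (hC δ hδ0 hδ2)).1
  have hi : ∀ a b : ℝ, IntervalIntegrable (fun t => zn (1 / 2 + δ) t ^ (2 * α)) volume a b := fun a b =>
    (znp_cont (by linarith) (by linarith)).intervalIntegrable _ _
  have g3 := intervalIntegral.integral_add_adjacent_intervals (hi 0 x) (hi x (T + x))
  rw [mom_eq _ _ _ hT0, inv_mul_eq_div, div_le_iff₀ hT0]
  set D := DD α δ
  have g4 : (1 + e) * ((T + x) * D) ≤ (1 + e) * ((1 + e) * T * D) :=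
    mul_le_mul_of_nonneg_left (mul_le_mul_of_nonneg_right h4 (by linarith)) (by linarith)
  have hTD : T ≤ T * D := le_mul_of_one_le_right hT0.le hD
  have g5 : C ≤ e * (T * D) := h2.trans (mul_le_mul_of_nonneg_left hTD he0.le)
  have g6 : (1 + e) * ((1 + e) * T * D) + e * (T * D) ≤ (1 + ε) * D * T := by
    have : 0 ≤ T * D := by positivity
    nlinarith [sq_nonneg e]
  linarith

/-- the asymptotics along a path -/
theorem mom_path4 {α : ℝ} (hα1 : 1 ≤ α) (hα2 : α ≤ 2) (x : ℝ) {δ : ℝ → ℝ} (h1 : Tendsto δ atTop (nhds 0))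
    (h2 : Tendsto (fun T => δ T * Real.log T) atTop atTop) :
    Tendsto (fun T => (2 * δ T) ^ (α ^ 2) * mom (2 * α) (1 / 2 + δ T) x T) atTop (nhds (aF α)) := by
  have hα : 0 < α := by linarith
  have hpos : ∀ᶠ T in atTop, 0 < δ T := by
    filter_upwards [h2.eventually_gt_atTop 0, eventually_gt_atTop 1] with T hT hT1
    exact (pos_iff_pos_of_mul_pos hT).mpr (Real.log_pos hT1)
  have hD := DD_asym hα hpos h1
  have hr : Tendsto (fun T => mom (2 * α) (1 / 2 + δ T) x T / DD α (δ T)) atTop (nhds 1) := by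
    rw [Metric.tendsto_nhds]
    intro ε hε
    obtain ⟨l1, hl1, hu⟩ := mom_up4 hα1 hα2 (half_pos hε)
    obtain ⟨l2, hl2, hl⟩ := mom_low hα hα2 (half_pos hε)
    filter_upwards [hu x, hl x, h2.eventually_ge_atTop (max l1 l2), hpos, h1.eventually (gt_mem_nhds (show (0:ℝ) < 1 / 16 by norm_num)),
      eventually_gt_atTop 1] with T g1 g2 g3 g4 g5 g6
    have hL := Real.log_pos g6
    have a1 := g1 (δ T) (by rw [div_le_iff₀ hL]; exact (le_max_left _ _).trans g3) g5.le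
    have a2 := g2 (δ T) (by rw [div_le_iff₀ hL]; exact (le_max_right _ _).trans g3) g5.le
    have hD1 := DD_ge_one hα g4
    have hD0 : 0 < DD α (δ T) := by linarith
    rw [Real.dist_eq]
    refine lt_of_le_of_lt ?_ (half_lt_self hε)
    rw [abs_le]
    constructor
    · rw [le_sub_iff_add_le, le_div_iff₀ hD0]; linarith
    · rw [sub_le_iff_le_add, div_le_iff₀ hD0]; linarith
  have h3 := hD.mul hr
  rw [mul_one] at h3
  refine h3.congr' ?_
  filter_upwards [hpos] with T hT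
  have hD1 := DD_ge_one hα hT
  have : DD α (δ T) ≠ 0 := by linarith
  field_simp

end Pool.Agent.Y755
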