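import Pool.Agent.Y755.Avg2

set_option autoImplicit false

/-! The half-plane inequality for `ζ A - Q`. -/

namespace Pool.Agent.Y755

open MeasureTheory Filter Topology Complex Pool.Agent.H306R2 Pool.Agent.W184

theorem half_ptB {Q A : ℂ → ℂ} {N C1 C2 CA p Δ t : ℝ} {M : ℕ} (hp : 0 < p) (hN : 1 ≤ N) (hM : 1 ≤ M)
    (hAd : Differentiable ℂ A) (hA : ∀ z : ℂ, 1 / 2 ≤ z.re → ‖A z‖ ≤ CA)
    (hQd : Differentiable ℂ Q) (hQ1 : ∀ z : ℂ, 1 / 2 ≤ z.re → ‖Q z‖ ≤ C1)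
    (hQ2 : ∀ z : ℂ, 2 ≤ z.re → ‖riemannZeta z * A z - Q z‖ * N ^ z.re ≤ C2)
    (h0 : 0 < Δ) (h1 : Δ ≤ 1 / 8) :
    ((1 - 8 * Δ) * N ^ Δ / (1 + Δ) ^ (2 * M)) ^ p *
      ‖riemannZeta (((1 / 2 + Δ : ℝ) : ℂ) + t * I) * A (((1 / 2 + Δ : ℝ) : ℂ) + t * I) -
        Q (((1 / 2 + Δ : ℝ) : ℂ) + t * I)‖ ^ p ≤
    ∫ w : ℝ, (KP Δ w * (1 + w ^ 2) ^ (-(M * p))) *
      ‖riemannZeta (((1 / 2 : ℝ) : ℂ) + (t + w : ℝ) * I) * A (((1 / 2 : ℝ) : ℂ) + (t + w : ℝ) * I) -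
        Q (((1 / 2 : ℝ) : ℂ) + (t + w : ℝ) * I)‖ ^ p := by
  have hN0 : 0 < N := by linarith
  have hNc : (N : ℂ) ≠ 0 := by exact_mod_cast hN0.ne'
  set c : ℂ := ((1 / 2 : ℝ) : ℂ) + t * I with hc
  have hcre : c.re = 1 / 2 := by simp [hc]
  have hcim : c.im = t := by simp [hc]
  set F : ℂ → ℂ := fun z => (Zt z * A z - (z - 1) * Q z) / z * (N : ℂ) ^ (z - (1 / 2 : ℝ)) *
    (1 / (1 + z - c)) ^ (2 * M) with hF
  have hCA : 0 ≤ CA := (norm_nonneg _).trans (hA 1 (by norm_num))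
  have hne : ∀ z : ℂ, 0 < z.re → z ≠ 0 := by
    rintro z hz rfl; simp at hz
  have hne2 : ∀ z : ℂ, 0 < z.re → 1 + z - c ≠ 0 := by
    intro z hz h
    have := congrArg Complex.re h
    simp [hcre] at this
    linarith
  have hFd : ∀ z : ℂ, 0 < z.re → DifferentiableAt ℂ F z := by
    intro z hz
    refine (((((Zt_differentiableAt hz).mul (hAd z)).sub (by fun_prop)).div differentiableAt_id (hne z hz)).mul
      ?_).mul ?_
    · exact DifferentiableAt.const_cpow (by fun_prop) (Or.inl hNc)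
    · refine DifferentiableAt.pow ?_ _
      exact (differentiableAt_const _).div (by fun_prop) (hne2 z hz)
  have hg1 : ∀ z : ℂ, 1 / 2 ≤ z.re → 1 ≤ ‖1 + z - c‖ := by
    intro z hz
    have := Complex.re_le_norm (1 + z - c)
    simp only [Complex.add_re, Complex.sub_re, Complex.one_re, hcre] at this
    linarith
  have hFn : ∀ z : ℂ, ‖F z‖ = ‖(Zt z * A z - (z - 1) * Q z) / z‖ * N ^ (z.re - 1 / 2) *
      (1 / ‖1 + z - c‖) ^ (2 * M) := by
    intro z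
    rw [hF]
    simp only
    rw [norm_mul, norm_mul, Complex.norm_cpow_eq_rpow_re_of_pos hN0, norm_pow, norm_div (1:ℂ), norm_one]
    congr 2
  have hZt : ∀ z : ℂ, 0 < z.re → z ≠ 1 → Zt z * A z - (z - 1) * Q z = (z - 1) * (riemannZeta z * A z - Q z) := by
    intro z hz h1
    rw [← zeta_eq_pos hz h1]; ring
  have hC1 : 0 ≤ C1 := (norm_nonneg _).trans (hQ1 1 (by norm_num))
  have hC2 : 0 ≤ C2 := (mul_nonneg (norm_nonneg _) (by positivity)).trans (hQ2 2 (by norm_num))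
  set B : ℝ := 2 * (3 * CA + C1) * (2 + ‖c - 1‖) ^ 2 * N ^ 2 + C2 with hB
  have hb : ∀ z : ℂ, 1 / 2 ≤ z.re → ‖F z‖ ≤ B := by
    intro z hz
    have hz0 : 0 < z.re := by linarith
    have hgz := hg1 z hz
    have hgz0 : 0 < ‖1 + z - c‖ := by linarith
    have hpw : (1 / ‖1 + z - c‖) ^ (2 * M) ≤ (1 / ‖1 + z - c‖) ^ 2 := by
      refine pow_le_pow_of_le_one (by positivity) ?_ (by omega)
      rw [div_le_one hgz0]; exact hgz
    have hzn : 1 / 2 ≤ ‖z‖ := hz.trans (Complex.re_le_norm z)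
    rw [hFn]
    rcases le_total z.re 2 with h2 | h2
    · have b1 : ‖(Zt z * A z - (z - 1) * Q z) / z‖ ≤ 2 * (3 * CA + C1) * (‖z‖ + 1) ^ 2 := by
        rw [norm_div, div_le_iff₀ (by linarith)]
        have a1 : ‖Zt z * A z‖ ≤ 3 * (‖z‖ + 1) ^ 2 * CA := by
          rw [norm_mul]
          exact mul_le_mul (Zt_norm_le hz) (hA z hz) (norm_nonneg _) (by positivity)
        have a2 : ‖(z - 1) * Q z‖ ≤ (‖z‖ + 1) * C1 := by
          rw [norm_mul]
          have := norm_sub_le z 1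
          rw [norm_one] at this
          exact mul_le_mul this (hQ1 z hz) (norm_nonneg _) (by positivity)
        have a3 := norm_sub_le (Zt z * A z) ((z - 1) * Q z)
        have a4 : (‖z‖ + 1) * C1 ≤ (‖z‖ + 1) ^ 2 * C1 := by
          have : ‖z‖ + 1 ≤ (‖z‖ + 1) ^ 2 := by nlinarith [norm_nonneg z]
          exact mul_le_mul_of_nonneg_right this hC1
        have a5 : (3 * CA + C1) * (‖z‖ + 1) ^ 2 ≤ 2 * (3 * CA + C1) * (‖z‖ + 1) ^ 2 * ‖z‖ := by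
          have : 0 ≤ (3 * CA + C1) * (‖z‖ + 1) ^ 2 := by positivity
          nlinarith
        nlinarith
      have b2 : N ^ (z.re - 1 / 2) ≤ N ^ 2 := by
        rw [← Real.rpow_natCast]
        refine Real.rpow_le_rpow_of_exponent_le hN ?_
        push_cast; linarith
      have b3 : ‖z‖ + 1 ≤ ‖1 + z - c‖ * (2 + ‖c - 1‖) := by
        have a1 : ‖z‖ ≤ ‖1 + z - c‖ + ‖c - 1‖ := by
          have := norm_add_le (1 + z - c) (c - 1)
          rwa [show 1 + z - c + (c - 1) = z by ring] at this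
        nlinarith [norm_nonneg (c - 1)]
      have b4 : (‖z‖ + 1) ^ 2 * (1 / ‖1 + z - c‖) ^ 2 ≤ (2 + ‖c - 1‖) ^ 2 := by
        rw [← mul_pow]
        refine pow_le_pow_left₀ (by positivity) ?_ 2
        rw [mul_one_div, div_le_iff₀ hgz0]
        linarith
      calc ‖(Zt z * A z - (z - 1) * Q z) / z‖ * N ^ (z.re - 1 / 2) * (1 / ‖1 + z - c‖) ^ (2 * M) ≤
          (2 * (3 * CA + C1) * (‖z‖ + 1) ^ 2) * N ^ 2 * (1 / ‖1 + z - c‖) ^ 2 := by gcongr
        _ = 2 * (3 * CA + C1) * ((‖z‖ + 1) ^ 2 * (1 / ‖1 + z - c‖) ^ 2) * N ^ 2 := by ring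
        _ ≤ 2 * (3 * CA + C1) * (2 + ‖c - 1‖) ^ 2 * N ^ 2 := by gcongr
        _ ≤ B := by linarith
    · have hz1 : z ≠ 1 := by
        rintro rfl; norm_num at h2
      rw [hZt z hz0 hz1, nrm_swap]
      have b1 : ‖(z - 1) / z‖ ≤ 1 := by
        rw [norm_div, div_le_one (by linarith)]
        have e1 : ‖z - 1‖ ^ 2 ≤ ‖z‖ ^ 2 := by
          rw [Complex.sq_norm, Complex.sq_norm, Complex.normSq_apply, Complex.normSq_apply]
          simp
          nlinarith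
        exact (abs_le_of_sq_le_sq' e1 (norm_nonneg _)).2
      have b2 : N ^ (z.re - 1 / 2) ≤ N ^ z.re := Real.rpow_le_rpow_of_exponent_le hN (by linarith)
      have b3 : (1 / ‖1 + z - c‖) ^ (2 * M) ≤ 1 := by
        refine pow_le_one₀ (by positivity) ?_
        rw [div_le_one hgz0]; exact hgz
      calc ‖riemannZeta z * A z - Q z‖ * ‖(z - 1) / z‖ * N ^ (z.re - 1 / 2) * (1 / ‖1 + z - c‖) ^ (2 * M) ≤
          ‖riemannZeta z * A z - Q z‖ * 1 * N ^ z.re * 1 := by gcongr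
        _ = ‖riemannZeta z * A z - Q z‖ * N ^ z.re := by ring
        _ ≤ C2 := hQ2 z h2
        _ ≤ B := by
          have : 0 ≤ 2 * (3 * CA + C1) * (2 + ‖c - 1‖) ^ 2 * N ^ 2 := by positivity
          linarith
  have hmain := hp_ineq (F := F) (b := 1 / 2) (t := t) (C := B) h0 hp ?_ ?_ ?_
  · have e1 : (((1 / 2 : ℝ) : ℂ) + Δ + t * I) = (((1 / 2 + Δ : ℝ) : ℂ) + t * I) := by push_cast; ring
    have hz1 : (((1 / 2 : ℝ) : ℂ) + Δ + t * I) ≠ 1 := by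
      intro h
      have := congrArg Complex.re h
      simp at this
      linarith
    have hre : (((1 / 2 : ℝ) : ℂ) + Δ + t * I).re = 1 / 2 + Δ := by simp
    have hlow : ((1 - 8 * Δ) * N ^ Δ / (1 + Δ) ^ (2 * M)) *
        ‖riemannZeta (((1 / 2 + Δ : ℝ) : ℂ) + t * I) * A (((1 / 2 + Δ : ℝ) : ℂ) + t * I) -
          Q (((1 / 2 + Δ : ℝ) : ℂ) + t * I)‖ ≤
        ‖F (((1 / 2 : ℝ) : ℂ) + Δ + t * I)‖ := by
      rw [hFn, hZt _ (by rw [hre]; linarith) hz1, nrm_swap, hre, ← e1]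
      have h3 := norm_ratio_ge (t := t) h0.le (by linarith : 8 * Δ ≤ 1)
      have e2 : ‖1 + (((1 / 2 : ℝ) : ℂ) + Δ + t * I) - c‖ = 1 + Δ := by
        rw [hc, show 1 + (((1 / 2 : ℝ) : ℂ) + Δ + t * I) - (((1 / 2 : ℝ) : ℂ) + t * I) =
          ((1 + Δ : ℝ) : ℂ) by push_cast; ring, Complex.norm_real, Real.norm_of_nonneg (by linarith)]
      rw [e2, show (1 / 2 + Δ - 1 / 2) = Δ by ring, one_div (1 + Δ), inv_pow]
      set X := ‖riemannZeta (((1 / 2 : ℝ) : ℂ) + Δ + t * I) * A (((1 / 2 : ℝ) : ℂ) + Δ + t * I) -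
        Q (((1 / 2 : ℝ) : ℂ) + Δ + t * I)‖ with hXd
      have hX : 0 ≤ X := norm_nonneg _
      have hY : 0 ≤ N ^ Δ * ((1 + Δ) ^ (2 * M))⁻¹ := by positivity
      calc ((1 - 8 * Δ) * N ^ Δ / (1 + Δ) ^ (2 * M)) * X =
            (1 - 8 * Δ) * (X * (N ^ Δ * ((1 + Δ) ^ (2 * M))⁻¹)) := by
              rw [div_eq_mul_inv]; ring
        _ ≤ ‖(((1 / 2 : ℝ) : ℂ) + Δ + t * I - 1) / (((1 / 2 : ℝ) : ℂ) + Δ + t * I)‖ *
            (X * (N ^ Δ * ((1 + Δ) ^ (2 * M))⁻¹)) :=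
              mul_le_mul_of_nonneg_right h3 (mul_nonneg hX hY)
        _ = _ := by ring
    have hlow2 : 0 ≤ (1 - 8 * Δ) * N ^ Δ / (1 + Δ) ^ (2 * M) := by
      have : 0 ≤ 1 - 8 * Δ := by linarith
      positivity
    rw [← Real.mul_rpow hlow2 (norm_nonneg _)]
    refine (Real.rpow_le_rpow (mul_nonneg hlow2 (norm_nonneg _)) hlow hp.le).trans ?_
    refine hmain.trans (le_of_eq ?_)
    refine integral_congr_ae (Filter.Eventually.of_forall fun w => ?_)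
    beta_reduce
    have r1 : (((1 / 2 : ℝ) : ℂ) + ((t + w : ℝ) : ℂ) * I).re = 1 / 2 := by simp
    have hz2 : (((1 / 2 : ℝ) : ℂ) + ((t + w : ℝ) : ℂ) * I) ≠ 1 := by
      intro h
      have := congrArg Complex.re h
      rw [r1] at this
      norm_num at this
    rw [hFn, hZt _ (by rw [r1]; norm_num) hz2, nrm_swap, r1,
      norm_ratio_half, sub_self, Real.rpow_zero, mul_one, mul_one]
    have e3 : ‖1 + (((1 / 2 : ℝ) : ℂ) + ((t + w : ℝ) : ℂ) * I) - c‖ ^ 2 = 1 + w ^ 2 := by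
      rw [hc, show 1 + (((1 / 2 : ℝ) : ℂ) + ((t + w : ℝ) : ℂ) * I) - (((1 / 2 : ℝ) : ℂ) + t * I) =
        1 + (w : ℂ) * I by push_cast; ring, Complex.sq_norm, Complex.normSq_apply]
      simp
      ring
    have h4 : 0 < 1 + w ^ 2 := by positivity
    have e5 : (1 / ‖1 + (((1 / 2 : ℝ) : ℂ) + ((t + w : ℝ) : ℂ) * I) - c‖) ^ 2 = (1 + w ^ 2)⁻¹ := by
      rw [div_pow, one_pow, e3, one_div]
    rw [pow_mul, e5, Real.mul_rpow (norm_nonneg _) (by positivity)]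
    have e4 : (((1 + w ^ 2)⁻¹) ^ M : ℝ) ^ p = (1 + w ^ 2) ^ (-(M * p)) := by
      rw [← Real.rpow_natCast, Real.inv_rpow h4.le, ← Real.rpow_neg h4.le, ← Real.rpow_mul h4.le]
      congr 1; ring
    rw [e4]
    ring
  · intro z hz
    have hz' : (1:ℝ) / 2 < z.re := hz
    exact (hFd z (by linarith)).differentiableWithinAt
  · intro z hz
    have hz' : (1:ℝ) / 2 ≤ z.re := hz
    exact (hFd z (by linarith)).continuousAt.continuousWithinAt
  · intro z hz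
    have hz' : (1:ℝ) / 2 < z.re := hz
    exact hb z hz'.le

/-- `|ζ A - Q|^2` on the line `Re s = σ` -/
noncomputable def qd (A Q : ℂ → ℂ) (σ t : ℝ) : ℝ :=
  ‖riemannZeta ((σ : ℂ) + t * Complex.I) * A ((σ : ℂ) + t * Complex.I) - Q ((σ : ℂ) + t * Complex.I)‖ ^ 2

lemma qd_nonneg (A Q : ℂ → ℂ) (σ t : ℝ) : 0 ≤ qd A Q σ t := by unfold qd; positivity

lemma zeta_cont {σ : ℝ} (hσ : σ < 1) : Continuous fun t : ℝ => riemannZeta ((σ : ℂ) + t * Complex.I) := by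
  rw [continuous_iff_continuousAt]
  intro t
  have h2 : ContinuousAt riemannZeta ((σ : ℂ) + t * Complex.I) :=
    (zeta_diffAt (by simpa using hσ)).continuousAt
  exact ContinuousAt.comp (f := fun t : ℝ => (σ : ℂ) + t * Complex.I) h2 (by fun_prop)

lemma qd_cont {A Q : ℂ → ℂ} (hA : Differentiable ℂ A) (hQ : Differentiable ℂ Q) {σ : ℝ}
    (hσ : σ < 1) : Continuous (qd A Q σ) := by
  unfold qd
  have h1 : Continuous fun t : ℝ => (σ : ℂ) + t * Complex.I := by fun_prop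
  exact ((((zeta_cont hσ).mul (hA.continuous.comp h1)).sub (hQ.continuous.comp h1)).norm).pow 2

/-- integrated form over a window -/
theorem hp_win {Q A : ℂ → ℂ} {N C1 C2 CA Δ a b U B : ℝ} (hN : 1 ≤ N)
    (hAd : Differentiable ℂ A) (hA : ∀ z : ℂ, 1 / 2 ≤ z.re → ‖A z‖ ≤ CA)
    (hQd : Differentiable ℂ Q) (hQ1 : ∀ z : ℂ, 1 / 2 ≤ z.re → ‖Q z‖ ≤ C1)
    (hQ2 : ∀ z : ℂ, 2 ≤ z.re → ‖riemannZeta z * A z - Q z‖ * N ^ z.re ≤ C2)
    (h0 : 0 < Δ) (h1 : Δ ≤ 1 / 8) (hab : a ≤ b) (hU : 1 ≤ U) (hB : 0 ≤ B)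
    (hGB : ∀ x, qd A Q (1 / 2) x ≤ B * (1 + x ^ 2)) :
    ((1 - 8 * Δ) * N ^ Δ / (1 + Δ) ^ 16) ^ 2 * ∫ t in a..b, qd A Q (1 / 2 + Δ) t ≤
      (∫ t in (a - U)..(b + U), qd A Q (1 / 2) t) +
      (b - a) * (2 * (2 * B * (1 + a ^ 2)) * (1 + (b - a) ^ 2)) * (Real.pi * (1 / Δ) * (U ^ 28)⁻¹) := by
  set K : ℝ → ℝ := fun w => KP Δ w * (1 + w ^ 2) ^ (-(16:ℝ)) with hKe
  have hKc : Continuous K := by
    rw [hKe]
    refine (KP_cont h0).mul ?_
    refine Continuous.rpow_const (by fun_prop) fun w => Or.inl ?_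
    positivity
  have hpw : ∀ w : ℝ, (1 + w ^ 2) ^ (-(16:ℝ)) ≤ 1 := fun w =>
    Real.rpow_le_one_of_one_le_of_nonpos (by nlinarith [sq_nonneg w]) (by norm_num)
  have hK0 : ∀ w, 0 ≤ K w := by
    intro w
    rw [hKe]
    exact mul_nonneg (KP_nonneg h0 w) (by positivity)
  have hKb : ∀ w, K w ≤ (1 / Δ) * (1 + w ^ 2) ^ (-(16:ℝ)) := by
    intro w
    rw [hKe]
    exact mul_le_mul_of_nonneg_right (KP_le h0 w) (by positivity)
  obtain ⟨i1, -, -⟩ := tail_int (A := 1 / Δ) (U := U) (by positivity) hU hKc hK0 hKb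
  obtain ⟨i2, i3⟩ := tail_int2 (A := 1 / Δ) (U := U) (by positivity) hU hKc hK0 hKb
  have hKm : ∫ w, K w ≤ 1 := by
    obtain ⟨j1, j2⟩ := KP_int h0
    rw [← j2]
    refine integral_mono i1 j1 fun w => ?_
    rw [hKe]
    exact mul_le_of_le_one_right (KP_nonneg h0 w) (hpw w)
  have hc0 := qd_cont hAd hQd (σ := 1 / 2) (by norm_num)
  have hc1 := qd_cont hAd hQd (σ := 1 / 2 + Δ) (by linarith)
  set fac : ℝ := ((1 - 8 * Δ) * N ^ Δ / (1 + Δ) ^ 16) ^ 2 with hfac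
  have hpt : ∀ t ∈ Set.Icc 0 (b - a), fac * qd A Q (1 / 2 + Δ) (t + a) ≤ ∫ w, K w * qd A Q (1 / 2) (t + w + a) := by
    intro t _
    have h2 := half_ptB (t := t + a) (M := 8) (p := 2) (by norm_num) hN (by norm_num) hAd hA hQd hQ1 hQ2 h0 h1
    have e1 : ((8:ℕ):ℝ) * 2 = 16 := by norm_num
    simp only [Real.rpow_two, e1, Nat.reduceMul] at h2
    refine h2.trans (le_of_eq ?_)
    refine integral_congr_ae (Filter.Eventually.of_forall fun w => ?_)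
    simp only [hKe, qd]
    congr 3
    have e2 : ((t + a + w : ℝ) : ℂ) = ((t + w + a : ℝ) : ℂ) := by push_cast; ring
    rw [e2]
  have hGB' : ∀ x, qd A Q (1 / 2) (x + a) ≤ (2 * B * (1 + a ^ 2)) * (1 + x ^ 2) := by
    intro x
    refine (hGB (x + a)).trans ?_
    rw [mul_comm (2:ℝ) B, mul_assoc, mul_assoc]
    refine mul_le_mul_of_nonneg_left ?_ hB
    nlinarith [sq_nonneg (x - a), mul_nonneg (sq_nonneg x) (sq_nonneg a)]
  have hmain := avg_le2 (K := K) (G := fun x => qd A Q (1 / 2) (x + a)) (H := fun t => fac * qd A Q (1 / 2 + Δ) (t + a))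
    (T := b - a) (U := U) (B := 2 * B * (1 + a ^ 2)) (by linarith) (by linarith) (by positivity) hKc hK0 i2 i1
    (hc0.comp (by fun_prop)) (fun x => qd_nonneg _ _ _ _) hGB'
    (continuous_const.mul (hc1.comp (by fun_prop))) hpt
  have e3 : ∫ t in (0:ℝ)..(b - a), qd A Q (1 / 2 + Δ) (t + a) = ∫ t in a..b, qd A Q (1 / 2 + Δ) t := by
    rw [intervalIntegral.integral_comp_add_right (fun t => qd A Q (1 / 2 + Δ) t)]
    congr 1 <;> ring
  have e4 : ∫ t in (-U)..(b - a + U), qd A Q (1 / 2) (t + a) = ∫ t in (a - U)..(b + U), qd A Q (1 / 2) t := by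
    rw [intervalIntegral.integral_comp_add_right (fun t => qd A Q (1 / 2) t)]
    congr 1 <;> ring
  rw [intervalIntegral.integral_const_mul, e3, e4] at hmain
  refine hmain.trans (add_le_add ?_ (mul_le_mul_of_nonneg_left i3 ?_))
  · have hE0 : 0 ≤ ∫ t in (a - U)..(b + U), qd A Q (1 / 2) t :=
      intervalIntegral.integral_nonneg (by linarith) fun x _ => qd_nonneg _ _ _ _
    exact mul_le_of_le_one_left hE0 hKm
  · have : 0 ≤ b - a := by linarith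
    positivity

end Pool.Agent.Y755
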