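import Pool.Agent.Y755.Gm9

set_option autoImplicit false

/-! The asymptotics on the good set over a window. -/

namespace Pool.Agent.Y755

open Finset Filter MeasureTheory
open Pool.Agent.W184.NZ
open Pool.Agent.W184 (zn zn_nonneg zn_cont zn_le')

section

variable {M : ℕ} {c y δ κ e e1 ε W X1 X2 Y : ℝ} {z J Rs N K : ℕ} {A0 : P1} {m : ℝ}

/-- off the good set, final form -/
theorem inst_off (hM : 1 ≤ M) (hz : 40000 * M ^ 6 ≤ z) (h : Sy c z y J Rs N K) (hA : Bd1 m A0)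
    (hAm : A0 ∈ SA1 (M1 (S0 z))) (hm0 : 0 ≤ m) (hmK : m < 2 ^ (K + 1)) (hmN : m * W ≤ N) (hδ : 0 ≤ δ) (hδ1 : δ ≤ 1 / 16)
    (hκ1 : |κ - 1| ≤ M) (he1 : 0 < e1) (he11 : e1 ≤ 1) (hε : 0 < ε) (he : e = ε * e1 ^ 2 / 600) (he100 : e ≤ 1 / 100)
    (h4 : 4 * Real.exp (-(2 * (Rs:ℝ))) ≤ e1 / 8) (hE : ETM M c z y J Rs ≤ e) (hX1 : 0 ≤ X1) (hX12 : X1 ≤ X2)
    (hW : Real.exp (Real.log y * (180 * (M * ((Rs:ℝ) + 1)))) ≤ W)
    (hQ : ∫ t in X1..X2, qd (fun s => es s (Pz z * A0 * Bm M (κ - 1) z y J Rs))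
          (fun s => es s (Dm N M (κ - 1) z y J Rs A0)) (1 / 2 + δ) t ≤ e * Y)
    (hsm : (2 ^ (S0 z).card * l1' A0) ^ 2 / 2 ^ (K + 1) ≤ e * ip δ A0 A0) (hv : 2 * vd δ (Rst N y) ≤ e) (hY : 0 ≤ Y)
    (hMX : X2 * (ip δ A0 A0 * Real.exp (κ ^ 2 * Vd δ z y J)) ≤ 2 * Y)
    (hE4 : 8 * N * ((N:ℝ) ^ 2 * (l1' (Pz z * A0) ^ 2 * W) + l1' A0 ^ 2 * W) ≤ e * Y)
    (hE5 : 4 * m * l1' A0 ^ 2 * W ^ 6 ≤ e * Y) :
    ∫ t in Set.Ioc X1 X2 \ Gh z y J Rs e1 δ, ‖es (1 / 2 + δ + t * Complex.I) (A0 * Bm M κ z y J Rs)‖ ^ 2 ≤ ε * Y := by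
  have he0 : 0 < e := by rw [he]; positivity
  obtain ⟨g1, g2⟩ := Fm_int hM hz h hA hAm hm0 hmK hmN hδ hδ1 hκ1 he1 (hE.trans (by linarith)) hX1 hX12 hW hQ
  refine (off_int hM h hA hm0 hδ1 hκ1 he1 he11 h4 hX12 hW g1).trans (g2.trans ?_)
  obtain ⟨k1, k2, k3, k4⟩ := coef (E := κ ^ 2 * Vd δ z y J) he0 he100 (ip_self_nonneg δ A0)
    (by positivity) hsm (ETM_nonneg M c z y J Rs) hE (vd_nonneg δ (Rst N y)) hv
  exact arith_off he1 he11 hε he (hX1.trans hX12) hY le_rfl k3 k4 hMX hE4 hE5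

end

lemma Bm_zero (M : ℕ) (z : ℕ) (y : ℝ) (J Rs : ℕ) : Bm M 0 z y J Rs = 1 := by
  unfold Bm
  refine prod_eq_one fun i _ => ?_
  unfold NK
  rw [sum_range_succ', sum_eq_zero]
  · simp
  · intro k _
    rw [zero_pow (by omega), zero_div, zero_smul]

set_option maxHeartbeats 4000000 in
/-- the asymptotics on the good set -/
theorem win_good {M : ℕ} (hM : 1 ≤ M) {ε : ℝ} (hε : 0 < ε) (hε1 : ε ≤ 1 / 10) :
    ∃ lam : ℝ, 1 ≤ lam ∧ ∀ᶠ T : ℝ in atTop, ∀ δ : ℝ, lam / Real.log T ≤ δ → δ ≤ 1 / 16 →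
      ∃ G : Set ℝ, MeasurableSet G ∧ (volume (Set.Ioc (T ^ ((4:ℝ)/5)) (T / 2) \ G)).toReal ≤ ε * T ∧
      ∀ α : ℝ, 0 < α → α ≤ M →
        |(∫ t in Set.Ioc (T ^ ((4:ℝ)/5)) (T / 2) ∩ G, zn (1 / 2 + δ) t ^ (2 * α)) - T / 2 * DD α δ| ≤
          14 * ε * (T / 2 * DD α δ) := by
  have hM1 : (1:ℝ) ≤ M := by exact_mod_cast hM
  have hM0 : (0:ℝ) < M := by linarith
  obtain ⟨e1, he1, he11, hp1, hp2⟩ := e1_ex hM hε hε1
  set e := ε * e1 ^ 2 / 600 with he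
  have he0 : 0 < e := by positivity
  have he600 : e ≤ ε / 600 := by
    have h1 : e1 ^ 2 ≤ 1 := pow_le_one₀ he1.le he11.le
    have : ε * e1 ^ 2 ≤ ε * 1 := mul_le_mul_of_nonneg_left h1 hε.le
    rw [he]; linarith
  have he100 : e ≤ 1 / 100 := by linarith
  obtain ⟨c, hc, hpar⟩ := par_ex
  obtain ⟨z1, R1, hET1⟩ := ETM_small M hc he0
  obtain ⟨z2, R2, hET2⟩ := ETM_small 1 hc he0
  obtain ⟨z3, x0, hx0, hcmp⟩ := cmp_u (Mx := M) hM0 hε
  obtain ⟨z, hzz1, hzz2, hzz3, hzM, hz1000, hz40⟩ : ∃ z : ℕ, z1 ≤ z ∧ z2 ≤ z ∧ z3 ≤ z ∧ 40000 * M ^ 6 ≤ z ∧ 1000 ≤ z ∧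
      40000 * 1 ^ 6 ≤ z := by
    have h1 : 1 ≤ M ^ 6 := Nat.one_le_pow _ _ (by omega)
    refine ⟨z1 + z2 + z3 + 40000 * M ^ 6, by omega, by omega, by omega, by omega, by omega, by omega⟩
  obtain ⟨Rs, hRok, hRRm, h4, _⟩ := Rs_exists (c := c) (ε := min (ε / 4) (e1 / 8)) (by positivity) (max R1 R2)
  have hR1 : R1 ≤ Rs := (le_max_left _ _).trans hRRm
  have hR2 : R2 ≤ Rs := (le_max_right _ _).trans hRRm
  have h4a : 4 * Real.exp (-(2 * (Rs:ℝ))) ≤ ε / 4 := h4.trans (min_le_left _ _)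
  have h4b : 4 * Real.exp (-(2 * (Rs:ℝ))) ≤ e1 / 8 := h4.trans (min_le_right _ _)
  have hRs1 : 1 ≤ Rs := hRok.1
  obtain ⟨m0, l0, hl00, hex⟩ := small_ex_u (M := (M:ℝ)) hM0 z hε
  set m : ℝ := max m0 1 with hm
  set l : ℝ := max l0 1 with hl
  have hm1 : 1 ≤ m := le_max_right _ _
  have hm0 : 0 ≤ m := by linarith
  have hl1 : 1 ≤ l := le_max_right _ _
  have hl0 : 0 ≤ l := by linarith
  set LP : ℝ := l1' (Pz z) * l with hLP
  have hLP0 : 0 ≤ LP := mul_nonneg (l1'_nonneg _) hl0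
  obtain ⟨ηm, hηm, hmono⟩ := mono_moment
  have hq0 : 0 < min ηm (1 / 4) := lt_min hηm (by norm_num)
  have hq1 : min ηm (1 / 4) ≤ 1 / 4 := min_le_right _ _
  have hRp : (0:ℝ) < M * ((Rs:ℝ) + 1) := by positivity
  set η : ℝ := min ηm (1 / 4) / 4000 / (M * ((Rs:ℝ) + 1)) with hηd
  have hη : 0 < η := by positivity
  have hη1 : η * (M * ((Rs:ℝ) + 1)) = min ηm (1 / 4) / 4000 := by rw [hηd]; field_simp
  have hη2 : η * (M * ((Rs:ℝ) + 1)) ≤ 1 / 16000 := by rw [hη1]; linarith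
  have hη16 : η ≤ 1 / 16 := by
    have : η * 1 ≤ η * (M * ((Rs:ℝ) + 1)) := mul_le_mul_of_nonneg_left (by
      have : (0:ℝ) ≤ Rs := Nat.cast_nonneg _
      nlinarith) hη.le
    linarith
  obtain ⟨d, hd, hpar2⟩ := hpar z Rs hz1000 hRs1 η hη hη16
  obtain ⟨Con, hCon, hon⟩ := onl_all (M := M) hM hc hηm hmono hη hη1.le hRok hd
  set sz : ℝ := (2 ^ (S0 z).card * l) ^ 2 with hsz
  have hsz0 : 0 ≤ sz := sq_nonneg _
  set A1 : ℝ := (l ^ 2 + sz) * Real.exp ((M:ℝ) ^ 2 * d + 2 * d + 1) with hA1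
  have hA10 : 0 ≤ A1 := by positivity
  set Cq : ℝ := 32 * (2 * (LP ^ 2 * Con) + 2 * (A1 + 1) + 1) with hCq
  have hCq0 : 0 < Cq := by positivity
  obtain ⟨c20, hc20, hDD⟩ := DD_low_u (M := (M:ℝ)) hM0
  set c2 : ℝ := min c20 1 with hc2
  have hc20' : 0 < c2 := lt_min hc20 one_pos
  obtain ⟨l2, hl2, hQs⟩ := Q_small M hCq0 hc20' he0
  obtain ⟨l3, hl3⟩ := exp_ex (C := 2 * d) hη he0
  set lam : ℝ := max l2 (max l3 (x0 / η)) with hlam
  have hlaml2 : l2 ≤ lam := le_max_left _ _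
  have hlaml3 : l3 ≤ lam := (le_max_left _ _).trans (le_max_right _ _)
  have hlamx : x0 / η ≤ lam := (le_max_right _ _).trans (le_max_right _ _)
  have hlam1 : 1 ≤ lam := hl2.trans hlaml2
  refine ⟨lam, hlam1, ?_⟩
  set K0 : ℝ := 8 * (LP ^ 2 + l ^ 2) + 4 * m * l ^ 2 with hK0
  filter_upwards [hpar2, hon, hpa_gen LP, windows_ev, eventually_ge_atTop (10 ^ 10),
    NT_ev (max 1 (max m (sz / (e * (9 / 10))))),
    rpow_ev (p := 1 / 50) (q := 1 / 9) (by norm_num) m,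
    rpow_ev (p := 1 / 2) (q := 1) (by norm_num) (2 * K0 / e),
    rpow_ev (p := 4 / 5) (q := 1) (by norm_num) (2 / ε),
    Real.tendsto_log_atTop.eventually_ge_atTop 1] with T t1 ton thp t3 t4 t5 t6 t7 t8 t9 δ hδ1 hδ2
  obtain ⟨J, hS, hV, hWd⟩ := t1
  have hT0 : 0 < T := by linarith
  have hT1 : 1 ≤ T := by linarith
  have hL0 : 0 < Real.log T := by linarith
  have hx : lam ≤ δ * Real.log T := by rwa [div_le_iff₀ hL0] at hδ1
  have hδ0 : 0 < δ := by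
    by_contra hcon
    have := mul_nonpos_of_nonpos_of_nonneg (not_lt.mp hcon) hL0.le
    linarith
  have hδL : 1 / Real.log T ≤ δ := le_trans (div_le_div_of_nonneg_right hlam1 hL0.le) hδ1
  have hAT : T ^ ((3:ℝ)/4) ≤ T := by linarith [Real.rpow_nonneg hT0.le (1/4), t3.2.1, t3.1, t3.2.2]
  set y := yT η T with hy
  set N := NT T with hN
  set K := KT T with hK
  have hly : Real.log y = η * Real.log T := Real.log_exp _
  have hNr : (1:ℝ) ≤ N := (le_max_left _ _).trans t5.1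
  have hmN : m ≤ N := ((le_max_left _ _).trans (le_max_right _ _)).trans t5.1
  have hszN : sz / (e * (9 / 10)) ≤ N := ((le_max_right _ _).trans (le_max_right _ _)).trans t5.1
  have hNK : (N:ℝ) < 2 ^ (K + 1) := by
    have : ((N : ℕ) : ℝ) < ((2 ^ (K + 1) : ℕ) : ℝ) := by exact_mod_cast hS.NK
    push_cast at this
    exact this
  have hmK : m < 2 ^ (K + 1) := by linarith
  have hX2 : (0:ℝ) ≤ T / 2 := by linarith
  have hX1 : 0 ≤ T ^ ((4:ℝ)/5) := by positivity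
  -- the tail
  have hv : 2 * vd δ (Rst N y) ≤ e := by
    have h1 := vd_rst hδ0.le hS.y1 (P := Rst N y) fun p hp => ⟨Rst_prime p hp, (mem_Rst.mp hp).2⟩
    rw [hly] at h1
    have h2 := hl3 (δ * Real.log T) (hlaml3.trans hx)
    have h3 : Real.exp (-(2 * (δ * (η * Real.log T)))) * vd 0 (Rst N y) ≤ Real.exp (-(2 * (δ * (η * Real.log T)))) * d :=
      mul_le_mul_of_nonneg_left hWd (Real.exp_pos _).le
    have e1 : δ * (η * Real.log T) = δ * Real.log T * η := by ring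
    rw [e1] at h1 h3
    linarith
  set W := T ^ ((1:ℝ) / 50) with hWdef
  have hW0 : 0 < W := Real.rpow_pos_of_pos hT0 _
  have hWM : Real.exp (Real.log y * (180 * (M * ((Rs:ℝ) + 1)))) ≤ W := by
    rw [hly, hWdef, Real.rpow_def_of_pos hT0]
    refine Real.exp_le_exp.mpr ?_
    have e : η * Real.log T * (180 * (M * ((Rs:ℝ) + 1))) = 180 * (η * (M * ((Rs:ℝ) + 1))) * Real.log T := by ring
    rw [e, mul_comm (Real.log T)]
    exact mul_le_mul_of_nonneg_right (by linarith) hL0.le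
  have hW1 : Real.exp (Real.log y * (180 * (((1:ℕ):ℝ) * ((Rs:ℝ) + 1)))) ≤ W := by
    rw [Nat.cast_one, one_mul]; exact W_of hM hS hWM
  have hmW : m * W ≤ N := t6.trans t5.2
  -- the key estimate
  have key : ∀ (M' : ℕ) (κ : ℝ) (A0 : P1) (D : ℝ), ((M' = 1 ∧ |κ - 1| ≤ 1) ∨ (M' = M ∧ 0 ≤ κ - 1 ∧ κ - 1 ≤ M)) →
      0 ≤ κ → κ ≤ M → Bd1 m A0 → A0 ∈ SA1 (M1 (S0 z)) → l1' A0 ≤ l → 9 / 10 ≤ ip δ A0 A0 →
      T / 2 * (ip δ A0 A0 * Real.exp (κ ^ 2 * Vd δ z y J)) ≤ 2 * (T / 2 * D) → c2 * δ ^ (-(κ ^ 2)) ≤ D → 1 ≤ D →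
      1 ≤ M' ∧ |κ - 1| ≤ M' ∧ 40000 * M' ^ 6 ≤ z ∧ ETM M' c z y J Rs ≤ e ∧
      Real.exp (Real.log y * (180 * (M' * ((Rs:ℝ) + 1)))) ≤ W ∧
      4 * (m * W) * (l1' A0 ^ 2 * W) ≤ e * (T / 2 * D) ∧
      ∫ t in Set.Ioc (T ^ ((4:ℝ)/5)) (T / 2) \ Gh z y J Rs e1 δ,
        ‖es (1 / 2 + δ + t * Complex.I) (A0 * Bm M' κ z y J Rs)‖ ^ 2 ≤ ε * (T / 2 * D) := by
    intro M' κ A0 D hcase hκ0 hκM hA hAm hlA hip9 hMX hDlow hD1
    have hM' : 1 ≤ M' := by rcases hcase with ⟨h, _⟩ | ⟨h, _⟩ <;> omega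
    have hκ1 : |κ - 1| ≤ M' := by
      rcases hcase with ⟨h, h2⟩ | ⟨h, h2, h3⟩
      · rw [h, Nat.cast_one]; exact h2
      · rw [h, abs_of_nonneg h2]; exact h3
    have hzM' : 40000 * M' ^ 6 ≤ z := by
      rcases hcase with ⟨h, _⟩ | ⟨h, _⟩
      · rw [h]; exact hz40
      · rw [h]; exact hzM
    have hET : ETM M' c z y J Rs ≤ e := by
      rcases hcase with ⟨h, _⟩ | ⟨h, _⟩
      · rw [h]; exact hET2 z hzz2 Rs hR2 y J hS.rg
      · rw [h]; exact hET1 z hzz1 Rs hR1 y J hS.rg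
    have hWM' : Real.exp (Real.log y * (180 * (M' * ((Rs:ℝ) + 1)))) ≤ W := by
      rcases hcase with ⟨h, _⟩ | ⟨h, _⟩
      · rw [h]; exact hW1
      · rw [h]; exact hWM
    have hl1A : l1' (Pz z * A0) ≤ LP :=
      (l1'_mul _ _).trans (mul_le_mul_of_nonneg_left hlA (l1'_nonneg _))
    have hlA0 := l1'_nonneg A0
    have hlP0 := l1'_nonneg (Pz z * A0)
    -- on the line
    have o1 := ton J (IZ z y) hS.rg hV M' (κ - 1) (by
      rcases hcase with ⟨h, h2⟩ | ⟨h, h2, h3⟩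
      · exact Or.inl ⟨h, h2⟩
      · exact Or.inr ⟨h, h2, h3⟩)
    have e0 : 1 + (κ - 1) = κ := by ring
    rw [e0] at o1
    have o2 := line_f hS hA hl1A hAT o1
    have o3 := N1_lineM hM' hzM' hS hV hWd (hET.trans (by linarith)) hκ1 hκ0 hκM hA hAm hlA hmN hd t9
    have hP1 : 1 ≤ Real.log T ^ (κ ^ 2) := Real.one_le_rpow t9 (sq_nonneg _)
    have k0 := (k_absM hM' hκ1).1
    have hf2 : l1' (Pz z * A0 * Bm M' (κ - 1) z y J Rs) ^ 2 ≤ LP ^ 2 * W := by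
      refine (PBm_l1 hS k0 hWM').trans ?_
      gcongr
    have hQ0 := thp (Pz z * A0 * Bm M' (κ - 1) z y J Rs) _ (LP ^ 2 * Con) A1 (Real.log T ^ (κ ^ 2))
      (PBm_Bd hS hA) hf2 (by positivity) hA10 hP1 o2 o3 δ hδL hδ2
    have hQ1 := hQs T κ δ D hT1 t9 t5.2 hκ0 hκM hδ0 (hlaml2.trans hx) hDlow
    have hQ2 := hQ0.trans hQ1
    have hY0 : 0 ≤ T / 2 * D := mul_nonneg hX2 (zero_le_one.trans hD1)
    -- small primes
    have hsm : (2 ^ (S0 z).card * l1' A0) ^ 2 / 2 ^ (K + 1) ≤ e * ip δ A0 A0 := by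
      have hN0 : (0:ℝ) < N := lt_of_lt_of_le one_pos hNr
      have h0 : (2 ^ (S0 z).card * l1' A0) ^ 2 ≤ sz := by rw [hsz]; gcongr
      have h1 : (2 ^ (S0 z).card * l1' A0) ^ 2 / 2 ^ (K + 1) ≤ sz / N := by
        refine le_trans (div_le_div_of_nonneg_right h0 (by positivity)) ?_
        exact div_le_div_of_nonneg_left hsz0 hN0 hNK.le
      have h2 : sz / N ≤ e * (9 / 10) := by
        rw [div_le_iff₀ hN0]
        rw [div_le_iff₀ (mul_pos he0 (by norm_num))] at hszN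
        rwa [mul_comm]
      exact h1.trans (h2.trans (mul_le_mul_of_nonneg_left hip9 he0.le))
    -- errors
    have hK0T : K0 * T ^ ((1:ℝ) / 2) ≤ e * (T / 2 * D) := by
      rw [Real.rpow_one] at t7
      have h1 : K0 * T ^ ((1:ℝ) / 2) ≤ e * (T / 2) := by
        have h2 := mul_le_mul_of_nonneg_left t7 (half_pos he0).le
        calc K0 * T ^ ((1:ℝ) / 2) = e / 2 * (2 * K0 / e * T ^ ((1:ℝ) / 2)) := by field_simp
          _ ≤ e / 2 * T := h2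
          _ = e * (T / 2) := by ring
      have h3 : e * (T / 2) ≤ e * (T / 2) * D := le_mul_of_one_le_right (mul_nonneg he0.le hX2) hD1
      calc K0 * T ^ ((1:ℝ) / 2) ≤ e * (T / 2) * D := h1.trans h3
        _ = _ := by ring
    obtain ⟨f1, f2, f4, f5⟩ := errs (LP := LP) (l := l) hT1 hm0 hK0T
    have f2' : 4 * (m * W) * (l1' A0 ^ 2 * W) ≤ e * (T / 2 * D) := by
      refine le_trans ?_ f2
      gcongr
    have f4' : 8 * (N:ℝ) * ((N:ℝ) ^ 2 * (l1' (Pz z * A0) ^ 2 * W) + l1' A0 ^ 2 * W) ≤ e * (T / 2 * D) := by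
      refine le_trans ?_ f4
      gcongr
    have f5' : 4 * m * l1' A0 ^ 2 * W ^ 6 ≤ e * (T / 2 * D) := by
      refine le_trans ?_ f5
      gcongr
    refine ⟨hM', hκ1, hzM', hET, hWM', f2', ?_⟩
    exact inst_off hM' hzM' hS hA hAm hm0 hmK hmW hδ0.le hδ2 hκ1 he1 he11.le hε he he100 h4b hET hX1 t3.1 hWM' hQ2
      hsm hv hY0 hMX f4' f5'
  refine ⟨Gh z y J Rs e1 δ, Gh_meas hS hδ2, ?_, ?_⟩
  · -- the measure
    have hk := (key 1 0 1 1 (Or.inl ⟨rfl, by norm_num⟩) le_rfl hM0.le (Bd1.one.mono hm1) (Subalgebra.one_mem _)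
      (by rw [l1'_one]; exact hl1) (by rw [ip_one]; norm_num) (by rw [ip_one]; simp; linarith) (by
        have : (-(0 ^ 2) : ℝ) = 0 := by norm_num
        rw [this, Real.rpow_zero, mul_one]; exact min_le_right _ _) le_rfl).2.2.2.2.2.2
    have e2 : ∀ t : ℝ, ‖es (1 / 2 + δ + t * Complex.I) (1 * Bm 1 0 z y J Rs)‖ ^ 2 = 1 := by
      intro t
      rw [Bm_zero, mul_one, map_one, norm_one, one_pow]
    simp_rw [e2] at hk
    rw [setIntegral_const, smul_eq_mul, mul_one] at hk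
    have hk2 : (volume (Set.Ioc (T ^ ((4:ℝ)/5)) (T / 2) \ Gh z y J Rs e1 δ)).toReal ≤ ε * (T / 2 * 1) := hk
    refine hk2.trans ?_
    nlinarith
  · intro α hα hαM
    obtain ⟨A0, hA', hAm, hlA', hPA, hip⟩ := hex α hα hαM
    have hA : Bd1 m A0 := hA'.mono (le_max_left _ _)
    have hlA : l1' A0 ≤ l := hlA'.trans (le_max_left _ _)
    obtain ⟨hi1, hi2⟩ := hip δ hδ0.le
    set ip0 := ip δ A0 A0 with hip0
    set P0 := ∏ p ∈ S0 z, Ed α δ p with hP0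
    have hP01 : 1 ≤ P0 := by
      have := prod_le_prod (s := S0 z) (f := fun _ => (1:ℝ)) (g := fun p => Ed α δ p) (fun _ _ => zero_le_one)
        (fun p hp => Ed_ge_one hδ0.le (mem_S0.mp hp).2)
      simpa using this
    have hip9 : 9 / 10 ≤ ip0 := ax9 hε hε1 hP01 hi1
    have hcm := hcmp α hα hαM z hzz3 hz1000 y δ hS.zy hδ0 (by
      rw [hly]
      have h1 : x0 ≤ lam * η := by rwa [div_le_iff₀ hη] at hlamx
      calc x0 ≤ lam * η := h1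
        _ ≤ (δ * Real.log T) * η := mul_le_mul_of_nonneg_right hx hη.le
        _ = _ := by ring) J hS.J1
    set EV := Real.exp (α ^ 2 * Vd δ z y J) with hEV
    have hEV0 : 0 < EV := Real.exp_pos _
    have hDD1 : 1 ≤ DD α δ := DD_ge_one hα hδ0
    set D := DD α δ with hD
    have hMup : ip0 * EV ≤ (1 + 2 * ε) * D := by
      calc ip0 * EV ≤ P0 * EV := mul_le_mul_of_nonneg_right hi2 hEV0.le
        _ ≤ Real.exp ε * D := hcm.2
        _ ≤ (1 + 2 * ε) * D := mul_le_mul_of_nonneg_right (exp_le_two hε.le (hε1.trans (by norm_num)))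
            (zero_le_one.trans hDD1)
    have hMlo : (1 - 2 * ε) * D ≤ ip0 * EV := by
      have h1 : (1 - ε) * (Real.exp (-ε) * D) ≤ ip0 * EV := by
        calc (1 - ε) * (Real.exp (-ε) * D) ≤ (1 - ε) * (P0 * EV) := mul_le_mul_of_nonneg_left hcm.1 (by linarith)
          _ = ((1 - ε) * P0) * EV := by ring
          _ ≤ ip0 * EV := mul_le_mul_of_nonneg_right hi1 hEV0.le
      exact (low_two hε.le (hε1.trans (by norm_num)) (zero_le_one.trans hDD1)).trans h1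
    set Y := T / 2 * D with hYd
    have hY0 : 0 ≤ Y := mul_nonneg hX2 (zero_le_one.trans hDD1)
    have hMX : T / 2 * (ip0 * EV) ≤ (1 + 2 * ε) * Y := by
      calc _ ≤ T / 2 * ((1 + 2 * ε) * D) := mul_le_mul_of_nonneg_left hMup hX2
        _ = _ := by rw [hYd]; ring
    have hMX' : (1 - 2 * ε) * Y ≤ T / 2 * (ip0 * EV) := by
      calc (1 - 2 * ε) * Y = T / 2 * ((1 - 2 * ε) * D) := by rw [hYd]; ring
        _ ≤ _ := mul_le_mul_of_nonneg_left hMlo hX2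
    have hMX2 : T / 2 * (ip0 * EV) ≤ 2 * Y := hMX.trans (mul_le_mul_of_nonneg_right (by linarith) hY0)
    have hDlow : c2 * δ ^ (-(α ^ 2)) ≤ D := by
      refine le_trans ?_ (hDD α hα hαM δ hδ0 (hδ2.trans (by norm_num)))
      exact mul_le_mul_of_nonneg_right (min_le_left _ _) (Real.rpow_nonneg hδ0.le _)
    obtain ⟨M', hcase⟩ : ∃ M' : ℕ, ((M' = 1 ∧ |α - 1| ≤ 1) ∨ (M' = M ∧ 0 ≤ α - 1 ∧ α - 1 ≤ M)) := by
      rcases le_or_gt α 1 with h | h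
      · exact ⟨1, Or.inl ⟨rfl, by rw [abs_le]; constructor <;> linarith⟩⟩
      · exact ⟨M, Or.inr ⟨rfl, by linarith, by linarith⟩⟩
    obtain ⟨hM', hκ1, hzM', hET, hWM', hE2, hoff⟩ := key M' α A0 D hcase hα.le hαM hA hAm hlA hip9 hMX2 hDlow hDD1
    obtain ⟨k0, k1, _⟩ := k_absM hM' hκ1
    have e0 : 1 + (α - 1) = α := by ring
    rw [e0] at k1
    set w : ℝ → ℝ := fun t => ‖es (1 / 2 + δ + t * Complex.I) (A0 * Bm M' α z y J Rs)‖ ^ 2 with hw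
    have hwc : Continuous w := es_cont0 δ (ABm_Bd (a := α) hS hA hm0 hWM')
    have hwi : IntegrableOn w (Set.Ioc (T ^ ((4:ℝ)/5)) (T / 2)) := by
      rw [← intervalIntegrable_iff_integrableOn_Ioc_of_le t3.1]; exact hwc.intervalIntegrable _ _
    have hzc : Continuous fun t => zn (1 / 2 + δ) t ^ (2 * α) := znp_cont (by linarith) (by linarith)
    have hzi : IntegrableOn (fun t => zn (1 / 2 + δ) t ^ (2 * α)) (Set.Ioc (T ^ ((4:ℝ)/5)) (T / 2)) := by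
      rw [← intervalIntegrable_iff_integrableOn_Ioc_of_le t3.1]; exact hzc.intervalIntegrable _ _
    have hGm : MeasurableSet (Gh z y J Rs e1 δ) := Gh_meas hS hδ2
    have hsplit := integral_inter_add_sdiff hGm hwi
    have hsub : Set.Ioc (T ^ ((4:ℝ)/5)) (T / 2) ∩ Gh z y J Rs e1 δ ⊆ Set.Ioc (T ^ ((4:ℝ)/5)) (T / 2) := Set.inter_subset_left
    have hpt : ∀ t ∈ Gh z y J Rs e1 δ, (1 - 5 * ε) * w t ≤ zn (1 / 2 + δ) t ^ (2 * α) ∧
        zn (1 / 2 + δ) t ^ (2 * α) ≤ (1 + 5 * ε) * w t := by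
      intro t ht
      have hre : (1:ℝ) / 2 ≤ (1 / 2 + (δ:ℂ) + t * Complex.I).re := by
        rw [half_re]; linarith only [hδ0]
      have hPAt := hPA _ hre
      have h1 := on_good (J := J) (Rs := Rs) (K := fun i => 20 * (M' * RR Rs i)) hα.le hαM he1 he11 hε hε1 hp1 hp2
        (fun i => cl_M hM' (hRR hS i) k1) h4a (riemannZeta (1 / 2 + δ + t * Complex.I))
        (es (1 / 2 + δ + t * Complex.I) (Pz z)) (es (1 / 2 + δ + t * Complex.I) A0)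
        (fun i => PI (IZ z y i) (1 / 2 + δ + t * Complex.I)) ht hPAt.1 hPAt.2
      rw [← es_Bm, ← map_mul] at h1
      have e3 : zn (1 / 2 + δ) t = ‖riemannZeta (1 / 2 + δ + t * Complex.I)‖ := by
        unfold zn; rw [s_eq]
      rw [e3]
      exact h1
    have hlow : (1 - 5 * ε) * (∫ t in Set.Ioc (T ^ ((4:ℝ)/5)) (T / 2) ∩ Gh z y J Rs e1 δ, w t) ≤
        ∫ t in Set.Ioc (T ^ ((4:ℝ)/5)) (T / 2) ∩ Gh z y J Rs e1 δ, zn (1 / 2 + δ) t ^ (2 * α) := by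
      rw [← integral_const_mul]
      exact setIntegral_mono_on ((hwi.mono_set hsub).const_mul _) (hzi.mono_set hsub) (measurableSet_Ioc.inter hGm)
        fun t ht => (hpt t ht.2).1
    have hupp : ∫ t in Set.Ioc (T ^ ((4:ℝ)/5)) (T / 2) ∩ Gh z y J Rs e1 δ, zn (1 / 2 + δ) t ^ (2 * α) ≤
        (1 + 5 * ε) * (∫ t in Set.Ioc (T ^ ((4:ℝ)/5)) (T / 2) ∩ Gh z y J Rs e1 δ, w t) := by
      rw [← integral_const_mul]
      exact setIntegral_mono_on (hzi.mono_set hsub) ((hwi.mono_set hsub).const_mul _) (measurableSet_Ioc.inter hGm)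
        fun t ht => (hpt t ht.2).2
    have n45 := N45M (c := c) hM' hzM' hS hδ0.le hκ1 hAm (hET.trans (by linarith))
    rw [e0, Real.exp_add] at n45
    have hwin := ABm_win (X1 := T ^ ((4:ℝ)/5)) (X2 := T / 2) hS hA hm0 k1 hδ0.le hWM' hW0.le
    rw [intervalIntegral.integral_of_le t3.1] at hwin
    refine arith_main (e := e) (X1 := T ^ ((4:ℝ)/5)) (X2 := T / 2) (M0 := ip0 * EV) (et := ETM M' c z y J Rs)
      (E2 := 4 * (m * W) * (l1' A0 ^ 2 * W)) hε hε1 he0.le (by linarith) hY0 ?_ hX1 hX2 (by positivity) hMX hMX'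
      (ETM_nonneg _ _ _ _ _ _) hET n45.1 ?_ hE2 hwin ?_ hoff hsplit hlow hupp
    · rw [Real.rpow_one] at t8
      have h8 := mul_le_mul_of_nonneg_left t8 (half_pos hε).le
      have e8 : ε / 2 * (2 / ε * T ^ ((4:ℝ) / 5)) = T ^ ((4:ℝ) / 5) := by field_simp
      rw [e8] at h8
      linarith only [h8]
    · refine n45.2.trans (le_of_eq ?_)
      ring
    · exact setIntegral_nonneg (measurableSet_Ioc.diff hGm) fun t _ => sq_nonneg _

end Pool.Agent.Y755
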