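import Pool.Agent.Y755.Wi5

set_option autoImplicit false

/-! The asymptotics over the whole interval. -/

namespace Pool.Agent.Y755

open Finset Filter MeasureTheory
open Pool.Agent.W184.NZ
open Pool.Agent.W184 (zn zn_nonneg zn_cont zn_le')

lemma two_mul_tendsto : Tendsto (fun X : ℝ => 2 * X) atTop atTop := tendsto_id.const_mul_atTop (by norm_num)

/-- the window ending at `X` -/
theorem win_X {α : ℝ} (hα : 0 < α) (hα2 : α ≤ 2) {ε : ℝ} (hε : 0 < ε) :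
    ∃ lam : ℝ, 1 ≤ lam ∧ ∀ᶠ X : ℝ in atTop, ∀ δ : ℝ, lam / Real.log X ≤ δ → δ ≤ 1 / 16 →
      (1 - ε) * (X * DD α δ) ≤ ∫ t in ((2 * X) ^ ((4:ℝ)/5))..X, zn (1 / 2 + δ) t ^ (2 * α) ∧
      (α ≤ 1 → ∫ t in ((2 * X) ^ ((4:ℝ)/5))..X, zn (1 / 2 + δ) t ^ (2 * α) ≤ (1 + ε) * (X * DD α δ)) := by
  set e := min (ε / 64) (1 / 10) with he
  have he0 : 0 < e := lt_min (by positivity) (by norm_num)
  have he1 : 64 * e ≤ ε := by have := min_le_left (ε / 64) (1 / 10); linarith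
  obtain ⟨lam, hl1, hw⟩ := win_main hα hα2 he0 (min_le_right _ _)
  refine ⟨lam, hl1, ?_⟩
  filter_upwards [two_mul_tendsto.eventually hw, Real.tendsto_log_atTop.eventually_ge_atTop 1, eventually_gt_atTop 0]
    with X h1 h2 h3 δ hδ1 hδ2
  have h4 : lam / Real.log (2 * X) ≤ δ := by
    refine le_trans (div_le_div_of_nonneg_left (by linarith) (by linarith) ?_) hδ1
    exact Real.log_le_log h3 (by linarith)
  obtain ⟨h5, h6⟩ := h1 δ h4 hδ2
  have e1 : 2 * X / 2 = X := by ring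
  rw [e1] at h5 h6
  have hδ0 : 0 < δ := lt_of_lt_of_le (div_pos (by linarith) (by linarith)) hδ1
  have hD := DD_ge_one hα hδ0
  have hXD : 0 ≤ X * DD α δ := by positivity
  refine ⟨le_trans ?_ h5, fun hα1 => (h6 hα1).trans ?_⟩
  · exact mul_le_mul_of_nonneg_right (by linarith) hXD
  · exact mul_le_mul_of_nonneg_right (by linarith) hXD

/-- the lower bound -/
theorem full_low {α : ℝ} (hα : 0 < α) (hα2 : α ≤ 2) {ε : ℝ} (hε : 0 < ε) :
    ∃ lam : ℝ, 1 ≤ lam ∧ ∀ᶠ X : ℝ in atTop, ∀ δ : ℝ, lam / Real.log X ≤ δ → δ ≤ 1 / 16 →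
      (1 - ε) * (X * DD α δ) ≤ ∫ t in (0:ℝ)..X, zn (1 / 2 + δ) t ^ (2 * α) := by
  obtain ⟨lam, hl1, hw⟩ := win_X hα hα2 hε
  refine ⟨lam, hl1, ?_⟩
  filter_upwards [hw, two_mul_tendsto.eventually windows_ev, eventually_ge_atTop 0] with X h1 h2 h0 δ hδ1 hδ2
  refine (h1 δ hδ1 hδ2).1.trans ?_
  have h3 : (2 * X) ^ ((4:ℝ)/5) ≤ X := by
    have := h2.1
    have e1 : 2 * X / 2 = X := by ring
    rwa [e1] at this
  exact intervalIntegral.integral_mono_interval (by positivity) h3 le_rfl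
      (Filter.Eventually.of_forall fun t => Real.rpow_nonneg (zn_nonneg _ _) _)
      ((znp_cont (by linarith) (by linarith)).intervalIntegrable _ _)

lemma small_int {α δ X : ℝ} (hα : 0 < α) (hα1 : α ≤ 1) (hδ : 0 < δ) (hδ1 : δ ≤ 1 / 16) (hX : 1 ≤ X) {Y : ℝ}
    (hY : 0 ≤ Y) (hY1 : Y ≤ X ^ ((1:ℝ) / 4)) :
    ∫ t in (0:ℝ)..Y, zn (1 / 2 + δ) t ^ (2 * α) ≤ 576 * X ^ ((3:ℝ) / 4) := by
  have hX0 : 0 < X := by linarith
  have hX4 : 1 ≤ X ^ ((1:ℝ) / 4) := Real.one_le_rpow hX (by norm_num)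
  have h1 : ∀ t ∈ Set.uIoc (0:ℝ) Y, ‖zn (1 / 2 + δ) t ^ (2 * α)‖ ≤ 576 * X ^ ((1:ℝ) / 2) := by
    intro t ht
    rw [Set.uIoc_of_le hY] at ht
    rw [Real.norm_of_nonneg (Real.rpow_nonneg (zn_nonneg _ _) _)]
    have hz := zn_le' (σ := 1 / 2 + δ) (t := t) (by linarith) (by linarith)
    rw [abs_of_pos ht.1] at hz
    have hz2 : zn (1 / 2 + δ) t ≤ 24 * X ^ ((1:ℝ) / 4) := by linarith [ht.2]
    calc zn (1 / 2 + δ) t ^ (2 * α) ≤ (24 * X ^ ((1:ℝ) / 4)) ^ (2 * α) :=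
          Real.rpow_le_rpow (zn_nonneg _ _) hz2 (by positivity)
      _ ≤ (24 * X ^ ((1:ℝ) / 4)) ^ (2:ℝ) := Real.rpow_le_rpow_of_exponent_le (by linarith) (by linarith)
      _ = 576 * X ^ ((1:ℝ) / 2) := by
          rw [Real.rpow_two, mul_pow, ← Real.rpow_natCast (X ^ ((1:ℝ) / 4)), ← Real.rpow_mul hX0.le]
          norm_num
  have h2 := intervalIntegral.norm_integral_le_of_norm_le_const h1
  have h3 := (le_abs_self _).trans (by rwa [Real.norm_eq_abs, sub_zero, abs_of_nonneg hY] at h2)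
  refine h3.trans ?_
  calc 576 * X ^ ((1:ℝ) / 2) * Y ≤ 576 * X ^ ((1:ℝ) / 2) * X ^ ((1:ℝ) / 4) := by gcongr
    _ = 576 * X ^ ((3:ℝ) / 4) := by rw [mul_assoc, ← Real.rpow_add hX0]; norm_num

/-- the upper bound -/
theorem full_up {α : ℝ} (hα : 0 < α) (hα1 : α ≤ 1) {ε : ℝ} (hε : 0 < ε) :
    ∃ lam : ℝ, 1 ≤ lam ∧ ∀ᶠ X : ℝ in atTop, ∀ δ : ℝ, lam / Real.log X ≤ δ → δ ≤ 1 / 16 →
      ∫ t in (0:ℝ)..X, zn (1 / 2 + δ) t ^ (2 * α) ≤ (1 + ε) * (X * DD α δ) := by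
  set e := min (ε / 4) 1 with he
  have he0 : 0 < e := lt_min (by positivity) one_pos
  have he1 : e ≤ ε / 4 := min_le_left _ _
  have he2 : e ≤ 1 := min_le_right _ _
  obtain ⟨lam, hl1, hw⟩ := win_X hα (by linarith) he0
  have hev := (hw.and ((rpow_ev (p := 4 / 5) (q := 1) (by norm_num) 4).and (eventually_ge_atTop 1)))
  rw [eventually_atTop] at hev
  obtain ⟨X0, hX0⟩ := hev
  refine ⟨4 * lam, by linarith, ?_⟩
  have ht4 : Tendsto (fun X : ℝ => X ^ ((1:ℝ) / 4)) atTop atTop := tendsto_rpow_atTop (by norm_num)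
  filter_upwards [ht4.eventually_ge_atTop X0, rpow_ev (p := 4 / 5) (q := 1) (by norm_num) (8 / (ε / 4)),
    rpow_ev (p := 3 / 4) (q := 1) (by norm_num) (576 / (ε / 4)), eventually_ge_atTop 3] with X h1 h2 h3 h4 δ hδ1 hδ2
  have hXp : 0 < X := by linarith
  have hX1 : 1 ≤ X := by linarith
  have hL0 : 0 < Real.log X := Real.log_pos (by linarith)
  have hδ0 : 0 < δ := lt_of_lt_of_le (div_pos (by linarith) hL0) hδ1
  have hD := DD_ge_one hα hδ0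
  set D := DD α δ
  have hX4 : X ^ ((1:ℝ) / 4) ≤ X := by
    have := Real.rpow_le_rpow_of_exponent_le hX1 (show (1:ℝ) / 4 ≤ 1 by norm_num)
    rwa [Real.rpow_one] at this
  have hi : ∀ a b : ℝ, IntervalIntegrable (fun t => zn (1 / 2 + δ) t ^ (2 * α)) volume a b := fun a b =>
    (znp_cont (by linarith) (by linarith)).intervalIntegrable _ _
  have hwin : ∀ Y : ℝ, X ^ ((1:ℝ) / 4) ≤ Y → Y ≤ X →
      (2 * Y) ^ ((4:ℝ)/5) ≤ Y / 2 ∧
      ∫ t in ((2 * Y) ^ ((4:ℝ)/5))..Y, zn (1 / 2 + δ) t ^ (2 * α) ≤ (1 + e) * (Y * D) := by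
    intro Y hY1 hY2
    obtain ⟨g1, g2, g3⟩ := hX0 Y (h1.trans hY1)
    have hY0 : 0 < Y := by linarith
    constructor
    · rw [Real.rpow_one] at g2
      rw [Real.mul_rpow (by norm_num) hY0.le]
      have h5 : (2:ℝ) ^ ((4:ℝ)/5) ≤ 2 := by
        have := Real.rpow_le_rpow_of_exponent_le (show (1:ℝ) ≤ 2 by norm_num) (show (4:ℝ)/5 ≤ 1 by norm_num)
        rwa [Real.rpow_one] at this
      have h6 : (2:ℝ) ^ ((4:ℝ)/5) * Y ^ ((4:ℝ)/5) ≤ 2 * Y ^ ((4:ℝ)/5) := mul_le_mul_of_nonneg_right h5 (by positivity)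
      linarith
    · refine (g1 δ ?_ hδ2).2 hα1
      refine le_trans ?_ hδ1
      have h5 : Real.log X / 4 ≤ Real.log Y := by
        have := Real.log_le_log (by positivity) hY1
        rw [Real.log_rpow hXp] at this
        linarith
      rw [div_le_div_iff₀ (by linarith) hL0]
      nlinarith
  have hclaim : ∀ n : ℕ, ∀ Y : ℝ, 0 ≤ Y → Y ≤ X → Y ≤ 2 ^ n * X ^ ((1:ℝ) / 4) →
      ∫ t in (0:ℝ)..Y, zn (1 / 2 + δ) t ^ (2 * α) ≤ 4 * (Y * D) + 576 * X ^ ((3:ℝ) / 4) := by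
    intro n
    induction n with
    | zero =>
      intro Y hY0 _ hY1
      rw [pow_zero, one_mul] at hY1
      have := small_int hα hα1 hδ0 hδ2 hX1 hY0 hY1
      have : 0 ≤ Y * D := by positivity
      linarith
    | succ n ih =>
      intro Y hY0 hYX hY1
      rcases le_or_gt Y (X ^ ((1:ℝ) / 4)) with h5 | h5
      · have := small_int hα hα1 hδ0 hδ2 hX1 hY0 h5
        have : 0 ≤ Y * D := by positivity
        linarith
      · obtain ⟨g1, g2⟩ := hwin Y h5.le hYX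
        have g3 := ih (Y / 2) (by linarith) (by linarith) (by rw [pow_succ] at hY1; linarith)
        have g4 := intervalIntegral.integral_add_adjacent_intervals (hi 0 (Y / 2)) (hi (Y / 2) Y)
        have g5 : ∫ t in (Y / 2)..Y, zn (1 / 2 + δ) t ^ (2 * α) ≤ ∫ t in ((2 * Y) ^ ((4:ℝ)/5))..Y, zn (1 / 2 + δ) t ^ (2 * α) :=
          intervalIntegral.integral_mono_interval g1 (by linarith) le_rfl
            (Filter.Eventually.of_forall fun t => Real.rpow_nonneg (zn_nonneg _ _) _) (hi _ _)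
        have g6 : (1 + e) * (Y * D) ≤ 2 * (Y * D) := mul_le_mul_of_nonneg_right (by linarith) (by positivity)
        linarith
  obtain ⟨n, hn⟩ : ∃ n : ℕ, X ≤ 2 ^ n * X ^ ((1:ℝ) / 4) := by
    obtain ⟨n, hn⟩ := exists_nat_gt X
    refine ⟨n, ?_⟩
    have h5 : (n:ℝ) ≤ 2 ^ n := by
      have : n < 2 ^ n := Nat.lt_two_pow_self
      exact_mod_cast this.le
    have h6 : 1 ≤ X ^ ((1:ℝ) / 4) := Real.one_le_rpow hX1 (by norm_num)
    nlinarith
  obtain ⟨g1, g2⟩ := hwin X hX4 le_rfl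
  have hY0 : 0 ≤ (2 * X) ^ ((4:ℝ)/5) := by positivity
  have g3 := hclaim n ((2 * X) ^ ((4:ℝ)/5)) hY0 (by linarith) (by linarith)
  have g4 := intervalIntegral.integral_add_adjacent_intervals (hi 0 ((2 * X) ^ ((4:ℝ)/5))) (hi ((2 * X) ^ ((4:ℝ)/5)) X)
  rw [Real.rpow_one] at h2 h3
  have g5 : 4 * ((2 * X) ^ ((4:ℝ)/5) * D) ≤ ε / 4 * (X * D) := by
    rw [Real.mul_rpow (by norm_num) hXp.le]
    have h5 : (2:ℝ) ^ ((4:ℝ)/5) ≤ 2 := by
      have := Real.rpow_le_rpow_of_exponent_le (show (1:ℝ) ≤ 2 by norm_num) (show (4:ℝ)/5 ≤ 1 by norm_num)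
      rwa [Real.rpow_one] at this
    have h6 := mul_le_mul_of_nonneg_left h2 (by positivity : 0 ≤ ε / 4)
    have e6 : ε / 4 * (8 / (ε / 4) * X ^ ((4:ℝ) / 5)) = 8 * X ^ ((4:ℝ) / 5) := by field_simp
    rw [e6] at h6
    have h7 : (2:ℝ) ^ ((4:ℝ)/5) * X ^ ((4:ℝ)/5) ≤ 2 * X ^ ((4:ℝ)/5) := mul_le_mul_of_nonneg_right h5 (by positivity)
    calc 4 * ((2:ℝ) ^ ((4:ℝ)/5) * X ^ ((4:ℝ)/5) * D) = 4 * ((2:ℝ) ^ ((4:ℝ)/5) * X ^ ((4:ℝ)/5)) * D := by ring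
      _ ≤ (ε / 4 * X) * D := mul_le_mul_of_nonneg_right (by linarith) (by linarith)
      _ = _ := by ring
  have g6 : 576 * X ^ ((3:ℝ) / 4) ≤ ε / 4 * (X * D) := by
    have h6 := mul_le_mul_of_nonneg_left h3 (by positivity : 0 ≤ ε / 4)
    have e6 : ε / 4 * (576 / (ε / 4) * X ^ ((3:ℝ) / 4)) = 576 * X ^ ((3:ℝ) / 4) := by field_simp
    rw [e6] at h6
    have h7 : X ≤ X * D := le_mul_of_one_le_right hXp.le hD
    calc _ ≤ ε / 4 * X := h6
      _ ≤ ε / 4 * (X * D) := mul_le_mul_of_nonneg_left h7 (by positivity)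
  have g7 : (1 + e) * (X * D) ≤ (1 + ε / 4) * (X * D) := mul_le_mul_of_nonneg_right (by linarith) (by positivity)
  have hXD : 0 ≤ X * D := by positivity
  nlinarith

end Pool.Agent.Y755
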