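import Pool.Agent.Y755.Gn2

set_option autoImplicit false

/-! All orders along a path. -/

namespace Pool.Agent.Y755

open Finset Filter MeasureTheory
open Pool.Agent.W184.NZ
open Pool.Agent.W184 (zn zn_nonneg zn_cont zn_le')
open Pool.Agent.H306R2 (dv cf aF)

/-- diagonal choice -/
lemma diag {A : Type} [Nonempty A] {P : ℕ → ℝ → A → Prop} (h : ∀ n, ∀ᶠ T in atTop, ∃ E, P n T E) :
    ∃ (E : ℝ → A) (N : ℝ → ℕ), Tendsto N atTop atTop ∧ ∀ᶠ T in atTop, P (N T) T (E T) := by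
  classical
  set N : ℝ → ℕ := fun T => Nat.findGreatest (fun n => ∃ E, P n T E) ⌊T⌋₊ with hN
  refine ⟨fun T => if h : ∃ E, P (N T) T E then h.choose else Classical.arbitrary A, N, ?_, ?_⟩
  · rw [tendsto_atTop]
    intro n
    filter_upwards [h n, eventually_ge_atTop (n:ℝ)] with T h1 h2
    exact Nat.le_findGreatest (Nat.le_floor h2) h1
  · filter_upwards [h 0] with T h1
    have h2 : ∃ E, P (N T) T E := Nat.findGreatest_spec (P := fun n => ∃ E, P n T E) (Nat.zero_le _) h1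
    simp only [h2, dite_true]
    exact h2.choose_spec

/-- all the moments at once along a path -/
theorem path_all (x : ℝ) {δ : ℝ → ℝ} (h1 : Tendsto δ atTop (nhds 0))
    (h2 : Tendsto (fun T => δ T * Real.log T) atTop atTop) :
    ∃ E : ℝ → Set ℝ, (∀ T, MeasurableSet (E T) ∧ E T ⊆ Set.Icc 0 1) ∧
      Tendsto (fun T => (volume (E T)).toReal) atTop (nhds 0) ∧
      ∀ α : ℝ, 0 < α → Tendsto (fun T => (2 * δ T) ^ (α ^ 2) * ∫ u in Set.Icc (0:ℝ) 1 \ E T,
        ‖riemannZeta ((1 / 2 + δ T : ℝ) + x * Complex.I + (u * T) * Complex.I)‖ ^ (2 * α)) atTop (nhds (aF α)) := by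
  have hpos : ∀ᶠ T in atTop, 0 < δ T := by
    filter_upwards [h2.eventually_gt_atTop 0, eventually_gt_atTop 1] with T hT hT1
    exact (pos_iff_pos_of_mul_pos hT).mpr (Real.log_pos hT1)
  have hev : ∀ n : ℕ, ∀ᶠ T in atTop, ∃ E : {E : Set ℝ // MeasurableSet E ∧ E ⊆ Set.Icc 0 1},
      (volume (E:Set ℝ)).toReal ≤ 1 / ((n:ℝ) + 1) ∧ ∀ α : ℝ, 0 < α → α ≤ (n:ℝ) + 1 →
        |(∫ u in Set.Icc (0:ℝ) 1 \ (E:Set ℝ), ‖riemannZeta ((1 / 2 + δ T : ℝ) + x * Complex.I + (u * T) * Complex.I)‖ ^ (2 * α)) -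
          DD α (δ T)| ≤ 1 / ((n:ℝ) + 1) * DD α (δ T) := by
    intro n
    obtain ⟨lam, hl, hw⟩ := unit_good (M := n + 1) (by omega) (ε := 1 / ((n:ℝ) + 1)) (by positivity)
    filter_upwards [hw x, h2.eventually_ge_atTop lam, h1.eventually (gt_mem_nhds (show (0:ℝ) < 1 / 16 by norm_num)),
      eventually_gt_atTop 1] with T g1 g2 g3 g4
    obtain ⟨E, hE, hE1, hE2, hE3⟩ := g1 (δ T) (by rw [div_le_iff₀ (Real.log_pos g4)]; exact g2) g3.le
    exact ⟨⟨E, hE, hE1⟩, hE2, fun α hα hα1 => hE3 α hα (by push_cast; exact hα1)⟩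
  have : Nonempty {E : Set ℝ // MeasurableSet E ∧ E ⊆ Set.Icc 0 1} := ⟨⟨∅, MeasurableSet.empty, Set.empty_subset _⟩⟩
  obtain ⟨E, N, hN, hE⟩ := diag hev
  have hN0 : Tendsto (fun T => 1 / ((N T : ℝ) + 1)) atTop (nhds 0) :=
    (tendsto_one_div_add_atTop_nhds_zero_nat (𝕜 := ℝ)).comp hN
  refine ⟨fun T => E T, fun T => (E T).2, ?_, fun α hα => ?_⟩
  · refine squeeze_zero' (Eventually.of_forall fun T => ENNReal.toReal_nonneg) ?_ hN0
    filter_upwards [hE] with T hT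
    exact hT.1
  · have hD := DD_asym hα hpos h1
    set I : ℝ → ℝ := fun T => ∫ u in Set.Icc (0:ℝ) 1 \ (E T : Set ℝ),
        ‖riemannZeta ((1 / 2 + δ T : ℝ) + x * Complex.I + (u * T) * Complex.I)‖ ^ (2 * α) with hI
    have hr : Tendsto (fun T => I T / DD α (δ T)) atTop (nhds 1) := by
      rw [tendsto_iff_norm_sub_tendsto_zero]
      refine squeeze_zero' (Eventually.of_forall fun T => norm_nonneg _) ?_ hN0
      obtain ⟨k, hk⟩ := exists_nat_ge α
      filter_upwards [hE, hpos, hN.eventually_ge_atTop k] with T hT hT0 hNk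
      have hNk' : (k:ℝ) ≤ N T := by exact_mod_cast hNk
      have g1 := hT.2 α hα (by linarith)
      have hD1 := DD_ge_one hα hT0
      have hD0 : 0 < DD α (δ T) := by linarith
      rw [Real.norm_eq_abs]
      have e1 : I T / DD α (δ T) - 1 = (I T - DD α (δ T)) / DD α (δ T) := by field_simp
      rw [e1, abs_div, abs_of_pos hD0, div_le_iff₀ hD0]
      exact g1
    have h3 := hD.mul hr
    rw [mul_one] at h3
    refine h3.congr' ?_
    filter_upwards [hpos] with T hT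
    have hD1 := DD_ge_one hα hT
    have : DD α (δ T) ≠ 0 := by linarith
    show _ = (2 * δ T) ^ (α ^ 2) * I T
    field_simp

/-- the moment off a set is at most the whole moment -/
lemma sub_mom {α δ : ℝ} (hα : 0 < α) (hδ : 0 < δ) (hδ1 : δ ≤ 1 / 16) (x T : ℝ) (E : Set ℝ) :
    ∫ u in Set.Icc (0:ℝ) 1 \ E, ‖riemannZeta ((1 / 2 + δ : ℝ) + x * Complex.I + (u * T) * Complex.I)‖ ^ (2 * α) ≤
      ∫ u in (0:ℝ)..1, ‖riemannZeta ((1 / 2 + δ : ℝ) + x * Complex.I + (u * T) * Complex.I)‖ ^ (2 * α) := by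
  have e1 : (fun u : ℝ => ‖riemannZeta ((1 / 2 + δ : ℝ) + x * Complex.I + (u * T) * Complex.I)‖ ^ (2 * α)) =
      fun u => (fun t => zn (1 / 2 + δ) t ^ (2 * α)) (x + u * T) := by
    funext u
    unfold zn
    congr 3
    push_cast
    ring
  rw [e1, intervalIntegral.integral_of_le zero_le_one, ← integral_Icc_eq_integral_Ioc]
  have hc : Continuous fun u : ℝ => (fun t => zn (1 / 2 + δ) t ^ (2 * α)) (x + u * T) :=
    (znp_cont (by linarith) (by linarith)).comp (by fun_prop)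
  exact setIntegral_mono_set (hc.integrableOn_Icc) (Eventually.of_forall fun u => Real.rpow_nonneg (zn_nonneg _ _) _)
    (Eventually.of_forall fun u hu => hu.1)

end Pool.Agent.Y755
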