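import Pool.Agent.W184.NZ.Avg0
import Pool.Agent.W184.NZ.Prod

set_option autoImplicit false

/-! Dirichlet polynomials in one variable, and their inner products at distance `δ` from the line. -/

namespace Pool.Agent.Y755

open Finset Filter MeasureTheory MonoidAlgebra
open Pool.Agent.W184.NZ

/-- formal Dirichlet polynomials -/
abbrev P1 := MonoidAlgebra ℝ ℕ

/-- first embedding -/
noncomputable def hX (δ : ℝ) : ℕ →* DA where
  toFun n := single (n, 1) ((n:ℝ) ^ (-δ))
  map_one' := by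
    rw [Nat.cast_one, Real.one_rpow]; rfl
  map_mul' m n := by
    rw [single_mul_single, Nat.cast_mul, Real.mul_rpow (Nat.cast_nonneg m) (Nat.cast_nonneg n)]
    simp

/-- second embedding -/
noncomputable def hY (δ : ℝ) : ℕ →* DA where
  toFun n := single (1, n) ((n:ℝ) ^ (-δ))
  map_one' := by
    rw [Nat.cast_one, Real.one_rpow]; rfl
  map_mul' m n := by
    rw [single_mul_single, Nat.cast_mul, Real.mul_rpow (Nat.cast_nonneg m) (Nat.cast_nonneg n)]
    simp

noncomputable def Xh (δ : ℝ) : P1 →ₐ[ℝ] DA := MonoidAlgebra.lift ℝ DA ℕ (hX δ)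

noncomputable def Yh (δ : ℝ) : P1 →ₐ[ℝ] DA := MonoidAlgebra.lift ℝ DA ℕ (hY δ)

lemma Xh_single (δ : ℝ) (n : ℕ) (c : ℝ) : Xh δ (single n c) = single (n, 1) (c * (n:ℝ) ^ (-δ)) := by
  unfold Xh
  rw [MonoidAlgebra.lift_single]
  show c • single (n, 1) ((n:ℝ) ^ (-δ)) = _
  rw [MonoidAlgebra.smul_single, smul_eq_mul]

lemma Yh_single (δ : ℝ) (n : ℕ) (c : ℝ) : Yh δ (single n c) = single (1, n) (c * (n:ℝ) ^ (-δ)) := by
  unfold Yh
  rw [MonoidAlgebra.lift_single]
  show c • single (1, n) ((n:ℝ) ^ (-δ)) = _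
  rw [MonoidAlgebra.smul_single, smul_eq_mul]

/-- the sum of the terms -/
lemma P1_sum (f : P1) : f = ∑ n ∈ f.coeff.support, single n (f.coeff n) := by
  have := MonoidAlgebra.sum_coeff_single f
  exact this.symm

/-- the inner product -/
noncomputable def ip (δ : ℝ) (f g : P1) : ℝ := lam w0 (Xh δ f * Yh δ g)

lemma ip_add_left (δ : ℝ) (f f' g : P1) : ip δ (f + f') g = ip δ f g + ip δ f' g := by
  unfold ip; rw [map_add, add_mul, map_add]

lemma ip_add_right (δ : ℝ) (f g g' : P1) : ip δ f (g + g') = ip δ f g + ip δ f g' := by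
  unfold ip; rw [map_add, mul_add, map_add]

lemma ip_smul_left (δ c : ℝ) (f g : P1) : ip δ (c • f) g = c * ip δ f g := by
  unfold ip; rw [map_smul, smul_mul_assoc, map_smul, smul_eq_mul]

lemma ip_smul_right (δ c : ℝ) (f g : P1) : ip δ f (c • g) = c * ip δ f g := by
  unfold ip; rw [map_smul, mul_smul_comm, map_smul, smul_eq_mul]

lemma ip_sum_left {ι : Type*} (δ : ℝ) (s : Finset ι) (f : ι → P1) (g : P1) :
    ip δ (∑ i ∈ s, f i) g = ∑ i ∈ s, ip δ (f i) g := by
  unfold ip; rw [map_sum, sum_mul, map_sum]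

lemma ip_sum_right {ι : Type*} (δ : ℝ) (s : Finset ι) (f : P1) (g : ι → P1) :
    ip δ f (∑ i ∈ s, g i) = ∑ i ∈ s, ip δ f (g i) := by
  unfold ip; rw [map_sum, mul_sum, map_sum]

lemma ip_single (δ : ℝ) (m n : ℕ) (c d : ℝ) : ip δ (single m c) (single n d) =
    if m = n then c * d * ((m:ℝ) ^ (-(2 * δ)) * (1 / (m:ℝ))) else 0 := by
  unfold ip
  rw [Xh_single, Yh_single, single_mul_single, lam_single]
  unfold w0
  simp only [Prod.mk_mul_mk, mul_one, one_mul]
  split_ifs with h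
  · subst h
    have : (m:ℝ) ^ (-(2 * δ)) = (m:ℝ) ^ (-δ) * (m:ℝ) ^ (-δ) := by
      rcases Nat.eq_zero_or_pos m with h0 | h0
      · subst h0
        rcases eq_or_ne δ 0 with hd | hd
        · subst hd; simp
        · rw [Nat.cast_zero, Real.zero_rpow (by simpa using hd), Real.zero_rpow (by simpa using hd)]; simp
      · rw [← Real.rpow_add (by exact_mod_cast h0)]; congr 1; ring
    rw [this]; ring
  · rw [mul_zero]

/-- the weight -/
noncomputable def wδ (δ : ℝ) (n : ℕ) : ℝ := (n:ℝ) ^ (-(2 * δ)) * (1 / (n:ℝ))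

lemma wδ_nonneg (δ : ℝ) (n : ℕ) : 0 ≤ wδ δ n := by unfold wδ; positivity

lemma ip_eq (δ : ℝ) (f g : P1) {s : Finset ℕ} (hf : f.coeff.support ⊆ s) :
    ip δ f g = ∑ n ∈ s, f.coeff n * g.coeff n * wδ δ n := by
  classical
  have e1 : f = ∑ n ∈ s, single n (f.coeff n) := by
    conv_lhs => rw [P1_sum f]
    refine sum_subset hf fun n _ hn => ?_
    rw [Finsupp.notMem_support_iff.mp hn, single_zero]
  conv_lhs => rw [e1, P1_sum g]
  rw [ip_sum_left]
  refine sum_congr rfl fun n _ => ?_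
  rw [ip_sum_right]
  simp_rw [ip_single]
  rw [sum_ite_eq]
  split_ifs with h
  · rfl
  · rw [Finsupp.notMem_support_iff.mp h]; ring

lemma ip_self_nonneg (δ : ℝ) (f : P1) : 0 ≤ ip δ f f := by
  rw [ip_eq δ f f (subset_refl _)]
  exact sum_nonneg fun n _ => mul_nonneg (mul_self_nonneg _) (wδ_nonneg _ _)

lemma ip_comm (δ : ℝ) (f g : P1) : ip δ f g = ip δ g f := by
  classical
  rw [ip_eq δ f g (subset_union_left (s₂ := g.coeff.support)),
    ip_eq δ g f (subset_union_right (s₁ := f.coeff.support))]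
  exact sum_congr rfl fun n _ => by ring

lemma ip_sub_self (δ : ℝ) (f g : P1) : ip δ (f - g) (f - g) = ip δ f f - 2 * ip δ f g + ip δ g g := by
  have h1 : f - g = f + (-1 : ℝ) • g := by rw [neg_one_smul]; abel
  rw [h1, ip_add_left, ip_add_right, ip_add_right, ip_smul_left, ip_smul_left, ip_smul_right, ip_smul_right,
    ip_comm δ g f]
  ring

/-- numbers all of whose primes lie in `I` -/
def M1 (I : Finset ℕ) : Submonoid ℕ where
  carrier := {n | n ≠ 0 ∧ ∀ p : ℕ, p.Prime → p ∣ n → p ∈ I}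
  mul_mem' {x y} hx hy := by
    refine ⟨mul_ne_zero hx.1 hy.1, fun p hp h => ?_⟩
    rcases (Nat.Prime.dvd_mul hp).mp h with h | h
    · exact hx.2 p hp h
    · exact hy.2 p hp h
  one_mem' := by
    refine ⟨one_ne_zero, fun p hp h => ?_⟩
    exact absurd h (by simpa using hp.one_lt.ne')

lemma mem_M1 {I : Finset ℕ} {n : ℕ} : n ∈ M1 I ↔ n ≠ 0 ∧ ∀ p : ℕ, p.Prime → p ∣ n → p ∈ I := Iff.rfl

/-- polynomials supported on a submonoid -/
def SA1 (M : Submonoid ℕ) : Subalgebra ℝ P1 where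
  carrier := {f | ∀ x ∈ f.coeff.support, x ∈ M}
  mul_mem' {f g} hf hg := by
    classical
    intro x hx
    have := support_coeff_mul_subset f g hx
    rw [Finset.mem_mul] at this
    obtain ⟨y, hy, z, hz, rfl⟩ := this
    exact M.mul_mem (hf y hy) (hg z hz)
  add_mem' {f g} hf hg := by
    classical
    intro x hx
    rw [coeff_add] at hx
    have := Finsupp.support_add hx
    rw [Finset.mem_union] at this
    exact this.elim (hf x) (hg x)
  algebraMap_mem' r := by
    intro x hx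
    rw [Algebra.algebraMap_eq_smul_one, MonoidAlgebra.one_def, MonoidAlgebra.smul_single,
      coeff_single] at hx
    have := Finsupp.support_single_subset hx
    rw [Finset.mem_singleton] at this
    rw [this]; exact M.one_mem

lemma mem_SA1 {M : Submonoid ℕ} {f : P1} : f ∈ SA1 M ↔ ∀ x ∈ f.coeff.support, x ∈ M := Iff.rfl

lemma single_mem_SA1 {M : Submonoid ℕ} {x : ℕ} (hx : x ∈ M) (c : ℝ) : (single x c : P1) ∈ SA1 M := by
  intro y hy
  rw [coeff_single] at hy
  have := Finsupp.support_single_subset hy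
  rw [Finset.mem_singleton] at this
  rw [this]; exact hx

lemma M1_mono {I J : Finset ℕ} (h : I ⊆ J) {x : ℕ} (hx : x ∈ M1 I) : x ∈ M1 J :=
  ⟨hx.1, fun p hp hd => h (hx.2 p hp hd)⟩

lemma SA1_mono {I J : Finset ℕ} (h : I ⊆ J) {f : P1} (hf : f ∈ SA1 (M1 I)) : f ∈ SA1 (M1 J) :=
  fun x hx => M1_mono h (hf x hx)

lemma Xh_mem {δ : ℝ} {I : Finset ℕ} {f : P1} (hf : f ∈ SA1 (M1 I)) : Xh δ f ∈ SA (MI I) := by
  rw [P1_sum f, map_sum]
  refine Subalgebra.sum_mem _ fun n hn => ?_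
  rw [Xh_single]
  refine single_mem_SA (mem_MI.mpr ⟨(hf n hn).1, one_ne_zero, fun p hp h => ?_⟩) _
  rcases h with h | h
  · exact (hf n hn).2 p hp h
  · exact absurd (Nat.dvd_one.mp h) hp.ne_one

lemma Yh_mem {δ : ℝ} {I : Finset ℕ} {f : P1} (hf : f ∈ SA1 (M1 I)) : Yh δ f ∈ SA (MI I) := by
  rw [P1_sum f, map_sum]
  refine Subalgebra.sum_mem _ fun n hn => ?_
  rw [Yh_single]
  refine single_mem_SA (mem_MI.mpr ⟨one_ne_zero, (hf n hn).1, fun p hp h => ?_⟩) _
  rcases h with h | h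
  · exact absurd (Nat.dvd_one.mp h) hp.ne_one
  · exact (hf n hn).2 p hp h

/-- multiplicativity of the inner product -/
lemma ip_mul {δ : ℝ} {I J : Finset ℕ} (hIJ : Disjoint I J) {f g f' g' : P1} (hf : f ∈ SA1 (M1 I))
    (hg : g ∈ SA1 (M1 I)) (hf' : f' ∈ SA1 (M1 J)) (hg' : g' ∈ SA1 (M1 J)) :
    ip δ (f * f') (g * g') = ip δ f g * ip δ f' g' := by
  unfold ip
  rw [map_mul (Xh δ), map_mul (Yh δ), mul_mul_mul_comm]
  exact lam0_mul hIJ (Subalgebra.mul_mem _ (Xh_mem hf) (Yh_mem hg)) (Subalgebra.mul_mem _ (Xh_mem hf') (Yh_mem hg'))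

lemma ip_one (δ : ℝ) : ip δ 1 1 = 1 := by
  rw [MonoidAlgebra.one_def, ip_single]; simp

/-- evaluation at `s` -/
noncomputable def hs (s : ℂ) : ℕ →* ℂ where
  toFun n := (n:ℂ) ^ (-s)
  map_one' := by simp
  map_mul' m n := by
    rw [Nat.cast_mul, Complex.natCast_mul_natCast_cpow]

noncomputable def es (s : ℂ) : P1 →ₐ[ℝ] ℂ := MonoidAlgebra.lift ℝ ℂ ℕ (hs s)

lemma es_single (s : ℂ) (n : ℕ) (c : ℝ) : es s (single n c) = c * (n:ℂ) ^ (-s) := by
  unfold es; rw [MonoidAlgebra.lift_single, Complex.real_smul]; rfl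

lemma es_apply (s : ℂ) (f : P1) : es s f = ∑ n ∈ f.coeff.support, (f.coeff n : ℂ) * (n:ℂ) ^ (-s) := by
  conv_lhs => rw [P1_sum f, map_sum]
  exact sum_congr rfl fun n _ => es_single s n _

/-- sum of the absolute values of the coefficients -/
noncomputable def l1' (f : P1) : ℝ := ∑ x ∈ f.coeff.support, |f.coeff x|

lemma l1'_nonneg (f : P1) : 0 ≤ l1' f := sum_nonneg fun _ _ => abs_nonneg _

lemma l1'_eq {f : P1} {s : Finset ℕ} (h : f.coeff.support ⊆ s) : l1' f = ∑ x ∈ s, |f.coeff x| := by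
  refine sum_subset h fun x _ hx => ?_
  rw [Finsupp.notMem_support_iff.mp hx, abs_zero]

lemma l1'_add (f g : P1) : l1' (f + g) ≤ l1' f + l1' g := by
  classical
  have h : (f + g).coeff.support ⊆ f.coeff.support ∪ g.coeff.support := by
    rw [coeff_add]; exact Finsupp.support_add
  rw [l1'_eq h, l1'_eq (f := f) subset_union_left, l1'_eq (f := g) subset_union_right, ← sum_add_distrib]
  refine sum_le_sum fun x _ => ?_
  rw [coeff_add, Finsupp.add_apply]
  exact abs_add_le _ _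

lemma l1'_zero : l1' 0 = 0 := by simp [l1']

lemma l1'_sum {ι : Type*} (s : Finset ι) (f : ι → P1) : l1' (∑ i ∈ s, f i) ≤ ∑ i ∈ s, l1' (f i) := by
  classical
  induction s using Finset.induction_on with
  | empty => simp [l1'_zero]
  | insert a s ha ih =>
    rw [sum_insert ha, sum_insert ha]
    exact (l1'_add _ _).trans (by linarith)

lemma l1'_single (x : ℕ) (c : ℝ) : l1' (single x c) = |c| := by
  have h : (single x c : P1).coeff.support ⊆ {x} := by
    rw [coeff_single]; exact Finsupp.support_single_subset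
  rw [l1'_eq h, sum_singleton, coeff_single, Finsupp.single_eq_same]

lemma l1'_smul (a : ℝ) (f : P1) : l1' (a • f) ≤ |a| * l1' f := by
  have h : (a • f).coeff.support ⊆ f.coeff.support := by
    rw [coeff_smul]; exact Finsupp.support_smul
  rw [l1'_eq h, l1', mul_sum]
  refine sum_le_sum fun x _ => ?_
  rw [coeff_smul, Finsupp.smul_apply, smul_eq_mul, abs_mul]

lemma l1'_mul (f g : P1) : l1' (f * g) ≤ l1' f * l1' g := by
  rw [MonoidAlgebra.mul_def, Finsupp.sum]
  refine (l1'_sum _ _).trans ?_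
  rw [l1', l1', sum_mul_sum]
  refine sum_le_sum fun x _ => ?_
  rw [Finsupp.sum]
  refine (l1'_sum _ _).trans ?_
  refine sum_le_sum fun y _ => ?_
  rw [l1'_single, abs_mul]

lemma l1'_one : l1' 1 = 1 := by
  rw [MonoidAlgebra.one_def, l1'_single, abs_one]

lemma l1'_pow (f : P1) (k : ℕ) : l1' (f ^ k) ≤ l1' f ^ k := by
  induction k with
  | zero => rw [pow_zero, pow_zero, l1'_one]
  | succ k ih =>
    rw [pow_succ, pow_succ]
    exact (l1'_mul _ _).trans (mul_le_mul_of_nonneg_right ih (l1'_nonneg _))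

/-- supported on `[1, N]` -/
def Bd1 (N : ℝ) (f : P1) : Prop := ∀ x ∈ f.coeff.support, x ≠ 0 ∧ (x : ℝ) ≤ N

lemma Bd1.mono {N M : ℝ} {f : P1} (h : Bd1 N f) (hNM : N ≤ M) : Bd1 M f :=
  fun x hx => ⟨(h x hx).1, (h x hx).2.trans hNM⟩

lemma Bd1.mul {N M : ℝ} {f g : P1} (hf : Bd1 N f) (hg : Bd1 M g) : Bd1 (N * M) (f * g) := by
  classical
  intro x hx
  have := support_coeff_mul_subset f g hx
  rw [Finset.mem_mul] at this
  obtain ⟨y, hy, z, hz, rfl⟩ := this
  have h1 := hf y hy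
  have h2 := hg z hz
  have n1 : 0 ≤ N := (Nat.cast_nonneg _).trans h1.2
  refine ⟨mul_ne_zero h1.1 h2.1, ?_⟩
  push_cast
  exact mul_le_mul h1.2 h2.2 (by positivity) n1

lemma Bd1.add {N : ℝ} {f g : P1} (hf : Bd1 N f) (hg : Bd1 N g) : Bd1 N (f + g) := by
  classical
  intro x hx
  rw [coeff_add] at hx
  have := Finsupp.support_add hx
  rw [Finset.mem_union] at this
  exact this.elim (hf x) (hg x)

lemma Bd1.zero {N : ℝ} : Bd1 N 0 := by
  intro x hx; simp at hx

lemma Bd1.sum {N : ℝ} {ι : Type*} {s : Finset ι} {f : ι → P1} (h : ∀ i ∈ s, Bd1 N (f i)) :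
    Bd1 N (∑ i ∈ s, f i) := by
  classical
  induction s using Finset.induction_on with
  | empty => rw [sum_empty]; exact Bd1.zero
  | insert a s ha ih =>
    rw [sum_insert ha]
    exact (h a (mem_insert_self _ _)).add (ih fun i hi => h i (mem_insert_of_mem hi))

lemma Bd1.smul {N : ℝ} {f : P1} (hf : Bd1 N f) (a : ℝ) : Bd1 N (a • f) := by
  intro x hx
  rw [coeff_smul] at hx
  exact hf x (Finsupp.support_smul hx)

lemma Bd1.single {N : ℝ} {x : ℕ} (h : x ≠ 0 ∧ (x : ℝ) ≤ N) (c : ℝ) :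
    Bd1 N (single x c) := by
  intro y hy
  rw [coeff_single] at hy
  have := Finsupp.support_single_subset hy
  rw [Finset.mem_singleton] at this
  rw [this]; exact h

lemma Bd1.one : Bd1 1 1 := by
  rw [MonoidAlgebra.one_def]
  exact Bd1.single (by simp) _

lemma Bd1.pow {N : ℝ} {f : P1} (hf : Bd1 N f) (k : ℕ) : Bd1 (N ^ k) (f ^ k) := by
  induction k with
  | zero => rw [pow_zero, pow_zero]; exact Bd1.one
  | succ k ih => rw [pow_succ, pow_succ]; exact ih.mul hf

lemma Bd1.sub {N : ℝ} {f g : P1} (hf : Bd1 N f) (hg : Bd1 N g) : Bd1 N (f - g) := by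
  have h1 : f - g = f + (-1 : ℝ) • g := by rw [neg_one_smul]; abel
  rw [h1]; exact hf.add (hg.smul _)

end Pool.Agent.Y755
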