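import Pool.Agent.W184.NZ.HalfA

set_option autoImplicit false

/-! Averages of convolutions, quadratic growth. -/

namespace Pool.Agent.Y755

open MeasureTheory Set

theorem avg_le2 {K G H : ℝ → ℝ} {T U B : ℝ} (hT : 0 ≤ T) (hU : 0 ≤ U) (hB : 0 ≤ B)
    (hKc : Continuous K) (hK0 : ∀ w, 0 ≤ K w) (hKi : Integrable fun w => K w * (1 + w ^ 2))
    (hKi0 : Integrable K)
    (hGc : Continuous G) (hG0 : ∀ x, 0 ≤ G x) (hGB : ∀ x, G x ≤ B * (1 + x ^ 2))
    (hHc : Continuous H) (hH : ∀ t ∈ Icc 0 T, H t ≤ ∫ w, K w * G (t + w)) :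
    ∫ t in (0:ℝ)..T, H t ≤ (∫ w, K w) * (∫ t in (-U)..(T + U), G t) +
      T * (2 * B * (1 + T ^ 2)) * ∫ w in {w : ℝ | U < |w|}, K w * (1 + w ^ 2) := by
  have hcont : Continuous fun q : ℝ × ℝ => K q.2 * G (q.1 + q.2) := by fun_prop
  have hbd : ∀ t ∈ Ioc 0 T, ∀ w, K w * G (t + w) ≤ 2 * B * (1 + T ^ 2) * (K w * (1 + w ^ 2)) := by
    intro t ht w
    have h1 : G (t + w) ≤ B * (2 * (1 + T ^ 2) * (1 + w ^ 2)) := by
      refine (hGB _).trans ?_
      refine mul_le_mul_of_nonneg_left ?_ hB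
      have h2 : t ^ 2 ≤ T ^ 2 := pow_le_pow_left₀ ht.1.le ht.2 2
      nlinarith [sq_nonneg (t - w), sq_nonneg w, mul_nonneg (sq_nonneg T) (sq_nonneg w)]
    calc K w * G (t + w) ≤ K w * (B * (2 * (1 + T ^ 2) * (1 + w ^ 2))) :=
          mul_le_mul_of_nonneg_left h1 (hK0 w)
      _ = _ := by ring
  have hint : Integrable (fun q : ℝ × ℝ => K q.2 * G (q.1 + q.2))
      ((volume.restrict (Ioc 0 T)).prod volume) := by
    have h1 : Integrable (fun q : ℝ × ℝ => (1:ℝ) * (2 * B * (1 + T ^ 2) * (K q.2 * (1 + q.2 ^ 2))))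
        ((volume.restrict (Ioc 0 T)).prod volume) :=
      Integrable.mul_prod (integrable_const (1:ℝ)) (hKi.const_mul _)
    refine h1.mono' hcont.aestronglyMeasurable ?_
    have h2 : ((volume.restrict (Ioc 0 T)).prod (volume : Measure ℝ)) =
        (volume.prod volume).restrict (Ioc (0:ℝ) T ×ˢ univ) := by
      rw [← Measure.prod_restrict, Measure.restrict_univ]
    rw [h2]
    refine (ae_restrict_mem (measurableSet_Ioc.prod MeasurableSet.univ)).mono fun q hq => ?_
    rw [Real.norm_of_nonneg (mul_nonneg (hK0 _) (hG0 _)), one_mul]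
    exact hbd q.1 hq.1 q.2
  have s1 : ∫ t in (0:ℝ)..T, H t ≤ ∫ t in Ioc 0 T, ∫ w, K w * G (t + w) := by
    rw [intervalIntegral.integral_of_le hT]
    refine setIntegral_mono_on ?_ ?_ measurableSet_Ioc ?_
    · exact (hHc.integrableOn_Icc (a := 0) (b := T)).mono_set Ioc_subset_Icc_self
    · exact hint.integral_prod_left
    · intro t ht
      exact hH t (Ioc_subset_Icc_self ht)
  have s2 : ∫ t in Ioc 0 T, ∫ w, K w * G (t + w) = ∫ w, ∫ t in Ioc 0 T, K w * G (t + w) :=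
    integral_integral_swap hint
  rw [s2] at s1
  refine s1.trans ?_
  have hms : MeasurableSet {w : ℝ | U < |w|} := measurableSet_lt measurable_const measurable_abs
  set E : ℝ := ∫ t in (-U)..(T + U), G t with hE
  have hE0 : 0 ≤ E := intervalIntegral.integral_nonneg (by linarith) fun x _ => hG0 x
  have hgi : Integrable fun w => K w * E + ({w : ℝ | U < |w|}).indicator
      (fun w => T * (2 * B * (1 + T ^ 2)) * (K w * (1 + w ^ 2))) w :=
    (hKi0.mul_const E).add ((hKi.const_mul _).indicator hms)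
  have s3 : ∫ w, ∫ t in Ioc 0 T, K w * G (t + w) ≤ ∫ w, (K w * E + ({w : ℝ | U < |w|}).indicator
      (fun w => T * (2 * B * (1 + T ^ 2)) * (K w * (1 + w ^ 2))) w) := by
    refine integral_mono_of_nonneg (Filter.Eventually.of_forall fun w => ?_) hgi
      (Filter.Eventually.of_forall fun w => ?_)
    · exact integral_nonneg fun t => mul_nonneg (hK0 w) (hG0 _)
    · simp only
      have hcw : Continuous fun t => K w * G (t + w) := by fun_prop
      by_cases hw : U < |w|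
      · rw [indicator_of_mem (show w ∈ {w : ℝ | U < |w|} from hw)]
        have h4 : ∫ t in Ioc 0 T, K w * G (t + w) ≤ ∫ t in Ioc 0 T, 2 * B * (1 + T ^ 2) * (K w * (1 + w ^ 2)) := by
          refine setIntegral_mono_on ?_ ?_ measurableSet_Ioc fun t ht => hbd t ht w
          · exact (hcw.integrableOn_Icc (a := 0) (b := T)).mono_set Ioc_subset_Icc_self
          · exact integrableOn_const (by simp)
        rw [setIntegral_const, Measure.real, Real.volume_Ioc, sub_zero,
          ENNReal.toReal_ofReal hT, smul_eq_mul] at h4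
        have h5 := mul_nonneg (hK0 w) hE0
        calc ∫ t in Ioc 0 T, K w * G (t + w) ≤ T * (2 * B * (1 + T ^ 2) * (K w * (1 + w ^ 2))) := h4
          _ = T * (2 * B * (1 + T ^ 2)) * (K w * (1 + w ^ 2)) := by ring
          _ ≤ _ := by linarith
      · rw [indicator_of_notMem (show w ∉ {w : ℝ | U < |w|} from hw), add_zero, integral_const_mul]
        refine mul_le_mul_of_nonneg_left ?_ (hK0 w)
        push Not at hw
        have hw' := abs_le.mp hw
        rw [← intervalIntegral.integral_of_le hT, intervalIntegral.integral_comp_add_right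
          (fun x => G x), hE]
        refine intervalIntegral.integral_mono_interval (by linarith) (by linarith) (by linarith)
          (Filter.Eventually.of_forall fun x => hG0 x) (hGc.intervalIntegrable _ _)
  refine s3.trans (le_of_eq ?_)
  rw [integral_add (hKi0.mul_const E) ((hKi.const_mul _).indicator hms), integral_mul_const,
    integral_indicator hms, integral_const_mul]


lemma tail_int2 {K : ℝ → ℝ} {A U : ℝ} (hA : 0 ≤ A) (hU : 1 ≤ U) (hKc : Continuous K) (hK0 : ∀ w, 0 ≤ K w)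
    (hK : ∀ w, K w ≤ A * (1 + w ^ 2) ^ (-(16:ℝ))) :
    (Integrable fun w => K w * (1 + w ^ 2)) ∧
    ∫ w in {w : ℝ | U < |w|}, K w * (1 + w ^ 2) ≤ Real.pi * A * (U ^ 28)⁻¹ := by
  have hi := integrable_inv_one_add_sq
  have hp : ∀ w : ℝ, (1 + w ^ 2) ^ (-(16:ℝ)) = ((1 + w ^ 2)⁻¹) ^ 16 := by
    intro w
    have h0 : 0 < 1 + w ^ 2 := by positivity
    rw [Real.rpow_neg h0.le, inv_pow]
    norm_num
  have h1 : ∀ w : ℝ, 0 < (1 + w ^ 2)⁻¹ ∧ (1 + w ^ 2)⁻¹ ≤ 1 := by
    intro w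
    have h0 : 0 < 1 + w ^ 2 := by positivity
    refine ⟨by positivity, ?_⟩
    rw [inv_le_one_iff₀]; right; nlinarith [sq_nonneg w]
  have hb : ∀ w : ℝ, K w * (1 + w ^ 2) ≤ A * ((1 + w ^ 2)⁻¹) ^ 14 * (1 + w ^ 2)⁻¹ := by
    intro w
    have h0 : 0 < 1 + w ^ 2 := by positivity
    calc K w * (1 + w ^ 2) ≤ (A * (1 + w ^ 2) ^ (-(16:ℝ))) * (1 + w ^ 2) :=
          mul_le_mul_of_nonneg_right (hK w) h0.le
      _ = A * (((1 + w ^ 2)⁻¹) ^ 15 * ((1 + w ^ 2)⁻¹ * (1 + w ^ 2))) := by rw [hp]; ring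
      _ = _ := by rw [inv_mul_cancel₀ h0.ne', mul_one]; ring
  have i2 : Integrable fun w => K w * (1 + w ^ 2) := by
    refine (hi.const_mul A).mono' (by fun_prop) (Filter.Eventually.of_forall fun w => ?_)
    have h2 : 0 ≤ 1 + w ^ 2 := by positivity
    rw [Real.norm_of_nonneg (mul_nonneg (hK0 w) h2)]
    refine (hb w).trans (mul_le_mul_of_nonneg_right ?_ (h1 w).1.le)
    exact mul_le_of_le_one_right hA (pow_le_one₀ (h1 w).1.le (h1 w).2)
  refine ⟨i2, ?_⟩
  have hms : MeasurableSet {w : ℝ | U < |w|} := measurableSet_lt measurable_const measurable_abs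
  have hU0 : 0 < U := by linarith
  have b1 : ∫ w in {w : ℝ | U < |w|}, K w * (1 + w ^ 2) ≤
      ∫ w in {w : ℝ | U < |w|}, A * (U ^ 28)⁻¹ * (1 + w ^ 2)⁻¹ := by
    refine setIntegral_mono_on i2.integrableOn (hi.const_mul _).integrableOn hms fun w hw => ?_
    have hw' : U < |w| := hw
    refine (hb w).trans (mul_le_mul_of_nonneg_right (mul_le_mul_of_nonneg_left ?_ hA) (h1 w).1.le)
    have h4 : (1 + w ^ 2)⁻¹ ≤ (U ^ 2)⁻¹ := by
      refine inv_anti₀ (by positivity) ?_
      have : U ^ 2 ≤ |w| ^ 2 := pow_le_pow_left₀ hU0.le hw'.le 2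
      rw [sq_abs] at this
      linarith
    calc ((1 + w ^ 2)⁻¹) ^ 14 ≤ ((U ^ 2)⁻¹) ^ 14 := pow_le_pow_left₀ (h1 w).1.le h4 14
      _ = (U ^ 28)⁻¹ := by rw [inv_pow, ← pow_mul]
  refine b1.trans ?_
  rw [integral_const_mul]
  have b2 : ∫ w in {w : ℝ | U < |w|}, (1 + w ^ 2)⁻¹ ≤ Real.pi := by
    rw [← integral_univ_inv_one_add_sq]
    refine setIntegral_le_integral hi (Filter.Eventually.of_forall fun w => ?_)
    exact (h1 w).1.le
  calc A * (U ^ 28)⁻¹ * ∫ w in {w : ℝ | U < |w|}, (1 + w ^ 2)⁻¹ ≤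
      A * (U ^ 28)⁻¹ * Real.pi := mul_le_mul_of_nonneg_left b2 (by positivity)
    _ = _ := by ring

end Pool.Agent.Y755
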