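import Pool.Agent.Y755.Nrm
import Mathlib.Analysis.Analytic.Binomial

set_option autoImplicit false

/-! The binomial series and the small primes. -/

namespace Pool.Agent.Y755

open Finset Filter MonoidAlgebra
open Pool.Agent.H306R2 (lc dv lc_zero lc_succ' lc_nonneg dv_one dv_prime_pow dA_mult dA_apply dv_nonneg)

lemma lc_fac (α : ℝ) (n : ℕ) : ((n.factorial : ℕ) : ℂ) * (lc α n : ℂ) = (ascPochhammer ℂ n).eval (α:ℂ) := by
  induction n with
  | zero => simp [lc_zero]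
  | succ n ih =>
    rw [ascPochhammer_succ_eval, ← ih, Nat.factorial_succ]
    have h := congrArg (fun x : ℝ => (x:ℂ)) (lc_succ' α n)
    push_cast at h ⊢
    calc ((n:ℂ) + 1) * (n.factorial:ℂ) * (lc α (n + 1) : ℂ) = (n.factorial : ℂ) * (((n:ℂ) + 1) * (lc α (n + 1) : ℂ)) := by ring
      _ = (n.factorial : ℂ) * ((α + n) * (lc α n : ℂ)) := by rw [h]
      _ = _ := by ring

lemma lc_choose (α : ℝ) (n : ℕ) : (lc α n : ℂ) = Ring.choose ((α:ℂ) + n - 1) n := by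
  have h1 := Ring.factorial_nsmul_multichoose_eq_ascPochhammer (α:ℂ) n
  rw [Polynomial.ascPochhammer_smeval_eq_eval, Ring.multichoose_eq, ← lc_fac, nsmul_eq_mul] at h1
  exact (mul_left_cancel₀ (by exact_mod_cast n.factorial_ne_zero) h1).symm

lemma lc_hasSum (α : ℝ) {x : ℂ} (hx : ‖x‖ < 1) : HasSum (fun n => (lc α n:ℂ) * x ^ n) (1 / (1 - x) ^ (α:ℂ)) := by
  have h := (Complex.one_div_one_sub_cpow_hasFPowerSeriesOnBall_zero (α:ℂ)).hasSum (y := x) (by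
    rw [Metric.mem_eball, edist_zero_right, ← ofReal_norm]
    exact ENNReal.ofReal_lt_one.mpr hx)
  rw [zero_add] at h
  refine h.congr_fun ?_
  intro n
  rw [FormalMultilinearSeries.ofScalars_apply_eq, lc_choose, smul_eq_mul]


lemma norm_p_le {p : ℕ} (hp : 2 ≤ p) {s : ℂ} (hs : 1 / 2 ≤ s.re) : ‖(p:ℂ) ^ (-s)‖ ≤ (p:ℝ) ^ (-(1 / 2 : ℝ)) := by
  rw [Complex.norm_natCast_cpow_of_pos (by omega), Complex.neg_re]
  refine Real.rpow_le_rpow_of_exponent_le (by exact_mod_cast (by omega : 1 ≤ p)) (by linarith)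

lemma half_lt_one {p : ℕ} (hp : 2 ≤ p) : (p:ℝ) ^ (-(1 / 2 : ℝ)) < 1 :=
  Real.rpow_lt_one_of_one_lt_of_neg (by exact_mod_cast hp) (by norm_num)

/-- the coefficients -/
noncomputable def g1 (α : ℝ) (s : ℂ) (n : ℕ) : ℂ := (dv α n : ℂ) * (n:ℂ) ^ (-s)

lemma dv_mul_cop (α : ℝ) {m n : ℕ} (h : m.Coprime n) : dv α (m * n) = dv α m * dv α n := by
  have := (dA_mult α).map_mul_of_coprime h
  rwa [dA_apply, dA_apply, dA_apply] at this

lemma g1_mul (α : ℝ) (s : ℂ) {m n : ℕ} (h : m.Coprime n) : g1 α s (m * n) = g1 α s m * g1 α s n := by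
  unfold g1
  rw [dv_mul_cop α h, Complex.ofReal_mul, Nat.cast_mul, Complex.natCast_mul_natCast_cpow]
  ring

lemma g1_pow (α : ℝ) (s : ℂ) {p : ℕ} (hp : p.Prime) (k : ℕ) : g1 α s (p ^ k) = (lc α k : ℂ) * ((p:ℂ) ^ (-s)) ^ k := by
  unfold g1
  rw [dv_prime_pow α hp, Nat.cast_pow, ← Complex.natCast_cpow_natCast_mul, mul_comm (k:ℂ),
    ← Complex.cpow_mul_nat]

lemma g1_smooth (α : ℝ) (z : ℕ) {s : ℂ} (hs : 1 / 2 ≤ s.re) :
    (Summable fun m : z.smoothNumbers => ‖g1 α s m‖) ∧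
    HasSum (fun m : z.smoothNumbers => g1 α s m) (∏ p ∈ z.primesBelow, 1 / (1 - (p:ℂ) ^ (-s)) ^ (α:ℂ)) := by
  have hlt : ∀ {p : ℕ}, p.Prime → ‖(p:ℂ) ^ (-s)‖ < 1 := fun hp =>
    (norm_p_le hp.two_le hs).trans_lt (half_lt_one hp.two_le)
  have h := EulerProduct.summable_and_hasSum_smoothNumbers_prod_primesBelow_tsum (f := g1 α s) (by simp [g1, dv_one])
    (fun {m n} h => g1_mul α s h) (fun {p} hp => by
      simp_rw [g1_pow α s hp]
      exact (lc_hasSum α (hlt hp)).summable.norm) z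
  refine ⟨h.1, ?_⟩
  have e : ∏ p ∈ z.primesBelow, ∑' n : ℕ, g1 α s (p ^ n) = ∏ p ∈ z.primesBelow, 1 / (1 - (p:ℂ) ^ (-s)) ^ (α:ℂ) := by
    refine prod_congr rfl fun p hp => ?_
    have hp' := Nat.prime_of_mem_primesBelow hp
    simp_rw [g1_pow α s hp']
    exact (lc_hasSum α (hlt hp')).tsum_eq
  rw [← e]
  exact h.2

lemma es_Pz (z : ℕ) (s : ℂ) : es s (Pz z) = ∏ p ∈ z.primesBelow, (1 - (p:ℂ) ^ (-s)) := by
  unfold Pz
  rw [map_prod]
  refine prod_congr rfl fun p _ => ?_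
  rw [map_sub, map_one, es_single]
  simp

lemma norm_prod_pow (α : ℝ) (z : ℕ) (s : ℂ) :
    ‖∏ p ∈ z.primesBelow, 1 / (1 - (p:ℂ) ^ (-s)) ^ (α:ℂ)‖ = (‖es s (Pz z)‖ ^ α)⁻¹ := by
  rw [es_Pz, norm_prod, norm_prod, ← Real.finsetProd_rpow _ _ (fun i _ => norm_nonneg _), ← prod_inv_distrib]
  refine prod_congr rfl fun p _ => ?_
  rw [norm_div, norm_one, Complex.norm_cpow_real, one_div]

lemma es_Pz_pos (z : ℕ) {s : ℂ} (hs : 1 / 2 ≤ s.re) : 0 < ‖es s (Pz z)‖ := by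
  rw [norm_pos_iff, es_Pz, prod_ne_zero_iff]
  intro p hp h
  have hp' := Nat.prime_of_mem_primesBelow hp
  have h2 : (p:ℂ) ^ (-s) = 1 := (sub_eq_zero.mp h).symm
  have h3 := (norm_p_le hp'.two_le hs).trans_lt (half_lt_one hp'.two_le)
  rw [h2, norm_one] at h3
  exact lt_irrefl _ h3

/-- the diagonal coefficients -/
noncomputable def g2 (α δ : ℝ) (n : ℕ) : ℝ := dv α n ^ 2 * wδ δ n

/-- the local factors -/
noncomputable def Ed (α δ : ℝ) (p : ℕ) : ℝ := ∑' k : ℕ, lc α k ^ 2 * (rp δ p ^ 2) ^ k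

lemma wδ_mul (δ : ℝ) (m n : ℕ) : wδ δ (m * n) = wδ δ m * wδ δ n := by
  unfold wδ
  push_cast
  rw [Real.mul_rpow (by positivity) (by positivity), one_div, one_div, one_div, mul_inv]
  ring

lemma g2_mul (α δ : ℝ) {m n : ℕ} (h : m.Coprime n) : g2 α δ (m * n) = g2 α δ m * g2 α δ n := by
  unfold g2
  rw [dv_mul_cop α h, wδ_mul]
  ring

lemma g2_pow (α δ : ℝ) {p : ℕ} (hp : p.Prime) (k : ℕ) : g2 α δ (p ^ k) = lc α k ^ 2 * (rp δ p ^ 2) ^ k := by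
  unfold g2
  rw [dv_prime_pow α hp, wδ_pow δ hp]

lemma g2_nonneg (α δ : ℝ) (n : ℕ) : 0 ≤ g2 α δ n := mul_nonneg (sq_nonneg _) (wδ_nonneg _ _)

lemma rp2_half {δ : ℝ} (hδ : 0 ≤ δ) {p : ℕ} (hp : p.Prime) : rp δ p ^ 2 ≤ 1 / 2 :=
  (rp_sq_le hδ hp.one_lt.le).trans (one_div_le_one_div_of_le (by norm_num) (by exact_mod_cast hp.two_le))

lemma Ed_summable {α δ : ℝ} (hδ : 0 ≤ δ) {p : ℕ} (hp : p.Prime) :
    Summable fun k : ℕ => lc α k ^ 2 * (rp δ p ^ 2) ^ k := by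
  have hr : 0 ≤ rp δ p := rp_nonneg δ p
  have h1 : rp δ p < 1 := by
    have := rp2_half hδ hp
    nlinarith
  have h2 := (lc_hasSum α (x := ((rp δ p : ℝ) : ℂ)) (by
    rw [Complex.norm_real, Real.norm_of_nonneg hr]; exact h1)).summable.norm
  have h3 : Summable fun k : ℕ => |lc α k * rp δ p ^ k| := by
    refine h2.congr fun k => ?_
    rw [← Complex.ofReal_pow, ← Complex.ofReal_mul, Complex.norm_real, Real.norm_eq_abs]
  have h4 : Summable fun k : ℕ => |lc α k * rp δ p ^ k| ^ 2 := by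
    refine Summable.of_nonneg_of_le (fun k => sq_nonneg _) (fun k => ?_) (h3.mul_left (∑' k : ℕ, |lc α k * rp δ p ^ k|))
    rw [sq]
    exact mul_le_mul_of_nonneg_right (h3.le_tsum k fun _ _ => abs_nonneg _) (abs_nonneg _)
  refine h4.congr fun k => ?_
  rw [sq_abs]
  ring

lemma Ed_ge_one {α δ : ℝ} (hδ : 0 ≤ δ) {p : ℕ} (hp : p.Prime) : 1 ≤ Ed α δ p := by
  unfold Ed
  have h := (Ed_summable (α := α) hδ hp).le_tsum 0 (fun k _ => mul_nonneg (sq_nonneg _) (by positivity))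
  simpa [lc_zero] using h

lemma g2_smooth (α : ℝ) (z : ℕ) {δ : ℝ} (hδ : 0 ≤ δ) :
    HasSum (fun m : z.smoothNumbers => g2 α δ m) (∏ p ∈ z.primesBelow, Ed α δ p) := by
  have h := EulerProduct.summable_and_hasSum_smoothNumbers_prod_primesBelow_tsum (f := g2 α δ) (by simp [g2, dv_one, wδ])
    (fun {m n} h => g2_mul α δ h) (fun {p} hp => by
      simp_rw [g2_pow α δ hp]
      exact (Ed_summable hδ hp).norm) z
  have e : ∏ p ∈ z.primesBelow, ∑' n : ℕ, g2 α δ (p ^ n) = ∏ p ∈ z.primesBelow, Ed α δ p := by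
    refine prod_congr rfl fun p hp => ?_
    simp_rw [g2_pow α δ (Nat.prime_of_mem_primesBelow hp)]
    rfl
  rw [← e]
  exact h.2

end Pool.Agent.Y755
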