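import Pool.Agent.Y755.Loc1

set_option autoImplicit false

/-! Local estimates: a block of primes. -/

namespace Pool.Agent.Y755

open Finset Filter MeasureTheory MonoidAlgebra
open Pool.Agent.W184.NZ

lemma prod_close {ι : Type*} (s : Finset ι) {a : ι → ℂ} {b e : ι → ℝ} (hb : ∀ i ∈ s, 0 ≤ b i)
    (he : ∀ i ∈ s, 0 ≤ e i) (h : ∀ i ∈ s, ‖a i - b i‖ ≤ e i * b i) :
    ‖∏ i ∈ s, a i - ((∏ i ∈ s, b i : ℝ) : ℂ)‖ ≤ (Real.exp (∑ i ∈ s, e i) - 1) * ∏ i ∈ s, b i := by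
  classical
  induction s using Finset.induction_on with
  | empty => simp
  | insert i s hi ih =>
    have ih' := ih (fun j hj => hb j (mem_insert_of_mem hj)) (fun j hj => he j (mem_insert_of_mem hj))
      (fun j hj => h j (mem_insert_of_mem hj))
    have hbi := hb i (mem_insert_self _ _)
    have hei := he i (mem_insert_self _ _)
    have hi1 := h i (mem_insert_self _ _)
    rw [prod_insert hi, prod_insert hi, sum_insert hi]
    set A := ∏ j ∈ s, a j with hA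
    set B := ∏ j ∈ s, b j with hB
    set S := ∑ j ∈ s, e j with hS
    have hB0 : 0 ≤ B := prod_nonneg fun j hj => hb j (mem_insert_of_mem hj)
    have hAn : ‖A‖ ≤ Real.exp S * B := by
      have h1 : ‖A‖ ≤ ‖A - (B:ℂ)‖ + ‖(B:ℂ)‖ := by
        have := norm_add_le (A - (B:ℂ)) (B:ℂ)
        rwa [sub_add_cancel] at this
      rw [Complex.norm_real, Real.norm_of_nonneg hB0] at h1
      linarith
    have e1 : a i * A - ((b i * B : ℝ) : ℂ) = (a i - b i) * A + (b i : ℂ) * (A - (B:ℂ)) := by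
      push_cast; ring
    rw [e1]
    refine (norm_add_le _ _).trans ?_
    rw [norm_mul, norm_mul, Complex.norm_real, Real.norm_of_nonneg hbi]
    have h2 : ‖a i - b i‖ * ‖A‖ ≤ (e i * b i) * (Real.exp S * B) :=
      mul_le_mul hi1 hAn (norm_nonneg _) (mul_nonneg hei hbi)
    have h3 : b i * ‖A - (B:ℂ)‖ ≤ b i * ((Real.exp S - 1) * B) := mul_le_mul_of_nonneg_left ih' hbi
    have h4 : (1 + e i) * Real.exp S ≤ Real.exp (e i + S) := by
      rw [Real.exp_add]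
      refine mul_le_mul_of_nonneg_right ?_ (Real.exp_pos _).le
      have := Real.add_one_le_exp (e i)
      linarith
    calc _ ≤ (e i * b i) * (Real.exp S * B) + b i * ((Real.exp S - 1) * B) := add_le_add h2 h3
      _ = ((1 + e i) * Real.exp S - 1) * (b i * B) := by ring
      _ ≤ (Real.exp (e i + S) - 1) * (b i * B) :=
        mul_le_mul_of_nonneg_right (by linarith) (mul_nonneg hbi hB0)

/-- the variance -/
noncomputable def vd (δ : ℝ) (I : Finset ℕ) : ℝ := ∑ p ∈ I, rp δ p ^ 2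

/-- primes at least `1000` -/
def Bg (I : Finset ℕ) : Prop := ∀ p ∈ I, p.Prime ∧ 1000 ≤ p

lemma rp_half {δ : ℝ} (hδ : 0 ≤ δ) {p : ℕ} (hp : 1 ≤ p) : rp δ p ≤ (p:ℝ) ^ (-(1 / 2 : ℝ)) := by
  unfold rp
  exact Real.rpow_le_rpow_of_exponent_le (by exact_mod_cast hp) (by linarith)

lemma rp_nonneg (δ : ℝ) (p : ℕ) : 0 ≤ rp δ p := by unfold rp; positivity

lemma half_sq {p : ℕ} (hp : 1 ≤ p) : ((p:ℝ) ^ (-(1 / 2 : ℝ))) ^ 2 = 1 / (p:ℝ) := by
  have hp0 : (0:ℝ) < p := by exact_mod_cast hp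
  rw [← Real.rpow_natCast, ← Real.rpow_mul hp0.le]
  norm_num
  rw [Real.rpow_neg_one]

lemma half_cube {p : ℕ} (hp : 1 ≤ p) : ((p:ℝ) ^ (-(1 / 2 : ℝ))) ^ 3 = (p:ℝ) ^ (-(3 / 2 : ℝ)) := by
  have hp0 : (0:ℝ) < p := by exact_mod_cast hp
  rw [← Real.rpow_natCast, ← Real.rpow_mul hp0.le]
  norm_num

lemma rp_sq_le {δ : ℝ} (hδ : 0 ≤ δ) {p : ℕ} (hp : 1 ≤ p) : rp δ p ^ 2 ≤ 1 / (p:ℝ) := by
  rw [← half_sq hp]
  exact pow_le_pow_left₀ (rp_nonneg δ p) (rp_half hδ hp) 2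

lemma rp_cube_le {δ : ℝ} (hδ : 0 ≤ δ) {p : ℕ} (hp : 1 ≤ p) : rp δ p ^ 3 ≤ (p:ℝ) ^ (-(3 / 2 : ℝ)) := by
  rw [← half_cube hp]
  exact pow_le_pow_left₀ (rp_nonneg δ p) (rp_half hδ hp) 3

lemma rp_small {δ : ℝ} (hδ : 0 ≤ δ) {p : ℕ} (hp : 1000 ≤ p) : rp δ p ≤ 1 / 30 := by
  have h1 := rp_sq_le hδ (show 1 ≤ p by omega)
  have h2 : 1 / (p:ℝ) ≤ (1 / 30) ^ 2 := by
    have : (1000:ℝ) ≤ p := by exact_mod_cast hp
    rw [div_le_iff₀ (by linarith)]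
    norm_num
    linarith
  exact (sq_le_sq₀ (rp_nonneg δ p) (by norm_num)).mp (h1.trans h2)

lemma vd_le {δ : ℝ} (hδ : 0 ≤ δ) {I : Finset ℕ} (hI : Bg I) : vd δ I ≤ vI I :=
  sum_le_sum fun p hp => rp_sq_le hδ (by have := (hI p hp).2; omega)

lemma vd_nonneg (δ : ℝ) (I : Finset ℕ) : 0 ≤ vd δ I := sum_nonneg fun _ _ => sq_nonneg _

lemma cube_le {δ : ℝ} (hδ : 0 ≤ δ) {I : Finset ℕ} (hI : Bg I) : ∑ p ∈ I, rp δ p ^ 3 ≤ uI I :=
  sum_le_sum fun p hp => rp_cube_le hδ (by have := (hI p hp).2; omega)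

/-- products of functions of one variable -/
theorem tm_pair {δ : ℝ} (hδ : 0 ≤ δ) {I : Finset ℕ} (hI : Bg I) {f h : ℂ → ℂ} {κ d C d' C' : ℝ}
    (hf : E3 f κ d C) (hh : E3 h κ d' C') (fc : Continuous f) (hc : Continuous h) (c1 : |κ| ≤ 2)
    (d1 : |d| ≤ 5) (C1 : C ≤ 50) (d2 : |d'| ≤ 5) (C2 : C' ≤ 50) :
    ‖∫ ω, (∏ p : I, f (ω p)) * starRingEnd ℂ (∏ p : I, h (ω p)) ∂(tm δ I) -
      ((Real.exp (κ ^ 2 * vd δ I) : ℝ) : ℂ)‖ ≤ (Real.exp (300 * uI I) - 1) * Real.exp (κ ^ 2 * vd δ I) := by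
  have e1 : ∀ ω : I → ℂ, (∏ p : I, f (ω p)) * starRingEnd ℂ (∏ p : I, h (ω p)) =
      ∏ p : I, (fun (_ : I) (z : ℂ) => f z * starRingEnd ℂ (h z)) p (ω p) := by
    intro ω
    rw [map_prod, ← prod_mul_distrib]
  rw [integral_congr_ae (ae_of_all _ e1),
    tm_prod (δ := δ) (fun (_ : I) (z : ℂ) => f z * starRingEnd ℂ (h z))]
  have e2 : Real.exp (κ ^ 2 * vd δ I) = ∏ p : I, Real.exp (κ ^ 2 * rp δ p ^ 2) := by
    rw [← Real.exp_sum, ← mul_sum]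
    unfold vd
    rw [← Finset.sum_coe_sort I (fun p => rp δ p ^ 2)]
  have e3 : ∑ p : I, 300 * rp δ p ^ 3 ≤ 300 * uI I := by
    rw [← mul_sum, Finset.sum_coe_sort I (fun p => rp δ p ^ 3)]
    exact mul_le_mul_of_nonneg_left (cube_le hδ hI) (by norm_num)
  rw [e2]
  refine (prod_close univ (e := fun p : I => 300 * rp δ p ^ 3) (fun p _ => (Real.exp_pos _).le)
    (fun p _ => by have := rp_nonneg δ p; positivity) (fun p _ => ?_)).trans ?_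
  · have hp := hI p p.2
    have h1 := int_E3' (rp_pos δ hp.1) ((rp_small hδ hp.2).trans (by norm_num)) hf hh fc hc c1 d1 C1 d2 C2
    refine h1.trans ?_
    have h2 : 1 ≤ Real.exp (κ ^ 2 * rp δ p ^ 2) := Real.one_le_exp (by positivity)
    have h3 : 0 ≤ 300 * rp δ p ^ 3 := by have := rp_nonneg δ p; positivity
    exact le_mul_of_one_le_right h3 h2
  · refine mul_le_mul_of_nonneg_right ?_ (prod_nonneg fun _ _ => (Real.exp_pos _).le)
    have := Real.exp_le_exp.mpr e3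
    linarith

lemma cm_mom' {r : ℝ} (hr : 0 < r) (k l : ℕ) : ∫ z, z ^ k * (starRingEnd ℂ z) ^ l ∂(cm r) =
    (((r ^ 2) ^ (min k l) * (r * 0) ^ (max k l - min k l) : ℝ) : ℂ) := by
  unfold cm
  rw [dif_pos hr]
  exact (Classical.choose_spec (single_law hr le_rfl zero_lt_one)).2.2 k l

/-- exponential moments -/
lemma EM_lin {δ : ℝ} (hδ : 0 ≤ δ) {I : Finset ℕ} (hI : Bg I) {w : ℂ → ℝ} (hw : Continuous w)
    (h0 : ∀ z, 0 ≤ w z) {s : ℝ} (hs : |s| ≤ 1) (hle : ∀ z, ‖z‖ ≤ 1 / 16 → w z ≤ Real.exp (2 * s * z.re + 4 * ‖z‖ ^ 2))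
    {c : ℂ} (hc : ‖c‖ ≤ 12) :
    ∫ ω, (∏ p : I, w (ω p)) * Real.exp ((c * ∑ p : I, ω p).re) ∂(tm δ I) ≤
      Real.exp (53 * vd δ I + 2744 * uI I) := by
  have e1 : ∀ ω : I → ℂ, (∏ p : I, w (ω p)) * Real.exp ((c * ∑ p : I, ω p).re) =
      ∏ p : I, (fun (_ : I) (z : ℂ) => w z * Real.exp ((c * z).re)) p (ω p) := by
    intro ω
    rw [prod_mul_distrib, mul_sum, Complex.re_sum, Real.exp_sum]
  rw [integral_congr_ae (ae_of_all _ e1),
    tm_prod_real (δ := δ) (fun (_ : I) (z : ℂ) => w z * Real.exp ((c * z).re))]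
  have h1 : ∀ p : I, ∫ z, w z * Real.exp ((c * z).re) ∂(cm (rp δ p)) ≤
      Real.exp (53 * rp δ p ^ 2 + 2744 * rp δ p ^ 3) := by
    intro p
    have hp := hI p p.2
    set r := rp δ p with hr
    have hr0 : 0 < r := rp_pos δ hp.1
    have hr1 : r ≤ 1 / 30 := rp_small hδ hp.2
    set c' : ℂ := c + ((2 * s : ℝ) : ℂ) with hc'
    have hcn : ‖c'‖ ≤ 14 := by
      refine (norm_add_le _ _).trans ?_
      rw [Complex.norm_real, Real.norm_eq_abs, abs_mul]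
      norm_num
      linarith
    have h2 : ∫ z, w z * Real.exp ((c * z).re) ∂(cm r) ≤ ∫ z, Real.exp (4 * r ^ 2) * Real.exp ((c' * z).re) ∂(cm r) := by
      refine integral_mono_ae (cm_integrable hr0 (by fun_prop)) (cm_integrable hr0 (by fun_prop)) ?_
      filter_upwards [cm_norm hr0] with z hz
      have h3 := hle z (by rw [hz]; linarith)
      rw [hz] at h3
      calc w z * Real.exp ((c * z).re) ≤ Real.exp (2 * s * z.re + 4 * r ^ 2) * Real.exp ((c * z).re) :=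
            mul_le_mul_of_nonneg_right h3 (Real.exp_pos _).le
        _ = Real.exp (4 * r ^ 2) * Real.exp ((c' * z).re) := by
            rw [← Real.exp_add, ← Real.exp_add]
            congr 1
            rw [hc', add_mul, Complex.add_re, Complex.re_ofReal_mul]
            ring
    refine h2.trans ?_
    rw [integral_const_mul]
    have h4 := single_exp (μ := cm r) hr0 le_rfl (cm_norm hr0) (cm_mom' hr0) (c := c')
      (by nlinarith [norm_nonneg c'])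
    have h5 : Real.exp (c'.re * (r * 0) + ‖c'‖ ^ 2 * r ^ 2 / 4 + ‖c'‖ ^ 2 * (r * 0) ^ 2 / 4 + ‖c'‖ ^ 3 * r ^ 3) ≤
        Real.exp (49 * r ^ 2 + 2744 * r ^ 3) := by
      refine Real.exp_le_exp.mpr ?_
      have a1 : ‖c'‖ ^ 2 ≤ 14 ^ 2 := pow_le_pow_left₀ (norm_nonneg _) hcn 2
      have a2 : ‖c'‖ ^ 3 ≤ 14 ^ 3 := pow_le_pow_left₀ (norm_nonneg _) hcn 3
      have a3 : ‖c'‖ ^ 2 * r ^ 2 ≤ 14 ^ 2 * r ^ 2 := mul_le_mul_of_nonneg_right a1 (by positivity)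
      have a4 : ‖c'‖ ^ 3 * r ^ 3 ≤ 14 ^ 3 * r ^ 3 := mul_le_mul_of_nonneg_right a2 (by positivity)
      norm_num at a3 a4 ⊢
      linarith
    calc _ ≤ Real.exp (4 * r ^ 2) * Real.exp (49 * r ^ 2 + 2744 * r ^ 3) :=
          mul_le_mul_of_nonneg_left (h4.trans h5) (Real.exp_pos _).le
      _ = _ := by rw [← Real.exp_add]; congr 1; ring
  have h6 : ∀ p : I, 0 ≤ ∫ z, w z * Real.exp ((c * z).re) ∂(cm (rp δ p)) := fun p =>
    integral_nonneg fun z => mul_nonneg (h0 z) (Real.exp_pos _).le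
  refine (prod_le_prod (fun p _ => h6 p) (fun p _ => h1 p)).trans ?_
  rw [← Real.exp_sum, sum_add_distrib, ← mul_sum, ← mul_sum]
  refine Real.exp_le_exp.mpr ?_
  rw [Finset.sum_coe_sort I (fun p => rp δ p ^ 2), Finset.sum_coe_sort I (fun p => rp δ p ^ 3)]
  have := cube_le hδ hI
  unfold vd
  linarith

lemma norm_exp8_le (z : ℂ) : Real.exp (8 * ‖z‖) ≤
    Real.exp ((((8:ℂ) - 8 * Complex.I) * z).re) + Real.exp ((((8:ℂ) + 8 * Complex.I) * z).re) +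
    Real.exp ((((-8:ℂ) - 8 * Complex.I) * z).re) + Real.exp ((((-8:ℂ) + 8 * Complex.I) * z).re) := by
  have h0 := Complex.norm_le_abs_re_add_abs_im z
  have e1 : (((8:ℂ) - 8 * Complex.I) * z).re = 8 * z.re + 8 * z.im := by simp
  have e2 : (((8:ℂ) + 8 * Complex.I) * z).re = 8 * z.re - 8 * z.im := by simp
  have e3 : (((-8:ℂ) - 8 * Complex.I) * z).re = -8 * z.re + 8 * z.im := by simp
  have e4 : (((-8:ℂ) + 8 * Complex.I) * z).re = -8 * z.re - 8 * z.im := by simp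
  rw [e1, e2, e3, e4]
  have p1 := Real.exp_pos (8 * z.re + 8 * z.im)
  have p2 := Real.exp_pos (8 * z.re - 8 * z.im)
  have p3 := Real.exp_pos (-8 * z.re + 8 * z.im)
  have p4 := Real.exp_pos (-8 * z.re - 8 * z.im)
  have h1 : Real.exp (8 * ‖z‖) ≤ Real.exp (8 * (|z.re| + |z.im|)) := Real.exp_le_exp.mpr (by linarith)
  refine h1.trans ?_
  rcases abs_cases z.re with ⟨h2, _⟩ | ⟨h2, _⟩ <;> rcases abs_cases z.im with ⟨h3, _⟩ | ⟨h3, _⟩ <;> rw [h2, h3]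
  · rw [show 8 * (z.re + z.im) = 8 * z.re + 8 * z.im by ring]; linarith
  · rw [show 8 * (z.re + -z.im) = 8 * z.re - 8 * z.im by ring]; linarith
  · rw [show 8 * (-z.re + z.im) = -8 * z.re + 8 * z.im by ring]; linarith
  · rw [show 8 * (-z.re + -z.im) = -8 * z.re - 8 * z.im by ring]; linarith

lemma norm88 (c : ℂ) (h1 : c.re ^ 2 = 64) (h2 : c.im ^ 2 = 64) : ‖c‖ ≤ 12 := by
  have h3 : ‖c‖ ^ 2 = 128 := by
    rw [Complex.sq_norm, Complex.normSq_apply]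
    nlinarith
  nlinarith [norm_nonneg c]

lemma EM_w {δ : ℝ} (hδ : 0 ≤ δ) {I : Finset ℕ} (hI : Bg I) {w : ℂ → ℝ} (hw : Continuous w)
    (h0 : ∀ z, 0 ≤ w z) {s : ℝ} (hs : |s| ≤ 1)
    (hle : ∀ z, ‖z‖ ≤ 1 / 16 → w z ≤ Real.exp (2 * s * z.re + 4 * ‖z‖ ^ 2)) :
    ∫ ω, (∏ p : I, w (ω p)) * Real.exp (8 * ‖∑ p : I, ω p‖) ∂(tm δ I) ≤
      4 * Real.exp (53 * vd δ I + 2744 * uI I) := by
  have hP : ∀ p ∈ I, p.Prime := fun p hp => (hI p hp).1
  have hwc : Continuous fun ω : I → ℂ => ∏ p : I, w (ω p) :=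
    continuous_finsetProd _ fun p _ => hw.comp (continuous_apply p)
  have hi : ∀ c : ℂ, Integrable (fun ω : I → ℂ => (∏ p : I, w (ω p)) * Real.exp ((c * ∑ p : I, ω p).re)) (tm δ I) :=
    fun c => tm_integrable hP (hwc.mul (by fun_prop))
  have h1 : ∫ ω, (∏ p : I, w (ω p)) * Real.exp (8 * ‖∑ p : I, ω p‖) ∂(tm δ I) ≤
      ∫ ω, ((∏ p : I, w (ω p)) * Real.exp ((((8:ℂ) - 8 * Complex.I) * ∑ p : I, ω p).re) +
        (∏ p : I, w (ω p)) * Real.exp ((((8:ℂ) + 8 * Complex.I) * ∑ p : I, ω p).re) +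
        (∏ p : I, w (ω p)) * Real.exp ((((-8:ℂ) - 8 * Complex.I) * ∑ p : I, ω p).re) +
        (∏ p : I, w (ω p)) * Real.exp ((((-8:ℂ) + 8 * Complex.I) * ∑ p : I, ω p).re)) ∂(tm δ I) := by
    refine integral_mono (tm_integrable hP (hwc.mul (by fun_prop))) ((((hi _).add (hi _)).add (hi _)).add (hi _))
      fun ω => ?_
    simp only
    rw [← mul_add, ← mul_add, ← mul_add]
    exact mul_le_mul_of_nonneg_left (norm_exp8_le _) (prod_nonneg fun p _ => h0 _)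
  refine h1.trans ?_
  have j1 := (hi ((8:ℂ) - 8 * Complex.I)).add (hi ((8:ℂ) + 8 * Complex.I))
  have j2 := j1.add (hi ((-8:ℂ) - 8 * Complex.I))
  have s1 := integral_add j2 (hi ((-8:ℂ) + 8 * Complex.I))
  have s2 := integral_add j1 (hi ((-8:ℂ) - 8 * Complex.I))
  have s3 := integral_add (hi ((8:ℂ) - 8 * Complex.I)) (hi ((8:ℂ) + 8 * Complex.I))
  simp only [Pi.add_apply] at s1 s2 s3
  rw [s1, s2, s3]
  have k1 := EM_lin hδ hI hw h0 hs hle (c := (8:ℂ) - 8 * Complex.I) (norm88 _ (by norm_num) (by norm_num))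
  have k2 := EM_lin hδ hI hw h0 hs hle (c := (8:ℂ) + 8 * Complex.I) (norm88 _ (by norm_num) (by norm_num))
  have k3 := EM_lin hδ hI hw h0 hs hle (c := (-8:ℂ) - 8 * Complex.I) (norm88 _ (by norm_num) (by norm_num))
  have k4 := EM_lin hδ hI hw h0 hs hle (c := (-8:ℂ) + 8 * Complex.I) (norm88 _ (by norm_num) (by norm_num))
  linarith

lemma gz_sq_le {K : ℕ} (hK : 2 ≤ K) {z : ℂ} (hz : ‖z‖ ≤ 1 / 16) :
    ‖gz K z‖ ^ 2 ≤ Real.exp (2 * 1 * z.re + 4 * ‖z‖ ^ 2) := by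
  have h1 := E3_gz hK z hz
  set r := ‖z‖ with hr
  have hr0 : 0 ≤ r := norm_nonneg z
  have h2 : ‖gz K z‖ ≤ ‖1 + z‖ + (r ^ 2 + 3 * r ^ 3) := by
    have e1 : gz K z = (1 + z) + (z ^ 2 + (gz K z - (1 + ((1:ℝ):ℂ) * z + ((1:ℝ):ℂ) * z ^ 2))) := by
      push_cast; ring
    have h3 := norm_add_le (1 + z) (z ^ 2 + (gz K z - (1 + ((1:ℝ):ℂ) * z + ((1:ℝ):ℂ) * z ^ 2)))
    rw [← e1] at h3
    have h4 := norm_add_le (z ^ 2) (gz K z - (1 + ((1:ℝ):ℂ) * z + ((1:ℝ):ℂ) * z ^ 2))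
    rw [norm_pow] at h4
    linarith
  have h5 : ‖1 + z‖ ^ 2 = 1 + 2 * z.re + r ^ 2 := by
    rw [hr, Complex.sq_norm, Complex.sq_norm, Complex.normSq_apply, Complex.normSq_apply]
    simp
    ring
  have h6 : ‖1 + z‖ ≤ 1 + r := by
    have := norm_add_le (1:ℂ) z
    rwa [norm_one] at this
  have h7 : r ^ 2 + 3 * r ^ 3 ≤ 6 / 5 * r ^ 2 := by nlinarith [sq_nonneg r]
  have h8 : ‖gz K z‖ ^ 2 ≤ 1 + (2 * 1 * z.re + 4 * r ^ 2) := by
    have h9 : ‖gz K z‖ ≤ ‖1 + z‖ + 6 / 5 * r ^ 2 := by linarith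
    have h10 : ‖gz K z‖ ^ 2 ≤ (‖1 + z‖ + 6 / 5 * r ^ 2) ^ 2 := pow_le_pow_left₀ (norm_nonneg _) h9 2
    have h11 : ‖1 + z‖ * (6 / 5 * r ^ 2) ≤ (17 / 16) * (6 / 5 * r ^ 2) := by
      refine mul_le_mul_of_nonneg_right (by linarith) (by positivity)
    have h12 : (6 / 5 * r ^ 2) ^ 2 ≤ 1 / 10 * r ^ 2 := by
      have : r ^ 2 ≤ (1 / 16) ^ 2 := pow_le_pow_left₀ hr0 hz 2
      nlinarith [sq_nonneg r]
    nlinarith
  have h13 := Real.add_one_le_exp (2 * 1 * z.re + 4 * r ^ 2)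
  linarith

/-- the bound for the exponential moments -/
noncomputable def CE (c : ℝ) : ℝ := 8 * Real.exp (2800 * c)

lemma CE_pos (c : ℝ) : 0 < CE c := by unfold CE; positivity

/-- the product of the geometric factors on the torus -/
noncomputable def Gt (K : ℕ) (I : Finset ℕ) (ω : I → ℂ) : ℂ := ∏ p : I, gz K (ω p)

lemma Gt_cont (K : ℕ) (I : Finset ℕ) : Continuous (Gt K I) := by
  unfold Gt
  exact continuous_finsetProd _ fun p _ => (gz_cont K).comp (continuous_apply p)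

theorem EM {δ c : ℝ} (hδ : 0 ≤ δ) {I : Finset ℕ} (hI : Bg I) (hv : vI I ≤ c) (hu : uI I ≤ c) {K : ℕ} (hK : 2 ≤ K) :
    ∫ ω, (1 + ‖Gt K I ω‖ ^ 2) * Real.exp (8 * ‖∑ p : I, ω p‖) ∂(tm δ I) ≤ CE c := by
  have hP : ∀ p ∈ I, p.Prime := fun p hp => (hI p hp).1
  have h1 := EM_w hδ hI (w := fun _ => 1) continuous_const (fun _ => zero_le_one) (s := 0) (by simp)
    (fun z _ => Real.one_le_exp (by rw [mul_zero, zero_mul, zero_add]; positivity))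
  have h2 := EM_w hδ hI (w := fun z => ‖gz K z‖ ^ 2) ((gz_cont K).norm.pow 2) (fun _ => by positivity) (s := 1)
    (by simp) (fun z hz => gz_sq_le hK hz)
  simp only [prod_const_one, one_mul] at h1
  have e1 : ∀ ω : I → ℂ, ‖Gt K I ω‖ ^ 2 = ∏ p : I, ‖gz K (ω p)‖ ^ 2 := by
    intro ω
    unfold Gt
    rw [norm_prod, prod_pow]
  have hv0 : vd δ I ≤ c := (vd_le hδ hI).trans hv
  have hc0 : 0 ≤ c := (uI_nonneg I).trans hu
  have h3 : Real.exp (53 * vd δ I + 2744 * uI I) ≤ Real.exp (2800 * c) := Real.exp_le_exp.mpr (by linarith)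
  have j1 : Integrable (fun ω : I → ℂ => Real.exp (8 * ‖∑ p : I, ω p‖)) (tm δ I) :=
    tm_integrable hP (by fun_prop)
  have j2 : Integrable (fun ω : I → ℂ => (∏ p : I, ‖gz K (ω p)‖ ^ 2) * Real.exp (8 * ‖∑ p : I, ω p‖)) (tm δ I) := by
    refine tm_integrable hP (Continuous.mul ?_ (by fun_prop))
    exact continuous_finsetProd _ fun p _ => ((gz_cont K).comp (continuous_apply p)).norm.pow 2
  have e2 : ∀ ω : I → ℂ, (1 + ‖Gt K I ω‖ ^ 2) * Real.exp (8 * ‖∑ p : I, ω p‖) =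
      Real.exp (8 * ‖∑ p : I, ω p‖) + (∏ p : I, ‖gz K (ω p)‖ ^ 2) * Real.exp (8 * ‖∑ p : I, ω p‖) := by
    intro ω; rw [e1]; ring
  simp_rw [e2]
  rw [integral_add j1 j2]
  unfold CE
  linarith

end Pool.Agent.Y755
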