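import Pool.Agent.Y755.Blk

set_option autoImplicit false

/-! The inner products of one block. -/

namespace Pool.Agent.Y755

open Finset Filter MeasureTheory MonoidAlgebra
open Pool.Agent.W184.NZ

lemma NK_half (K : ℕ) (a : ℝ) (z : ℂ) : NK K a z = NK K (a / 2) (2 * z) := by
  rw [NK_eq, NK_eq]
  refine sum_congr rfl fun m _ => ?_
  congr 2
  push_cast
  ring

lemma cl_two {R : ℕ} (hR : 1 ≤ R) {a : ℝ} (ha : |a| ≤ 2) : Cl (20 * R) a R := by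
  intro z hz
  have h1 := cl_ten (R := 2 * R) (by omega) (a := a / 2) (by rw [abs_div]; norm_num; linarith)
  have h2 := h1 (2 * z) (by rw [norm_mul]; push_cast; norm_num; linarith)
  have e1 : ((a / 2 : ℝ) : ℂ) * (2 * z) = a * z := by push_cast; ring
  rw [e1, show 10 * (2 * R) = 20 * R by ring, ← NK_half] at h2
  refine h2.trans (mul_le_mul_of_nonneg_right (Real.exp_le_exp.mpr ?_) (norm_nonneg _))
  push_cast
  have : (0:ℝ) ≤ R := Nat.cast_nonneg R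
  linarith

lemma NK_norm_le2 (K : ℕ) {a : ℝ} (ha : |a| ≤ 2) (z : ℂ) : ‖NK K a z‖ ≤ Real.exp (2 * ‖z‖) := by
  rw [NK_half]
  refine (NK_norm_le K (a := a / 2) (by rw [abs_div]; norm_num; linarith) _).trans (le_of_eq ?_)
  rw [norm_mul]; norm_num

lemma exp_norm_le2 {a : ℝ} (ha : |a| ≤ 2) (z : ℂ) : ‖Complex.exp (a * z)‖ ≤ Real.exp (2 * ‖z‖) := by
  rw [Complex.norm_exp]
  refine Real.exp_le_exp.mpr ?_
  refine (Complex.re_le_norm _).trans ?_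
  rw [norm_mul, Complex.norm_real, Real.norm_eq_abs]
  exact mul_le_mul_of_nonneg_right ha (norm_nonneg _)

lemma rho_le {R : ℕ} (hR : 1 ≤ R) {a : ℝ} (ha : |a| ≤ 2) (z : ℂ) :
    ‖NK (20 * R) a z - Complex.exp (a * z)‖ ≤ 2 * Real.exp (-(R:ℝ)) * Real.exp (3 * ‖z‖) := by
  have hz0 := norm_nonneg z
  rcases le_or_gt ‖z‖ (R:ℝ) with hz | hz
  · refine (cl_two hR ha z hz).trans ?_
    have h1 := exp_norm_le2 ha z
    have h2 : Real.exp (2 * ‖z‖) ≤ Real.exp (3 * ‖z‖) := Real.exp_le_exp.mpr (by linarith)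
    have h3 := Real.exp_pos (-(R:ℝ))
    calc _ ≤ Real.exp (-(R:ℝ)) * Real.exp (3 * ‖z‖) := mul_le_mul_of_nonneg_left (h1.trans h2) h3.le
      _ ≤ _ := mul_le_mul_of_nonneg_right (by linarith) (Real.exp_pos _).le
  · have h1 := norm_sub_le (NK (20 * R) a z) (Complex.exp (a * z))
    have h2 := NK_norm_le2 (20 * R) ha z
    have h3 := exp_norm_le2 ha z
    have h4 : Real.exp (2 * ‖z‖) ≤ Real.exp (-(R:ℝ)) * Real.exp (3 * ‖z‖) := by
      rw [← Real.exp_add]; exact Real.exp_le_exp.mpr (by linarith)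
    linarith

/-- the sum over the primes of the block -/
noncomputable def x1 (I : Finset ℕ) : P1 := ∑ p ∈ I, single p 1

/-- truncated geometric series in one prime -/
noncomputable def Gl (K : ℕ) (p : ℕ) : P1 := ∑ e ∈ range (K + 1), (single p 1) ^ e

/-- product over the primes of the block -/
noncomputable def GI (K : ℕ) (I : Finset ℕ) : P1 := ∏ p ∈ I, Gl K p

lemma prime_mem_M1 {I : Finset ℕ} {p : ℕ} (hp : p.Prime) (hI : p ∈ I) : p ∈ M1 I := by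
  refine ⟨hp.ne_zero, fun q hq h => ?_⟩
  rw [(Nat.prime_dvd_prime_iff_eq hq hp).mp h]; exact hI

lemma x1_mem {I : Finset ℕ} (h : ∀ p ∈ I, p.Prime) : x1 I ∈ SA1 (M1 I) :=
  Subalgebra.sum_mem _ fun p hp => single_mem_SA1 (prime_mem_M1 (h p hp) hp) 1

lemma Gl_mem {I : Finset ℕ} {p : ℕ} (hp : p.Prime) (hI : p ∈ I) (K : ℕ) : Gl K p ∈ SA1 (M1 I) :=
  Subalgebra.sum_mem _ fun e _ => Subalgebra.pow_mem _ (single_mem_SA1 (prime_mem_M1 hp hI) 1) _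

lemma GI_mem {I : Finset ℕ} (h : ∀ p ∈ I, p.Prime) (K : ℕ) : GI K I ∈ SA1 (M1 I) :=
  Subalgebra.prod_mem _ fun p hp => Gl_mem (h p hp) hp K

lemma NK_mem1 {M : Submonoid ℕ} {f : P1} (hf : f ∈ SA1 M) (K : ℕ) (a : ℝ) : NK K a f ∈ SA1 M :=
  Subalgebra.sum_mem _ fun k _ => Subalgebra.smul_mem _ (Subalgebra.pow_mem _ hf k) _

lemma hT_prime {I : Finset ℕ} {p : ℕ} (hp : p.Prime) (hI : p ∈ I) (ω : I → ℂ) : hT I ω p = ω ⟨p, hI⟩ := by
  show (if p = 0 then 0 else ∏ q : I, ω q ^ (p.factorization q)) = _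
  rw [if_neg hp.ne_zero, prod_eq_single ⟨p, hI⟩]
  · simp [hp.factorization]
  · intro q _ hq
    have : (p : ℕ) ≠ (q : ℕ) := fun h => hq (Subtype.ext h.symm)
    simp [hp.factorization, Finsupp.single_apply, this]
  · intro h; exact absurd (mem_univ _) h

lemma ph_x1 {I : Finset ℕ} (h : ∀ p ∈ I, p.Prime) (ω : I → ℂ) : ph I ω (x1 I) = ∑ p : I, ω p := by
  unfold x1
  rw [map_sum, ← Finset.sum_coe_sort]
  refine sum_congr rfl fun p _ => ?_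
  rw [ph_single, hT_prime (h p p.2) p.2]
  simp

lemma ph_GI {I : Finset ℕ} (h : ∀ p ∈ I, p.Prime) (K : ℕ) (ω : I → ℂ) : ph I ω (GI K I) = Gt K I ω := by
  unfold GI Gt
  rw [map_prod, ← Finset.prod_coe_sort]
  refine prod_congr rfl fun p _ => ?_
  unfold Gl gz
  rw [map_sum]
  refine sum_congr rfl fun e _ => ?_
  rw [map_pow, ph_single, hT_prime (h p p.2) p.2]
  simp

/-- the far part -/
noncomputable def Qe (R : ℕ) (I : Finset ℕ) : P1 := ((1 / (R:ℝ)) ^ R) • x1 I ^ R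

lemma Qe_mem {I : Finset ℕ} (h : ∀ p ∈ I, p.Prime) (R : ℕ) : Qe R I ∈ SA1 (M1 I) :=
  Subalgebra.smul_mem _ (Subalgebra.pow_mem _ (x1_mem h) _) _

lemma ph_Qe_sq {I : Finset ℕ} (h : ∀ p ∈ I, p.Prime) (R : ℕ) (ω : I → ℂ) :
    ‖ph I ω (Qe R I)‖ ^ 2 = (‖∑ p : I, ω p‖ / R) ^ (2 * R) := by
  unfold Qe
  rw [map_smul, map_pow, ph_x1 h, Complex.real_smul, norm_mul, Complex.norm_real,
    Real.norm_of_nonneg (by positivity), norm_pow, ← mul_pow, ← pow_mul, mul_comm R 2]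
  congr 1
  ring

/-- the error of a block -/
noncomputable def eb (c : ℝ) (I : Finset ℕ) (R : ℕ) : ℝ :=
  (Real.exp (300 * uI I) - 1) + 4 * CE c * Real.exp (-(R:ℝ))

lemma eb_nonneg (c : ℝ) (I : Finset ℕ) (R : ℕ) : 0 ≤ eb c I R := by
  unfold eb
  have h1 : 1 ≤ Real.exp (300 * uI I) := Real.one_le_exp (by have := uI_nonneg I; positivity)
  have := CE_pos c
  have : 0 ≤ 4 * CE c * Real.exp (-(R:ℝ)) := by positivity
  linarith

section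

variable {δ c : ℝ} {I : Finset ℕ} {K R : ℕ} {a : ℝ}

lemma expZ (a : ℝ) (ω : I → ℂ) : Complex.exp (a * ∑ p : I, ω p) = ∏ p : I, Complex.exp (a * ω p) := by
  rw [mul_sum, Complex.exp_sum]

/-- general comparison of the truncated and the full exponentials -/
theorem blk_gen (hδ : 0 ≤ δ) (hI : Bg I) (hv : vI I ≤ c) (hu : uI I ≤ c) (hK : 2 ≤ K) (hR : 1 ≤ R)
    {a b κ : ℝ} (ha : |a| ≤ 2) (hb : |b| ≤ 2) (F H : (I → ℂ) → ℂ) (hF : Continuous F) (hH : Continuous H)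
    (hF1 : ∀ ω, ‖F ω‖ * ‖H ω‖ ≤ 1 + ‖Gt K I ω‖ ^ 2)
    (hmain : ‖∫ ω, (F ω * Complex.exp (a * ∑ p : I, ω p)) * starRingEnd ℂ (H ω * Complex.exp (b * ∑ p : I, ω p))
      ∂(tm δ I) - ((Real.exp (κ ^ 2 * vd δ I) : ℝ) : ℂ)‖ ≤ (Real.exp (300 * uI I) - 1) * Real.exp (κ ^ 2 * vd δ I)) :
    ‖∫ ω, (F ω * NK (20 * R) a (∑ p : I, ω p)) * starRingEnd ℂ (H ω * NK (20 * R) b (∑ p : I, ω p))
      ∂(tm δ I) - ((Real.exp (κ ^ 2 * vd δ I) : ℝ) : ℂ)‖ ≤ eb c I R * Real.exp (κ ^ 2 * vd δ I) := by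
  have hP : ∀ p ∈ I, p.Prime := fun p hp => (hI p hp).1
  have hZc : Continuous fun ω : I → ℂ => ∑ p : I, ω p := by fun_prop
  have hNc : ∀ a : ℝ, Continuous fun ω : I → ℂ => NK (20 * R) a (∑ p : I, ω p) := by
    intro a
    unfold NK
    fun_prop
  have c1 : Continuous fun ω : I → ℂ => (F ω * NK (20 * R) a (∑ p : I, ω p)) *
      starRingEnd ℂ (H ω * NK (20 * R) b (∑ p : I, ω p)) :=
    (hF.mul (hNc a)).mul (Complex.continuous_conj.comp (hH.mul (hNc b)))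
  have c2 : Continuous fun ω : I → ℂ => (F ω * Complex.exp (a * ∑ p : I, ω p)) *
      starRingEnd ℂ (H ω * Complex.exp (b * ∑ p : I, ω p)) := by
    refine (hF.mul (by fun_prop)).mul (Complex.continuous_conj.comp (hH.mul (by fun_prop)))
  have h1 : ‖(∫ ω, (F ω * NK (20 * R) a (∑ p : I, ω p)) * starRingEnd ℂ (H ω * NK (20 * R) b (∑ p : I, ω p))
      ∂(tm δ I)) - ∫ ω, (F ω * Complex.exp (a * ∑ p : I, ω p)) *
      starRingEnd ℂ (H ω * Complex.exp (b * ∑ p : I, ω p)) ∂(tm δ I)‖ ≤ 4 * CE c * Real.exp (-(R:ℝ)) := by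
    rw [← integral_sub (tm_integrable hP c1) (tm_integrable hP c2)]
    have hb2 : ∀ ω : I → ℂ, ‖(F ω * NK (20 * R) a (∑ p : I, ω p)) * starRingEnd ℂ (H ω * NK (20 * R) b (∑ p : I, ω p)) -
        (F ω * Complex.exp (a * ∑ p : I, ω p)) * starRingEnd ℂ (H ω * Complex.exp (b * ∑ p : I, ω p))‖ ≤
        4 * Real.exp (-(R:ℝ)) * ((1 + ‖Gt K I ω‖ ^ 2) * Real.exp (8 * ‖∑ p : I, ω p‖)) := by
      intro ω
      set Z := ∑ p : I, ω p with hZ
      have hZ0 := norm_nonneg Z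
      have e1 : (F ω * NK (20 * R) a Z) * starRingEnd ℂ (H ω * NK (20 * R) b Z) -
        (F ω * Complex.exp (a * Z)) * starRingEnd ℂ (H ω * Complex.exp (b * Z)) =
        (F ω * starRingEnd ℂ (H ω)) * ((NK (20 * R) a Z - Complex.exp (a * Z)) * starRingEnd ℂ (NK (20 * R) b Z) +
          Complex.exp (a * Z) * starRingEnd ℂ (NK (20 * R) b Z - Complex.exp (b * Z))) := by
        rw [map_mul, map_mul, map_sub]; ring
      rw [e1, norm_mul, norm_mul, RCLike.norm_conj]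
      have h2 : ‖(NK (20 * R) a Z - Complex.exp (a * Z)) * starRingEnd ℂ (NK (20 * R) b Z) +
          Complex.exp (a * Z) * starRingEnd ℂ (NK (20 * R) b Z - Complex.exp (b * Z))‖ ≤
          4 * Real.exp (-(R:ℝ)) * Real.exp (8 * ‖Z‖) := by
        refine (norm_add_le _ _).trans ?_
        rw [norm_mul, norm_mul, RCLike.norm_conj, RCLike.norm_conj]
        have a1 := rho_le hR ha Z
        have a2 := rho_le hR hb Z
        have a3 := NK_norm_le2 (20 * R) hb Z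
        have a4 := exp_norm_le2 ha Z
        have x0 := Real.exp_pos (-(R:ℝ))
        have x1 : Real.exp (3 * ‖Z‖) * Real.exp (2 * ‖Z‖) ≤ Real.exp (8 * ‖Z‖) := by
          rw [← Real.exp_add]; exact Real.exp_le_exp.mpr (by linarith)
        calc _ ≤ (2 * Real.exp (-(R:ℝ)) * Real.exp (3 * ‖Z‖)) * Real.exp (2 * ‖Z‖) +
              Real.exp (2 * ‖Z‖) * (2 * Real.exp (-(R:ℝ)) * Real.exp (3 * ‖Z‖)) := by gcongr
          _ = 4 * Real.exp (-(R:ℝ)) * (Real.exp (3 * ‖Z‖) * Real.exp (2 * ‖Z‖)) := by ring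
          _ ≤ _ := by gcongr
      calc _ ≤ (1 + ‖Gt K I ω‖ ^ 2) * (4 * Real.exp (-(R:ℝ)) * Real.exp (8 * ‖Z‖)) :=
            mul_le_mul (hF1 ω) h2 (norm_nonneg _) (by positivity)
        _ = _ := by ring
    have hic : Continuous fun ω : I → ℂ => 4 * Real.exp (-(R:ℝ)) * ((1 + ‖Gt K I ω‖ ^ 2) *
        Real.exp (8 * ‖∑ p : I, ω p‖)) :=
      continuous_const.mul ((continuous_const.add ((Gt_cont K I).norm.pow 2)).mul (by fun_prop))
    refine (norm_integral_le_of_norm_le (tm_integrable hP hic) (ae_of_all _ hb2)).trans ?_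
    rw [integral_const_mul]
    have h3 := EM hδ hI hv hu hK
    have x0 := Real.exp_pos (-(R:ℝ))
    calc _ ≤ 4 * Real.exp (-(R:ℝ)) * CE c := mul_le_mul_of_nonneg_left h3 (by positivity)
      _ = _ := by ring
  have h2 := norm_add_le ((∫ ω, (F ω * NK (20 * R) a (∑ p : I, ω p)) * starRingEnd ℂ (H ω * NK (20 * R) b (∑ p : I, ω p))
      ∂(tm δ I)) - ∫ ω, (F ω * Complex.exp (a * ∑ p : I, ω p)) *
      starRingEnd ℂ (H ω * Complex.exp (b * ∑ p : I, ω p)) ∂(tm δ I))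
      ((∫ ω, (F ω * Complex.exp (a * ∑ p : I, ω p)) *
      starRingEnd ℂ (H ω * Complex.exp (b * ∑ p : I, ω p)) ∂(tm δ I)) - ((Real.exp (κ ^ 2 * vd δ I) : ℝ) : ℂ))
  rw [sub_add_sub_cancel] at h2
  refine h2.trans ?_
  have h3 : 1 ≤ Real.exp (κ ^ 2 * vd δ I) := Real.one_le_exp (by have := vd_nonneg δ I; positivity)
  have h4 : 4 * CE c * Real.exp (-(R:ℝ)) ≤ 4 * CE c * Real.exp (-(R:ℝ)) * Real.exp (κ ^ 2 * vd δ I) :=
    le_mul_of_one_le_right (by have := CE_pos c; positivity) h3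
  unfold eb
  rw [add_mul]
  linarith

lemma norm_prod_le (K : ℕ) (ω : I → ℂ) : ‖Gt K I ω‖ * ‖(1:ℂ)‖ ≤ 1 + ‖Gt K I ω‖ ^ 2 := by
  rw [norm_one, mul_one]
  nlinarith [sq_nonneg (‖Gt K I ω‖ - 1), norm_nonneg (Gt K I ω)]

lemma re_close {x y : ℝ} {z : ℂ} {e : ℝ} (h : ((x:ℝ):ℂ) = z) (h2 : ‖z - (y:ℂ)‖ ≤ e) : |x - y| ≤ e := by
  rw [← h, ← Complex.ofReal_sub, Complex.norm_real, Real.norm_eq_abs] at h2
  exact h2

lemma k_abs (ha : |a| ≤ 1) : |1 + a| ≤ 2 ∧ |1 + a + a ^ 2 / 2| ≤ 5 ∧ |(1 + a) ^ 2 / 2| ≤ 5 := by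
  obtain ⟨h1, h2⟩ := abs_le.mp ha
  have h3 : a ^ 2 ≤ 1 := by nlinarith
  refine ⟨?_, ?_, ?_⟩
  · rw [abs_of_nonneg (by linarith)]; linarith
  · rw [abs_of_nonneg (by nlinarith)]; linarith
  · rw [abs_of_nonneg (by positivity)]; nlinarith

/-- the element with the zeta factor -/
noncomputable def Ae (K R : ℕ) (a : ℝ) (I : Finset ℕ) : P1 := GI K I * NK (20 * R) a (x1 I)

theorem blk1 (hδ : 0 ≤ δ) (hI : Bg I) (hv : vI I ≤ c) (hu : uI I ≤ c) (hK : 2 ≤ K) (hR : 1 ≤ R) (ha : |a| ≤ 1) :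
    |ip δ (Ae K R a I) (Ae K R a I) - Real.exp ((1 + a) ^ 2 * vd δ I)| ≤
      eb c I R * Real.exp ((1 + a) ^ 2 * vd δ I) := by
  have hP : ∀ p ∈ I, p.Prime := fun p hp => (hI p hp).1
  have hm : Ae K R a I ∈ SA1 (M1 I) := Subalgebra.mul_mem _ (GI_mem hP K) (NK_mem1 (x1_mem hP) _ _)
  obtain ⟨k1, k2, k3⟩ := k_abs ha
  refine re_close (ip_torus hP hm hm) ?_
  have e1 : ∀ ω : I → ℂ, ph I ω (Ae K R a I) = Gt K I ω * NK (20 * R) a (∑ p : I, ω p) := by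
    intro ω
    unfold Ae
    rw [map_mul, ph_GI hP, NK_map, ph_x1 hP]
  simp_rw [e1]
  refine blk_gen hδ hI hv hu hK hR (by linarith) (by linarith) (Gt K I) (Gt K I) (Gt_cont K I) (Gt_cont K I)
    (fun ω => ?_) ?_
  · nlinarith [norm_nonneg (Gt K I ω)]
  · have h1 := tm_pair hδ hI (E3_mul (a := a) (by linarith) hK) (E3_mul (a := a) (by linarith) hK)
      ((gz_cont K).mul (by fun_prop)) ((gz_cont K).mul (by fun_prop)) k1 k2 le_rfl k2 le_rfl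
    have e2 : ∀ ω : I → ℂ, Gt K I ω * Complex.exp (a * ∑ p : I, ω p) = ∏ p : I, gz K (ω p) * Complex.exp (a * ω p) := by
      intro ω
      rw [expZ, Gt, prod_mul_distrib]
    simp_rw [e2]
    exact h1

theorem blk2 (hδ : 0 ≤ δ) (hI : Bg I) (hv : vI I ≤ c) (hu : uI I ≤ c) (hK : 2 ≤ K) (hR : 1 ≤ R) (ha : |a| ≤ 1) :
    |ip δ (Ae K R a I) (NK (20 * R) (1 + a) (x1 I)) - Real.exp ((1 + a) ^ 2 * vd δ I)| ≤
      eb c I R * Real.exp ((1 + a) ^ 2 * vd δ I) := by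
  have hP : ∀ p ∈ I, p.Prime := fun p hp => (hI p hp).1
  have hm : Ae K R a I ∈ SA1 (M1 I) := Subalgebra.mul_mem _ (GI_mem hP K) (NK_mem1 (x1_mem hP) _ _)
  have hm2 : NK (20 * R) (1 + a) (x1 I) ∈ SA1 (M1 I) := NK_mem1 (x1_mem hP) _ _
  obtain ⟨k1, k2, k3⟩ := k_abs ha
  refine re_close (ip_torus hP hm hm2) ?_
  have e1 : ∀ ω : I → ℂ, ph I ω (Ae K R a I) = Gt K I ω * NK (20 * R) a (∑ p : I, ω p) := by
    intro ω
    unfold Ae
    rw [map_mul, ph_GI hP, NK_map, ph_x1 hP]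
  have e1' : ∀ ω : I → ℂ, ph I ω (NK (20 * R) (1 + a) (x1 I)) = 1 * NK (20 * R) (1 + a) (∑ p : I, ω p) := by
    intro ω
    rw [NK_map, ph_x1 hP, one_mul]
  simp_rw [e1, e1']
  refine blk_gen hδ hI hv hu hK hR (by linarith) k1 (Gt K I) (fun _ => 1) (Gt_cont K I) continuous_const
    (fun ω => norm_prod_le K ω) ?_
  have h1 := tm_pair hδ hI (E3_mul (a := a) (by linarith) hK) (E3_exp (a := 1 + a) k1)
      ((gz_cont K).mul (by fun_prop)) (by fun_prop) k1 k2 le_rfl k3 (by norm_num)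
  have e2 : ∀ ω : I → ℂ, Gt K I ω * Complex.exp (a * ∑ p : I, ω p) = ∏ p : I, gz K (ω p) * Complex.exp (a * ω p) := by
    intro ω
    rw [expZ, Gt, prod_mul_distrib]
  simp_rw [e2, one_mul, expZ]
  exact h1

theorem blk3 (hδ : 0 ≤ δ) (hI : Bg I) (hv : vI I ≤ c) (hu : uI I ≤ c) (hR : 1 ≤ R) (ha : |a| ≤ 1) :
    |ip δ (NK (20 * R) (1 + a) (x1 I)) (NK (20 * R) (1 + a) (x1 I)) - Real.exp ((1 + a) ^ 2 * vd δ I)| ≤
      eb c I R * Real.exp ((1 + a) ^ 2 * vd δ I) := by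
  have hP : ∀ p ∈ I, p.Prime := fun p hp => (hI p hp).1
  have hm2 : NK (20 * R) (1 + a) (x1 I) ∈ SA1 (M1 I) := NK_mem1 (x1_mem hP) _ _
  obtain ⟨k1, k2, k3⟩ := k_abs ha
  refine re_close (ip_torus hP hm2 hm2) ?_
  have e1' : ∀ ω : I → ℂ, ph I ω (NK (20 * R) (1 + a) (x1 I)) = 1 * NK (20 * R) (1 + a) (∑ p : I, ω p) := by
    intro ω
    rw [NK_map, ph_x1 hP, one_mul]
  simp_rw [e1']
  refine blk_gen (K := 2) hδ hI hv hu le_rfl hR k1 k1 (fun _ => 1) (fun _ => 1) continuous_const continuous_const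
    (fun ω => ?_) ?_
  · rw [norm_one, mul_one]
    have : 0 ≤ ‖Gt 2 I ω‖ ^ 2 := by positivity
    linarith
  have h1 := tm_pair hδ hI (E3_exp (a := 1 + a) k1) (E3_exp (a := 1 + a) k1)
      (by fun_prop) (by fun_prop) k1 k3 (by norm_num) k3 (by norm_num)
  simp_rw [one_mul, expZ]
  exact h1

/-- far parts -/
theorem blk_far (hδ : 0 ≤ δ) (hI : Bg I) (hv : vI I ≤ c) (hu : uI I ≤ c) (hK : 2 ≤ K) (hR : 1 ≤ R) {f : P1}
    (hf : f ∈ SA1 (M1 I)) (hf2 : ∀ ω, ‖ph I ω f‖ ^ 2 ≤ (1 + ‖Gt K I ω‖ ^ 2) * Real.exp (4 * ‖∑ p : I, ω p‖)) :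
    ip δ (f * Qe R I) (f * Qe R I) ≤ CE c * Real.exp (-(2 * (R:ℝ))) := by
  have hP : ∀ p ∈ I, p.Prime := fun p hp => (hI p hp).1
  rw [ip_torus_self hP (Subalgebra.mul_mem _ hf (Qe_mem hP R))]
  have h1 : ∀ ω : I → ℂ, ‖ph I ω (f * Qe R I)‖ ^ 2 ≤ Real.exp (-(2 * (R:ℝ))) *
      ((1 + ‖Gt K I ω‖ ^ 2) * Real.exp (8 * ‖∑ p : I, ω p‖)) := by
    intro ω
    rw [map_mul, norm_mul, mul_pow, ph_Qe_sq hP]
    have h2 := ball_pow_le hR (∑ p : I, ω p)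
    calc _ ≤ ((1 + ‖Gt K I ω‖ ^ 2) * Real.exp (4 * ‖∑ p : I, ω p‖)) *
          (Real.exp (-(2 * (R:ℝ))) * Real.exp (4 * ‖∑ p : I, ω p‖)) :=
          mul_le_mul (hf2 ω) h2 (by positivity) (by positivity)
      _ = _ := by
          rw [show 8 * ‖∑ p : I, ω p‖ = 4 * ‖∑ p : I, ω p‖ + 4 * ‖∑ p : I, ω p‖ by ring, Real.exp_add]; ring
  have hic : Continuous fun ω : I → ℂ => Real.exp (-(2 * (R:ℝ))) * ((1 + ‖Gt K I ω‖ ^ 2) *
        Real.exp (8 * ‖∑ p : I, ω p‖)) :=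
      continuous_const.mul ((continuous_const.add ((Gt_cont K I).norm.pow 2)).mul (by fun_prop))
  have h3 := integral_mono (tm_integrable (δ := δ) hP ((ph_cont I (f * Qe R I)).norm.pow 2))
    (tm_integrable (δ := δ) hP hic) h1
  refine h3.trans ?_
  rw [integral_const_mul, mul_comm]
  exact mul_le_mul_of_nonneg_right (EM hδ hI hv hu hK) (Real.exp_pos _).le

theorem blk4 (hδ : 0 ≤ δ) (hI : Bg I) (hv : vI I ≤ c) (hu : uI I ≤ c) (hK : 2 ≤ K) (hR : 1 ≤ R) :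
    ip δ (GI K I * Qe R I) (GI K I * Qe R I) ≤ CE c * Real.exp (-(2 * (R:ℝ))) := by
  have hP : ∀ p ∈ I, p.Prime := fun p hp => (hI p hp).1
  refine blk_far hδ hI hv hu hK hR (GI_mem hP K) fun ω => ?_
  rw [ph_GI hP]
  have h1 : 1 ≤ Real.exp (4 * ‖∑ p : I, ω p‖) := Real.one_le_exp (by positivity)
  have h2 : 0 ≤ ‖Gt K I ω‖ ^ 2 := by positivity
  nlinarith

theorem blk5 (hδ : 0 ≤ δ) (hI : Bg I) (hv : vI I ≤ c) (hu : uI I ≤ c) (hR : 1 ≤ R) (ha : |a| ≤ 2) :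
    ip δ (NK (20 * R) a (x1 I) * Qe R I) (NK (20 * R) a (x1 I) * Qe R I) ≤ CE c * Real.exp (-(2 * (R:ℝ))) := by
  have hP : ∀ p ∈ I, p.Prime := fun p hp => (hI p hp).1
  refine blk_far (K := 2) hδ hI hv hu le_rfl hR (NK_mem1 (x1_mem hP) _ _) fun ω => ?_
  rw [NK_map, ph_x1 hP]
  have h1 := pow_le_pow_left₀ (norm_nonneg _) (NK_norm_le2 (20 * R) ha (∑ p : I, ω p)) 2
  rw [← Real.exp_nat_mul] at h1
  have h2 : 0 ≤ ‖Gt 2 I ω‖ ^ 2 * Real.exp (4 * ‖∑ p : I, ω p‖) := by positivity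
  have e : ((2:ℕ):ℝ) * (2 * ‖∑ p : I, ω p‖) = 4 * ‖∑ p : I, ω p‖ := by push_cast; ring
  rw [e] at h1
  nlinarith

theorem blk6 (hδ : 0 ≤ δ) (hI : Bg I) (hv : vI I ≤ c) (hu : uI I ≤ c) (hR : 1 ≤ R) :
    ip δ (Qe R I) (Qe R I) ≤ CE c * Real.exp (-(2 * (R:ℝ))) := by
  have h := blk_far (f := 1) (K := 2) hδ hI hv hu le_rfl hR (Subalgebra.one_mem _) (fun ω => ?_)
  · rwa [one_mul] at h
  · rw [map_one, norm_one, one_pow]
    have h1 : 1 ≤ Real.exp (4 * ‖∑ p : I, ω p‖) := Real.one_le_exp (by positivity)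
    have h2 : 0 ≤ ‖Gt 2 I ω‖ ^ 2 := by positivity
    nlinarith

end

end Pool.Agent.Y755
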