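import Pool.Agent.Y755.Nrm

set_option autoImplicit false

/-! The choice of the parameters. -/

namespace Pool.Agent.Y755

open Finset Filter MeasureTheory
open Pool.Agent.W184.NZ

lemma uI_tail {ε : ℝ} (hε : 0 < ε) : ∃ z0 : ℕ, ∀ z : ℕ, z0 ≤ z → ∀ s : Finset ℕ, (∀ p ∈ s, z ≤ p) →
    ∑ p ∈ s, (p:ℝ) ^ (-(3 / 2 : ℝ)) ≤ ε := by
  have hs : Summable (fun n : ℕ => (n:ℝ) ^ (-(3 / 2 : ℝ))) := by
    rw [Real.summable_nat_rpow]; norm_num
  rw [summable_iff_vanishing_norm] at hs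
  obtain ⟨s, hs⟩ := hs ε hε
  refine ⟨s.sup id + 1, fun z hz t ht => ?_⟩
  have h1 := hs t (by
    rw [disjoint_left]
    intro p hp hps
    have h2 := ht p hp
    have h3 : p ≤ s.sup id := Finset.le_sup (f := id) hps
    omega)
  exact ((le_abs_self _).trans_lt h1).le

lemma exp_sub_one_le {x M : ℝ} (hx : 0 ≤ x) (hM : x ≤ M) : Real.exp x - 1 ≤ Real.exp M * x := by
  have h1 := Real.add_one_le_exp (-x)
  have h2 : Real.exp x * Real.exp (-x) = 1 := by rw [← Real.exp_add]; simp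
  have h3 : Real.exp x ≤ Real.exp M := Real.exp_le_exp.mpr hM
  have h4 := Real.exp_pos x
  have h5 : Real.exp x * (-x + 1) ≤ 1 := by
    calc _ ≤ Real.exp x * Real.exp (-x) := mul_le_mul_of_nonneg_left h1 h4.le
      _ = 1 := h2
  nlinarith

lemma sum_exp_two (J Rs : ℕ) : ∑ i ∈ range J, Real.exp (-(RR Rs i : ℝ)) ≤ 2 * Real.exp (-(2 * (Rs:ℝ))) := by
  have h1 : ∀ i ∈ range J, Real.exp (-(RR Rs i : ℝ)) ≤ Real.exp (-(2 * (Rs:ℝ))) * (1 / 2) ^ i := by
    intro i _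
    have e1 : Real.exp (-(RR Rs i : ℝ)) = Real.exp (-(2 * (Rs:ℝ))) * Real.exp (-2) ^ i := by
      rw [← Real.exp_nat_mul, ← Real.exp_add]
      congr 1
      unfold RR
      push_cast; ring
    rw [e1]
    refine mul_le_mul_of_nonneg_left (pow_le_pow_left₀ (Real.exp_pos _).le ?_ i) (Real.exp_pos _).le
    rw [Real.exp_neg, ← one_div]
    refine one_div_le_one_div_of_le (by norm_num) ?_
    have := Real.add_one_le_exp (2:ℝ)
    linarith
  refine (sum_le_sum h1).trans ?_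
  rw [← mul_sum, mul_comm]
  refine mul_le_mul_of_nonneg_right ?_ (Real.exp_pos _).le
  exact sum_geometric_two_le J

lemma ET_small {c ε : ℝ} (hc : 0 ≤ c) (hε : 0 < ε) : ∃ z0 R0 : ℕ, ∀ z : ℕ, z0 ≤ z → ∀ Rs : ℕ, R0 ≤ Rs →
    ∀ (y : ℝ) (J : ℕ), Rg c J (IZ z y) (bb y) → ET c z y J Rs ≤ ε := by
  have hCE := CE_pos c
  set B := 300 * Real.exp (300 * c) with hB
  have hB0 : 0 < B := by positivity
  obtain ⟨z0, hz0⟩ := uI_tail (ε := ε / 2 / B) (by positivity)
  obtain ⟨R0, hR0⟩ := exists_nat_gt (10 * CE c / (ε / 2))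
  refine ⟨z0, R0, fun z hz Rs hRs y J hJ => ?_⟩
  have h1 : ∀ i ∈ range J, er c z y Rs i ≤ B * uI (IZ z y i) + 5 * CE c * Real.exp (-(RR Rs i : ℝ)) := by
    intro i hi
    rw [mem_range] at hi
    unfold er eb
    have hu0 := uI_nonneg (IZ z y i)
    have hu1 := hJ.u hi
    have h2 := exp_sub_one_le (x := 300 * uI (IZ z y i)) (M := 300 * c) (by positivity) (by linarith)
    have h3 : Real.exp (-(2 * (RR Rs i : ℝ))) ≤ Real.exp (-(RR Rs i : ℝ)) := by
      refine Real.exp_le_exp.mpr ?_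
      have : (0:ℝ) ≤ (RR Rs i : ℝ) := Nat.cast_nonneg _
      linarith
    have h4 := mul_le_mul_of_nonneg_left h3 hCE.le
    rw [hB]
    linarith
  have h2 : ∑ i ∈ range J, uI (IZ z y i) ≤ ε / 2 / B := by
    have h3 : ∑ i ∈ range J, uI (IZ z y i) = ∑ p ∈ (range J).biUnion (IZ z y), (p:ℝ) ^ (-(3 / 2 : ℝ)) := by
      rw [sum_biUnion]
      · rfl
      · intro i _ j _ hij
        rcases lt_or_gt_of_ne hij with h | h
        · exact hJ.dj i j h
        · exact (hJ.dj j i h).symm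
    rw [h3]
    refine hz0 z hz _ fun p hp => ?_
    rw [mem_biUnion] at hp
    obtain ⟨i, _, hi⟩ := hp
    exact (mem_IZ.mp hi).2
  have h3 := sum_exp_two J Rs
  have h4 : 10 * CE c * Real.exp (-(2 * (Rs:ℝ))) ≤ ε / 2 := by
    have h5 : (R0:ℝ) ≤ Rs := by exact_mod_cast hRs
    have h6 : 10 * CE c / (ε / 2) ≤ Real.exp (2 * (Rs:ℝ)) := by
      have := Real.add_one_le_exp (2 * (Rs:ℝ))
      have : (0:ℝ) ≤ Rs := Nat.cast_nonneg _
      linarith
    rw [div_le_iff₀ (by positivity)] at h6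
    rw [Real.exp_neg, ← div_eq_mul_inv, div_le_iff₀ (Real.exp_pos _)]
    linarith
  unfold ET
  refine (sum_le_sum h1).trans ?_
  rw [sum_add_distrib, ← mul_sum, ← mul_sum]
  have h5 : B * (ε / 2 / B) = ε / 2 := by field_simp
  have h6 := mul_le_mul_of_nonneg_left h2 hB0.le
  have h7 := mul_le_mul_of_nonneg_left h3 (by positivity : 0 ≤ 5 * CE c)
  linarith

/-- parameters -/
noncomputable def yT (η T : ℝ) : ℝ := Real.exp (η * Real.log T)
noncomputable def NT (T : ℝ) : ℕ := ⌊T ^ ((1:ℝ) / 8)⌋₊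
noncomputable def KT (T : ℝ) : ℕ := Nat.log 2 (NT T)

lemma vd_zero {P : Finset ℕ} (hP : ∀ p ∈ P, p.Prime) : vd 0 P = ∑ p ∈ P, 1 / (p:ℝ) := by
  unfold vd
  refine sum_congr rfl fun p hp => ?_
  have := half_sq (hP p hp).one_lt.le
  unfold rp
  rw [add_zero]
  exact this

lemma Rst_sum {N : ℕ} {y : ℝ} (hy : 0 ≤ y) (hN : y ≤ N) : vd 0 (Rst N y) = Pr N - Pr y := by
  rw [vd_zero Rst_prime]
  have h1 : (Icc 1 ⌊(N:ℝ)⌋₊).filter Nat.Prime = Rst N y ∪ (Icc 1 ⌊y⌋₊).filter Nat.Prime := by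
    ext p
    rw [mem_union, mem_Rst, mem_Pn, mem_filter, mem_filter, mem_Icc, mem_Icc, Nat.floor_natCast, Nat.le_floor_iff hy]
    constructor
    · rintro ⟨⟨h1, h2⟩, h3⟩
      rcases lt_or_ge y p with h4 | h4
      · exact Or.inl ⟨⟨h2, h3⟩, h4⟩
      · exact Or.inr ⟨⟨h1, h4⟩, h3⟩
    · rintro (⟨⟨h1, h2⟩, h3⟩ | ⟨⟨h1, h2⟩, h3⟩)
      · exact ⟨⟨h2.one_lt.le, h1⟩, h2⟩
      · exact ⟨⟨h1, by exact_mod_cast h2.trans hN⟩, h3⟩
  have h2 : Disjoint (Rst N y) ((Icc 1 ⌊y⌋₊).filter Nat.Prime) := by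
    rw [disjoint_left]
    intro p hp hq
    rw [mem_Rst] at hp
    rw [mem_filter, mem_Icc, Nat.le_floor_iff hy] at hq
    linarith [hp.2, hq.1.2]
  have e1 : Pr (N:ℝ) = ∑ p ∈ (Icc 1 ⌊(N:ℝ)⌋₊).filter Nat.Prime, (1:ℝ) / p := rfl
  have e2 : Pr y = ∑ p ∈ (Icc 1 ⌊y⌋₊).filter Nat.Prime, (1:ℝ) / p := rfl
  rw [e1, h1, sum_union h2, e2]
  ring

lemma vI_cut {c y : ℝ} {J z : ℕ} (h : Rg c J (II y) (bb y)) :
    |∑ i ∈ range J, vI (IZ z y i) - ∑ i ∈ range J, vI (II y i)| ≤ z := by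
  have e1 : ∀ i, vI (II y i) = vI (IZ z y i) + ∑ p ∈ (II y i).filter (fun p => ¬ z ≤ p), 1 / (p:ℝ) := by
    intro i
    unfold vI IZ
    rw [sum_filter_add_sum_filter_not]
  have e2 : ∑ i ∈ range J, vI (II y i) = ∑ i ∈ range J, vI (IZ z y i) +
      ∑ i ∈ range J, ∑ p ∈ (II y i).filter (fun p => ¬ z ≤ p), 1 / (p:ℝ) := by
    rw [← sum_add_distrib]; exact sum_congr rfl fun i _ => e1 i
  rw [e2]
  have h0 : 0 ≤ ∑ i ∈ range J, ∑ p ∈ (II y i).filter (fun p => ¬ z ≤ p), 1 / (p:ℝ) :=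
    sum_nonneg fun i _ => sum_nonneg fun p _ => by positivity
  have h1 : ∑ i ∈ range J, ∑ p ∈ (II y i).filter (fun p => ¬ z ≤ p), 1 / (p:ℝ) ≤ z := by
    rw [← sum_biUnion]
    · calc _ ≤ ∑ p ∈ (range J).biUnion (fun i => (II y i).filter (fun p => ¬ z ≤ p)), (1:ℝ) := by
            refine sum_le_sum fun p hp => ?_
            rw [mem_biUnion] at hp
            obtain ⟨i, _, hi⟩ := hp
            rw [mem_filter, mem_II] at hi
            have : (1:ℝ) ≤ p := by exact_mod_cast hi.1.1.one_lt.le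
            rw [div_le_one (by linarith)]; exact this
        _ = ((range J).biUnion (fun i => (II y i).filter (fun p => ¬ z ≤ p))).card := by simp
        _ ≤ ((range z).card : ℝ) := by
            refine Nat.cast_le.mpr (card_le_card fun p hp => ?_)
            rw [mem_biUnion] at hp
            obtain ⟨i, _, hi⟩ := hp
            rw [mem_filter] at hi
            rw [mem_range]; omega
        _ = z := by rw [card_range]
    · intro i _ j _ hij
      have hlt : ∀ i j, i < j → Disjoint ((II y i).filter (fun p => ¬ z ≤ p)) ((II y j).filter (fun p => ¬ z ≤ p)) :=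
        fun i j hij => disjoint_of_subset_left (filter_subset _ _) (disjoint_of_subset_right (filter_subset _ _) (h.dj i j hij))
      rcases lt_or_gt_of_ne hij with h | h
      · exact hlt i j h
      · exact (hlt j i h).symm
  rw [abs_le]
  constructor <;> linarith

/-- existence of the parameters -/
theorem par_ex : ∃ c : ℝ, 0 ≤ c ∧ ∀ z Rs : ℕ, 1000 ≤ z → 1 ≤ Rs → ∀ η : ℝ, 0 < η → η ≤ 1 / 16 →
    ∃ d : ℝ, 0 ≤ d ∧ ∀ᶠ T : ℝ in atTop, ∃ J : ℕ, Sy c z (yT η T) J Rs (NT T) (KT T) ∧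
      |∑ i ∈ range J, vI (IZ z (yT η T) i) - Real.log (Real.log T)| ≤ d ∧
      vd 0 (Rst (NT T) (yT η T)) ≤ d := by
  obtain ⟨c, hc, hr⟩ := ranges
  obtain ⟨C, hC0, hC⟩ := Pr_bound
  refine ⟨c, hc, fun z Rs hz hRs η hη hη1 => ?_⟩
  refine ⟨c + z + |Real.log η| + 2 * C, by positivity, ?_⟩
  have t1 : Tendsto (fun T : ℝ => yT η T) atTop atTop := by
    unfold yT
    exact Real.tendsto_exp_atTop.comp (Real.tendsto_log_atTop.const_mul_atTop hη)
  have t2 : Tendsto (fun T : ℝ => T ^ ((1:ℝ) / 16)) atTop atTop := tendsto_rpow_atTop (by norm_num)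
  filter_upwards [t1.eventually_ge_atTop (max 144 z), t2.eventually_ge_atTop 4, eventually_ge_atTop 3,
    Real.tendsto_log_atTop.eventually_ge_atTop 10] with T h1 h2 h3 h4
  have hT0 : 0 < T := by linarith
  have hT1 : 1 ≤ T := by linarith
  set L := Real.log T with hL
  obtain ⟨J, hJ1, hJ2, hJ3, hJ4⟩ := hr (yT η T) ((le_max_left _ _).trans h1)
  have hly : Real.log (yT η T) = η * L := Real.log_exp _
  have e16 : T ^ ((1:ℝ) / 8) = T ^ ((1:ℝ) / 16) * T ^ ((1:ℝ) / 16) := by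
    rw [← Real.rpow_add hT0]; norm_num
  have hN1 : T ^ ((1:ℝ) / 16) * 4 ≤ T ^ ((1:ℝ) / 8) := by
    rw [e16]; exact mul_le_mul_of_nonneg_left h2 (by positivity)
  have hN2 : T ^ ((1:ℝ) / 8) < (NT T : ℝ) + 1 := Nat.lt_floor_add_one _
  have hN3 : (NT T : ℝ) ≤ T ^ ((1:ℝ) / 8) := Nat.floor_le (by positivity)
  have hy16 : yT η T ≤ T ^ ((1:ℝ) / 16) := by
    unfold yT
    rw [Real.rpow_def_of_pos hT0]
    refine Real.exp_le_exp.mpr ?_
    rw [← hL]
    nlinarith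
  have hyN : yT η T ≤ NT T := by linarith
  have hN4 : 4 ≤ NT T := by
    refine Nat.le_floor ?_
    push_cast
    nlinarith
  refine ⟨J, ⟨hz, (le_max_right _ _).trans h1, hJ3, Rg_IZ hJ1 z, hyN, ?_, ?_, hRs⟩, ?_, ?_⟩
  · unfold KT
    exact Nat.le_log_of_pow_le (by norm_num) (by omega)
  · exact Nat.lt_pow_succ_log_self (by norm_num) _
  · have h5 := vI_cut (z := z) hJ1
    have h6 : Real.log (Real.log (yT η T)) = Real.log η + Real.log L := by
      rw [hly, Real.log_mul hη.ne' (by linarith)]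
    rw [h6] at hJ4
    have h7 := abs_nonneg (Real.log η)
    have h8 := neg_abs_le (Real.log η)
    have h9 := le_abs_self (Real.log η)
    rw [abs_le] at h5 hJ4 ⊢
    constructor <;> linarith
  · have hy3 : (144:ℝ) ≤ yT η T := (le_max_left _ _).trans h1
    rw [Rst_sum (by linarith) hyN]
    have h5 := hC (NT T) (by linarith)
    have h6 := hC (yT η T) (by linarith)
    have h7 : Real.log (Real.log (NT T)) ≤ Real.log L := by
      have hN0 : (4:ℝ) ≤ NT T := by exact_mod_cast hN4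
      have h8 : Real.log (NT T) ≤ L := by
        refine Real.log_le_log (by linarith) (hN3.trans ?_)
        calc T ^ ((1:ℝ) / 8) ≤ T ^ (1:ℝ) := Real.rpow_le_rpow_of_exponent_le hT1 (by norm_num)
          _ = T := Real.rpow_one T
      exact Real.log_le_log (Real.log_pos (by linarith)) h8
    have h6' : Real.log (Real.log (yT η T)) = Real.log η + Real.log L := by
      rw [hly, Real.log_mul hη.ne' (by linarith)]
    rw [h6'] at h6
    have h8 := neg_abs_le (Real.log η)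
    rw [abs_le] at h5 h6
    have hz0 : (0:ℝ) ≤ z := Nat.cast_nonneg z
    linarith [h5.2, h6.1]

end Pool.Agent.Y755
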