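import Pool.Agent.Y755.Bin
import Pool.Agent.Y755.Par
import Pool.Agent.H306R2.EPLim

set_option autoImplicit false

/-! Comparison with the full Dirichlet series. -/

namespace Pool.Agent.Y755

open Finset Filter MonoidAlgebra
open Pool.Agent.W184.NZ
open Pool.Agent.H306R2 (lc dv lc_zero lc_succ' lc_nonneg dv_one dv_prime_pow dA_mult dA_apply dv_nonneg cf Gs Ep Ep_expand
  C0 C0_nonneg log_bd dv_sq_le dv_mono dvJ_summable cf_tsum up up_bound C1 Zr Zr_tendsto Zr_summable Zr_pos tw_apply inv_prime)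

/-- the Dirichlet series of the squares -/
noncomputable def DD (α δ : ℝ) : ℝ := ∑' n : ℕ, g2 α δ n

lemma cf_fin1 (α δ : ℝ) (n : ℕ) : cf (fun _ : Fin 1 => α) (fun _ => 2 * δ) n = g2 α δ n := by
  unfold cf Gs g2 wδ
  simp only [univ_unique, sum_const, card_singleton, one_smul, prod_const, pow_one]
  rw [tw_apply]
  ring

lemma Ep_fin1 (α δ : ℝ) {p : ℕ} (hp : p.Prime) : Ep (fun _ : Fin 1 => α) (fun _ => 2 * δ) p = Ed α δ p := by
  unfold Ep Ed
  refine tsum_congr fun m => ?_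
  rw [cf_fin1, g2_pow α δ hp]

/-- the constant -/
noncomputable def CL (α : ℝ) : ℝ := C0 α + (α ^ 2 + C0 α) ^ 2

lemma CL_nonneg {α : ℝ} (hα : 0 < α) : 0 ≤ CL α := by
  unfold CL; have := C0_nonneg hα; positivity

lemma rp_sq_eq (δ : ℝ) {p : ℕ} (hp : p.Prime) : rp δ p ^ 2 = (p:ℝ) ^ (-(2 * δ)) / p := by
  have hp0 : (0:ℝ) < p := by exact_mod_cast hp.pos
  unfold rp
  rw [← Real.rpow_natCast, ← Real.rpow_mul hp0.le, ← Real.rpow_sub_one hp0.ne']
  congr 1
  push_cast; ring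

lemma Ed_log {α δ : ℝ} (hα : 0 < α) (hδ : 0 ≤ δ) {p : ℕ} (hp : p.Prime) :
    |Real.log (Ed α δ p) - α ^ 2 * rp δ p ^ 2| ≤ CL α * (1 / (p:ℝ)) ^ 2 := by
  obtain ⟨R, hR0, hR1, hR⟩ := Ep_expand (e := fun _ : Fin 1 => α) (fun _ => hα.le) (by simpa using hα)
    (s := fun _ => 2 * δ) (fun _ => by positivity) hp
  rw [Ep_fin1 α δ hp] at hR
  simp only [univ_unique, sum_const, card_singleton, one_smul] at hR hR1
  have hC0 := C0_nonneg hα
  have hp' := inv_prime hp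
  have e1 : α * (α * (p:ℝ) ^ (-(2 * δ))) / p = α ^ 2 * rp δ p ^ 2 := by rw [rp_sq_eq δ hp]; ring
  rw [e1] at hR
  set x := α ^ 2 * rp δ p ^ 2 with hx
  have hx0 : 0 ≤ x := by positivity
  have hx1 : x ≤ α ^ 2 * (1 / (p:ℝ)) := mul_le_mul_of_nonneg_left (rp_sq_le hδ hp.one_lt.le) (sq_nonneg _)
  have h1 := log_bd (x := x + R) (by linarith)
  rw [← add_assoc, ← hR] at h1
  set u := 1 / (p:ℝ) with hu
  have h2 : (x + R) ^ 2 ≤ (α ^ 2 + C0 α) ^ 2 * u ^ 2 := by
    rw [← mul_pow]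
    refine pow_le_pow_left₀ (by linarith) ?_ 2
    have : C0 α * u ^ 2 ≤ C0 α * u := mul_le_mul_of_nonneg_left (by nlinarith [hp'.1, hp'.2]) hC0
    nlinarith
  have h3 : |Real.log (Ed α δ p) - x| ≤ |Real.log (Ed α δ p) - (x + R)| + R := by
    have e : Real.log (Ed α δ p) - x = (Real.log (Ed α δ p) - (x + R)) + R := by ring
    rw [e]
    refine (abs_add_le _ _).trans ?_
    rw [abs_of_nonneg hR0]
  unfold CL
  calc _ ≤ (x + R) ^ 2 + R := by linarith
    _ ≤ (α ^ 2 + C0 α) ^ 2 * u ^ 2 + C0 α * u ^ 2 := add_le_add h2 hR1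
    _ = _ := by ring

lemma g2_summable {α δ : ℝ} (hα : 0 < α) (hδ : 0 < δ) : Summable (g2 α δ) := by
  obtain ⟨J, hJ⟩ := exists_nat_ge (α ^ 2)
  refine Summable.of_nonneg_of_le (fun n => g2_nonneg α δ n) (fun n => ?_) (dvJ_summable J (by positivity : 0 < 2 * δ))
  rcases Nat.eq_zero_or_pos n with h0 | h0
  · subst h0
    unfold g2 dv
    simp
  · have hn : (0:ℝ) < n := by exact_mod_cast h0
    unfold g2 wδ
    have h3 := (dv_sq_le hα.le n).trans (dv_mono (by positivity) hJ n)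
    have e : (n:ℝ) ^ (-(2 * δ)) * (1 / (n:ℝ)) = (n:ℝ) ^ (-1 - 2 * δ) := by
      rw [one_div, ← Real.rpow_neg_one (n:ℝ), ← Real.rpow_add hn]
      congr 1; ring
    rw [e]
    exact mul_le_mul_of_nonneg_right h3 (by positivity)

lemma DD_tendsto {α δ : ℝ} (hα : 0 < α) (hδ : 0 < δ) :
    Tendsto (fun M : ℕ => ∏ p ∈ S0 M, Ed α δ p) atTop (nhds (DD α δ)) := by
  have h := EulerProduct.eulerProduct (f := g2 α δ) (by simp [g2, dv_one, wδ]) (fun {m n} h => g2_mul α δ h)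
    (by
      refine (g2_summable hα hδ).congr fun n => ?_
      rw [Real.norm_of_nonneg (g2_nonneg _ _ _)]) (by unfold g2 dv; simp)
  refine h.congr fun M => ?_
  refine prod_congr rfl fun p hp => ?_
  unfold Ed
  refine tsum_congr fun k => ?_
  rw [g2_pow α δ (Nat.prime_of_mem_primesBelow hp)]

lemma DD_ge_one {α δ : ℝ} (hα : 0 < α) (hδ : 0 < δ) : 1 ≤ DD α δ := by
  have h := (g2_summable hα hδ).le_tsum 1 (fun n _ => g2_nonneg α δ n)
  have e : g2 α δ 1 = 1 := by simp [g2, dv_one, wδ]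
  rw [e] at h
  exact h

/-! the tail -/

lemma vd_far {C : ℝ} (hC : ∀ x : ℝ, 3 ≤ x → |Pr x - Real.log (Real.log x)| ≤ C) {δ y : ℝ} (hδ : 0 ≤ δ) (hy : 3 ≤ y)
    {P : Finset ℕ} (hP : ∀ p ∈ P, p.Prime ∧ y < p ∧ (p:ℝ) ≤ y ^ 4) :
    vd δ P ≤ Real.exp (-(2 * (δ * Real.log y))) * (2 + 2 * C) := by
  have hy0 : 0 < y := by linarith
  have hy4 : y ≤ y ^ 4 := by
    have : y * 1 ≤ y * y ^ 3 := mul_le_mul_of_nonneg_left (one_le_pow₀ (by linarith)) hy0.le
    calc y = y * 1 := (mul_one y).symm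
      _ ≤ y * y ^ 3 := this
      _ = y ^ 4 := by ring
  have h1 : vd δ P ≤ Real.exp (-(2 * (δ * Real.log y))) * ∑ p ∈ P, 1 / (p:ℝ) := by
    unfold vd
    rw [mul_sum]
    refine sum_le_sum fun p hp => ?_
    have hp' := hP p hp
    have hp0 : (0:ℝ) < p := by exact_mod_cast hp'.1.pos
    rw [rp_sq_eq δ hp'.1, div_eq_mul_one_div]
    refine mul_le_mul_of_nonneg_right ?_ (by positivity)
    rw [Real.rpow_def_of_pos hp0]
    refine Real.exp_le_exp.mpr ?_
    have h2 : Real.log y ≤ Real.log p := Real.log_le_log hy0 hp'.2.1.le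
    nlinarith
  have h2 : ∑ p ∈ P, 1 / (p:ℝ) ≤ Pr (y ^ 4) - Pr y := by
    have hd : Disjoint P ((Icc 1 ⌊y⌋₊).filter Nat.Prime) := by
      rw [disjoint_left]
      intro p hp hq
      rw [mem_filter, mem_Icc, Nat.le_floor_iff hy0.le] at hq
      linarith [(hP p hp).2.1, hq.1.2]
    have h3 : ∑ p ∈ P ∪ (Icc 1 ⌊y⌋₊).filter Nat.Prime, 1 / (p:ℝ) ≤ Pr (y ^ 4) := by
      unfold Pr
      refine sum_le_sum_of_subset_of_nonneg ?_ fun _ _ _ => by positivity
      intro p hp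
      rw [mem_union, mem_filter, mem_Icc, Nat.le_floor_iff hy0.le] at hp
      rw [mem_filter, mem_Icc, Nat.le_floor_iff (by positivity)]
      rcases hp with hp | hp
      · exact ⟨⟨(hP p hp).1.one_lt.le, (hP p hp).2.2⟩, (hP p hp).1⟩
      · exact ⟨⟨hp.1.1, hp.1.2.trans hy4⟩, hp.2⟩
    rw [sum_union hd] at h3
    have e : Pr y = ∑ p ∈ (Icc 1 ⌊y⌋₊).filter Nat.Prime, (1:ℝ) / p := rfl
    rw [e]
    linarith
  have h3 : Pr (y ^ 4) - Pr y ≤ 2 + 2 * C := by
    have a1 := hC (y ^ 4) (hy.trans hy4)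
    have a2 := hC y hy
    have hl : 0 < Real.log y := Real.log_pos (by linarith)
    have a3 : Real.log (Real.log (y ^ 4)) = Real.log 4 + Real.log (Real.log y) := by
      rw [Real.log_pow, Nat.cast_ofNat, Real.log_mul (by norm_num) hl.ne']
    have a4 : Real.log 4 ≤ 2 := by
      have h2 : Real.log 4 = 2 * Real.log 2 := by
        rw [show (4:ℝ) = 2 ^ 2 by norm_num, Real.log_pow]; norm_num
      have := Real.log_two_lt_d9
      linarith
    rw [a3] at a1
    rw [abs_le] at a1 a2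
    linarith [a1.2, a2.1]
  exact h1.trans (mul_le_mul_of_nonneg_left (h2.trans h3) (Real.exp_pos _).le)

lemma vd_far_n {C : ℝ} (hC0 : 0 ≤ C) (hC : ∀ x : ℝ, 3 ≤ x → |Pr x - Real.log (Real.log x)| ≤ C) {δ y : ℝ}
    (hδ : 0 ≤ δ) (hy : 3 ≤ y) (hx : 1 / 2 ≤ δ * Real.log y) (n : ℕ) :
    ∀ P : Finset ℕ, (∀ p ∈ P, p.Prime ∧ y < p ∧ (p:ℝ) ≤ y ^ (4 ^ n)) →
    vd δ P ≤ Real.exp (-(2 * (δ * Real.log y))) * (2 + 2 * C) * ∑ j ∈ range n, (1 / 2) ^ j := by
  classical
  induction n with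
  | zero =>
    intro P hP
    have : P = ∅ := by
      rw [eq_empty_iff_forall_notMem]
      intro p hp
      have := hP p hp
      rw [pow_zero, pow_one] at this
      linarith [this.2.1, this.2.2]
    subst this
    simp [vd]
  | succ n ih =>
    intro P hP
    have hsp : vd δ P = vd δ (P.filter fun p => (p:ℝ) ≤ y ^ (4 ^ n)) + vd δ (P.filter fun p => ¬ (p:ℝ) ≤ y ^ (4 ^ n)) := by
      unfold vd
      rw [sum_filter_add_sum_filter_not]
    rw [hsp, sum_range_succ, mul_add]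
    refine add_le_add (ih _ fun p hp => ?_) ?_
    · rw [mem_filter] at hp
      exact ⟨(hP p hp.1).1, (hP p hp.1).2.1, hp.2⟩
    · have hY : 3 ≤ y ^ (4 ^ n) := by
        calc (3:ℝ) ≤ y ^ 1 := by rw [pow_one]; exact hy
          _ ≤ y ^ (4 ^ n) := pow_le_pow_right₀ (by linarith) (Nat.one_le_pow _ _ (by norm_num))
      refine (vd_far hC hδ hY fun p hp => ?_).trans ?_
      · rw [mem_filter] at hp
        refine ⟨(hP p hp.1).1, not_le.mp hp.2, ?_⟩
        rw [← pow_mul]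
        have := (hP p hp.1).2.2
        rwa [pow_succ] at this
      · rw [mul_right_comm]
        refine mul_le_mul_of_nonneg_right ?_ (by positivity)
        rw [Real.log_pow]
        have h4 : (1:ℝ) + n ≤ 4 ^ n := by
          have := one_add_mul_le_pow (a := (3:ℝ)) (by norm_num) n
          have hn : (0:ℝ) ≤ n := Nat.cast_nonneg n
          norm_num at this
          linarith
        set x := δ * Real.log y with hxd
        have h5 : Real.exp (-(2 * (δ * (((4 ^ n : ℕ) : ℝ) * Real.log y)))) ≤ Real.exp (-(2 * x)) * Real.exp (-1) ^ n := by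
          rw [← Real.exp_nat_mul, ← Real.exp_add]
          refine Real.exp_le_exp.mpr ?_
          have e : δ * (((4 ^ n : ℕ) : ℝ) * Real.log y) = ((4:ℝ) ^ n) * x := by push_cast; rw [hxd]; ring
          rw [e]
          have : (1 + (n:ℝ)) * x ≤ (4:ℝ) ^ n * x := mul_le_mul_of_nonneg_right h4 (by linarith)
          have hn : (0:ℝ) ≤ n := Nat.cast_nonneg n
          nlinarith
        refine h5.trans (mul_le_mul_of_nonneg_left (pow_le_pow_left₀ (Real.exp_pos _).le ?_ n) (Real.exp_pos _).le)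
        rw [Real.exp_neg, ← one_div]
        refine one_div_le_one_div_of_le (by norm_num) ?_
        have := Real.add_one_le_exp (1:ℝ)
        linarith

/-- the tail over the primes -/
theorem vd_tail : ∃ B : ℝ, 0 < B ∧ ∀ δ y : ℝ, 0 ≤ δ → 3 ≤ y → 1 / 2 ≤ δ * Real.log y → ∀ P : Finset ℕ,
    (∀ p ∈ P, p.Prime ∧ y < p) → vd δ P ≤ B * Real.exp (-(2 * (δ * Real.log y))) := by
  obtain ⟨C, hC0, hC⟩ := Pr_bound
  refine ⟨2 * (2 + 2 * C), by positivity, fun δ y hδ hy hx P hP => ?_⟩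
  obtain ⟨n, hn⟩ : ∃ n : ℕ, ∀ p ∈ P, (p:ℝ) ≤ y ^ (4 ^ n) := by
    refine ⟨P.sup id, fun p hp => ?_⟩
    have h1 : p ≤ P.sup id := Finset.le_sup (f := id) hp
    have h2 : p < 3 ^ (4 ^ (P.sup id)) := by
      calc p ≤ P.sup id := h1
        _ < 4 ^ (P.sup id) := Nat.lt_pow_self (by norm_num)
        _ < 3 ^ (4 ^ (P.sup id)) := Nat.lt_pow_self (by norm_num)
    calc (p:ℝ) ≤ ((3 ^ (4 ^ (P.sup id)) : ℕ) : ℝ) := by exact_mod_cast h2.le
      _ = (3:ℝ) ^ (4 ^ (P.sup id)) := by push_cast; rfl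
      _ ≤ _ := pow_le_pow_left₀ (by norm_num) hy _
  have h := vd_far_n hC0 hC hδ hy hx n P fun p hp => ⟨(hP p hp).1, (hP p hp).2, hn p hp⟩
  refine h.trans ?_
  have h2 := sum_geometric_two_le n
  have h3 : 0 ≤ Real.exp (-(2 * (δ * Real.log y))) * (2 + 2 * C) := by positivity
  calc _ ≤ Real.exp (-(2 * (δ * Real.log y))) * (2 + 2 * C) * 2 := mul_le_mul_of_nonneg_left h2 h3
    _ = _ := by ring


lemma sq_le_u {p : ℕ} (hp : 1 ≤ p) : (1 / (p:ℝ)) ^ 2 ≤ (p:ℝ) ^ (-(3 / 2 : ℝ)) := by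
  have hp0 : (0:ℝ) < p := by exact_mod_cast hp
  rw [one_div, inv_pow, ← Real.rpow_natCast, ← Real.rpow_neg hp0.le]
  exact Real.rpow_le_rpow_of_exponent_le (by exact_mod_cast hp) (by norm_num)

theorem cmp {α ε : ℝ} (hα : 0 < α) (hε : 0 < ε) : ∃ (z0 : ℕ) (x0 : ℝ), 0 < x0 ∧ ∀ z : ℕ, z0 ≤ z → 1000 ≤ z →
    ∀ y δ : ℝ, (z:ℝ) ≤ y → 0 < δ → x0 ≤ δ * Real.log y → ∀ J : ℕ, bb y J < 144 →
    Real.exp (-ε) * DD α δ ≤ (∏ p ∈ S0 z, Ed α δ p) * Real.exp (α ^ 2 * Vd δ z y J) ∧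
    (∏ p ∈ S0 z, Ed α δ p) * Real.exp (α ^ 2 * Vd δ z y J) ≤ Real.exp ε * DD α δ := by
  classical
  obtain ⟨B, hB, htail⟩ := vd_tail
  have hCL := CL_nonneg hα
  obtain ⟨z0, hz0⟩ := uI_tail (ε := ε / 2 / (CL α + 1)) (by positivity)
  obtain ⟨x1, hx1⟩ : ∃ x1 : ℝ, ∀ x, x1 ≤ x → α ^ 2 * (B * Real.exp (-(2 * x))) ≤ ε / 2 := by
    have h1 : Tendsto (fun x : ℝ => α ^ 2 * (B * Real.exp (-(2 * x)))) atTop (nhds (α ^ 2 * (B * 0))) := by
      refine Tendsto.const_mul _ (Tendsto.const_mul _ ?_)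
      exact Real.tendsto_exp_neg_atTop_nhds_zero.comp (tendsto_id.const_mul_atTop (by norm_num : (0:ℝ) < 2))
    rw [mul_zero, mul_zero] at h1
    have := h1.eventually (gt_mem_nhds (by positivity : 0 < ε / 2))
    rw [eventually_atTop] at this
    obtain ⟨x1, hx1⟩ := this
    exact ⟨x1, fun x hx => (hx1 x hx).le⟩
  refine ⟨z0, max x1 (1 / 2), lt_of_lt_of_le (by norm_num) (le_max_right _ _), ?_⟩
  intro z hz hz1 y δ hzy hδ hx J hJ
  have hz3 : (1000:ℝ) ≤ z := by exact_mod_cast hz1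
  have hy1 : 1 ≤ y := by linarith
  set G := (∏ p ∈ S0 z, Ed α δ p) * Real.exp (α ^ 2 * Vd δ z y J) with hG
  have hkey : ∀ᶠ M : ℕ in atTop, Real.exp (-ε) * ∏ p ∈ S0 M, Ed α δ p ≤ G ∧ G ≤ Real.exp ε * ∏ p ∈ S0 M, Ed α δ p := by
    filter_upwards [eventually_gt_atTop ⌈y⌉₊] with M hM
    have hyM : y < M := by
      have := Nat.le_ceil y
      have h2 : ((⌈y⌉₊ : ℕ) : ℝ) < M := by exact_mod_cast hM
      linarith
    set bl := (range J).biUnion (IZ z y) with hbl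
    set rest : Finset ℕ := (S0 M).filter (fun p : ℕ => y < (p:ℝ)) with hrest
    have hrest' : ∀ p ∈ rest, p.Prime ∧ y < p := by
      intro p hp
      rw [hrest, mem_filter, mem_S0] at hp
      exact ⟨hp.1.2, hp.2⟩
    have hblm : ∀ p, p ∈ bl ↔ p.Prime ∧ z ≤ p ∧ (p:ℝ) ≤ y := fun p => mem_blocks (by omega) hy1 hJ
    have hdj1 : Disjoint (S0 z) (bl ∪ rest) := by
      rw [disjoint_left]
      intro p hp hq
      rw [mem_S0] at hp
      rw [mem_union, hblm] at hq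
      rcases hq with hq | hq
      · omega
      · have h3 := (hrest' p hq).2
        have h4 : (p:ℝ) ≤ z := by exact_mod_cast hp.1.le
        linarith
    have hdj2 : Disjoint bl rest := by
      rw [disjoint_left]
      intro p hp hq
      rw [hblm] at hp
      linarith [(hrest' p hq).2, hp.2.2]
    have hun : S0 M = S0 z ∪ (bl ∪ rest) := by
      ext p
      rw [mem_union, mem_union, hblm, hrest, mem_filter, mem_S0, mem_S0]
      constructor
      · rintro ⟨h1, h2⟩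
        rcases lt_or_ge p z with h3 | h3
        · exact Or.inl ⟨h3, h2⟩
        · rcases lt_or_ge y p with h4 | h4
          · exact Or.inr (Or.inr ⟨⟨h1, h2⟩, h4⟩)
          · exact Or.inr (Or.inl ⟨h2, h3, h4⟩)
      · rintro (⟨h1, h2⟩ | ⟨h1, h2, h3⟩ | ⟨h1, _⟩)
        · refine ⟨?_, h2⟩
          have h4 : (p:ℝ) < M := by
            have : (p:ℝ) ≤ z := by exact_mod_cast h1.le
            linarith
          exact_mod_cast h4
        · exact ⟨by exact_mod_cast lt_of_le_of_lt h3 hyM, h1⟩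
        · exact h1
    have hpr : ∀ p ∈ bl ∪ rest, p.Prime ∧ z ≤ p := by
      intro p hp
      rw [mem_union, hblm] at hp
      rcases hp with hp | hp
      · exact ⟨hp.1, hp.2.1⟩
      · refine ⟨(hrest' p hp).1, ?_⟩
        have : (z:ℝ) ≤ p := by linarith [(hrest' p hp).2]
        exact_mod_cast this
    have hEd : ∀ p ∈ bl ∪ rest, 0 < Ed α δ p := fun p hp => by
      have := Ed_ge_one (α := α) hδ.le (hpr p hp).1; linarith
    have e1 : ∏ p ∈ S0 M, Ed α δ p = (∏ p ∈ S0 z, Ed α δ p) * Real.exp (∑ p ∈ bl ∪ rest, Real.log (Ed α δ p)) := by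
      rw [hun, prod_union hdj1, Real.exp_sum]
      congr 1
      exact prod_congr rfl fun p hp => (Real.exp_log (hEd p hp)).symm
    have hVbl : Vd δ z y J = ∑ p ∈ bl, rp δ p ^ 2 := by
      unfold Vd vd
      rw [hbl, sum_biUnion]
      intro i _ j _ hij
      have hlt : ∀ i j, i < j → Disjoint (IZ z y i) (IZ z y j) := fun i j h =>
        disjoint_of_subset_left (IZ_sub z y i) (disjoint_of_subset_right (IZ_sub z y j) (II_disj hy1 h))
      rcases lt_or_gt_of_ne hij with h | h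
      · exact hlt i j h
      · exact (hlt j i h).symm
    have hvr : α ^ 2 * vd δ rest ≤ ε / 2 := by
      refine (mul_le_mul_of_nonneg_left (htail δ y hδ.le (by linarith) ((le_max_right _ _).trans hx) rest hrest')
        (sq_nonneg _)).trans ?_
      exact hx1 _ ((le_max_left _ _).trans hx)
    have hvr0 : 0 ≤ α ^ 2 * vd δ rest := mul_nonneg (sq_nonneg _) (vd_nonneg _ _)
    have e2 : |∑ p ∈ bl ∪ rest, Real.log (Ed α δ p) - α ^ 2 * Vd δ z y J| ≤ ε := by
      have e3 : ∑ p ∈ bl ∪ rest, Real.log (Ed α δ p) - α ^ 2 * Vd δ z y J =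
          ∑ p ∈ bl ∪ rest, (Real.log (Ed α δ p) - α ^ 2 * rp δ p ^ 2) + α ^ 2 * vd δ rest := by
        rw [sum_sub_distrib, hVbl]
        unfold vd
        rw [← mul_sum, sum_union hdj2 (f := fun p => rp δ p ^ 2)]
        ring
      rw [e3]
      have e4 : |∑ p ∈ bl ∪ rest, (Real.log (Ed α δ p) - α ^ 2 * rp δ p ^ 2)| ≤ ε / 2 := by
        refine (abs_sum_le_sum_abs _ _).trans ?_
        have h5 : ∀ p ∈ bl ∪ rest, |Real.log (Ed α δ p) - α ^ 2 * rp δ p ^ 2| ≤ CL α * (p:ℝ) ^ (-(3 / 2 : ℝ)) :=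
          fun p hp => (Ed_log hα hδ.le (hpr p hp).1).trans
            (mul_le_mul_of_nonneg_left (sq_le_u (hpr p hp).1.one_lt.le) hCL)
        refine (sum_le_sum h5).trans ?_
        rw [← mul_sum]
        have h6 := hz0 z hz (bl ∪ rest) fun p hp => (hpr p hp).2
        calc _ ≤ CL α * (ε / 2 / (CL α + 1)) := mul_le_mul_of_nonneg_left h6 hCL
          _ ≤ (CL α + 1) * (ε / 2 / (CL α + 1)) := mul_le_mul_of_nonneg_right (by linarith) (by positivity)
          _ = ε / 2 := by field_simp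
      rw [abs_le] at e4 ⊢
      constructor <;> linarith
    obtain ⟨h7, h8⟩ := abs_le.mp e2
    have hPz : 0 ≤ ∏ p ∈ S0 z, Ed α δ p := prod_nonneg fun p hp => by
      have := Ed_ge_one (α := α) hδ.le (mem_S0.mp hp).2; linarith
    rw [e1, hG]
    constructor
    · rw [mul_left_comm, ← Real.exp_add]
      exact mul_le_mul_of_nonneg_left (Real.exp_le_exp.mpr (by linarith)) hPz
    · rw [mul_left_comm, ← Real.exp_add]
      exact mul_le_mul_of_nonneg_left (Real.exp_le_exp.mpr (by linarith)) hPz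
  have ht := DD_tendsto hα hδ
  exact ⟨le_of_tendsto (ht.const_mul _) (hkey.mono fun M h => h.1), ge_of_tendsto (ht.const_mul _) (hkey.mono fun M h => h.2)⟩

/-- lower bound for the real zeta function -/
lemma Zr_low : ∃ c : ℝ, 0 < c ∧ ∀ σ : ℝ, 0 < σ → σ ≤ 1 → c / σ ≤ Zr σ := by
  have h := (Zr_tendsto (s := 1) one_pos).eventually (lt_mem_nhds (show (1 / 2 : ℝ) < 1⁻¹ by norm_num))
  rw [eventually_atTop] at h
  obtain ⟨L0, hL0⟩ := h
  set L1 := max L0 1 with hL1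
  have hL10 : 0 < L1 := lt_of_lt_of_le one_pos (le_max_right _ _)
  refine ⟨min (1 / 2) (1 / L1), lt_min (by norm_num) (by positivity), fun σ hσ hσ1 => ?_⟩
  rcases le_or_gt (σ) (1 / L1) with h | h
  · have h1 : L1 ≤ 1 / σ := by rw [le_div_iff₀ hσ]; rw [le_div_iff₀ hL10] at h; linarith
    have h2 := hL0 (1 / σ) ((le_max_left _ _).trans h1)
    have e : 1 / (1 / σ) = σ := by field_simp
    rw [e, lt_div_iff₀ (by positivity)] at h2
    refine le_trans ?_ h2.le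
    rw [div_eq_mul_one_div]
    exact mul_le_mul_of_nonneg_right (min_le_left _ _) (by positivity)
  · have h1 : (1:ℝ) ≤ Zr σ := by
      have := (Zr_summable hσ).le_tsum 1 (fun n _ => by positivity)
      unfold Zr
      simpa using this
    refine le_trans ?_ h1
    rw [div_le_one hσ]
    exact (min_le_right _ _).trans h.le

/-- lower bound for the Dirichlet series -/
theorem DD_low {α : ℝ} (hα : 0 < α) : ∃ c : ℝ, 0 < c ∧ ∀ δ : ℝ, 0 < δ → δ ≤ 1 / 2 → c * δ ^ (-(α ^ 2)) ≤ DD α δ := by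
  obtain ⟨c, hc, hZ⟩ := Zr_low
  set S : ℝ := ∑' p : Nat.Primes, C1 α * (1 / ((p:ℕ):ℝ)) ^ 2 with hS
  have hs := Pool.Agent.H306R2.primes_summable.mul_left (C1 α)
  refine ⟨Real.exp (-S) * (c / 2) ^ (α ^ 2), by positivity, fun δ hδ hδ1 => ?_⟩
  have h1 := cf_tsum (e := fun _ : Fin 1 => α) (fun _ => hα.le) (by simpa using hα) (s := fun _ => 2 * δ)
    (σ := 2 * δ) (by positivity) (fun _ => le_rfl)
  simp only [cf_fin1, univ_unique, sum_const, card_singleton, one_smul, prod_const, pow_one] at h1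
  have h2 : DD α δ = Real.exp (∑' p : Nat.Primes, up (fun _ : Fin 1 => α) (fun _ => 2 * δ) p) * Zr (2 * δ) ^ (α * α) := h1
  rw [h2]
  have h3 : -S ≤ ∑' p : Nat.Primes, up (fun _ : Fin 1 => α) (fun _ => 2 * δ) p := by
    have h4 : ‖∑' p : Nat.Primes, up (fun _ : Fin 1 => α) (fun _ => 2 * δ) p‖ ≤ S := by
      refine tsum_of_norm_bounded hs.hasSum fun p => ?_
      have h5 := up_bound (e := fun _ : Fin 1 => α) (fun _ => hα.le) (by simpa using hα) (s := fun _ => 2 * δ)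
        (fun _ => by positivity) p.2
      simpa using h5
    have := (abs_le.mp (by rwa [Real.norm_eq_abs] at h4)).1
    exact this
  have h5 := hZ (2 * δ) (by positivity) (by linarith)
  have h6 : (c / 2) ^ (α ^ 2) * δ ^ (-(α ^ 2)) = (c / (2 * δ)) ^ (α ^ 2) := by
    rw [Real.rpow_neg hδ.le, ← Real.inv_rpow hδ.le, ← Real.mul_rpow (by positivity) (by positivity)]
    congr 1
    field_simp
  rw [mul_assoc, h6, ← sq]
  exact mul_le_mul (Real.exp_le_exp.mpr h3) (Real.rpow_le_rpow (by positivity) h5 (sq_nonneg _)) (by positivity)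
    (Real.exp_pos _).le

end Pool.Agent.Y755
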