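import Pool.Agent.Y755.Prd
import Pool.Agent.W184.NZ.Up2

set_option autoImplicit false

/-! The twisted second moment on the line, for general blocks. -/

namespace Pool.Agent.Y755

open Finset Filter MeasureTheory
open Pool.Agent.W184.NZ
open Pool.Agent.H306R2.SM (om cl Yf)
open Pool.Agent.H262R4.TM (Rng Ck)

section
variable {c y : ℝ} {J Rs : ℕ} {I : ℕ → Finset ℕ}

lemma GP_Bdz (hy : 1 ≤ y) (h : Rg c J I (bb y)) (a : ℝ) :
    Bd (Real.exp (Real.log y * (160 * ((Rs:ℝ) + 1)))) (GP J a (RR Rs) I) := by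
  have h1 : Bd (∏ i ∈ range J, (bb y i) ^ (80 * (Rs + i))) (GP J a (RR Rs) I) := by
    unfold GP
    refine Bd_prod J (fun i _ => (pow_pos (bb_pos y i) _).le) fun i hi => ?_
    have h2 := gE_Bd (b := bb y i) (by have := h.b10 i hi; linarith)
      (fun p hp => ⟨(h.pr i p hp).1, (h.pr i p hp).2.2⟩) (K := 20 * RR Rs i) (R := RR Rs i)
      (M := 20 * RR Rs i) le_rfl (by omega) a
    rwa [show 2 * (20 * RR Rs i) = 80 * (Rs + i) by unfold RR; ring] at h2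
  refine h1.mono ((len hy Rs J 80).trans (le_of_eq ?_))
  norm_num

lemma GP_l1z (hy : 1 ≤ y) (h : Rg c J I (bb y)) (hRs : 1 ≤ Rs) {a : ℝ} (ha : |a| ≤ 1) :
    l1 (GP J a (RR Rs) I) ≤ Real.exp (Real.log y * (240 * ((Rs:ℝ) + 1))) := by
  have h1 : l1 (GP J a (RR Rs) I) ≤ ∏ i ∈ range J, (bb y i) ^ (120 * (Rs + i)) := by
    unfold GP
    refine l1_prod J (fun i _ => (pow_pos (bb_pos y i) _).le) fun i hi => ?_
    have h2 := gE_l1 (b := bb y i) (by have := h.b10 i hi; linarith)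
      (fun p hp => ⟨(h.pr i p hp).1, (h.pr i p hp).2.2⟩) (K := 20 * RR Rs i) (R := RR Rs i)
      (M := 20 * RR Rs i) le_rfl (by omega) (by unfold RR; omega) ha
    rwa [show 3 * (20 * RR Rs i) = 120 * (Rs + i) by unfold RR; ring] at h2
  refine h1.trans ((len hy Rs J 120).trans (le_of_eq ?_))
  norm_num

lemma GP_logqz (hc : 0 ≤ c) (hy : 1 ≤ y) (h : Rg c J I (bb y)) (hRs : Rok c Rs) {a : ℝ} (ha : |a| ≤ 1) :
    |lam wl (GP J a (RR Rs) I)| ≤ (320 * ((Rs:ℝ) + 1) * Cl2 c * Real.log y) *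
      lam w1 (GP J a (RR Rs) I) := by
  refine (GP_log hc h hRs (RR_ge Rs) ha).trans ?_
  refine mul_le_mul_of_nonneg_right ?_ (GP_nonneg goodW1 h hRs (RR_ge Rs) ha)
  have h1 : ∀ i ∈ range J, 80 * (RR Rs i : ℝ) * Real.log (bb y i) * Cl2 c =
      160 * Cl2 c * Real.log y * (((Rs:ℝ) + i) * (1 / 4) ^ i) := by
    intro i _
    rw [log_bb]
    unfold RR
    push_cast
    ring
  rw [sum_congr rfl h1, ← mul_sum]
  have h2 := geo_sum Rs J
  have h3 := Real.log_nonneg hy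
  have h4 := Cl2_pos c
  calc _ ≤ 160 * Cl2 c * Real.log y * (2 * ((Rs:ℝ) + 1)) := mul_le_mul_of_nonneg_left h2 (by positivity)
    _ = _ := by ring

/-- the smooth second average -/
lemma G_avgz (hc : 0 ≤ c) (hy : 1 ≤ y) (h : Rg c J I (bb y)) (hRs : Rok c Rs) {a : ℝ} (ha : |a| ≤ 1)
    {k : ℕ} {Y e : ℝ} (hY : 0 < Y) (hk : 1 ≤ k) (he : 0 ≤ e)
    (hm : ∀ x : ℕ × ℕ, x.1 ≠ 0 → x.2 ≠ 0 → (x.1 : ℝ) ≤ Real.exp (Real.log y * (160 * ((Rs:ℝ) + 1))) →
      (x.2 : ℝ) ≤ Real.exp (Real.log y * (160 * ((Rs:ℝ) + 1))) → |Zm k Y x - Mn k Y x| ≤ e) :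
    ∫ t in Set.Ioi (0:ℝ), wz k Y t * gp J a (RR Rs) I t ≤
      (|Real.log (Yf k Y) + Ck k| + 320 * ((Rs:ℝ) + 1) * Cl2 c * Real.log y) *
        Real.exp ((2 * a + a ^ 2) * (∑ i ∈ range J, vI (I i)) + 12 * c + 2 * Bc c) +
      e * Real.exp (Real.log y * (240 * ((Rs:ℝ) + 1))) := by
  have hB := GP_Bdz (Rs := Rs) hy h a
  have h1 := avg1 hY hk hm hB
  have hP : ∀ i, ∀ p ∈ I i, p.Prime := fun i p hp => (h.pr i p hp).1
  have e1 : ∀ t, (ev t (GP J a (RR Rs) I)).re = gp J a (RR Rs) I t := by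
    intro t; rw [ev_GP t J a _ hP, Complex.ofReal_re]
  simp_rw [e1] at h1
  have h2 := GP_up goodW1 h hRs (RR_ge Rs) ha
  have h3 := GP_l1z hy h hRs.1 ha
  have h4 := GP_logqz hc hy h hRs ha
  have h0 := GP_nonneg goodW1 h hRs (RR_ge Rs) ha
  have hB0 := Bc_pos c
  obtain ⟨ha1, ha2⟩ := abs_le.mp ha
  have h5 : Real.exp ((2 * 1 * a + a ^ 2) * (∑ i ∈ range J, vI (I i)) + 12 * a ^ 2 * c +
      2 * Bc c * Real.exp (-(Rs:ℝ))) ≤
      Real.exp ((2 * a + a ^ 2) * (∑ i ∈ range J, vI (I i)) + 12 * c + 2 * Bc c) := by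
    refine Real.exp_le_exp.mpr ?_
    have x1 : Real.exp (-(Rs:ℝ)) ≤ 1 := Real.exp_le_one_iff.mpr (by simp)
    have a2 : a ^ 2 ≤ 1 := by nlinarith
    have e3 : 12 * a ^ 2 * c ≤ 12 * 1 * c := by gcongr
    have e4 : 2 * Bc c * Real.exp (-(Rs:ℝ)) ≤ 2 * Bc c * 1 := by gcongr
    rw [show (2 * 1 * a + a ^ 2) = (2 * a + a ^ 2) by ring]
    linarith
  have h6 := h2.trans h5
  have h7 : e * l1 (GP J a (RR Rs) I) ≤ e * Real.exp (Real.log y * (240 * ((Rs:ℝ) + 1))) :=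
    mul_le_mul_of_nonneg_left h3 he
  have h8 : (Real.log (Yf k Y) + Ck k) * lam w1 (GP J a (RR Rs) I) ≤
      |Real.log (Yf k Y) + Ck k| * lam w1 (GP J a (RR Rs) I) :=
    mul_le_mul_of_nonneg_right (le_abs_self _) h0
  have h9 : - lam wl (GP J a (RR Rs) I) ≤ (320 * ((Rs:ℝ) + 1) * Cl2 c * Real.log y) *
      lam w1 (GP J a (RR Rs) I) := (neg_le_abs _).trans h4
  have hl := Real.log_nonneg hy
  have hC := Cl2_pos c
  have h10 : (|Real.log (Yf k Y) + Ck k| + 320 * ((Rs:ℝ) + 1) * Cl2 c * Real.log y) *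
      lam w1 (GP J a (RR Rs) I) ≤
      (|Real.log (Yf k Y) + Ck k| + 320 * ((Rs:ℝ) + 1) * Cl2 c * Real.log y) *
        Real.exp ((2 * a + a ^ 2) * (∑ i ∈ range J, vI (I i)) + 12 * c + 2 * Bc c) :=
    mul_le_mul_of_nonneg_left h6 (by positivity)
  rw [add_mul] at h10
  linarith

end

/-- the twisted second moment on the line -/
theorem onl {c ηm η d : ℝ} {Rs : ℕ} (hc : 0 ≤ c) (hηm : 0 < ηm)
    (hmono : ∀ᶠ Y : ℝ in atTop, ∀ k : ℕ, Rng Y k → ∀ x : ℕ × ℕ,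
      x.1 ≠ 0 → x.2 ≠ 0 → (x.1 : ℝ) ≤ Y ^ ((1:ℝ) / 4) → (x.2 : ℝ) ≤ Y ^ ((1:ℝ) / 4) →
      |Zm k Y x - Mn k Y x| ≤ 2 * Y ^ (-ηm)) (hη : 0 < η) (hη1 : η * ((Rs:ℝ) + 1) ≤ min ηm (1 / 4) / 4000)
    (hRs : Rok c Rs) (hd : 0 ≤ d) :
    ∃ C : ℝ, 0 < C ∧ ∀ᶠ T : ℝ in atTop, ∀ (J : ℕ) (I : ℕ → Finset ℕ),
      Rg c J I (bb (Real.exp (η * Real.log T))) → |∑ i ∈ range J, vI (I i) - Real.log (Real.log T)| ≤ d →
      ∀ a : ℝ, |a| ≤ 1 →
      ∫ t in (T ^ ((3:ℝ)/4))..T, ‖riemannZeta (cl t)‖ ^ 2 * gp J a (RR Rs) I t ≤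
        C * (T * Real.log T ^ ((1 + a) ^ 2)) := by
  set q : ℝ := min ηm (1 / 4) with hq
  have hq0 : 0 < q := lt_min hηm (by norm_num)
  have hq1 : q ≤ 1 / 4 := min_le_right _ _
  have hq2 : q ≤ ηm := min_le_left _ _
  have hRs0 : (0:ℝ) < (Rs:ℝ) + 1 := by positivity
  have hη1' : η ≤ 1 := by
    have : η * 1 ≤ η * ((Rs:ℝ) + 1) := mul_le_mul_of_nonneg_left (by
      have : (0:ℝ) ≤ Rs := Nat.cast_nonneg _
      linarith) hη.le
    linarith
  have hB0 := Bc_pos c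
  have hCl := Cl2_pos c
  set C6 : ℝ := (8 + 320 * ((Rs:ℝ) + 1) * Cl2 c) * Real.exp (3 * d + 12 * c + 2 * Bc c) with hC6
  have hC60 : 0 < C6 := by positivity
  refine ⟨16 * (C6 + 2), by positivity, ?_⟩
  have ev1 : ∀ᶠ T : ℝ in atTop, ∀ x : ℝ, T ^ ((3:ℝ)/4) / 2 < x → ∀ k : ℕ, Rng x k → ∀ z : ℕ × ℕ,
      z.1 ≠ 0 → z.2 ≠ 0 → (z.1 : ℝ) ≤ x ^ ((1:ℝ) / 4) → (z.2 : ℝ) ≤ x ^ ((1:ℝ) / 4) →
      |Zm k x z - Mn k x z| ≤ 2 * x ^ (-ηm) := by
    rw [eventually_atTop] at hmono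
    obtain ⟨Y0, hY0⟩ := hmono
    have : Tendsto (fun T : ℝ => T ^ ((3:ℝ)/4) / 2) atTop atTop :=
      (tendsto_rpow_atTop (by norm_num)).atTop_div_const (by norm_num)
    filter_upwards [this.eventually_ge_atTop Y0] with T hT x hx
    exact hY0 x (hT.trans hx.le)
  filter_upwards [ev1, TC_ev ηm q Rs, Real.tendsto_log_atTop.eventually_ge_atTop 10,
    eventually_ge_atTop 1] with T h1 h4 h6 hT1 J I hJ hV a ha
  obtain ⟨k, hk⟩ := h4
  have hT0 : 0 < T := by linarith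
  set L := Real.log T with hL
  have hL0 : 0 < L := by linarith
  set y : ℝ := Real.exp (η * L) with hy
  have hly : Real.log y = η * L := Real.log_exp _
  have hy1 : 1 ≤ y := Real.one_le_exp (by positivity)
  set V := ∑ i ∈ range J, vI (I i) with hVd
  have hLL : 0 ≤ Real.log L := Real.log_nonneg (by linarith)
  obtain ⟨ha1, ha2⟩ := abs_le.mp ha
  set P := L ^ ((1 + a) ^ 2) with hP
  have hLp1 : 1 ≤ P := Real.one_le_rpow (by linarith) (by positivity)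
  set A : ℝ := T ^ ((3:ℝ)/4) with hA
  have hA0 : 0 < A := by positivity
  have hAT : A ≤ T := by
    have : T ^ ((3:ℝ)/4) ≤ T ^ (1:ℝ) := Real.rpow_le_rpow_of_exponent_le hT1 (by norm_num)
    rwa [Real.rpow_one] at this
  have hPr : ∀ i, ∀ p ∈ I i, p.Prime := fun i p hp => (hJ.pr i p hp).1
  have hgB := GP_Bdz (Rs := Rs) hy1 hJ a
  have hgc : Continuous fun t => gp J a (RR Rs) I t := by
    have := ev_re_cont hgB
    refine this.congr fun t => ?_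
    rw [ev_GP t J _ _ hPr, Complex.ofReal_re]
  have hgb : ∀ t, |gp J a (RR Rs) I t| ≤ l1 (GP J a (RR Rs) I) := by
    intro t
    have := ev_re_le hgB t
    rwa [ev_GP t J _ _ hPr, Complex.ofReal_re] at this
  have hexpV : Real.exp ((2 * a + a ^ 2) * V + 12 * c + 2 * Bc c) ≤
      P / L * Real.exp (3 * d + 12 * c + 2 * Bc c) := by
    have e1 : (2 * a + a ^ 2) * V ≤ (2 * a + a ^ 2) * Real.log L + 3 * d := by
      have h7 : (2 * a + a ^ 2) * (V - Real.log L) ≤ 3 * d := by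
        calc (2 * a + a ^ 2) * (V - Real.log L) ≤ |(2 * a + a ^ 2) * (V - Real.log L)| := le_abs_self _
          _ = |2 * a + a ^ 2| * |V - Real.log L| := abs_mul _ _
          _ ≤ 3 * d := by
            refine mul_le_mul ?_ hV (abs_nonneg _) (by norm_num)
            rw [abs_le]
            constructor <;> nlinarith
      linarith
    have e2 : P / L * Real.exp (3 * d + 12 * c + 2 * Bc c) =
        Real.exp ((2 * a + a ^ 2) * Real.log L + 3 * d + 12 * c + 2 * Bc c) := by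
      have e3 : P / L = Real.exp ((2 * a + a ^ 2) * Real.log L) := by
        rw [hP, Real.rpow_def_of_pos hL0]
        nth_rewrite 2 [← Real.exp_log hL0]
        rw [← Real.exp_sub]
        congr 1; ring
      rw [e3, ← Real.exp_add]
      congr 1; ring
    rw [e2]
    exact Real.exp_le_exp.mpr (by linarith)
  have hS : ∀ x ∈ Set.Ioc (A / 2) (8 * T), ∫ t in Set.Ioi (0:ℝ), wz k x t * gp J a (RR Rs) I t ≤
      (C6 + 2) * P := by
    intro x hx
    have hx0 : 0 < x := by have := hx.1; linarith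
    have hlx := hk.lg x hx
    have hm := h1 x hx.1 k (hk.rng x hx)
    have hxl : Real.exp (Real.log y * (160 * ((Rs:ℝ) + 1))) ≤ x ^ ((1:ℝ)/4) := by
      rw [Real.rpow_def_of_pos hx0]
      refine Real.exp_le_exp.mpr ?_
      rw [hly]
      have : η * L * (160 * ((Rs:ℝ) + 1)) = 160 * (η * ((Rs:ℝ) + 1)) * L := by ring
      rw [this]
      have h9 : 160 * (η * ((Rs:ℝ) + 1)) * L ≤ 1 / 8 * L := mul_le_mul_of_nonneg_right (by linarith) hL0.le
      linarith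
    have hG := G_avgz hc hy1 hJ hRs ha hx0 (by have := hk.k8; omega) (e := 2 * x ^ (-ηm)) (by positivity)
      (fun z z1 z2 z3 z4 => hm z z1 z2 (z3.trans hxl) (z4.trans hxl))
    refine hG.trans ?_
    have g1 : (|Real.log (Yf k x) + Ck k| + 320 * ((Rs:ℝ) + 1) * Cl2 c * Real.log y) *
        Real.exp ((2 * a + a ^ 2) * V + 12 * c + 2 * Bc c) ≤ C6 * P := by
      have g2 : |Real.log (Yf k x) + Ck k| + 320 * ((Rs:ℝ) + 1) * Cl2 c * Real.log y ≤
          (8 + 320 * ((Rs:ℝ) + 1) * Cl2 c) * L := by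
        rw [hly]
        have := hk.yf x hx
        have g3 : 320 * ((Rs:ℝ) + 1) * Cl2 c * (η * L) ≤ 320 * ((Rs:ℝ) + 1) * Cl2 c * (1 * L) := by gcongr
        linarith
      calc _ ≤ (8 + 320 * ((Rs:ℝ) + 1) * Cl2 c) * L * (P / L * Real.exp (3 * d + 12 * c + 2 * Bc c)) :=
            mul_le_mul g2 hexpV (Real.exp_pos _).le (by positivity)
        _ = C6 * P := by rw [hC6]; field_simp
    have g4 : 2 * x ^ (-ηm) * Real.exp (Real.log y * (240 * ((Rs:ℝ) + 1))) ≤ 2 * P := by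
      have g5 : x ^ (-ηm) * Real.exp (Real.log y * (240 * ((Rs:ℝ) + 1))) ≤ 1 := by
        rw [Real.rpow_def_of_pos hx0, ← Real.exp_add]
        refine Real.exp_le_one_iff.mpr ?_
        rw [hly]
        have : η * L * (240 * ((Rs:ℝ) + 1)) = 240 * (η * ((Rs:ℝ) + 1)) * L := by ring
        rw [this]
        have g6 : ηm * (1 / 2 * L) ≤ ηm * Real.log x := mul_le_mul_of_nonneg_left hlx hηm.le
        have g7 : 240 * (η * ((Rs:ℝ) + 1)) * L ≤ ηm * (1 / 2) * L := mul_le_mul_of_nonneg_right (by linarith) hL0.le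
        linarith
      calc 2 * x ^ (-ηm) * Real.exp (Real.log y * (240 * ((Rs:ℝ) + 1))) =
          2 * (x ^ (-ηm) * Real.exp (Real.log y * (240 * ((Rs:ℝ) + 1)))) := by ring
        _ ≤ 2 * 1 := by linarith
        _ ≤ 2 * P := by linarith
    calc _ ≤ C6 * P + 2 * P := add_le_add g1 g4
      _ = _ := by ring
  have hg0 : ∀ t, 0 ≤ gp J a (RR Rs) I t := fun t => gp_nonneg _ _ _ _ _
  have hw := win hgc hg0 hgb hk.k8 hA0 hAT (by positivity) hS
  refine hw.trans (le_of_eq ?_)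
  ring

end Pool.Agent.Y755
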