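import Pool.Agent.TH806.X4
import Pool.Agent.Y755.OnL

set_option autoImplicit false

/-! The bound for the average over the torus, for general blocks. -/

namespace Pool.Agent.Y755

open Finset MeasureTheory Complex
open Pool.Agent.W184.NZ
open Pool.Agent.TH806 (Ix PP ap ZT wp gt TT Par cf cf_norm Af Af_nonneg uE uE_main uE_far uE_zero u0 small_prime big_prime
  tor_bound ap_lt ub_lt gap_sum err_sum)

/-- the data of the ranges of primes -/
structure BG (c : ℝ) (z : ℕ) (y : ℝ) (J : ℕ) (I : ℕ → Finset ℕ) : Prop where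
  c0 : 0 ≤ c
  z1 : 144 ≤ z
  y1 : 144 ≤ y
  rg : Rg c J I (bb y)
  cover : ∀ p : ℕ, p.Prime → z ≤ p → (p:ℝ) ≤ y → ∃ i < J, p ∈ I i

variable {N J Rs : ℕ} {L c y δ τ : ℝ} {z : ℂ}

/-- one block -/
lemma block_bound4 {α : ℝ} (hα0 : 0 ≤ α) (hα1 : α ≤ 1) {I : Finset ℕ} (hv : vI I ≤ c) (R : ℕ) :
    ∑ j : Fin 5, Af R j * Real.exp (∑ p ∈ I, uE L τ (cf (-1 + α) j) p) ≤
      Real.exp (∑ p ∈ I, uE L τ (cf (-1 + α) 0) p) *
        Real.exp ((3 + 8 * Real.exp (25 * c)) * Real.exp (-(R:ℝ))) := by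
  have ha : |(-1 + α)| ≤ 9 / 8 := by rw [abs_le]; constructor <;> linarith
  have hv0 := vI_nonneg I
  set S0 := ∑ p ∈ I, uE L τ (cf (-1 + α) 0) p with hS0
  have h1 : ∀ j : Fin 5, ∑ p ∈ I, uE L τ (cf (-1 + α) j) p ≤ S0 + 25 * c := by
    intro j
    have h2 : ∑ p ∈ I, uE L τ (cf (-1 + α) j) p ≤ ∑ p ∈ I, (uE L τ (cf (-1 + α) 0) p + 25 * (1 / p)) := by
      refine sum_le_sum fun p _ => ?_
      have h3 := uE_far (L := L) (τ := τ) ha j p
      rw [uE_main]
      have h4 : -(1:ℝ) ≤ α ^ 2 + 2 * α * Real.cos (τ * Real.log p) := by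
        have c1 := Real.neg_one_le_cos (τ * Real.log p)
        nlinarith [sq_nonneg (α - 1), mul_nonneg hα0 (by linarith : 0 ≤ 1 + Real.cos (τ * Real.log p))]
      have h5 : (0:ℝ) ≤ 1 / p := by positivity
      nlinarith
    refine h2.trans ?_
    rw [sum_add_distrib, ← mul_sum]
    have : ∑ p ∈ I, 1 / (p:ℝ) = vI I := rfl
    rw [this]
    linarith
  rw [Fin.sum_univ_five]
  have e1 : Af R 0 = (1 + Real.exp (-(R:ℝ))) ^ 2 := rfl
  have e2 : ∀ j : Fin 5, j ≠ 0 → Af R j = 2 * Real.exp (-(3 / 2 * (R:ℝ))) := by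
    intro j hj
    fin_cases j
    · exact absurd rfl hj
    all_goals rfl
  have hR0 : (0:ℝ) ≤ R := Nat.cast_nonneg _
  have hfar : ∀ j : Fin 5, j ≠ 0 → Af R j * Real.exp (∑ p ∈ I, uE L τ (cf (-1 + α) j) p) ≤
      Real.exp S0 * (2 * Real.exp (25 * c) * Real.exp (-(R:ℝ))) := by
    intro j hj
    rw [e2 j hj]
    have h6 : Real.exp (∑ p ∈ I, uE L τ (cf (-1 + α) j) p) ≤ Real.exp (S0 + 25 * c) := Real.exp_le_exp.mpr (h1 j)
    have h7 : Real.exp (-(3 / 2 * (R:ℝ))) ≤ Real.exp (-(R:ℝ)) := Real.exp_le_exp.mpr (by linarith)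
    calc _ ≤ 2 * Real.exp (-(R:ℝ)) * Real.exp (S0 + 25 * c) := by gcongr
      _ = _ := by rw [Real.exp_add]; ring
  have f1 := hfar 1 (by decide)
  have f2 := hfar 2 (by decide)
  have f3 := hfar 3 (by decide)
  have f4 := hfar 4 (by decide)
  rw [e1]
  set X := Real.exp (-(R:ℝ)) with hX
  have hX0 : 0 < X := Real.exp_pos _
  have hX1 : X ≤ 1 := Real.exp_le_one_iff.mpr (by linarith)
  have h8 : (1 + X) ^ 2 ≤ 1 + 3 * X := by nlinarith
  have h9 : (1 + X) ^ 2 * Real.exp S0 ≤ (1 + 3 * X) * Real.exp S0 := mul_le_mul_of_nonneg_right h8 (Real.exp_pos _).le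
  have h10 : 1 + (3 + 8 * Real.exp (25 * c)) * X ≤ Real.exp ((3 + 8 * Real.exp (25 * c)) * X) := by
    linarith [Real.add_one_le_exp ((3 + 8 * Real.exp (25 * c)) * X)]
  have h11 := mul_le_mul_of_nonneg_left h10 (Real.exp_pos S0).le
  nlinarith

/-- the bound for the average over the torus -/
theorem tor_final4 (c A : ℝ) (z0 : ℕ) : ∃ C : ℝ, 0 < C ∧ ∀ (y L δ τ α : ℝ) (z : ℂ) (N J Rs : ℕ) (I : ℕ → Finset ℕ),
    BG c z0 y J I → 1 ≤ Rs → Par L N z δ τ → 0 ≤ α → α ≤ 1 → Real.log y ≤ L → L ≤ A * Real.log y → y < N →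
    ∫ θ, ‖PP (ap N z) θ‖ * ‖ZT (wp δ τ) θ‖ ^ 2 * gt J (-1 + α) (RR Rs) I θ ∂(TT N) ≤
      C * Real.exp ((α ^ 2 + 2 * α) * ∑ i ∈ range J, vI (I i)) * (1 + L * |τ|) := by
  obtain ⟨C2, hC20, hC2⟩ := gap_sum
  obtain ⟨C3, hC30, hC3⟩ := err_sum
  refine ⟨Real.exp ((8 * z0 + C3) + (3 * (Real.log (3 * A) + C2) + C3) + C3 +
    (3 + 8 * Real.exp (25 * c)) * 2), Real.exp_pos _, ?_⟩
  intro y L δ τ α z N J Rs I hB hRs hP hα0 hα1 hyL hLy hyN
  have ha : |(-1 + α)| ≤ 9 / 8 := by rw [abs_le]; constructor <;> linarith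
  have hy := hB.y1
  have hL := hP.L1
  have hR1 : ∀ i, 1 ≤ RR Rs i := fun i => by unfold RR; omega
  have hIsub : ∀ i < J, I i ⊆ Nat.primesBelow N := by
    intro i hi p hp
    obtain ⟨a1, a2, a3⟩ := hB.rg.pr i p hp
    rw [Nat.mem_primesBelow]
    refine ⟨?_, a1⟩
    have h1 : (p:ℝ) ≤ y := a3.trans (bb_le (by linarith) i)
    have h2 : (p:ℝ) < N := lt_of_le_of_lt h1 hyN
    exact_mod_cast h2
  have hmain := tor_bound (N := N) (z := z) (w := wp δ τ) (fun p => by linarith [ap_lt hP p])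
    (fun p => by linarith [ub_lt hP p]) (J := J) ha hR1 hIsub hB.rg.dj
    (u0 := u0 L τ) (u1 := fun p j => uE L τ (cf (-1 + α) j) p)
    (fun p _ => by
      unfold u0
      split_ifs with h144
      · exact small_prime hP p
      · have := big_prime hP p (by omega) (c := 0) (by simp)
        rwa [zero_mul] at this)
    (fun p i hi hpi j => by
      have h144 : 144 ≤ p.1 := (hB.rg.pr i p.1 hpi).2.1
      exact big_prime hP p h144 (cf_norm ha j))
  refine hmain.trans ?_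
  -- first factor
  have F1 : ∑ p ∈ (Nat.primesBelow N).filter (fun p => ∀ i < J, p ∉ I i), u0 L τ p ≤
      (8 * z0 + C3) + (3 * (Real.log (3 * A) + C2) + C3) := by
    rw [← sum_filter_add_sum_filter_not _ (fun p : ℕ => p < z0)]
    refine add_le_add ?_ ?_
    · set S := ((Nat.primesBelow N).filter (fun p => ∀ i < J, p ∉ I i)).filter (fun p => p < z0) with hS
      have hSm : ∀ p ∈ S, p ∈ Nat.primesBelow N ∧ p < z0 := by
        intro p hp
        rw [hS, mem_filter, mem_filter] at hp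
        exact ⟨hp.1.1, hp.2⟩
      have h5 := hC3 N L hL hP.hN S (fun p hp => (hSm p hp).1)
      have h6 : ∑ p ∈ S, Pool.Agent.TH806.er L p ≤ C3 := h5
      have h7 : ∑ p ∈ S, u0 L τ p ≤ ∑ p ∈ S, (8 + Pool.Agent.TH806.er L p) := by
        refine sum_le_sum fun p hp => ?_
        have hpp := (Nat.mem_primesBelow.mp (hSm p hp).1).2
        have hp1 : 1 ≤ p := hpp.one_lt.le
        have he := Pool.Agent.TH806.er_nonneg hL hp1
        unfold u0
        split_ifs
        · linarith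
        · refine (uE_zero p).trans ?_
          have : (1:ℝ) / p ≤ 1 := by
            rw [div_le_one (by exact_mod_cast hp1)]; exact_mod_cast hp1
          linarith
      have h8 : (S.card : ℝ) ≤ z0 := by
        have : S.card ≤ (range z0).card := card_le_card fun p hp => mem_range.mpr (hSm p hp).2
        rw [card_range] at this
        exact_mod_cast this
      rw [sum_add_distrib, sum_const, nsmul_eq_mul] at h7
      linarith
    · set S := ((Nat.primesBelow N).filter (fun p => ∀ i < J, p ∉ I i)).filter (fun p : ℕ => ¬ p < z0) with hS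
      have hSm : ∀ p ∈ S, p ∈ Nat.primesBelow N ∧ y < (p:ℝ) ∧ z0 ≤ p := by
        intro p hp
        rw [hS, mem_filter, mem_filter] at hp
        refine ⟨hp.1.1, ?_, by omega⟩
        by_contra hcon
        push Not at hcon
        obtain ⟨i, hi, hpi⟩ := hB.cover p (Nat.mem_primesBelow.mp hp.1.1).2 (by omega) hcon
        exact hp.1.2 i hi hpi
      have hz1 := hB.z1
      have h1 : ∑ p ∈ S, u0 L τ p ≤ ∑ p ∈ S, (3 * (1 / (p:ℝ)) + Pool.Agent.TH806.er L p) := by
        refine sum_le_sum fun p hp => ?_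
        unfold u0
        rw [if_neg (by have := (hSm p hp).2.2; omega)]
        exact uE_zero p
      refine h1.trans ?_
      rw [sum_add_distrib, ← mul_sum]
      have h2 : ∑ p ∈ S, 1 / (p:ℝ) ≤ ∑ p ∈ (Nat.primesBelow N).filter (fun p : ℕ => y < (p:ℝ)), (1:ℝ) / p := by
        refine sum_le_sum_of_subset_of_nonneg (fun p hp => ?_) fun p _ _ => by positivity
        rw [mem_filter]; exact ⟨(hSm p hp).1, (hSm p hp).2.1⟩
      have h3 := hC2 y (by linarith) N L hL hP.hN (by linarith)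
      have hly : 0 < Real.log y := Real.log_pos (by linarith)
      have h4 : Real.log (3 * L) - Real.log (Real.log y) ≤ Real.log (3 * A) := by
        rw [← Real.log_div (by positivity) hly.ne']
        refine Real.log_le_log (by positivity) ?_
        rw [div_le_iff₀ hly]; linarith
      have h5 := hC3 N L hL hP.hN S (fun p hp => (hSm p hp).1)
      have h6 : ∑ p ∈ S, Pool.Agent.TH806.er L p ≤ C3 := h5
      linarith
  -- blocks
  have F2 : ∏ i ∈ range J, ∑ j : Fin 5, Af (RR Rs i) j * Real.exp (∑ p ∈ I i, uE L τ (cf (-1 + α) j) p) ≤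
      Real.exp (∑ i ∈ range J, ∑ p ∈ I i, uE L τ (cf (-1 + α) 0) p) *
        Real.exp ((3 + 8 * Real.exp (25 * c)) * 2) := by
    calc _ ≤ ∏ i ∈ range J, (Real.exp (∑ p ∈ I i, uE L τ (cf (-1 + α) 0) p) *
        Real.exp ((3 + 8 * Real.exp (25 * c)) * Real.exp (-(RR Rs i:ℝ)))) := by
          refine prod_le_prod (fun i _ => sum_nonneg fun j _ => mul_nonneg (Af_nonneg _ _) (Real.exp_pos _).le) ?_
          intro i hi
          exact block_bound4 hα0 hα1 (hB.rg.v i (mem_range.mp hi)) _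
      _ = Real.exp (∑ i ∈ range J, ∑ p ∈ I i, uE L τ (cf (-1 + α) 0) p) *
          Real.exp ((3 + 8 * Real.exp (25 * c)) * ∑ i ∈ range J, Real.exp (-(RR Rs i:ℝ))) := by
          rw [prod_mul_distrib, ← Real.exp_sum, ← Real.exp_sum, mul_sum]
      _ ≤ _ := by
          refine mul_le_mul_of_nonneg_left (Real.exp_le_exp.mpr ?_) (Real.exp_pos _).le
          have h1 := sum_exp_le J Rs (RR_ge Rs)
          have h2 : Real.exp (-(Rs:ℝ)) ≤ 1 := Real.exp_le_one_iff.mpr (by simp)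
          refine mul_le_mul_of_nonneg_left (by linarith) (by positivity)
  have F3 : ∑ i ∈ range J, ∑ p ∈ I i, uE L τ (cf (-1 + α) 0) p ≤
      (α ^ 2 + 2 * α) * (∑ i ∈ range J, vI (I i)) + C3 := by
    have h1 : ∑ i ∈ range J, ∑ p ∈ I i, uE L τ (cf (-1 + α) 0) p ≤ ∑ i ∈ range J, ∑ p ∈ I i,
        ((α ^ 2 + 2 * α) * (1 / (p:ℝ)) + Pool.Agent.TH806.er L p) := by
      refine sum_le_sum fun i _ => sum_le_sum fun p _ => ?_
      rw [uE_main]
      have c2 := Real.cos_le_one (τ * Real.log p)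
      have h5 : (0:ℝ) ≤ 1 / p := by positivity
      have h6 : α ^ 2 + 2 * α * Real.cos (τ * Real.log p) ≤ α ^ 2 + 2 * α := by nlinarith
      have h7 := mul_le_mul_of_nonneg_right h6 h5
      linarith
    refine h1.trans ?_
    simp_rw [sum_add_distrib, ← mul_sum]
    have h8 : ∑ i ∈ range J, ∑ p ∈ I i, Pool.Agent.TH806.er L p ≤ C3 := by
      rw [← sum_biUnion]
      · refine hC3 N L hL hP.hN _ fun p hp => ?_
        rw [mem_biUnion] at hp
        obtain ⟨i, hi, hpi⟩ := hp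
        exact hIsub i (mem_range.mp hi) hpi
      · intro i _ j _ hij
        rcases lt_or_gt_of_ne hij with h | h
        · exact hB.rg.dj i j h
        · exact (hB.rg.dj j i h).symm
    refine add_le_add (le_of_eq ?_) h8
    unfold vI
    rfl
  have hlog1 : 1 ≤ 1 + L * |τ| := by
    have : 0 ≤ L * |τ| := mul_nonneg (by linarith) (abs_nonneg _)
    linarith
  have key : Real.exp (∑ p ∈ (Nat.primesBelow N).filter (fun p => ∀ i < J, p ∉ I i), u0 L τ p) *
      ∏ i ∈ range J, ∑ j : Fin 5, Af (RR Rs i) j * Real.exp (∑ p ∈ I i, uE L τ (cf (-1 + α) j) p) ≤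
      Real.exp ((8 * z0 + C3) + (3 * (Real.log (3 * A) + C2) + C3)) *
      (Real.exp ((α ^ 2 + 2 * α) * (∑ i ∈ range J, vI (I i)) + C3) *
        Real.exp ((3 + 8 * Real.exp (25 * c)) * 2)) := by
    refine mul_le_mul (Real.exp_le_exp.mpr F1) (F2.trans ?_) ?_ (Real.exp_pos _).le
    · exact mul_le_mul_of_nonneg_right (Real.exp_le_exp.mpr F3) (Real.exp_pos _).le
    · exact prod_nonneg fun i _ => sum_nonneg fun j _ => mul_nonneg (Af_nonneg _ _) (Real.exp_pos _).le
  refine key.trans ?_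
  refine le_trans (le_of_eq ?_) (le_mul_of_one_le_right (by positivity) hlog1)
  rw [← Real.exp_add, ← Real.exp_add, ← Real.exp_add]
  congr 1
  ring

end Pool.Agent.Y755
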