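import Pool.Agent.Y755.Fm1

set_option autoImplicit false

/-! The quadratic form, for general blocks. -/

namespace Pool.Agent.Y755

open Finset MeasureTheory
open Pool.Agent.W184.NZ
open Pool.Agent.TH806 (Ix PP ap ZT wp gt TT Par QS MS SF SF_sq PP_bdd PP_cont evt evt_GP evt_cont evt_norm_le
  QS_int fub_int ap_lt gt_nonneg)
open Pool.Agent.H448R2.GC (cu ker cs Ps scale_integral scale_integrable cu_nonneg cu_le_one)

/-- the bound for the quadratic form -/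
theorem QS_bound4 (c A η B : ℝ) (z0 : ℕ) (k : ℕ) (hη : 0 < η) (hB : 1 ≤ B) (hk : 2 ≤ k) :
    ∃ C : ℝ, 0 < C ∧ ∀ (y L ρ t α D : ℝ) (z : ℂ) (N J Rs M : ℕ) (I : ℕ → Finset ℕ),
    BG c z0 y J I → 1 ≤ Rs → (∀ p : ℕ, p < N → Real.log p ≤ 3 * L) → 1 ≤ L → ‖z‖ ≤ 1 / (20 * L) → 0 ≤ α → α ≤ 1 →
    Real.log y ≤ L → L ≤ A * Real.log y → y < N → |D| ≤ B * L → 0 ≤ ρ → ρ ≤ 1 / L →
    Bd M (GP J (-1 + α) (RR Rs) I) → MS k (η * L / k) D * M < N → MS k (η * L / k) D < N →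
    ‖QS z k (η * L / k) D (((1 / 2 + ρ : ℝ) : ℂ) + (t : ℂ) * Complex.I) (GP J (-1 + α) (RR Rs) I)‖ ≤
      C * Real.exp ((α ^ 2 + 2 * α) * ∑ i ∈ range J, vI (I i)) * (1 + L * |t|) := by
  obtain ⟨C1, hC10, hC1⟩ := SF_sq η B k hη hB (by omega)
  obtain ⟨C2, hC20, hC2⟩ := tor_final4 c A z0
  refine ⟨C1 * (C2 * 2), by positivity, ?_⟩
  intro y L ρ t α D z N J Rs M I hBL hRs hN hL hz hα0 hα1 hyL hLy hyN hD hρ0 hρ1 hBd hMN hMN'
  set w : ℂ := ((1 / 2 + ρ : ℝ) : ℂ) + (t : ℂ) * Complex.I with hw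
  set G := GP J (-1 + α) (RR Rs) I with hG
  have hwre : w.re = 1 / 2 + ρ := by rw [hw]; simp
  have hL0 : 0 < L := by linarith
  have hLinv : 0 < 1 / L := by positivity
  have hPar : ∀ τ : ℝ, Par L N z (ρ + 1 / L) τ := fun τ =>
    ⟨hL, hN, hz, by positivity, by have : 2 / L = 1 / L + 1 / L := by ring
                                   linarith⟩
  have hzp : ∀ p : Ix N, ‖ap N z p‖ < 1 := fun p => by linarith [ap_lt (hPar 0) p]
  have hpr : ∀ i, ∀ p ∈ I i, p.Prime := fun i p hp => (hBL.rg.pr i p hp).1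
  have hev : ∀ θ : Ix N → ℝ, evt θ G = ((gt J (-1 + α) (RR Rs) I θ : ℝ) : ℂ) := fun θ => evt_GP θ J _ _ hpr
  obtain ⟨BP, hBP0, hBP⟩ := PP_bdd hzp
  set Φ : (Ix N → ℝ) → ℝ := fun θ => ‖PP (ap N z) θ‖ * gt J (-1 + α) (RR Rs) I θ with hΦ
  have hgtc : Continuous fun θ : Ix N → ℝ => gt J (-1 + α) (RR Rs) I θ := by
    have h1 := Complex.continuous_re.comp (evt_cont (N := N) G)
    refine h1.congr fun θ => ?_
    simp only [Function.comp]
    rw [hev θ, Complex.ofReal_re]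
  have hgtb : ∀ θ : Ix N → ℝ, |gt J (-1 + α) (RR Rs) I θ| ≤ l1 G := by
    intro θ
    have h1 := evt_norm_le hBd θ
    rw [hev θ, Complex.norm_real, Real.norm_eq_abs] at h1
    exact h1
  have hΦc : Continuous Φ := (PP_cont hzp).norm.mul hgtc
  have hΦb : ∀ θ, |Φ θ| ≤ BP * l1 G := by
    intro θ
    rw [hΦ]; simp only
    rw [abs_mul, abs_norm]
    exact mul_le_mul (hBP θ) (hgtb θ) (abs_nonneg _) hBP0
  have hΦ0 : ∀ θ, 0 ≤ Φ θ := fun θ => mul_nonneg (norm_nonneg _) (gt_nonneg _ _ _ _ _)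
  rw [QS_int hzp k _ D w hBd hMN]
  have hw1 : 0 < (w + ((1 / L : ℝ) : ℂ)).re := by rw [Complex.add_re, Complex.ofReal_re, hwre]; linarith
  have hfub := fub_int hL (k := k) (by omega) hw1 hΦc hΦb
  have hSF : ∀ θ : Ix N → ℝ, ‖SF k (η * L / k) D w θ‖ ^ 2 ≤ C1 * ∫ v : ℝ, L / (1 + L * |v|) ^ (k + 1) *
      ‖ZT (w + ((1 / L : ℝ) : ℂ) + (v : ℂ) * Complex.I) θ‖ ^ 2 := by
    intro θ
    have hkk : (k:ℝ) * (η * L / k) = η * L := by
      have : (k:ℝ) ≠ 0 := by exact_mod_cast (by omega : k ≠ 0)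
      field_simp
    have h1 := hC1 L D w N θ hL hD (by rw [hwre]; linarith) (by unfold MS at hMN'; rwa [hkk] at hMN')
    simp_rw [add_assoc w]
    exact h1
  have step1 : ‖∫ θ, ((‖SF k (η * L / k) D w θ‖ ^ 2 : ℝ) : ℂ) * evt θ G * PP (ap N z) θ ∂(TT N)‖ ≤
      ∫ θ, (C1 * (∫ v : ℝ, Φ θ * (L / (1 + L * |v|) ^ (k + 1) *
        ‖ZT (w + ((1 / L : ℝ) : ℂ) + (v : ℂ) * Complex.I) θ‖ ^ 2))) ∂(TT N) := by
    refine norm_integral_le_of_norm_le (hfub.integral_prod_left.const_mul _)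
      (Filter.Eventually.of_forall fun θ => ?_)
    rw [norm_mul, norm_mul, hev θ, Complex.norm_real, Complex.norm_real, Real.norm_eq_abs, Real.norm_eq_abs,
      abs_of_nonneg (sq_nonneg _), abs_of_nonneg (gt_nonneg _ _ _ _ _), integral_const_mul]
    calc ‖SF k (η * L / k) D w θ‖ ^ 2 * gt J (-1 + α) (RR Rs) I θ * ‖PP (ap N z) θ‖ =
        Φ θ * ‖SF k (η * L / k) D w θ‖ ^ 2 := by rw [hΦ]; ring
      _ ≤ Φ θ * (C1 * ∫ v : ℝ, L / (1 + L * |v|) ^ (k + 1) *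
          ‖ZT (w + ((1 / L : ℝ) : ℂ) + (v : ℂ) * Complex.I) θ‖ ^ 2) := mul_le_mul_of_nonneg_left (hSF θ) (hΦ0 θ)
      _ = _ := by ring
  refine step1.trans ?_
  rw [integral_const_mul, mul_assoc, mul_assoc]
  refine mul_le_mul_of_nonneg_left ?_ hC10.le
  rw [integral_integral_swap hfub]
  set E := Real.exp ((α ^ 2 + 2 * α) * ∑ i ∈ range J, vI (I i)) with hE
  have step2 : ∀ v : ℝ, ∫ θ, Φ θ * (L / (1 + L * |v|) ^ (k + 1) *
        ‖ZT (w + ((1 / L : ℝ) : ℂ) + (v : ℂ) * Complex.I) θ‖ ^ 2) ∂(TT N) ≤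
      (C2 * E * (1 + L * |t|)) * (L / (1 + L * |v|) ^ k) := by
    intro v
    have h0 : 0 ≤ L * |v| := by positivity
    have e1 : ∀ θ : Ix N → ℝ, Φ θ * (L / (1 + L * |v|) ^ (k + 1) * ‖ZT (w + ((1 / L : ℝ) : ℂ) + (v : ℂ) * Complex.I) θ‖ ^ 2) =
        (L / (1 + L * |v|) ^ (k + 1)) * (‖PP (ap N z) θ‖ * ‖ZT (wp (ρ + 1 / L) (t + v)) θ‖ ^ 2 *
          gt J (-1 + α) (RR Rs) I θ) := by
      intro θ
      have : w + ((1 / L : ℝ) : ℂ) + (v : ℂ) * Complex.I = wp (ρ + 1 / L) (t + v) := by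
        rw [hw]; unfold wp; push_cast; ring
      rw [this, hΦ]; ring
    simp_rw [e1]
    rw [integral_const_mul]
    have h1 := hC2 y L (ρ + 1 / L) (t + v) α z N J Rs I hBL hRs (hPar _) hα0 hα1 hyL hLy hyN
    have h2 : 1 + L * |t + v| ≤ (1 + L * |t|) * (1 + L * |v|) := by
      have a1 : |t + v| ≤ |t| + |v| := abs_add_le _ _
      have a2 : 0 ≤ L * |t| := by positivity
      nlinarith
    have h3 : 0 ≤ L / (1 + L * |v|) ^ (k + 1) := by positivity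
    have hE0 : 0 < E := Real.exp_pos _
    calc L / (1 + L * |v|) ^ (k + 1) * _ ≤ L / (1 + L * |v|) ^ (k + 1) * (C2 * E * (1 + L * |t + v|)) :=
          mul_le_mul_of_nonneg_left h1 h3
      _ ≤ L / (1 + L * |v|) ^ (k + 1) * (C2 * E * ((1 + L * |t|) * (1 + L * |v|))) := by gcongr
      _ = _ := by
          rw [pow_succ]
          field_simp
  have hgk := scale_integrable L k hL hk
  have hg2 := scale_integral L k hL hk
  calc ∫ v : ℝ, ∫ θ, Φ θ * (L / (1 + L * |v|) ^ (k + 1) *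
        ‖ZT (w + ((1 / L : ℝ) : ℂ) + (v : ℂ) * Complex.I) θ‖ ^ 2) ∂(TT N) ≤
      ∫ v : ℝ, (C2 * E * (1 + L * |t|)) * (L / (1 + L * |v|) ^ k) := by
        refine integral_mono_of_nonneg (Filter.Eventually.of_forall fun v => ?_) (hgk.const_mul _)
          (Filter.Eventually.of_forall step2)
        refine integral_nonneg fun θ => mul_nonneg (hΦ0 θ) (mul_nonneg ?_ (sq_nonneg _))
        have h0 : 0 ≤ L * |v| := by positivity
        positivity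
    _ ≤ (C2 * E * (1 + L * |t|)) * 2 := by
        rw [integral_const_mul]
        refine mul_le_mul_of_nonneg_left hg2 ?_
        have a2 : 0 ≤ L * |t| := by positivity
        positivity
    _ = _ := by ring


end Pool.Agent.Y755
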