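import Pool.Agent.Y755.Fm2

set_option autoImplicit false

/-! The second moment of zeta times a smoothed sum times the short product, for general blocks. -/

namespace Pool.Agent.Y755

open Finset Filter MeasureTheory
open Pool.Agent.W184.NZ
open Pool.Agent.TH806 (QS MS fS fS_norm tw_G DP DP_cs main_eq deriv_bound yf_bound)
open Pool.Agent.H306R2.SM (om cl Yf)
open Pool.Agent.H262R4.TM (Rng Ck)
open Pool.Agent.H448R2.GC (cu cs cu_nonneg cu_le_one)

/-- the main estimate for the smoothed sums -/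
theorem TB4 (z0 : ℕ) (k : ℕ) (hk : 2 ≤ k) : ∃ η' : ℝ, 0 < η' ∧ ∀ c A : ℝ, ∃ C : ℝ, 0 < C ∧ ∀ Rs : ℕ,
    1 ≤ Rs → ∀ᶠ T : ℝ in atTop, ∀ κ : ℕ, Rng T κ → ∀ (y α ρ t' D : ℝ) (J : ℕ) (I : ℕ → Finset ℕ), BG c z0 y J I →
    320 * ((Rs:ℝ) + 1) * Real.log y ≤ η' * Real.log T → Real.log T ≤ A * Real.log y → 0 ≤ α → α ≤ 1 →
    0 ≤ ρ → ρ ≤ 1 / Real.log T → 0 ≤ D → D ≤ 101 / 200 * Real.log T →
    ∫ t in Set.Ioi (0:ℝ), wz κ T t * (‖cs k (1 / 200 * Real.log T / k) D (((1 / 2 + ρ : ℝ) : ℂ) +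
        ((t + t' : ℝ) : ℂ) * Complex.I)‖ ^ 2 * gp J (-1 + α) (RR Rs) I t) ≤
      C * Real.log T * Real.exp ((α ^ 2 + 2 * α) * ∑ i ∈ range J, vI (I i)) * (1 + Real.log T * |t'|) := by
  obtain ⟨η, hη, hG⟩ := tw_G (517 / 1000) (by norm_num)
  refine ⟨min (η / 2) (1 / 100), lt_min (by positivity) (by norm_num), fun c A => ?_⟩
  obtain ⟨C, hC0, hC⟩ := QS_bound4 c A (1 / 200) 1 z0 k (by norm_num) le_rfl hk
  refine ⟨24 * C + 2 * Real.exp c, by positivity, fun Rs hRs => ?_⟩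
  have hkp : (0:ℝ) < k := by exact_mod_cast (by omega : 0 < k)
  have hT3 : ∀ᶠ T : ℝ in atTop, Real.log T ^ 2 ≤ T ^ (η / 2) := by
    have h1 := (isLittleO_log_rpow_rpow_atTop (2:ℝ) (show (0:ℝ) < η / 2 by positivity)).def (zero_lt_one)
    filter_upwards [h1, eventually_gt_atTop (1:ℝ)] with T h1 h2
    have h3 : 0 < Real.log T := Real.log_pos h2
    rw [Real.norm_eq_abs, Real.norm_eq_abs, abs_of_nonneg (by positivity), abs_of_nonneg (by positivity), one_mul] at h1
    calc Real.log T ^ 2 = Real.log T ^ (2:ℝ) := by norm_cast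
      _ ≤ _ := h1
  filter_upwards [hG, hT3, eventually_gt_atTop (3:ℝ), Real.tendsto_log_atTop.eventually_ge_atTop 400] with
    T hGT hT3 hTgt hL κ hκ y α ρ t' D J I hBL hy1 hy2 hα0 hα1 hρ0 hρ1 hD0 hD1
  set L := Real.log T with hLd
  have hL1 : 1 ≤ L := by linarith
  have hL0 : 0 < L := by linarith
  have hT0 : 0 < T := by linarith
  have hy := hBL.y1
  have hRs1 : (1:ℝ) ≤ Rs := by exact_mod_cast hRs
  have hly : 1 < Real.log y := by
    have := Real.exp_one_lt_d9
    rw [Real.lt_log_iff_exp_lt (by linarith)]; linarith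
  have hm1 : min (η / 2) (1 / 100) ≤ η / 2 := min_le_left _ _
  have hm2 : min (η / 2) (1 / 100) ≤ 1 / 100 := min_le_right _ _
  have hlen1 : 320 * ((Rs:ℝ) + 1) * Real.log y ≤ 1 / 100 * L := hy1.trans (mul_le_mul_of_nonneg_right hm2 hL0.le)
  have hlen2 : 320 * ((Rs:ℝ) + 1) * Real.log y ≤ η / 2 * L := hy1.trans (mul_le_mul_of_nonneg_right hm1 hL0.le)
  have hyL : Real.log y ≤ L := by
    have : 1 * Real.log y ≤ 320 * ((Rs:ℝ) + 1) * Real.log y :=
      mul_le_mul_of_nonneg_right (by linarith) (by linarith)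
    linarith
  have hk1 : 1 ≤ κ := by
    have h1 := hκ.1
    have h2 : (1:ℝ) ≤ Real.log T ^ 2 := one_le_pow₀ hL1
    have : (1:ℝ) ≤ κ := h2.trans h1
    exact_mod_cast this
  set G := GP J (-1 + α) (RR Rs) I with hGd
  set w : ℂ := ((1 / 2 + ρ : ℝ) : ℂ) + (t' : ℂ) * Complex.I with hw
  set c0 := 1 / 200 * L / k with hc0
  have hc0p : 0 < c0 := by positivity
  have hkc0 : (k:ℝ) * c0 = 1 / 200 * L := by rw [hc0]; field_simp
  set M := MS k c0 D with hM
  -- sizes
  have hMle : (M:ℝ) ≤ Real.exp (51 / 100 * L) := by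
    rw [hM]; unfold MS
    refine (Nat.floor_le (Real.exp_pos _).le).trans (Real.exp_le_exp.mpr ?_)
    rw [hkc0]; linarith
  set B := ⌈Real.exp (Real.log y * (160 * ((Rs:ℝ) + 1)))⌉₊ with hB
  have hBle : (B:ℝ) ≤ Real.exp (7 / 1000 * L) := by
    have h1 : (B:ℝ) < Real.exp (Real.log y * (160 * ((Rs:ℝ) + 1))) + 1 := Nat.ceil_lt_add_one (Real.exp_pos _).le
    have h2 : Real.exp (Real.log y * (160 * ((Rs:ℝ) + 1))) ≤ Real.exp (1 / 200 * L) := by
      apply Real.exp_le_exp.mpr; linarith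
    have h3 : Real.exp (7 / 1000 * L) = Real.exp (1 / 200 * L) * Real.exp (1 / 500 * L) := by
      rw [← Real.exp_add]; congr 1; ring
    have h4 : 1 + 1 / 500 * L ≤ Real.exp (1 / 500 * L) := by linarith [Real.add_one_le_exp (1 / 500 * L)]
    have h5 : 1 + 1 / 200 * L ≤ Real.exp (1 / 200 * L) := by linarith [Real.add_one_le_exp (1 / 200 * L)]
    have h6 : (1.8:ℝ) ≤ Real.exp (1 / 500 * L) := by linarith
    have h7 : Real.exp (1 / 200 * L) * 1.8 ≤ Real.exp (1 / 200 * L) * Real.exp (1 / 500 * L) :=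
      mul_le_mul_of_nonneg_left h6 (Real.exp_pos _).le
    rw [h3]; linarith
  have hBd : Bd (B:ℝ) G := by
    have h1 := GP_Bdz (Rs := Rs) (by linarith : 1 ≤ y) hBL.rg (-1 + α)
    exact h1.mono (Nat.le_ceil _)
  have hMB : ((M * B : ℕ) : ℝ) ≤ T ^ (517 / 1000 : ℝ) := by
    rw [Real.rpow_def_of_pos hT0, ← hLd]
    push_cast
    calc (M:ℝ) * B ≤ Real.exp (51 / 100 * L) * Real.exp (7 / 1000 * L) := by gcongr
      _ = Real.exp (L * (517 / 1000)) := by rw [← Real.exp_add]; congr 1; ring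
  have hf : ∀ n, n ≠ 0 → ‖fS k c0 D w n‖ ≤ 1 := fun n hn => fS_norm k hc0p D (by rw [hw]; simp; linarith) n hn
  have hmain := hGT κ hκ M B (fS k c0 D w) hf hMB G hBd
  have hpr : ∀ i, ∀ p ∈ I i, p.Prime := fun i p hp => (hBL.rg.pr i p hp).1
  have e1 : ∀ t : ℝ, wz κ T t * (‖DP (fS k c0 D w) M t‖ ^ 2 * (ev t G).re) = wz κ T t *
      (‖cs k c0 D (((1 / 2 + ρ : ℝ) : ℂ) + ((t + t' : ℝ) : ℂ) * Complex.I)‖ ^ 2 * gp J (-1 + α) (RR Rs) I t) := by
    intro t
    rw [hM, hw, DP_cs, hGd, ev_GP t J _ _ hpr, Complex.ofReal_re]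
  simp_rw [e1] at hmain
  rw [main_eq] at hmain
  -- the number N
  set N := ⌊Real.exp (3 * L)⌋₊ with hN
  have hNlog : ∀ p : ℕ, p < N → Real.log p ≤ 3 * L := by
    intro p hp
    rcases Nat.eq_zero_or_pos p with h0 | h0
    · rw [h0]; simp; linarith
    · have hp0 : (0:ℝ) < p := by exact_mod_cast h0
      rw [Real.log_le_iff_le_exp hp0]
      have h1 : (p:ℝ) ≤ N := by exact_mod_cast hp.le
      exact h1.trans (Nat.floor_le (Real.exp_pos _).le)
  have hN2 : Real.exp L < N := by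
    have h1 : Real.exp (3 * L) < N + 1 := Nat.lt_floor_add_one _
    have h2 : Real.exp (3 * L) = Real.exp L * Real.exp L * Real.exp L := by rw [← Real.exp_add, ← Real.exp_add]; congr 1; ring
    have h3 : L + 1 ≤ Real.exp L := Real.add_one_le_exp L
    have h4 : Real.exp L * 400 ≤ Real.exp L * Real.exp L :=
      mul_le_mul_of_nonneg_left (by linarith) (Real.exp_pos _).le
    have h5 : Real.exp L * Real.exp L * 400 ≤ Real.exp L * Real.exp L * Real.exp L :=
      mul_le_mul_of_nonneg_left (by linarith) (by positivity)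
    linarith
  have hyN : y < N := by
    refine lt_of_le_of_lt ?_ hN2
    rw [← Real.log_le_iff_le_exp (by linarith)]; exact hyL
  have hMBN : M * B < N := by
    have h1 : ((M * B : ℕ) : ℝ) < N := by
      refine lt_of_le_of_lt hMB (lt_of_le_of_lt ?_ hN2)
      rw [Real.rpow_def_of_pos hT0, ← hLd]
      exact Real.exp_le_exp.mpr (by linarith)
    exact_mod_cast h1
  have hB1 : 1 ≤ B := Nat.one_le_ceil_iff.mpr (Real.exp_pos _)
  have hMN : M < N := lt_of_le_of_lt (Nat.le_mul_of_pos_right _ (by omega)) hMBN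
  have hQ : ∀ z : ℂ, ‖z‖ ≤ 1 / (20 * L) → ‖QS z k c0 D w G‖ ≤
      C * Real.exp ((α ^ 2 + 2 * α) * ∑ i ∈ range J, vI (I i)) * (1 + L * |t'|) := by
    intro z hz
    exact hC y L ρ t' α D z N J Rs B I hBL hRs hNlog hL1 hz hα0 hα1 hyL hy2 hyN (by rw [abs_of_nonneg hD0]; linarith)
      hρ0 hρ1 hBd hMBN hMN
  set E := Real.exp ((α ^ 2 + 2 * α) * ∑ i ∈ range J, vI (I i)) with hE
  have hE0 : 0 < E := Real.exp_pos _
  have hQ0 := hQ 0 (by rw [norm_zero]; positivity)
  have hdQ := deriv_bound (k := k) (c := c0) (D := D) (w := w) (G := G) (r := 1 / (20 * L)) (by positivity) hQ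
  have hyf := yf_bound hk1 hT0
  have hyf2 : |Real.log (Yf κ T) + Ck κ| ≤ 2 * L := by
    have h1 := abs_sub_abs_le_abs_sub (Real.log (Yf κ T) + Ck κ) L
    rw [abs_of_pos hL0] at h1
    linarith
  have ht0 : 0 ≤ L * |t'| := by positivity
  set P := C * E * (1 + L * |t'|) with hP
  have hP0 : 0 ≤ P := by rw [hP]; positivity
  have hre : ((((Real.log (Yf κ T) + Ck κ : ℝ) : ℂ)) * QS 0 k c0 D w G + deriv (fun z => QS z k c0 D w G) 0).re ≤
      22 * L * P := by
    refine (Complex.re_le_norm _).trans ((norm_add_le _ _).trans ?_)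
    rw [norm_mul, Complex.norm_real, Real.norm_eq_abs]
    have h1 : |Real.log (Yf κ T) + Ck κ| * ‖QS 0 k c0 D w G‖ ≤ 2 * L * P :=
      mul_le_mul hyf2 hQ0 (norm_nonneg _) (by positivity)
    have h2 : P / (1 / (20 * L)) = 20 * L * P := by field_simp
    rw [h2] at hdQ
    linarith
  have hl2 : l1 G ≤ Real.exp (Real.log y * (320 * ((Rs:ℝ) + 1))) := by
    have ha : |(-1 + α)| ≤ 1 := by
      rw [abs_le]; constructor <;> linarith
    refine (GP_l1z (by linarith) hBL.rg hRs ha).trans (Real.exp_le_exp.mpr ?_)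
    have : 0 ≤ Real.log y * ((Rs:ℝ) + 1) := by positivity
    linarith
  have hl3 : l1 G ≤ Real.exp (η / 2 * L) := hl2.trans (Real.exp_le_exp.mpr (by linarith))
  have herr : 2 * T ^ (-η) * l1 G ≤ 2 * Real.exp c * L * E := by
    have e2 : T ^ (-η) = Real.exp (-(η * L)) := by
      rw [Real.rpow_def_of_pos hT0, ← hLd]; congr 1; ring
    have e3 : T ^ (η / 2) = Real.exp (η / 2 * L) := by
      rw [Real.rpow_def_of_pos hT0, ← hLd]; congr 1; ring
    rw [e3] at hT3
    have h1 : Real.exp (-(η * L)) * Real.exp (η / 2 * L) = Real.exp (-(η / 2 * L)) := by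
      rw [← Real.exp_add]; congr 1; ring
    have h2 : Real.exp (-(η / 2 * L)) ≤ 1 / L ^ 2 := by
      rw [Real.exp_neg, ← one_div]
      exact one_div_le_one_div_of_le (by positivity) hT3
    have h3 : Real.exp (-c) / L ≤ E := by
      have a1 : Real.exp (-c) ≤ 1 := Real.exp_le_one_iff.mpr (by have := hBL.c0; linarith)
      have a2 : 1 ≤ E := Real.one_le_exp (mul_nonneg (by positivity) (sum_nonneg fun _ _ => vI_nonneg _))
      have a3 : Real.exp (-c) / L ≤ 1 := by rw [div_le_one (by linarith)]; linarith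
      linarith
    have h4 : 1 / L ^ 2 ≤ Real.exp c * L * E := by
      have h5 : Real.exp c * L * (Real.exp (-c) / L) ≤ Real.exp c * L * E :=
        mul_le_mul_of_nonneg_left h3 (by positivity)
      have h6 : Real.exp c * L * (Real.exp (-c) / L) = 1 := by
        rw [Real.exp_neg]
        field_simp
      have h7 : 1 / L ^ 2 ≤ 1 := by
        rw [div_le_one (by positivity)]
        exact one_le_pow₀ hL1
      linarith
    rw [e2]
    calc 2 * Real.exp (-(η * L)) * l1 G ≤ 2 * Real.exp (-(η * L)) * Real.exp (η / 2 * L) := by gcongr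
      _ = 2 * Real.exp (-(η / 2 * L)) := by rw [mul_assoc, h1]
      _ ≤ 2 * (1 / L ^ 2) := by linarith
      _ ≤ _ := by linarith
  have h9 := (abs_le.mp hmain).2
  have h10 : 0 ≤ L * E * (L * |t'|) := by positivity
  have h11 : 0 ≤ Real.exp c * (L * E * (L * |t'|)) := by positivity
  calc _ ≤ 22 * L * P + 2 * Real.exp c * L * E := by linarith
    _ ≤ (24 * C + 2 * Real.exp c) * L * E * (1 + L * |t'|) := by
        rw [hP]
        have h12 : 0 ≤ C * (L * E * (1 + L * |t'|)) := by positivity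
        have h13 : (24 * C + 2 * Real.exp c) * L * E * (1 + L * |t'|) =
          22 * L * (C * E * (1 + L * |t'|)) + 2 * Real.exp c * L * E + 2 * (C * (L * E * (1 + L * |t'|))) +
            2 * (Real.exp c * (L * E * (L * |t'|))) := by ring
        linarith


end Pool.Agent.Y755
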