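import Pool.Agent.Y755.Blk2

set_option autoImplicit false

/-! Local estimates for general exponents. -/

namespace Pool.Agent.Y755

open Finset Filter MeasureTheory MonoidAlgebra
open Pool.Agent.W184.NZ

/-- second order expansions with a parameter -/
def E4 (M : ℝ) (f : ℂ → ℂ) (c d : ℝ) : Prop :=
  ∀ z : ℂ, ‖z‖ ≤ 1 / (200 * M ^ 3) → ‖f z - (1 + c * z + d * z ^ 2)‖ ≤ 50 * M ^ 3 * ‖z‖ ^ 3

section

variable {M : ℝ}

lemma r0_le (hM : 1 ≤ M) : 1 / (200 * M ^ 3) ≤ 1 / 200 := by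
  have : 1 ≤ M ^ 3 := one_le_pow₀ hM
  exact one_div_le_one_div_of_le (by norm_num) (by linarith)

lemma M_r0 (hM : 1 ≤ M) {x : ℝ} (hx : x ≤ 1 / (200 * M ^ 3)) : M * x ≤ 1 / 200 := by
  have h3 : M ≤ M ^ 3 := le_self_pow₀ hM (by norm_num)
  have h0 : 0 < M := by linarith
  have h1 : M ^ 3 * x ≤ 1 / 200 := by
    rw [le_div_iff₀ (by positivity)] at hx
    linarith
  rcases le_or_gt x 0 with h | h
  · have := mul_nonpos_of_nonneg_of_nonpos h0.le h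
    linarith
  · have := mul_le_mul_of_nonneg_right h3 h.le
    linarith

lemma E4_exp' (hM : 1 ≤ M) {a : ℝ} (ha : |a| ≤ 2 * M) {z : ℂ} (hz : ‖z‖ ≤ 1 / (200 * M ^ 3)) :
    ‖Complex.exp (a * z) - (1 + (a:ℂ) * z + ((a ^ 2 / 2 : ℝ) : ℂ) * z ^ 2)‖ ≤ 16 * M ^ 3 * ‖z‖ ^ 3 ∧
    ‖Complex.exp (a * z)‖ ≤ 2 := by
  have hz0 := norm_nonneg z
  have hMz := M_r0 hM hz
  have hw : ‖(a:ℂ) * z‖ ≤ 2 * M * ‖z‖ := by
    rw [norm_mul, Complex.norm_real, Real.norm_eq_abs]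
    exact mul_le_mul_of_nonneg_right ha hz0
  have h1 := Complex.norm_exp_sub_sum_le_norm_mul_exp ((a:ℂ) * z) 3
  simp only [sum_range_succ, sum_range_zero, Nat.factorial] at h1
  have h2 : Complex.exp (a * z) - (1 + (a:ℂ) * z + ((a ^ 2 / 2 : ℝ) : ℂ) * z ^ 2) =
      Complex.exp (a * z) - (0 + ((a:ℂ) * z) ^ 0 / ((1:ℕ):ℂ) + ((a:ℂ) * z) ^ 1 / (((0 + 1) * 1 : ℕ):ℂ) +
        ((a:ℂ) * z) ^ 2 / (((1 + 1) * ((0 + 1) * 1) : ℕ):ℂ)) := by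
    push_cast
    ring
  have h3 : Real.exp ‖(a:ℂ) * z‖ ≤ 2 := by
    refine le_trans (Real.exp_le_exp.mpr ?_) exp_eighth
    linarith
  constructor
  · rw [h2]
    refine h1.trans ?_
    calc ‖(a:ℂ) * z‖ ^ 3 * Real.exp ‖(a:ℂ) * z‖ ≤ (2 * M * ‖z‖) ^ 3 * 2 := by gcongr
      _ = 16 * M ^ 3 * ‖z‖ ^ 3 := by ring
  · rw [Complex.norm_exp]
    exact (Real.exp_le_exp.mpr (Complex.re_le_norm _)).trans h3

lemma E4_exp (hM : 1 ≤ M) {a : ℝ} (ha : |a| ≤ 2 * M) : E4 M (fun z => Complex.exp (a * z)) a (a ^ 2 / 2) := by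
  intro z hz
  refine (E4_exp' hM ha hz).1.trans ?_
  have : 0 ≤ M ^ 3 * ‖z‖ ^ 3 := by positivity
  linarith

lemma E4_norm (hM : 1 ≤ M) {f : ℂ → ℂ} {c d : ℝ} (h : E4 M f c d) (hc : |c| ≤ 50 * M ^ 3) (hd : |d| ≤ 50 * M ^ 3) {z : ℂ}
    (hz : ‖z‖ ≤ 1 / (200 * M ^ 3)) : ‖f z‖ ≤ 2 ∧ ‖(1 + (c:ℂ) * z + d * z ^ 2)‖ ≤ 2 := by
  have h1 := h z hz
  have hz0 := norm_nonneg z
  have hM3 : 1 ≤ M ^ 3 := one_le_pow₀ hM
  have hz1 : ‖z‖ ≤ 1 / 200 := hz.trans (r0_le hM)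
  have hB : 50 * M ^ 3 * ‖z‖ ≤ 1 / 4 := by
    rw [le_div_iff₀ (by positivity)] at hz
    linarith
  have hB0 : 0 ≤ 50 * M ^ 3 * ‖z‖ := by positivity
  have h2 : ‖(1 + (c:ℂ) * z + d * z ^ 2)‖ ≤ 1 + 1 / 4 + 1 / 4 := by
    refine (norm_add_le _ _).trans (add_le_add ((norm_add_le _ _).trans (add_le_add (by simp) ?_)) ?_)
    · rw [norm_mul, Complex.norm_real, Real.norm_eq_abs]
      exact (mul_le_mul_of_nonneg_right hc hz0).trans hB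
    · rw [norm_mul, Complex.norm_real, Real.norm_eq_abs, norm_pow]
      calc |d| * ‖z‖ ^ 2 ≤ (50 * M ^ 3) * ‖z‖ ^ 2 := mul_le_mul_of_nonneg_right hd (sq_nonneg _)
        _ = (50 * M ^ 3 * ‖z‖) * ‖z‖ := by ring
        _ ≤ 1 / 4 * 1 := mul_le_mul hB (by linarith) hz0 (by norm_num)
        _ = 1 / 4 := by norm_num
  have h3 : ‖f z‖ ≤ ‖f z - (1 + c * z + d * z ^ 2)‖ + ‖(1 + (c:ℂ) * z + d * z ^ 2)‖ := by
    have := norm_add_le (f z - (1 + c * z + d * z ^ 2)) (1 + (c:ℂ) * z + d * z ^ 2)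
    rwa [sub_add_cancel] at this
  have h4 : 50 * M ^ 3 * ‖z‖ ^ 3 ≤ 1 / 4 := by
    calc 50 * M ^ 3 * ‖z‖ ^ 3 = (50 * M ^ 3 * ‖z‖) * ‖z‖ ^ 2 := by ring
      _ ≤ 1 / 4 * 1 := mul_le_mul hB (pow_le_one₀ hz0 (by linarith)) (sq_nonneg _) (by norm_num)
      _ = 1 / 4 := by norm_num
  constructor <;> linarith

lemma E4_mul (hM : 1 ≤ M) {a : ℝ} (ha : |a| ≤ M) {K : ℕ} (hK : 2 ≤ K) :
    E4 M (fun z => gz K z * Complex.exp (a * z)) (1 + a) (1 + a + a ^ 2 / 2) := by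
  intro z hz
  have hz16 : ‖z‖ ≤ 1 / 16 := (hz.trans (r0_le hM)).trans (by norm_num)
  have h1 := E3_gz hK z hz16
  obtain ⟨h2, h3⟩ := E4_exp' hM (a := a) (by linarith) hz
  have hM3 : 1 ≤ M ^ 3 := one_le_pow₀ hM
  have hMM : M ≤ M ^ 3 := le_self_pow₀ hM (by norm_num)
  have hM2 : M ^ 2 ≤ M ^ 3 := pow_le_pow_right₀ hM (by norm_num)
  have ha2 : a ^ 2 ≤ M ^ 2 := by
    have := pow_le_pow_left₀ (abs_nonneg a) ha 2
    rwa [sq_abs] at this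
  have hz0 := norm_nonneg z
  simp only
  set P : ℂ := 1 + ((1:ℝ):ℂ) * z + ((1:ℝ):ℂ) * z ^ 2 with hP
  set Q : ℂ := 1 + (a:ℂ) * z + ((a ^ 2 / 2 : ℝ) : ℂ) * z ^ 2 with hQ
  have hPn : ‖P‖ ≤ 2 := by
    have : ‖P‖ ≤ 1 + 1 / 16 + (1 / 16) ^ 2 := by
      refine (norm_add_le _ _).trans (add_le_add ((norm_add_le _ _).trans (add_le_add (by simp) ?_)) ?_)
      · simpa using hz16
      · simp only [Complex.ofReal_one, one_mul, norm_pow]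
        gcongr
    norm_num at this
    linarith
  have e1 : gz K z * Complex.exp (a * z) - (1 + ((1 + a : ℝ):ℂ) * z + ((1 + a + a ^ 2 / 2 : ℝ) : ℂ) * z ^ 2) =
      (gz K z - P) * Complex.exp (a * z) + P * (Complex.exp (a * z) - Q) +
        (((a ^ 2 / 2 + a : ℝ) : ℂ) * z ^ 3 + ((a ^ 2 / 2 : ℝ) : ℂ) * z ^ 4) := by
    rw [hP, hQ]
    push_cast
    ring
  rw [e1]
  have z3 : 0 ≤ ‖z‖ ^ 3 := by positivity
  have b1 : ‖(gz K z - P) * Complex.exp (a * z)‖ ≤ 6 * ‖z‖ ^ 3 := by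
    rw [norm_mul]
    calc _ ≤ (3 * ‖z‖ ^ 3) * 2 := mul_le_mul h1 h3 (norm_nonneg _) (by positivity)
      _ = _ := by ring
  have b2 : ‖P * (Complex.exp (a * z) - Q)‖ ≤ 32 * M ^ 3 * ‖z‖ ^ 3 := by
    rw [norm_mul]
    calc _ ≤ 2 * (16 * M ^ 3 * ‖z‖ ^ 3) := mul_le_mul hPn h2 (norm_nonneg _) (by positivity)
      _ = _ := by ring
  have b3 : ‖((a ^ 2 / 2 + a : ℝ) : ℂ) * z ^ 3‖ ≤ 2 * M ^ 3 * ‖z‖ ^ 3 := by
    rw [norm_mul, Complex.norm_real, Real.norm_eq_abs, norm_pow]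
    refine mul_le_mul_of_nonneg_right ?_ z3
    refine (abs_add_le _ _).trans ?_
    rw [abs_of_nonneg (by positivity : 0 ≤ a ^ 2 / 2)]
    linarith
  have b4 : ‖((a ^ 2 / 2 : ℝ) : ℂ) * z ^ 4‖ ≤ M ^ 3 * ‖z‖ ^ 3 := by
    rw [norm_mul, Complex.norm_real, Real.norm_eq_abs, norm_pow, abs_of_nonneg (by positivity : 0 ≤ a ^ 2 / 2)]
    have : ‖z‖ ^ 4 ≤ ‖z‖ ^ 3 := pow_le_pow_of_le_one hz0 (by linarith) (by norm_num)
    exact mul_le_mul (by linarith [sq_nonneg a]) this (by positivity) (by positivity)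
  have c1 := norm_add_le ((gz K z - P) * Complex.exp (a * z) + P * (Complex.exp (a * z) - Q))
        (((a ^ 2 / 2 + a : ℝ) : ℂ) * z ^ 3 + ((a ^ 2 / 2 : ℝ) : ℂ) * z ^ 4)
  have c2 := norm_add_le ((gz K z - P) * Complex.exp (a * z)) (P * (Complex.exp (a * z) - Q))
  have c3 := norm_add_le (((a ^ 2 / 2 + a : ℝ) : ℂ) * z ^ 3) (((a ^ 2 / 2 : ℝ) : ℂ) * z ^ 4)
  have c4 : ‖z‖ ^ 3 ≤ M ^ 3 * ‖z‖ ^ 3 := le_mul_of_one_le_left z3 hM3
  linarith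

/-- the local integral of two functions -/
lemma int_E4 (hM : 1 ≤ M) {f h : ℂ → ℂ} {κ d d' r : ℝ} (hr : 0 < r) (hr1 : r ≤ 1 / (200 * M ^ 3)) (hf : E4 M f κ d)
    (hh : E4 M h κ d') (fc : Continuous f) (hc : Continuous h) (c1 : |κ| ≤ 50 * M ^ 3) (d1 : |d| ≤ 50 * M ^ 3)
    (d2 : |d'| ≤ 50 * M ^ 3) :
    ‖∫ z, f z * starRingEnd ℂ (h z) ∂(cm r) - ((Real.exp (κ ^ 2 * r ^ 2) : ℝ) : ℂ)‖ ≤ 750000 * M ^ 9 * r ^ 3 := by
  have hM3 : 1 ≤ M ^ 3 := one_le_pow₀ hM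
  set B := 50 * M ^ 3 with hB
  have hB50 : 50 ≤ B := by rw [hB]; linarith
  have hBr : B * r ≤ 1 / 4 := by
    rw [le_div_iff₀ (by positivity)] at hr1
    rw [hB]; linarith
  have hcj : Continuous fun z => starRingEnd ℂ (h z) := Complex.continuous_conj.comp hc
  have h1 : ∫ z, f z * starRingEnd ℂ (h z) ∂(cm r) - ((Real.exp (κ ^ 2 * r ^ 2) : ℝ) : ℂ) =
      (∫ z, (f z * starRingEnd ℂ (h z) - (1 + (κ:ℂ) * z + d * z ^ 2) *
        starRingEnd ℂ (1 + (κ:ℂ) * z + d' * z ^ 2)) ∂(cm r)) + ((d * d' * r ^ 4 : ℝ) : ℂ) -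
      ((Real.exp (κ ^ 2 * r ^ 2) - 1 - κ ^ 2 * r ^ 2 : ℝ) : ℂ) := by
    have i1 : Integrable (fun z => f z * starRingEnd ℂ (h z)) (cm r) := cm_integrable hr (fc.mul hcj)
    have i2 : Integrable (fun z : ℂ => (1 + (κ:ℂ) * z + d * z ^ 2) *
        starRingEnd ℂ (1 + (κ:ℂ) * z + d' * z ^ 2)) (cm r) := cm_integrable hr (by fun_prop)
    rw [integral_sub i1 i2, P_int hr]
    push_cast
    ring
  rw [h1]
  have r3 : 0 ≤ r ^ 3 := by positivity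
  have h2 : ‖∫ z, (f z * starRingEnd ℂ (h z) - (1 + (κ:ℂ) * z + d * z ^ 2) *
        starRingEnd ℂ (1 + (κ:ℂ) * z + d' * z ^ 2)) ∂(cm r)‖ ≤ 4 * B * r ^ 3 := by
    have h3 : ∀ᵐ z ∂(cm r), ‖f z * starRingEnd ℂ (h z) - (1 + (κ:ℂ) * z + d * z ^ 2) *
        starRingEnd ℂ (1 + (κ:ℂ) * z + d' * z ^ 2)‖ ≤ 4 * B * r ^ 3 := by
      filter_upwards [cm_norm hr] with z hz
      have hz1 : ‖z‖ ≤ 1 / (200 * M ^ 3) := by rw [hz]; exact hr1
      have a1 := hf z hz1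
      have a2 := hh z hz1
      have a3 := (E4_norm hM hh c1 d2 hz1).1
      have a4 := (E4_norm hM hf c1 d1 hz1).2
      have e : f z * starRingEnd ℂ (h z) - (1 + (κ:ℂ) * z + d * z ^ 2) *
        starRingEnd ℂ (1 + (κ:ℂ) * z + d' * z ^ 2) = (f z - (1 + (κ:ℂ) * z + d * z ^ 2)) * starRingEnd ℂ (h z) +
        (1 + (κ:ℂ) * z + d * z ^ 2) * starRingEnd ℂ (h z - (1 + (κ:ℂ) * z + d' * z ^ 2)) := by
        rw [map_sub]; ring
      rw [e]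
      refine (norm_add_le _ _).trans ?_
      rw [norm_mul, norm_mul, RCLike.norm_conj, RCLike.norm_conj]
      rw [hz, ← hB] at a1 a2
      calc _ ≤ (B * r ^ 3) * 2 + 2 * (B * r ^ 3) := add_le_add
            (mul_le_mul a1 a3 (norm_nonneg _) (by positivity)) (mul_le_mul a4 a2 (norm_nonneg _) (by norm_num))
        _ = 4 * B * r ^ 3 := by ring
    refine (norm_integral_le_of_norm_le_const h3).trans ?_
    simp
  have hB2 : B ≤ B ^ 3 := le_self_pow₀ (by linarith) (by norm_num)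
  have h4 : ‖((d * d' * r ^ 4 : ℝ) : ℂ)‖ ≤ B * r ^ 3 := by
    rw [Complex.norm_real, Real.norm_eq_abs, abs_mul, abs_mul, abs_of_nonneg (by positivity : 0 ≤ r ^ 4)]
    calc |d| * |d'| * r ^ 4 ≤ B * B * r ^ 4 := by gcongr
      _ = (B * r) * (B * r ^ 3) := by ring
      _ ≤ 1 * (B * r ^ 3) := mul_le_mul_of_nonneg_right (by linarith) (by positivity)
      _ = _ := one_mul _
  have hκr : |κ * r| ≤ 1 / 4 := by
    rw [abs_mul, abs_of_pos hr]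
    exact (mul_le_mul_of_nonneg_right c1 hr.le).trans hBr
  have h5 : ‖((Real.exp (κ ^ 2 * r ^ 2) - 1 - κ ^ 2 * r ^ 2 : ℝ) : ℂ)‖ ≤ B ^ 3 * r ^ 3 := by
    have h6 : ‖κ ^ 2 * r ^ 2‖ ≤ 1 := by
      rw [Real.norm_of_nonneg (by positivity), ← mul_pow, ← sq_abs]
      exact pow_le_one₀ (abs_nonneg _) (by linarith)
    have h7 := Real.norm_exp_sub_one_sub_id_le h6
    rw [Complex.norm_real]
    refine h7.trans ?_
    rw [Real.norm_of_nonneg (by positivity)]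
    have e : (κ ^ 2 * r ^ 2) ^ 2 = |κ * r| * (|κ| ^ 3 * r ^ 3) := by
      rw [abs_mul, abs_of_pos hr]
      have : |κ| ^ 4 = κ ^ 4 := by rw [← abs_pow]; exact abs_of_nonneg (by positivity)
      calc (κ ^ 2 * r ^ 2) ^ 2 = κ ^ 4 * r ^ 4 := by ring
        _ = |κ| ^ 4 * r ^ 4 := by rw [this]
        _ = _ := by ring
    rw [e]
    calc |κ * r| * (|κ| ^ 3 * r ^ 3) ≤ 1 * (B ^ 3 * r ^ 3) := by
          refine mul_le_mul (by linarith) ?_ (by positivity) (by norm_num)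
          gcongr
      _ = _ := one_mul _
  have h8 := norm_sub_le ((∫ z, (f z * starRingEnd ℂ (h z) - (1 + (κ:ℂ) * z + d * z ^ 2) *
        starRingEnd ℂ (1 + (κ:ℂ) * z + d' * z ^ 2)) ∂(cm r)) + ((d * d' * r ^ 4 : ℝ) : ℂ))
      ((Real.exp (κ ^ 2 * r ^ 2) - 1 - κ ^ 2 * r ^ 2 : ℝ) : ℂ)
  have h9 := norm_add_le (∫ z, (f z * starRingEnd ℂ (h z) - (1 + (κ:ℂ) * z + d * z ^ 2) *
        starRingEnd ℂ (1 + (κ:ℂ) * z + d' * z ^ 2)) ∂(cm r)) ((d * d' * r ^ 4 : ℝ) : ℂ)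
  have h10 : 5 * B * r ^ 3 ≤ 5 * B ^ 3 * r ^ 3 := by gcongr
  have h11 : 6 * B ^ 3 * r ^ 3 = 750000 * M ^ 9 * r ^ 3 := by rw [hB]; ring
  linarith

/-- large primes -/
def BgM (M : ℝ) (I : Finset ℕ) : Prop := ∀ p ∈ I, p.Prime ∧ 40000 * M ^ 6 ≤ (p:ℝ)

lemma BgM.bg (hM : 1 ≤ M) {I : Finset ℕ} (h : BgM M I) : Bg I := by
  intro p hp
  refine ⟨(h p hp).1, ?_⟩
  have h1 : 1 ≤ M ^ 6 := one_le_pow₀ hM
  have h2 : (1000:ℝ) ≤ p := by linarith [(h p hp).2]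
  exact_mod_cast h2

lemma rp_smallM (hM : 1 ≤ M) {δ : ℝ} (hδ : 0 ≤ δ) {p : ℕ} (hp : 40000 * M ^ 6 ≤ (p:ℝ)) :
    rp δ p ≤ 1 / (200 * M ^ 3) := by
  have h0 : (0:ℝ) < p := lt_of_lt_of_le (by positivity) hp
  have h1 := rp_sq_le hδ (p := p) (by exact_mod_cast h0)
  have h2 : 1 / (p:ℝ) ≤ (1 / (200 * M ^ 3)) ^ 2 := by
    rw [div_pow, one_pow]
    refine one_div_le_one_div_of_le (by positivity) (le_trans (le_of_eq ?_) hp)
    ring
  exact (sq_le_sq₀ (rp_nonneg δ p) (by positivity)).mp (h1.trans h2)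

/-- products of functions of one variable -/
theorem tm_pairM (hM : 1 ≤ M) {δ : ℝ} (hδ : 0 ≤ δ) {I : Finset ℕ} (hI : BgM M I) {f h : ℂ → ℂ} {κ d d' : ℝ}
    (hf : E4 M f κ d) (hh : E4 M h κ d') (fc : Continuous f) (hc : Continuous h) (c1 : |κ| ≤ 50 * M ^ 3)
    (d1 : |d| ≤ 50 * M ^ 3) (d2 : |d'| ≤ 50 * M ^ 3) :
    ‖∫ ω, (∏ p : I, f (ω p)) * starRingEnd ℂ (∏ p : I, h (ω p)) ∂(tm δ I) -
      ((Real.exp (κ ^ 2 * vd δ I) : ℝ) : ℂ)‖ ≤ (Real.exp (750000 * M ^ 9 * uI I) - 1) * Real.exp (κ ^ 2 * vd δ I) := by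
  have e1 : ∀ ω : I → ℂ, (∏ p : I, f (ω p)) * starRingEnd ℂ (∏ p : I, h (ω p)) =
      ∏ p : I, (fun (_ : I) (z : ℂ) => f z * starRingEnd ℂ (h z)) p (ω p) := by
    intro ω
    rw [map_prod, ← prod_mul_distrib]
  rw [integral_congr_ae (ae_of_all _ e1),
    tm_prod (δ := δ) (fun (_ : I) (z : ℂ) => f z * starRingEnd ℂ (h z))]
  have e2 : Real.exp (κ ^ 2 * vd δ I) = ∏ p : I, Real.exp (κ ^ 2 * rp δ p ^ 2) := by
    rw [← Real.exp_sum, ← mul_sum]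
    unfold vd
    rw [← Finset.sum_coe_sort I (fun p => rp δ p ^ 2)]
  have e3 : ∑ p : I, 750000 * M ^ 9 * rp δ p ^ 3 ≤ 750000 * M ^ 9 * uI I := by
    rw [← mul_sum, Finset.sum_coe_sort I (fun p => rp δ p ^ 3)]
    exact mul_le_mul_of_nonneg_left (cube_le hδ (hI.bg hM)) (by positivity)
  rw [e2]
  refine (prod_close univ (e := fun p : I => 750000 * M ^ 9 * rp δ p ^ 3) (fun p _ => (Real.exp_pos _).le)
    (fun p _ => by have := rp_nonneg δ p; positivity) (fun p _ => ?_)).trans ?_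
  · have hp := hI p p.2
    have h1 := int_E4 hM (rp_pos δ hp.1) (rp_smallM hM hδ hp.2) hf hh fc hc c1 d1 d2
    refine h1.trans ?_
    have h2 : 1 ≤ Real.exp (κ ^ 2 * rp δ p ^ 2) := Real.one_le_exp (by positivity)
    have h3 : 0 ≤ 750000 * M ^ 9 * rp δ p ^ 3 := by have := rp_nonneg δ p; positivity
    exact le_mul_of_one_le_right h3 h2
  · refine mul_le_mul_of_nonneg_right ?_ (prod_nonneg fun _ _ => (Real.exp_pos _).le)
    have := Real.exp_le_exp.mpr e3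
    linarith

/-- exponential moments -/
lemma EM_linM (hM : 1 ≤ M) {δ : ℝ} (hδ : 0 ≤ δ) {I : Finset ℕ} (hI : BgM M I) {w : ℂ → ℝ} (hw : Continuous w)
    (h0 : ∀ z, 0 ≤ w z) {s : ℝ} (hs : |s| ≤ 1) (hle : ∀ z, ‖z‖ ≤ 1 / 16 → w z ≤ Real.exp (2 * s * z.re + 4 * ‖z‖ ^ 2))
    {c : ℂ} (hc : ‖c‖ ≤ 12 * M) :
    ∫ ω, (∏ p : I, w (ω p)) * Real.exp ((c * ∑ p : I, ω p).re) ∂(tm δ I) ≤
      Real.exp (53 * M ^ 2 * vd δ I + 2744 * M ^ 3 * uI I) := by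
  have hM0 : 0 < M := by linarith
  have e1 : ∀ ω : I → ℂ, (∏ p : I, w (ω p)) * Real.exp ((c * ∑ p : I, ω p).re) =
      ∏ p : I, (fun (_ : I) (z : ℂ) => w z * Real.exp ((c * z).re)) p (ω p) := by
    intro ω
    rw [prod_mul_distrib, mul_sum, Complex.re_sum, Real.exp_sum]
  rw [integral_congr_ae (ae_of_all _ e1),
    tm_prod_real (δ := δ) (fun (_ : I) (z : ℂ) => w z * Real.exp ((c * z).re))]
  have h1 : ∀ p : I, ∫ z, w z * Real.exp ((c * z).re) ∂(cm (rp δ p)) ≤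
      Real.exp (53 * M ^ 2 * rp δ p ^ 2 + 2744 * M ^ 3 * rp δ p ^ 3) := by
    intro p
    have hp := hI p p.2
    set r := rp δ p with hr
    have hr0 : 0 < r := rp_pos δ hp.1
    have hr2 : r ≤ 1 / (200 * M ^ 3) := rp_smallM hM hδ hp.2
    have hr1 : r ≤ 1 / 200 := hr2.trans (r0_le hM)
    have hMr := M_r0 hM hr2
    set c' : ℂ := c + ((2 * s : ℝ) : ℂ) with hc'
    have hcn : ‖c'‖ ≤ 14 * M := by
      refine (norm_add_le _ _).trans ?_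
      rw [Complex.norm_real, Real.norm_eq_abs, abs_mul]
      norm_num
      linarith
    have h2 : ∫ z, w z * Real.exp ((c * z).re) ∂(cm r) ≤ ∫ z, Real.exp (4 * r ^ 2) * Real.exp ((c' * z).re) ∂(cm r) := by
      refine integral_mono_ae (cm_integrable hr0 (by fun_prop)) (cm_integrable hr0 (by fun_prop)) ?_
      filter_upwards [cm_norm hr0] with z hz
      have h3 := hle z (by rw [hz]; linarith)
      rw [hz] at h3
      calc w z * Real.exp ((c * z).re) ≤ Real.exp (2 * s * z.re + 4 * r ^ 2) * Real.exp ((c * z).re) :=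
            mul_le_mul_of_nonneg_right h3 (Real.exp_pos _).le
        _ = Real.exp (4 * r ^ 2) * Real.exp ((c' * z).re) := by
            rw [← Real.exp_add, ← Real.exp_add]
            congr 1
            rw [hc', add_mul, Complex.add_re, Complex.re_ofReal_mul]
            ring
    refine h2.trans ?_
    rw [integral_const_mul]
    have h4 := single_exp (μ := cm r) hr0 le_rfl (cm_norm hr0) (cm_mom' hr0) (c := c')
      (by
        calc ‖c'‖ * r ≤ 14 * M * r := mul_le_mul_of_nonneg_right hcn hr0.le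
          _ = 14 * (M * r) := by ring
          _ ≤ 1 := by linarith)
    have h5 : Real.exp (c'.re * (r * 0) + ‖c'‖ ^ 2 * r ^ 2 / 4 + ‖c'‖ ^ 2 * (r * 0) ^ 2 / 4 + ‖c'‖ ^ 3 * r ^ 3) ≤
        Real.exp (49 * M ^ 2 * r ^ 2 + 2744 * M ^ 3 * r ^ 3) := by
      refine Real.exp_le_exp.mpr ?_
      have a1 : ‖c'‖ ^ 2 ≤ (14 * M) ^ 2 := pow_le_pow_left₀ (norm_nonneg _) hcn 2
      have a2 : ‖c'‖ ^ 3 ≤ (14 * M) ^ 3 := pow_le_pow_left₀ (norm_nonneg _) hcn 3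
      have a3 : ‖c'‖ ^ 2 * r ^ 2 ≤ (14 * M) ^ 2 * r ^ 2 := mul_le_mul_of_nonneg_right a1 (by positivity)
      have a4 : ‖c'‖ ^ 3 * r ^ 3 ≤ (14 * M) ^ 3 * r ^ 3 := mul_le_mul_of_nonneg_right a2 (by positivity)
      simp only [mul_zero]
      norm_num
      linarith
    have h6 : 4 * r ^ 2 ≤ 4 * M ^ 2 * r ^ 2 := by
      have : 1 ≤ M ^ 2 := one_le_pow₀ hM
      have h7 : 0 ≤ r ^ 2 := by positivity
      nlinarith
    calc _ ≤ Real.exp (4 * M ^ 2 * r ^ 2) * Real.exp (49 * M ^ 2 * r ^ 2 + 2744 * M ^ 3 * r ^ 3) :=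
          mul_le_mul (Real.exp_le_exp.mpr h6) (h4.trans h5) (integral_nonneg fun z => (Real.exp_pos _).le) (Real.exp_pos _).le
      _ = _ := by rw [← Real.exp_add]; congr 1; ring
  have h6 : ∀ p : I, 0 ≤ ∫ z, w z * Real.exp ((c * z).re) ∂(cm (rp δ p)) := fun p =>
    integral_nonneg fun z => mul_nonneg (h0 z) (Real.exp_pos _).le
  refine (prod_le_prod (fun p _ => h6 p) (fun p _ => h1 p)).trans ?_
  rw [← Real.exp_sum, sum_add_distrib, ← mul_sum, ← mul_sum]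
  refine Real.exp_le_exp.mpr ?_
  rw [Finset.sum_coe_sort I (fun p => rp δ p ^ 2), Finset.sum_coe_sort I (fun p => rp δ p ^ 3)]
  have := mul_le_mul_of_nonneg_left (cube_le hδ (hI.bg hM)) (by positivity : 0 ≤ 2744 * M ^ 3)
  unfold vd
  linarith

lemma EM_wM (hM : 1 ≤ M) {δ : ℝ} (hδ : 0 ≤ δ) {I : Finset ℕ} (hI : BgM M I) {w : ℂ → ℝ} (hw : Continuous w)
    (h0 : ∀ z, 0 ≤ w z) {s : ℝ} (hs : |s| ≤ 1)
    (hle : ∀ z, ‖z‖ ≤ 1 / 16 → w z ≤ Real.exp (2 * s * z.re + 4 * ‖z‖ ^ 2)) :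
    ∫ ω, (∏ p : I, w (ω p)) * Real.exp (8 * M * ‖∑ p : I, ω p‖) ∂(tm δ I) ≤
      4 * Real.exp (53 * M ^ 2 * vd δ I + 2744 * M ^ 3 * uI I) := by
  have hP : ∀ p ∈ I, p.Prime := fun p hp => (hI p hp).1
  have hM0 : 0 < M := by linarith
  have hwc : Continuous fun ω : I → ℂ => ∏ p : I, w (ω p) :=
    continuous_finsetProd _ fun p _ => hw.comp (continuous_apply p)
  have hi : ∀ c : ℂ, Integrable (fun ω : I → ℂ => (∏ p : I, w (ω p)) * Real.exp ((c * ∑ p : I, ω p).re)) (tm δ I) :=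
    fun c => tm_integrable hP (hwc.mul (by fun_prop))
  have hn : ∀ c : ℂ, ‖c‖ ≤ 12 → ‖c * M‖ ≤ 12 * M := fun c hc => by
    rw [norm_mul, Complex.norm_real, Real.norm_of_nonneg hM0.le]
    exact mul_le_mul_of_nonneg_right hc hM0.le
  have h1 : ∫ ω, (∏ p : I, w (ω p)) * Real.exp (8 * M * ‖∑ p : I, ω p‖) ∂(tm δ I) ≤
      ∫ ω, ((∏ p : I, w (ω p)) * Real.exp (((((8:ℂ) - 8 * Complex.I) * M) * ∑ p : I, ω p).re) +
        (∏ p : I, w (ω p)) * Real.exp (((((8:ℂ) + 8 * Complex.I) * M) * ∑ p : I, ω p).re) +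
        (∏ p : I, w (ω p)) * Real.exp (((((-8:ℂ) - 8 * Complex.I) * M) * ∑ p : I, ω p).re) +
        (∏ p : I, w (ω p)) * Real.exp (((((-8:ℂ) + 8 * Complex.I) * M) * ∑ p : I, ω p).re)) ∂(tm δ I) := by
    refine integral_mono (tm_integrable hP (hwc.mul (by fun_prop))) ((((hi _).add (hi _)).add (hi _)).add (hi _))
      fun ω => ?_
    simp only
    rw [← mul_add, ← mul_add, ← mul_add]
    refine mul_le_mul_of_nonneg_left ?_ (prod_nonneg fun p _ => h0 _)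
    have h2 := norm_exp8_le ((M:ℂ) * ∑ p : I, ω p)
    rw [norm_mul, Complex.norm_real, Real.norm_of_nonneg hM0.le, ← mul_assoc] at h2
    simp only [← mul_assoc] at h2 ⊢
    exact h2
  refine h1.trans ?_
  have j1 := (hi (((8:ℂ) - 8 * Complex.I) * M)).add (hi (((8:ℂ) + 8 * Complex.I) * M))
  have j2 := j1.add (hi (((-8:ℂ) - 8 * Complex.I) * M))
  have s1 := integral_add j2 (hi (((-8:ℂ) + 8 * Complex.I) * M))
  have s2 := integral_add j1 (hi (((-8:ℂ) - 8 * Complex.I) * M))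
  have s3 := integral_add (hi (((8:ℂ) - 8 * Complex.I) * M)) (hi (((8:ℂ) + 8 * Complex.I) * M))
  simp only [Pi.add_apply] at s1 s2 s3
  rw [s1, s2, s3]
  have k1 := EM_linM hM hδ hI hw h0 hs hle (hn _ (norm88 ((8:ℂ) - 8 * Complex.I) (by norm_num) (by norm_num)))
  have k2 := EM_linM hM hδ hI hw h0 hs hle (hn _ (norm88 ((8:ℂ) + 8 * Complex.I) (by norm_num) (by norm_num)))
  have k3 := EM_linM hM hδ hI hw h0 hs hle (hn _ (norm88 ((-8:ℂ) - 8 * Complex.I) (by norm_num) (by norm_num)))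
  have k4 := EM_linM hM hδ hI hw h0 hs hle (hn _ (norm88 ((-8:ℂ) + 8 * Complex.I) (by norm_num) (by norm_num)))
  linarith

/-- the bound for the exponential moments -/
noncomputable def CEM (M c : ℝ) : ℝ := 8 * Real.exp (2800 * M ^ 3 * c)

lemma CEM_pos (M c : ℝ) : 0 < CEM M c := by unfold CEM; positivity

theorem EM_M (hM : 1 ≤ M) {δ c : ℝ} (hδ : 0 ≤ δ) {I : Finset ℕ} (hI : BgM M I) (hv : vI I ≤ c) (hu : uI I ≤ c) {K : ℕ}
    (hK : 2 ≤ K) :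
    ∫ ω, (1 + ‖Gt K I ω‖ ^ 2) * Real.exp (8 * M * ‖∑ p : I, ω p‖) ∂(tm δ I) ≤ CEM M c := by
  have hP : ∀ p ∈ I, p.Prime := fun p hp => (hI p hp).1
  have h1 := EM_wM hM hδ hI (w := fun _ => 1) continuous_const (fun _ => zero_le_one) (s := 0) (by simp)
    (fun z _ => Real.one_le_exp (by rw [mul_zero, zero_mul, zero_add]; positivity))
  have h2 := EM_wM hM hδ hI (w := fun z => ‖gz K z‖ ^ 2) ((gz_cont K).norm.pow 2) (fun _ => by positivity) (s := 1)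
    (by simp) (fun z hz => gz_sq_le hK hz)
  simp only [prod_const_one, one_mul] at h1
  have e1 : ∀ ω : I → ℂ, ‖Gt K I ω‖ ^ 2 = ∏ p : I, ‖gz K (ω p)‖ ^ 2 := by
    intro ω
    unfold Gt
    rw [norm_prod, prod_pow]
  have hv0 : vd δ I ≤ c := (vd_le hδ (hI.bg hM)).trans hv
  have hc0 : 0 ≤ c := (uI_nonneg I).trans hu
  have h3 : Real.exp (53 * M ^ 2 * vd δ I + 2744 * M ^ 3 * uI I) ≤ Real.exp (2800 * M ^ 3 * c) := by
    refine Real.exp_le_exp.mpr ?_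
    have a1 : M ^ 2 * vd δ I ≤ M ^ 3 * c :=
      mul_le_mul (pow_le_pow_right₀ hM (by norm_num)) hv0 (vd_nonneg _ _) (by positivity)
    have a2 : M ^ 3 * uI I ≤ M ^ 3 * c := mul_le_mul_of_nonneg_left hu (by positivity)
    have a3 : 0 ≤ M ^ 3 * c := by positivity
    linarith
  have j1 : Integrable (fun ω : I → ℂ => Real.exp (8 * M * ‖∑ p : I, ω p‖)) (tm δ I) :=
    tm_integrable hP (by fun_prop)
  have j2 : Integrable (fun ω : I → ℂ => (∏ p : I, ‖gz K (ω p)‖ ^ 2) * Real.exp (8 * M * ‖∑ p : I, ω p‖)) (tm δ I) := by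
    refine tm_integrable hP (Continuous.mul ?_ (by fun_prop))
    exact continuous_finsetProd _ fun p _ => ((gz_cont K).comp (continuous_apply p)).norm.pow 2
  have e2 : ∀ ω : I → ℂ, (1 + ‖Gt K I ω‖ ^ 2) * Real.exp (8 * M * ‖∑ p : I, ω p‖) =
      Real.exp (8 * M * ‖∑ p : I, ω p‖) + (∏ p : I, ‖gz K (ω p)‖ ^ 2) * Real.exp (8 * M * ‖∑ p : I, ω p‖) := by
    intro ω; rw [e1]; ring
  simp_rw [e2]
  rw [integral_add j1 j2]
  unfold CEM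
  linarith

end

end Pool.Agent.Y755
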