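import Pool.Agent.Y755.Gm1

set_option autoImplicit false

/-! The inner products of one block, general exponents. -/

namespace Pool.Agent.Y755

open Finset Filter MeasureTheory MonoidAlgebra
open Pool.Agent.W184.NZ

section

variable {M : ℕ}

lemma NK_scale (hM : 1 ≤ M) (K : ℕ) (a : ℝ) (z : ℂ) : NK K a z = NK K (a / M) (M * z) := by
  have hM0 : (M:ℂ) ≠ 0 := by exact_mod_cast (by omega : M ≠ 0)
  rw [NK_eq, NK_eq]
  refine sum_congr rfl fun m _ => ?_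
  congr 2
  push_cast
  field_simp

lemma abs_div_M (hM : 1 ≤ M) {a : ℝ} (ha : |a| ≤ 2 * M) : |a / M| ≤ 2 := by
  have hM0 : (0:ℝ) < M := by exact_mod_cast hM
  rw [abs_div, abs_of_pos hM0, div_le_iff₀ hM0]; exact ha

lemma norm_Mz (z : ℂ) : ‖(M:ℂ) * z‖ = M * ‖z‖ := by
  rw [norm_mul, Complex.norm_natCast]

lemma exp_Mz (hM : 1 ≤ M) (a : ℝ) (z : ℂ) : (((a / M : ℝ) : ℂ) * (M * z)) = a * z := by
  have hM0 : (M:ℂ) ≠ 0 := by exact_mod_cast (by omega : M ≠ 0)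
  push_cast
  field_simp

lemma cl_M (hM : 1 ≤ M) {R : ℕ} (hR : 1 ≤ R) {a : ℝ} (ha : |a| ≤ 2 * M) : Cl (20 * (M * R)) a R := by
  intro z hz
  have hM1 : (1:ℝ) ≤ M := by exact_mod_cast hM
  have h1 := cl_two (R := M * R) (Nat.mul_pos hM hR) (abs_div_M hM ha)
  have h2 := h1 (M * z) (by
    rw [norm_Mz]; push_cast
    exact mul_le_mul_of_nonneg_left hz (by linarith))
  rw [exp_Mz hM, ← NK_scale hM] at h2
  refine h2.trans (mul_le_mul_of_nonneg_right (Real.exp_le_exp.mpr ?_) (norm_nonneg _))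
  push_cast
  have : (0:ℝ) ≤ R := Nat.cast_nonneg R
  nlinarith

lemma NK_norm_leM (hM : 1 ≤ M) (K : ℕ) {a : ℝ} (ha : |a| ≤ 2 * M) (z : ℂ) : ‖NK K a z‖ ≤ Real.exp (2 * M * ‖z‖) := by
  rw [NK_scale hM]
  refine (NK_norm_le2 K (abs_div_M hM ha) _).trans (le_of_eq ?_)
  rw [norm_Mz]; ring_nf

lemma exp_norm_leM (hM : 1 ≤ M) {a : ℝ} (ha : |a| ≤ 2 * M) (z : ℂ) : ‖Complex.exp (a * z)‖ ≤ Real.exp (2 * M * ‖z‖) := by
  rw [← exp_Mz hM]
  refine (exp_norm_le2 (abs_div_M hM ha) _).trans (le_of_eq ?_)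
  rw [norm_Mz]; ring_nf

lemma rho_leM (hM : 1 ≤ M) {R : ℕ} (hR : 1 ≤ R) {a : ℝ} (ha : |a| ≤ 2 * M) (z : ℂ) :
    ‖NK (20 * (M * R)) a z - Complex.exp (a * z)‖ ≤ 2 * Real.exp (-(R:ℝ)) * Real.exp (3 * M * ‖z‖) := by
  have hM1 : (1:ℝ) ≤ M := by exact_mod_cast hM
  rw [NK_scale hM, ← exp_Mz hM]
  refine (rho_le (R := M * R) (Nat.mul_pos hM hR) (abs_div_M hM ha) _).trans ?_
  rw [norm_Mz]
  have h1 : Real.exp (-((M * R : ℕ) : ℝ)) ≤ Real.exp (-(R:ℝ)) := by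
    refine Real.exp_le_exp.mpr ?_
    push_cast
    have : (0:ℝ) ≤ R := Nat.cast_nonneg R
    nlinarith
  have e : 3 * ((M:ℝ) * ‖z‖) = 3 * M * ‖z‖ := by ring
  rw [e]
  gcongr

/-- the error of a block -/
noncomputable def ebM (M : ℕ) (c : ℝ) (I : Finset ℕ) (R : ℕ) : ℝ :=
  (Real.exp (750000 * (M:ℝ) ^ 9 * uI I) - 1) + 4 * CEM M c * Real.exp (-(R:ℝ))

lemma ebM_nonneg (M : ℕ) (c : ℝ) (I : Finset ℕ) (R : ℕ) : 0 ≤ ebM M c I R := by
  unfold ebM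
  have h1 : 1 ≤ Real.exp (750000 * (M:ℝ) ^ 9 * uI I) := Real.one_le_exp (by have := uI_nonneg I; positivity)
  have := CEM_pos M c
  have : 0 ≤ 4 * CEM M c * Real.exp (-(R:ℝ)) := by positivity
  linarith

end

section

variable {M : ℕ} {δ c : ℝ} {I : Finset ℕ} {K R : ℕ} {a : ℝ}

/-- general comparison of the truncated and the full exponentials -/
theorem blk_genM (hM : 1 ≤ M) (hδ : 0 ≤ δ) (hI : BgM M I) (hv : vI I ≤ c) (hu : uI I ≤ c) (hK : 2 ≤ K) (hR : 1 ≤ R)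
    {a b κ : ℝ} (ha : |a| ≤ 2 * M) (hb : |b| ≤ 2 * M) (F H : (I → ℂ) → ℂ) (hF : Continuous F) (hH : Continuous H)
    (hF1 : ∀ ω, ‖F ω‖ * ‖H ω‖ ≤ 1 + ‖Gt K I ω‖ ^ 2)
    (hmain : ‖∫ ω, (F ω * Complex.exp (a * ∑ p : I, ω p)) * starRingEnd ℂ (H ω * Complex.exp (b * ∑ p : I, ω p))
      ∂(tm δ I) - ((Real.exp (κ ^ 2 * vd δ I) : ℝ) : ℂ)‖ ≤
      (Real.exp (750000 * (M:ℝ) ^ 9 * uI I) - 1) * Real.exp (κ ^ 2 * vd δ I)) :
    ‖∫ ω, (F ω * NK (20 * (M * R)) a (∑ p : I, ω p)) * starRingEnd ℂ (H ω * NK (20 * (M * R)) b (∑ p : I, ω p))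
      ∂(tm δ I) - ((Real.exp (κ ^ 2 * vd δ I) : ℝ) : ℂ)‖ ≤ ebM M c I R * Real.exp (κ ^ 2 * vd δ I) := by
  have hP : ∀ p ∈ I, p.Prime := fun p hp => (hI p hp).1
  have hM1 : (1:ℝ) ≤ M := by exact_mod_cast hM
  have hNc : ∀ a : ℝ, Continuous fun ω : I → ℂ => NK (20 * (M * R)) a (∑ p : I, ω p) := by
    intro a
    unfold NK
    fun_prop
  have c1 : Continuous fun ω : I → ℂ => (F ω * NK (20 * (M * R)) a (∑ p : I, ω p)) *
      starRingEnd ℂ (H ω * NK (20 * (M * R)) b (∑ p : I, ω p)) :=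
    (hF.mul (hNc a)).mul (Complex.continuous_conj.comp (hH.mul (hNc b)))
  have c2 : Continuous fun ω : I → ℂ => (F ω * Complex.exp (a * ∑ p : I, ω p)) *
      starRingEnd ℂ (H ω * Complex.exp (b * ∑ p : I, ω p)) := by
    refine (hF.mul (by fun_prop)).mul (Complex.continuous_conj.comp (hH.mul (by fun_prop)))
  have h1 : ‖(∫ ω, (F ω * NK (20 * (M * R)) a (∑ p : I, ω p)) * starRingEnd ℂ (H ω * NK (20 * (M * R)) b (∑ p : I, ω p))
      ∂(tm δ I)) - ∫ ω, (F ω * Complex.exp (a * ∑ p : I, ω p)) *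
      starRingEnd ℂ (H ω * Complex.exp (b * ∑ p : I, ω p)) ∂(tm δ I)‖ ≤ 4 * CEM M c * Real.exp (-(R:ℝ)) := by
    rw [← integral_sub (tm_integrable hP c1) (tm_integrable hP c2)]
    have hb2 : ∀ ω : I → ℂ, ‖(F ω * NK (20 * (M * R)) a (∑ p : I, ω p)) *
        starRingEnd ℂ (H ω * NK (20 * (M * R)) b (∑ p : I, ω p)) -
        (F ω * Complex.exp (a * ∑ p : I, ω p)) * starRingEnd ℂ (H ω * Complex.exp (b * ∑ p : I, ω p))‖ ≤
        4 * Real.exp (-(R:ℝ)) * ((1 + ‖Gt K I ω‖ ^ 2) * Real.exp (8 * M * ‖∑ p : I, ω p‖)) := by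
      intro ω
      set Z := ∑ p : I, ω p with hZ
      have hZ0 := norm_nonneg Z
      have hMZ : 0 ≤ (M:ℝ) * ‖Z‖ := by positivity
      have e1 : (F ω * NK (20 * (M * R)) a Z) * starRingEnd ℂ (H ω * NK (20 * (M * R)) b Z) -
        (F ω * Complex.exp (a * Z)) * starRingEnd ℂ (H ω * Complex.exp (b * Z)) =
        (F ω * starRingEnd ℂ (H ω)) * ((NK (20 * (M * R)) a Z - Complex.exp (a * Z)) * starRingEnd ℂ (NK (20 * (M * R)) b Z) +
          Complex.exp (a * Z) * starRingEnd ℂ (NK (20 * (M * R)) b Z - Complex.exp (b * Z))) := by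
        rw [map_mul, map_mul, map_sub]; ring
      rw [e1, norm_mul, norm_mul, RCLike.norm_conj]
      have h2 : ‖(NK (20 * (M * R)) a Z - Complex.exp (a * Z)) * starRingEnd ℂ (NK (20 * (M * R)) b Z) +
          Complex.exp (a * Z) * starRingEnd ℂ (NK (20 * (M * R)) b Z - Complex.exp (b * Z))‖ ≤
          4 * Real.exp (-(R:ℝ)) * Real.exp (8 * M * ‖Z‖) := by
        refine (norm_add_le _ _).trans ?_
        rw [norm_mul, norm_mul, RCLike.norm_conj, RCLike.norm_conj]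
        have a1 := rho_leM hM hR ha Z
        have a2 := rho_leM hM hR hb Z
        have a3 := NK_norm_leM hM (20 * (M * R)) hb Z
        have a4 := exp_norm_leM hM ha Z
        have x0 := Real.exp_pos (-(R:ℝ))
        have x1 : Real.exp (3 * M * ‖Z‖) * Real.exp (2 * M * ‖Z‖) ≤ Real.exp (8 * M * ‖Z‖) := by
          rw [← Real.exp_add]; exact Real.exp_le_exp.mpr (by linarith)
        calc _ ≤ (2 * Real.exp (-(R:ℝ)) * Real.exp (3 * M * ‖Z‖)) * Real.exp (2 * M * ‖Z‖) +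
              Real.exp (2 * M * ‖Z‖) * (2 * Real.exp (-(R:ℝ)) * Real.exp (3 * M * ‖Z‖)) := by gcongr
          _ = 4 * Real.exp (-(R:ℝ)) * (Real.exp (3 * M * ‖Z‖) * Real.exp (2 * M * ‖Z‖)) := by ring
          _ ≤ _ := by gcongr
      calc _ ≤ (1 + ‖Gt K I ω‖ ^ 2) * (4 * Real.exp (-(R:ℝ)) * Real.exp (8 * M * ‖Z‖)) :=
            mul_le_mul (hF1 ω) h2 (norm_nonneg _) (by positivity)
        _ = _ := by ring
    have hic : Continuous fun ω : I → ℂ => 4 * Real.exp (-(R:ℝ)) * ((1 + ‖Gt K I ω‖ ^ 2) *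
        Real.exp (8 * M * ‖∑ p : I, ω p‖)) :=
      continuous_const.mul ((continuous_const.add ((Gt_cont K I).norm.pow 2)).mul (by fun_prop))
    refine (norm_integral_le_of_norm_le (tm_integrable hP hic) (ae_of_all _ hb2)).trans ?_
    rw [integral_const_mul]
    have h3 := EM_M hM1 hδ hI hv hu hK
    have x0 := Real.exp_pos (-(R:ℝ))
    calc _ ≤ 4 * Real.exp (-(R:ℝ)) * CEM M c := mul_le_mul_of_nonneg_left h3 (by positivity)
      _ = _ := by ring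
  have h2 := norm_add_le ((∫ ω, (F ω * NK (20 * (M * R)) a (∑ p : I, ω p)) * starRingEnd ℂ (H ω * NK (20 * (M * R)) b (∑ p : I, ω p))
      ∂(tm δ I)) - ∫ ω, (F ω * Complex.exp (a * ∑ p : I, ω p)) *
      starRingEnd ℂ (H ω * Complex.exp (b * ∑ p : I, ω p)) ∂(tm δ I))
      ((∫ ω, (F ω * Complex.exp (a * ∑ p : I, ω p)) *
      starRingEnd ℂ (H ω * Complex.exp (b * ∑ p : I, ω p)) ∂(tm δ I)) - ((Real.exp (κ ^ 2 * vd δ I) : ℝ) : ℂ))
  rw [sub_add_sub_cancel] at h2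
  refine h2.trans ?_
  have h3 : 1 ≤ Real.exp (κ ^ 2 * vd δ I) := Real.one_le_exp (by have := vd_nonneg δ I; positivity)
  have h4 : 4 * CEM M c * Real.exp (-(R:ℝ)) ≤ 4 * CEM M c * Real.exp (-(R:ℝ)) * Real.exp (κ ^ 2 * vd δ I) :=
    le_mul_of_one_le_right (by have := CEM_pos M c; positivity) h3
  unfold ebM
  rw [add_mul]
  linarith

lemma k_absM (hM : 1 ≤ M) (ha : |a| ≤ M) : |a| ≤ 2 * M ∧ |1 + a| ≤ 2 * M ∧ |1 + a| ≤ 50 * (M:ℝ) ^ 3 ∧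
    |1 + a + a ^ 2 / 2| ≤ 50 * (M:ℝ) ^ 3 ∧ |(1 + a) ^ 2 / 2| ≤ 50 * (M:ℝ) ^ 3 := by
  have hM1 : (1:ℝ) ≤ M := by exact_mod_cast hM
  have h3 : (M:ℝ) ≤ (M:ℝ) ^ 3 := le_self_pow₀ hM1 (by norm_num)
  have h2 : (M:ℝ) ^ 2 ≤ (M:ℝ) ^ 3 := pow_le_pow_right₀ hM1 (by norm_num)
  have h0 : 1 ≤ (M:ℝ) ^ 3 := one_le_pow₀ hM1
  have ha2 : a ^ 2 ≤ (M:ℝ) ^ 2 := by
    have := pow_le_pow_left₀ (abs_nonneg a) ha 2
    rwa [sq_abs] at this
  obtain ⟨a1, a2⟩ := abs_le.mp ha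
  have hk : |1 + a| ≤ 2 * M := by rw [abs_le]; constructor <;> linarith
  refine ⟨by linarith [abs_nonneg a], hk, hk.trans (by linarith), ?_, ?_⟩
  · rw [abs_le]; constructor <;> nlinarith [sq_nonneg a]
  · rw [abs_of_nonneg (by positivity)]
    nlinarith

/-- the element with the zeta factor -/
noncomputable def AM (K M R : ℕ) (a : ℝ) (I : Finset ℕ) : P1 := GI K I * NK (20 * (M * R)) a (x1 I)

theorem blk1M (hM : 1 ≤ M) (hδ : 0 ≤ δ) (hI : BgM M I) (hv : vI I ≤ c) (hu : uI I ≤ c) (hK : 2 ≤ K) (hR : 1 ≤ R)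
    (ha : |a| ≤ M) :
    |ip δ (AM K M R a I) (AM K M R a I) - Real.exp ((1 + a) ^ 2 * vd δ I)| ≤
      ebM M c I R * Real.exp ((1 + a) ^ 2 * vd δ I) := by
  have hP : ∀ p ∈ I, p.Prime := fun p hp => (hI p hp).1
  have hM1 : (1:ℝ) ≤ M := by exact_mod_cast hM
  have hm : AM K M R a I ∈ SA1 (M1 I) := Subalgebra.mul_mem _ (GI_mem hP K) (NK_mem1 (x1_mem hP) _ _)
  obtain ⟨k0, k1, k2, k3, k4⟩ := k_absM hM ha
  refine re_close (ip_torus hP hm hm) ?_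
  have e1 : ∀ ω : I → ℂ, ph I ω (AM K M R a I) = Gt K I ω * NK (20 * (M * R)) a (∑ p : I, ω p) := by
    intro ω
    unfold AM
    rw [map_mul, ph_GI hP, NK_map, ph_x1 hP]
  simp_rw [e1]
  refine blk_genM hM hδ hI hv hu hK hR k0 k0 (Gt K I) (Gt K I) (Gt_cont K I) (Gt_cont K I)
    (fun ω => ?_) ?_
  · nlinarith [norm_nonneg (Gt K I ω)]
  · have h1 := tm_pairM hM1 hδ hI (E4_mul hM1 ha hK) (E4_mul hM1 ha hK)
      ((gz_cont K).mul (by fun_prop)) ((gz_cont K).mul (by fun_prop)) k2 k3 k3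
    have e2 : ∀ ω : I → ℂ, Gt K I ω * Complex.exp (a * ∑ p : I, ω p) = ∏ p : I, gz K (ω p) * Complex.exp (a * ω p) := by
      intro ω
      rw [expZ, Gt, prod_mul_distrib]
    simp_rw [e2]
    exact h1

theorem blk2M (hM : 1 ≤ M) (hδ : 0 ≤ δ) (hI : BgM M I) (hv : vI I ≤ c) (hu : uI I ≤ c) (hK : 2 ≤ K) (hR : 1 ≤ R)
    (ha : |a| ≤ M) :
    |ip δ (AM K M R a I) (NK (20 * (M * R)) (1 + a) (x1 I)) - Real.exp ((1 + a) ^ 2 * vd δ I)| ≤
      ebM M c I R * Real.exp ((1 + a) ^ 2 * vd δ I) := by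
  have hP : ∀ p ∈ I, p.Prime := fun p hp => (hI p hp).1
  have hM1 : (1:ℝ) ≤ M := by exact_mod_cast hM
  have hm : AM K M R a I ∈ SA1 (M1 I) := Subalgebra.mul_mem _ (GI_mem hP K) (NK_mem1 (x1_mem hP) _ _)
  have hm2 : NK (20 * (M * R)) (1 + a) (x1 I) ∈ SA1 (M1 I) := NK_mem1 (x1_mem hP) _ _
  obtain ⟨k0, k1, k2, k3, k4⟩ := k_absM hM ha
  refine re_close (ip_torus hP hm hm2) ?_
  have e1 : ∀ ω : I → ℂ, ph I ω (AM K M R a I) = Gt K I ω * NK (20 * (M * R)) a (∑ p : I, ω p) := by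
    intro ω
    unfold AM
    rw [map_mul, ph_GI hP, NK_map, ph_x1 hP]
  have e1' : ∀ ω : I → ℂ, ph I ω (NK (20 * (M * R)) (1 + a) (x1 I)) = 1 * NK (20 * (M * R)) (1 + a) (∑ p : I, ω p) := by
    intro ω
    rw [NK_map, ph_x1 hP, one_mul]
  simp_rw [e1, e1']
  refine blk_genM hM hδ hI hv hu hK hR k0 k1 (Gt K I) (fun _ => 1) (Gt_cont K I) continuous_const
    (fun ω => norm_prod_le K ω) ?_
  have h1 := tm_pairM hM1 hδ hI (E4_mul hM1 ha hK) (E4_exp (a := 1 + a) hM1 k1)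
      ((gz_cont K).mul (by fun_prop)) (by fun_prop) k2 k3 k4
  have e2 : ∀ ω : I → ℂ, Gt K I ω * Complex.exp (a * ∑ p : I, ω p) = ∏ p : I, gz K (ω p) * Complex.exp (a * ω p) := by
    intro ω
    rw [expZ, Gt, prod_mul_distrib]
  simp_rw [e2, one_mul, expZ]
  exact h1

theorem blk3M (hM : 1 ≤ M) (hδ : 0 ≤ δ) (hI : BgM M I) (hv : vI I ≤ c) (hu : uI I ≤ c) (hR : 1 ≤ R) (ha : |a| ≤ M) :
    |ip δ (NK (20 * (M * R)) (1 + a) (x1 I)) (NK (20 * (M * R)) (1 + a) (x1 I)) - Real.exp ((1 + a) ^ 2 * vd δ I)| ≤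
      ebM M c I R * Real.exp ((1 + a) ^ 2 * vd δ I) := by
  have hP : ∀ p ∈ I, p.Prime := fun p hp => (hI p hp).1
  have hM1 : (1:ℝ) ≤ M := by exact_mod_cast hM
  have hm2 : NK (20 * (M * R)) (1 + a) (x1 I) ∈ SA1 (M1 I) := NK_mem1 (x1_mem hP) _ _
  obtain ⟨k0, k1, k2, k3, k4⟩ := k_absM hM ha
  refine re_close (ip_torus hP hm2 hm2) ?_
  have e1' : ∀ ω : I → ℂ, ph I ω (NK (20 * (M * R)) (1 + a) (x1 I)) = 1 * NK (20 * (M * R)) (1 + a) (∑ p : I, ω p) := by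
    intro ω
    rw [NK_map, ph_x1 hP, one_mul]
  simp_rw [e1']
  refine blk_genM (K := 2) hM hδ hI hv hu le_rfl hR k1 k1 (fun _ => 1) (fun _ => 1) continuous_const continuous_const
    (fun ω => ?_) ?_
  · rw [norm_one, mul_one]
    have : 0 ≤ ‖Gt 2 I ω‖ ^ 2 := by positivity
    linarith
  have h1 := tm_pairM hM1 hδ hI (E4_exp (a := 1 + a) hM1 k1) (E4_exp (a := 1 + a) hM1 k1)
      (by fun_prop) (by fun_prop) k2 k4 k4
  simp_rw [one_mul, expZ]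
  exact h1

/-- far parts -/
theorem blk5M (hM : 1 ≤ M) (hδ : 0 ≤ δ) (hI : BgM M I) (hv : vI I ≤ c) (hu : uI I ≤ c) (hR : 1 ≤ R) (ha : |a| ≤ 2 * M) :
    ip δ (NK (20 * (M * R)) a (x1 I) * Qe R I) (NK (20 * (M * R)) a (x1 I) * Qe R I) ≤
      CEM M c * Real.exp (-(2 * (R:ℝ))) := by
  have hP : ∀ p ∈ I, p.Prime := fun p hp => (hI p hp).1
  have hM1 : (1:ℝ) ≤ M := by exact_mod_cast hM
  rw [ip_torus_self hP (Subalgebra.mul_mem _ (NK_mem1 (x1_mem hP) _ _) (Qe_mem hP R))]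
  have h1 : ∀ ω : I → ℂ, ‖ph I ω (NK (20 * (M * R)) a (x1 I) * Qe R I)‖ ^ 2 ≤ Real.exp (-(2 * (R:ℝ))) *
      ((1 + ‖Gt 2 I ω‖ ^ 2) * Real.exp (8 * M * ‖∑ p : I, ω p‖)) := by
    intro ω
    rw [map_mul, norm_mul, mul_pow, ph_Qe_sq hP, NK_map, ph_x1 hP]
    set Z := ∑ p : I, ω p with hZ
    have h2 := ball_pow_le hR Z
    have h3 := pow_le_pow_left₀ (norm_nonneg _) (NK_norm_leM hM (20 * (M * R)) ha Z) 2
    rw [← Real.exp_nat_mul] at h3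
    have hMZ : ‖Z‖ ≤ M * ‖Z‖ := le_mul_of_one_le_left (norm_nonneg _) hM1
    calc _ ≤ Real.exp (((2:ℕ):ℝ) * (2 * M * ‖Z‖)) * (Real.exp (-(2 * (R:ℝ))) * Real.exp (4 * ‖Z‖)) :=
          mul_le_mul h3 h2 (by positivity) (by positivity)
      _ = Real.exp (-(2 * (R:ℝ))) * Real.exp (4 * M * ‖Z‖ + 4 * ‖Z‖) := by
          rw [Real.exp_add (4 * M * ‖Z‖)]; push_cast; ring_nf
      _ ≤ Real.exp (-(2 * (R:ℝ))) * (1 * Real.exp (8 * M * ‖Z‖)) := by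
          refine mul_le_mul_of_nonneg_left ?_ (Real.exp_pos _).le
          rw [one_mul]
          exact Real.exp_le_exp.mpr (by linarith)
      _ ≤ _ := by
          refine mul_le_mul_of_nonneg_left (mul_le_mul_of_nonneg_right ?_ (Real.exp_pos _).le) (Real.exp_pos _).le
          have : 0 ≤ ‖Gt 2 I ω‖ ^ 2 := by positivity
          linarith
  have hic : Continuous fun ω : I → ℂ => Real.exp (-(2 * (R:ℝ))) * ((1 + ‖Gt 2 I ω‖ ^ 2) *
        Real.exp (8 * M * ‖∑ p : I, ω p‖)) :=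
      continuous_const.mul ((continuous_const.add ((Gt_cont 2 I).norm.pow 2)).mul (by fun_prop))
  have h3 := integral_mono (tm_integrable (δ := δ) hP ((ph_cont I (NK (20 * (M * R)) a (x1 I) * Qe R I)).norm.pow 2))
    (tm_integrable (δ := δ) hP hic) h1
  refine h3.trans ?_
  rw [integral_const_mul, mul_comm]
  exact mul_le_mul_of_nonneg_right (EM_M hM1 hδ hI hv hu le_rfl) (Real.exp_pos _).le

end

end Pool.Agent.Y755
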