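import Pool.Agent.Y755.Hpb

set_option autoImplicit false

/-! Mean values over a window. -/

namespace Pool.Agent.Y755

open Finset Filter MeasureTheory
open Pool.Agent.W184.NZ

lemma mvt_win {δ N X1 X2 : ℝ} (hδ : 0 ≤ δ) {f : P1} (hf : Bd1 N f) :
    |(∫ t in X1..X2, ‖es (1 / 2 + δ + t * Complex.I) f‖ ^ 2) - (X2 - X1) * ip δ f f| ≤ 4 * N * l1' f ^ 2 := by
  have h1 := mvt hδ hf X1
  have h2 := mvt hδ hf X2
  have hi : ∀ a b : ℝ, IntervalIntegrable (fun t : ℝ => ‖es (1 / 2 + δ + t * Complex.I) f‖ ^ 2) volume a b :=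
    fun a b => (es_cont0 δ hf).intervalIntegrable a b
  have h3 := intervalIntegral.integral_add_adjacent_intervals (hi 0 X1) (hi X1 X2)
  rw [abs_le] at h1 h2 ⊢
  constructor <;> linarith [h1.1, h1.2, h2.1, h2.2]

lemma mvt_up {δ N X1 X2 : ℝ} (hδ : 0 ≤ δ) (hX1 : 0 ≤ X1) {f : P1} (hf : Bd1 N f) :
    ∫ t in X1..X2, ‖es (1 / 2 + δ + t * Complex.I) f‖ ^ 2 ≤ X2 * ip δ f f + 4 * N * l1' f ^ 2 := by
  have h1 := (abs_le.mp (mvt_win (X1 := X1) (X2 := X2) hδ hf)).2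
  have h2 := mul_nonneg hX1 (ip_self_nonneg δ f)
  linarith

section

variable {c y δ a W X1 X2 : ℝ} {z J Rs N K : ℕ} {A0 : P1} {m : ℝ}

lemma Sy.ly (h : Sy c z y J Rs N K) : 0 ≤ Real.log y := Real.log_nonneg h.y1

lemma W_mono (h : Sy c z y J Rs N K) (hW : Real.exp (Real.log y * (180 * ((Rs:ℝ) + 1))) ≤ W) {k : ℝ} (hk : k ≤ 180) :
    Real.exp (Real.log y * (k * ((Rs:ℝ) + 1))) ≤ W := by
  refine le_trans (Real.exp_le_exp.mpr ?_) hW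
  have := h.ly
  gcongr

lemma J_le (h : Sy c z y J Rs N K) (hW : Real.exp (Real.log y * (180 * ((Rs:ℝ) + 1))) ≤ W) : (J:ℝ) ≤ W := by
  have hly := h.ly
  have hRs : (0:ℝ) ≤ Rs := Nat.cast_nonneg _
  rcases Nat.eq_zero_or_pos J with h0 | h0
  · subst h0
    exact le_trans (by simpa using (Real.exp_pos _).le) hW
  · have h1 := h.rg.b10 (J - 1) (by omega)
    have h2 : Real.log 10 ≤ Real.log y * (1 / 4) ^ (J - 1) := by
      rw [← log_bb]; exact Real.log_le_log (by norm_num) h1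
    have h3 : (1:ℝ) ≤ Real.log 10 := by
      rw [Real.le_log_iff_exp_le (by norm_num)]
      have := Real.exp_one_lt_d9
      linarith
    have h4 : (4:ℝ) ^ (J - 1) ≤ Real.log y := by
      have h5 : (4:ℝ) ^ (J - 1) * (1 / 4) ^ (J - 1) = 1 := by rw [← mul_pow]; norm_num
      have h6 : (0:ℝ) < 4 ^ (J - 1) := by positivity
      have h7 : (4:ℝ) ^ (J - 1) * 1 ≤ (4:ℝ) ^ (J - 1) * (Real.log y * (1 / 4) ^ (J - 1)) :=
        mul_le_mul_of_nonneg_left (h3.trans h2) h6.le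
      calc (4:ℝ) ^ (J - 1) = (4:ℝ) ^ (J - 1) * 1 := (mul_one _).symm
        _ ≤ _ := h7
        _ = Real.log y * ((4:ℝ) ^ (J - 1) * (1 / 4) ^ (J - 1)) := by ring
        _ = Real.log y := by rw [h5, mul_one]
    have h5 : (J:ℝ) ≤ (4:ℝ) ^ (J - 1) + 1 := by
      have := one_add_mul_le_pow (a := (3:ℝ)) (by norm_num) (J - 1)
      have e : ((J - 1 : ℕ) : ℝ) = (J:ℝ) - 1 := by
        rw [Nat.cast_sub (by omega)]; simp
      rw [e] at this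
      norm_num at this
      have : (1:ℝ) ≤ J := by exact_mod_cast h0
      linarith
    have h6 : Real.log y + 1 ≤ Real.exp (Real.log y) := Real.add_one_le_exp _
    have h7 : Real.exp (Real.log y) ≤ W := by
      refine le_trans (Real.exp_le_exp.mpr ?_) hW
      nlinarith
    linarith

lemma one_le_W (h : Sy c z y J Rs N K) (hW : Real.exp (Real.log y * (180 * ((Rs:ℝ) + 1))) ≤ W) : 1 ≤ W := by
  refine le_trans ?_ hW
  have := h.ly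
  exact Real.one_le_exp (by positivity)

/-- the truncated polynomials -/
lemma I1 (h : Sy c z y J Rs N K) (hA : Bd1 m A0) (ha : |a| ≤ 2) (hδ : 0 ≤ δ) (hX1 : 0 ≤ X1)
    (hW : Real.exp (Real.log y * (180 * ((Rs:ℝ) + 1))) ≤ W) :
    ∑ S ∈ (range J).powerset, ∫ t in X1..X2, ‖es (1 / 2 + δ + t * Complex.I) (DS N a z y J Rs A0 S)‖ ^ 2 ≤
      X2 * (∑ S ∈ (range J).powerset, ip δ (DS N a z y J Rs A0 S) (DS N a z y J Rs A0 S)) +
      4 * (N:ℝ) ^ 3 * (l1' (Pz z * A0) ^ 2 * W) := by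
  refine (sum_le_sum fun S _ => mvt_up hδ hX1 (DS_Bd (a := a) h hA S)).trans ?_
  rw [sum_add_distrib, ← mul_sum, ← mul_sum]
  have h2 := DS_l1 (A0 := A0) h ha
  have h3 : (N:ℝ) ^ 2 * (l1' (Pz z * A0) ^ 2 * Real.exp (Real.log y * (180 * ((Rs:ℝ) + 1)))) ≤
      (N:ℝ) ^ 2 * (l1' (Pz z * A0) ^ 2 * W) := by gcongr
  have h4 := mul_le_mul_of_nonneg_left (h2.trans h3) (by positivity : (0:ℝ) ≤ 4 * N)
  linarith

lemma AB_Bd (h : Sy c z y J Rs N K) (hA : Bd1 m A0) (hm : 0 ≤ m)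
    (hW : Real.exp (Real.log y * (180 * ((Rs:ℝ) + 1))) ≤ W) (S : Finset ℕ) : Bd1 (m * W) (A0 * Bz a z y J Rs S) :=
  (hA.mul (Bz_Bd h S)).mono (mul_le_mul_of_nonneg_left (W_mono h hW (by norm_num)) hm)

lemma AB_l1 (h : Sy c z y J Rs N K) (ha : |a| ≤ 2) (hW : Real.exp (Real.log y * (180 * ((Rs:ℝ) + 1))) ≤ W) :
    ∑ S ∈ (range J).powerset, l1' (A0 * Bz a z y J Rs S) ^ 2 ≤ l1' A0 ^ 2 * W := by
  have h1 : ∀ S ∈ (range J).powerset, l1' (A0 * Bz a z y J Rs S) ^ 2 ≤ l1' A0 ^ 2 * l1' (Bz a z y J Rs S) ^ 2 := by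
    intro S _
    rw [← mul_pow]
    exact pow_le_pow_left₀ (l1'_nonneg _) (l1'_mul _ _) 2
  refine (sum_le_sum h1).trans ?_
  rw [← mul_sum]
  exact mul_le_mul_of_nonneg_left ((Bz_l1 h ha).trans hW) (sq_nonneg _)

lemma AB_l1_one (h : Sy c z y J Rs N K) (ha : |a| ≤ 2) (hW : Real.exp (Real.log y * (180 * ((Rs:ℝ) + 1))) ≤ W) :
    l1' (A0 * Bz a z y J Rs ∅) ^ 2 ≤ l1' A0 ^ 2 * W :=
  le_trans (single_le_sum (f := fun S => l1' (A0 * Bz a z y J Rs S) ^ 2) (fun _ _ => sq_nonneg _)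
    (empty_mem_powerset (range J))) (AB_l1 h ha hW)

/-- the comparison polynomials -/
lemma I2 (h : Sy c z y J Rs N K) (hA : Bd1 m A0) (hm : 0 ≤ m) (ha : |a| ≤ 2) (hδ : 0 ≤ δ) (hX1 : 0 ≤ X1)
    (hW : Real.exp (Real.log y * (180 * ((Rs:ℝ) + 1))) ≤ W) :
    ∑ S ∈ (range J).powerset, ∫ t in X1..X2, ‖es (1 / 2 + δ + t * Complex.I) (A0 * Bz a z y J Rs S)‖ ^ 2 ≤
      X2 * (∑ S ∈ (range J).powerset, ip δ (A0 * Bz a z y J Rs S) (A0 * Bz a z y J Rs S)) +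
      4 * (m * W) * (l1' A0 ^ 2 * W) := by
  refine (sum_le_sum fun S _ => mvt_up hδ hX1 (AB_Bd (a := a) h hA hm hW S)).trans ?_
  rw [sum_add_distrib, ← mul_sum, ← mul_sum]
  have hW1 := one_le_W h hW
  have h4 := mul_le_mul_of_nonneg_left (AB_l1 (A0 := A0) h ha hW) (by positivity : (0:ℝ) ≤ 4 * (m * W))
  linarith

lemma I3 (h : Sy c z y J Rs N K) (hA : Bd1 m A0) (hm : 0 ≤ m) (ha : |a| ≤ 2) (hδ : 0 ≤ δ)
    (hW : Real.exp (Real.log y * (180 * ((Rs:ℝ) + 1))) ≤ W) :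
    (X2 - X1) * ip δ (A0 * Bz a z y J Rs ∅) (A0 * Bz a z y J Rs ∅) - 4 * (m * W) * (l1' A0 ^ 2 * W) ≤
    ∫ t in X1..X2, ‖es (1 / 2 + δ + t * Complex.I) (A0 * Bz a z y J Rs ∅)‖ ^ 2 := by
  have h1 := (abs_le.mp (mvt_win (X1 := X1) (X2 := X2) hδ (AB_Bd (a := a) h hA hm hW ∅))).1
  have hW1 := one_le_W h hW
  have h4 := mul_le_mul_of_nonneg_left (AB_l1_one (A0 := A0) h ha hW) (by positivity : (0:ℝ) ≤ 4 * (m * W))
  linarith

/-- closeness -/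
lemma I4 {κ : ℝ} (h : Sy c z y J Rs N K) (hA : Bd1 m A0) (hm : 0 ≤ m) (ha : |a| ≤ 2) (hκ : |κ| ≤ 2) (hδ : 0 ≤ δ)
    (hX1 : 0 ≤ X1) (hW : Real.exp (Real.log y * (180 * ((Rs:ℝ) + 1))) ≤ W) (hmN : m * W ≤ N) :
    ∫ t in X1..X2, ‖es (1 / 2 + δ + t * Complex.I) (DS N a z y J Rs A0 ∅ - A0 * Bz κ z y J Rs ∅)‖ ^ 2 ≤
      X2 * ip δ (DS N a z y J Rs A0 ∅ - A0 * Bz κ z y J Rs ∅) (DS N a z y J Rs A0 ∅ - A0 * Bz κ z y J Rs ∅) +
      8 * N * ((N:ℝ) ^ 2 * (l1' (Pz z * A0) ^ 2 * W) + l1' A0 ^ 2 * W) := by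
  have hB : Bd1 N (DS N a z y J Rs A0 ∅ - A0 * Bz κ z y J Rs ∅) :=
    (DS_Bd h hA ∅).sub ((AB_Bd h hA hm hW ∅).mono hmN)
  refine (mvt_up hδ hX1 hB).trans ?_
  have h1 : l1' (DS N a z y J Rs A0 ∅ - A0 * Bz κ z y J Rs ∅) ≤ l1' (DS N a z y J Rs A0 ∅) + l1' (A0 * Bz κ z y J Rs ∅) := by
    have e : DS N a z y J Rs A0 ∅ - A0 * Bz κ z y J Rs ∅ = DS N a z y J Rs A0 ∅ + (-1 : ℝ) • (A0 * Bz κ z y J Rs ∅) := by
      rw [neg_one_smul]; abel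
    rw [e]
    refine (l1'_add _ _).trans (add_le_add le_rfl ((l1'_smul _ _).trans ?_))
    rw [abs_neg, abs_one, one_mul]
  have h2 := pow_le_pow_left₀ (l1'_nonneg _) h1 2
  have h3 : l1' (DS N a z y J Rs A0 ∅) ^ 2 ≤ (N:ℝ) ^ 2 * (l1' (Pz z * A0) ^ 2 * W) := by
    refine le_trans (single_le_sum (f := fun S => l1' (DS N a z y J Rs A0 S) ^ 2) (fun _ _ => sq_nonneg _)
      (empty_mem_powerset (range J))) ((DS_l1 (A0 := A0) h ha).trans ?_)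
    gcongr
  have h4 := AB_l1_one (A0 := A0) h hκ hW
  have h5 : l1' (DS N a z y J Rs A0 ∅ - A0 * Bz κ z y J Rs ∅) ^ 2 ≤
      2 * ((N:ℝ) ^ 2 * (l1' (Pz z * A0) ^ 2 * W) + l1' A0 ^ 2 * W) := by
    nlinarith [sq_nonneg (l1' (DS N a z y J Rs A0 ∅) - l1' (A0 * Bz κ z y J Rs ∅))]
  have h6 := mul_le_mul_of_nonneg_left h5 (by positivity : (0:ℝ) ≤ 4 * N)
  linarith

lemma geo_term (Rs j : ℕ) : ((Rs:ℝ) + j) * (1 / 4) ^ j ≤ (Rs:ℝ) + 1 := by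
  have h1 : (1 / 4 : ℝ) ^ j ≤ 1 := pow_le_one₀ (by norm_num) (by norm_num)
  have h2 : (j:ℝ) * (1 / 4) ^ j ≤ 1 := by
    have h3 : (1:ℝ) + j ≤ 4 ^ j := by
      have := one_add_mul_le_pow (a := (3:ℝ)) (by norm_num) j
      have hn : (0:ℝ) ≤ j := Nat.cast_nonneg j
      norm_num at this
      linarith
    have h4 : (4:ℝ) ^ j * (1 / 4) ^ j = 1 := by rw [← mul_pow]; norm_num
    have h5 : (0:ℝ) < (1 / 4) ^ j := by positivity
    nlinarith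
  have h3 : (0:ℝ) ≤ Rs := Nat.cast_nonneg _
  nlinarith

lemma bbR_le (h : Sy c z y J Rs N K) (hW : Real.exp (Real.log y * (180 * ((Rs:ℝ) + 1))) ≤ W) (j : ℕ) :
    bb y j ^ (RR Rs j) ≤ W := by
  refine le_trans ?_ (W_mono h hW (k := 2) (by norm_num))
  unfold bb
  rw [← Real.exp_nat_mul]
  refine Real.exp_le_exp.mpr ?_
  have h1 := mul_le_mul_of_nonneg_left (geo_term Rs j) (by have := h.ly; positivity : 0 ≤ 2 * Real.log y)
  unfold RR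
  push_cast
  linarith

/-- the far parts -/
lemma I5 {κ : ℝ} (h : Sy c z y J Rs N K) (hA : Bd1 m A0) (hm : 0 ≤ m) (hκ : |κ| ≤ 2) (hδ : 0 ≤ δ) (hX1 : 0 ≤ X1)
    (hW : Real.exp (Real.log y * (180 * ((Rs:ℝ) + 1))) ≤ W) :
    ∑ j ∈ range J, ∫ t in X1..X2, ‖es (1 / 2 + δ + t * Complex.I)
      (A0 * Bz κ z y J Rs ∅ * Qe (RR Rs j) (IZ z y j))‖ ^ 2 ≤
      X2 * (∑ j ∈ range J, ip δ (A0 * Bz κ z y J Rs ∅ * Qe (RR Rs j) (IZ z y j))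
        (A0 * Bz κ z y J Rs ∅ * Qe (RR Rs j) (IZ z y j))) + 4 * m * l1' A0 ^ 2 * W ^ 6 := by
  have hW1 := one_le_W h hW
  have hb : ∀ j, 0 ≤ bb y j := fun j => (bb_pos y j).le
  have hQB : ∀ j, Bd1 W (Qe (RR Rs j) (IZ z y j)) := fun j => (Qe_Bd (rg_b h.rg j) _).mono (bbR_le h hW j)
  have hQl : ∀ j, l1' (Qe (RR Rs j) (IZ z y j)) ≤ W := fun j =>
    (Qe_l1 (hb j) (rg_b h.rg j) (by have := h.R1; unfold RR; omega)).trans (bbR_le h hW j)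
  have h1 : ∀ j ∈ range J, ∫ t in X1..X2, ‖es (1 / 2 + δ + t * Complex.I)
      (A0 * Bz κ z y J Rs ∅ * Qe (RR Rs j) (IZ z y j))‖ ^ 2 ≤
      X2 * ip δ (A0 * Bz κ z y J Rs ∅ * Qe (RR Rs j) (IZ z y j))
        (A0 * Bz κ z y J Rs ∅ * Qe (RR Rs j) (IZ z y j)) + 4 * m * l1' A0 ^ 2 * W ^ 5 := by
    intro j _
    refine (mvt_up hδ hX1 ((AB_Bd h hA hm hW ∅).mul (hQB j))).trans ?_
    have h2 : l1' (A0 * Bz κ z y J Rs ∅ * Qe (RR Rs j) (IZ z y j)) ^ 2 ≤ l1' A0 ^ 2 * W * W ^ 2 := by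
      refine (pow_le_pow_left₀ (l1'_nonneg _) (l1'_mul _ _) 2).trans ?_
      rw [mul_pow]
      exact mul_le_mul (AB_l1_one h hκ hW) (pow_le_pow_left₀ (l1'_nonneg _) (hQl j) 2) (by positivity) (by positivity)
    have h3 := mul_le_mul_of_nonneg_left h2 (by positivity : 0 ≤ 4 * (m * W * W))
    nlinarith
  refine (sum_le_sum h1).trans ?_
  rw [sum_add_distrib, ← mul_sum]
  refine add_le_add le_rfl ?_
  rw [sum_const, card_range, nsmul_eq_mul]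
  have h2 := J_le h hW
  calc (J:ℝ) * (4 * m * l1' A0 ^ 2 * W ^ 5) ≤ W * (4 * m * l1' A0 ^ 2 * W ^ 5) := by gcongr
    _ = _ := by ring

end

end Pool.Agent.Y755
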