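import Pool.Agent.Y755.Gm2
import Pool.Agent.Y755.Wi1

set_option autoImplicit false

/-! Norms of the Dirichlet polynomials, general exponents. -/

namespace Pool.Agent.Y755

open Finset Filter MeasureTheory MonoidAlgebra
open Pool.Agent.W184.NZ

/-- the product of the blocks -/
noncomputable def Bm (M : ℕ) (a : ℝ) (z : ℕ) (y : ℝ) (J Rs : ℕ) : P1 :=
  ∏ i ∈ range J, NK (20 * (M * RR Rs i)) a (x1 (IZ z y i))

/-- the truncated polynomial -/
noncomputable def Dm (N M : ℕ) (a : ℝ) (z : ℕ) (y : ℝ) (J Rs : ℕ) (A0 : P1) : P1 :=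
  Dt N (Pz z * A0 * Bm M a z y J Rs)

/-- the error of a block -/
noncomputable def erM (M : ℕ) (c : ℝ) (z : ℕ) (y : ℝ) (Rs i : ℕ) : ℝ :=
  ebM M c (IZ z y i) (RR Rs i) + CEM M c * Real.exp (-(2 * (RR Rs i : ℝ)))

/-- the total error -/
noncomputable def ETM (M : ℕ) (c : ℝ) (z : ℕ) (y : ℝ) (J Rs : ℕ) : ℝ := ∑ i ∈ range J, erM M c z y Rs i

lemma erM_nonneg (M : ℕ) (c : ℝ) (z : ℕ) (y : ℝ) (Rs i : ℕ) : 0 ≤ erM M c z y Rs i := by
  unfold erM
  have h1 := ebM_nonneg M c (IZ z y i) (RR Rs i)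
  have h2 := CEM_pos M c
  positivity

lemma ETM_nonneg (M : ℕ) (c : ℝ) (z : ℕ) (y : ℝ) (J Rs : ℕ) : 0 ≤ ETM M c z y J Rs :=
  sum_nonneg fun _ _ => erM_nonneg _ _ _ _ _ _

lemma ebM_le_erM (M : ℕ) (c : ℝ) (z : ℕ) (y : ℝ) (Rs i : ℕ) : ebM M c (IZ z y i) (RR Rs i) ≤ erM M c z y Rs i := by
  unfold erM
  have h2 := CEM_pos M c
  have : 0 ≤ CEM M c * Real.exp (-(2 * (RR Rs i : ℝ))) := by positivity
  linarith

lemma BgM_IZ {M z : ℕ} (hz : 40000 * M ^ 6 ≤ z) (y : ℝ) (i : ℕ) : BgM M (IZ z y i) := by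
  intro p hp
  refine ⟨IZ_prime i p hp, ?_⟩
  have h1 : 40000 * M ^ 6 ≤ p := hz.trans (mem_IZ.mp hp).2
  exact_mod_cast h1

lemma NK_l1M {b : ℝ} (hb : 10 ≤ b) {f : P1} (hf : l1' f ≤ b) (K M : ℕ) {a : ℝ} (ha : |a| ≤ 2 * M) :
    l1' (NK K a f) ≤ b ^ (K + M) := by
  have hb1 : 1 ≤ b := by linarith
  refine (l1'_sum _ _).trans ?_
  have h1 : ∀ k ∈ range (K + 1), l1' ((a ^ k / (k.factorial : ℝ)) • f ^ k) ≤ b ^ K * ((2 * M) ^ k / (k.factorial : ℝ)) := by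
    intro k hk
    rw [mem_range] at hk
    refine (l1'_smul _ _).trans ?_
    have h2 : |a ^ k / (k.factorial : ℝ)| ≤ (2 * M) ^ k / (k.factorial : ℝ) := by
      rw [abs_div, abs_pow, abs_of_nonneg (by positivity : (0:ℝ) ≤ (k.factorial : ℝ))]
      gcongr
    have h3 : l1' (f ^ k) ≤ b ^ K := by
      refine (l1'_pow f k).trans ?_
      refine (pow_le_pow_left₀ (l1'_nonneg f) hf k).trans (pow_le_pow_right₀ hb1 (by omega))
    calc |a ^ k / (k.factorial : ℝ)| * l1' (f ^ k) ≤ ((2 * M) ^ k / (k.factorial : ℝ)) * b ^ K :=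
          mul_le_mul h2 h3 (l1'_nonneg _) (by positivity)
      _ = _ := mul_comm _ _
  refine (sum_le_sum h1).trans ?_
  rw [← mul_sum, pow_add]
  refine mul_le_mul_of_nonneg_left ?_ (by positivity)
  refine (Real.sum_le_exp_of_nonneg (by positivity) (K + 1)).trans ?_
  have h2 : Real.exp (2 * M) = (Real.exp 1 ^ 2) ^ M := by
    rw [← Real.exp_nat_mul, ← Real.exp_nat_mul]; congr 1; push_cast; ring
  rw [h2]
  refine pow_le_pow_left₀ (by positivity) ?_ M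
  have h3 := Real.exp_one_lt_d9
  have h4 := Real.exp_pos 1
  nlinarith

section

variable {M : ℕ} {c y δ a κ W X1 X2 : ℝ} {z J Rs N K : ℕ} {A0 : P1} {m : ℝ}

lemma Bm_mem : Bm M a z y J Rs ∈ SA1 (M1 ((range J).biUnion (IZ z y))) :=
  prod_mem1 J fun i _ => NK_mem1 (x1_mem (IZ_prime i)) _ _

lemma Bm_Bd (h : Sy c z y J Rs N K) :
    Bd1 (Real.exp (Real.log y * (80 * (M * ((Rs:ℝ) + 1))))) (Bm M a z y J Rs) := by
  have h1 := Bd1_prod J (f := fun i => NK (20 * (M * RR Rs i)) a (x1 (IZ z y i)))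
    (N := fun i => bb y i ^ (40 * M * (Rs + i))) fun i hi => by
      have hb : 1 ≤ bb y i := by have := h.rg.b10 i hi; linarith
      have h2 := NK_Bd1 hb (x1_Bd (rg_b h.rg i)) (20 * (M * RR Rs i)) a
      have e : 40 * M * (Rs + i) = 20 * (M * RR Rs i) := by unfold RR; ring
      rw [e]
      exact h2
  refine h1.mono ((len h.y1 Rs J (40 * M)).trans (le_of_eq ?_))
  push_cast
  congr 1; ring

lemma Bm_l1 (h : Sy c z y J Rs N K) (ha : |a| ≤ 2 * M) :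
    l1' (Bm M a z y J Rs) ≤ Real.exp (Real.log y * (82 * (M * ((Rs:ℝ) + 1)))) := by
  have h1 := l1'_prod J (f := fun i => NK (20 * (M * RR Rs i)) a (x1 (IZ z y i)))
  refine h1.trans ?_
  have h2 : ∏ i ∈ range J, l1' (NK (20 * (M * RR Rs i)) a (x1 (IZ z y i))) ≤
      ∏ i ∈ range J, bb y i ^ (41 * M * (Rs + i)) := by
    refine prod_le_prod (fun i _ => l1'_nonneg _) fun i hi => ?_
    rw [mem_range] at hi
    have hb10 : 10 ≤ bb y i := h.rg.b10 i hi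
    refine (NK_l1M hb10 (x1_l1 (by linarith) (rg_b h.rg i)) (20 * (M * RR Rs i)) M ha).trans ?_
    refine pow_le_pow_right₀ (by linarith) ?_
    have hRs := h.R1
    have : M * 1 ≤ M * (Rs + i) := Nat.mul_le_mul_left M (by omega)
    unfold RR
    nlinarith
  refine h2.trans ((len h.y1 Rs J (41 * M)).trans (le_of_eq ?_))
  push_cast
  congr 1; ring

lemma Wm_mono (h : Sy c z y J Rs N K) (hW : Real.exp (Real.log y * (180 * (M * ((Rs:ℝ) + 1)))) ≤ W) {k : ℝ} (hk : k ≤ 180) :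
    Real.exp (Real.log y * (k * (M * ((Rs:ℝ) + 1)))) ≤ W := by
  refine le_trans (Real.exp_le_exp.mpr ?_) hW
  have := h.ly
  gcongr

lemma W_of (hM : 1 ≤ M) (h : Sy c z y J Rs N K) (hW : Real.exp (Real.log y * (180 * (M * ((Rs:ℝ) + 1)))) ≤ W) :
    Real.exp (Real.log y * (180 * ((Rs:ℝ) + 1))) ≤ W := by
  refine le_trans (Real.exp_le_exp.mpr ?_) hW
  have := h.ly
  have hM1 : (1:ℝ) ≤ M := by exact_mod_cast hM
  have h2 : ((Rs:ℝ) + 1) ≤ M * ((Rs:ℝ) + 1) := le_mul_of_one_le_left (by positivity) hM1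
  gcongr

lemma ABm_Bd (h : Sy c z y J Rs N K) (hA : Bd1 m A0) (hm : 0 ≤ m)
    (hW : Real.exp (Real.log y * (180 * (M * ((Rs:ℝ) + 1)))) ≤ W) : Bd1 (m * W) (A0 * Bm M a z y J Rs) :=
  (hA.mul (Bm_Bd h)).mono (mul_le_mul_of_nonneg_left (Wm_mono h hW (by norm_num)) hm)

lemma Bm_l1W (h : Sy c z y J Rs N K) (ha : |a| ≤ 2 * M)
    (hW : Real.exp (Real.log y * (180 * (M * ((Rs:ℝ) + 1)))) ≤ W) : l1' (Bm M a z y J Rs) ^ 2 ≤ W := by
  refine (pow_le_pow_left₀ (l1'_nonneg _) (Bm_l1 h ha) 2).trans ?_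
  rw [← Real.exp_nat_mul]
  refine le_trans (le_of_eq ?_) (Wm_mono h hW (k := 164) (by norm_num))
  congr 1; push_cast; ring

lemma ABm_l1 (h : Sy c z y J Rs N K) (ha : |a| ≤ 2 * M)
    (hW : Real.exp (Real.log y * (180 * (M * ((Rs:ℝ) + 1)))) ≤ W) :
    l1' (A0 * Bm M a z y J Rs) ^ 2 ≤ l1' A0 ^ 2 * W := by
  refine (pow_le_pow_left₀ (l1'_nonneg _) (l1'_mul _ _) 2).trans ?_
  rw [mul_pow]
  exact mul_le_mul_of_nonneg_left (Bm_l1W h ha hW) (sq_nonneg _)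

lemma PBm_Bd (h : Sy c z y J Rs N K) (hA : Bd1 m A0) :
    Bd1 ((z:ℝ) ^ (S0 z).card * m * Real.exp (Real.log y * (80 * (M * ((Rs:ℝ) + 1))))) (Pz z * A0 * Bm M a z y J Rs) :=
  ((Pz_Bd z).mul hA).mul (Bm_Bd h)

lemma PBm_l1 (h : Sy c z y J Rs N K) (ha : |a| ≤ 2 * M)
    (hW : Real.exp (Real.log y * (180 * (M * ((Rs:ℝ) + 1)))) ≤ W) :
    l1' (Pz z * A0 * Bm M a z y J Rs) ^ 2 ≤ l1' (Pz z * A0) ^ 2 * W := by
  refine (pow_le_pow_left₀ (l1'_nonneg _) (l1'_mul _ _) 2).trans ?_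
  rw [mul_pow]
  exact mul_le_mul_of_nonneg_left (Bm_l1W h ha hW) (sq_nonneg _)

lemma Dm_Bd (h : Sy c z y J Rs N K) (hA : Bd1 m A0) : Bd1 N (Dm N M a z y J Rs A0) := Dt_Bd (PBm_Bd h hA)

lemma Dm_l1 (h : Sy c z y J Rs N K) (ha : |a| ≤ 2 * M)
    (hW : Real.exp (Real.log y * (180 * (M * ((Rs:ℝ) + 1)))) ≤ W) :
    l1' (Dm N M a z y J Rs A0) ^ 2 ≤ (N:ℝ) ^ 2 * (l1' (Pz z * A0) ^ 2 * W) := by
  refine (pow_le_pow_left₀ (l1'_nonneg _) (Dt_l1 _ _) 2).trans ?_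
  rw [mul_pow]
  exact mul_le_mul_of_nonneg_left (PBm_l1 h ha hW) (sq_nonneg _)

/-- the second factor -/
noncomputable def F2m (K M : ℕ) (a : ℝ) (z : ℕ) (y : ℝ) (J Rs : ℕ) : P1 :=
  ∏ i ∈ range J, AM K M (RR Rs i) a (IZ z y i)

lemma AM_mem (i : ℕ) : AM K M (RR Rs i) a (IZ z y i) ∈ SA1 (M1 (IZ z y i)) :=
  Subalgebra.mul_mem _ (GI_mem (IZ_prime i) K) (NK_mem1 (x1_mem (IZ_prime i)) _ _)

lemma F2m_mem : F2m K M a z y J Rs ∈ SA1 (M1 ((range J).biUnion (IZ z y))) :=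
  prod_mem1 J fun i _ => AM_mem i

lemma Dm_split (h : Sy c z y J Rs N K) (hA : Bd1 m A0) :
    Dm N M a z y J Rs A0 = trn N (F1 K z A0 * F2m K M a z y J Rs * GI K (Rst N y)) := by
  unfold Dm
  rw [Dt_eq h.NK (PBm_Bd (a := a) (M := M) h hA), GI_split (by have := h.z1; omega) h.zy h.J1 h.yN]
  congr 1
  unfold F1 F2m Bm AM
  rw [prod_mul_distrib]
  ring

lemma hRR (h : Sy c z y J Rs N K) (i : ℕ) : 1 ≤ RR Rs i := by have := h.R1; unfold RR; omega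

lemma F2m_one (hM : 1 ≤ M) (hz : 40000 * M ^ 6 ≤ z) (h : Sy c z y J Rs N K) (hδ : 0 ≤ δ) (ha : |a| ≤ M) :
    ip δ (F2m K M a z y J Rs) (F2m K M a z y J Rs) ≤ Real.exp ((1 + a) ^ 2 * Vd δ z y J + ETM M c z y J Rs) := by
  unfold F2m
  rw [ip_prod δ J (IZ_dj h) AM_mem AM_mem]
  refine prod_exp_le (e := fun i => erM M c z y Rs i) (fun i _ => ip_self_nonneg _ _) fun i hi => ?_
  have h1 := (abs_le.mp (blk1M hM hδ (BgM_IZ hz y i) (h.rg.v i hi) (h.rg.u hi) h.K2 (hRR h i) ha)).2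
  have h2 := ebM_le_erM M c z y Rs i
  have h3 := Real.exp_pos ((1 + a) ^ 2 * vd δ (IZ z y i))
  nlinarith

/-- the polynomials on the line -/
theorem N1M (hM : 1 ≤ M) (hz : 40000 * M ^ 6 ≤ z) (h : Sy c z y J Rs N K) (hδ : 0 ≤ δ) (ha : |a| ≤ M) (hA : Bd1 m A0)
    (hAm : A0 ∈ SA1 (M1 (S0 z))) (hm : m < 2 ^ (K + 1)) :
    ip δ (Dm N M a z y J Rs A0) (Dm N M a z y J Rs A0) ≤
      (ip δ A0 A0 + (2 ^ (S0 z).card * l1' A0) ^ 2 / 2 ^ (K + 1)) *
        Real.exp ((1 + a) ^ 2 * Vd δ z y J + ETM M c z y J Rs) * Real.exp (2 * vd δ (Rst N y)) := by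
  rw [Dm_split h hA]
  refine (trn_ip_le δ N _).trans ?_
  rw [ip3 h (F1_mem hAm) F2m_mem F3_mem (F1_mem hAm) F2m_mem F3_mem]
  have g1 := (small_ip (z := z) hδ hA hm).2
  have g0 := le_trans (ip_self_nonneg δ (F1 K z A0)) g1
  exact mul_le_mul (mul_le_mul g1 (F2m_one hM hz h hδ ha) (ip_self_nonneg _ _) g0)
    (GI_ip_le hδ K Rst_prime) (ip_self_nonneg _ _) (mul_nonneg g0 (Real.exp_pos _).le)

/-- the size of the comparison polynomial -/
theorem N45M (hM : 1 ≤ M) (hz : 40000 * M ^ 6 ≤ z) (h : Sy c z y J Rs N K) (hδ : 0 ≤ δ) (ha : |a| ≤ M)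
    (hAm : A0 ∈ SA1 (M1 (S0 z))) (hE : ETM M c z y J Rs ≤ 1) :
    (1 - ETM M c z y J Rs) * (ip δ A0 A0 * Real.exp ((1 + a) ^ 2 * Vd δ z y J)) ≤
      ip δ (A0 * Bm M (1 + a) z y J Rs) (A0 * Bm M (1 + a) z y J Rs) ∧
    ip δ (A0 * Bm M (1 + a) z y J Rs) (A0 * Bm M (1 + a) z y J Rs) ≤
      ip δ A0 A0 * Real.exp ((1 + a) ^ 2 * Vd δ z y J + ETM M c z y J Rs) := by
  have h0 := ip_self_nonneg δ A0
  rw [ip2 hAm Bm_mem hAm Bm_mem]
  unfold Bm
  rw [ip_prod δ J (IZ_dj h) (fun i => NK_mem1 (x1_mem (IZ_prime i)) _ _)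
      (fun i => NK_mem1 (x1_mem (IZ_prime i)) _ _)]
  have hb := fun i (hi : i < J) => blk3M hM hδ (BgM_IZ hz y i) (h.rg.v i hi) (h.rg.u hi) (hRR h i) ha
  constructor
  · have h1 := prod_low (J := J) (κ := (1 + a) ^ 2) (v := fun i => vd δ (IZ z y i)) (e := fun i => erM M c z y Rs i)
      (f := fun i => ip δ (NK (20 * (M * RR Rs i)) (1 + a) (x1 (IZ z y i))) (NK (20 * (M * RR Rs i)) (1 + a) (x1 (IZ z y i))))
      hE (fun i => erM_nonneg _ _ _ _ _ _) (fun i hi => by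
        have h3 := (abs_le.mp (hb i hi)).1
        have h4 := ebM_le_erM M c z y Rs i
        have h5 : 0 < Real.exp ((1 + a) ^ 2 * vd δ (IZ z y i)) := Real.exp_pos _
        nlinarith)
    have h2 := mul_le_mul_of_nonneg_left h1 h0
    refine le_trans (le_of_eq ?_) h2
    unfold ETM Vd
    ring
  · refine mul_le_mul_of_nonneg_left ?_ h0
    refine prod_exp_le (e := fun i => erM M c z y Rs i) (fun i _ => ip_self_nonneg _ _) fun i hi => ?_
    have h3 := (abs_le.mp (hb i hi)).2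
    have h4 := ebM_le_erM M c z y Rs i
    have h5 : 0 < Real.exp ((1 + a) ^ 2 * vd δ (IZ z y i)) := Real.exp_pos _
    nlinarith

/-- closeness -/
theorem N2M (hM : 1 ≤ M) (hz : 40000 * M ^ 6 ≤ z) (h : Sy c z y J Rs N K) (hδ : 0 ≤ δ) (ha : |a| ≤ M) (hA : Bd1 m A0)
    (hAm : A0 ∈ SA1 (M1 (S0 z)))
    (hm : m < 2 ^ (K + 1)) (hN : Bd1 N (A0 * Bm M (1 + a) z y J Rs)) (hE : ETM M c z y J Rs ≤ 1) :
    ip δ (Dm N M a z y J Rs A0 - A0 * Bm M (1 + a) z y J Rs) (Dm N M a z y J Rs A0 - A0 * Bm M (1 + a) z y J Rs) ≤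
      ((ip δ A0 A0 + (2 ^ (S0 z).card * l1' A0) ^ 2 / 2 ^ (K + 1)) *
        Real.exp (ETM M c z y J Rs + 2 * vd δ (Rst N y)) -
        2 * (1 - ETM M c z y J Rs) * ip δ A0 A0 + Real.exp (ETM M c z y J Rs) * ip δ A0 A0) *
        Real.exp ((1 + a) ^ 2 * Vd δ z y J) := by
  have h0 := ip_self_nonneg δ A0
  have e1 : Dm N M a z y J Rs A0 - A0 * Bm M (1 + a) z y J Rs =
      trn N (F1 K z A0 * F2m K M a z y J Rs * GI K (Rst N y) - A0 * Bm M (1 + a) z y J Rs) := by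
    rw [trn_sub, trn_self hN, Dm_split h hA]
  rw [e1]
  refine (trn_ip_le δ N _).trans ?_
  rw [ip_sub_self]
  have t1 : ip δ (F1 K z A0 * F2m K M a z y J Rs * GI K (Rst N y)) (F1 K z A0 * F2m K M a z y J Rs * GI K (Rst N y)) ≤
      (ip δ A0 A0 + (2 ^ (S0 z).card * l1' A0) ^ 2 / 2 ^ (K + 1)) *
        Real.exp (ETM M c z y J Rs + 2 * vd δ (Rst N y)) * Real.exp ((1 + a) ^ 2 * Vd δ z y J) := by
    rw [ip3 h (F1_mem hAm) F2m_mem F3_mem (F1_mem hAm) F2m_mem F3_mem]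
    have g1 := (small_ip (z := z) hδ hA hm).2
    have g2 := F2m_one (K := K) hM hz h hδ ha
    have g3 := GI_ip_le hδ K (Rst_prime (N := N) (y := y))
    have g0 := le_trans (ip_self_nonneg δ (F1 K z A0)) g1
    calc _ ≤ (ip δ A0 A0 + (2 ^ (S0 z).card * l1' A0) ^ 2 / 2 ^ (K + 1)) *
          Real.exp ((1 + a) ^ 2 * Vd δ z y J + ETM M c z y J Rs) * Real.exp (2 * vd δ (Rst N y)) :=
          mul_le_mul (mul_le_mul g1 g2 (ip_self_nonneg _ _) g0) g3 (ip_self_nonneg _ _)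
            (mul_nonneg g0 (Real.exp_pos _).le)
      _ = _ := by rw [Real.exp_add, Real.exp_add]; ring
  have t2 : (1 - ETM M c z y J Rs) * ip δ A0 A0 * Real.exp ((1 + a) ^ 2 * Vd δ z y J) ≤
      ip δ (F1 K z A0 * F2m K M a z y J Rs * GI K (Rst N y)) (A0 * Bm M (1 + a) z y J Rs) := by
    have e2 : A0 * Bm M (1 + a) z y J Rs = A0 * Bm M (1 + a) z y J Rs * 1 := (mul_one _).symm
    rw [e2, ip3 h (F1_mem hAm) F2m_mem F3_mem hAm Bm_mem (Subalgebra.one_mem _), GI_ip_one δ K Rst_prime, mul_one]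
    have g1 : ip δ (F1 K z A0) A0 = ip δ A0 A0 := (small_ip hδ hA hm).1
    rw [g1]
    unfold F2m Bm
    rw [ip_prod δ J (IZ_dj h) AM_mem (fun i => NK_mem1 (x1_mem (IZ_prime i)) _ _)]
    have g2 := prod_low (J := J) (κ := (1 + a) ^ 2) (v := fun i => vd δ (IZ z y i)) (e := fun i => erM M c z y Rs i)
      (f := fun i => ip δ (AM K M (RR Rs i) a (IZ z y i)) (NK (20 * (M * RR Rs i)) (1 + a) (x1 (IZ z y i))))
      hE (fun i => erM_nonneg _ _ _ _ _ _) (fun i hi => by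
        have h3 := (abs_le.mp (blk2M hM hδ (BgM_IZ hz y i) (h.rg.v i hi) (h.rg.u hi) h.K2 (hRR h i) ha)).1
        have h4 := ebM_le_erM M c z y Rs i
        have h5 : 0 < Real.exp ((1 + a) ^ 2 * vd δ (IZ z y i)) := Real.exp_pos _
        nlinarith)
    have h2 := mul_le_mul_of_nonneg_left g2 h0
    refine le_trans (le_of_eq ?_) h2
    unfold ETM Vd
    ring
  have t3 : ip δ (A0 * Bm M (1 + a) z y J Rs) (A0 * Bm M (1 + a) z y J Rs) ≤
      Real.exp (ETM M c z y J Rs) * ip δ A0 A0 * Real.exp ((1 + a) ^ 2 * Vd δ z y J) := by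
    refine (N45M (K := K) hM hz h hδ ha hAm hE).2.trans (le_of_eq ?_)
    rw [Real.exp_add]; ring
  linarith

/-- the far parts -/
theorem N3M (hM : 1 ≤ M) (hz : 40000 * M ^ 6 ≤ z) (h : Sy c z y J Rs N K) (hδ : 0 ≤ δ) (ha : |a| ≤ M)
    (hAm : A0 ∈ SA1 (M1 (S0 z))) :
    ∑ j ∈ range J, ip δ (A0 * Bm M (1 + a) z y J Rs * Qe (RR Rs j) (IZ z y j))
      (A0 * Bm M (1 + a) z y J Rs * Qe (RR Rs j) (IZ z y j)) ≤
      ETM M c z y J Rs * Real.exp (ETM M c z y J Rs) * (ip δ A0 A0 * Real.exp ((1 + a) ^ 2 * Vd δ z y J)) := by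
  have h0 := ip_self_nonneg δ A0
  have hc := CEM_pos M c
  obtain ⟨k0, k1, _⟩ := k_absM hM ha
  have hj : ∀ j ∈ range J, ip δ (A0 * Bm M (1 + a) z y J Rs * Qe (RR Rs j) (IZ z y j))
      (A0 * Bm M (1 + a) z y J Rs * Qe (RR Rs j) (IZ z y j)) ≤
      erM M c z y Rs j * (Real.exp (ETM M c z y J Rs) * (ip δ A0 A0 * Real.exp ((1 + a) ^ 2 * Vd δ z y J))) := by
    intro j hj
    rw [mem_range] at hj
    set f : ℕ → P1 := fun i => NK (20 * (M * RR Rs i)) (1 + a) (x1 (IZ z y i)) * (if i = j then Qe (RR Rs j) (IZ z y j) else 1)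
      with hf
    have hfm : ∀ i, f i ∈ SA1 (M1 (IZ z y i)) := by
      intro i
      refine Subalgebra.mul_mem _ (NK_mem1 (x1_mem (IZ_prime i)) _ _) ?_
      split_ifs with hij
      · subst hij; exact Qe_mem (IZ_prime i) _
      · exact Subalgebra.one_mem _
    have e1 : A0 * Bm M (1 + a) z y J Rs * Qe (RR Rs j) (IZ z y j) = A0 * ∏ i ∈ range J, f i := by
      unfold Bm
      rw [hf, prod_mul_distrib, prod_ite_eq', if_pos (mem_range.mpr hj)]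
      ring
    rw [e1, ip2 hAm (prod_mem1 J fun i _ => hfm i) hAm (prod_mem1 J fun i _ => hfm i),
      ip_prod δ J (IZ_dj h) hfm hfm]
    have g1 : ∏ i ∈ range J, ip δ (f i) (f i) ≤ erM M c z y Rs j * Real.exp ((1 + a) ^ 2 * Vd δ z y J + ETM M c z y J Rs) := by
      have g2 : ∏ i ∈ range J, ip δ (f i) (f i) ≤ ∏ i ∈ range J, ((if i = j then erM M c z y Rs j else 1) *
          (Real.exp ((1 + a) ^ 2 * vd δ (IZ z y i)) * Real.exp (erM M c z y Rs i))) := by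
        refine prod_le_prod (fun i _ => ip_self_nonneg _ _) fun i hi => ?_
        rw [mem_range] at hi
        have hE1 : 1 ≤ Real.exp ((1 + a) ^ 2 * vd δ (IZ z y i)) :=
          Real.one_le_exp (mul_nonneg (sq_nonneg _) (vd_nonneg _ _))
        have hE2 := Real.add_one_le_exp (erM M c z y Rs i)
        have hE3 := erM_nonneg M c z y Rs i
        have hE4 := ebM_le_erM M c z y Rs i
        rw [hf]
        simp only
        split_ifs with hij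
        · subst hij
          have g3 := blk5M hM hδ (BgM_IZ hz y i) (h.rg.v i hi) (h.rg.u hi) (hRR h i) k1
          have g4 : CEM M c * Real.exp (-(2 * (RR Rs i : ℝ))) ≤ erM M c z y Rs i := by
            unfold erM; have := ebM_nonneg M c (IZ z y i) (RR Rs i); linarith
          refine g3.trans (g4.trans ?_)
          have g5 : 1 ≤ Real.exp ((1 + a) ^ 2 * vd δ (IZ z y i)) * Real.exp (erM M c z y Rs i) := by nlinarith
          nlinarith
        · rw [mul_one, one_mul]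
          have g3 := blk3M hM hδ (BgM_IZ hz y i) (h.rg.v i hi) (h.rg.u hi) (hRR h i) ha
          have g4 := (abs_le.mp g3).2
          nlinarith
      refine g2.trans (le_of_eq ?_)
      rw [prod_mul_distrib, prod_ite_eq', if_pos (mem_range.mpr hj), prod_mul_distrib, ← Real.exp_sum, ← Real.exp_sum,
        Real.exp_add]
      unfold Vd ETM
      rw [mul_sum]
    refine (mul_le_mul_of_nonneg_left g1 h0).trans (le_of_eq ?_)
    rw [Real.exp_add]; ring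
  refine (sum_le_sum hj).trans (le_of_eq ?_)
  rw [← sum_mul]
  unfold ETM
  ring

end

lemma ETM_small (M : ℕ) {c ε : ℝ} (hc : 0 ≤ c) (hε : 0 < ε) : ∃ z0 R0 : ℕ, ∀ z : ℕ, z0 ≤ z → ∀ Rs : ℕ, R0 ≤ Rs →
    ∀ (y : ℝ) (J : ℕ), Rg c J (IZ z y) (bb y) → ETM M c z y J Rs ≤ ε := by
  have hCE := CEM_pos M c
  set B1 := 750000 * (M:ℝ) ^ 9 with hB1
  have hB10 : 0 ≤ B1 := by positivity
  set B := B1 * Real.exp (B1 * c) + 1 with hB
  have hB0 : 0 < B := by positivity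
  obtain ⟨z0, hz0⟩ := uI_tail (ε := ε / 2 / B) (by positivity)
  obtain ⟨R0, hR0⟩ := exists_nat_gt (10 * CEM M c / (ε / 2))
  refine ⟨z0, R0, fun z hz Rs hRs y J hJ => ?_⟩
  have h1 : ∀ i ∈ range J, erM M c z y Rs i ≤ B * uI (IZ z y i) + 5 * CEM M c * Real.exp (-(RR Rs i : ℝ)) := by
    intro i hi
    rw [mem_range] at hi
    unfold erM ebM
    have hu0 := uI_nonneg (IZ z y i)
    have hu1 := hJ.u hi
    have h2 := exp_sub_one_le (x := B1 * uI (IZ z y i)) (M := B1 * c) (by positivity)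
      (mul_le_mul_of_nonneg_left hu1 hB10)
    have h3 : Real.exp (-(2 * (RR Rs i : ℝ))) ≤ Real.exp (-(RR Rs i : ℝ)) := by
      refine Real.exp_le_exp.mpr ?_
      have : (0:ℝ) ≤ (RR Rs i : ℝ) := Nat.cast_nonneg _
      linarith
    have h4 := mul_le_mul_of_nonneg_left h3 hCE.le
    rw [hB]
    rw [← hB1]
    linarith
  have h2 : ∑ i ∈ range J, uI (IZ z y i) ≤ ε / 2 / B := by
    have h3 : ∑ i ∈ range J, uI (IZ z y i) = ∑ p ∈ (range J).biUnion (IZ z y), (p:ℝ) ^ (-(3 / 2 : ℝ)) := by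
      rw [sum_biUnion]
      · rfl
      · intro i _ j _ hij
        rcases lt_or_gt_of_ne hij with h | h
        · exact hJ.dj i j h
        · exact (hJ.dj j i h).symm
    rw [h3]
    refine hz0 z hz _ fun p hp => ?_
    rw [mem_biUnion] at hp
    obtain ⟨i, _, hi⟩ := hp
    exact (mem_IZ.mp hi).2
  have h3 := sum_exp_two J Rs
  have h4 : 10 * CEM M c * Real.exp (-(2 * (Rs:ℝ))) ≤ ε / 2 := by
    have h5 : (R0:ℝ) ≤ Rs := by exact_mod_cast hRs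
    have h6 : 10 * CEM M c / (ε / 2) ≤ Real.exp (2 * (Rs:ℝ)) := by
      have := Real.add_one_le_exp (2 * (Rs:ℝ))
      have : (0:ℝ) ≤ Rs := Nat.cast_nonneg _
      linarith
    rw [div_le_iff₀ (by positivity)] at h6
    rw [Real.exp_neg, ← div_eq_mul_inv, div_le_iff₀ (Real.exp_pos _)]
    linarith
  unfold ETM
  refine (sum_le_sum h1).trans ?_
  rw [sum_add_distrib, ← mul_sum, ← mul_sum]
  have h5 : B * (ε / 2 / B) = ε / 2 := by field_simp
  have h6 := mul_le_mul_of_nonneg_left h2 hB0.le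
  have h7 := mul_le_mul_of_nonneg_left h3 (by positivity : 0 ≤ 5 * CEM M c)
  linarith

end Pool.Agent.Y755
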