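import Pool.Agent.Y755.Gm3
import Pool.Agent.Y755.Cmp

set_option autoImplicit false

/-! The twisted second moment on the line for positive exponents: the algebra. -/

namespace Pool.Agent.Y755

open Finset Filter MeasureTheory MonoidAlgebra
open Pool.Agent.W184.NZ

lemma Nn.smul' {f : DA} (hf : Nn f) {c : ℝ} (hc : 0 ≤ c) : Nn (c • f) := by
  intro x
  rw [coeff_smul, Finsupp.smul_apply, smul_eq_mul]
  exact mul_nonneg hc (hf x)

lemma NK_Nn {f : DA} (hf : Nn f) {a : ℝ} (ha : 0 ≤ a) (K : ℕ) : Nn (NK K a f) :=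
  Nn.sum fun k _ => Nn.smul' (hf.pow k) (by positivity)

lemma Nn.prod' {ι : Type*} {s : Finset ι} {f : ι → DA} (h : ∀ i ∈ s, Nn (f i)) : Nn (∏ i ∈ s, f i) := by
  classical
  induction s using Finset.induction_on with
  | empty => rw [prod_empty]; exact Nn.one
  | insert i s hi ih =>
    rw [prod_insert hi]
    exact (h i (mem_insert_self _ _)).mul (ih fun j hj => h j (mem_insert_of_mem hj))

lemma lam1_nonneg {f : DA} (hf : Nn f) : 0 ≤ lam w1 f := by
  rw [lam_apply, Finsupp.sum]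
  exact sum_nonneg fun x _ => mul_nonneg (hf x) (w1_nonneg x)

lemma laml_nonneg {f : DA} (hf : Nn f) {N : ℝ} (hB : Bd N f) : 0 ≤ lam wl f := by
  rw [lam_apply, Finsupp.sum]
  exact sum_nonneg fun x hx => mul_nonneg (hf x) (wl_nonneg (hB x hx).1.1 (hB x hx).1.2)

lemma NK_add_dom {x y : DA} (hx : Nn x) (hy : Nn y) {a : ℝ} (ha : 0 ≤ a) (K : ℕ) :
    Nn (NK K a x * NK K a y - NK K a (x + y)) := by
  classical
  set F : ℕ × ℕ → DA := fun m => (a ^ m.1 / (m.1.factorial : ℝ) * (a ^ m.2 / (m.2.factorial : ℝ))) • (x ^ m.1 * y ^ m.2)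
    with hF
  have hFn : ∀ m, Nn (F m) := fun m => Nn.smul' ((hx.pow _).mul (hy.pow _)) (by positivity)
  have e1 : NK K a x * NK K a y = ∑ m ∈ range (K + 1) ×ˢ range (K + 1), F m := by
    unfold NK
    rw [sum_mul_sum, sum_product]
    refine sum_congr rfl fun k _ => sum_congr rfl fun l _ => ?_
    rw [hF]
    simp only
    rw [smul_mul_smul_comm]
  have e2 : NK K a (x + y) = ∑ k ∈ range (K + 1), ∑ m ∈ antidiagonal k, F m := by
    unfold NK
    refine sum_congr rfl fun k _ => ?_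
    rw [(Commute.all x y).add_pow', smul_sum]
    refine sum_congr rfl fun m hm => ?_
    rw [HasAntidiagonal.mem_antidiagonal] at hm
    rw [hF]
    simp only
    rw [← Nat.cast_smul_eq_nsmul ℝ, smul_smul]
    congr 1
    have h1 : ((k.choose m.1 : ℕ) : ℝ) * (m.1.factorial : ℝ) * (m.2.factorial : ℝ) = (k.factorial : ℝ) := by
      rw [← hm]
      have h0 := Nat.add_choose_mul_factorial_mul_factorial m.2 m.1
      rw [add_comm m.2 m.1] at h0
      have h00 : (m.1 + m.2).choose m.1 * m.1.factorial * m.2.factorial = (m.1 + m.2).factorial := by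
        rw [← h0]; ring
      exact_mod_cast h00
    have f1 : (m.1.factorial : ℝ) ≠ 0 := by positivity
    have f2 : (m.2.factorial : ℝ) ≠ 0 := by positivity
    have f3 : (k.factorial : ℝ) ≠ 0 := by positivity
    field_simp
    rw [← h1, ← hm, pow_add]
    ring
  have e3 : ∑ k ∈ range (K + 1), ∑ m ∈ antidiagonal k, F m =
      ∑ m ∈ (range (K + 1) ×ˢ range (K + 1)).filter (fun m => m.1 + m.2 < K + 1), F m := by
    rw [← sum_fiberwise_of_maps_to (s := (range (K + 1) ×ˢ range (K + 1)).filter (fun m => m.1 + m.2 < K + 1))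
      (t := range (K + 1)) (g := fun m => m.1 + m.2) (fun m hm => by
        rw [mem_filter] at hm; exact mem_range.mpr hm.2)]
    refine sum_congr rfl fun k hk => ?_
    refine sum_congr ?_ fun _ _ => rfl
    ext m
    rw [mem_range] at hk
    rw [HasAntidiagonal.mem_antidiagonal, mem_filter, mem_filter, mem_product, mem_range, mem_range]
    constructor
    · intro h; omega
    · rintro ⟨_, h⟩; exact h
  rw [e1, e2, e3, ← sum_filter_add_sum_filter_not (range (K + 1) ×ˢ range (K + 1)) (fun m => m.1 + m.2 < K + 1),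
    add_sub_cancel_left]
  exact Nn.sum fun m _ => hFn m

lemma NK_zero_eq (K : ℕ) (a : ℝ) : NK K a (0 : DA) = 1 := by
  unfold NK
  rw [sum_range_succ', sum_eq_zero]
  · simp
  · intro k _
    rw [zero_pow (by omega), smul_zero]

lemma NK_sum_dom {ι : Type*} {s : Finset ι} {f : ι → DA} (h : ∀ i ∈ s, Nn (f i)) {a : ℝ} (ha : 0 ≤ a) (K : ℕ) :
    Nn (∏ i ∈ s, NK K a (f i) - NK K a (∑ i ∈ s, f i)) := by
  classical
  induction s using Finset.induction_on with
  | empty =>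
    rw [prod_empty, sum_empty, NK_zero_eq, sub_self]
    exact Nn.zero
  | insert i s hi ih =>
    rw [prod_insert hi, sum_insert hi]
    have hfi := h i (mem_insert_self _ _)
    have hfs : Nn (∑ i ∈ s, f i) := Nn.sum fun j hj => h j (mem_insert_of_mem hj)
    have ih' := ih fun j hj => h j (mem_insert_of_mem hj)
    have e : NK K a (f i) * ∏ i ∈ s, NK K a (f i) - NK K a (f i + ∑ i ∈ s, f i) =
        NK K a (f i) * (∏ i ∈ s, NK K a (f i) - NK K a (∑ i ∈ s, f i)) +
        (NK K a (f i) * NK K a (∑ i ∈ s, f i) - NK K a (f i + ∑ i ∈ s, f i)) := by ring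
    rw [e]
    exact ((NK_Nn hfi ha K).mul ih').add (NK_add_dom hfi hfs ha K)

/-- one prime -/
lemma w1_pow_le {p : ℕ} (hp : p.Prime) (k l : ℕ) : w1 (p ^ k, p ^ l) ≤
    (1 / (p:ℝ)) ^ 2 + (if k ≤ 1 ∧ l ≤ 1 then (if k = 0 ∧ l = 0 then 1 else 1 / (p:ℝ)) else 0) := by
  have hp1 : (1:ℝ) < p := by exact_mod_cast hp.one_lt
  have hp0 : (0:ℝ) < p := by linarith
  have hq : 0 ≤ (1 / (p:ℝ)) ^ 2 := by positivity
  have hpl : ∀ k : ℕ, (0:ℝ) < (p:ℝ) ^ k := fun k => pow_pos hp0 k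
  have hinv : ∀ k : ℕ, 2 ≤ k → 1 / (p:ℝ) ^ k ≤ (1 / (p:ℝ)) ^ 2 := by
    intro k hk
    rw [div_pow, one_pow]
    exact one_div_le_one_div_of_le (hpl 2) (pow_le_pow_right₀ hp1.le hk)
  rcases Nat.lt_or_ge 1 k with hk | hk
  · rw [if_neg (by omega), add_zero]
    refine le_trans ?_ (hinv k hk)
    unfold w1
    simp only
    push_cast
    rw [div_le_div_iff₀ (mul_pos (hpl k) (hpl l)) (hpl k), one_mul, mul_comm]
    refine mul_le_mul_of_nonneg_left ?_ (hpl k).le
    exact_mod_cast Nat.gcd_le_right _ (pow_pos hp.pos l)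
  rcases Nat.lt_or_ge 1 l with hl | hl
  · rw [if_neg (by omega), add_zero]
    refine le_trans ?_ (hinv l hl)
    unfold w1
    simp only
    push_cast
    rw [div_le_div_iff₀ (mul_pos (hpl k) (hpl l)) (hpl l), one_mul]
    refine mul_le_mul_of_nonneg_right ?_ (hpl l).le
    exact_mod_cast Nat.gcd_le_left _ (pow_pos hp.pos k)
  rw [if_pos ⟨hk, hl⟩]
  refine le_trans ?_ (le_add_of_nonneg_left hq)
  interval_cases k <;> interval_cases l
  · simp [w1]
  · simp [w1]
  · simp [w1]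
  · simp only [pow_one, one_ne_zero, false_and, if_false]
    unfold w1
    simp only [Nat.gcd_self]
    rw [div_mul_eq_div_div, div_self hp0.ne']

/-- the local factor -/
lemma loc_one {p : ℕ} (hp : p.Prime) {a : ℝ} (ha : 0 ≤ a) {K : ℕ} (hK : 1 ≤ K) :
    lam w1 (NK K a (single (p, 1) 1 : DA) * NK K a (single (1, p) 1 : DA)) ≤
      Real.exp ((2 * a + a ^ 2) * (1 / (p:ℝ)) + Real.exp (2 * a) * (p:ℝ) ^ (-(3 / 2 : ℝ))) := by
  have hp0 : (0:ℝ) < p := by exact_mod_cast hp.pos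
  set c : ℕ → ℝ := fun k => a ^ k / (k.factorial : ℝ) with hc
  have hc0 : ∀ k, 0 ≤ c k := fun k => by rw [hc]; positivity
  have e1 : lam w1 (NK K a (single (p, 1) 1 : DA) * NK K a (single (1, p) 1 : DA)) =
      ∑ k ∈ range (K + 1), ∑ l ∈ range (K + 1), c k * c l * w1 (p ^ k, p ^ l) := by
    unfold NK
    rw [sum_mul_sum, map_sum]
    refine sum_congr rfl fun k _ => ?_
    rw [map_sum]
    refine sum_congr rfl fun l _ => ?_
    rw [smul_mul_smul_comm, xp_pow, MonoidAlgebra.smul_single, lam_single, smul_eq_mul, mul_one]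
  rw [e1]
  set g : ℕ → ℕ → ℝ := fun k l => if k ≤ 1 ∧ l ≤ 1 then (if k = 0 ∧ l = 0 then 1 else 1 / (p:ℝ)) else 0 with hg
  have h1 : ∑ k ∈ range (K + 1), ∑ l ∈ range (K + 1), c k * c l * w1 (p ^ k, p ^ l) ≤
      ∑ k ∈ range (K + 1), ∑ l ∈ range (K + 1), (c k * c l * (1 / (p:ℝ)) ^ 2 + c k * c l * g k l) := by
    refine sum_le_sum fun k _ => sum_le_sum fun l _ => ?_
    rw [← mul_add]
    exact mul_le_mul_of_nonneg_left (w1_pow_le hp k l) (mul_nonneg (hc0 k) (hc0 l))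
  refine h1.trans ?_
  simp_rw [sum_add_distrib]
  have h2 : ∑ k ∈ range (K + 1), ∑ l ∈ range (K + 1), c k * c l * (1 / (p:ℝ)) ^ 2 ≤ Real.exp (2 * a) * (1 / (p:ℝ)) ^ 2 := by
    have e2 : ∑ k ∈ range (K + 1), ∑ l ∈ range (K + 1), c k * c l * (1 / (p:ℝ)) ^ 2 =
        (∑ k ∈ range (K + 1), c k) * (∑ l ∈ range (K + 1), c l) * (1 / (p:ℝ)) ^ 2 := by
      rw [sum_mul_sum, sum_mul]
      refine sum_congr rfl fun k _ => ?_
      rw [sum_mul]
    rw [e2]
    refine mul_le_mul_of_nonneg_right ?_ (by positivity)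
    have h3 : ∑ k ∈ range (K + 1), c k ≤ Real.exp a := Real.sum_le_exp_of_nonneg ha (K + 1)
    have h4 : 0 ≤ ∑ k ∈ range (K + 1), c k := sum_nonneg fun k _ => hc0 k
    calc _ ≤ Real.exp a * Real.exp a := mul_le_mul h3 h3 h4 (Real.exp_pos _).le
      _ = Real.exp (2 * a) := by rw [← Real.exp_add]; congr 1; ring
  have h3 : ∑ k ∈ range (K + 1), ∑ l ∈ range (K + 1), c k * c l * g k l = 1 + (2 * a + a ^ 2) * (1 / (p:ℝ)) := by
    have hsub : range 2 ⊆ range (K + 1) := range_subset_range.mpr (by omega)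
    have e2 : ∀ k, ∑ l ∈ range (K + 1), c k * c l * g k l = ∑ l ∈ range 2, c k * c l * g k l := by
      intro k
      symm
      refine sum_subset hsub fun l _ hl => ?_
      rw [mem_range] at hl
      rw [hg]
      simp only
      rw [if_neg (by omega), mul_zero]
    simp_rw [e2]
    have e3 : ∑ k ∈ range (K + 1), ∑ l ∈ range 2, c k * c l * g k l = ∑ k ∈ range 2, ∑ l ∈ range 2, c k * c l * g k l := by
      symm
      refine sum_subset hsub fun k _ hk => ?_
      rw [mem_range] at hk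
      refine sum_eq_zero fun l _ => ?_
      rw [hg]
      simp only
      rw [if_neg (by omega), mul_zero]
    rw [e3]
    simp only [sum_range_succ, sum_range_zero, zero_add, hg, hc]
    norm_num
    ring
  rw [h3]
  have h4 := Real.add_one_le_exp ((2 * a + a ^ 2) * (1 / (p:ℝ)) + Real.exp (2 * a) * (p:ℝ) ^ (-(3 / 2 : ℝ)))
  have h5 := mul_le_mul_of_nonneg_left (sq_le_u hp.one_lt.le) (Real.exp_pos (2 * a)).le
  linarith

/-- the polynomial of one block -/
noncomputable def fB (K : ℕ) (a : ℝ) (I : Finset ℕ) : DA := NK K a (xI I) * NK K a (yI I)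

lemma fB_mem {I : Finset ℕ} (hI : ∀ p ∈ I, p.Prime) (K : ℕ) (a : ℝ) : fB K a I ∈ SA (MI I) :=
  Subalgebra.mul_mem _ (NK_mem (xI_mem hI) _ _) (NK_mem (yI_mem hI) _ _)

lemma fB_Nn (K : ℕ) {a : ℝ} (ha : 0 ≤ a) (I : Finset ℕ) : Nn (fB K a I) :=
  (NK_Nn xI_Nn ha K).mul (NK_Nn yI_Nn ha K)

lemma loc_prod {I : Finset ℕ} (hI : ∀ p ∈ I, p.Prime) (K : ℕ) (a : ℝ) :
    lam w1 (∏ p ∈ I, (NK K a (single (p, 1) 1 : DA) * NK K a (single (1, p) 1 : DA))) =
      ∏ p ∈ I, lam w1 (NK K a (single (p, 1) 1 : DA) * NK K a (single (1, p) 1 : DA)) := by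
  classical
  have hm : ∀ (S : Finset ℕ) (p : ℕ), p.Prime → p ∈ S →
      (NK K a (single (p, 1) 1 : DA) * NK K a (single (1, p) 1 : DA)) ∈ SA (MI S) := by
    intro S p hp hS
    have h1 : (single (p, 1) 1 : DA) ∈ SA (MI S) := by
      refine single_mem_SA (mem_MI.mpr ⟨hp.ne_zero, one_ne_zero, fun q hq h => ?_⟩) _
      rcases h with h | h
      · rw [(Nat.prime_dvd_prime_iff_eq hq hp).mp h]; exact hS
      · exact absurd (Nat.dvd_one.mp h) hq.ne_one
    have h2 : (single (1, p) 1 : DA) ∈ SA (MI S) := by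
      refine single_mem_SA (mem_MI.mpr ⟨one_ne_zero, hp.ne_zero, fun q hq h => ?_⟩) _
      rcases h with h | h
      · exact absurd (Nat.dvd_one.mp h) hq.ne_one
      · rw [(Nat.prime_dvd_prime_iff_eq hq hp).mp h]; exact hS
    exact Subalgebra.mul_mem _ (NK_mem h1 _ _) (NK_mem h2 _ _)
  induction I using Finset.induction_on with
  | empty => rw [prod_empty, prod_empty]; exact lam_one goodW1
  | insert p s hp ih =>
    rw [prod_insert hp, prod_insert hp, lam1_mul (I := {p}) (J := s) (disjoint_singleton_left.mpr hp)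
      (hm _ p (hI p (mem_insert_self _ _)) (mem_singleton_self p))
      (Subalgebra.prod_mem _ fun q hq => hm _ q (hI q (mem_insert_of_mem hq)) hq),
      ih fun q hq => hI q (mem_insert_of_mem hq)]

lemma fB_up {I : Finset ℕ} (hI : ∀ p ∈ I, p.Prime) {K : ℕ} (hK : 1 ≤ K) {a : ℝ} (ha : 0 ≤ a) :
    lam w1 (fB K a I) ≤ Real.exp ((2 * a + a ^ 2) * vI I + Real.exp (2 * a) * uI I) := by
  have d1 : Nn (∏ p ∈ I, NK K a (single (p, 1) 1 : DA) - NK K a (xI I)) :=
    NK_sum_dom (fun p _ => Nn.single _ zero_le_one) ha K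
  have d2 : Nn (∏ p ∈ I, NK K a (single (1, p) 1 : DA) - NK K a (yI I)) :=
    NK_sum_dom (fun p _ => Nn.single _ zero_le_one) ha K
  have n1 : Nn (∏ p ∈ I, NK K a (single (1, p) 1 : DA)) :=
    Nn.prod' fun p _ => NK_Nn (Nn.single _ zero_le_one) ha K
  have e1 : ∏ p ∈ I, (NK K a (single (p, 1) 1 : DA) * NK K a (single (1, p) 1 : DA)) - fB K a I =
      (∏ p ∈ I, NK K a (single (p, 1) 1 : DA) - NK K a (xI I)) * ∏ p ∈ I, NK K a (single (1, p) 1 : DA) +
      NK K a (xI I) * (∏ p ∈ I, NK K a (single (1, p) 1 : DA) - NK K a (yI I)) := by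
    unfold fB
    rw [prod_mul_distrib]; ring
  have h1 := lam1_nonneg ((d1.mul n1).add ((NK_Nn (xI_Nn (I := I)) ha K).mul d2))
  rw [← e1, map_sub, loc_prod hI] at h1
  have h2 : ∏ p ∈ I, lam w1 (NK K a (single (p, 1) 1 : DA) * NK K a (single (1, p) 1 : DA)) ≤
      ∏ p ∈ I, Real.exp ((2 * a + a ^ 2) * (1 / (p:ℝ)) + Real.exp (2 * a) * (p:ℝ) ^ (-(3 / 2 : ℝ))) := by
    refine prod_le_prod (fun p _ => ?_) fun p hp => loc_one (hI p hp) ha hK
    exact lam1_nonneg ((NK_Nn (Nn.single _ zero_le_one) ha K).mul (NK_Nn (Nn.single _ zero_le_one) ha K))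
  rw [← Real.exp_sum, sum_add_distrib, ← mul_sum, ← mul_sum] at h2
  unfold vI uI
  linarith

end Pool.Agent.Y755
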