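import Pool.Agent.Y755.Hpb

set_option autoImplicit false

/-! The difference off the line is small on average: asymptotic form. -/

namespace Pool.Agent.Y755

open Finset Filter MeasureTheory
open Pool.Agent.W184.NZ
open Pool.Agent.H306R2.SM (om cl Yf)
open Pool.Agent.H262R4.TM (Rng Ck)

lemma NT_le {T : ℝ} (hT : 0 ≤ T) : (NT T : ℝ) ≤ T ^ ((1:ℝ) / 8) := Nat.floor_le (by positivity)

lemma NT_tendsto : Tendsto (fun T : ℝ => (NT T : ℝ)) atTop atTop := by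
  have h1 : Tendsto (fun T : ℝ => T ^ ((1:ℝ) / 8)) atTop atTop := tendsto_rpow_atTop (by norm_num)
  have h2 := (tendsto_nat_floor_atTop (α := ℝ)).comp h1
  exact tendsto_natCast_atTop_atTop.comp h2

lemma ly_exp {η T : ℝ} {Rs : ℕ} (hT : 1 ≤ T) (hη1 : η * ((Rs:ℝ) + 1) ≤ 1 / 16000) :
    Real.exp (Real.log (yT η T) * (180 * ((Rs:ℝ) + 1))) ≤ T ^ ((1:ℝ) / 50) := by
  have hT0 : 0 < T := by linarith
  have hL := Real.log_nonneg hT
  unfold yT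
  rw [Real.log_exp, Real.rpow_def_of_pos hT0]
  refine Real.exp_le_exp.mpr ?_
  have e : η * Real.log T * (180 * ((Rs:ℝ) + 1)) = 180 * (η * ((Rs:ℝ) + 1)) * Real.log T := by ring
  rw [e, mul_comm (Real.log T)]
  refine mul_le_mul_of_nonneg_right ?_ hL
  linarith

lemma ly_exp80 {η T : ℝ} {Rs : ℕ} (hT : 1 ≤ T) (hη1 : η * ((Rs:ℝ) + 1) ≤ 1 / 16000) :
    Real.exp (Real.log (yT η T) * (80 * ((Rs:ℝ) + 1))) ≤ T ^ ((1:ℝ) / 50) := by
  have hT0 : 0 < T := by linarith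
  have hL := Real.log_nonneg hT
  unfold yT
  rw [Real.log_exp, Real.rpow_def_of_pos hT0]
  refine Real.exp_le_exp.mpr ?_
  have e : η * Real.log T * (80 * ((Rs:ℝ) + 1)) = 80 * (η * ((Rs:ℝ) + 1)) * Real.log T := by ring
  rw [e, mul_comm (Real.log T)]
  refine mul_le_mul_of_nonneg_right ?_ hL
  linarith

lemma rpow_ev {p q : ℝ} (h : p < q) (C : ℝ) : ∀ᶠ T : ℝ in atTop, C * T ^ p ≤ T ^ q := by
  have h1 : Tendsto (fun T : ℝ => T ^ (q - p)) atTop atTop := tendsto_rpow_atTop (by linarith)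
  filter_upwards [h1.eventually_ge_atTop C, eventually_gt_atTop 0] with T hT hT0
  have e : T ^ q = T ^ (q - p) * T ^ p := by rw [← Real.rpow_add hT0]; congr 1; ring
  rw [e]
  exact mul_le_mul_of_nonneg_right hT (by positivity)

lemma windows_ev : ∀ᶠ T : ℝ in atTop, T ^ ((4:ℝ)/5) ≤ T / 2 ∧ T ^ ((3:ℝ)/4) ≤ T ^ ((4:ℝ)/5) - T ^ ((1:ℝ)/4) ∧
    T / 2 + T ^ ((1:ℝ)/4) ≤ T := by
  filter_upwards [rpow_ev (p := 4 / 5) (q := 1) (by norm_num) 2, rpow_ev (p := 3 / 4) (q := 4 / 5) (by norm_num) 2,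
    rpow_ev (p := 1 / 4) (q := 4 / 5) (by norm_num) 2, rpow_ev (p := 1 / 4) (q := 1) (by norm_num) 2,
    eventually_ge_atTop 0] with T h1 h2 h3 h4 h5
  rw [Real.rpow_one] at h1 h4
  refine ⟨by linarith, by linarith, by linarith⟩

lemma Vd_zero (z : ℕ) (y : ℝ) (J : ℕ) : Vd 0 z y J = ∑ i ∈ range J, vI (IZ z y i) :=
  sum_congr rfl fun i _ => vd_zero (IZ_prime i)

lemma NT_pow {T : ℝ} (hT : 1 ≤ T) (k : ℕ) : (NT T : ℝ) ^ k ≤ T ^ ((k:ℝ) / 8) := by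
  refine (pow_le_pow_left₀ (Nat.cast_nonneg _) (NT_le (by linarith)) k).trans (le_of_eq ?_)
  rw [← Real.rpow_natCast, ← Real.rpow_mul (by linarith)]
  congr 1; ring

/-- the sum of the norms on the line -/
lemma N1_line {c d η a m : ℝ} {z Rs J : ℕ} {A0 : P1} {T : ℝ} (hS : Sy c z (yT η T) J Rs (NT T) (KT T))
    (hV : |∑ i ∈ range J, vI (IZ z (yT η T) i) - Real.log (Real.log T)| ≤ d) (hW : vd 0 (Rst (NT T) (yT η T)) ≤ d)
    (hE : ET c z (yT η T) J Rs ≤ 1) (ha : |a| ≤ 1) (hA : Bd1 m A0) (hAm : A0 ∈ SA1 (M1 (S0 z)))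
    (hm : m ≤ NT T) (hd : 0 ≤ d) (hL : 1 ≤ Real.log T) :
    ∑ S ∈ (range J).powerset, ip 0 (DS (NT T) a z (yT η T) J Rs A0 S) (DS (NT T) a z (yT η T) J Rs A0 S) ≤
      (ip 0 A0 A0 + (2 ^ (S0 z).card * l1' A0) ^ 2) * Real.exp (6 * d + 1) * Real.log T ^ ((1 + a) ^ 2) := by
  have hmK : m < 2 ^ (KT T + 1) := by
    have : ((NT T : ℕ) : ℝ) < ((2 ^ (KT T + 1) : ℕ) : ℝ) := by exact_mod_cast hS.NK
    push_cast at this
    linarith
  refine (N1 hS le_rfl ha hA hAm hmK).trans ?_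
  obtain ⟨ha1, ha2⟩ := abs_le.mp ha
  have h1 : (2 ^ (S0 z).card * l1' A0) ^ 2 / 2 ^ (KT T + 1) ≤ (2 ^ (S0 z).card * l1' A0) ^ 2 :=
    div_le_self (by positivity) (one_le_pow₀ (by norm_num))
  have h2 : Real.exp ((1 + a) ^ 2 * Vd 0 z (yT η T) J + ET c z (yT η T) J Rs) * Real.exp (2 * vd 0 (Rst (NT T) (yT η T))) ≤
      Real.exp (6 * d + 1) * Real.log T ^ ((1 + a) ^ 2) := by
    rw [Real.rpow_def_of_pos (by linarith), ← Real.exp_add, ← Real.exp_add]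
    refine Real.exp_le_exp.mpr ?_
    rw [Vd_zero]
    have h3 := (abs_le.mp hV).2
    have h4 : (1 + a) ^ 2 * (∑ i ∈ range J, vI (IZ z (yT η T) i)) ≤ (1 + a) ^ 2 * (Real.log (Real.log T) + d) :=
      mul_le_mul_of_nonneg_left (by linarith) (sq_nonneg _)
    have h5 : (1 + a) ^ 2 * d ≤ 4 * d := mul_le_mul_of_nonneg_right (by nlinarith only [ha1, ha2]) hd
    linarith
  have h0 := ip_self_nonneg 0 A0
  calc _ = (ip 0 A0 A0 + (2 ^ (S0 z).card * l1' A0) ^ 2 / 2 ^ (KT T + 1)) *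
        (Real.exp ((1 + a) ^ 2 * Vd 0 z (yT η T) J + ET c z (yT η T) J Rs) * Real.exp (2 * vd 0 (Rst (NT T) (yT η T)))) := by ring
    _ ≤ (ip 0 A0 A0 + (2 ^ (S0 z).card * l1' A0) ^ 2) * (Real.exp (6 * d + 1) * Real.log T ^ ((1 + a) ^ 2)) := by
        refine mul_le_mul (by linarith) h2 (by positivity) (by positivity)
    _ = _ := by ring

/-- the difference off the line -/
theorem hpa {c ηm η d m : ℝ} {z Rs : ℕ} {A0 : P1} (hc : 0 ≤ c) (hηm : 0 < ηm)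
    (hmono : ∀ᶠ Y : ℝ in atTop, ∀ k : ℕ, Rng Y k → ∀ x : ℕ × ℕ,
      x.1 ≠ 0 → x.2 ≠ 0 → (x.1 : ℝ) ≤ Y ^ ((1:ℝ) / 4) → (x.2 : ℝ) ≤ Y ^ ((1:ℝ) / 4) →
      |Zm k Y x - Mn k Y x| ≤ 2 * Y ^ (-ηm)) (hη : 0 < η) (hη1 : η * ((Rs:ℝ) + 1) ≤ min ηm (1 / 4) / 4000)
    (hRs : Rok c Rs) (hd : 0 ≤ d) (hA : Bd1 m A0) (hAm : A0 ∈ SA1 (M1 (S0 z))) :
    ∃ C : ℝ, 0 < C ∧ ∀ᶠ T : ℝ in atTop, ∀ J : ℕ, Sy c z (yT η T) J Rs (NT T) (KT T) →
      |∑ i ∈ range J, vI (IZ z (yT η T) i) - Real.log (Real.log T)| ≤ d → vd 0 (Rst (NT T) (yT η T)) ≤ d →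
      ET c z (yT η T) J Rs ≤ 1 → ∀ a : ℝ, |a| ≤ 1 → ∀ δ : ℝ, 1 / Real.log T ≤ δ → δ ≤ 1 / 16 →
      ∑ S ∈ (range J).powerset, ∫ t in (T ^ ((4:ℝ)/5))..(T / 2),
        qd (fun s => es s (Pz z * A0 * Bz a z (yT η T) J Rs S))
          (fun s => es s (DS (NT T) a z (yT η T) J Rs A0 S)) (1 / 2 + δ) t ≤
        C * (T * Real.log T ^ ((1 + a) ^ 2)) * (NT T : ℝ) ^ (-(2 * δ)) := by
  obtain ⟨C1, hC1, hon⟩ := onl hc hηm hmono hη hη1 hRs hd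
  have hη2 : η * ((Rs:ℝ) + 1) ≤ 1 / 16000 := by
    have : min ηm (1 / 4) ≤ 1 / 4 := min_le_right _ _
    linarith
  set LP := l1' (Pz z * A0) with hLP
  have hLP0 : 0 ≤ LP := l1'_nonneg _
  set A1 := (ip 0 A0 A0 + (2 ^ (S0 z).card * l1' A0) ^ 2) * Real.exp (6 * d + 1) with hA1
  have hA10 : 0 ≤ A1 := by have := ip_self_nonneg 0 A0; positivity
  refine ⟨32 * (2 * LP ^ 2 * C1 + 2 * (A1 + 1) + 1), by positivity, ?_⟩
  filter_upwards [hon, windows_ev, eventually_ge_atTop (10 ^ 10), NT_tendsto.eventually_ge_atTop (max 1 m),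
    rpow_ev (p := 1 / 4 + 1 / 50) (q := 1) (by norm_num) (60000 * LP ^ 2),
    rpow_ev (p := 3 / 8 + 1 / 50) (q := 1) (by norm_num) (2 * LP ^ 2),
    Real.tendsto_log_atTop.eventually_ge_atTop 1] with T h1 h2 h3 h4 h5 h6 h7 J hS hV hW hE a ha δ hδ1 hδ2
  have hT0 : 0 < T := by linarith
  have hT1 : 1 ≤ T := by linarith
  obtain ⟨w1, w2, w3⟩ := h2
  rw [Real.rpow_one] at h5 h6
  have hN1 : 1 ≤ NT T := by exact_mod_cast (le_max_left _ _).trans h4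
  have hNm : m ≤ NT T := (le_max_right _ _).trans h4
  have ha2 : |a| ≤ 2 := by linarith
  set y := yT η T with hy
  set N := NT T with hN
  set P := Real.log T ^ ((1 + a) ^ 2) with hP
  have hP1 : 1 ≤ P := Real.one_le_rpow h7 (sq_nonneg _)
  have hNr : 0 < (N:ℝ) := by exact_mod_cast hN1
  have hex := ly_exp hT1 hη2
  rw [← hy] at hex
  have g1 : ∀ S ∈ (range J).powerset, ∫ t in (T ^ ((4:ℝ)/5))..(T / 2),
      qd (fun s => es s (Pz z * A0 * Bz a z y J Rs S)) (fun s => es s (DS N a z y J Rs A0 S)) (1 / 2 + δ) t ≤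
      32 * (N:ℝ) ^ (-(2 * δ)) * ((∫ t in (T ^ ((3:ℝ)/4))..T, qd (fun s => es s (Pz z * A0 * Bz a z y J Rs S))
        (fun s => es s (DS N a z y J Rs A0 S)) (1 / 2) t) +
        30000 * (1 + (N:ℝ) ^ 2) / T * l1' (Pz z * A0 * Bz a z y J Rs S) ^ 2) := by
    intro S _
    refine (hp_one hN1 (PB_Bd hS hA S) h3 hδ1 hδ2 w1 w2 w3).trans (le_of_eq ?_)
    unfold DS
    ring
  refine (sum_le_sum g1).trans ?_
  rw [← mul_sum, sum_add_distrib, ← mul_sum]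
  have g2 := line_int (a := a) hS hA ha2 (A := T ^ ((3:ℝ)/4)) (T := T) (by positivity) (by linarith [Real.rpow_nonneg hT0.le (1/4)])
  have g3 := h1 J (IZ z y) hS.rg hV a ha
  have g4 := N1_line hS hV hW hE ha hA hAm hNm hd h7
  rw [← hN, ← hy, ← hA1, ← hP] at g4
  have g5 := PB_l1 (A0 := A0) hS ha2
  rw [← hLP] at g2 g5
  have g6 : 30000 * (1 + (N:ℝ) ^ 2) / T * (∑ S ∈ (range J).powerset, l1' (Pz z * A0 * Bz a z y J Rs S) ^ 2) ≤ 1 := by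
    have k1 : (1 + (N:ℝ) ^ 2) ≤ 2 * T ^ ((1:ℝ) / 4) := by
      have k2 := NT_pow hT1 2
      rw [← hN] at k2
      have k3 : T ^ (((2:ℕ):ℝ) / 8) = T ^ ((1:ℝ) / 4) := by congr 1; norm_num
      rw [k3] at k2
      have k4 : 1 ≤ T ^ ((1:ℝ) / 4) := Real.one_le_rpow hT1 (by norm_num)
      linarith
    calc _ ≤ 30000 * (2 * T ^ ((1:ℝ) / 4)) / T * (LP ^ 2 * T ^ ((1:ℝ) / 50)) := by
          refine mul_le_mul ?_ (g5.trans (mul_le_mul_of_nonneg_left hex (sq_nonneg _))) ?_ (by positivity)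
          · gcongr
          · exact sum_nonneg fun _ _ => sq_nonneg _
      _ = (60000 * LP ^ 2 * T ^ ((1:ℝ) / 4 + 1 / 50)) / T := by rw [Real.rpow_add hT0]; ring
      _ ≤ 1 := by rw [div_le_one hT0]; exact h5
  have g7 : 2 * (N:ℝ) ^ 3 * (LP ^ 2 * Real.exp (Real.log y * (180 * ((Rs:ℝ) + 1)))) ≤ T := by
    have k2 := NT_pow hT1 3
    rw [← hN] at k2
    have k3 : T ^ (((3:ℕ):ℝ) / 8) = T ^ ((3:ℝ) / 8) := by congr 1
    rw [k3] at k2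
    calc _ ≤ 2 * T ^ ((3:ℝ) / 8) * (LP ^ 2 * T ^ ((1:ℝ) / 50)) := by gcongr
      _ = 2 * LP ^ 2 * T ^ ((3:ℝ) / 8 + 1 / 50) := by rw [Real.rpow_add hT0]; ring
      _ ≤ T := h6
  have hTP2 : T ≤ T * P := le_mul_of_one_le_right hT0.le hP1
  have hTP : 1 ≤ T * P := hT1.trans hTP2
  have g8 : (∑ S ∈ (range J).powerset, ∫ t in (T ^ ((3:ℝ)/4))..T, qd (fun s => es s (Pz z * A0 * Bz a z y J Rs S))
        (fun s => es s (DS N a z y J Rs A0 S)) (1 / 2) t) ≤ (2 * LP ^ 2 * C1 + 2 * (A1 + 1)) * (T * P) := by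
    refine g2.trans ?_
    have k1 := mul_le_mul_of_nonneg_left g3 (by positivity : 0 ≤ 2 * LP ^ 2)
    have k2 := mul_le_mul_of_nonneg_left g4 hT0.le
    have k3 : T * (A1 * P) = A1 * (T * P) := by ring
    rw [k3] at k2
    linarith only [k1, k2, g7, hTP2]
  have g9 : 0 ≤ 32 * (N:ℝ) ^ (-(2 * δ)) := by positivity
  calc _ ≤ 32 * (N:ℝ) ^ (-(2 * δ)) * ((2 * LP ^ 2 * C1 + 2 * (A1 + 1)) * (T * P) + 1 * (T * P)) := by
        refine mul_le_mul_of_nonneg_left (add_le_add g8 ?_) g9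
        linarith
    _ = _ := by ring

end Pool.Agent.Y755
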