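import Pool.Agent.Y755.Gm4
import Pool.Agent.Y755.Hpc

set_option autoImplicit false

/-! The twisted second moment on the line for positive exponents, and the difference off the line. -/

namespace Pool.Agent.Y755

open Finset Filter MeasureTheory
open Pool.Agent.W184.NZ
open Pool.Agent.H306R2.SM (om cl Yf)
open Pool.Agent.H262R4.TM (Rng Ck)

/-- one polynomial, off the line -/
theorem hpa_gen (LP : ℝ) : ∀ᶠ T : ℝ in atTop, ∀ (f : P1) (m C1 A1 P : ℝ), Bd1 m f →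
    l1' f ^ 2 ≤ LP ^ 2 * T ^ ((1:ℝ) / 50) → 0 ≤ C1 → 0 ≤ A1 → 1 ≤ P →
    ∫ t in (T ^ ((3:ℝ)/4))..T, ‖riemannZeta (cl t)‖ ^ 2 * ‖es (1 / 2 + (0:ℝ) + t * Complex.I) f‖ ^ 2 ≤ C1 * (T * P) →
    ip 0 (Dt (NT T) f) (Dt (NT T) f) ≤ A1 * P → ∀ δ, 1 / Real.log T ≤ δ → δ ≤ 1 / 16 →
    ∫ t in (T ^ ((4:ℝ)/5))..(T / 2), qd (fun s => es s f) (fun s => es s (Dt (NT T) f)) (1 / 2 + δ) t ≤
      32 * (2 * C1 + 2 * (A1 + 1) + 1) * (T * P) * (NT T : ℝ) ^ (-(2 * δ)) := by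
  filter_upwards [windows_ev, eventually_ge_atTop (10 ^ 10), NT_tendsto.eventually_ge_atTop 1,
    rpow_ev (p := 1 / 4 + 1 / 50) (q := 1) (by norm_num) (60000 * LP ^ 2),
    rpow_ev (p := 3 / 8 + 1 / 50) (q := 1) (by norm_num) (2 * LP ^ 2),
    Real.tendsto_log_atTop.eventually_ge_atTop 1] with T h2 h3 h4 h5 h6 h7 f m C1 A1 P hf hl hC1 hA1 hP hon hip δ hδ1 hδ2
  have hT0 : 0 < T := by linarith
  have hT1 : 1 ≤ T := by linarith
  obtain ⟨w1, w2, w3⟩ := h2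
  rw [Real.rpow_one] at h5 h6
  have hN1 : 1 ≤ NT T := by exact_mod_cast h4
  set N := NT T with hN
  have hNr : 0 < (N:ℝ) := by exact_mod_cast hN1
  refine (hp_one hN1 hf h3 hδ1 hδ2 w1 w2 w3).trans ?_
  have hDB : Bd1 N (Dt N f) := Dt_Bd hf
  have hDl : l1' (Dt N f) ^ 2 ≤ (N:ℝ) ^ 2 * (LP ^ 2 * T ^ ((1:ℝ) / 50)) := by
    refine (pow_le_pow_left₀ (l1'_nonneg _) (Dt_l1 _ _) 2).trans ?_
    rw [mul_pow]
    exact mul_le_mul_of_nonneg_left hl (sq_nonneg _)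
  have hDc : Continuous fun t : ℝ => ‖es (1 / 2 + (0:ℝ) + t * Complex.I) (Dt N f)‖ ^ 2 := es_cont0 0 hDB
  have hfc : Continuous fun t : ℝ => ‖es (1 / 2 + (0:ℝ) + t * Complex.I) f‖ ^ 2 := es_cont0 0 hf
  have hqc : Continuous fun t : ℝ => qd (fun s => es s f) (fun s => es s (Dt N f)) (1 / 2) t :=
    qd_cont (es_diff hf) (es_diff hDB) (by norm_num)
  have hAT : T ^ ((3:ℝ)/4) ≤ T := by linarith [Real.rpow_nonneg hT0.le (1/4)]
  have g7 : 2 * (N:ℝ) ^ 3 * (LP ^ 2 * T ^ ((1:ℝ) / 50)) ≤ T := by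
    have k2 := NT_pow hT1 3
    rw [← hN] at k2
    have k3 : T ^ (((3:ℕ):ℝ) / 8) = T ^ ((3:ℝ) / 8) := by congr 1
    rw [k3] at k2
    calc _ ≤ 2 * T ^ ((3:ℝ) / 8) * (LP ^ 2 * T ^ ((1:ℝ) / 50)) := by gcongr
      _ = 2 * LP ^ 2 * T ^ ((3:ℝ) / 8 + 1 / 50) := by rw [Real.rpow_add hT0]; ring
      _ ≤ T := h6
  have g6 : 30000 * ((1 + (N:ℝ) ^ 2) * l1' f ^ 2) / T ≤ 1 := by
    have k1 : (1 + (N:ℝ) ^ 2) ≤ 2 * T ^ ((1:ℝ) / 4) := by
      have k2 := NT_pow hT1 2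
      rw [← hN] at k2
      have k3 : T ^ (((2:ℕ):ℝ) / 8) = T ^ ((1:ℝ) / 4) := by congr 1; norm_num
      rw [k3] at k2
      have k4 : 1 ≤ T ^ ((1:ℝ) / 4) := Real.one_le_rpow hT1 (by norm_num)
      linarith
    rw [div_le_one hT0]
    calc _ ≤ 30000 * ((2 * T ^ ((1:ℝ) / 4)) * (LP ^ 2 * T ^ ((1:ℝ) / 50))) := by gcongr
      _ = 60000 * LP ^ 2 * T ^ ((1:ℝ) / 4 + 1 / 50) := by rw [Real.rpow_add hT0]; ring
      _ ≤ T := h5
  have g8 : ∫ t in (T ^ ((3:ℝ)/4))..T, qd (fun s => es s f) (fun s => es s (Dt N f)) (1 / 2) t ≤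
      2 * (C1 * (T * P)) + 2 * (T * (A1 * P) + T) := by
    have h1 : ∫ t in (T ^ ((3:ℝ)/4))..T, qd (fun s => es s f) (fun s => es s (Dt N f)) (1 / 2) t ≤
        ∫ t in (T ^ ((3:ℝ)/4))..T, (2 * (‖riemannZeta (cl t)‖ ^ 2 * ‖es (1 / 2 + (0:ℝ) + t * Complex.I) f‖ ^ 2) +
          2 * ‖es (1 / 2 + (0:ℝ) + t * Complex.I) (Dt N f)‖ ^ 2) :=
      intervalIntegral.integral_mono_on hAT (hqc.intervalIntegrable _ _)
        (((continuous_const.mul (cl_cont_zeta.mul hfc)).add (continuous_const.mul hDc)).intervalIntegrable _ _)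
        fun t _ => qd_line _ _ t
    have i1 : IntervalIntegrable (fun t : ℝ => 2 * (‖riemannZeta (cl t)‖ ^ 2 * ‖es (1 / 2 + (0:ℝ) + t * Complex.I) f‖ ^ 2))
        volume (T ^ ((3:ℝ)/4)) T := (continuous_const.mul (cl_cont_zeta.mul hfc)).intervalIntegrable _ _
    have i2 : IntervalIntegrable (fun t : ℝ => 2 * ‖es (1 / 2 + (0:ℝ) + t * Complex.I) (Dt N f)‖ ^ 2)
        volume (T ^ ((3:ℝ)/4)) T := (continuous_const.mul hDc).intervalIntegrable _ _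
    rw [intervalIntegral.integral_add i1 i2, intervalIntegral.integral_const_mul,
      intervalIntegral.integral_const_mul] at h1
    refine h1.trans (add_le_add (mul_le_mul_of_nonneg_left hon (by norm_num)) (mul_le_mul_of_nonneg_left ?_ (by norm_num)))
    have h8 := (abs_le.mp (mvt (δ := 0) le_rfl hDB T)).2
    have h9 : ∫ t in (T ^ ((3:ℝ)/4))..T, ‖es (1 / 2 + (0:ℝ) + t * Complex.I) (Dt N f)‖ ^ 2 ≤
        ∫ t in (0:ℝ)..T, ‖es (1 / 2 + (0:ℝ) + t * Complex.I) (Dt N f)‖ ^ 2 :=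
      intervalIntegral.integral_mono_interval (by positivity) hAT le_rfl
        (Filter.Eventually.of_forall fun t => by positivity) (hDc.intervalIntegrable _ _)
    have h10 := mul_le_mul_of_nonneg_left hDl (by positivity : (0:ℝ) ≤ 2 * N)
    have h11 := mul_le_mul_of_nonneg_left hip hT0.le
    have e : 2 * (N:ℝ) * ((N:ℝ) ^ 2 * (LP ^ 2 * T ^ ((1:ℝ) / 50))) = 2 * (N:ℝ) ^ 3 * (LP ^ 2 * T ^ ((1:ℝ) / 50)) := by ring
    linarith
  have hTP2 : T ≤ T * P := le_mul_of_one_le_right hT0.le hP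
  have hTP : 1 ≤ T * P := hT1.trans hTP2
  have g9 : 0 ≤ 32 * (N:ℝ) ^ (-(2 * δ)) := by positivity
  calc _ ≤ 32 * (N:ℝ) ^ (-(2 * δ)) * ((2 * C1 + 2 * (A1 + 1)) * (T * P) + 1 * (T * P)) := by
        refine mul_le_mul_of_nonneg_left (add_le_add ?_ ?_) g9
        · refine g8.trans ?_
          linarith
        · linarith
    _ = _ := by ring

lemma NK_l1D {b : ℝ} (hb : 10 ≤ b) {f : DA} (hf : l1 f ≤ b) (K M : ℕ) {a : ℝ} (ha : |a| ≤ 2 * M) :
    l1 (NK K a f) ≤ b ^ (K + M) := by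
  have hb1 : 1 ≤ b := by linarith
  refine (l1_sum _ _).trans ?_
  have h1 : ∀ k ∈ range (K + 1), l1 ((a ^ k / (k.factorial : ℝ)) • f ^ k) ≤ b ^ K * ((2 * M) ^ k / (k.factorial : ℝ)) := by
    intro k hk
    rw [mem_range] at hk
    refine (l1_smul _ _).trans ?_
    have h2 : |a ^ k / (k.factorial : ℝ)| ≤ (2 * M) ^ k / (k.factorial : ℝ) := by
      rw [abs_div, abs_pow, abs_of_nonneg (by positivity : (0:ℝ) ≤ (k.factorial : ℝ))]
      gcongr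
    have h3 : l1 (f ^ k) ≤ b ^ K := by
      refine (l1_pow f k).trans ?_
      refine (pow_le_pow_left₀ (l1_nonneg f) hf k).trans (pow_le_pow_right₀ hb1 (by omega))
    calc |a ^ k / (k.factorial : ℝ)| * l1 (f ^ k) ≤ ((2 * M) ^ k / (k.factorial : ℝ)) * b ^ K :=
          mul_le_mul h2 h3 (l1_nonneg _) (by positivity)
      _ = _ := mul_comm _ _
  refine (sum_le_sum h1).trans ?_
  rw [← mul_sum, pow_add]
  refine mul_le_mul_of_nonneg_left ?_ (by positivity)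
  refine (Real.sum_le_exp_of_nonneg (by positivity) (K + 1)).trans ?_
  have h2 : Real.exp (2 * M) = (Real.exp 1 ^ 2) ^ M := by
    rw [← Real.exp_nat_mul, ← Real.exp_nat_mul]; congr 1; push_cast; ring
  rw [h2]
  refine pow_le_pow_left₀ (by positivity) ?_ M
  have h3 := Real.exp_one_lt_d9
  have h4 := Real.exp_pos 1
  nlinarith

/-- the product of the blocks in two variables -/
noncomputable def GM (J M : ℕ) (a : ℝ) (Rs : ℕ) (I : ℕ → Finset ℕ) : DA := ∏ i ∈ range J, fB (20 * (M * RR Rs i)) a (I i)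

/-- its value -/
noncomputable def gM (J M : ℕ) (a : ℝ) (Rs : ℕ) (I : ℕ → Finset ℕ) (t : ℝ) : ℝ :=
  ∏ i ∈ range J, ‖NK (20 * (M * RR Rs i)) a (PI (I i) (1 / 2 + t * Complex.I))‖ ^ 2

lemma gM_nonneg (J M : ℕ) (a : ℝ) (Rs : ℕ) (I : ℕ → Finset ℕ) (t : ℝ) : 0 ≤ gM J M a Rs I t :=
  prod_nonneg fun _ _ => sq_nonneg _

lemma ev_GM (t : ℝ) (J M : ℕ) (a : ℝ) (Rs : ℕ) {I : ℕ → Finset ℕ} (hI : ∀ i, ∀ p ∈ I i, p.Prime) :
    ev t (GM J M a Rs I) = ((gM J M a Rs I t : ℝ) : ℂ) := by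
  unfold GM gM fB
  rw [map_prod, Complex.ofReal_prod]
  refine prod_congr rfl fun i _ => ?_
  rw [map_mul, NK_map, NK_map, ev_xI, ev_yI t (hI i), NK_sq]

section
variable {c y : ℝ} {J M Rs : ℕ} {I : ℕ → Finset ℕ} {a : ℝ}

lemma GM_Bd (hy : 1 ≤ y) (h : Rg c J I (bb y)) : Bd (Real.exp (Real.log y * (160 * (M * ((Rs:ℝ) + 1))))) (GM J M a Rs I) := by
  have h1 : Bd (∏ i ∈ range J, (bb y i) ^ (80 * M * (Rs + i))) (GM J M a Rs I) := by
    unfold GM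
    refine Bd_prod J (fun i _ => (pow_pos (bb_pos y i) _).le) fun i hi => ?_
    have hb : 1 ≤ bb y i := by have := h.b10 i hi; linarith
    have h2 := (NK_Bd hb (xI_Bd fun p hp => ⟨(h.pr i p hp).1, (h.pr i p hp).2.2⟩) (20 * (M * RR Rs i)) a).mul
      (NK_Bd hb (yI_Bd fun p hp => ⟨(h.pr i p hp).1, (h.pr i p hp).2.2⟩) (20 * (M * RR Rs i)) a)
    rw [← pow_add] at h2
    have e : 80 * M * (Rs + i) = 20 * (M * RR Rs i) + 20 * (M * RR Rs i) := by unfold RR; ring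
    rw [e]
    exact h2
  refine h1.mono ((len hy Rs J (80 * M)).trans (le_of_eq ?_))
  push_cast
  congr 1; ring

lemma GM_l1 (hy : 1 ≤ y) (h : Rg c J I (bb y)) (hRs : 1 ≤ Rs) (ha : |a| ≤ 2 * M) :
    l1 (GM J M a Rs I) ≤ Real.exp (Real.log y * (164 * (M * ((Rs:ℝ) + 1)))) := by
  have h1 : l1 (GM J M a Rs I) ≤ ∏ i ∈ range J, (bb y i) ^ (82 * M * (Rs + i)) := by
    unfold GM
    refine l1_prod J (fun i _ => (pow_pos (bb_pos y i) _).le) fun i hi => ?_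
    have hb10 : 10 ≤ bb y i := h.b10 i hi
    have hx := NK_l1D hb10 (xI_l1 (by linarith) fun p hp => ⟨(h.pr i p hp).1, (h.pr i p hp).2.2⟩) (20 * (M * RR Rs i)) M ha
    have hy' := NK_l1D hb10 (yI_l1 (by linarith) fun p hp => ⟨(h.pr i p hp).1, (h.pr i p hp).2.2⟩) (20 * (M * RR Rs i)) M ha
    refine (l1_mul _ _).trans ((mul_le_mul hx hy' (l1_nonneg _) (by positivity)).trans ?_)
    rw [← pow_add]
    refine pow_le_pow_right₀ (by linarith) ?_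
    have : M * 1 ≤ M * (Rs + i) := Nat.mul_le_mul_left M (by omega)
    unfold RR
    nlinarith
  refine h1.trans ((len hy Rs J (82 * M)).trans (le_of_eq ?_))
  push_cast
  congr 1; ring

lemma GM_Nn (ha : 0 ≤ a) : Nn (GM J M a Rs I) := Nn.prod' fun i _ => fB_Nn _ ha _

lemma GM_up (hc : 0 ≤ c) (h : Rg c J I (bb y)) (hM : 1 ≤ M) (hRs : 1 ≤ Rs) (ha : 0 ≤ a) (haM : a ≤ M) :
    lam w1 (GM J M a Rs I) ≤ Real.exp ((2 * a + a ^ 2) * (∑ i ∈ range J, vI (I i)) + Real.exp (2 * M) * c) := by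
  have hP : ∀ i, ∀ p ∈ I i, p.Prime := fun i p hp => (h.pr i p hp).1
  unfold GM
  rw [lam_prod goodW1 J h.dj fun i => fB_mem (hP i) _ _]
  have h1 : ∏ i ∈ range J, lam w1 (fB (20 * (M * RR Rs i)) a (I i)) ≤
      ∏ i ∈ range J, Real.exp ((2 * a + a ^ 2) * vI (I i) + Real.exp (2 * a) * uI (I i)) := by
    refine prod_le_prod (fun i _ => lam1_nonneg (fB_Nn _ ha _)) fun i _ => fB_up (hP i) ?_ ha
    have : 1 ≤ M * RR Rs i := Nat.mul_pos hM (by unfold RR; omega)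
    omega
  refine h1.trans ?_
  rw [← Real.exp_sum, sum_add_distrib, ← mul_sum, ← mul_sum]
  refine Real.exp_le_exp.mpr (add_le_add le_rfl ?_)
  have h2 : Real.exp (2 * a) ≤ Real.exp (2 * M) := Real.exp_le_exp.mpr (by linarith)
  exact mul_le_mul h2 h.U (sum_nonneg fun _ _ => uI_nonneg _) (Real.exp_pos _).le

/-- the smooth second average -/
lemma GM_avg (hc : 0 ≤ c) (hy : 1 ≤ y) (h : Rg c J I (bb y)) (hM : 1 ≤ M) (hRs : 1 ≤ Rs) (ha : 0 ≤ a) (haM : a ≤ M)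
    {k : ℕ} {Y e : ℝ} (hY : 0 < Y) (hk : 1 ≤ k) (he : 0 ≤ e)
    (hm : ∀ x : ℕ × ℕ, x.1 ≠ 0 → x.2 ≠ 0 → (x.1 : ℝ) ≤ Real.exp (Real.log y * (160 * (M * ((Rs:ℝ) + 1)))) →
      (x.2 : ℝ) ≤ Real.exp (Real.log y * (160 * (M * ((Rs:ℝ) + 1)))) → |Zm k Y x - Mn k Y x| ≤ e) :
    ∫ t in Set.Ioi (0:ℝ), wz k Y t * gM J M a Rs I t ≤
      |Real.log (Yf k Y) + Ck k| * Real.exp ((2 * a + a ^ 2) * (∑ i ∈ range J, vI (I i)) + Real.exp (2 * M) * c) +
      e * Real.exp (Real.log y * (164 * (M * ((Rs:ℝ) + 1)))) := by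
  have hB := GM_Bd (M := M) (Rs := Rs) (a := a) hy h
  have h1 := avg1 hY hk hm hB
  have hP : ∀ i, ∀ p ∈ I i, p.Prime := fun i p hp => (h.pr i p hp).1
  have e1 : ∀ t, (ev t (GM J M a Rs I)).re = gM J M a Rs I t := by
    intro t; rw [ev_GM t J M _ _ hP, Complex.ofReal_re]
  simp_rw [e1] at h1
  have hN : Nn (GM J M a Rs I) := GM_Nn ha
  have h2 := GM_up hc h hM hRs ha haM
  have h3 := GM_l1 (M := M) (a := a) hy h hRs (by rw [abs_of_nonneg ha]; linarith)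
  have h0 := lam1_nonneg hN
  have h00 := laml_nonneg hN hB
  have h7 := mul_le_mul_of_nonneg_left h3 he
  have h8 : (Real.log (Yf k Y) + Ck k) * lam w1 (GM J M a Rs I) ≤
      |Real.log (Yf k Y) + Ck k| * lam w1 (GM J M a Rs I) :=
    mul_le_mul_of_nonneg_right (le_abs_self _) h0
  have h9 := mul_le_mul_of_nonneg_left h2 (abs_nonneg (Real.log (Yf k Y) + Ck k))
  linarith

end

/-- the twisted second moment on the line -/
theorem onlM {c ηm η d : ℝ} {M Rs : ℕ} (hM : 1 ≤ M) (hc : 0 ≤ c) (hηm : 0 < ηm)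
    (hmono : ∀ᶠ Y : ℝ in atTop, ∀ k : ℕ, Rng Y k → ∀ x : ℕ × ℕ,
      x.1 ≠ 0 → x.2 ≠ 0 → (x.1 : ℝ) ≤ Y ^ ((1:ℝ) / 4) → (x.2 : ℝ) ≤ Y ^ ((1:ℝ) / 4) →
      |Zm k Y x - Mn k Y x| ≤ 2 * Y ^ (-ηm)) (hη : 0 < η)
    (hη1 : η * (M * ((Rs:ℝ) + 1)) ≤ min ηm (1 / 4) / 4000)
    (hRs : 1 ≤ Rs) (hd : 0 ≤ d) :
    ∃ C : ℝ, 0 < C ∧ ∀ᶠ T : ℝ in atTop, ∀ (J : ℕ) (I : ℕ → Finset ℕ),
      Rg c J I (bb (Real.exp (η * Real.log T))) → |∑ i ∈ range J, vI (I i) - Real.log (Real.log T)| ≤ d →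
      ∀ a : ℝ, 0 ≤ a → a ≤ M →
      ∫ t in (T ^ ((3:ℝ)/4))..T, ‖riemannZeta (cl t)‖ ^ 2 * gM J M a Rs I t ≤
        C * (T * Real.log T ^ ((1 + a) ^ 2)) := by
  set q : ℝ := min ηm (1 / 4) with hq
  have hq0 : 0 < q := lt_min hηm (by norm_num)
  have hq1 : q ≤ 1 / 4 := min_le_right _ _
  have hq2 : q ≤ ηm := min_le_left _ _
  have hM1 : (1:ℝ) ≤ M := by exact_mod_cast hM
  set E0 : ℝ := (2 * M + (M:ℝ) ^ 2) * d + Real.exp (2 * M) * c with hE0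
  set C6 : ℝ := 8 * Real.exp E0 with hC6
  have hC60 : 0 < C6 := by positivity
  refine ⟨16 * (C6 + 2), by positivity, ?_⟩
  have ev1 : ∀ᶠ T : ℝ in atTop, ∀ x : ℝ, T ^ ((3:ℝ)/4) / 2 < x → ∀ k : ℕ, Rng x k → ∀ z : ℕ × ℕ,
      z.1 ≠ 0 → z.2 ≠ 0 → (z.1 : ℝ) ≤ x ^ ((1:ℝ) / 4) → (z.2 : ℝ) ≤ x ^ ((1:ℝ) / 4) →
      |Zm k x z - Mn k x z| ≤ 2 * x ^ (-ηm) := by
    rw [eventually_atTop] at hmono
    obtain ⟨Y0, hY0⟩ := hmono
    have : Tendsto (fun T : ℝ => T ^ ((3:ℝ)/4) / 2) atTop atTop :=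
      (tendsto_rpow_atTop (by norm_num)).atTop_div_const (by norm_num)
    filter_upwards [this.eventually_ge_atTop Y0] with T hT x hx
    exact hY0 x (hT.trans hx.le)
  filter_upwards [ev1, TC_ev ηm q Rs, Real.tendsto_log_atTop.eventually_ge_atTop 10,
    eventually_ge_atTop 1] with T h1 h4 h6 hT1 J I hJ hV a ha haM
  obtain ⟨k, hk⟩ := h4
  have hT0 : 0 < T := by linarith
  set L := Real.log T with hL
  have hL0 : 0 < L := by linarith
  set y : ℝ := Real.exp (η * L) with hy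
  have hly : Real.log y = η * L := Real.log_exp _
  have hy1 : 1 ≤ y := Real.one_le_exp (by positivity)
  set V := ∑ i ∈ range J, vI (I i) with hVd
  have hLL : 0 ≤ Real.log L := Real.log_nonneg (by linarith)
  set P := L ^ ((1 + a) ^ 2) with hP
  have hLp1 : 1 ≤ P := Real.one_le_rpow (by linarith) (by positivity)
  set A : ℝ := T ^ ((3:ℝ)/4) with hA
  have hA0 : 0 < A := by positivity
  have hAT : A ≤ T := by
    have : T ^ ((3:ℝ)/4) ≤ T ^ (1:ℝ) := Real.rpow_le_rpow_of_exponent_le hT1 (by norm_num)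
    rwa [Real.rpow_one] at this
  have hPr : ∀ i, ∀ p ∈ I i, p.Prime := fun i p hp => (hJ.pr i p hp).1
  have hgB := GM_Bd (M := M) (Rs := Rs) (a := a) hy1 hJ
  have hgc : Continuous fun t => gM J M a Rs I t := by
    have := ev_re_cont hgB
    refine this.congr fun t => ?_
    rw [ev_GM t J M _ _ hPr, Complex.ofReal_re]
  have hgb : ∀ t, |gM J M a Rs I t| ≤ l1 (GM J M a Rs I) := by
    intro t
    have := ev_re_le hgB t
    rwa [ev_GM t J M _ _ hPr, Complex.ofReal_re] at this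
  have hexpV : Real.exp ((2 * a + a ^ 2) * V + Real.exp (2 * M) * c) ≤ P / L * Real.exp E0 := by
    have ha2 : 0 ≤ 2 * a + a ^ 2 := by positivity
    have e1 : (2 * a + a ^ 2) * V ≤ (2 * a + a ^ 2) * Real.log L + (2 * M + (M:ℝ) ^ 2) * d := by
      have h7 : (2 * a + a ^ 2) * (V - Real.log L) ≤ (2 * M + (M:ℝ) ^ 2) * d := by
        calc (2 * a + a ^ 2) * (V - Real.log L) ≤ (2 * a + a ^ 2) * |V - Real.log L| :=
              mul_le_mul_of_nonneg_left (le_abs_self _) ha2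
          _ ≤ (2 * M + (M:ℝ) ^ 2) * d := by
            refine mul_le_mul ?_ hV (abs_nonneg _) (by positivity)
            have : a ^ 2 ≤ (M:ℝ) ^ 2 := pow_le_pow_left₀ ha haM 2
            linarith
      linarith
    have e2 : P / L * Real.exp E0 = Real.exp ((2 * a + a ^ 2) * Real.log L + E0) := by
      have e3 : P / L = Real.exp ((2 * a + a ^ 2) * Real.log L) := by
        rw [hP, Real.rpow_def_of_pos hL0]
        nth_rewrite 2 [← Real.exp_log hL0]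
        rw [← Real.exp_sub]
        congr 1; ring
      rw [e3, ← Real.exp_add]
    rw [e2]
    exact Real.exp_le_exp.mpr (by rw [hE0]; linarith)
  have hS : ∀ x ∈ Set.Ioc (A / 2) (8 * T), ∫ t in Set.Ioi (0:ℝ), wz k x t * gM J M a Rs I t ≤
      (C6 + 2) * P := by
    intro x hx
    have hx0 : 0 < x := by have := hx.1; linarith
    have hlx := hk.lg x hx
    have hm := h1 x hx.1 k (hk.rng x hx)
    have hxl : Real.exp (Real.log y * (160 * (M * ((Rs:ℝ) + 1)))) ≤ x ^ ((1:ℝ)/4) := by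
      rw [Real.rpow_def_of_pos hx0]
      refine Real.exp_le_exp.mpr ?_
      rw [hly]
      have : η * L * (160 * (M * ((Rs:ℝ) + 1))) = 160 * (η * (M * ((Rs:ℝ) + 1))) * L := by ring
      rw [this]
      have h9 : 160 * (η * (M * ((Rs:ℝ) + 1))) * L ≤ 1 / 8 * L := mul_le_mul_of_nonneg_right (by linarith) hL0.le
      linarith
    have hG := GM_avg hc hy1 hJ hM hRs ha haM hx0 (by have := hk.k8; omega) (e := 2 * x ^ (-ηm)) (by positivity)
      (fun z z1 z2 z3 z4 => hm z z1 z2 (z3.trans hxl) (z4.trans hxl))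
    refine hG.trans ?_
    have g1 : |Real.log (Yf k x) + Ck k| * Real.exp ((2 * a + a ^ 2) * V + Real.exp (2 * M) * c) ≤ C6 * P := by
      calc _ ≤ 8 * L * (P / L * Real.exp E0) :=
            mul_le_mul (hk.yf x hx) hexpV (Real.exp_pos _).le (by positivity)
        _ = C6 * P := by rw [hC6]; field_simp
    have g4 : 2 * x ^ (-ηm) * Real.exp (Real.log y * (164 * (M * ((Rs:ℝ) + 1)))) ≤ 2 * P := by
      have g5 : x ^ (-ηm) * Real.exp (Real.log y * (164 * (M * ((Rs:ℝ) + 1)))) ≤ 1 := by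
        rw [Real.rpow_def_of_pos hx0, ← Real.exp_add]
        refine Real.exp_le_one_iff.mpr ?_
        rw [hly]
        have : η * L * (164 * (M * ((Rs:ℝ) + 1))) = 164 * (η * (M * ((Rs:ℝ) + 1))) * L := by ring
        rw [this]
        have g6 : ηm * (1 / 2 * L) ≤ ηm * Real.log x := mul_le_mul_of_nonneg_left hlx hηm.le
        have g7 : 164 * (η * (M * ((Rs:ℝ) + 1))) * L ≤ ηm * (1 / 2) * L := mul_le_mul_of_nonneg_right (by linarith) hL0.le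
        linarith
      calc 2 * x ^ (-ηm) * Real.exp (Real.log y * (164 * (M * ((Rs:ℝ) + 1)))) =
          2 * (x ^ (-ηm) * Real.exp (Real.log y * (164 * (M * ((Rs:ℝ) + 1))))) := by ring
        _ ≤ 2 * 1 := by linarith
        _ ≤ 2 * P := by linarith
    calc _ ≤ C6 * P + 2 * P := add_le_add g1 g4
      _ = _ := by ring
  have hg0 : ∀ t, 0 ≤ gM J M a Rs I t := fun t => gM_nonneg _ _ _ _ _ _
  have hw := win hgc hg0 hgb hk.k8 hA0 hAT (by positivity) hS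
  refine hw.trans (le_of_eq ?_)
  ring

end Pool.Agent.Y755
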