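import Pool.Agent.Y755.Sml
import Pool.Agent.Y755.Cmp

set_option autoImplicit false

/-! Versions uniform in the exponent. -/

namespace Pool.Agent.Y755

open Finset Filter MonoidAlgebra
open Pool.Agent.W184.NZ
open Pool.Agent.H306R2
lemma C0_mono {α M : ℝ} (hα : 0 < α) (h : α ≤ M) : C0 α ≤ C0 M := by
  unfold C0
  refine Summable.tsum_le_tsum (fun m => ?_) (C0_summable hα) (C0_summable (hα.trans_le h))
  exact mul_le_mul_of_nonneg_right (lc_mono (sq_nonneg _) (pow_le_pow_left₀ hα.le h 2) _) (by positivity)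

lemma CL_mono {α M : ℝ} (hα : 0 < α) (h : α ≤ M) : CL α ≤ CL M := by
  unfold CL
  have h1 := C0_mono hα h
  have h2 := C0_nonneg hα
  have h3 := pow_le_pow_left₀ hα.le h 2
  exact add_le_add h1 (pow_le_pow_left₀ (by positivity) (add_le_add h3 h1) 2)

lemma C1_mono {α M : ℝ} (hα : 0 < α) (h : α ≤ M) : C1 α ≤ C1 M := by
  unfold C1
  have h1 := C0_mono hα h
  have h2 := C0_nonneg hα
  have h3 := pow_le_pow_left₀ hα.le h 2
  exact add_le_add (add_le_add (pow_le_pow_left₀ (by positivity) (add_le_add h3 h1) 2) h1) (by linarith)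

/-- the comparison, uniformly -/
theorem cmp_u {Mx ε : ℝ} (hMx : 0 < Mx) (hε : 0 < ε) : ∃ (z0 : ℕ) (x0 : ℝ), 0 < x0 ∧ ∀ α : ℝ, 0 < α → α ≤ Mx →
    ∀ z : ℕ, z0 ≤ z → 1000 ≤ z →
    ∀ y δ : ℝ, (z:ℝ) ≤ y → 0 < δ → x0 ≤ δ * Real.log y → ∀ J : ℕ, bb y J < 144 →
    Real.exp (-ε) * DD α δ ≤ (∏ p ∈ S0 z, Ed α δ p) * Real.exp (α ^ 2 * Vd δ z y J) ∧
    (∏ p ∈ S0 z, Ed α δ p) * Real.exp (α ^ 2 * Vd δ z y J) ≤ Real.exp ε * DD α δ := by
  classical
  obtain ⟨B, hB, htail⟩ := vd_tail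
  have hCL := CL_nonneg hMx
  obtain ⟨z0, hz0⟩ := uI_tail (ε := ε / 2 / (CL Mx + 1)) (by positivity)
  obtain ⟨x1, hx1⟩ : ∃ x1 : ℝ, ∀ x, x1 ≤ x → Mx ^ 2 * (B * Real.exp (-(2 * x))) ≤ ε / 2 := by
    have h1 : Tendsto (fun x : ℝ => Mx ^ 2 * (B * Real.exp (-(2 * x)))) atTop (nhds (Mx ^ 2 * (B * 0))) := by
      refine Tendsto.const_mul _ (Tendsto.const_mul _ ?_)
      exact Real.tendsto_exp_neg_atTop_nhds_zero.comp (tendsto_id.const_mul_atTop (by norm_num : (0:ℝ) < 2))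
    rw [mul_zero, mul_zero] at h1
    have := h1.eventually (gt_mem_nhds (by positivity : 0 < ε / 2))
    rw [eventually_atTop] at this
    obtain ⟨x1, hx1⟩ := this
    exact ⟨x1, fun x hx => (hx1 x hx).le⟩
  refine ⟨z0, max x1 (1 / 2), lt_of_lt_of_le (by norm_num) (le_max_right _ _), ?_⟩
  intro α hα hαM z hz hz1 y δ hzy hδ hx J hJ
  have hCLm : CL α ≤ CL Mx := CL_mono hα hαM
  have hz3 : (1000:ℝ) ≤ z := by exact_mod_cast hz1
  have hy1 : 1 ≤ y := by linarith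
  set G := (∏ p ∈ S0 z, Ed α δ p) * Real.exp (α ^ 2 * Vd δ z y J) with hG
  have hkey : ∀ᶠ M : ℕ in atTop, Real.exp (-ε) * ∏ p ∈ S0 M, Ed α δ p ≤ G ∧ G ≤ Real.exp ε * ∏ p ∈ S0 M, Ed α δ p := by
    filter_upwards [eventually_gt_atTop ⌈y⌉₊] with M hM
    have hyM : y < M := by
      have := Nat.le_ceil y
      have h2 : ((⌈y⌉₊ : ℕ) : ℝ) < M := by exact_mod_cast hM
      linarith
    set bl := (range J).biUnion (IZ z y) with hbl
    set rest : Finset ℕ := (S0 M).filter (fun p : ℕ => y < (p:ℝ)) with hrest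
    have hrest' : ∀ p ∈ rest, p.Prime ∧ y < p := by
      intro p hp
      rw [hrest, mem_filter, mem_S0] at hp
      exact ⟨hp.1.2, hp.2⟩
    have hblm : ∀ p, p ∈ bl ↔ p.Prime ∧ z ≤ p ∧ (p:ℝ) ≤ y := fun p => mem_blocks (by omega) hy1 hJ
    have hdj1 : Disjoint (S0 z) (bl ∪ rest) := by
      rw [disjoint_left]
      intro p hp hq
      rw [mem_S0] at hp
      rw [mem_union, hblm] at hq
      rcases hq with hq | hq
      · omega
      · have h3 := (hrest' p hq).2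
        have h4 : (p:ℝ) ≤ z := by exact_mod_cast hp.1.le
        linarith
    have hdj2 : Disjoint bl rest := by
      rw [disjoint_left]
      intro p hp hq
      rw [hblm] at hp
      linarith [(hrest' p hq).2, hp.2.2]
    have hun : S0 M = S0 z ∪ (bl ∪ rest) := by
      ext p
      rw [mem_union, mem_union, hblm, hrest, mem_filter, mem_S0, mem_S0]
      constructor
      · rintro ⟨h1, h2⟩
        rcases lt_or_ge p z with h3 | h3
        · exact Or.inl ⟨h3, h2⟩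
        · rcases lt_or_ge y p with h4 | h4
          · exact Or.inr (Or.inr ⟨⟨h1, h2⟩, h4⟩)
          · exact Or.inr (Or.inl ⟨h2, h3, h4⟩)
      · rintro (⟨h1, h2⟩ | ⟨h1, h2, h3⟩ | ⟨h1, _⟩)
        · refine ⟨?_, h2⟩
          have h4 : (p:ℝ) < M := by
            have : (p:ℝ) ≤ z := by exact_mod_cast h1.le
            linarith
          exact_mod_cast h4
        · exact ⟨by exact_mod_cast lt_of_le_of_lt h3 hyM, h1⟩
        · exact h1
    have hpr : ∀ p ∈ bl ∪ rest, p.Prime ∧ z ≤ p := by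
      intro p hp
      rw [mem_union, hblm] at hp
      rcases hp with hp | hp
      · exact ⟨hp.1, hp.2.1⟩
      · refine ⟨(hrest' p hp).1, ?_⟩
        have : (z:ℝ) ≤ p := by linarith [(hrest' p hp).2]
        exact_mod_cast this
    have hEd : ∀ p ∈ bl ∪ rest, 0 < Ed α δ p := fun p hp => by
      have := Ed_ge_one (α := α) hδ.le (hpr p hp).1; linarith
    have e1 : ∏ p ∈ S0 M, Ed α δ p = (∏ p ∈ S0 z, Ed α δ p) * Real.exp (∑ p ∈ bl ∪ rest, Real.log (Ed α δ p)) := by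
      rw [hun, prod_union hdj1, Real.exp_sum]
      congr 1
      exact prod_congr rfl fun p hp => (Real.exp_log (hEd p hp)).symm
    have hVbl : Vd δ z y J = ∑ p ∈ bl, rp δ p ^ 2 := by
      unfold Vd vd
      rw [hbl, sum_biUnion]
      intro i _ j _ hij
      have hlt : ∀ i j, i < j → Disjoint (IZ z y i) (IZ z y j) := fun i j h =>
        disjoint_of_subset_left (IZ_sub z y i) (disjoint_of_subset_right (IZ_sub z y j) (II_disj hy1 h))
      rcases lt_or_gt_of_ne hij with h | h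
      · exact hlt i j h
      · exact (hlt j i h).symm
    have hvr : α ^ 2 * vd δ rest ≤ ε / 2 := by
      refine le_trans (mul_le_mul (pow_le_pow_left₀ hα.le hαM 2)
        (htail δ y hδ.le (by linarith) ((le_max_right _ _).trans hx) rest hrest') (vd_nonneg _ _) (sq_nonneg _)) ?_
      exact hx1 _ ((le_max_left _ _).trans hx)
    have hvr0 : 0 ≤ α ^ 2 * vd δ rest := mul_nonneg (sq_nonneg _) (vd_nonneg _ _)
    have e2 : |∑ p ∈ bl ∪ rest, Real.log (Ed α δ p) - α ^ 2 * Vd δ z y J| ≤ ε := by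
      have e3 : ∑ p ∈ bl ∪ rest, Real.log (Ed α δ p) - α ^ 2 * Vd δ z y J =
          ∑ p ∈ bl ∪ rest, (Real.log (Ed α δ p) - α ^ 2 * rp δ p ^ 2) + α ^ 2 * vd δ rest := by
        rw [sum_sub_distrib, hVbl]
        unfold vd
        rw [← mul_sum, sum_union hdj2 (f := fun p => rp δ p ^ 2)]
        ring
      rw [e3]
      have e4 : |∑ p ∈ bl ∪ rest, (Real.log (Ed α δ p) - α ^ 2 * rp δ p ^ 2)| ≤ ε / 2 := by
        refine (abs_sum_le_sum_abs _ _).trans ?_
        have h5 : ∀ p ∈ bl ∪ rest, |Real.log (Ed α δ p) - α ^ 2 * rp δ p ^ 2| ≤ CL Mx * (p:ℝ) ^ (-(3 / 2 : ℝ)) :=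
          fun p hp => (Ed_log hα hδ.le (hpr p hp).1).trans
            (mul_le_mul hCLm (sq_le_u (hpr p hp).1.one_lt.le) (sq_nonneg _) hCL)
        refine (sum_le_sum h5).trans ?_
        rw [← mul_sum]
        have h6 := hz0 z hz (bl ∪ rest) fun p hp => (hpr p hp).2
        calc _ ≤ CL Mx * (ε / 2 / (CL Mx + 1)) := mul_le_mul_of_nonneg_left h6 hCL
          _ ≤ (CL Mx + 1) * (ε / 2 / (CL Mx + 1)) := mul_le_mul_of_nonneg_right (by linarith) (by positivity)
          _ = ε / 2 := by field_simp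
      rw [abs_le] at e4 ⊢
      constructor <;> linarith
    obtain ⟨h7, h8⟩ := abs_le.mp e2
    have hPz : 0 ≤ ∏ p ∈ S0 z, Ed α δ p := prod_nonneg fun p hp => by
      have := Ed_ge_one (α := α) hδ.le (mem_S0.mp hp).2; linarith
    rw [e1, hG]
    constructor
    · rw [mul_left_comm, ← Real.exp_add]
      exact mul_le_mul_of_nonneg_left (Real.exp_le_exp.mpr (by linarith)) hPz
    · rw [mul_left_comm, ← Real.exp_add]
      exact mul_le_mul_of_nonneg_left (Real.exp_le_exp.mpr (by linarith)) hPz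
  have ht := DD_tendsto hα hδ
  exact ⟨le_of_tendsto (ht.const_mul _) (hkey.mono fun M h => h.1), ge_of_tendsto (ht.const_mul _) (hkey.mono fun M h => h.2)⟩

/-- the approximation over the small primes, uniformly -/
theorem small_ex_u {M ε : ℝ} (hM : 0 < M) (z : ℕ) (hε : 0 < ε) : ∃ m l : ℝ, 0 ≤ l ∧ ∀ α : ℝ, 0 < α → α ≤ M →
    ∃ A0 : P1, Bd1 m A0 ∧ A0 ∈ SA1 (M1 (S0 z)) ∧ l1' A0 ≤ l ∧
    (∀ s : ℂ, 1 / 2 ≤ s.re → 1 - ε ≤ ‖es s (Pz z)‖ ^ (2 * α) * ‖es s A0‖ ^ 2 ∧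
      ‖es s (Pz z)‖ ^ (2 * α) * ‖es s A0‖ ^ 2 ≤ 1 + ε) ∧
    (∀ δ : ℝ, 0 ≤ δ → (1 - ε) * ∏ p ∈ S0 z, Ed α δ p ≤ ip δ A0 A0 ∧ ip δ A0 A0 ≤ ∏ p ∈ S0 z, Ed α δ p) := by
  set LP := l1' (Pz z) with hLP
  have hPz := Pz_Bd z
  have hLP0 : 0 < LP := lt_of_lt_of_le (es_Pz_pos z (s := 1 / 2) (by norm_num))
    (es_norm_le (by norm_num) hPz)
  set h0 : ℝ := (max 1 LP ^ M)⁻¹ with hh0
  have hmx : 0 < max 1 LP := lt_of_lt_of_le one_pos (le_max_left _ _)
  have h00 : 0 < h0 := by positivity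
  set e1 : ℝ := min (min (ε / 3) 1 * h0) ε with he1
  have he10 : 0 < e1 := lt_min (mul_pos (lt_min (by positivity) one_pos) h00) hε
  have hf := (g1_smooth M z (s := 1 / 2) (by norm_num)).1
  have hg := (g2_smooth M z (δ := 0) le_rfl).summable
  obtain ⟨F, hF1, hF2⟩ := exists_F hf hg he10
  set F' : Finset ℕ := F.map (Function.Embedding.subtype _) with hF'
  have hmem : ∀ m ∈ F', m ∈ z.smoothNumbers := by
    intro m hm
    rw [hF', Finset.mem_map] at hm
    obtain ⟨a, _, rfl⟩ := hm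
    exact a.2
  have hne : ∀ m ∈ F', m ≠ 0 := fun m hm => (Nat.mem_smoothNumbers.mp (hmem m hm)).1
  refine ⟨(F'.sup id : ℕ), ∑ m ∈ F', dv M m, sum_nonneg fun m _ => dv_nonneg hM.le m, fun α hα hαM =>
    ⟨∑ m ∈ F', single m (dv α m), ?_, ?_, ?_, ?_, ?_⟩⟩
  · refine Bd1.sum fun m hm => Bd1.single ⟨hne m hm, ?_⟩ _
    exact_mod_cast Finset.le_sup (f := id) hm
  · refine Subalgebra.sum_mem _ fun m hm => single_mem_SA1 (mem_M1.mpr ⟨hne m hm, fun p hp hd => ?_⟩) _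
    rw [mem_S0]
    exact ⟨Nat.mem_smoothNumbers'.mp (hmem m hm) p hp hd, hp⟩
  · refine (l1'_sum _ _).trans (sum_le_sum fun m _ => ?_)
    rw [l1'_single, abs_of_nonneg (dv_nonneg hα.le m)]
    exact dv_mono hα.le hαM m
  · intro s hs
    have e2 : es s (∑ m ∈ F', single m (dv α m)) = ∑ m ∈ F, g1 α s m := by
      rw [map_sum, hF', sum_map]
      refine sum_congr rfl fun m _ => ?_
      rw [es_single]
      rfl
    have h1 := (g1_smooth α z hs).2
    have h2 := tail_close (g := fun m : z.smoothNumbers => g1 α s m) hf (fun m => by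
      have hm0 : 0 < (m:ℕ) := Nat.pos_of_ne_zero (Nat.mem_smoothNumbers.mp m.2).1
      unfold g1
      rw [norm_mul, norm_mul, Complex.norm_natCast_cpow_of_pos hm0, Complex.norm_natCast_cpow_of_pos hm0,
        Complex.norm_real, Complex.norm_real, Real.norm_of_nonneg (dv_nonneg hα.le _), Real.norm_of_nonneg (dv_nonneg hM.le _)]
      refine mul_le_mul (dv_mono hα.le hαM _) ?_ (by positivity) (dv_nonneg hM.le _)
      refine Real.rpow_le_rpow_of_exponent_le (by exact_mod_cast hm0) ?_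
      rw [Complex.neg_re, Complex.neg_re]
      have : (1 / 2 : ℂ).re = 1 / 2 := by norm_num
      rw [this]
      linarith) hF1
    rw [h1.tsum_eq, ← e2] at h2
    have hP0 := es_Pz_pos z hs
    have hPL : ‖es s (Pz z)‖ ≤ LP := es_norm_le (by linarith) hPz
    set H := ∏ p ∈ z.primesBelow, 1 / (1 - (p:ℂ) ^ (-s)) ^ (α:ℂ) with hH
    have hHn : ‖H‖ = (‖es s (Pz z)‖ ^ α)⁻¹ := norm_prod_pow α z s
    set P := ‖es s (Pz z)‖ with hP
    have hPα : 0 < P ^ α := by positivity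
    have hHh : h0 ≤ ‖H‖ := by
      rw [hHn, hh0]
      refine inv_anti₀ hPα ?_
      calc P ^ α ≤ (max 1 LP) ^ α := Real.rpow_le_rpow hP0.le (hPL.trans (le_max_right _ _)) hα.le
        _ ≤ (max 1 LP) ^ M := Real.rpow_le_rpow_of_exponent_le (le_max_left _ _) hαM
    have hPH : P ^ α * ‖H‖ = 1 := by rw [hHn]; exact mul_inv_cancel₀ hPα.ne'
    set q : ℝ := min (ε / 3) 1 with hq
    have hq0 : 0 < q := lt_min (by positivity) one_pos
    have hq1 : q ≤ 1 := min_le_right _ _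
    have hq2 : q ≤ ε / 3 := min_le_left _ _
    set A := ‖es s (∑ m ∈ F', single m (dv α m))‖ with hA
    have h3 : |‖H‖ - A| ≤ q * ‖H‖ := by
      refine (abs_norm_sub_norm_le _ _).trans (h2.trans ?_)
      exact (min_le_left _ _).trans (mul_le_mul_of_nonneg_left hHh hq0.le)
    have h4 : P ^ (2 * α) = (P ^ α) ^ 2 := by
      rw [← Real.rpow_natCast, ← Real.rpow_mul hP0.le]; congr 1; push_cast; ring
    have h5 : |1 - P ^ α * A| ≤ q := by
      have : 1 - P ^ α * A = P ^ α * (‖H‖ - A) := by rw [mul_sub, hPH]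
      rw [this, abs_mul, abs_of_pos hPα]
      calc P ^ α * |‖H‖ - A| ≤ P ^ α * (q * ‖H‖) := mul_le_mul_of_nonneg_left h3 hPα.le
        _ = q * (P ^ α * ‖H‖) := by ring
        _ = q := by rw [hPH, mul_one]
    rw [h4, ← mul_pow]
    obtain ⟨h6, h7⟩ := abs_le.mp h5
    constructor <;> nlinarith
  · intro δ hδ
    have e2 : ip δ (∑ m ∈ F', single m (dv α m)) (∑ m ∈ F', single m (dv α m)) = ∑ m ∈ F, g2 α δ m := by
      rw [ip_diag, hF', sum_map]
      rfl
    have h1 := g2_smooth α z hδ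
    have h2 := tail_close (g := fun m : z.smoothNumbers => g2 α δ m) hg (fun m => by
      rw [Real.norm_of_nonneg (g2_nonneg _ _ _)]
      unfold g2
      refine mul_le_mul (pow_le_pow_left₀ (dv_nonneg hα.le _) (dv_mono hα.le hαM _) 2) ?_ (wδ_nonneg _ _) (sq_nonneg _)
      unfold wδ
      refine mul_le_mul_of_nonneg_right ?_ (by positivity)
      have hm0 : 0 < (m:ℕ) := Nat.pos_of_ne_zero (Nat.mem_smoothNumbers.mp m.2).1
      refine Real.rpow_le_rpow_of_exponent_le (by exact_mod_cast hm0) ?_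
      linarith) hF2
    rw [h1.tsum_eq, Real.norm_eq_abs] at h2
    have h3 : ∏ p ∈ z.primesBelow, Ed α δ p = ∏ p ∈ S0 z, Ed α δ p := rfl
    rw [h3] at h2 h1
    have h4 : 1 ≤ ∏ p ∈ S0 z, Ed α δ p := by
      have := prod_le_prod (s := S0 z) (f := fun _ => (1:ℝ)) (g := fun p => Ed α δ p) (fun _ _ => zero_le_one)
        (fun p hp => Ed_ge_one hδ (mem_S0.mp hp).2)
      simpa using this
    have h5 : ∑ m ∈ F, g2 α δ m ≤ ∏ p ∈ S0 z, Ed α δ p := sum_le_hasSum F (fun m _ => g2_nonneg _ _ _) h1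
    rw [e2]
    have h6 : e1 ≤ ε := min_le_right _ _
    have h7 := (abs_le.mp h2).2
    exact ⟨by nlinarith, h5⟩

/-- lower bound for the Dirichlet series, uniformly -/
theorem DD_low_u {M : ℝ} (hM : 0 < M) : ∃ c : ℝ, 0 < c ∧ ∀ α : ℝ, 0 < α → α ≤ M → ∀ δ : ℝ, 0 < δ → δ ≤ 1 / 2 → c * δ ^ (-(α ^ 2)) ≤ DD α δ := by
  obtain ⟨c, hc, hZ⟩ := Zr_low
  set S : ℝ := ∑' p : Nat.Primes, C1 M * (1 / ((p:ℕ):ℝ)) ^ 2 with hS
  have hs := Pool.Agent.H306R2.primes_summable.mul_left (C1 M)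
  have hmin : 0 < min 1 (c / 2) := lt_min one_pos (by positivity)
  refine ⟨Real.exp (-S) * (min 1 (c / 2)) ^ (M ^ 2), by positivity, fun α hα hαM δ hδ hδ1 => ?_⟩
  have hc2 : (min 1 (c / 2)) ^ (M ^ 2) ≤ (c / 2) ^ (α ^ 2) :=
    calc (min 1 (c / 2)) ^ (M ^ 2) ≤ (min 1 (c / 2)) ^ (α ^ 2) :=
          Real.rpow_le_rpow_of_exponent_ge hmin (min_le_left _ _) (pow_le_pow_left₀ hα.le hαM 2)
      _ ≤ (c / 2) ^ (α ^ 2) := Real.rpow_le_rpow hmin.le (min_le_right _ _) (sq_nonneg _)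
  have h1 := cf_tsum (e := fun _ : Fin 1 => α) (fun _ => hα.le) (by simpa using hα) (s := fun _ => 2 * δ)
    (σ := 2 * δ) (by positivity) (fun _ => le_rfl)
  simp only [cf_fin1, univ_unique, sum_const, card_singleton, one_smul, prod_const, pow_one] at h1
  have h2 : DD α δ = Real.exp (∑' p : Nat.Primes, up (fun _ : Fin 1 => α) (fun _ => 2 * δ) p) * Zr (2 * δ) ^ (α * α) := h1
  rw [h2]
  have h3 : -S ≤ ∑' p : Nat.Primes, up (fun _ : Fin 1 => α) (fun _ => 2 * δ) p := by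
    have h4 : ‖∑' p : Nat.Primes, up (fun _ : Fin 1 => α) (fun _ => 2 * δ) p‖ ≤ S := by
      refine tsum_of_norm_bounded hs.hasSum fun p => ?_
      have h5 := up_bound (e := fun _ : Fin 1 => α) (fun _ => hα.le) (by simpa using hα) (s := fun _ => 2 * δ)
        (fun _ => by positivity) p.2
      have h6 : C1 α * (1 / ((p:ℕ):ℝ)) ^ 2 ≤ C1 M * (1 / ((p:ℕ):ℝ)) ^ 2 :=
        mul_le_mul_of_nonneg_right (C1_mono hα hαM) (sq_nonneg _)
      refine le_trans ?_ h6
      simpa using h5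
    have := (abs_le.mp (by rwa [Real.norm_eq_abs] at h4)).1
    exact this
  have h5 := hZ (2 * δ) (by positivity) (by linarith)
  have h6 : (c / 2) ^ (α ^ 2) * δ ^ (-(α ^ 2)) = (c / (2 * δ)) ^ (α ^ 2) := by
    rw [Real.rpow_neg hδ.le, ← Real.inv_rpow hδ.le, ← Real.mul_rpow (by positivity) (by positivity)]
    congr 1
    field_simp
  refine le_trans (mul_le_mul_of_nonneg_right (mul_le_mul_of_nonneg_left hc2 (Real.exp_pos _).le)
    (Real.rpow_nonneg hδ.le _)) ?_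
  rw [mul_assoc, h6, ← sq]
  exact mul_le_mul (Real.exp_le_exp.mpr h3) (Real.rpow_le_rpow (by positivity) h5 (sq_nonneg _)) (by positivity)
    (Real.exp_pos _).le

end Pool.Agent.Y755
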