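import Pool.Agent.Y755.Hpb

set_option autoImplicit false

/-! Pointwise inequalities. -/

namespace Pool.Agent.Y755

open Finset Filter MeasureTheory
open Pool.Agent.W184.NZ

lemma prod_one_sub {J : ℕ} {x : ℕ → ℝ} (h0 : ∀ i, 0 ≤ x i) (h1 : ∀ i, x i ≤ 1) :
    1 - ∑ i ∈ range J, x i ≤ ∏ i ∈ range J, (1 - x i) := by
  induction J with
  | zero => simp
  | succ J ih =>
    rw [sum_range_succ, prod_range_succ]
    have h2 : ∏ i ∈ range J, (1 - x i) ≤ 1 := prod_le_one (fun i _ => by linarith [h1 i]) fun i _ => by linarith [h0 i]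
    nlinarith [h0 J, h1 J]

lemma exp_RR_small {Rs : ℕ} (hRs : 1 ≤ Rs) (i : ℕ) : Real.exp (-(RR Rs i : ℝ)) ≤ 1 / 7 := by
  have h1 : (2:ℝ) ≤ (RR Rs i : ℝ) := by
    have : 2 ≤ RR Rs i := by unfold RR; omega
    exact_mod_cast this
  have h2 : Real.exp (-(RR Rs i : ℝ)) ≤ Real.exp (-2) := Real.exp_le_exp.mpr (by linarith)
  have h3 : Real.exp (-2) ≤ 1 / 7 := by
    have e : Real.exp (-2 : ℝ) = (Real.exp 1 ^ 2)⁻¹ := by
      rw [← Real.exp_nat_mul, ← Real.exp_neg]; norm_num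
    have h4 := Real.exp_one_gt_d9
    rw [e, inv_le_comm₀ (by positivity) (by norm_num)]
    nlinarith
  linarith

lemma gpd_star {δ α : ℝ} {J Rs : ℕ} (hRs : 1 ≤ Rs) (hα : 0 ≤ α) (hα1 : α ≤ 1) (I : ℕ → Finset ℕ) (t : ℝ) :
    1 - 4 * Real.exp (-(2 * (Rs:ℝ))) ≤ gpd δ J (α - 1) (RR Rs) I t ^ α * gpd δ J α (RR Rs) I t ^ (1 - α) := by
  unfold gpd
  rw [← Real.finsetProd_rpow _ _ (fun i _ => gf_nonneg _ _ _ _), ← Real.finsetProd_rpow _ _ (fun i _ => gf_nonneg _ _ _ _),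
    ← prod_mul_distrib]
  have h1 : ∏ i ∈ range J, (1 - 2 * Real.exp (-(RR Rs i : ℝ))) ≤ ∏ i ∈ range J,
      (gf (20 * RR Rs i) (α - 1) (RR Rs i) (PI (I i) (1 / 2 + δ + t * Complex.I)) ^ α *
        gf (20 * RR Rs i) α (RR Rs i) (PI (I i) (1 / 2 + δ + t * Complex.I)) ^ (1 - α)) := by
    refine prod_le_prod (fun i _ => ?_) fun i _ => ?_
    · have := exp_RR_small hRs i; linarith
    · have hR : 1 ≤ RR Rs i := by unfold RR; omega
      have h2 := star (K := 20 * RR Rs i) (K' := 20 * RR Rs i) hα hα1 hR (cl_twenty hR (by rw [abs_le]; constructor <;> linarith))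
        (cl_twenty hR (by rw [abs_le]; constructor <;> linarith)) (PI (I i) (1 / 2 + δ + t * Complex.I))
      have e : -(1 - α) = α - 1 := by ring
      rw [e] at h2
      refine le_trans ?_ h2
      nlinarith [sq_nonneg (Real.exp (-(RR Rs i : ℝ)))]
  refine le_trans ?_ h1
  have h3 := prod_one_sub (J := J) (x := fun i => 2 * Real.exp (-(RR Rs i : ℝ))) (fun i => by positivity)
    (fun i => by have := exp_RR_small hRs i; linarith)
  refine le_trans ?_ h3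
  rw [← mul_sum]
  have := sum_exp_two J Rs
  linarith

/-- the upper pointwise bound -/
theorem up_pw {δ α ε Z P A : ℝ} {J Rs : ℕ} (hRs : 1 ≤ Rs) (hα : 0 < α) (hα1 : α ≤ 1) (I : ℕ → Finset ℕ) (t : ℝ)
    (hZ : 0 ≤ Z) (hP : 0 ≤ P) (hA : 0 ≤ A) (hPA : 1 - ε ≤ P ^ (2 * α) * A ^ 2) (hε : ε ≤ 1)
    (h4 : 4 * Real.exp (-(2 * (Rs:ℝ))) ≤ 1) :
    (1 - ε) * (1 - 4 * Real.exp (-(2 * (Rs:ℝ)))) * Z ^ (2 * α) ≤
      α * (Z ^ 2 * (P * A) ^ 2 * gpd δ J (α - 1) (RR Rs) I t) + (1 - α) * (A ^ 2 * gpd δ J α (RR Rs) I t) := by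
  have hs := gpd_star (δ := δ) (J := J) hRs hα.le hα1 I t
  set g1 := gpd δ J (α - 1) (RR Rs) I t with hg1
  set g2 := gpd δ J α (RR Rs) I t with hg2
  have g10 : 0 ≤ g1 := gpd_nonneg _ _ _ _ _ _
  have g20 : 0 ≤ g2 := gpd_nonneg _ _ _ _ _ _
  have h1 := Real.geom_mean_le_arith_mean2_weighted hα.le (by linarith : 0 ≤ 1 - α)
    (by positivity : 0 ≤ Z ^ 2 * (P * A) ^ 2 * g1) (by positivity : 0 ≤ A ^ 2 * g2) (by ring)
  refine le_trans ?_ h1
  have e1 : (Z ^ 2 * (P * A) ^ 2 * g1) ^ α * (A ^ 2 * g2) ^ (1 - α) =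
      Z ^ (2 * α) * (P ^ (2 * α) * A ^ 2) * (g1 ^ α * g2 ^ (1 - α)) := by
    rw [Real.mul_rpow (by positivity) g10, Real.mul_rpow (by positivity) (by positivity),
      Real.mul_rpow (by positivity) g20, mul_pow, Real.mul_rpow (by positivity) (by positivity)]
    have a1 : (Z ^ 2) ^ α = Z ^ (2 * α) := by
      rw [← Real.rpow_natCast, ← Real.rpow_mul hZ]; norm_num
    have a2 : (P ^ 2) ^ α = P ^ (2 * α) := by
      rw [← Real.rpow_natCast, ← Real.rpow_mul hP]; norm_num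
    have a3 : (A ^ 2) ^ α * (A ^ 2) ^ (1 - α) = A ^ 2 := by
      rw [← Real.rpow_add_of_nonneg (by positivity) hα.le (by linarith)]
      simp
    rw [a1, a2]
    calc _ = Z ^ (2 * α) * (P ^ (2 * α) * ((A ^ 2) ^ α * (A ^ 2) ^ (1 - α))) * (g1 ^ α * g2 ^ (1 - α)) := by ring
      _ = _ := by rw [a3]
  rw [e1]
  have hZp : 0 ≤ Z ^ (2 * α) := Real.rpow_nonneg hZ _
  calc (1 - ε) * (1 - 4 * Real.exp (-(2 * (Rs:ℝ)))) * Z ^ (2 * α) =
        Z ^ (2 * α) * (1 - ε) * (1 - 4 * Real.exp (-(2 * (Rs:ℝ)))) := by ring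
    _ ≤ Z ^ (2 * α) * (P ^ (2 * α) * A ^ 2) * (g1 ^ α * g2 ^ (1 - α)) := by
        refine mul_le_mul (mul_le_mul_of_nonneg_left hPA hZp) hs (by linarith) ?_
        have : 0 ≤ P ^ (2 * α) := Real.rpow_nonneg hP _
        positivity

/-- the minimum inequality -/
lemma gm_ge {α u w : ℝ} (hα : 0 < α) (hα2 : α ≤ 2) (hu : 0 ≤ u) (hw : 0 < w) :
    w - 2 * |u - w| ≤ u ^ α * w ^ (1 - α) := by
  have hr : 0 ≤ u / w := by positivity
  have e1 : u ^ α * w ^ (1 - α) = w * (u / w) ^ α := by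
    rw [Real.div_rpow hu hw.le, Real.rpow_sub hw, Real.rpow_one]
    field_simp
  rw [e1]
  have e2 : u - w = w * (u / w - 1) := by field_simp
  rw [e2, abs_mul, abs_of_pos hw]
  have h1 : 1 - 2 * |u / w - 1| ≤ (u / w) ^ α := by
    rcases le_or_gt 1 α with h | h
    · have h2 := one_add_mul_self_le_rpow_one_add (s := u / w - 1) (by linarith) h
      rw [add_sub_cancel] at h2
      have h3 := neg_abs_le (u / w - 1)
      have h4 := abs_nonneg (u / w - 1)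
      nlinarith
    · rcases le_or_gt 1 (u / w) with h5 | h5
      · have h6 : 1 ≤ (u / w) ^ α := Real.one_le_rpow h5 hα.le
        have := abs_nonneg (u / w - 1)
        linarith
      · have h6 : u / w ≤ (u / w) ^ α := by
          have := Real.rpow_le_rpow_of_exponent_ge' hr h5.le hα.le h.le
          rwa [Real.rpow_one] at this
        rw [abs_of_nonpos (by linarith)]
        linarith
  nlinarith


lemma inv_one_sub_le {x : ℝ} (h0 : 0 ≤ x) (h1 : x ≤ 1 / 7) : (1 - x)⁻¹ ≤ Real.exp (7 / 6 * x) := by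
  have h2 := Real.add_one_le_exp (7 / 6 * x)
  refine le_trans ?_ h2
  rw [inv_le_comm₀ (by linarith) (by positivity), inv_eq_one_div, div_le_iff₀ (by positivity)]
  nlinarith

/-- one block on the good set -/
lemma blk_good {R : ℕ} (hR : 2 ≤ R) {α : ℝ} (hα : 0 < α) (hα2 : α ≤ 2) (hx : Real.exp (-(R:ℝ)) ≤ 1 / 7) {z : ℂ}
    (hz : ‖z‖ ≤ R) : 0 < ‖NK (20 * R) α z‖ ∧
    (‖NK (20 * R) (α - 1) z‖ ^ 2) ^ α * (‖NK (20 * R) α z‖ ^ 2) ^ (1 - α) ≤ Real.exp (7 * Real.exp (-(R:ℝ))) := by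
  have hR1 : 1 ≤ R := by omega
  set x := Real.exp (-(R:ℝ)) with hxd
  have hx0 : 0 < x := Real.exp_pos _
  have c1 := cl_two hR1 (a := α - 1) (by rw [abs_le]; constructor <;> linarith)
  have c2 := cl_two hR1 (a := α) (by rw [abs_le]; constructor <;> linarith)
  have n1 := NK_le_of_cl c1 hz
  have n2 := NK_le_of_cl c2 hz
  have n3 := NK_ge_of_cl c2 hz
  rw [← hxd] at n1 n2 n3
  have E1 := norm_exp_sq (α - 1) z
  have E2 := norm_exp_sq α z
  set a1 := ‖NK (20 * R) (α - 1) z‖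
  set a2 := ‖NK (20 * R) α z‖
  set e1 := ‖Complex.exp (((α - 1 : ℝ) : ℂ) * z)‖
  set e2 := ‖Complex.exp ((α : ℂ) * z)‖
  have he1 : 0 < e1 := norm_pos_iff.mpr (Complex.exp_ne_zero _)
  have he2 : 0 < e2 := norm_pos_iff.mpr (Complex.exp_ne_zero _)
  have ha1 : 0 ≤ a1 := norm_nonneg _
  have ha2 : 0 < a2 := lt_of_lt_of_le (mul_pos (by linarith) he2) n3
  refine ⟨ha2, ?_⟩
  have h1 : (a1 ^ 2) ^ α ≤ (1 + x) ^ 4 * (e1 ^ 2) ^ α := by
    calc (a1 ^ 2) ^ α ≤ (((1 + x) * e1) ^ 2) ^ α := Real.rpow_le_rpow (by positivity) (pow_le_pow_left₀ ha1 n1 2) hα.le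
      _ = ((1 + x) ^ 2) ^ α * (e1 ^ 2) ^ α := by rw [mul_pow, Real.mul_rpow (by positivity) (by positivity)]
      _ ≤ ((1 + x) ^ 2) ^ (2:ℝ) * (e1 ^ 2) ^ α := by
        refine mul_le_mul_of_nonneg_right (Real.rpow_le_rpow_of_exponent_le ?_ hα2) (by positivity)
        nlinarith
      _ = (1 + x) ^ 4 * (e1 ^ 2) ^ α := by rw [Real.rpow_two]; ring
  have h2 : (a2 ^ 2) ^ (1 - α) ≤ ((1 - x)⁻¹) ^ 2 * (e2 ^ 2) ^ (1 - α) := by
    have hD : (1 + x) ≤ (1 - x)⁻¹ := by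
      rw [le_inv_comm₀ (by positivity) (by linarith), inv_eq_one_div, le_div_iff₀ (by positivity)]
      nlinarith
    rcases le_or_gt α 1 with h | h
    · calc (a2 ^ 2) ^ (1 - α) ≤ (((1 + x) * e2) ^ 2) ^ (1 - α) :=
            Real.rpow_le_rpow (by positivity) (pow_le_pow_left₀ ha2.le n2 2) (by linarith)
        _ = ((1 + x) ^ 2) ^ (1 - α) * (e2 ^ 2) ^ (1 - α) := by rw [mul_pow, Real.mul_rpow (by positivity) (by positivity)]
        _ ≤ ((1 + x) ^ 2) ^ (1:ℝ) * (e2 ^ 2) ^ (1 - α) := by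
          refine mul_le_mul_of_nonneg_right (Real.rpow_le_rpow_of_exponent_le ?_ (by linarith)) (by positivity)
          nlinarith
        _ ≤ ((1 - x)⁻¹) ^ 2 * (e2 ^ 2) ^ (1 - α) := by
          rw [Real.rpow_one]
          refine mul_le_mul_of_nonneg_right (pow_le_pow_left₀ (by positivity) hD 2) (by positivity)
    · have hx1 : 0 < 1 - x := by linarith
      calc (a2 ^ 2) ^ (1 - α) ≤ (((1 - x) * e2) ^ 2) ^ (1 - α) := by
            refine Real.rpow_le_rpow_of_nonpos (by positivity) (pow_le_pow_left₀ (by positivity) n3 2) (by linarith)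
        _ = ((1 - x) ^ 2) ^ (1 - α) * (e2 ^ 2) ^ (1 - α) := by rw [mul_pow, Real.mul_rpow (by positivity) (by positivity)]
        _ ≤ ((1 - x) ^ 2) ^ (-1:ℝ) * (e2 ^ 2) ^ (1 - α) := by
          refine mul_le_mul_of_nonneg_right (Real.rpow_le_rpow_of_exponent_ge (by positivity) ?_ (by linarith)) (by positivity)
          nlinarith
        _ = _ := by rw [Real.rpow_neg_one, inv_pow]
  have h3 : (e1 ^ 2) ^ α * (e2 ^ 2) ^ (1 - α) = 1 := by
    rw [E1, E2, ← Real.exp_mul, ← Real.exp_mul, ← Real.exp_add]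
    have : 2 * (α - 1) * z.re * α + 2 * α * z.re * (1 - α) = 0 := by ring
    rw [this, Real.exp_zero]
  have hp1 : 0 ≤ (e1 ^ 2) ^ α := by positivity
  have hp2 : 0 ≤ (e2 ^ 2) ^ (1 - α) := by positivity
  calc (a1 ^ 2) ^ α * (a2 ^ 2) ^ (1 - α) ≤ ((1 + x) ^ 4 * (e1 ^ 2) ^ α) * (((1 - x)⁻¹) ^ 2 * (e2 ^ 2) ^ (1 - α)) :=
        mul_le_mul h1 h2 (by positivity) (by positivity)
    _ = (1 + x) ^ 4 * ((1 - x)⁻¹) ^ 2 * ((e1 ^ 2) ^ α * (e2 ^ 2) ^ (1 - α)) := by ring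
    _ = (1 + x) ^ 4 * ((1 - x)⁻¹) ^ 2 := by rw [h3, mul_one]
    _ ≤ Real.exp x ^ 4 * Real.exp (7 / 6 * x) ^ 2 := by
        have h4 := Real.add_one_le_exp x
        have h5 := inv_one_sub_le hx0.le hx
        have h6 : 0 ≤ (1 - x)⁻¹ := inv_nonneg.mpr (by linarith)
        refine mul_le_mul (pow_le_pow_left₀ (by positivity) (by linarith) 4) (pow_le_pow_left₀ h6 h5 2) (by positivity)
          (by positivity)
    _ = Real.exp (4 * x + 7 / 3 * x) := by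
        rw [← Real.exp_nat_mul, ← Real.exp_nat_mul, ← Real.exp_add]; congr 1; push_cast; ring
    _ ≤ _ := Real.exp_le_exp.mpr (by linarith)

/-- the lower pointwise bound -/
theorem low_pw {α ε Z P A : ℝ} {J Rs : ℕ} (hRs : 1 ≤ Rs) (hα : 0 < α) (hα2 : α ≤ 2) (ζ : ℕ → ℂ)
    (hZ : 0 ≤ Z) (hP : 0 ≤ P) (hA : 0 < A) (hPA : P ^ (2 * α) * A ^ 2 ≤ 1 + ε) :
    let B := ∏ i ∈ range J, ‖NK (20 * RR Rs i) (α - 1) (ζ i)‖
    let C := ∏ i ∈ range J, ‖NK (20 * RR Rs i) α (ζ i)‖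
    (A * C) ^ 2 - 2 * |(Z * (P * A) * B) ^ 2 - (A * C) ^ 2| -
      ∑ j ∈ range J, (A * C) ^ 2 * (‖ζ j‖ / (RR Rs j : ℝ)) ^ (2 * RR Rs j) ≤
      (1 + ε) * Real.exp (14 * Real.exp (-(2 * (Rs:ℝ)))) * Z ^ (2 * α) := by
  intro B C
  have hB0 : 0 ≤ B := prod_nonneg fun _ _ => norm_nonneg _
  have hC0 : 0 ≤ C := prod_nonneg fun _ _ => norm_nonneg _
  have hZp : 0 ≤ Z ^ (2 * α) := Real.rpow_nonneg hZ _
  have hε0 : 0 ≤ 1 + ε := by
    have : 0 ≤ P ^ (2 * α) := Real.rpow_nonneg hP _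
    have : 0 ≤ P ^ (2 * α) * A ^ 2 := by positivity
    linarith
  by_cases hgood : ∀ j ∈ range J, ‖ζ j‖ ≤ (RR Rs j : ℝ)
  · have hsum0 : 0 ≤ ∑ j ∈ range J, (A * C) ^ 2 * (‖ζ j‖ / (RR Rs j : ℝ)) ^ (2 * RR Rs j) :=
      sum_nonneg fun _ _ => by positivity
    have hg := fun i (hi : i ∈ range J) => blk_good (R := RR Rs i) (by unfold RR; omega) hα hα2 (exp_RR_small hRs i) (hgood i hi)
    have hCp : 0 < C := prod_pos fun i hi => (hg i hi).1
    have h1 := gm_ge hα hα2 (sq_nonneg (Z * (P * A) * B)) (by positivity : 0 < (A * C) ^ 2)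
    have h2 : ((Z * (P * A) * B) ^ 2) ^ α * ((A * C) ^ 2) ^ (1 - α) =
        Z ^ (2 * α) * (P ^ (2 * α) * A ^ 2) * ((B ^ 2) ^ α * (C ^ 2) ^ (1 - α)) := by
      have a1 : (Z ^ 2) ^ α = Z ^ (2 * α) := by
        rw [← Real.rpow_natCast, ← Real.rpow_mul hZ]; norm_num
      have a2 : (P ^ 2) ^ α = P ^ (2 * α) := by
        rw [← Real.rpow_natCast, ← Real.rpow_mul hP]; norm_num
      have a3 : (A ^ 2) ^ α * (A ^ 2) ^ (1 - α) = A ^ 2 := by
        rw [← Real.rpow_add (by positivity)]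
        simp
      rw [mul_pow, mul_pow, mul_pow, mul_pow, Real.mul_rpow (by positivity) (by positivity),
        Real.mul_rpow (by positivity) (by positivity), Real.mul_rpow (by positivity) (by positivity),
        Real.mul_rpow (by positivity) (by positivity), a1, a2]
      calc _ = Z ^ (2 * α) * (P ^ (2 * α) * ((A ^ 2) ^ α * (A ^ 2) ^ (1 - α))) * ((B ^ 2) ^ α * (C ^ 2) ^ (1 - α)) := by ring
        _ = _ := by rw [a3]
    have h3 : (B ^ 2) ^ α * (C ^ 2) ^ (1 - α) ≤ Real.exp (14 * Real.exp (-(2 * (Rs:ℝ)))) := by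
      rw [← prod_pow, ← prod_pow, ← Real.finsetProd_rpow _ _ (fun i _ => by positivity),
        ← Real.finsetProd_rpow _ _ (fun i _ => by positivity), ← prod_mul_distrib]
      refine (prod_le_prod (fun i _ => by positivity) fun i hi => (hg i hi).2).trans ?_
      rw [← Real.exp_sum, ← mul_sum]
      refine Real.exp_le_exp.mpr ?_
      have := sum_exp_two J Rs
      linarith
    rw [h2] at h1
    have h4 : Z ^ (2 * α) * (P ^ (2 * α) * A ^ 2) * ((B ^ 2) ^ α * (C ^ 2) ^ (1 - α)) ≤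
        Z ^ (2 * α) * (1 + ε) * Real.exp (14 * Real.exp (-(2 * (Rs:ℝ)))) := by
      refine mul_le_mul (mul_le_mul_of_nonneg_left hPA hZp) h3 (by positivity) (mul_nonneg hZp hε0)
    linarith
  · push Not at hgood
    obtain ⟨j, hj, hjg⟩ := hgood
    have hR0 : (0:ℝ) < (RR Rs j : ℝ) := by
      have : 0 < RR Rs j := by unfold RR; omega
      exact_mod_cast this
    have h1 : 1 ≤ (‖ζ j‖ / (RR Rs j : ℝ)) ^ (2 * RR Rs j) := by
      refine one_le_pow₀ ?_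
      rw [one_le_div hR0]; exact hjg.le
    have h2 : (A * C) ^ 2 ≤ ∑ j ∈ range J, (A * C) ^ 2 * (‖ζ j‖ / (RR Rs j : ℝ)) ^ (2 * RR Rs j) := by
      refine le_trans ?_ (single_le_sum (f := fun j => (A * C) ^ 2 * (‖ζ j‖ / (RR Rs j : ℝ)) ^ (2 * RR Rs j))
        (fun _ _ => by positivity) hj)
      exact le_mul_of_one_le_right (sq_nonneg _) h1
    have h3 : 0 ≤ (1 + ε) * Real.exp (14 * Real.exp (-(2 * (Rs:ℝ)))) * Z ^ (2 * α) := by positivity
    have h4 := abs_nonneg ((Z * (P * A) * B) ^ 2 - (A * C) ^ 2)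
    linarith

lemma sq_diff_le {x y : ℂ} {τ : ℝ} (hτ : 0 < τ) : |‖x‖ ^ 2 - ‖y‖ ^ 2| ≤ τ * ‖y‖ ^ 2 + (1 + 1 / τ) * ‖x - y‖ ^ 2 := by
  have h1 : |‖x‖ - ‖y‖| ≤ ‖x - y‖ := abs_norm_sub_norm_le x y
  set a := ‖x‖
  set b := ‖y‖
  set d := ‖x - y‖
  have hb : 0 ≤ b := norm_nonneg _
  have ha : 0 ≤ a := norm_nonneg _
  have hd : 0 ≤ d := norm_nonneg _
  have h2 : |a ^ 2 - b ^ 2| ≤ d ^ 2 + 2 * b * d := by
    obtain ⟨h3, h4⟩ := abs_le.mp h1
    rw [abs_le]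
    constructor <;> nlinarith
  have h3 : 2 * b * d ≤ τ * b ^ 2 + 1 / τ * d ^ 2 := by
    have h4 : 0 ≤ (τ * b - d) ^ 2 / τ := by positivity
    have e : (τ * b - d) ^ 2 / τ = τ * b ^ 2 + 1 / τ * d ^ 2 - 2 * b * d := by field_simp; ring
    linarith
  linarith

lemma sq_add_le {x y : ℂ} {τ : ℝ} (hτ : 0 < τ) : ‖x‖ ^ 2 ≤ (1 + τ) * ‖y‖ ^ 2 + (1 + 1 / τ) * ‖x - y‖ ^ 2 := by
  have h1 := sq_diff_le (x := x) (y := y) hτ
  have h2 := le_abs_self (‖x‖ ^ 2 - ‖y‖ ^ 2)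
  linarith

end Pool.Agent.Y755
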