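import Pool.Agent.Y755.Gm5
import Pool.Agent.Y755.Pw

set_option autoImplicit false

/-! The good set: pointwise statements. -/

namespace Pool.Agent.Y755

open Finset Filter MeasureTheory
open Pool.Agent.W184.NZ

/-- the good points: all block sums are small and the value is close to the exponential -/
def Gd (J Rs : ℕ) (e1 : ℝ) (v : ℂ) (X : ℕ → ℂ) : Prop :=
  (∀ i ∈ range J, ‖X i‖ ≤ (RR Rs i : ℝ)) ∧ ‖v * Complex.exp (-∑ i ∈ range J, X i) - 1‖ ≤ e1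

/-- the truncated products on the good set -/
lemma prod_Cl {J Rs : ℕ} {K : ℕ → ℕ} {a : ℝ} (hcl : ∀ i, Cl (K i) a (RR Rs i)) {X : ℕ → ℂ}
    (hX : ∀ i ∈ range J, ‖X i‖ ≤ (RR Rs i : ℝ)) (h4 : 4 * Real.exp (-(2 * (Rs:ℝ))) ≤ 1) :
    ∃ θ : ℂ, ‖θ‖ ≤ 4 * Real.exp (-(2 * (Rs:ℝ))) ∧
      ∏ i ∈ range J, NK (K i) a (X i) = Complex.exp (a * ∑ i ∈ range J, X i) * (1 + θ) := by
  set w : ℕ → ℂ := fun i => NK (K i) a (X i) / Complex.exp (a * X i) with hw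
  have hne : ∀ i, Complex.exp ((a:ℂ) * X i) ≠ 0 := fun i => Complex.exp_ne_zero _
  have h1 : ∀ i ∈ range J, ‖w i - ((1:ℝ):ℂ)‖ ≤ Real.exp (-(RR Rs i : ℝ)) * 1 := by
    intro i hi
    have h2 := hcl i (X i) (hX i hi)
    have e : w i - ((1:ℝ):ℂ) = (NK (K i) a (X i) - Complex.exp (a * X i)) / Complex.exp (a * X i) := by
      rw [hw]; simp only; rw [sub_div, div_self (hne i)]; simp
    rw [e, norm_div, div_le_iff₀ (norm_pos_iff.mpr (hne i)), mul_one]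
    exact h2
  have h2 := prod_close (range J) (a := w) (b := fun _ => (1:ℝ)) (e := fun i => Real.exp (-(RR Rs i : ℝ)))
    (fun _ _ => zero_le_one) (fun _ _ => (Real.exp_pos _).le) h1
  rw [prod_const_one, mul_one] at h2
  refine ⟨∏ i ∈ range J, w i - 1, ?_, ?_⟩
  · have h3 := sum_exp_two J Rs
    have h5 : Real.exp (∑ i ∈ range J, Real.exp (-(RR Rs i : ℝ))) - 1 ≤ 4 * Real.exp (-(2 * (Rs:ℝ))) := by
      have h6 : 0 ≤ 2 * Real.exp (-(2 * (Rs:ℝ))) := by positivity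
      have h7 := Real.exp_le_exp.mpr h3
      have h8 := (abs_le.mp (Real.abs_exp_sub_one_sub_id_le (x := 2 * Real.exp (-(2 * (Rs:ℝ)))) (by
        rw [abs_of_nonneg h6]; linarith))).2
      nlinarith
    have : ((1:ℝ):ℂ) = 1 := by norm_num
    rw [this] at h2
    exact h2.trans h5
  · rw [add_sub_cancel, mul_sum, Complex.exp_sum, ← prod_mul_distrib]
    refine prod_congr rfl fun i _ => ?_
    rw [hw]
    simp only
    rw [mul_div_cancel₀ _ (hne i)]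

/-- off the good set -/
theorem off_good {J Rs : ℕ} {K : ℕ → ℕ} {κ e1 : ℝ} (hRs : 1 ≤ Rs) (he1 : 0 < e1) (he2 : e1 ≤ 1)
    (hcl : ∀ i, Cl (K i) κ (RR Rs i)) (hcl1 : ∀ i, Cl (K i) (κ - 1) (RR Rs i))
    (h4 : 4 * Real.exp (-(2 * (Rs:ℝ))) ≤ e1 / 8) (v A : ℂ) (X : ℕ → ℂ) (hG : ¬ Gd J Rs e1 v X) :
    ‖A * ∏ i ∈ range J, NK (K i) κ (X i)‖ ^ 2 ≤
      16 / e1 ^ 2 * ‖v * A * (∏ i ∈ range J, NK (K i) (κ - 1) (X i)) - A * ∏ i ∈ range J, NK (K i) κ (X i)‖ ^ 2 +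
      ∑ j ∈ range J, ‖A * ∏ i ∈ range J, NK (K i) κ (X i)‖ ^ 2 * (‖X j‖ / (RR Rs j : ℝ)) ^ (2 * RR Rs j) := by
  set w := A * ∏ i ∈ range J, NK (K i) κ (X i) with hw
  by_cases hgood : ∀ j ∈ range J, ‖X j‖ ≤ (RR Rs j : ℝ)
  · have hsum0 : 0 ≤ ∑ j ∈ range J, ‖w‖ ^ 2 * (‖X j‖ / (RR Rs j : ℝ)) ^ (2 * RR Rs j) :=
      sum_nonneg fun _ _ => by positivity
    have hv : e1 < ‖v * Complex.exp (-∑ i ∈ range J, X i) - 1‖ := by
      by_contra hc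
      exact hG ⟨hgood, not_lt.mp hc⟩
    obtain ⟨θ, hθ, hθe⟩ := prod_Cl hcl hgood (h4.trans (by linarith))
    obtain ⟨φ, hφ, hφe⟩ := prod_Cl hcl1 hgood (h4.trans (by linarith))
    set S := ∑ i ∈ range J, X i with hS
    set u := v * Complex.exp (-S) with hu
    set E := Complex.exp ((κ:ℂ) * S) with hE
    have hE1 : Complex.exp (((κ - 1 : ℝ) : ℂ) * S) = E * Complex.exp (-S) := by
      rw [hE, ← Complex.exp_add]; congr 1; push_cast; ring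
    have e1' : v * A * (∏ i ∈ range J, NK (K i) (κ - 1) (X i)) - w = A * E * ((u - 1) * (1 + φ) + φ - θ) := by
      rw [hw, hφe, hθe, hE1, hu]; ring
    have e2 : w = A * E * (1 + θ) := by rw [hw, hθe]; ring
    set a := ‖A * E‖ with ha
    have ha0 : 0 ≤ a := norm_nonneg _
    have hθ' := hθ.trans h4
    have hφ' := hφ.trans h4
    have n1 : ‖w‖ ≤ a * (9 / 8) := by
      rw [e2, norm_mul]
      refine mul_le_mul_of_nonneg_left ?_ ha0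
      have := norm_add_le (1:ℂ) θ
      rw [norm_one] at this
      linarith
    have n2 : e1 / 2 ≤ ‖(u - 1) * (1 + φ) + φ - θ‖ := by
      have m1 : ‖(u - 1) * (1 + φ)‖ ≤ ‖(u - 1) * (1 + φ) + φ - θ‖ + ‖φ‖ + ‖θ‖ := by
        have e3 : (u - 1) * (1 + φ) = ((u - 1) * (1 + φ) + φ - θ) - φ + θ := by ring
        calc ‖(u - 1) * (1 + φ)‖ = ‖((u - 1) * (1 + φ) + φ - θ) - φ + θ‖ := by rw [← e3]
          _ ≤ ‖((u - 1) * (1 + φ) + φ - θ) - φ‖ + ‖θ‖ := norm_add_le _ _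
          _ ≤ _ := add_le_add (norm_sub_le _ _) le_rfl
      have m2 : 7 / 8 ≤ ‖1 + φ‖ := by
        have := norm_sub_norm_le (1:ℂ) (-φ)
        rw [norm_one, norm_neg, sub_neg_eq_add] at this
        linarith
      rw [norm_mul] at m1
      have m3 : e1 * (7 / 8) ≤ ‖u - 1‖ * ‖1 + φ‖ := mul_le_mul hv.le m2 (by norm_num) (norm_nonneg _)
      linarith
    have n3 : a * (e1 / 2) ≤ ‖v * A * (∏ i ∈ range J, NK (K i) (κ - 1) (X i)) - w‖ := by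
      rw [e1', norm_mul]
      exact mul_le_mul_of_nonneg_left n2 ha0
    have n4 : ‖w‖ ≤ 4 / e1 * ‖v * A * (∏ i ∈ range J, NK (K i) (κ - 1) (X i)) - w‖ := by
      calc ‖w‖ ≤ a * (9 / 8) := n1
        _ ≤ a * 2 := by linarith
        _ = 4 / e1 * (a * (e1 / 2)) := by field_simp; ring
        _ ≤ _ := mul_le_mul_of_nonneg_left n3 (by positivity)
    have n5 := pow_le_pow_left₀ (norm_nonneg _) n4 2
    rw [mul_pow, div_pow] at n5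
    norm_num at n5
    linarith
  · push Not at hgood
    obtain ⟨j, hj, hjg⟩ := hgood
    have hR0 : (0:ℝ) < (RR Rs j : ℝ) := by
      have : 0 < RR Rs j := by unfold RR; omega
      exact_mod_cast this
    have h1 : 1 ≤ (‖X j‖ / (RR Rs j : ℝ)) ^ (2 * RR Rs j) := by
      refine one_le_pow₀ ?_
      rw [one_le_div hR0]; exact hjg.le
    have h2 : ‖w‖ ^ 2 ≤ ∑ j ∈ range J, ‖w‖ ^ 2 * (‖X j‖ / (RR Rs j : ℝ)) ^ (2 * RR Rs j) := by
      refine le_trans ?_ (single_le_sum (f := fun j => ‖w‖ ^ 2 * (‖X j‖ / (RR Rs j : ℝ)) ^ (2 * RR Rs j))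
        (fun _ _ => by positivity) hj)
      exact le_mul_of_one_le_right (sq_nonneg _) h1
    have h3 : 0 ≤ 16 / e1 ^ 2 * ‖v * A * (∏ i ∈ range J, NK (K i) (κ - 1) (X i)) - w‖ ^ 2 := by positivity
    linarith

/-- powers of numbers close to one -/
lemma pow_near {M κ u e1 ε : ℝ} (hκ : 0 ≤ κ) (hκM : κ ≤ M) (he1 : 0 < e1) (he2 : e1 < 1) (hu1 : 1 - e1 ≤ u) (hu2 : u ≤ 1 + e1)
    (h1 : (1 + e1) ^ (2 * M) ≤ 1 + ε) (h2 : 1 - ε ≤ (1 - e1) ^ (2 * M)) :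
    1 - ε ≤ u ^ (2 * κ) ∧ u ^ (2 * κ) ≤ 1 + ε := by
  have h0 : 0 < 1 - e1 := by linarith
  constructor
  · refine h2.trans ?_
    calc (1 - e1) ^ (2 * M) ≤ (1 - e1) ^ (2 * κ) :=
          Real.rpow_le_rpow_of_exponent_ge h0 (by linarith) (by linarith)
      _ ≤ u ^ (2 * κ) := Real.rpow_le_rpow h0.le hu1 (by linarith)
  · refine le_trans ?_ h1
    calc u ^ (2 * κ) ≤ (1 + e1) ^ (2 * κ) := Real.rpow_le_rpow (by linarith) hu2 (by linarith)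
      _ ≤ (1 + e1) ^ (2 * M) := Real.rpow_le_rpow_of_exponent_le (by linarith) (by linarith)

/-- on the good set -/
theorem on_good {J Rs : ℕ} {K : ℕ → ℕ} {κ M e1 ε : ℝ} (hκ : 0 ≤ κ) (hκM : κ ≤ M)
    (he1 : 0 < e1) (he2 : e1 < 1) (hε : 0 < ε) (hε1 : ε ≤ 1 / 10)
    (h1 : (1 + e1) ^ (2 * M) ≤ 1 + ε) (h2 : 1 - ε ≤ (1 - e1) ^ (2 * M))
    (hcl : ∀ i, Cl (K i) κ (RR Rs i))
    (h4 : 4 * Real.exp (-(2 * (Rs:ℝ))) ≤ ε / 4) (ζ P A : ℂ) (X : ℕ → ℂ) (hG : Gd J Rs e1 (ζ * P) X)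
    (hPA1 : 1 - ε ≤ ‖P‖ ^ (2 * κ) * ‖A‖ ^ 2) (hPA2 : ‖P‖ ^ (2 * κ) * ‖A‖ ^ 2 ≤ 1 + ε) :
    (1 - 5 * ε) * ‖A * ∏ i ∈ range J, NK (K i) κ (X i)‖ ^ 2 ≤ ‖ζ‖ ^ (2 * κ) ∧
    ‖ζ‖ ^ (2 * κ) ≤ (1 + 5 * ε) * ‖A * ∏ i ∈ range J, NK (K i) κ (X i)‖ ^ 2 := by
  obtain ⟨hX, hv⟩ := hG
  obtain ⟨θ, hθ, hθe⟩ := prod_Cl hcl hX (h4.trans (by linarith))
  set S := ∑ i ∈ range J, X i with hS
  set u := ζ * P * Complex.exp (-S) with hu
  have hun : ‖u‖ = ‖ζ‖ * ‖P‖ * Real.exp (-S.re) := by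
    rw [hu, norm_mul, norm_mul, Complex.norm_exp, Complex.neg_re]
  have hu1 : 1 - e1 ≤ ‖u‖ := by
    have := norm_sub_norm_le (1:ℂ) (-(u - 1))
    rw [norm_one, norm_neg, sub_neg_eq_add, add_sub_cancel] at this
    linarith
  have hu2 : ‖u‖ ≤ 1 + e1 := by
    have := norm_add_le (u - 1) 1
    rw [norm_one, sub_add_cancel] at this
    linarith
  obtain ⟨p1, p2⟩ := pow_near hκ hκM he1 he2 hu1 hu2 h1 h2
  have hw : ‖A * ∏ i ∈ range J, NK (K i) κ (X i)‖ ^ 2 = ‖A‖ ^ 2 * Real.exp (2 * κ * S.re) * ‖1 + θ‖ ^ 2 := by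
    rw [hθe, norm_mul, norm_mul, mul_pow, mul_pow, Complex.norm_exp, ← Real.exp_nat_mul]
    have : (((κ:ℂ)) * S).re = κ * S.re := Complex.re_ofReal_mul _ _
    rw [this]
    push_cast
    rw [show 2 * (κ * S.re) = 2 * κ * S.re by ring]
    ring
  have hUP : ‖u‖ ^ (2 * κ) = ‖ζ‖ ^ (2 * κ) * ‖P‖ ^ (2 * κ) * Real.exp (-(2 * κ * S.re)) := by
    rw [hun, Real.mul_rpow (by positivity) (Real.exp_pos _).le, Real.mul_rpow (norm_nonneg _) (norm_nonneg _),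
      ← Real.exp_mul]
    congr 2
    ring
  set Z := ‖ζ‖ ^ (2 * κ) with hZ
  set PP := ‖P‖ ^ (2 * κ) with hPP
  set a2 := ‖A‖ ^ 2 with ha2
  set Ex := Real.exp (2 * κ * S.re) with hEx
  have hEx0 : 0 < Ex := Real.exp_pos _
  have hEE : Real.exp (-(2 * κ * S.re)) * Ex = 1 := by rw [hEx, ← Real.exp_add]; simp
  have hkey : Z * (PP * a2) = ‖u‖ ^ (2 * κ) * (a2 * Ex) := by
    rw [hUP]
    calc Z * (PP * a2) = Z * PP * a2 * (Real.exp (-(2 * κ * S.re)) * Ex) := by rw [hEE]; ring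
      _ = _ := by ring
  have hZ0 : 0 ≤ Z := Real.rpow_nonneg (norm_nonneg _) _
  have hb0 : 0 ≤ a2 * Ex := by positivity
  have ht1 : 1 - ε / 4 ≤ ‖1 + θ‖ := by
    have := norm_sub_norm_le (1:ℂ) (-θ)
    rw [norm_one, norm_neg, sub_neg_eq_add] at this
    linarith
  have ht2 : ‖1 + θ‖ ≤ 1 + ε / 4 := by
    have := norm_add_le (1:ℂ) θ
    rw [norm_one] at this
    linarith
  have q1 : (1 - ε / 4) ^ 2 ≤ ‖1 + θ‖ ^ 2 := pow_le_pow_left₀ (by linarith) ht1 2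
  have q2 : ‖1 + θ‖ ^ 2 ≤ (1 + ε / 4) ^ 2 := pow_le_pow_left₀ (norm_nonneg _) ht2 2
  rw [hw]
  set b := a2 * Ex with hb
  set U := ‖u‖ ^ (2 * κ) with hU
  set Q := ‖1 + θ‖ ^ 2 with hQ
  have e2 : ε ^ 2 ≤ ε / 10 := by nlinarith
  have e3 : 0 ≤ ε ^ 3 := by positivity
  constructor
  · -- lower bound
    have s1 : (1 - ε) * b ≤ Z * (1 + ε) := by
      calc (1 - ε) * b ≤ U * b := mul_le_mul_of_nonneg_right p1 hb0
        _ = Z * (PP * a2) := hkey.symm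
        _ ≤ Z * (1 + ε) := mul_le_mul_of_nonneg_left hPA2 hZ0
    have s2 : (1 - 5 * ε) * (b * Q) ≤ (1 - 5 * ε) * (b * (1 + ε / 4) ^ 2) :=
      mul_le_mul_of_nonneg_left (mul_le_mul_of_nonneg_left q2 hb0) (by linarith)
    have s3 : (1 - 5 * ε) * (1 + ε / 4) ^ 2 * (1 + ε) ≤ 1 - ε := by nlinarith
    have s4 : ((1 - 5 * ε) * (b * (1 + ε / 4) ^ 2)) * (1 + ε) ≤ Z * (1 + ε) := by
      refine le_trans ?_ s1
      have := mul_le_mul_of_nonneg_right s3 hb0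
      linarith
    exact s2.trans (le_of_mul_le_mul_right s4 (by linarith))
  · have s1 : Z * (1 - ε) ≤ (1 + ε) * b := by
      calc Z * (1 - ε) ≤ Z * (PP * a2) := mul_le_mul_of_nonneg_left hPA1 hZ0
        _ = U * b := hkey
        _ ≤ (1 + ε) * b := mul_le_mul_of_nonneg_right p2 hb0
    have s2 : (1 + 5 * ε) * (b * (1 - ε / 4) ^ 2) ≤ (1 + 5 * ε) * (b * Q) :=
      mul_le_mul_of_nonneg_left (mul_le_mul_of_nonneg_left q1 hb0) (by linarith)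
    have s3 : 1 + ε ≤ (1 + 5 * ε) * (1 - ε / 4) ^ 2 * (1 - ε) := by nlinarith
    have s4 : Z * (1 - ε) ≤ ((1 + 5 * ε) * (b * (1 - ε / 4) ^ 2)) * (1 - ε) := by
      refine s1.trans ?_
      have := mul_le_mul_of_nonneg_right s3 hb0
      linarith
    exact (le_of_mul_le_mul_right s4 (by linarith)).trans s2

end Pool.Agent.Y755
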