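import Pool.Agent.Y755.Wi2

set_option autoImplicit false

/-! The integrated inequalities over a window. -/

namespace Pool.Agent.Y755

open Finset Filter MeasureTheory
open Pool.Agent.W184.NZ
open Pool.Agent.W184 (zn zn_nonneg zn_cont zn_le')

lemma znp_cont {σ p : ℝ} (hσ : σ < 1) (hp : 0 ≤ p) : Continuous fun t => zn σ t ^ p :=
  (zn_cont hσ).rpow_const fun _ => Or.inr hp

section

variable {c y δ α ε τ W X1 X2 Q : ℝ} {z J Rs N K : ℕ} {A0 : P1} {m : ℝ}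

lemma qdS_cont (h : Sy c z y J Rs N K) (hA : Bd1 m A0) (hδ1 : δ ≤ 1 / 16) (a : ℝ) (S : Finset ℕ) :
    Continuous fun t => qd (fun s => es s (Pz z * A0 * Bz a z y J Rs S))
          (fun s => es s (DS N a z y J Rs A0 S)) (1 / 2 + δ) t :=
  qd_cont (es_diff (PB_Bd h hA S)) (es_diff (DS_Bd h hA S)) (by linarith)

lemma int_comb {s : Finset (Finset ℕ)} {d q b : Finset ℕ → ℝ → ℝ} (hd : ∀ S, Continuous (d S))
    (hq : ∀ S, Continuous (q S)) (hb : ∀ S, Continuous (b S)) (c1 c2 c3 c4 u v : ℝ) :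
    ∫ t in u..v, (c1 * (∑ S ∈ s, (c2 * d S t + c3 * q S t)) + c4 * ∑ S ∈ s, b S t) =
      c1 * (c2 * (∑ S ∈ s, ∫ t in u..v, d S t) + c3 * ∑ S ∈ s, ∫ t in u..v, q S t) + c4 * ∑ S ∈ s, ∫ t in u..v, b S t := by
  have i1 : ∀ S, IntervalIntegrable (fun t => c2 * d S t) volume u v := fun S => (continuous_const.mul (hd S)).intervalIntegrable _ _
  have i2 : ∀ S, IntervalIntegrable (fun t => c3 * q S t) volume u v := fun S => (continuous_const.mul (hq S)).intervalIntegrable _ _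
  have i3 : ∀ S, IntervalIntegrable (fun t => b S t) volume u v := fun S => (hb S).intervalIntegrable _ _
  have i4 : ∀ S, IntervalIntegrable (fun t => c2 * d S t + c3 * q S t) volume u v := fun S => (i1 S).add (i2 S)
  have i5 : IntervalIntegrable (fun t => ∑ S ∈ s, (c2 * d S t + c3 * q S t)) volume u v :=
    (continuous_finsetSum _ fun S _ => (continuous_const.mul (hd S)).add (continuous_const.mul (hq S))).intervalIntegrable _ _
  have i6 : IntervalIntegrable (fun t => ∑ S ∈ s, b S t) volume u v :=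
    (continuous_finsetSum _ fun S _ => hb S).intervalIntegrable _ _
  rw [intervalIntegral.integral_add (i5.const_mul c1) (i6.const_mul c4), intervalIntegral.integral_const_mul,
    intervalIntegral.integral_const_mul, intervalIntegral.integral_finsetSum fun S _ => i4 S,
    intervalIntegral.integral_finsetSum fun S _ => i3 S]
  congr 2
  rw [mul_sum, mul_sum, ← sum_add_distrib]
  refine sum_congr rfl fun S _ => ?_
  rw [intervalIntegral.integral_add (i1 S) (i2 S), intervalIntegral.integral_const_mul, intervalIntegral.integral_const_mul]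

/-- the upper bound over a window -/
theorem win_up (h : Sy c z y J Rs N K) (hA : Bd1 m A0) (hAm : A0 ∈ SA1 (M1 (S0 z))) (hm0 : 0 ≤ m)
    (hmK : m < 2 ^ (K + 1)) (hδ : 0 ≤ δ) (hδ1 : δ ≤ 1 / 16) (hα : 0 < α) (hα1 : α ≤ 1) (hτ : 0 < τ)
    (hPA : ∀ t : ℝ, 1 - ε ≤ ‖es (1 / 2 + δ + t * Complex.I) (Pz z)‖ ^ (2 * α) * ‖es (1 / 2 + δ + t * Complex.I) A0‖ ^ 2)
    (hε : ε ≤ 1) (h4 : 4 * Real.exp (-(2 * (Rs:ℝ))) ≤ 1) (hE : ET c z y J Rs ≤ 1) (hX1 : 0 ≤ X1) (hX12 : X1 ≤ X2)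
    (hW : Real.exp (Real.log y * (180 * ((Rs:ℝ) + 1))) ≤ W)
    (hQ : ∑ S ∈ (range J).powerset, ∫ t in X1..X2, qd (fun s => es s (Pz z * A0 * Bz (α - 1) z y J Rs S))
          (fun s => es s (DS N (α - 1) z y J Rs A0 S)) (1 / 2 + δ) t ≤ Q) :
    (1 - ε) * (1 - 4 * Real.exp (-(2 * (Rs:ℝ)))) * (∫ t in X1..X2, zn (1 / 2 + δ) t ^ (2 * α)) ≤
      α * ((1 + τ) * (X2 * ((ip δ A0 A0 + (2 ^ (S0 z).card * l1' A0) ^ 2 / 2 ^ (K + 1)) *
        Real.exp (α ^ 2 * Vd δ z y J + ET c z y J Rs) * Real.exp (2 * vd δ (Rst N y))) +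
        4 * (N:ℝ) ^ 3 * (l1' (Pz z * A0) ^ 2 * W)) + (1 + 1 / τ) * Q) +
      (1 - α) * (X2 * (ip δ A0 A0 * Real.exp (α ^ 2 * Vd δ z y J + ET c z y J Rs)) + 4 * (m * W) * (l1' A0 ^ 2 * W)) := by
  have ha : |α - 1| ≤ 1 := by rw [abs_le]; constructor <;> linarith
  have hX2 : 0 ≤ X2 := hX1.trans hX12
  have hDc : ∀ S, Continuous fun t : ℝ => ‖es (1 / 2 + δ + t * Complex.I) (DS N (α - 1) z y J Rs A0 S)‖ ^ 2 :=
    fun S => es_cont0 δ (DS_Bd h hA S)
  have hBc : ∀ S, Continuous fun t : ℝ => ‖es (1 / 2 + δ + t * Complex.I) (A0 * Bz α z y J Rs S)‖ ^ 2 :=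
    fun S => es_cont0 δ (hA.mul (Bz_Bd h S))
  have hqc := qdS_cont (δ := δ) h hA hδ1 (α - 1)
  have h1 : ∫ t in X1..X2, (1 - ε) * (1 - 4 * Real.exp (-(2 * (Rs:ℝ)))) * zn (1 / 2 + δ) t ^ (2 * α) ≤
      ∫ t in X1..X2, (α * (∑ S ∈ (range J).powerset, ((1 + τ) * ‖es (1 / 2 + δ + t * Complex.I) (DS N (α - 1) z y J Rs A0 S)‖ ^ 2 +
        (1 + 1 / τ) * qd (fun s => es s (Pz z * A0 * Bz (α - 1) z y J Rs S))
          (fun s => es s (DS N (α - 1) z y J Rs A0 S)) (1 / 2 + δ) t)) +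
      (1 - α) * ∑ S ∈ (range J).powerset, ‖es (1 / 2 + δ + t * Complex.I) (A0 * Bz α z y J Rs S)‖ ^ 2) := by
    refine intervalIntegral.integral_mono_on hX12 ?_ ?_ fun t _ => up_pw2 h.R1 hα hα1 t hτ (hPA t) hε h4
    · exact (continuous_const.mul (znp_cont (by linarith) (by linarith))).intervalIntegrable _ _
    · exact ((continuous_const.mul (continuous_finsetSum _ fun S _ => (continuous_const.mul (hDc S)).add
        (continuous_const.mul (hqc S)))).add (continuous_const.mul (continuous_finsetSum _ fun S _ => hBc S))).intervalIntegrable _ _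
  rw [intervalIntegral.integral_const_mul] at h1
  refine h1.trans ?_
  rw [int_comb hDc hqc hBc]
  have g1 := I1 (a := α - 1) (X2 := X2) h hA (ha.trans (by norm_num : (1:ℝ) ≤ 2)) hδ hX1 hW
  have g2 := N1 h hδ ha hA hAm hmK
  have g3 := I2 (a := α) (X2 := X2) h hA hm0 (by rw [abs_le]; constructor <;> linarith) hδ hX1 hW
  have g4 := (N45 h hδ ha hAm hE).2
  have e1 : 1 + (α - 1) = α := by ring
  rw [e1] at g2 g4
  have g5 := mul_le_mul_of_nonneg_left g2 hX2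
  have g6 := mul_le_mul_of_nonneg_left g4 hX2
  refine add_le_add (mul_le_mul_of_nonneg_left (add_le_add (mul_le_mul_of_nonneg_left ?_ (by linarith))
    (mul_le_mul_of_nonneg_left hQ (by positivity))) hα.le) (mul_le_mul_of_nonneg_left ?_ (by linarith))
  · linarith
  · linarith

lemma int_comb2 {J : ℕ} {f1 f2 f3 : ℝ → ℝ} {f4 : ℕ → ℝ → ℝ} (h1 : Continuous f1) (h2 : Continuous f2)
    (h3 : Continuous f3) (h4 : ∀ j, Continuous (f4 j)) (c1 c2 u v : ℝ) :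
    ∫ t in u..v, (c1 * f1 t - c2 * (f2 t + f3 t) - ∑ j ∈ range J, f4 j t) =
      c1 * (∫ t in u..v, f1 t) - c2 * ((∫ t in u..v, f2 t) + ∫ t in u..v, f3 t) - ∑ j ∈ range J, ∫ t in u..v, f4 j t := by
  have i1 : IntervalIntegrable (fun t => c1 * f1 t) volume u v := (continuous_const.mul h1).intervalIntegrable _ _
  have i2 : IntervalIntegrable (fun t => f2 t) volume u v := h2.intervalIntegrable _ _
  have i3 : IntervalIntegrable (fun t => f3 t) volume u v := h3.intervalIntegrable _ _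
  have i4 : ∀ j, IntervalIntegrable (fun t => f4 j t) volume u v := fun j => (h4 j).intervalIntegrable _ _
  have i5 : IntervalIntegrable (fun t => f2 t + f3 t) volume u v := i2.add i3
  have i6 : IntervalIntegrable (fun t => ∑ j ∈ range J, f4 j t) volume u v :=
    (continuous_finsetSum _ fun j _ => h4 j).intervalIntegrable _ _
  rw [intervalIntegral.integral_sub (i1.sub (i5.const_mul c2)) i6, intervalIntegral.integral_sub i1 (i5.const_mul c2),
    intervalIntegral.integral_const_mul, intervalIntegral.integral_const_mul, intervalIntegral.integral_add i2 i3,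
    intervalIntegral.integral_finsetSum fun j _ => i4 j]

/-- the lower bound over a window -/
theorem win_low (h : Sy c z y J Rs N K) (hA : Bd1 m A0) (hAm : A0 ∈ SA1 (M1 (S0 z))) (hm0 : 0 ≤ m)
    (hmK : m < 2 ^ (K + 1)) (hmN : m * W ≤ N) (hδ : 0 ≤ δ) (hδ1 : δ ≤ 1 / 16) (hα : 0 < α) (hα2 : α ≤ 2) (hτ : 0 < τ)
    (hτ1 : τ ≤ 1 / 2)
    (hA0 : ∀ t : ℝ, 0 < ‖es (1 / 2 + δ + t * Complex.I) A0‖)
    (hPA : ∀ t : ℝ, ‖es (1 / 2 + δ + t * Complex.I) (Pz z)‖ ^ (2 * α) * ‖es (1 / 2 + δ + t * Complex.I) A0‖ ^ 2 ≤ 1 + ε)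
    (hE : ET c z y J Rs ≤ 1) (hX1 : 0 ≤ X1) (hX12 : X1 ≤ X2)
    (hW : Real.exp (Real.log y * (180 * ((Rs:ℝ) + 1))) ≤ W)
    (hQ : ∑ S ∈ (range J).powerset, ∫ t in X1..X2, qd (fun s => es s (Pz z * A0 * Bz (α - 1) z y J Rs S))
          (fun s => es s (DS N (α - 1) z y J Rs A0 S)) (1 / 2 + δ) t ≤ Q) :
    (1 - 2 * τ) * ((X2 - X1) * ((1 - ET c z y J Rs) * (ip δ A0 A0 * Real.exp (α ^ 2 * Vd δ z y J))) -
        4 * (m * W) * (l1' A0 ^ 2 * W)) -
      4 * (1 + 1 / τ) * (Q + (X2 * (((ip δ A0 A0 + (2 ^ (S0 z).card * l1' A0) ^ 2 / 2 ^ (K + 1)) *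
        Real.exp (ET c z y J Rs + 2 * vd δ (Rst N y)) -
        2 * (1 - ET c z y J Rs) * ip δ A0 A0 + Real.exp (ET c z y J Rs) * ip δ A0 A0) *
        Real.exp (α ^ 2 * Vd δ z y J)) +
        8 * N * ((N:ℝ) ^ 2 * (l1' (Pz z * A0) ^ 2 * W) + l1' A0 ^ 2 * W))) -
      (X2 * (ET c z y J Rs * Real.exp (ET c z y J Rs) * (ip δ A0 A0 * Real.exp (α ^ 2 * Vd δ z y J))) +
        4 * m * l1' A0 ^ 2 * W ^ 6) ≤
    (1 + ε) * Real.exp (14 * Real.exp (-(2 * (Rs:ℝ)))) * (∫ t in X1..X2, zn (1 / 2 + δ) t ^ (2 * α)) := by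
  have ha : |α - 1| ≤ 1 := by rw [abs_le]; constructor <;> linarith
  have ha2 : |α - 1| ≤ 2 := ha.trans (by norm_num)
  have hα22 : |α| ≤ 2 := by rw [abs_le]; constructor <;> linarith
  have hX2 : 0 ≤ X2 := hX1.trans hX12
  have hXd : 0 ≤ X2 - X1 := by linarith
  have e0 : 1 + (α - 1) = α := by ring
  have hWm : ∀ S, Bd1 (m * W) (A0 * Bz α z y J Rs S) := fun S => AB_Bd h hA hm0 hW S
  have hQB : ∀ j, Bd1 W (Qe (RR Rs j) (IZ z y j)) := fun j => (Qe_Bd (rg_b h.rg j) _).mono (bbR_le h hW j)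
  have c1 : Continuous fun t : ℝ => ‖es (1 / 2 + δ + t * Complex.I) (A0 * Bz α z y J Rs ∅)‖ ^ 2 := es_cont0 δ (hWm ∅)
  have c2 := qdS_cont (δ := δ) h hA hδ1 (α - 1) ∅
  have c3 : Continuous fun t : ℝ => ‖es (1 / 2 + δ + t * Complex.I) (DS N (α - 1) z y J Rs A0 ∅ - A0 * Bz α z y J Rs ∅)‖ ^ 2 :=
    es_cont0 δ ((DS_Bd h hA ∅).sub ((hWm ∅).mono hmN))
  have c4 : ∀ j, Continuous fun t : ℝ => ‖es (1 / 2 + δ + t * Complex.I) (A0 * Bz α z y J Rs ∅ * Qe (RR Rs j) (IZ z y j))‖ ^ 2 :=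
    fun j => es_cont0 δ ((hWm ∅).mul (hQB j))
  have h1 : ∫ t in X1..X2, ((1 - 2 * τ) * ‖es (1 / 2 + δ + t * Complex.I) (A0 * Bz α z y J Rs ∅)‖ ^ 2 -
      4 * (1 + 1 / τ) * (qd (fun s => es s (Pz z * A0 * Bz (α - 1) z y J Rs ∅))
          (fun s => es s (DS N (α - 1) z y J Rs A0 ∅)) (1 / 2 + δ) t +
        ‖es (1 / 2 + δ + t * Complex.I) (DS N (α - 1) z y J Rs A0 ∅ - A0 * Bz α z y J Rs ∅)‖ ^ 2) -
      ∑ j ∈ range J, ‖es (1 / 2 + δ + t * Complex.I) (A0 * Bz α z y J Rs ∅ * Qe (RR Rs j) (IZ z y j))‖ ^ 2) ≤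
      ∫ t in X1..X2, (1 + ε) * Real.exp (14 * Real.exp (-(2 * (Rs:ℝ)))) * zn (1 / 2 + δ) t ^ (2 * α) := by
    refine intervalIntegral.integral_mono_on hX12 ?_ ?_ fun t _ => low_pw2 h.R1 hα hα2 t hτ (hA0 t) (hPA t)
    · exact (((continuous_const.mul c1).sub (continuous_const.mul (c2.add c3))).sub
        (continuous_finsetSum _ fun j _ => c4 j)).intervalIntegrable _ _
    · exact (continuous_const.mul (znp_cont (by linarith) (by linarith))).intervalIntegrable _ _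
  rw [intervalIntegral.integral_const_mul] at h1
  refine le_trans ?_ h1
  rw [int_comb2 c1 c2 c3 c4]
  have g1 := I3 (a := α) (X1 := X1) (X2 := X2) h hA hm0 hα22 hδ hW
  have n45 := (N45 h hδ ha hAm hE).1
  rw [e0] at n45
  have g2 := mul_le_mul_of_nonneg_left n45 hXd
  have g3 : ∫ t in X1..X2, qd (fun s => es s (Pz z * A0 * Bz (α - 1) z y J Rs ∅))
          (fun s => es s (DS N (α - 1) z y J Rs A0 ∅)) (1 / 2 + δ) t ≤ Q := by
    refine le_trans ?_ hQ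
    exact single_le_sum (f := fun S => ∫ t in X1..X2, qd (fun s => es s (Pz z * A0 * Bz (α - 1) z y J Rs S))
          (fun s => es s (DS N (α - 1) z y J Rs A0 S)) (1 / 2 + δ) t)
      (fun S _ => intervalIntegral.integral_nonneg hX12 fun t _ => qd_nonneg _ _ _ _) (empty_mem_powerset (range J))
  have g4 := I4 (X2 := X2) h hA hm0 ha2 hα22 hδ hX1 hW hmN
  have n2 := N2 h hδ ha hA hAm hmK (by rw [e0]; exact (hWm ∅).mono hmN) hE
  rw [e0] at n2
  have g5 := mul_le_mul_of_nonneg_left n2 hX2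
  have g6 := I5 (X2 := X2) h hA hm0 hα22 hδ hX1 hW
  have n3 := N3 h hδ ha hAm
  rw [e0] at n3
  have g7 := mul_le_mul_of_nonneg_left n3 hX2
  have k1 := mul_le_mul_of_nonneg_left (le_trans (sub_le_sub_right g2 _) g1) (by linarith : 0 ≤ 1 - 2 * τ)
  have k2 := mul_le_mul_of_nonneg_left (add_le_add g3 (g4.trans (add_le_add g5 le_rfl)))
    (by positivity : 0 ≤ 4 * (1 + 1 / τ))
  have k3 := g6.trans (add_le_add g7 le_rfl)
  exact sub_le_sub (sub_le_sub k1 k2) k3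

end

end Pool.Agent.Y755
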