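import Pool.Agent.Y755.Gm7
import Pool.Agent.Y755.Gm3
import Pool.Agent.Y755.Wi3

set_option autoImplicit false

/-! The good set: integrated statements over a window. -/

namespace Pool.Agent.Y755

open Finset Filter MeasureTheory
open Pool.Agent.W184.NZ
open Pool.Agent.W184 (zn zn_nonneg zn_cont zn_le')

/-- the good heights -/
def Gh (z : ℕ) (y : ℝ) (J Rs : ℕ) (e1 δ : ℝ) : Set ℝ :=
  {t | Gd J Rs e1 (riemannZeta (1 / 2 + δ + t * Complex.I) * es (1 / 2 + δ + t * Complex.I) (Pz z))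
    (fun i => PI (IZ z y i) (1 / 2 + δ + t * Complex.I))}

section

variable {M : ℕ} {c y δ κ e1 W X1 X2 Q : ℝ} {z J Rs N K : ℕ} {A0 : P1} {m : ℝ}

lemma PI_cont (h : Sy c z y J Rs N K) (i : ℕ) : Continuous fun t : ℝ => PI (IZ z y i) (1 / 2 + δ + t * Complex.I) := by
  have e : (fun t : ℝ => PI (IZ z y i) (1 / 2 + δ + t * Complex.I)) =
      fun t : ℝ => es (1 / 2 + δ + t * Complex.I) (x1 (IZ z y i)) := by
    funext t; rw [es_x1]
  rw [e]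
  exact (es_diff (x1_Bd (rg_b h.rg i))).continuous.comp (by fun_prop : Continuous fun t : ℝ => (1 / 2 + (δ:ℂ) + t * Complex.I))

lemma Gh_meas (h : Sy c z y J Rs N K) (hδ1 : δ ≤ 1 / 16) : MeasurableSet (Gh z y J Rs e1 δ) := by
  have hz : Continuous fun t : ℝ => riemannZeta (1 / 2 + δ + t * Complex.I) := by
    have h1 := zeta_cont (σ := 1 / 2 + δ) (by linarith)
    refine h1.congr fun t => ?_
    rw [s_eq]
  have hP : Continuous fun t : ℝ => es (1 / 2 + δ + t * Complex.I) (Pz z) :=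
    (es_diff (Pz_Bd z)).continuous.comp (by fun_prop : Continuous fun t : ℝ => (1 / 2 + (δ:ℂ) + t * Complex.I))
  have e : Gh z y J Rs e1 δ = (⋂ i ∈ range J, {t : ℝ | ‖PI (IZ z y i) (1 / 2 + δ + t * Complex.I)‖ ≤ (RR Rs i : ℝ)}) ∩
      {t : ℝ | ‖riemannZeta (1 / 2 + δ + t * Complex.I) * es (1 / 2 + δ + t * Complex.I) (Pz z) *
        Complex.exp (-∑ i ∈ range J, PI (IZ z y i) (1 / 2 + δ + t * Complex.I)) - 1‖ ≤ e1} := by
    ext t
    simp only [Gh, Gd, Set.mem_ofPred_eq, Set.mem_inter_iff, Set.mem_iInter]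
  rw [e]
  refine MeasurableSet.inter ?_ ?_
  · refine Finset.measurableSet_biInter _ fun i _ => ?_
    exact (isClosed_le (PI_cont h i).norm continuous_const).measurableSet
  · refine (isClosed_le (Continuous.norm ?_) continuous_const).measurableSet
    refine ((hz.mul hP).mul (Complex.continuous_exp.comp ?_)).sub continuous_const
    exact (continuous_finsetSum _ fun i _ => PI_cont h i).neg

lemma es_Bm (κ : ℝ) (s : ℂ) : es s (Bm M κ z y J Rs) = ∏ i ∈ range J, NK (20 * (M * RR Rs i)) κ (PI (IZ z y i) s) := by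
  unfold Bm
  rw [map_prod]
  refine prod_congr rfl fun i _ => ?_
  rw [NK_map, es_x1]

/-- the majorant off the good set -/
noncomputable def Fm (N M : ℕ) (κ e1 : ℝ) (z : ℕ) (y : ℝ) (J Rs : ℕ) (A0 : P1) (δ t : ℝ) : ℝ :=
  32 / e1 ^ 2 * (qd (fun s => es s (Pz z * A0 * Bm M (κ - 1) z y J Rs)) (fun s => es s (Dm N M (κ - 1) z y J Rs A0)) (1 / 2 + δ) t +
    ‖es (1 / 2 + δ + t * Complex.I) (Dm N M (κ - 1) z y J Rs A0 - A0 * Bm M κ z y J Rs)‖ ^ 2) +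
  ∑ j ∈ range J, ‖es (1 / 2 + δ + t * Complex.I) (A0 * Bm M κ z y J Rs * Qe (RR Rs j) (IZ z y j))‖ ^ 2

lemma Fm_nonneg (he1 : 0 < e1) (t : ℝ) : 0 ≤ Fm N M κ e1 z y J Rs A0 δ t := by
  unfold Fm
  have h1 := qd_nonneg (fun s => es s (Pz z * A0 * Bm M (κ - 1) z y J Rs)) (fun s => es s (Dm N M (κ - 1) z y J Rs A0)) (1 / 2 + δ) t
  have h2 : 0 ≤ ∑ j ∈ range J, ‖es (1 / 2 + δ + t * Complex.I) (A0 * Bm M κ z y J Rs * Qe (RR Rs j) (IZ z y j))‖ ^ 2 :=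
    sum_nonneg fun _ _ => sq_nonneg _
  positivity

lemma Fm_ge (hM : 1 ≤ M) (hRs : 1 ≤ Rs) (hκ : |κ| ≤ 2 * M) (hκ1 : |κ - 1| ≤ 2 * M) (he1 : 0 < e1) (he2 : e1 ≤ 1)
    (h4 : 4 * Real.exp (-(2 * (Rs:ℝ))) ≤ e1 / 8) {t : ℝ} (ht : t ∉ Gh z y J Rs e1 δ) :
    ‖es (1 / 2 + δ + t * Complex.I) (A0 * Bm M κ z y J Rs)‖ ^ 2 ≤ Fm N M κ e1 z y J Rs A0 δ t := by
  set s : ℂ := 1 / 2 + (δ:ℂ) + t * Complex.I with hs
  have hR : ∀ i, 1 ≤ RR Rs i := fun i => by unfold RR; omega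
  have h1 := off_good (J := J) (Rs := Rs) (K := fun i => 20 * (M * RR Rs i)) (κ := κ) hRs he1 he2
    (fun i => cl_M hM (hR i) hκ) (fun i => cl_M hM (hR i) hκ1) h4 (riemannZeta s * es s (Pz z)) (es s A0)
    (fun i => PI (IZ z y i) s) ht
  rw [← es_Bm, ← es_Bm, ← map_mul] at h1
  set x := riemannZeta s * es s (Pz z * A0 * Bm M (κ - 1) z y J Rs) with hx
  set w := es s (A0 * Bm M κ z y J Rs) with hw
  set d := es s (Dm N M (κ - 1) z y J Rs A0) with hd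
  have e2 : riemannZeta s * es s (Pz z) * es s A0 * es s (Bm M (κ - 1) z y J Rs) = x := by
    rw [hx, map_mul, map_mul]; ring
  have e3 : ∀ j ∈ range J, ‖w‖ ^ 2 * (‖PI (IZ z y j) s‖ / (RR Rs j : ℝ)) ^ (2 * RR Rs j) =
      ‖es s (A0 * Bm M κ z y J Rs * Qe (RR Rs j) (IZ z y j))‖ ^ 2 := by
    intro j _
    rw [← es_Qe_sq, map_mul (es s) (A0 * Bm M κ z y J Rs), norm_mul, mul_pow, ← hw]
  rw [e2, sum_congr rfl e3] at h1
  refine h1.trans ?_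
  unfold Fm
  have e4 : qd (fun s => es s (Pz z * A0 * Bm M (κ - 1) z y J Rs))
      (fun s => es s (Dm N M (κ - 1) z y J Rs A0)) (1 / 2 + δ) t = ‖x - d‖ ^ 2 := by
    unfold qd; rw [s_eq]
  have e5 : es s (Dm N M (κ - 1) z y J Rs A0 - A0 * Bm M κ z y J Rs) = d - w := by rw [map_sub]
  rw [e4, ← hs, e5]
  have h3 : ‖x - w‖ ^ 2 ≤ 2 * ‖x - d‖ ^ 2 + 2 * ‖d - w‖ ^ 2 := by
    have h4 : ‖x - w‖ ≤ ‖x - d‖ + ‖d - w‖ := norm_sub_le_norm_sub_add_norm_sub x d w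
    have h5 := pow_le_pow_left₀ (norm_nonneg _) h4 2
    nlinarith [sq_nonneg (‖x - d‖ - ‖d - w‖)]
  refine add_le_add ?_ le_rfl
  have h7 := mul_le_mul_of_nonneg_left h3 (by positivity : 0 ≤ 16 / e1 ^ 2)
  refine h7.trans (le_of_eq ?_)
  ring

lemma ABm_win (h : Sy c z y J Rs N K) (hA : Bd1 m A0) (hm : 0 ≤ m) (ha : |κ| ≤ 2 * M) (hδ : 0 ≤ δ)
    (hW : Real.exp (Real.log y * (180 * (M * ((Rs:ℝ) + 1)))) ≤ W) (hW0 : 0 ≤ W) :
    |(∫ t in X1..X2, ‖es (1 / 2 + δ + t * Complex.I) (A0 * Bm M κ z y J Rs)‖ ^ 2) -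
      (X2 - X1) * ip δ (A0 * Bm M κ z y J Rs) (A0 * Bm M κ z y J Rs)| ≤ 4 * (m * W) * (l1' A0 ^ 2 * W) := by
  refine (mvt_win (X1 := X1) (X2 := X2) hδ (ABm_Bd (a := κ) h hA hm hW)).trans ?_
  exact mul_le_mul_of_nonneg_left (ABm_l1 (A0 := A0) h ha hW) (by positivity)

/-- the integral of the majorant -/
theorem Fm_int (hM : 1 ≤ M) (hz : 40000 * M ^ 6 ≤ z) (h : Sy c z y J Rs N K) (hA : Bd1 m A0) (hAm : A0 ∈ SA1 (M1 (S0 z)))
    (hm0 : 0 ≤ m) (hmK : m < 2 ^ (K + 1)) (hmN : m * W ≤ N) (hδ : 0 ≤ δ) (hδ1 : δ ≤ 1 / 16) (hκ1 : |κ - 1| ≤ M)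
    (he1 : 0 < e1) (hE : ETM M c z y J Rs ≤ 1) (hX1 : 0 ≤ X1) (hX12 : X1 ≤ X2)
    (hW : Real.exp (Real.log y * (180 * (M * ((Rs:ℝ) + 1)))) ≤ W)
    (hQ : ∫ t in X1..X2, qd (fun s => es s (Pz z * A0 * Bm M (κ - 1) z y J Rs))
          (fun s => es s (Dm N M (κ - 1) z y J Rs A0)) (1 / 2 + δ) t ≤ Q) :
    IntervalIntegrable (fun t => Fm N M κ e1 z y J Rs A0 δ t) volume X1 X2 ∧
    ∫ t in X1..X2, Fm N M κ e1 z y J Rs A0 δ t ≤
      32 / e1 ^ 2 * (Q + (X2 * (((ip δ A0 A0 + (2 ^ (S0 z).card * l1' A0) ^ 2 / 2 ^ (K + 1)) *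
        Real.exp (ETM M c z y J Rs + 2 * vd δ (Rst N y)) -
        2 * (1 - ETM M c z y J Rs) * ip δ A0 A0 + Real.exp (ETM M c z y J Rs) * ip δ A0 A0) *
        Real.exp (κ ^ 2 * Vd δ z y J)) +
        8 * N * ((N:ℝ) ^ 2 * (l1' (Pz z * A0) ^ 2 * W) + l1' A0 ^ 2 * W))) +
      (X2 * (ETM M c z y J Rs * Real.exp (ETM M c z y J Rs) * (ip δ A0 A0 * Real.exp (κ ^ 2 * Vd δ z y J))) +
        4 * m * l1' A0 ^ 2 * W ^ 6) := by
  have hM1 : (1:ℝ) ≤ M := by exact_mod_cast hM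
  have e0 : 1 + (κ - 1) = κ := by ring
  have hWo := W_of hM h hW
  have hW1 := one_le_W h hWo
  obtain ⟨k0, k1, _⟩ := k_absM hM hκ1
  rw [e0] at k1
  have hX2 : 0 ≤ X2 := hX1.trans hX12
  have hb : ∀ j, 0 ≤ bb y j := fun j => (bb_pos y j).le
  have hWm : Bd1 (m * W) (A0 * Bm M κ z y J Rs) := ABm_Bd h hA hm0 hW
  have hQB : ∀ j, Bd1 W (Qe (RR Rs j) (IZ z y j)) := fun j => (Qe_Bd (rg_b h.rg j) _).mono (bbR_le h hWo j)
  have hQl : ∀ j, l1' (Qe (RR Rs j) (IZ z y j)) ≤ W := fun j =>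
    (Qe_l1 (hb j) (rg_b h.rg j) (hRR h j)).trans (bbR_le h hWo j)
  have hDm : Bd1 N (Dm N M (κ - 1) z y J Rs A0) := Dm_Bd h hA
  have hDW : Bd1 N (Dm N M (κ - 1) z y J Rs A0 - A0 * Bm M κ z y J Rs) := hDm.sub (hWm.mono hmN)
  have c2 : Continuous (qd (fun s => es s (Pz z * A0 * Bm M (κ - 1) z y J Rs))
      (fun s => es s (Dm N M (κ - 1) z y J Rs A0)) (1 / 2 + δ)) :=
    qd_cont (es_diff (PBm_Bd h hA)) (es_diff hDm) (by linarith)
  have c3 : Continuous fun t : ℝ => ‖es (1 / 2 + δ + t * Complex.I) (Dm N M (κ - 1) z y J Rs A0 - A0 * Bm M κ z y J Rs)‖ ^ 2 :=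
    es_cont0 δ hDW
  have c4 : ∀ j, Continuous fun t : ℝ => ‖es (1 / 2 + δ + t * Complex.I) (A0 * Bm M κ z y J Rs * Qe (RR Rs j) (IZ z y j))‖ ^ 2 :=
    fun j => es_cont0 δ (hWm.mul (hQB j))
  have cF : Continuous fun t => Fm N M κ e1 z y J Rs A0 δ t := by
    unfold Fm
    exact (continuous_const.mul (c2.add c3)).add (continuous_finsetSum _ fun j _ => c4 j)
  refine ⟨cF.intervalIntegrable _ _, ?_⟩
  have i2 : IntervalIntegrable (fun t => qd (fun s => es s (Pz z * A0 * Bm M (κ - 1) z y J Rs))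
      (fun s => es s (Dm N M (κ - 1) z y J Rs A0)) (1 / 2 + δ) t) volume X1 X2 := c2.intervalIntegrable _ _
  have i3 : IntervalIntegrable (fun t : ℝ => ‖es (1 / 2 + δ + t * Complex.I)
      (Dm N M (κ - 1) z y J Rs A0 - A0 * Bm M κ z y J Rs)‖ ^ 2) volume X1 X2 := c3.intervalIntegrable _ _
  have i4 : ∀ j, IntervalIntegrable (fun t : ℝ => ‖es (1 / 2 + δ + t * Complex.I)
      (A0 * Bm M κ z y J Rs * Qe (RR Rs j) (IZ z y j))‖ ^ 2) volume X1 X2 := fun j => (c4 j).intervalIntegrable _ _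
  have i5 : IntervalIntegrable (fun t => ∑ j ∈ range J, ‖es (1 / 2 + δ + t * Complex.I)
      (A0 * Bm M κ z y J Rs * Qe (RR Rs j) (IZ z y j))‖ ^ 2) volume X1 X2 :=
    (continuous_finsetSum _ fun j _ => c4 j).intervalIntegrable _ _
  have e1' : ∫ t in X1..X2, Fm N M κ e1 z y J Rs A0 δ t = 32 / e1 ^ 2 * ((∫ t in X1..X2,
      qd (fun s => es s (Pz z * A0 * Bm M (κ - 1) z y J Rs)) (fun s => es s (Dm N M (κ - 1) z y J Rs A0)) (1 / 2 + δ) t) +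
      ∫ t in X1..X2, ‖es (1 / 2 + δ + t * Complex.I) (Dm N M (κ - 1) z y J Rs A0 - A0 * Bm M κ z y J Rs)‖ ^ 2) +
      ∑ j ∈ range J, ∫ t in X1..X2, ‖es (1 / 2 + δ + t * Complex.I) (A0 * Bm M κ z y J Rs * Qe (RR Rs j) (IZ z y j))‖ ^ 2 := by
    unfold Fm
    rw [intervalIntegral.integral_add ((i2.add i3).const_mul _) i5, intervalIntegral.integral_const_mul,
      intervalIntegral.integral_add i2 i3, intervalIntegral.integral_finsetSum fun j _ => i4 j]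
  rw [e1']
  -- the second term
  have g2 : ∫ t in X1..X2, ‖es (1 / 2 + δ + t * Complex.I) (Dm N M (κ - 1) z y J Rs A0 - A0 * Bm M κ z y J Rs)‖ ^ 2 ≤
      X2 * (((ip δ A0 A0 + (2 ^ (S0 z).card * l1' A0) ^ 2 / 2 ^ (K + 1)) *
        Real.exp (ETM M c z y J Rs + 2 * vd δ (Rst N y)) -
        2 * (1 - ETM M c z y J Rs) * ip δ A0 A0 + Real.exp (ETM M c z y J Rs) * ip δ A0 A0) *
        Real.exp (κ ^ 2 * Vd δ z y J)) +
        8 * N * ((N:ℝ) ^ 2 * (l1' (Pz z * A0) ^ 2 * W) + l1' A0 ^ 2 * W) := by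
    refine (mvt_up hδ hX1 hDW).trans (add_le_add ?_ ?_)
    · have n2 := N2M (c := c) hM hz h hδ hκ1 hA hAm hmK (by rw [e0]; exact hWm.mono hmN) hE
      rw [e0] at n2
      exact mul_le_mul_of_nonneg_left n2 hX2
    · have h1 : l1' (Dm N M (κ - 1) z y J Rs A0 - A0 * Bm M κ z y J Rs) ≤
          l1' (Dm N M (κ - 1) z y J Rs A0) + l1' (A0 * Bm M κ z y J Rs) := by
        have e : Dm N M (κ - 1) z y J Rs A0 - A0 * Bm M κ z y J Rs =
            Dm N M (κ - 1) z y J Rs A0 + (-1 : ℝ) • (A0 * Bm M κ z y J Rs) := by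
          rw [neg_one_smul]; abel
        rw [e]
        refine (l1'_add _ _).trans (add_le_add le_rfl ((l1'_smul _ _).trans ?_))
        rw [abs_neg, abs_one, one_mul]
      have h2 := pow_le_pow_left₀ (l1'_nonneg _) h1 2
      have h3 := Dm_l1 (A0 := A0) h k0 hW
      have h4 := ABm_l1 (A0 := A0) h k1 hW
      have h5 : l1' (Dm N M (κ - 1) z y J Rs A0 - A0 * Bm M κ z y J Rs) ^ 2 ≤
          2 * ((N:ℝ) ^ 2 * (l1' (Pz z * A0) ^ 2 * W) + l1' A0 ^ 2 * W) := by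
        nlinarith [sq_nonneg (l1' (Dm N M (κ - 1) z y J Rs A0) - l1' (A0 * Bm M κ z y J Rs))]
      have h6 := mul_le_mul_of_nonneg_left h5 (by positivity : (0:ℝ) ≤ 4 * N)
      linarith
  -- the far parts
  have g3 : ∑ j ∈ range J, ∫ t in X1..X2, ‖es (1 / 2 + δ + t * Complex.I)
      (A0 * Bm M κ z y J Rs * Qe (RR Rs j) (IZ z y j))‖ ^ 2 ≤
      X2 * (ETM M c z y J Rs * Real.exp (ETM M c z y J Rs) * (ip δ A0 A0 * Real.exp (κ ^ 2 * Vd δ z y J))) +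
        4 * m * l1' A0 ^ 2 * W ^ 6 := by
    have h1 : ∀ j ∈ range J, ∫ t in X1..X2, ‖es (1 / 2 + δ + t * Complex.I)
        (A0 * Bm M κ z y J Rs * Qe (RR Rs j) (IZ z y j))‖ ^ 2 ≤
        X2 * ip δ (A0 * Bm M κ z y J Rs * Qe (RR Rs j) (IZ z y j))
          (A0 * Bm M κ z y J Rs * Qe (RR Rs j) (IZ z y j)) + 4 * m * l1' A0 ^ 2 * W ^ 5 := by
      intro j _
      refine (mvt_up hδ hX1 (hWm.mul (hQB j))).trans ?_
      have h2 : l1' (A0 * Bm M κ z y J Rs * Qe (RR Rs j) (IZ z y j)) ^ 2 ≤ l1' A0 ^ 2 * W * W ^ 2 := by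
        refine (pow_le_pow_left₀ (l1'_nonneg _) (l1'_mul _ _) 2).trans ?_
        rw [mul_pow]
        exact mul_le_mul (ABm_l1 h k1 hW) (pow_le_pow_left₀ (l1'_nonneg _) (hQl j) 2) (by positivity) (by positivity)
      have h3 := mul_le_mul_of_nonneg_left h2 (by positivity : 0 ≤ 4 * (m * W * W))
      have h4 : 4 * (m * W * W) * (l1' A0 ^ 2 * W * W ^ 2) = 4 * m * l1' A0 ^ 2 * W ^ 5 := by ring
      linarith
    refine (sum_le_sum h1).trans ?_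
    rw [sum_add_distrib, ← mul_sum]
    refine add_le_add ?_ ?_
    · have n3 := N3M (c := c) hM hz h hδ hκ1 hAm
      rw [e0] at n3
      exact mul_le_mul_of_nonneg_left n3 hX2
    · rw [sum_const, card_range, nsmul_eq_mul]
      have h2 := J_le h hWo
      calc (J:ℝ) * (4 * m * l1' A0 ^ 2 * W ^ 5) ≤ W * (4 * m * l1' A0 ^ 2 * W ^ 5) := by gcongr
        _ = _ := by ring
  exact add_le_add (mul_le_mul_of_nonneg_left (add_le_add hQ g2) (by positivity)) g3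

/-- off the good set the comparison polynomial is small -/
theorem off_int (hM : 1 ≤ M) (h : Sy c z y J Rs N K) (hA : Bd1 m A0)
    (hm0 : 0 ≤ m) (hδ1 : δ ≤ 1 / 16) (hκ1 : |κ - 1| ≤ M)
    (he1 : 0 < e1) (he2 : e1 ≤ 1) (h4 : 4 * Real.exp (-(2 * (Rs:ℝ))) ≤ e1 / 8)
    (hX12 : X1 ≤ X2)
    (hW : Real.exp (Real.log y * (180 * (M * ((Rs:ℝ) + 1)))) ≤ W)
    (hF : IntervalIntegrable (fun t => Fm N M κ e1 z y J Rs A0 δ t) volume X1 X2) :
    ∫ t in Set.Ioc X1 X2 \ Gh z y J Rs e1 δ, ‖es (1 / 2 + δ + t * Complex.I) (A0 * Bm M κ z y J Rs)‖ ^ 2 ≤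
      ∫ t in X1..X2, Fm N M κ e1 z y J Rs A0 δ t := by
  obtain ⟨k0, k1, _⟩ := k_absM hM hκ1
  have e0 : 1 + (κ - 1) = κ := by ring
  rw [e0] at k1
  have hWc : Continuous fun t : ℝ => ‖es (1 / 2 + δ + t * Complex.I) (A0 * Bm M κ z y J Rs)‖ ^ 2 :=
    es_cont0 δ (ABm_Bd (a := κ) h hA hm0 hW)
  have hFi : IntegrableOn (fun t => Fm N M κ e1 z y J Rs A0 δ t) (Set.Ioc X1 X2) := by
    rw [← intervalIntegrable_iff_integrableOn_Ioc_of_le hX12]; exact hF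
  have hwi : IntegrableOn (fun t : ℝ => ‖es (1 / 2 + δ + t * Complex.I) (A0 * Bm M κ z y J Rs)‖ ^ 2) (Set.Ioc X1 X2) := by
    rw [← intervalIntegrable_iff_integrableOn_Ioc_of_le hX12]; exact hWc.intervalIntegrable _ _
  have hsub : Set.Ioc X1 X2 \ Gh z y J Rs e1 δ ⊆ Set.Ioc X1 X2 := Set.sdiff_subset
  have h1 : ∫ t in Set.Ioc X1 X2 \ Gh z y J Rs e1 δ, ‖es (1 / 2 + δ + t * Complex.I) (A0 * Bm M κ z y J Rs)‖ ^ 2 ≤
      ∫ t in Set.Ioc X1 X2 \ Gh z y J Rs e1 δ, Fm N M κ e1 z y J Rs A0 δ t := by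
    refine setIntegral_mono_on (hwi.mono_set hsub) (hFi.mono_set hsub) (measurableSet_Ioc.diff (Gh_meas h hδ1)) fun t ht => ?_
    exact Fm_ge hM h.R1 k1 k0 he1 he2 h4 ht.2
  refine h1.trans ?_
  rw [intervalIntegral.integral_of_le hX12]
  exact setIntegral_mono_set hFi (ae_of_all _ fun t => Fm_nonneg he1 t) (ae_of_all _ hsub)

end

end Pool.Agent.Y755
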