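import Pool.Agent.Y755.Bin

set_option autoImplicit false

/-! The polynomial over the small primes. -/

namespace Pool.Agent.Y755

open Finset Filter MonoidAlgebra
open Pool.Agent.H306R2 (lc dv lc_zero lc_succ' lc_nonneg dv_one dv_prime_pow dA_mult dA_apply dv_nonneg)

lemma tail_close {ι E : Type*} [NormedAddCommGroup E] [CompleteSpace E] {f : ι → ℝ} {g : ι → E}
    (hf : Summable f) (hg : ∀ i, ‖g i‖ ≤ f i) {F : Finset ι} {e : ℝ} (hF : ∑' i, f i - ∑ i ∈ F, f i ≤ e) :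
    ‖∑' i, g i - ∑ i ∈ F, g i‖ ≤ e := by
  have hgs : Summable g := Summable.of_norm_bounded hf hg
  have h1 := hgs.sum_add_tsum_compl (s := F)
  have h2 := hf.sum_add_tsum_compl (s := F)
  have e1 : ∑' i, g i - ∑ i ∈ F, g i = ∑' x : ↑(↑F : Set ι)ᶜ, g x := by rw [← h1]; abel
  have e2 : ∑' i, f i - ∑ i ∈ F, f i = ∑' x : ↑(↑F : Set ι)ᶜ, f x := by rw [← h2]; ring
  rw [e1]
  rw [e2] at hF
  refine le_trans ?_ hF
  exact tsum_of_norm_bounded (hf.subtype _).hasSum fun i => hg i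

lemma ip_diag (δ : ℝ) (F : Finset ℕ) (g : ℕ → ℝ) :
    ip δ (∑ m ∈ F, single m (g m)) (∑ m ∈ F, single m (g m)) = ∑ m ∈ F, g m ^ 2 * wδ δ m := by
  rw [ip_sum_left]
  refine sum_congr rfl fun m hm => ?_
  rw [ip_sum_right]
  simp_rw [ip_single]
  rw [sum_ite_eq, if_pos hm]
  unfold wδ
  ring

lemma exists_F {ι : Type*} {f g : ι → ℝ} (hf : Summable f) (hg : Summable g) {e : ℝ} (he : 0 < e) :
    ∃ F : Finset ι, ∑' i, f i - ∑ i ∈ F, f i ≤ e ∧ ∑' i, g i - ∑ i ∈ F, g i ≤ e := by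
  have t : ∀ {h : ι → ℝ}, Summable h → ∀ᶠ F : Finset ι in atTop, ∑' i, h i - e < ∑ i ∈ F, h i := by
    intro h hh
    have h1 := hh.hasSum
    rw [HasSum, SummationFilter.unconditional_filter] at h1
    exact h1.eventually (lt_mem_nhds (sub_lt_self _ he))
  obtain ⟨F, h1, h2⟩ := ((t hf).and (t hg)).exists
  exact ⟨F, by linarith, by linarith⟩

/-- the approximation over the small primes -/
theorem small_ex {α ε : ℝ} (hα : 0 < α) (z : ℕ) (hε : 0 < ε) : ∃ (A0 : P1) (m : ℝ), Bd1 m A0 ∧ A0 ∈ SA1 (M1 (S0 z)) ∧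
    (∀ s : ℂ, 1 / 2 ≤ s.re → 1 - ε ≤ ‖es s (Pz z)‖ ^ (2 * α) * ‖es s A0‖ ^ 2 ∧
      ‖es s (Pz z)‖ ^ (2 * α) * ‖es s A0‖ ^ 2 ≤ 1 + ε) ∧
    (∀ δ : ℝ, 0 ≤ δ → (1 - ε) * ∏ p ∈ S0 z, Ed α δ p ≤ ip δ A0 A0 ∧ ip δ A0 A0 ≤ ∏ p ∈ S0 z, Ed α δ p) := by
  set LP := l1' (Pz z) with hLP
  have hPz := Pz_Bd z
  have hLP0 : 0 < LP := lt_of_lt_of_le (es_Pz_pos z (s := 1 / 2) (by norm_num))
    (es_norm_le (by norm_num) hPz)
  set h0 : ℝ := (LP ^ α)⁻¹ with hh0
  have h00 : 0 < h0 := by positivity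
  set e1 : ℝ := min (min (ε / 3) 1 * h0) ε with he1
  have he10 : 0 < e1 := lt_min (mul_pos (lt_min (by positivity) one_pos) h00) hε
  have hf := (g1_smooth α z (s := 1 / 2) (by norm_num)).1
  have hg := (g2_smooth α z (δ := 0) le_rfl).summable
  obtain ⟨F, hF1, hF2⟩ := exists_F hf hg he10
  set F' : Finset ℕ := F.map (Function.Embedding.subtype _) with hF'
  have hmem : ∀ m ∈ F', m ∈ z.smoothNumbers := by
    intro m hm
    rw [hF', Finset.mem_map] at hm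
    obtain ⟨a, _, rfl⟩ := hm
    exact a.2
  have hne : ∀ m ∈ F', m ≠ 0 := fun m hm => (Nat.mem_smoothNumbers.mp (hmem m hm)).1
  refine ⟨∑ m ∈ F', single m (dv α m), (F'.sup id : ℕ), ?_, ?_, ?_, ?_⟩
  · refine Bd1.sum fun m hm => Bd1.single ⟨hne m hm, ?_⟩ _
    exact_mod_cast Finset.le_sup (f := id) hm
  · refine Subalgebra.sum_mem _ fun m hm => single_mem_SA1 (mem_M1.mpr ⟨hne m hm, fun p hp hd => ?_⟩) _
    rw [mem_S0]
    exact ⟨Nat.mem_smoothNumbers'.mp (hmem m hm) p hp hd, hp⟩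
  · intro s hs
    have e2 : es s (∑ m ∈ F', single m (dv α m)) = ∑ m ∈ F, g1 α s m := by
      rw [map_sum, hF', sum_map]
      refine sum_congr rfl fun m _ => ?_
      rw [es_single]
      rfl
    have h1 := (g1_smooth α z hs).2
    have h2 := tail_close (g := fun m : z.smoothNumbers => g1 α s m) hf (fun m => by
      have hm0 : 0 < (m:ℕ) := Nat.pos_of_ne_zero (Nat.mem_smoothNumbers.mp m.2).1
      unfold g1
      rw [norm_mul, norm_mul, Complex.norm_natCast_cpow_of_pos hm0, Complex.norm_natCast_cpow_of_pos hm0]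
      refine mul_le_mul_of_nonneg_left ?_ (norm_nonneg _)
      refine Real.rpow_le_rpow_of_exponent_le (by exact_mod_cast hm0) ?_
      rw [Complex.neg_re, Complex.neg_re]
      have : (1 / 2 : ℂ).re = 1 / 2 := by norm_num
      rw [this]
      linarith) hF1
    rw [h1.tsum_eq, ← e2] at h2
    have hP0 := es_Pz_pos z hs
    have hPL : ‖es s (Pz z)‖ ≤ LP := es_norm_le (by linarith) hPz
    set H := ∏ p ∈ z.primesBelow, 1 / (1 - (p:ℂ) ^ (-s)) ^ (α:ℂ) with hH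
    have hHn : ‖H‖ = (‖es s (Pz z)‖ ^ α)⁻¹ := norm_prod_pow α z s
    set P := ‖es s (Pz z)‖ with hP
    have hPα : 0 < P ^ α := by positivity
    have hHh : h0 ≤ ‖H‖ := by
      rw [hHn, hh0]
      exact inv_anti₀ hPα (Real.rpow_le_rpow hP0.le hPL hα.le)
    have hPH : P ^ α * ‖H‖ = 1 := by rw [hHn]; exact mul_inv_cancel₀ hPα.ne'
    set q : ℝ := min (ε / 3) 1 with hq
    have hq0 : 0 < q := lt_min (by positivity) one_pos
    have hq1 : q ≤ 1 := min_le_right _ _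
    have hq2 : q ≤ ε / 3 := min_le_left _ _
    set A := ‖es s (∑ m ∈ F', single m (dv α m))‖ with hA
    have h3 : |‖H‖ - A| ≤ q * ‖H‖ := by
      refine (abs_norm_sub_norm_le _ _).trans (h2.trans ?_)
      exact (min_le_left _ _).trans (mul_le_mul_of_nonneg_left hHh hq0.le)
    have h4 : P ^ (2 * α) = (P ^ α) ^ 2 := by
      rw [← Real.rpow_natCast, ← Real.rpow_mul hP0.le]; congr 1; push_cast; ring
    have h5 : |1 - P ^ α * A| ≤ q := by
      have : 1 - P ^ α * A = P ^ α * (‖H‖ - A) := by rw [mul_sub, hPH]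
      rw [this, abs_mul, abs_of_pos hPα]
      calc P ^ α * |‖H‖ - A| ≤ P ^ α * (q * ‖H‖) := mul_le_mul_of_nonneg_left h3 hPα.le
        _ = q * (P ^ α * ‖H‖) := by ring
        _ = q := by rw [hPH, mul_one]
    rw [h4, ← mul_pow]
    obtain ⟨h6, h7⟩ := abs_le.mp h5
    constructor <;> nlinarith
  · intro δ hδ
    have e2 : ip δ (∑ m ∈ F', single m (dv α m)) (∑ m ∈ F', single m (dv α m)) = ∑ m ∈ F, g2 α δ m := by
      rw [ip_diag, hF', sum_map]
      rfl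
    have h1 := g2_smooth α z hδ
    have h2 := tail_close (g := fun m : z.smoothNumbers => g2 α δ m) hg (fun m => by
      rw [Real.norm_of_nonneg (g2_nonneg _ _ _)]
      unfold g2
      refine mul_le_mul_of_nonneg_left ?_ (sq_nonneg _)
      unfold wδ
      refine mul_le_mul_of_nonneg_right ?_ (by positivity)
      have hm0 : 0 < (m:ℕ) := Nat.pos_of_ne_zero (Nat.mem_smoothNumbers.mp m.2).1
      refine Real.rpow_le_rpow_of_exponent_le (by exact_mod_cast hm0) ?_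
      linarith) hF2
    rw [h1.tsum_eq, Real.norm_eq_abs] at h2
    have h3 : ∏ p ∈ z.primesBelow, Ed α δ p = ∏ p ∈ S0 z, Ed α δ p := rfl
    rw [h3] at h2 h1
    have h4 : 1 ≤ ∏ p ∈ S0 z, Ed α δ p := by
      have := prod_le_prod (s := S0 z) (f := fun _ => (1:ℝ)) (g := fun p => Ed α δ p) (fun _ _ => zero_le_one)
        (fun p hp => Ed_ge_one hδ (mem_S0.mp hp).2)
      simpa using this
    have h5 : ∑ m ∈ F, g2 α δ m ≤ ∏ p ∈ S0 z, Ed α δ p := sum_le_hasSum F (fun m _ => g2_nonneg _ _ _) h1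
    rw [e2]
    have h6 : e1 ≤ ε := min_le_right _ _
    have h7 := (abs_le.mp h2).2
    exact ⟨by nlinarith, h5⟩

end Pool.Agent.Y755
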