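import Mathlib

set_option autoImplicit false

/-! The asymptotic bounds over a window: arithmetic. -/

namespace Pool.Agent.Y755

lemma exp_two {x : ℝ} (h0 : 0 ≤ x) (h1 : x ≤ 1) : Real.exp x ≤ 1 + x + x ^ 2 := by
  have := (abs_le.mp (Real.abs_exp_sub_one_sub_id_le (x := x) (by rwa [abs_of_nonneg h0]))).2
  linarith

lemma ax9 {ε P ip : ℝ} (hε : 0 < ε) (hε1 : ε ≤ 1 / 10) (hP : 1 ≤ P) (h : (1 - ε) * P ≤ ip) : 9 / 10 ≤ ip := by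
  nlinarith

lemma exp_le_two {ε : ℝ} (h0 : 0 ≤ ε) (h1 : ε ≤ 1) : Real.exp ε ≤ 1 + 2 * ε := by
  have := exp_two h0 h1
  nlinarith

lemma low_two {ε D : ℝ} (h0 : 0 ≤ ε) (h1 : ε ≤ 1) (hD : 0 ≤ D) :
    (1 - 2 * ε) * D ≤ (1 - ε) * (Real.exp (-ε) * D) := by
  have h2 := Real.add_one_le_exp (-ε)
  have h4 : (1 - ε) * ((-ε + 1) * D) ≤ (1 - ε) * (Real.exp (-ε) * D) :=
    mul_le_mul_of_nonneg_left (mul_le_mul_of_nonneg_right h2 hD) (by linarith)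
  nlinarith [mul_nonneg (sq_nonneg ε) hD]

lemma arith_up {ε α X2 M Y I x4 A B E1 E2 Q : ℝ} (hε : 0 < ε) (hε1 : ε ≤ 1 / 10) (hα : 0 ≤ α) (hα1 : α ≤ 1)
    (hX : 0 ≤ X2) (hY : 0 ≤ Y) (hI : 0 ≤ I) (hx4 : x4 ≤ ε) (hA : A ≤ (1 + 4 * ε ^ 2) * M) (hB : B ≤ (1 + 2 * ε ^ 2) * M)
    (hM : X2 * M ≤ (1 + 2 * ε) * Y) (hE1 : E1 ≤ ε ^ 2 * Y) (hE2 : E2 ≤ ε ^ 2 * Y) (hQ : Q ≤ 2 * ε ^ 2 * Y)
    (h : (1 - ε) * (1 - x4) * I ≤ α * ((1 + ε) * (X2 * A + E1) + (1 + 1 / ε) * Q) + (1 - α) * (X2 * B + E2)) :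
    I ≤ (1 + 13 * ε) * Y := by
  have a1 : X2 * A ≤ (1 + 4 * ε ^ 2) * ((1 + 2 * ε) * Y) := by
    calc X2 * A ≤ X2 * ((1 + 4 * ε ^ 2) * M) := mul_le_mul_of_nonneg_left hA hX
      _ = (1 + 4 * ε ^ 2) * (X2 * M) := by ring
      _ ≤ _ := mul_le_mul_of_nonneg_left hM (by positivity)
  have a2 : X2 * B ≤ (1 + 2 * ε ^ 2) * ((1 + 2 * ε) * Y) := by
    calc X2 * B ≤ X2 * ((1 + 2 * ε ^ 2) * M) := mul_le_mul_of_nonneg_left hB hX
      _ = (1 + 2 * ε ^ 2) * (X2 * M) := by ring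
      _ ≤ _ := mul_le_mul_of_nonneg_left hM (by positivity)
  have a3 : (1 + 1 / ε) * Q ≤ (2 * ε ^ 2 + 2 * ε) * Y := by
    calc (1 + 1 / ε) * Q ≤ (1 + 1 / ε) * (2 * ε ^ 2 * Y) := mul_le_mul_of_nonneg_left hQ (by positivity)
      _ = _ := by field_simp
  have a4 : (1 + ε) * (X2 * A + E1) + (1 + 1 / ε) * Q ≤ (1 + 8 * ε) * Y := by
    have b1 : (1 + ε) * (X2 * A + E1) ≤ (1 + ε) * ((1 + 4 * ε ^ 2) * ((1 + 2 * ε) * Y) + ε ^ 2 * Y) :=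
      mul_le_mul_of_nonneg_left (add_le_add a1 hE1) (by positivity)
    have b2 : (1 + ε) * ((1 + 4 * ε ^ 2) * (1 + 2 * ε) + ε ^ 2) + (2 * ε ^ 2 + 2 * ε) ≤ 1 + 8 * ε := by
      have e2 : ε ^ 2 ≤ ε / 10 := by nlinarith
      have e3 : ε ^ 3 ≤ ε / 100 := by nlinarith
      have e4 : ε ^ 4 ≤ ε / 1000 := by nlinarith
      nlinarith
    have b3 := mul_le_mul_of_nonneg_right b2 hY
    linarith
  have a5 : X2 * B + E2 ≤ (1 + 8 * ε) * Y := by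
    have b2 : (1 + 2 * ε ^ 2) * (1 + 2 * ε) + ε ^ 2 ≤ 1 + 8 * ε := by
      have e2 : ε ^ 2 ≤ ε / 10 := by nlinarith
      have e3 : ε ^ 3 ≤ ε / 100 := by nlinarith
      nlinarith
    have b3 := mul_le_mul_of_nonneg_right b2 hY
    linarith
  have a6 : (1 - ε) * (1 - ε) * I ≤ (1 + 8 * ε) * Y := by
    have c1 : (1 - ε) * (1 - ε) * I ≤ (1 - ε) * (1 - x4) * I :=
      mul_le_mul_of_nonneg_right (mul_le_mul_of_nonneg_left (by linarith) (by linarith)) hI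
    have c2 := mul_le_mul_of_nonneg_left a4 hα
    have c3 := mul_le_mul_of_nonneg_left a5 (by linarith : 0 ≤ 1 - α)
    linarith
  have a7 : (1 + 8 * ε) * Y ≤ (1 - ε) * (1 - ε) * ((1 + 13 * ε) * Y) := by
    have b2 : 1 + 8 * ε ≤ (1 - ε) * (1 - ε) * (1 + 13 * ε) := by
      have e2 : ε ^ 2 ≤ ε / 10 := by nlinarith
      nlinarith [pow_pos hε 3]
    have b3 := mul_le_mul_of_nonneg_right b2 hY
    linarith
  exact le_of_mul_le_mul_left (a6.trans a7) (by nlinarith)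

lemma arith_low {ε X1 X2 M Y I x5 et A2 A3 E2 E4 E5 Q : ℝ} (hε : 0 < ε) (hε1 : ε ≤ 1 / 10)
    (hX : 0 ≤ X2) (hM0 : 0 ≤ M) (hY : 0 ≤ Y) (hI : 0 ≤ I) (hx5 : x5 ≤ 1 + ε) (hX12 : (1 - ε) * X2 ≤ X2 - X1)
    (het : et ≤ ε ^ 2) (hA2 : A2 ≤ 8 * ε ^ 2 * M) (hA3 : A3 ≤ 2 * ε ^ 2 * M)
    (hM : X2 * M ≤ (1 + 2 * ε) * Y) (hM' : (1 - 2 * ε) * Y ≤ X2 * M) (hE2 : E2 ≤ ε ^ 2 * Y) (hE4 : E4 ≤ ε ^ 2 * Y)
    (hE5 : E5 ≤ ε ^ 2 * Y) (hQ : Q ≤ 2 * ε ^ 2 * Y)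
    (h : (1 - 2 * ε) * ((X2 - X1) * ((1 - et) * M) - E2) - 4 * (1 + 1 / ε) * (Q + (X2 * A2 + E4)) - (X2 * A3 + E5) ≤
      (1 + ε) * x5 * I) : (1 - 64 * ε) * Y ≤ I := by
  have a1 : (1 - ε) * (1 - ε ^ 2) * ((1 - 2 * ε) * Y) ≤ (X2 - X1) * ((1 - et) * M) := by
    calc (1 - ε) * (1 - ε ^ 2) * ((1 - 2 * ε) * Y) ≤ (1 - ε) * (1 - ε ^ 2) * (X2 * M) :=
          mul_le_mul_of_nonneg_left hM' (mul_nonneg (by linarith) (by nlinarith))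
      _ = ((1 - ε) * X2) * ((1 - ε ^ 2) * M) := by ring
      _ ≤ (X2 - X1) * ((1 - et) * M) := by
          refine mul_le_mul hX12 (mul_le_mul_of_nonneg_right (by linarith) hM0) (mul_nonneg (by nlinarith) hM0) ?_
          exact le_trans (mul_nonneg (by linarith) hX) hX12
  have a2 : X2 * A2 ≤ 8 * ε ^ 2 * ((1 + 2 * ε) * Y) := by
    calc X2 * A2 ≤ X2 * (8 * ε ^ 2 * M) := mul_le_mul_of_nonneg_left hA2 hX
      _ = 8 * ε ^ 2 * (X2 * M) := by ring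
      _ ≤ _ := mul_le_mul_of_nonneg_left hM (by positivity)
  have a3 : X2 * A3 ≤ 2 * ε ^ 2 * ((1 + 2 * ε) * Y) := by
    calc X2 * A3 ≤ X2 * (2 * ε ^ 2 * M) := mul_le_mul_of_nonneg_left hA3 hX
      _ = 2 * ε ^ 2 * (X2 * M) := by ring
      _ ≤ _ := mul_le_mul_of_nonneg_left hM (by positivity)
  have a4 : 4 * (1 + 1 / ε) * (Q + (X2 * A2 + E4)) ≤ 4 * (ε ^ 2 + ε) * (63 / 5 * Y) := by
    have b1 : Q + (X2 * A2 + E4) ≤ ε ^ 2 * (63 / 5 * Y) := by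
      have b2 : ε ^ 2 * ((1 + 2 * ε) * Y) ≤ ε ^ 2 * ((6 / 5) * Y) :=
        mul_le_mul_of_nonneg_left (mul_le_mul_of_nonneg_right (by linarith) hY) (by positivity)
      linarith
    calc 4 * (1 + 1 / ε) * (Q + (X2 * A2 + E4)) ≤ 4 * (1 + 1 / ε) * (ε ^ 2 * (63 / 5 * Y)) :=
          mul_le_mul_of_nonneg_left b1 (by positivity)
      _ = _ := by field_simp
  have a5 : X2 * A3 + E5 ≤ ε ^ 2 * (17 / 5 * Y) := by
    have b2 : ε ^ 2 * ((1 + 2 * ε) * Y) ≤ ε ^ 2 * ((6 / 5) * Y) :=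
      mul_le_mul_of_nonneg_left (mul_le_mul_of_nonneg_right (by linarith) hY) (by positivity)
    linarith
  have a6 : (1 - 2 * ε) * ((1 - ε) * (1 - ε ^ 2) * ((1 - 2 * ε) * Y) - ε ^ 2 * Y) ≤
      (1 - 2 * ε) * ((X2 - X1) * ((1 - et) * M) - E2) :=
    mul_le_mul_of_nonneg_left (by linarith) (by linarith)
  have a7 : (1 - 61 * ε) * Y ≤ (1 - 2 * ε) * ((1 - ε) * (1 - ε ^ 2) * ((1 - 2 * ε) * Y) - ε ^ 2 * Y) -
      4 * (ε ^ 2 + ε) * (63 / 5 * Y) - ε ^ 2 * (17 / 5 * Y) := by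
    have b1 : 1 - 61 * ε ≤ (1 - 2 * ε) * ((1 - ε) * (1 - ε ^ 2) * (1 - 2 * ε) - ε ^ 2) -
        4 * (ε ^ 2 + ε) * (63 / 5) - ε ^ 2 * (17 / 5) := by
      have e2 : ε ^ 2 ≤ ε / 10 := by nlinarith
      have e3 : ε ^ 3 ≤ ε ^ 2 / 10 := by nlinarith [sq_nonneg ε]
      have e4 : 0 ≤ ε ^ 4 := by positivity
      have e5 : ε ^ 5 ≤ ε ^ 3 := by nlinarith [pow_pos hε 3, sq_nonneg ε]
      have e30 : 0 ≤ ε ^ 3 := by positivity
      have e40 : ε ^ 4 ≤ ε ^ 3 / 10 := by nlinarith [pow_pos hε 3]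
      nlinarith
    have b3 := mul_le_mul_of_nonneg_right b1 hY
    linarith
  have a8 : (1 + ε) * x5 * I ≤ (1 + ε) * (1 + ε) * I :=
    mul_le_mul_of_nonneg_right (mul_le_mul_of_nonneg_left hx5 (by linarith)) hI
  have a9 : (1 + ε) * (1 + ε) * ((1 - 64 * ε) * Y) ≤ (1 - 61 * ε) * Y := by
    have b1 : (1 + ε) * (1 + ε) * (1 - 64 * ε) ≤ 1 - 61 * ε := by nlinarith [pow_pos hε 3, sq_nonneg ε]
    have b3 := mul_le_mul_of_nonneg_right b1 hY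
    linarith
  have a10 : (1 + ε) * (1 + ε) * ((1 - 64 * ε) * Y) ≤ (1 + ε) * (1 + ε) * I := by linarith
  exact le_of_mul_le_mul_left a10 (by positivity)

/-- bounds for the coefficients -/
lemma coef {e ip sm E et v : ℝ} (he : 0 < e) (he1 : e ≤ 1 / 100) (hip : 0 ≤ ip) (hsm0 : 0 ≤ sm) (hsm : sm ≤ e * ip)
    (het0 : 0 ≤ et) (het : et ≤ e) (hv0 : 0 ≤ v) (hv : 2 * v ≤ e) :
    (ip + sm) * Real.exp (E + et) * Real.exp (2 * v) ≤ (1 + 4 * e) * (ip * Real.exp E) ∧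
    ip * Real.exp (E + et) ≤ (1 + 2 * e) * (ip * Real.exp E) ∧
    ((ip + sm) * Real.exp (et + 2 * v) - 2 * (1 - et) * ip + Real.exp et * ip) * Real.exp E ≤ 8 * e * (ip * Real.exp E) ∧
    et * Real.exp et * (ip * Real.exp E) ≤ 2 * e * (ip * Real.exp E) := by
  have h1 : Real.exp (et + 2 * v) ≤ 1 + 2 * e + 4 * e ^ 2 := by
    refine (Real.exp_le_exp.mpr (by linarith : et + 2 * v ≤ 2 * e)).trans ?_
    have := exp_two (x := 2 * e) (by positivity) (by linarith)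
    nlinarith
  have h2 : Real.exp et ≤ 1 + 2 * e := by
    have := exp_two het0 (by linarith)
    nlinarith
  have hE := Real.exp_pos E
  have hp1 := Real.exp_pos (et + 2 * v)
  have hp2 := Real.exp_pos et
  have h3 : (ip + sm) * Real.exp (et + 2 * v) ≤ (1 + 4 * e) * ip := by
    calc (ip + sm) * Real.exp (et + 2 * v) ≤ (ip + e * ip) * (1 + 2 * e + 4 * e ^ 2) := by gcongr
      _ = ((1 + e) * (1 + 2 * e + 4 * e ^ 2)) * ip := by ring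
      _ ≤ (1 + 4 * e) * ip := by
        refine mul_le_mul_of_nonneg_right ?_ hip
        nlinarith [sq_nonneg e]
  refine ⟨?_, ?_, ?_, ?_⟩
  · have e1 : (ip + sm) * Real.exp (E + et) * Real.exp (2 * v) = ((ip + sm) * Real.exp (et + 2 * v)) * Real.exp E := by
      rw [Real.exp_add, Real.exp_add]; ring
    rw [e1]
    have := mul_le_mul_of_nonneg_right h3 hE.le
    linarith
  · rw [Real.exp_add]
    have := mul_le_mul_of_nonneg_right h2 (mul_nonneg hip hE.le)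
    linarith
  · have h4 : (ip + sm) * Real.exp (et + 2 * v) - 2 * (1 - et) * ip + Real.exp et * ip ≤ 8 * e * ip := by
      have h5 := mul_le_mul_of_nonneg_right h2 hip
      have h6 := mul_le_mul_of_nonneg_right het hip
      linarith
    have := mul_le_mul_of_nonneg_right h4 hE.le
    linarith
  · have h5 : et * Real.exp et ≤ 2 * e := by
      calc et * Real.exp et ≤ e * (1 + 2 * e) := mul_le_mul het h2 hp2.le he.le
        _ ≤ 2 * e := by nlinarith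
    exact mul_le_mul_of_nonneg_right h5 (mul_nonneg hip hE.le)

end Pool.Agent.Y755
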