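import Pool.Agent.Y755.Wi3
import Pool.Agent.Y755.Hpc
import Pool.Agent.Y755.Sml
import Pool.Agent.Y755.Cmp
import Pool.Agent.Y755.Wi4

set_option autoImplicit false

/-! The asymptotics over a window. -/

namespace Pool.Agent.Y755

open Finset Filter MeasureTheory
open Pool.Agent.W184.NZ
open Pool.Agent.W184 (zn zn_nonneg zn_cont zn_le')

lemma vd_rst {δ y : ℝ} (hδ : 0 ≤ δ) (hy : 1 ≤ y) {P : Finset ℕ} (hP : ∀ p ∈ P, p.Prime ∧ y < p) :
    vd δ P ≤ Real.exp (-(2 * (δ * Real.log y))) * vd 0 P := by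
  rw [vd_zero fun p hp => (hP p hp).1]
  unfold vd
  rw [mul_sum]
  refine sum_le_sum fun p hp => ?_
  have hp' := hP p hp
  have hp0 : (0:ℝ) < p := by exact_mod_cast hp'.1.pos
  rw [rp_sq_eq δ hp'.1, div_eq_mul_one_div]
  refine mul_le_mul_of_nonneg_right ?_ (by positivity)
  rw [Real.rpow_def_of_pos hp0]
  refine Real.exp_le_exp.mpr ?_
  have h2 : Real.log y ≤ Real.log p := Real.log_le_log (by linarith) hp'.2.le
  nlinarith

lemma Rs_exists {c ε : ℝ} (hε : 0 < ε) (R1 : ℕ) : ∃ Rs : ℕ, Rok c Rs ∧ R1 ≤ Rs ∧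
    4 * Real.exp (-(2 * (Rs:ℝ))) ≤ ε ∧ Real.exp (14 * Real.exp (-(2 * (Rs:ℝ)))) ≤ 1 + ε := by
  obtain ⟨R0, hR0⟩ := Rok_ex c
  have h0 : Tendsto (fun n : ℕ => Real.exp (-(2 * (n:ℝ)))) atTop (nhds 0) :=
    Real.tendsto_exp_neg_atTop_nhds_zero.comp (tendsto_natCast_atTop_atTop.const_mul_atTop (by norm_num : (0:ℝ) < 2))
  have h1 := h0.const_mul 4
  have h2 := (Real.continuous_exp.tendsto _).comp (h0.const_mul 14)
  rw [mul_zero] at h1 h2
  rw [Real.exp_zero] at h2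
  obtain ⟨n, hn⟩ := ((h1.eventually (gt_mem_nhds hε)).and ((h2.eventually (gt_mem_nhds (show (1:ℝ) < 1 + ε by linarith))).and
    ((eventually_ge_atTop R0).and (eventually_ge_atTop R1)))).exists
  exact ⟨n, Rok_mono hR0 hn.2.2.1, hn.2.2.2, hn.1.le, hn.2.1.le⟩

lemma lam_ex {s b C e : ℝ} (hb : 0 < b) (he : 0 < e) : ∃ l : ℝ, ∀ x, l ≤ x → C * (x ^ s * Real.exp (-b * x)) ≤ e := by
  have h := (tendsto_rpow_mul_exp_neg_mul_atTop_nhds_zero s b hb).const_mul C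
  rw [mul_zero] at h
  have h2 := h.eventually (gt_mem_nhds he)
  rw [eventually_atTop] at h2
  obtain ⟨l, hl⟩ := h2
  exact ⟨l, fun x hx => (hl x hx).le⟩

lemma exp_ex {C η e : ℝ} (hη : 0 < η) (he : 0 < e) : ∃ l : ℝ, ∀ x, l ≤ x → C * Real.exp (-(2 * (x * η))) ≤ e := by
  have h0 : Tendsto (fun x : ℝ => Real.exp (-(2 * (x * η)))) atTop (nhds 0) :=
    Real.tendsto_exp_neg_atTop_nhds_zero.comp ((tendsto_id.atTop_mul_const hη).const_mul_atTop (by norm_num : (0:ℝ) < 2))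
  have h := h0.const_mul C
  rw [mul_zero] at h
  have h2 := h.eventually (gt_mem_nhds he)
  rw [eventually_atTop] at h2
  obtain ⟨l, hl⟩ := h2
  exact ⟨l, fun x hx => (hl x hx).le⟩

lemma NT_ev (C : ℝ) : ∀ᶠ T : ℝ in atTop, C ≤ NT T ∧ T ^ ((1:ℝ) / 9) ≤ NT T := by
  filter_upwards [NT_tendsto.eventually_ge_atTop C, rpow_ev (p := 1 / 9) (q := 1 / 8) (by norm_num) 2,
    eventually_ge_atTop 1] with T h1 h2 h3
  refine ⟨h1, ?_⟩
  have h4 : T ^ ((1:ℝ) / 8) < (NT T : ℝ) + 1 := Nat.lt_floor_add_one _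
  have h5 : 1 ≤ T ^ ((1:ℝ) / 9) := Real.one_le_rpow h3 (by norm_num)
  linarith

lemma errs {T m l LP B : ℝ} (hT1 : 1 ≤ T) (hm : 0 ≤ m)
    (hK : (8 * (LP ^ 2 + l ^ 2) + 4 * m * l ^ 2) * T ^ ((1:ℝ) / 2) ≤ B) :
    4 * (NT T : ℝ) ^ 3 * (LP ^ 2 * T ^ ((1:ℝ) / 50)) ≤ B ∧
    4 * (m * T ^ ((1:ℝ) / 50)) * (l ^ 2 * T ^ ((1:ℝ) / 50)) ≤ B ∧
    8 * (NT T : ℝ) * ((NT T : ℝ) ^ 2 * (LP ^ 2 * T ^ ((1:ℝ) / 50)) + l ^ 2 * T ^ ((1:ℝ) / 50)) ≤ B ∧
    4 * m * l ^ 2 * (T ^ ((1:ℝ) / 50)) ^ 6 ≤ B := by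
  have hT0 : 0 < T := by linarith
  set W := T ^ ((1:ℝ) / 50) with hWdef
  set N := NT T with hN
  have hW0 : 0 < W := by positivity
  have hpw : ∀ q : ℝ, q ≤ 1 / 2 → T ^ q ≤ T ^ ((1:ℝ) / 2) := fun q hq => Real.rpow_le_rpow_of_exponent_le hT1 hq
  have hN3 := NT_pow hT1 3
  have hN1 := NT_pow hT1 1
  rw [pow_one] at hN1
  rw [← hN] at hN3 hN1
  have w1 : (N:ℝ) ^ 3 * W ≤ T ^ ((1:ℝ) / 2) := by
    calc (N:ℝ) ^ 3 * W ≤ T ^ (((3:ℕ):ℝ) / 8) * W := mul_le_mul_of_nonneg_right hN3 hW0.le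
      _ = T ^ (((3:ℕ):ℝ) / 8 + 1 / 50) := by rw [hWdef, ← Real.rpow_add hT0]
      _ ≤ _ := hpw _ (by norm_num)
  have w2 : W * W ≤ T ^ ((1:ℝ) / 2) := by
    rw [hWdef, ← Real.rpow_add hT0]; exact hpw _ (by norm_num)
  have w3 : (N:ℝ) * W ≤ T ^ ((1:ℝ) / 2) := by
    calc (N:ℝ) * W ≤ T ^ (((1:ℕ):ℝ) / 8) * W := mul_le_mul_of_nonneg_right hN1 hW0.le
      _ = T ^ (((1:ℕ):ℝ) / 8 + 1 / 50) := by rw [hWdef, ← Real.rpow_add hT0]
      _ ≤ _ := hpw _ (by norm_num)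
  have w4 : W ^ 6 ≤ T ^ ((1:ℝ) / 2) := by
    rw [hWdef, ← Real.rpow_natCast, ← Real.rpow_mul hT0.le]; exact hpw _ (by norm_num)
  have hTh : 0 ≤ T ^ ((1:ℝ) / 2) := by positivity
  set X := T ^ ((1:ℝ) / 2)
  have hml : 0 ≤ m * l ^ 2 * X := by positivity
  have hLX : 0 ≤ LP ^ 2 * X := by positivity
  have hlX : 0 ≤ l ^ 2 * X := by positivity
  have v1 := mul_le_mul_of_nonneg_left w1 (sq_nonneg LP)
  have v2 := mul_le_mul_of_nonneg_left w2 (by positivity : 0 ≤ m * l ^ 2)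
  have v3 := mul_le_mul_of_nonneg_left w3 (sq_nonneg l)
  have v4 := mul_le_mul_of_nonneg_left w4 (by positivity : 0 ≤ m * l ^ 2)
  refine ⟨?_, ?_, ?_, ?_⟩ <;> linarith

/-- the asymptotics over a window -/
theorem win_main {α : ℝ} (hα : 0 < α) (hα2 : α ≤ 2) {ε : ℝ} (hε : 0 < ε) (hε1 : ε ≤ 1 / 10) :
    ∃ lam : ℝ, 1 ≤ lam ∧ ∀ᶠ T : ℝ in atTop, ∀ δ : ℝ, lam / Real.log T ≤ δ → δ ≤ 1 / 16 →
      (1 - 64 * ε) * (T / 2 * DD α δ) ≤ ∫ t in (T ^ ((4:ℝ)/5))..(T / 2), zn (1 / 2 + δ) t ^ (2 * α) ∧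
      (α ≤ 1 → ∫ t in (T ^ ((4:ℝ)/5))..(T / 2), zn (1 / 2 + δ) t ^ (2 * α) ≤ (1 + 13 * ε) * (T / 2 * DD α δ)) := by
  set e := ε ^ 2 with he
  have he0 : 0 < e := by positivity
  have he1 : e ≤ 1 / 100 := by rw [he]; nlinarith
  obtain ⟨c, hc, hpar⟩ := par_ex
  obtain ⟨z1, R1, hET⟩ := ET_small hc he0
  obtain ⟨z2, x0, hx0, hcmp⟩ := cmp hα hε
  set z : ℕ := max (max z1 z2) 1000 with hz
  have hz1000 : 1000 ≤ z := le_max_right _ _
  have hzz1 : z1 ≤ z := (le_max_left _ _).trans (le_max_left _ _)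
  have hzz2 : z2 ≤ z := (le_max_right _ _).trans (le_max_left _ _)
  obtain ⟨Rs, hRok, hR1, h4, h14⟩ := Rs_exists (c := c) hε R1
  have hRs1 : 1 ≤ Rs := hRok.1
  obtain ⟨A0, m0, hA', hAm, hPA, hip⟩ := small_ex hα z hε
  set m : ℝ := max m0 1 with hm
  have hA : Bd1 m A0 := hA'.mono (le_max_left _ _)
  have hm0 : 0 ≤ m := le_trans zero_le_one (le_max_right _ _)
  obtain ⟨ηm, hηm, hmono⟩ := mono_moment
  have hq0 : 0 < min ηm (1 / 4) := lt_min hηm (by norm_num)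
  have hq1 : min ηm (1 / 4) ≤ 1 / 4 := min_le_right _ _
  have hRp : (0:ℝ) < (Rs:ℝ) + 1 := by positivity
  set η : ℝ := min ηm (1 / 4) / 4000 / ((Rs:ℝ) + 1) with hηd
  have hη : 0 < η := by positivity
  have hη1 : η * ((Rs:ℝ) + 1) = min ηm (1 / 4) / 4000 := by rw [hηd]; field_simp
  have hη2 : η * ((Rs:ℝ) + 1) ≤ 1 / 16000 := by rw [hη1]; linarith
  have hη16 : η ≤ 1 / 16 := by
    have : η * 1 ≤ η * ((Rs:ℝ) + 1) := mul_le_mul_of_nonneg_left (by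
      have : (0:ℝ) ≤ Rs := Nat.cast_nonneg _
      linarith) hη.le
    linarith
  obtain ⟨d, hd, hpar2⟩ := hpar z Rs hz1000 hRs1 η hη hη16
  obtain ⟨C, hC, hQ⟩ := hpa (z := z) hc hηm hmono hη hη1.le hRok hd hA hAm
  obtain ⟨c2, hc2, hDD⟩ := DD_low hα
  obtain ⟨l1, hl1⟩ := lam_ex (s := α ^ 2) (b := 2 / 9) (C := C / c2) (e := e) (by norm_num) he0
  obtain ⟨l2, hl2⟩ := exp_ex (C := 2 * d) hη he0
  set lam : ℝ := max 1 (max l1 (max l2 (x0 / η))) with hlam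
  have hlam1 : 1 ≤ lam := le_max_left _ _
  have hlaml1 : l1 ≤ lam := (le_max_left _ _).trans (le_max_right _ _)
  have hlaml2 : l2 ≤ lam := (le_max_left _ _).trans ((le_max_right _ _).trans (le_max_right _ _))
  have hlamx : x0 / η ≤ lam := (le_max_right _ _).trans ((le_max_right _ _).trans (le_max_right _ _))
  refine ⟨lam, hlam1, ?_⟩
  set LP := l1' (Pz z * A0) with hLP
  set l := l1' A0 with hl
  set K0 : ℝ := 8 * (LP ^ 2 + l ^ 2) + 4 * m * l ^ 2 with hK0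
  set sz : ℝ := (2 ^ (S0 z).card * l) ^ 2 with hsz
  have hsz0 : 0 ≤ sz := sq_nonneg _
  filter_upwards [hpar2, hQ, windows_ev, eventually_ge_atTop (10 ^ 10), NT_ev (max 1 (max m (sz / (e * (9 / 10))))),
    rpow_ev (p := 1 / 50) (q := 1 / 9) (by norm_num) m,
    rpow_ev (p := 1 / 2) (q := 1) (by norm_num) (2 * K0 / e),
    rpow_ev (p := 4 / 5) (q := 1) (by norm_num) (2 / ε),
    Real.tendsto_log_atTop.eventually_ge_atTop 1] with T t1 t2 t3 t4 t5 t6 t7 t8 t9 δ hδ1 hδ2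
  obtain ⟨J, hS, hV, hWd⟩ := t1
  have hT0 : 0 < T := by linarith
  have hT1 : 1 ≤ T := by linarith
  have hL0 : 0 < Real.log T := by linarith
  have hx : lam ≤ δ * Real.log T := by rwa [div_le_iff₀ hL0] at hδ1
  have hδ0 : 0 < δ := by
    by_contra hcon
    have := mul_nonpos_of_nonpos_of_nonneg (not_lt.mp hcon) hL0.le
    linarith
  set y := yT η T with hy
  set N := NT T with hN
  set K := KT T with hK
  have hly : Real.log y = η * Real.log T := Real.log_exp _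
  have hE := hET z hzz1 Rs hR1 y J hS.rg
  have hE0 := ET_nonneg c z y J Rs
  have hcm := hcmp z hzz2 hz1000 y δ hS.zy hδ0 (by
    rw [hly]
    have h1 : x0 ≤ lam * η := by rwa [div_le_iff₀ hη] at hlamx
    calc x0 ≤ lam * η := h1
      _ ≤ (δ * Real.log T) * η := mul_le_mul_of_nonneg_right hx hη.le
      _ = _ := by ring) J hS.J1
  have hNr : (1:ℝ) ≤ N := (le_max_left _ _).trans t5.1
  have hmN : m ≤ N := ((le_max_left _ _).trans (le_max_right _ _)).trans t5.1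
  have hszN : sz / (e * (9 / 10)) ≤ N := ((le_max_right _ _).trans (le_max_right _ _)).trans t5.1
  have hNK : (N:ℝ) < 2 ^ (K + 1) := by
    have : ((N : ℕ) : ℝ) < ((2 ^ (K + 1) : ℕ) : ℝ) := by exact_mod_cast hS.NK
    push_cast at this
    exact this
  have hmK : m < 2 ^ (K + 1) := by linarith
  -- sizes
  set ip0 := ip δ A0 A0 with hip0
  set P0 := ∏ p ∈ S0 z, Ed α δ p with hP0
  obtain ⟨hi1, hi2⟩ := hip δ hδ0.le
  have hP01 : 1 ≤ P0 := by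
    have := prod_le_prod (s := S0 z) (f := fun _ => (1:ℝ)) (g := fun p => Ed α δ p) (fun _ _ => zero_le_one)
      (fun p hp => Ed_ge_one hδ0.le (mem_S0.mp hp).2)
    simpa using this
  have hip9 : 9 / 10 ≤ ip0 := ax9 hε hε1 hP01 hi1
  set EV := Real.exp (α ^ 2 * Vd δ z y J) with hEV
  have hEV0 : 0 < EV := Real.exp_pos _
  have hDD1 : 1 ≤ DD α δ := DD_ge_one hα hδ0
  set D := DD α δ with hD
  have hMup : ip0 * EV ≤ (1 + 2 * ε) * D := by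
    calc ip0 * EV ≤ P0 * EV := mul_le_mul_of_nonneg_right hi2 hEV0.le
      _ ≤ Real.exp ε * D := hcm.2
      _ ≤ (1 + 2 * ε) * D := mul_le_mul_of_nonneg_right (exp_le_two hε.le (hε1.trans (by norm_num)))
          (zero_le_one.trans hDD1)
  have hMlo : (1 - 2 * ε) * D ≤ ip0 * EV := by
    have h1 : (1 - ε) * (Real.exp (-ε) * D) ≤ ip0 * EV := by
      calc (1 - ε) * (Real.exp (-ε) * D) ≤ (1 - ε) * (P0 * EV) := mul_le_mul_of_nonneg_left hcm.1 (by linarith)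
        _ = ((1 - ε) * P0) * EV := by ring
        _ ≤ ip0 * EV := mul_le_mul_of_nonneg_right hi1 hEV0.le
    exact (low_two hε.le (hε1.trans (by norm_num)) (zero_le_one.trans hDD1)).trans h1
  -- the tail
  have hv : 2 * vd δ (Rst N y) ≤ e := by
    have h1 := vd_rst hδ0.le hS.y1 (P := Rst N y) fun p hp => ⟨Rst_prime p hp, (mem_Rst.mp hp).2⟩
    rw [hly] at h1
    have h2 := hl2 (δ * Real.log T) (hlaml2.trans hx)
    have h3 : Real.exp (-(2 * (δ * (η * Real.log T)))) * vd 0 (Rst N y) ≤ Real.exp (-(2 * (δ * (η * Real.log T)))) * d :=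
      mul_le_mul_of_nonneg_left hWd (Real.exp_pos _).le
    have e1 : δ * (η * Real.log T) = δ * Real.log T * η := by ring
    rw [e1] at h1 h3
    linarith
  have hv0 := vd_nonneg δ (Rst N y)
  -- small primes
  have hsm : sz / 2 ^ (K + 1) ≤ e * ip0 := by
    have hN0 : (0:ℝ) < N := lt_of_lt_of_le one_pos hNr
    have h1 : sz / 2 ^ (K + 1) ≤ sz / N := div_le_div_of_nonneg_left hsz0 hN0 hNK.le
    have h2 : sz / N ≤ e * (9 / 10) := by
      rw [div_le_iff₀ hN0]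
      rw [div_le_iff₀ (mul_pos he0 (by norm_num))] at hszN
      rwa [mul_comm]
    have h3 : e * (9 / 10) ≤ e * ip0 := mul_le_mul_of_nonneg_left hip9 he0.le
    exact h1.trans (h2.trans h3)
  obtain ⟨k1, k2, k3, k4⟩ := coef (E := α ^ 2 * Vd δ z y J) he0 he1 ((by norm_num : (0:ℝ) ≤ 9 / 10).trans hip9)
    (div_nonneg hsz0 (pow_nonneg (by norm_num) _)) hsm hE0 hE hv0 hv
  -- the difference
  have hQ1 := t2 J hS hV hWd (hE.trans (by linarith)) (α - 1) (by rw [abs_le]; constructor <;> linarith) δ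
    (le_trans (div_le_div_of_nonneg_right hlam1 hL0.le) hδ1) hδ2
  have e0 : 1 + (α - 1) = α := by ring
  rw [e0] at hQ1
  have hX2 : (0:ℝ) ≤ T / 2 := by linarith
  set Y := T / 2 * D with hYd
  have hY0 : 0 ≤ Y := mul_nonneg hX2 (zero_le_one.trans hDD1)
  have hQ2 : C * (T * Real.log T ^ (α ^ 2)) * (N : ℝ) ^ (-(2 * δ)) ≤ 2 * ε ^ 2 * Y := by
    have h1 : (N:ℝ) ^ (-(2 * δ)) ≤ Real.exp (-(2 / 9) * (δ * Real.log T)) := by
      calc (N:ℝ) ^ (-(2 * δ)) ≤ (T ^ ((1:ℝ) / 9)) ^ (-(2 * δ)) :=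
            Real.rpow_le_rpow_of_nonpos (Real.rpow_pos_of_pos hT0 _) t5.2 (by linarith only [hδ0])
        _ = Real.exp (-(2 / 9) * (δ * Real.log T)) := by
            rw [← Real.rpow_mul hT0.le, Real.rpow_def_of_pos hT0]
            congr 1; ring
    have h2 := hl1 (δ * Real.log T) (hlaml1.trans hx)
    have h3 := hDD δ hδ0 (hδ2.trans (by norm_num))
    rw [← hD] at h3
    have h4 : Real.log T ^ (α ^ 2) = (δ * Real.log T) ^ (α ^ 2) * δ ^ (-(α ^ 2)) := by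
      rw [Real.mul_rpow hδ0.le hL0.le, mul_right_comm, ← Real.rpow_add hδ0]
      simp
    have h5 : 0 ≤ (δ * Real.log T) ^ (α ^ 2) := Real.rpow_nonneg (mul_nonneg hδ0.le hL0.le) _
    have h6 : 0 ≤ δ ^ (-(α ^ 2)) := Real.rpow_nonneg hδ0.le _
    have h7 : 0 ≤ C * (T * Real.log T ^ (α ^ 2)) :=
      mul_nonneg hC.le (mul_nonneg hT0.le (Real.rpow_nonneg hL0.le _))
    calc C * (T * Real.log T ^ (α ^ 2)) * (N : ℝ) ^ (-(2 * δ)) ≤
          C * (T * Real.log T ^ (α ^ 2)) * Real.exp (-(2 / 9) * (δ * Real.log T)) :=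
          mul_le_mul_of_nonneg_left h1 h7
      _ = T * (C / c2 * ((δ * Real.log T) ^ (α ^ 2) * Real.exp (-(2 / 9) * (δ * Real.log T)))) * (c2 * δ ^ (-(α ^ 2))) := by
          rw [h4]; field_simp
      _ ≤ T * e * D := by
          refine mul_le_mul (mul_le_mul_of_nonneg_left h2 hT0.le) h3 (mul_nonneg hc2.le h6) (mul_nonneg hT0.le he0.le)
      _ = 2 * ε ^ 2 * Y := by rw [hYd, he]; ring
  -- errors
  set W := T ^ ((1:ℝ) / 50) with hWdef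
  have hW : Real.exp (Real.log y * (180 * ((Rs:ℝ) + 1))) ≤ W := ly_exp hT1 hη2
  have hW0 : 0 < W := Real.rpow_pos_of_pos hT0 _
  have hK0T : K0 * T ^ ((1:ℝ) / 2) ≤ ε ^ 2 * Y := by
    rw [Real.rpow_one] at t7
    have h1 : K0 * T ^ ((1:ℝ) / 2) ≤ e * (T / 2) := by
      have h2 := mul_le_mul_of_nonneg_left t7 (half_pos he0).le
      calc K0 * T ^ ((1:ℝ) / 2) = e / 2 * (2 * K0 / e * T ^ ((1:ℝ) / 2)) := by field_simp
        _ ≤ e / 2 * T := h2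
        _ = e * (T / 2) := by ring
    have h3 : e * (T / 2) ≤ e * (T / 2) * D := le_mul_of_one_le_right (mul_nonneg he0.le hX2) hDD1
    calc K0 * T ^ ((1:ℝ) / 2) ≤ e * (T / 2) * D := h1.trans h3
      _ = ε ^ 2 * Y := by rw [hYd, he]; ring
  obtain ⟨f1, f2, f4, f5⟩ := errs (LP := LP) (l := l) hT1 hm0 hK0T
  have hMX : T / 2 * (ip0 * EV) ≤ (1 + 2 * ε) * Y := by
    calc _ ≤ T / 2 * ((1 + 2 * ε) * D) := mul_le_mul_of_nonneg_left hMup hX2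
      _ = _ := by rw [hYd]; ring
  have hMX' : (1 - 2 * ε) * Y ≤ T / 2 * (ip0 * EV) := by
    calc (1 - 2 * ε) * Y = T / 2 * ((1 - 2 * ε) * D) := by rw [hYd]; ring
      _ ≤ _ := mul_le_mul_of_nonneg_left hMlo hX2
  have hX1 : 0 ≤ T ^ ((4:ℝ)/5) := by positivity
  have hI0 : 0 ≤ ∫ t in (T ^ ((4:ℝ)/5))..(T / 2), zn (1 / 2 + δ) t ^ (2 * α) :=
    intervalIntegral.integral_nonneg t3.1 fun t _ => Real.rpow_nonneg (zn_nonneg _ _) _
  have hre : ∀ t : ℝ, (1:ℝ) / 2 ≤ (1 / 2 + (δ:ℂ) + t * Complex.I).re := fun t => by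
    rw [half_re]; linarith only [hδ0]
  constructor
  · have hmW : m * W ≤ N := t6.trans t5.2
    have hw := win_low (Q := C * (T * Real.log T ^ (α ^ 2)) * (N : ℝ) ^ (-(2 * δ))) (ε := ε) (τ := ε) hS hA hAm hm0 hmK hmW
      hδ0.le hδ2 hα hα2 hε (hε1.trans (by norm_num)) (fun t => by
        have h1 := (hPA _ (hre t)).1
        by_contra hcon
        have h2 : ‖es (1 / 2 + δ + t * Complex.I) A0‖ = 0 := le_antisymm (not_lt.mp hcon) (norm_nonneg _)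
        rw [h2] at h1
        norm_num at h1
        linarith only [h1, hε1]) (fun t => (hPA _ (hre t)).2) (hE.trans (he1.trans (by norm_num))) hX1 t3.1 hW hQ1
    refine arith_low hε hε1 hX2 (mul_nonneg ((by norm_num : (0:ℝ) ≤ 9 / 10).trans hip9) hEV0.le) hY0 hI0 h14 ?_ hE
      k3 k4 hMX hMX' f2 f4 f5 hQ2 hw
    rw [Real.rpow_one] at t8
    have h8 := mul_le_mul_of_nonneg_left t8 (half_pos hε).le
    have e8 : ε / 2 * (2 / ε * T ^ ((4:ℝ) / 5)) = T ^ ((4:ℝ) / 5) := by field_simp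
    rw [e8] at h8
    linarith only [h8]
  · intro hα1
    have hw := win_up (Q := C * (T * Real.log T ^ (α ^ 2)) * (N : ℝ) ^ (-(2 * δ))) (ε := ε) (τ := ε) hS hA hAm hm0 hmK
      hδ0.le hδ2 hα hα1 hε (fun t => (hPA _ (hre t)).1) (hε1.trans (by norm_num))
      (h4.trans (hε1.trans (by norm_num))) (hE.trans (he1.trans (by norm_num))) hX1 t3.1 hW hQ1
    exact arith_up hε hε1 hα.le hα1 hX2 hY0 hI0 h4 k1 k2 hMX f1 f2 hQ2 hw

end Pool.Agent.Y755
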