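import Pool.Agent.Y755.Gm8
import Pool.Agent.Y755.Gm6
import Pool.Agent.Y755.Wi5

set_option autoImplicit false

/-! The good set: preparation of the parameters. -/

namespace Pool.Agent.Y755

open Finset Filter MeasureTheory
open Pool.Agent.W184.NZ
open Pool.Agent.W184 (zn zn_nonneg zn_cont zn_le')
open Pool.Agent.H306R2.SM (om cl Yf)
open Pool.Agent.H262R4.TM (Rng Ck)

lemma ip_le_l1 {δ m : ℝ} (hδ : 0 ≤ δ) {f : P1} (hf : Bd1 m f) : ip δ f f ≤ l1' f ^ 2 := by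
  have h := Hi_ip (M := 1) hδ le_rfl (f := f) fun n hn => ⟨(hf n hn).1, Nat.one_le_iff_ne_zero.mpr (hf n hn).1⟩
  simpa using h

lemma e1_ex {M : ℕ} (hM : 1 ≤ M) {ε : ℝ} (hε : 0 < ε) (hε1 : ε ≤ 1 / 10) : ∃ e1 : ℝ, 0 < e1 ∧ e1 < 1 ∧
    (1 + e1) ^ (2 * (M:ℝ)) ≤ 1 + ε ∧ 1 - ε ≤ (1 - e1) ^ (2 * (M:ℝ)) := by
  have hM1 : (1:ℝ) ≤ M := by exact_mod_cast hM
  have hM0 : (0:ℝ) < M := by linarith
  have h1 : ε / (4 * M) ≤ ε := div_le_self hε.le (by linarith)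
  have e : 2 * (M:ℝ) * (ε / (4 * M)) = ε / 2 := by field_simp; ring
  refine ⟨ε / (4 * M), by positivity, by linarith, ?_, ?_⟩
  · have h2 := Real.add_one_le_exp (ε / (4 * M))
    calc (1 + ε / (4 * M)) ^ (2 * (M:ℝ)) ≤ (Real.exp (ε / (4 * M))) ^ (2 * (M:ℝ)) :=
          Real.rpow_le_rpow (by positivity) (by linarith) (by positivity)
      _ = Real.exp (ε / 2) := by rw [← Real.exp_mul, mul_comm, e]
      _ ≤ 1 + ε := by have := exp_le_two (ε := ε / 2) (by positivity) (by linarith); linarith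
  · have h2 := one_add_mul_self_le_rpow_one_add (s := -(ε / (4 * M))) (by linarith) (p := 2 * (M:ℝ)) (by linarith)
    rw [← sub_eq_add_neg] at h2
    refine le_trans ?_ h2
    have : 2 * (M:ℝ) * -(ε / (4 * M)) = -(ε / 2) := by rw [mul_neg, e]
    linarith

lemma gM_le_gp (J : ℕ) (a : ℝ) (Rs : ℕ) (I : ℕ → Finset ℕ) (t : ℝ) : gM J 1 a Rs I t ≤ gp J a (RR Rs) I t := by
  unfold gM gp
  refine prod_le_prod (fun _ _ => sq_nonneg _) fun i _ => ?_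
  rw [one_mul]
  unfold gf
  have : 0 ≤ (‖PI (I i) (1 / 2 + t * Complex.I)‖ / (RR Rs i : ℝ)) ^ (2 * RR Rs i) := by positivity
  linarith

lemma gM_cont {c y : ℝ} {J Rs : ℕ} {I : ℕ → Finset ℕ} (hy : 1 ≤ y) (h : Rg c J I (bb y)) (M : ℕ) (a : ℝ) :
    Continuous fun t => gM J M a Rs I t := by
  have hP : ∀ i, ∀ p ∈ I i, p.Prime := fun i p hp => (h.pr i p hp).1
  have := ev_re_cont (GM_Bd (M := M) (Rs := Rs) (a := a) hy h)
  refine this.congr fun t => ?_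
  rw [ev_GM t J M _ _ hP, Complex.ofReal_re]

lemma gp_contI {c y : ℝ} {J Rs : ℕ} {I : ℕ → Finset ℕ} (hy : 1 ≤ y) (h : Rg c J I (bb y)) (a : ℝ) :
    Continuous fun t => gp J a (RR Rs) I t := by
  have hP : ∀ i, ∀ p ∈ I i, p.Prime := fun i p hp => (h.pr i p hp).1
  have := ev_re_cont (GP_Bdz (Rs := Rs) hy h a)
  refine this.congr fun t => ?_
  rw [ev_GP t J _ _ hP, Complex.ofReal_re]

/-- the line, all cases -/
theorem onl_all {c ηm η d : ℝ} {M Rs : ℕ} (hM : 1 ≤ M) (hc : 0 ≤ c) (hηm : 0 < ηm)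
    (hmono : ∀ᶠ Y : ℝ in atTop, ∀ k : ℕ, Rng Y k → ∀ x : ℕ × ℕ,
      x.1 ≠ 0 → x.2 ≠ 0 → (x.1 : ℝ) ≤ Y ^ ((1:ℝ) / 4) → (x.2 : ℝ) ≤ Y ^ ((1:ℝ) / 4) →
      |Zm k Y x - Mn k Y x| ≤ 2 * Y ^ (-ηm)) (hη : 0 < η)
    (hη1 : η * (M * ((Rs:ℝ) + 1)) ≤ min ηm (1 / 4) / 4000)
    (hRs : Rok c Rs) (hd : 0 ≤ d) :
    ∃ C : ℝ, 0 < C ∧ ∀ᶠ T : ℝ in atTop, ∀ (J : ℕ) (I : ℕ → Finset ℕ),
      Rg c J I (bb (yT η T)) → |∑ i ∈ range J, vI (I i) - Real.log (Real.log T)| ≤ d →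
      ∀ (M' : ℕ) (a : ℝ), (M' = 1 ∧ |a| ≤ 1) ∨ (M' = M ∧ 0 ≤ a ∧ a ≤ M) →
      ∫ t in (T ^ ((3:ℝ)/4))..T, ‖riemannZeta (cl t)‖ ^ 2 * gM J M' a Rs I t ≤
        C * (T * Real.log T ^ ((1 + a) ^ 2)) := by
  have hM1 : (1:ℝ) ≤ M := by exact_mod_cast hM
  have hη2 : η * ((Rs:ℝ) + 1) ≤ min ηm (1 / 4) / 4000 := by
    refine le_trans ?_ hη1
    have : ((Rs:ℝ) + 1) ≤ M * ((Rs:ℝ) + 1) := le_mul_of_one_le_left (by positivity) hM1
    exact mul_le_mul_of_nonneg_left this hη.le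
  obtain ⟨C1, hC1, h1⟩ := onl hc hηm hmono hη hη2 hRs hd
  obtain ⟨C2, hC2, h2⟩ := onlM hM hc hηm hmono hη hη1 hRs.1 hd
  refine ⟨max C1 C2, lt_max_of_lt_left hC1, ?_⟩
  filter_upwards [h1, h2, windows_ev, eventually_ge_atTop 1, Real.tendsto_log_atTop.eventually_ge_atTop 1]
    with T t1 t2 t3 t4 t5 J I hJ hV M' a hcase
  have hT0 : 0 < T := by linarith
  have hy1 : 1 ≤ yT η T := by unfold yT; exact Real.one_le_exp (by positivity)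
  have hAT : T ^ ((3:ℝ)/4) ≤ T := by linarith [Real.rpow_nonneg hT0.le (1/4), t3.2.1, t3.1, t3.2.2]
  have hP0 : 0 ≤ T * Real.log T ^ ((1 + a) ^ 2) := mul_nonneg hT0.le (Real.rpow_nonneg (by linarith) _)
  rcases hcase with ⟨hM', ha⟩ | ⟨hM', ha, haM⟩
  · subst hM'
    have h3 := t1 J I hJ hV a ha
    have h4 : ∫ t in (T ^ ((3:ℝ)/4))..T, ‖riemannZeta (cl t)‖ ^ 2 * gM J 1 a Rs I t ≤
        ∫ t in (T ^ ((3:ℝ)/4))..T, ‖riemannZeta (cl t)‖ ^ 2 * gp J a (RR Rs) I t :=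
      intervalIntegral.integral_mono_on hAT ((cl_cont_zeta.mul (gM_cont hy1 hJ 1 a)).intervalIntegrable _ _)
        ((cl_cont_zeta.mul (gp_contI hy1 hJ a)).intervalIntegrable _ _)
        fun t _ => mul_le_mul_of_nonneg_left (gM_le_gp J a Rs I t) (sq_nonneg _)
    exact h4.trans (h3.trans (mul_le_mul_of_nonneg_right (le_max_left _ _) hP0))
  · subst hM'
    exact (t2 J I hJ hV a ha haM).trans (mul_le_mul_of_nonneg_right (le_max_right _ _) hP0)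

/-- the line, with the small primes -/
lemma line_f {c y κ m LP Con P : ℝ} {z J Rs N K M : ℕ} {A0 : P1} {T : ℝ} (h : Sy c z y J Rs N K) (hA : Bd1 m A0)
    (hLP : l1' (Pz z * A0) ≤ LP) (hAT : T ^ ((3:ℝ)/4) ≤ T)
    (hon : ∫ t in (T ^ ((3:ℝ)/4))..T, ‖riemannZeta (cl t)‖ ^ 2 * gM J M κ Rs (IZ z y) t ≤ Con * P) :
    ∫ t in (T ^ ((3:ℝ)/4))..T, ‖riemannZeta (cl t)‖ ^ 2 * ‖es (1 / 2 + (0:ℝ) + t * Complex.I) (Pz z * A0 * Bm M κ z y J Rs)‖ ^ 2 ≤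
      LP ^ 2 * Con * P := by
  have hPA := (Pz_Bd z).mul hA
  have h1 : ∀ t : ℝ, ‖riemannZeta (cl t)‖ ^ 2 * ‖es (1 / 2 + (0:ℝ) + t * Complex.I) (Pz z * A0 * Bm M κ z y J Rs)‖ ^ 2 ≤
      LP ^ 2 * (‖riemannZeta (cl t)‖ ^ 2 * gM J M κ Rs (IZ z y) t) := by
    intro t
    rw [map_mul, norm_mul, mul_pow, es_Bm]
    have e : ‖∏ i ∈ range J, NK (20 * (M * RR Rs i)) κ (PI (IZ z y i) (1 / 2 + (0:ℝ) + t * Complex.I))‖ ^ 2 =
        gM J M κ Rs (IZ z y) t := by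
      unfold gM
      rw [norm_prod, ← prod_pow]
      refine prod_congr rfl fun i _ => ?_
      have : (1 / 2 + ((0:ℝ):ℂ) + t * Complex.I) = 1 / 2 + t * Complex.I := by push_cast; ring
      rw [this]
    rw [e]
    have h2 := (es_norm_le (s := 1 / 2 + ((0:ℝ):ℂ) + t * Complex.I) (by rw [half_re]; norm_num) hPA).trans hLP
    have h3 := pow_le_pow_left₀ (norm_nonneg _) h2 2
    have h4 : 0 ≤ ‖riemannZeta (cl t)‖ ^ 2 * gM J M κ Rs (IZ z y) t := mul_nonneg (sq_nonneg _) (gM_nonneg _ _ _ _ _ _)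
    have h5 := mul_le_mul_of_nonneg_right h3 h4
    linarith
  have hf : Continuous fun t : ℝ => ‖es (1 / 2 + (0:ℝ) + t * Complex.I) (Pz z * A0 * Bm M κ z y J Rs)‖ ^ 2 :=
    es_cont0 0 (PBm_Bd h hA)
  have hg : Continuous fun t => gM J M κ Rs (IZ z y) t := gM_cont h.y1 h.rg M κ
  have i1 : IntervalIntegrable (fun t : ℝ => ‖riemannZeta (cl t)‖ ^ 2 *
      ‖es (1 / 2 + (0:ℝ) + t * Complex.I) (Pz z * A0 * Bm M κ z y J Rs)‖ ^ 2) volume (T ^ ((3:ℝ)/4)) T :=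
    (cl_cont_zeta.mul hf).intervalIntegrable _ _
  have i2 : IntervalIntegrable (fun t : ℝ => LP ^ 2 * (‖riemannZeta (cl t)‖ ^ 2 * gM J M κ Rs (IZ z y) t))
      volume (T ^ ((3:ℝ)/4)) T := (continuous_const.mul (cl_cont_zeta.mul hg)).intervalIntegrable _ _
  have h2 := intervalIntegral.integral_mono_on hAT i1 i2 fun t _ => h1 t
  rw [intervalIntegral.integral_const_mul] at h2
  refine h2.trans ?_
  rw [mul_assoc]
  exact mul_le_mul_of_nonneg_left hon (sq_nonneg _)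

/-- the size on the line -/
lemma N1_lineM {c d η κ m l : ℝ} {z Rs J M M0 : ℕ} {A0 : P1} {T : ℝ} (hM : 1 ≤ M) (hz : 40000 * M ^ 6 ≤ z)
    (hS : Sy c z (yT η T) J Rs (NT T) (KT T))
    (hV : |∑ i ∈ range J, vI (IZ z (yT η T) i) - Real.log (Real.log T)| ≤ d) (hW : vd 0 (Rst (NT T) (yT η T)) ≤ d)
    (hE : ETM M c z (yT η T) J Rs ≤ 1) (hκ1 : |κ - 1| ≤ M) (hκ0 : 0 ≤ κ) (hκM : κ ≤ M0) (hA : Bd1 m A0)
    (hAm : A0 ∈ SA1 (M1 (S0 z))) (hl : l1' A0 ≤ l)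
    (hm : m ≤ NT T) (hd : 0 ≤ d) (hL : 1 ≤ Real.log T) :
    ip 0 (Dm (NT T) M (κ - 1) z (yT η T) J Rs A0) (Dm (NT T) M (κ - 1) z (yT η T) J Rs A0) ≤
      (l ^ 2 + (2 ^ (S0 z).card * l) ^ 2) * Real.exp ((M0:ℝ) ^ 2 * d + 2 * d + 1) * Real.log T ^ (κ ^ 2) := by
  have hmK : m < 2 ^ (KT T + 1) := by
    have : ((NT T : ℕ) : ℝ) < ((2 ^ (KT T + 1) : ℕ) : ℝ) := by exact_mod_cast hS.NK
    push_cast at this
    linarith
  have e0 : 1 + (κ - 1) = κ := by ring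
  have h0 := N1M (δ := 0) hM hz hS le_rfl hκ1 hA hAm hmK
  rw [e0] at h0
  refine h0.trans ?_
  have hl0 := l1'_nonneg A0
  have h1 : (2 ^ (S0 z).card * l1' A0) ^ 2 / 2 ^ (KT T + 1) ≤ (2 ^ (S0 z).card * l) ^ 2 := by
    refine (div_le_self (by positivity) (one_le_pow₀ (by norm_num))).trans ?_
    gcongr
  have h1' : ip 0 A0 A0 ≤ l ^ 2 := (ip_le_l1 le_rfl hA).trans (pow_le_pow_left₀ hl0 hl 2)
  have h2 : Real.exp (κ ^ 2 * Vd 0 z (yT η T) J + ETM M c z (yT η T) J Rs) * Real.exp (2 * vd 0 (Rst (NT T) (yT η T))) ≤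
      Real.exp ((M0:ℝ) ^ 2 * d + 2 * d + 1) * Real.log T ^ (κ ^ 2) := by
    rw [Real.rpow_def_of_pos (by linarith), ← Real.exp_add, ← Real.exp_add]
    refine Real.exp_le_exp.mpr ?_
    rw [Vd_zero]
    have h3 := (abs_le.mp hV).2
    have h4 : κ ^ 2 * (∑ i ∈ range J, vI (IZ z (yT η T) i)) ≤ κ ^ 2 * (Real.log (Real.log T) + d) :=
      mul_le_mul_of_nonneg_left (by linarith) (sq_nonneg _)
    have h5 : κ ^ 2 * d ≤ (M0:ℝ) ^ 2 * d := mul_le_mul_of_nonneg_right (pow_le_pow_left₀ hκ0 hκM 2) hd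
    linarith
  have hip := ip_self_nonneg 0 A0
  calc _ = (ip 0 A0 A0 + (2 ^ (S0 z).card * l1' A0) ^ 2 / 2 ^ (KT T + 1)) *
        (Real.exp (κ ^ 2 * Vd 0 z (yT η T) J + ETM M c z (yT η T) J Rs) * Real.exp (2 * vd 0 (Rst (NT T) (yT η T)))) := by ring
    _ ≤ (l ^ 2 + (2 ^ (S0 z).card * l) ^ 2) * (Real.exp ((M0:ℝ) ^ 2 * d + 2 * d + 1) * Real.log T ^ (κ ^ 2)) := by
        refine mul_le_mul (by linarith) h2 (by positivity) (by positivity)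
    _ = _ := by ring

/-- the decay beats the powers -/
lemma Q_small {C c2 e : ℝ} (M : ℕ) (hC : 0 < C) (hc2 : 0 < c2) (he : 0 < e) : ∃ l : ℝ, 1 ≤ l ∧ ∀ T κ δ D : ℝ, 1 ≤ T →
    1 ≤ Real.log T → T ^ ((1:ℝ) / 9) ≤ NT T → 0 ≤ κ → κ ≤ M → 0 < δ → l ≤ δ * Real.log T → c2 * δ ^ (-(κ ^ 2)) ≤ D →
    C * (T * Real.log T ^ (κ ^ 2)) * (NT T : ℝ) ^ (-(2 * δ)) ≤ e * (T / 2 * D) := by
  obtain ⟨l1, hl1⟩ := lam_ex (s := (M:ℝ) ^ 2) (b := 2 / 9) (C := C / c2) (e := e / 2) (by norm_num) (by positivity)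
  refine ⟨max 1 l1, le_max_left _ _, fun T κ δ D hT1 hL1 hN hκ0 hκM hδ0 hx hD => ?_⟩
  have hT0 : 0 < T := by linarith
  have hL0 : 0 < Real.log T := by linarith
  have hx1 : 1 ≤ δ * Real.log T := (le_max_left _ _).trans hx
  have h1 : (NT T:ℝ) ^ (-(2 * δ)) ≤ Real.exp (-(2 / 9) * (δ * Real.log T)) := by
    calc (NT T:ℝ) ^ (-(2 * δ)) ≤ (T ^ ((1:ℝ) / 9)) ^ (-(2 * δ)) :=
          Real.rpow_le_rpow_of_nonpos (Real.rpow_pos_of_pos hT0 _) hN (by linarith only [hδ0])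
      _ = Real.exp (-(2 / 9) * (δ * Real.log T)) := by
          rw [← Real.rpow_mul hT0.le, Real.rpow_def_of_pos hT0]
          congr 1; ring
  have h2 := hl1 (δ * Real.log T) ((le_max_right _ _).trans hx)
  have h4 : Real.log T ^ (κ ^ 2) = (δ * Real.log T) ^ (κ ^ 2) * δ ^ (-(κ ^ 2)) := by
    rw [Real.mul_rpow hδ0.le hL0.le, mul_right_comm, ← Real.rpow_add hδ0]
    simp
  have h5 : (δ * Real.log T) ^ (κ ^ 2) ≤ (δ * Real.log T) ^ ((M:ℝ) ^ 2) :=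
    Real.rpow_le_rpow_of_exponent_le hx1 (pow_le_pow_left₀ hκ0 hκM 2)
  have h6 : 0 ≤ δ ^ (-(κ ^ 2)) := Real.rpow_nonneg hδ0.le _
  have h7 : 0 ≤ C * (T * Real.log T ^ (κ ^ 2)) :=
    mul_nonneg hC.le (mul_nonneg hT0.le (Real.rpow_nonneg hL0.le _))
  set x := δ * Real.log T with hxd
  have h8 : C / c2 * (x ^ (κ ^ 2) * Real.exp (-(2 / 9) * x)) ≤ e / 2 := by
    refine le_trans ?_ h2
    exact mul_le_mul_of_nonneg_left (mul_le_mul_of_nonneg_right h5 (Real.exp_pos _).le) (by positivity)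
  calc C * (T * Real.log T ^ (κ ^ 2)) * (NT T : ℝ) ^ (-(2 * δ)) ≤
        C * (T * Real.log T ^ (κ ^ 2)) * Real.exp (-(2 / 9) * x) :=
        mul_le_mul_of_nonneg_left h1 h7
    _ = T * (C / c2 * (x ^ (κ ^ 2) * Real.exp (-(2 / 9) * x))) * (c2 * δ ^ (-(κ ^ 2))) := by
        rw [h4]; field_simp
    _ ≤ T * (e / 2) * D :=
        mul_le_mul (mul_le_mul_of_nonneg_left h8 hT0.le) hD (mul_nonneg hc2.le h6) (mul_nonneg hT0.le (half_pos he).le)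
    _ = e * (T / 2 * D) := by ring

lemma arith_off {ε e e1 Y Q X2 M0 A2 A3 E4 E5 : ℝ} (he1 : 0 < e1) (he11 : e1 ≤ 1) (hε : 0 < ε)
    (he : e = ε * e1 ^ 2 / 600) (hX2 : 0 ≤ X2) (hY : 0 ≤ Y) (hQ : Q ≤ e * Y) (hA2 : A2 ≤ 8 * e * M0)
    (hA3 : A3 ≤ 2 * e * M0) (hXM : X2 * M0 ≤ 2 * Y) (hE4 : E4 ≤ e * Y) (hE5 : E5 ≤ e * Y) :
    32 / e1 ^ 2 * (Q + (X2 * A2 + E4)) + (X2 * A3 + E5) ≤ ε * Y := by
  have he0 : 0 ≤ e := by rw [he]; positivity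
  have a1 : X2 * A2 ≤ 16 * e * Y := by
    calc X2 * A2 ≤ X2 * (8 * e * M0) := mul_le_mul_of_nonneg_left hA2 hX2
      _ = 8 * e * (X2 * M0) := by ring
      _ ≤ 8 * e * (2 * Y) := mul_le_mul_of_nonneg_left hXM (by positivity)
      _ = _ := by ring
  have a2 : X2 * A3 ≤ 4 * e * Y := by
    calc X2 * A3 ≤ X2 * (2 * e * M0) := mul_le_mul_of_nonneg_left hA3 hX2
      _ = 2 * e * (X2 * M0) := by ring
      _ ≤ 2 * e * (2 * Y) := mul_le_mul_of_nonneg_left hXM (by positivity)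
      _ = _ := by ring
  have a3 : 32 / e1 ^ 2 * (Q + (X2 * A2 + E4)) ≤ 32 / e1 ^ 2 * (18 * e * Y) :=
    mul_le_mul_of_nonneg_left (by linarith) (by positivity)
  have a4 : 32 / e1 ^ 2 * (18 * e * Y) = 576 / 600 * ε * Y := by rw [he]; field_simp; ring
  have a5 : 5 * e * Y ≤ 5 / 600 * ε * Y := by
    have h1 : e1 ^ 2 ≤ 1 := pow_le_one₀ he1.le he11
    have h2 : e ≤ ε / 600 := by
      rw [he]
      have : ε * e1 ^ 2 ≤ ε * 1 := mul_le_mul_of_nonneg_left h1 hε.le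
      linarith
    have h3 := mul_le_mul_of_nonneg_right h2 hY
    linarith
  have a6 : 0 ≤ ε * Y := by positivity
  linarith

lemma arith_main {ε e Y Iw X1 X2 M0 ipw et E2 Ioff Iz IG : ℝ} (hε : 0 < ε) (hε1 : ε ≤ 1 / 10) (he0 : 0 ≤ e) (he : e ≤ ε / 100)
    (hY : 0 ≤ Y) (hX12 : (1 - ε) * X2 ≤ X2 - X1) (hX1 : 0 ≤ X1) (hX2 : 0 ≤ X2) (hM0 : 0 ≤ M0)
    (hMX : X2 * M0 ≤ (1 + 2 * ε) * Y) (hMX' : (1 - 2 * ε) * Y ≤ X2 * M0)
    (het0 : 0 ≤ et) (het : et ≤ e) (h1 : (1 - et) * M0 ≤ ipw) (h2 : ipw ≤ Real.exp et * M0) (hE2 : E2 ≤ e * Y)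
    (h3 : |Iw - (X2 - X1) * ipw| ≤ E2) (hoff0 : 0 ≤ Ioff) (hoff : Ioff ≤ ε * Y) (h4 : IG + Ioff = Iw)
    (h5 : (1 - 5 * ε) * IG ≤ Iz) (h6 : Iz ≤ (1 + 5 * ε) * IG) :
    |Iz - Y| ≤ 14 * ε * Y := by
  obtain ⟨h7, h8⟩ := abs_le.mp h3
  have hexp : Real.exp et ≤ 1 + 2 * ε / 50 := by
    have := exp_le_two (ε := et) het0 (by linarith)
    linarith
  have hXX : 0 ≤ X2 - X1 := le_trans (mul_nonneg (by linarith) hX2) hX12
  -- upper
  have u1 : (X2 - X1) * ipw ≤ (1 + 3 * ε) * Y := by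
    calc (X2 - X1) * ipw ≤ (X2 - X1) * ((1 + 2 * ε / 50) * M0) :=
          mul_le_mul_of_nonneg_left (h2.trans (mul_le_mul_of_nonneg_right hexp hM0)) hXX
      _ ≤ X2 * ((1 + 2 * ε / 50) * M0) := mul_le_mul_of_nonneg_right (by linarith) (by positivity)
      _ = (1 + 2 * ε / 50) * (X2 * M0) := by ring
      _ ≤ (1 + 2 * ε / 50) * ((1 + 2 * ε) * Y) := mul_le_mul_of_nonneg_left hMX (by positivity)
      _ ≤ (1 + 3 * ε) * Y := by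
          have : (1 + 2 * ε / 50) * (1 + 2 * ε) ≤ 1 + 3 * ε := by nlinarith
          have := mul_le_mul_of_nonneg_right this hY
          linarith
  have u2 : IG ≤ (1 + 4 * ε) * Y := by
    have h9 : e * Y ≤ ε / 100 * Y := mul_le_mul_of_nonneg_right he hY
    have h10 : 0 ≤ ε * Y := by positivity
    linarith
  have l1 : (1 - 4 * ε) * Y ≤ (X2 - X1) * ipw := by
    have h9 : (1 - ε) * X2 * ((1 - e) * M0) ≤ (X2 - X1) * ipw := by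
      refine mul_le_mul hX12 ?_ (mul_nonneg (by linarith) hM0) hXX
      refine le_trans ?_ h1
      exact mul_le_mul_of_nonneg_right (by linarith) hM0
    refine le_trans ?_ h9
    have h10 : (1 - ε) * X2 * ((1 - e) * M0) = (1 - ε) * (1 - e) * (X2 * M0) := by ring
    rw [h10]
    calc (1 - 4 * ε) * Y ≤ ((1 - ε) * (1 - ε / 100) * (1 - 2 * ε)) * Y := by
          refine mul_le_mul_of_nonneg_right ?_ hY
          nlinarith [sq_nonneg ε, pow_pos hε 3]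
      _ = (1 - ε) * (1 - ε / 100) * ((1 - 2 * ε) * Y) := by ring
      _ ≤ (1 - ε) * (1 - e) * (X2 * M0) := by
          refine mul_le_mul (mul_le_mul_of_nonneg_left (by linarith) (by linarith)) hMX'
            (mul_nonneg (by linarith) hY) (mul_nonneg (by linarith) (by linarith))
  have l2 : (1 - 6 * ε) * Y ≤ IG := by
    have h9 : e * Y ≤ ε / 100 * Y := mul_le_mul_of_nonneg_right he hY
    have h10 : 0 ≤ ε * Y := by positivity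
    linarith
  rw [abs_le]
  constructor
  · have h9 : (1 - 5 * ε) * ((1 - 6 * ε) * Y) ≤ Iz := (mul_le_mul_of_nonneg_left l2 (by linarith)).trans h5
    have h10 : 1 - 14 * ε ≤ (1 - 5 * ε) * (1 - 6 * ε) := by nlinarith [sq_nonneg ε]
    have h11 := mul_le_mul_of_nonneg_right h10 hY
    linarith
  · have h9 : Iz ≤ (1 + 5 * ε) * ((1 + 4 * ε) * Y) := h6.trans (mul_le_mul_of_nonneg_left u2 (by linarith))
    have h10 : (1 + 5 * ε) * (1 + 4 * ε) ≤ 1 + 14 * ε := by nlinarith [sq_nonneg ε]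
    have h11 := mul_le_mul_of_nonneg_right h10 hY
    linarith

end Pool.Agent.Y755
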