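import Pool.Agent.Y755.Gn1
import Pool.Agent.Y755.Res

set_option autoImplicit false

/-! Transfer to the unit interval. -/

namespace Pool.Agent.Y755

open Finset Filter MeasureTheory
open Pool.Agent.W184.NZ
open Pool.Agent.W184 (zn zn_nonneg zn_cont zn_le')
open Pool.Agent.H306R2 (dv cf aF)

/-- change of variables -/
lemma cov (f : ℝ → ℝ) (x : ℝ) {T : ℝ} (hT : 0 < T) {S : Set ℝ} (hS : MeasurableSet S) :
    ∫ u in {u : ℝ | x + u * T ∈ S}, f (x + u * T) = T⁻¹ * ∫ t in S, f t := by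
  have hm : MeasurableSet {u : ℝ | x + u * T ∈ S} :=
    hS.preimage (by fun_prop : Measurable fun u : ℝ => x + u * T)
  rw [← integral_indicator hm, ← integral_indicator hS]
  have e1 : (fun u : ℝ => {u : ℝ | x + u * T ∈ S}.indicator (fun u => f (x + u * T)) u) =
      fun u => (fun v => S.indicator f (x + v)) (u * T) := by
    funext u
    by_cases h : x + u * T ∈ S
    · have h2 : u ∈ {u : ℝ | x + u * T ∈ S} := h
      rw [Set.indicator_of_mem h2]
      show _ = S.indicator f (x + u * T)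
      rw [Set.indicator_of_mem h]
    · have h2 : u ∉ {u : ℝ | x + u * T ∈ S} := h
      rw [Set.indicator_of_notMem h2]
      show _ = S.indicator f (x + u * T)
      rw [Set.indicator_of_notMem h]
  rw [e1, Measure.integral_comp_mul_right (fun v => S.indicator f (x + v)) T, integral_add_left_eq_self,
    abs_of_pos (inv_pos.mpr hT), smul_eq_mul]

lemma cov_vol (x : ℝ) {T : ℝ} (hT : 0 < T) {S : Set ℝ} (hS : MeasurableSet S) :
    volume.real {u : ℝ | x + u * T ∈ S} = T⁻¹ * volume.real S := by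
  have h := cov (fun _ => 1) x hT hS
  rw [setIntegral_const, setIntegral_const, smul_eq_mul, smul_eq_mul, mul_one, mul_one] at h
  exact h

/-- the asymptotics on the good set of the unit interval -/
theorem unit_good {M : ℕ} (hM : 1 ≤ M) {ε : ℝ} (hε : 0 < ε) :
    ∃ lam : ℝ, 1 ≤ lam ∧ ∀ x : ℝ, ∀ᶠ T : ℝ in atTop, ∀ δ : ℝ, lam / Real.log T ≤ δ → δ ≤ 1 / 16 →
      ∃ E : Set ℝ, MeasurableSet E ∧ E ⊆ Set.Icc 0 1 ∧ (volume E).toReal ≤ ε ∧
      ∀ α : ℝ, 0 < α → α ≤ M →
        |(∫ u in Set.Icc (0:ℝ) 1 \ E, ‖riemannZeta ((1 / 2 + δ : ℝ) + x * Complex.I + (u * T) * Complex.I)‖ ^ (2 * α)) -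
          DD α δ| ≤ ε * DD α δ := by
  set e := min (ε / 40) (1 / 20) with he
  have he0 : 0 < e := lt_min (by positivity) (by norm_num)
  have he1 : 40 * e ≤ ε := by have := min_le_left (ε / 40) (1 / 20); linarith
  have he2 : e ≤ 1 / 20 := min_le_right _ _
  obtain ⟨lam, hl1, hw⟩ := win_good hM he0 (by linarith)
  refine ⟨2 * lam, by linarith, fun x => ?_⟩
  have hP : ∀ᶠ X : ℝ in atTop, (∀ δ : ℝ, lam / Real.log (2 * X) ≤ δ → δ ≤ 1 / 16 →
      ∃ G : Set ℝ, MeasurableSet G ∧ (volume (Set.Ioc ((2 * X) ^ ((4:ℝ)/5)) (2 * X / 2) \ G)).toReal ≤ e * (2 * X) ∧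
      ∀ α : ℝ, 0 < α → α ≤ M →
        |(∫ t in Set.Ioc ((2 * X) ^ ((4:ℝ)/5)) (2 * X / 2) ∩ G, zn (1 / 2 + δ) t ^ (2 * α)) - 2 * X / 2 * DD α δ| ≤
          14 * e * (2 * X / 2 * DD α δ)) ∧ (2 / e) * X ^ ((4:ℝ) / 5) ≤ X ^ (1:ℝ) ∧ |x| ≤ (2 * X) ^ ((4:ℝ)/5) ∧ 2 ≤ X := by
    filter_upwards [two_mul_tendsto.eventually hw, rpow_ev (p := 4 / 5) (q := 1) (by norm_num) (2 / e),
      ((tendsto_rpow_atTop (show (0:ℝ) < 4 / 5 by norm_num)).comp two_mul_tendsto).eventually_ge_atTop |x|,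
      eventually_ge_atTop 2] with X h1 h2 h3 h4
    exact ⟨h1, h2, h3, h4⟩
  filter_upwards [shift_ev x (C := 0) hl1 he0 hP] with T h δ hδ1 hδ2
  obtain ⟨⟨h1, h9, h10, h11⟩, h2, h3, h4, h5, h6, h7, h8⟩ := h
  have hT0 : 0 < T := by linarith
  set X := T + x with hX
  have hX0 : 0 < X := by linarith
  have hδ0 : 0 < δ := lt_of_lt_of_le (div_pos (by linarith) h6) hδ1
  obtain ⟨G, hG, hG1, hG2⟩ := h1 δ (by
    refine le_trans (div_le_div_of_nonneg_left (by linarith) h7 ?_) (h8.trans hδ1)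
    exact Real.log_le_log hX0 (by linarith)) hδ2
  have e2 : 2 * X / 2 = X := by ring
  rw [e2] at hG1 hG2
  have hw1 : (2 * X) ^ ((4:ℝ)/5) ≤ e * X := by
    rw [Real.rpow_one] at h9
    rw [Real.mul_rpow (by norm_num) hX0.le]
    have g1 : (2:ℝ) ^ ((4:ℝ)/5) ≤ 2 := by
      have := Real.rpow_le_rpow_of_exponent_le (show (1:ℝ) ≤ 2 by norm_num) (show (4:ℝ)/5 ≤ 1 by norm_num)
      rwa [Real.rpow_one] at this
    have g2 : (2:ℝ) ^ ((4:ℝ)/5) * X ^ ((4:ℝ)/5) ≤ 2 * X ^ ((4:ℝ)/5) := mul_le_mul_of_nonneg_right g1 (by positivity)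
    have g3 := mul_le_mul_of_nonneg_left h9 he0.le
    have g4 : e * (2 / e * X ^ ((4:ℝ) / 5)) = 2 * X ^ ((4:ℝ)/5) := by field_simp
    linarith
  have heX : e * X ≤ X := by nlinarith
  set w := (2 * X) ^ ((4:ℝ)/5) with hwd
  have hwX : w ≤ X := hw1.trans heX
  set S : Set ℝ := Set.Ioc w X ∩ G with hS
  have hSm : MeasurableSet S := measurableSet_Ioc.inter hG
  have hSv : volume S ≠ ⊤ := ((measure_mono Set.inter_subset_left).trans_lt (by simp)).ne
  set U : Set ℝ := {u : ℝ | x + u * T ∈ S} with hU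
  have hUm : MeasurableSet U := hSm.preimage (by fun_prop : Measurable fun u : ℝ => x + u * T)
  have hU1 : U ⊆ Set.Icc 0 1 := by
    intro u hu
    have hu1 : w < x + u * T := hu.1.1
    have hu2 : x + u * T ≤ X := hu.1.2
    have hx := le_abs_self x
    constructor
    · by_contra hc
      push Not at hc
      have : u * T ≤ 0 := mul_nonpos_of_nonpos_of_nonneg hc.le hT0.le
      linarith
    · have : u * T ≤ 1 * T := by linarith
      exact le_of_mul_le_mul_right this hT0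
  have hUU : Set.Icc (0:ℝ) 1 \ (Set.Icc (0:ℝ) 1 \ U) = U := by
    rw [Set.sdiff_sdiff_cancel_left hU1]
  refine ⟨Set.Icc 0 1 \ U, measurableSet_Icc.diff hUm, Set.sdiff_subset, ?_, ?_⟩
  · show volume.real (Set.Icc (0:ℝ) 1 \ U) ≤ ε
    have hSr : (1 - 3 * e) * X ≤ volume.real S := by
      have g1 : volume.real (Set.Ioc w X) ≤ volume.real S + volume.real (Set.Ioc w X \ G) := by
        have : Set.Ioc w X = S ∪ (Set.Ioc w X \ G) := (Set.inter_union_sdiff _ _).symm
        nth_rw 1 [this]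
        exact measureReal_union_le _ _
      rw [Real.volume_real_Ioc_of_le hwX] at g1
      have g2 : volume.real (Set.Ioc w X \ G) ≤ e * (2 * X) := hG1
      nlinarith
    have hUr : (1 - e) * (1 - 3 * e) ≤ volume.real U := by
      rw [hU, cov_vol x hT0 hSm, inv_mul_eq_div, le_div_iff₀ hT0]
      refine le_trans ?_ hSr
      have := mul_le_mul_of_nonneg_left h3 (show 0 ≤ 1 - 3 * e by linarith)
      linarith
    rw [measureReal_sdiff hU1 hUm (by simp), Real.volume_real_Icc_of_le zero_le_one]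
    nlinarith [sq_nonneg e]
  · intro α hα hα1
    have hD := DD_ge_one hα hδ0
    have g1 := hG2 α hα hα1
    rw [hUU]
    have g2 : ∫ u in U, ‖riemannZeta ((1 / 2 + δ : ℝ) + x * Complex.I + (u * T) * Complex.I)‖ ^ (2 * α) =
        T⁻¹ * ∫ t in S, zn (1 / 2 + δ) t ^ (2 * α) := by
      rw [← cov (fun t => zn (1 / 2 + δ) t ^ (2 * α)) x hT0 hSm]
      refine setIntegral_congr_fun hUm fun u _ => ?_
      show _ = zn (1 / 2 + δ) (x + u * T) ^ (2 * α)
      unfold zn
      congr 3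
      push_cast
      ring
    rw [g2]
    set I := ∫ t in S, zn (1 / 2 + δ) t ^ (2 * α)
    set D := DD α δ
    have hD0 : 0 < D := by linarith
    have hXT : X ≤ 2 * T := by nlinarith
    have g3 : |T⁻¹ * I - D| * T ≤ ε * D * T := by
      have e3 : |T⁻¹ * I - D| * T = |I - T * D| := by
        rw [← abs_of_pos hT0, ← abs_mul, abs_of_pos hT0]
        congr 1
        field_simp
      rw [e3]
      have g4 : |I - T * D| ≤ |I - X * D| + |X * D - T * D| := abs_sub_le _ _ _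
      have g5 : |X * D - T * D| ≤ e * T * D := by
        rw [← sub_mul, abs_mul, abs_of_pos hD0]
        refine mul_le_mul_of_nonneg_right ?_ hD0.le
        rw [abs_le]
        constructor <;> linarith
      have g6 : 14 * e * (X * D) ≤ 14 * e * (2 * T * D) :=
        mul_le_mul_of_nonneg_left (mul_le_mul_of_nonneg_right hXT hD0.le) (by positivity)
      have g7 : 40 * e * (T * D) ≤ ε * (T * D) := mul_le_mul_of_nonneg_right he1 (by positivity)
      have g8 : 0 ≤ e * (T * D) := by positivity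
      linarith
    exact le_of_mul_le_mul_right g3 hT0

end Pool.Agent.Y755
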