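import Pool.Agent.Y755.Sq2
import Pool.Agent.Y755.Hpc

set_option autoImplicit false

/-! The half-plane inequality for `ζ^2 A - Q`. -/

namespace Pool.Agent.Y755

open MeasureTheory Filter Topology Complex Pool.Agent.H306R2 Pool.Agent.W184

theorem avg_leG {K G H φ : ℝ → ℝ} {a b U D : ℝ} (hab : a ≤ b) (hU : 0 ≤ U)
    (hKc : Continuous K) (hK0 : ∀ w, 0 ≤ K w) (hKi : Integrable fun w => K w * φ w)
    (hKi0 : Integrable K)
    (hGc : Continuous G) (hG0 : ∀ x, 0 ≤ G x) (hGB : ∀ t ∈ Set.Icc a b, ∀ w, G (t + w) ≤ D * φ w)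
    (hHc : Continuous H) (hH : ∀ t ∈ Set.Icc a b, H t ≤ ∫ w, K w * G (t + w)) :
    ∫ t in a..b, H t ≤ (∫ w, K w) * (∫ t in (a - U)..(b + U), G t) +
      (b - a) * D * ∫ w in {w : ℝ | U < |w|}, K w * φ w := by
  have hcont : Continuous fun q : ℝ × ℝ => K q.2 * G (q.1 + q.2) := by fun_prop
  have hbd : ∀ t ∈ Set.Ioc a b, ∀ w, K w * G (t + w) ≤ D * (K w * φ w) := by
    intro t ht w
    calc K w * G (t + w) ≤ K w * (D * φ w) :=
          mul_le_mul_of_nonneg_left (hGB t (Set.Ioc_subset_Icc_self ht) w) (hK0 w)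
      _ = _ := by ring
  have hint : Integrable (fun q : ℝ × ℝ => K q.2 * G (q.1 + q.2))
      ((volume.restrict (Set.Ioc a b)).prod volume) := by
    have h1 : Integrable (fun q : ℝ × ℝ => (1:ℝ) * (D * (K q.2 * φ q.2)))
        ((volume.restrict (Set.Ioc a b)).prod volume) :=
      Integrable.mul_prod (integrable_const (1:ℝ)) (hKi.const_mul _)
    refine h1.mono' hcont.aestronglyMeasurable ?_
    have h2 : ((volume.restrict (Set.Ioc a b)).prod (volume : Measure ℝ)) =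
        (volume.prod volume).restrict (Set.Ioc a b ×ˢ Set.univ) := by
      rw [← Measure.prod_restrict, Measure.restrict_univ]
    rw [h2]
    refine (ae_restrict_mem (measurableSet_Ioc.prod MeasurableSet.univ)).mono fun q hq => ?_
    rw [Real.norm_of_nonneg (mul_nonneg (hK0 _) (hG0 _)), one_mul]
    exact hbd q.1 hq.1 q.2
  have s1 : ∫ t in a..b, H t ≤ ∫ t in Set.Ioc a b, ∫ w, K w * G (t + w) := by
    rw [intervalIntegral.integral_of_le hab]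
    refine setIntegral_mono_on ?_ ?_ measurableSet_Ioc ?_
    · exact (hHc.integrableOn_Icc (a := a) (b := b)).mono_set Set.Ioc_subset_Icc_self
    · exact hint.integral_prod_left
    · intro t ht
      exact hH t (Set.Ioc_subset_Icc_self ht)
  have s2 : ∫ t in Set.Ioc a b, ∫ w, K w * G (t + w) = ∫ w, ∫ t in Set.Ioc a b, K w * G (t + w) :=
    integral_integral_swap hint
  rw [s2] at s1
  refine s1.trans ?_
  have hms : MeasurableSet {w : ℝ | U < |w|} := measurableSet_lt measurable_const measurable_abs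
  set E : ℝ := ∫ t in (a - U)..(b + U), G t with hE
  have hE0 : 0 ≤ E := intervalIntegral.integral_nonneg (by linarith) fun x _ => hG0 x
  have hgi : Integrable fun w => K w * E + ({w : ℝ | U < |w|}).indicator
      (fun w => (b - a) * D * (K w * φ w)) w :=
    (hKi0.mul_const E).add ((hKi.const_mul _).indicator hms)
  have s3 : ∫ w, ∫ t in Set.Ioc a b, K w * G (t + w) ≤ ∫ w, (K w * E + ({w : ℝ | U < |w|}).indicator
      (fun w => (b - a) * D * (K w * φ w)) w) := by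
    refine integral_mono_of_nonneg (Filter.Eventually.of_forall fun w => ?_) hgi
      (Filter.Eventually.of_forall fun w => ?_)
    · exact integral_nonneg fun t => mul_nonneg (hK0 w) (hG0 _)
    · simp only
      have hcw : Continuous fun t => K w * G (t + w) := by fun_prop
      by_cases hw : U < |w|
      · rw [Set.indicator_of_mem (show w ∈ {w : ℝ | U < |w|} from hw)]
        have h4 : ∫ t in Set.Ioc a b, K w * G (t + w) ≤ ∫ t in Set.Ioc a b, D * (K w * φ w) := by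
          refine setIntegral_mono_on ?_ ?_ measurableSet_Ioc fun t ht => hbd t ht w
          · exact (hcw.integrableOn_Icc (a := a) (b := b)).mono_set Set.Ioc_subset_Icc_self
          · exact integrableOn_const (by simp)
        rw [setIntegral_const, Measure.real, Real.volume_Ioc,
          ENNReal.toReal_ofReal (by linarith), smul_eq_mul] at h4
        have h5 := mul_nonneg (hK0 w) hE0
        calc ∫ t in Set.Ioc a b, K w * G (t + w) ≤ (b - a) * (D * (K w * φ w)) := h4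
          _ = (b - a) * D * (K w * φ w) := by ring
          _ ≤ _ := by linarith
      · rw [Set.indicator_of_notMem (show w ∉ {w : ℝ | U < |w|} from hw), add_zero, integral_const_mul]
        refine mul_le_mul_of_nonneg_left ?_ (hK0 w)
        push Not at hw
        have hw' := abs_le.mp hw
        rw [← intervalIntegral.integral_of_le hab, intervalIntegral.integral_comp_add_right
          (fun x => G x), hE]
        refine intervalIntegral.integral_mono_interval (by linarith) (by linarith) (by linarith)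
          (Filter.Eventually.of_forall fun x => hG0 x) (hGc.intervalIntegrable _ _)
  refine s3.trans (le_of_eq ?_)
  rw [integral_add (hKi0.mul_const E) ((hKi.const_mul _).indicator hms), integral_mul_const,
    integral_indicator hms, integral_const_mul]

lemma tail_int3 {K : ℝ → ℝ} {A U : ℝ} (hA : 0 ≤ A) (hU : 1 ≤ U) (hKc : Continuous K) (hK0 : ∀ w, 0 ≤ K w)
    (hK : ∀ w, K w ≤ A * (1 + w ^ 2) ^ (-(16:ℝ))) :
    (Integrable fun w => K w * (1 + w ^ 2) ^ 2) ∧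
    ∫ w in {w : ℝ | U < |w|}, K w * (1 + w ^ 2) ^ 2 ≤ Real.pi * A * (U ^ 26)⁻¹ := by
  have hi := integrable_inv_one_add_sq
  have hp : ∀ w : ℝ, (1 + w ^ 2) ^ (-(16:ℝ)) = ((1 + w ^ 2)⁻¹) ^ 16 := by
    intro w
    have h0 : 0 < 1 + w ^ 2 := by positivity
    rw [Real.rpow_neg h0.le, inv_pow]
    norm_num
  have h1 : ∀ w : ℝ, 0 < (1 + w ^ 2)⁻¹ ∧ (1 + w ^ 2)⁻¹ ≤ 1 := by
    intro w
    have h0 : 0 < 1 + w ^ 2 := by positivity
    refine ⟨by positivity, ?_⟩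
    rw [inv_le_one_iff₀]; right; nlinarith [sq_nonneg w]
  have hb : ∀ w : ℝ, K w * (1 + w ^ 2) ^ 2 ≤ A * ((1 + w ^ 2)⁻¹) ^ 13 * (1 + w ^ 2)⁻¹ := by
    intro w
    have h0 : 0 < 1 + w ^ 2 := by positivity
    calc K w * (1 + w ^ 2) ^ 2 ≤ (A * (1 + w ^ 2) ^ (-(16:ℝ))) * (1 + w ^ 2) ^ 2 :=
          mul_le_mul_of_nonneg_right (hK w) (by positivity)
      _ = A * (((1 + w ^ 2)⁻¹) ^ 14 * ((1 + w ^ 2)⁻¹ * (1 + w ^ 2)) ^ 2) := by rw [hp]; ring
      _ = _ := by rw [inv_mul_cancel₀ h0.ne', one_pow, mul_one]; ring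
  have i2 : Integrable fun w => K w * (1 + w ^ 2) ^ 2 := by
    refine (hi.const_mul A).mono' (by fun_prop) (Filter.Eventually.of_forall fun w => ?_)
    have h2 : 0 ≤ (1 + w ^ 2) ^ 2 := by positivity
    rw [Real.norm_of_nonneg (mul_nonneg (hK0 w) h2)]
    refine (hb w).trans (mul_le_mul_of_nonneg_right ?_ (h1 w).1.le)
    exact mul_le_of_le_one_right hA (pow_le_one₀ (h1 w).1.le (h1 w).2)
  refine ⟨i2, ?_⟩
  have hms : MeasurableSet {w : ℝ | U < |w|} := measurableSet_lt measurable_const measurable_abs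
  have hU0 : 0 < U := by linarith
  have b1 : ∫ w in {w : ℝ | U < |w|}, K w * (1 + w ^ 2) ^ 2 ≤
      ∫ w in {w : ℝ | U < |w|}, A * (U ^ 26)⁻¹ * (1 + w ^ 2)⁻¹ := by
    refine setIntegral_mono_on i2.integrableOn (hi.const_mul _).integrableOn hms fun w hw => ?_
    have hw' : U < |w| := hw
    refine (hb w).trans (mul_le_mul_of_nonneg_right (mul_le_mul_of_nonneg_left ?_ hA) (h1 w).1.le)
    have h4 : (1 + w ^ 2)⁻¹ ≤ (U ^ 2)⁻¹ := by
      refine inv_anti₀ (by positivity) ?_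
      have : U ^ 2 ≤ |w| ^ 2 := pow_le_pow_left₀ hU0.le hw'.le 2
      rw [sq_abs] at this
      linarith
    calc ((1 + w ^ 2)⁻¹) ^ 13 ≤ ((U ^ 2)⁻¹) ^ 13 := pow_le_pow_left₀ (h1 w).1.le h4 13
      _ = (U ^ 26)⁻¹ := by rw [inv_pow, ← pow_mul]
  refine b1.trans ?_
  rw [integral_const_mul]
  have b2 : ∫ w in {w : ℝ | U < |w|}, (1 + w ^ 2)⁻¹ ≤ Real.pi := by
    rw [← integral_univ_inv_one_add_sq]
    refine setIntegral_le_integral hi (Filter.Eventually.of_forall fun w => ?_)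
    exact (h1 w).1.le
  calc A * (U ^ 26)⁻¹ * ∫ w in {w : ℝ | U < |w|}, (1 + w ^ 2)⁻¹ ≤
      A * (U ^ 26)⁻¹ * Real.pi := mul_le_mul_of_nonneg_left b2 (by positivity)
    _ = _ := by ring

theorem half_pt4 {Q A : ℂ → ℂ} {N C1 C2 CA p Δ t : ℝ} {M : ℕ} (hp : 0 < p) (hN : 1 ≤ N) (hM : 2 ≤ M)
    (hAd : Differentiable ℂ A) (hA : ∀ z : ℂ, 1 / 2 ≤ z.re → ‖A z‖ ≤ CA)
    (hQd : Differentiable ℂ Q) (hQ1 : ∀ z : ℂ, 1 / 2 ≤ z.re → ‖Q z‖ ≤ C1)
    (hQ2 : ∀ z : ℂ, 2 ≤ z.re → ‖riemannZeta z ^ 2 * A z - Q z‖ * N ^ z.re ≤ C2)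
    (h0 : 0 < Δ) (h1 : Δ ≤ 1 / 8) :
    ((1 - 8 * Δ) ^ 2 * N ^ Δ / (1 + Δ) ^ (2 * M)) ^ p *
      ‖riemannZeta (((1 / 2 + Δ : ℝ) : ℂ) + t * I) ^ 2 * A (((1 / 2 + Δ : ℝ) : ℂ) + t * I) -
        Q (((1 / 2 + Δ : ℝ) : ℂ) + t * I)‖ ^ p ≤
    ∫ w : ℝ, (KP Δ w * (1 + w ^ 2) ^ (-(M * p))) *
      ‖riemannZeta (((1 / 2 : ℝ) : ℂ) + (t + w : ℝ) * I) ^ 2 * A (((1 / 2 : ℝ) : ℂ) + (t + w : ℝ) * I) -
        Q (((1 / 2 : ℝ) : ℂ) + (t + w : ℝ) * I)‖ ^ p := by
  have hN0 : 0 < N := by linarith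
  have hNc : (N : ℂ) ≠ 0 := by exact_mod_cast hN0.ne'
  set c : ℂ := ((1 / 2 : ℝ) : ℂ) + t * I with hc
  have hcre : c.re = 1 / 2 := by simp [hc]
  set F : ℂ → ℂ := fun z => (Zt z ^ 2 * A z - (z - 1) ^ 2 * Q z) / z ^ 2 * (N : ℂ) ^ (z - (1 / 2 : ℝ)) *
    (1 / (1 + z - c)) ^ (2 * M) with hF
  have hCA : 0 ≤ CA := (norm_nonneg _).trans (hA 1 (by norm_num))
  have hne : ∀ z : ℂ, 0 < z.re → z ≠ 0 := by
    rintro z hz rfl; simp at hz
  have hne2 : ∀ z : ℂ, 0 < z.re → 1 + z - c ≠ 0 := by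
    intro z hz h
    have := congrArg Complex.re h
    simp [hcre] at this
    linarith
  have hFd : ∀ z : ℂ, 0 < z.re → DifferentiableAt ℂ F z := by
    intro z hz
    have d1 : DifferentiableAt ℂ (fun z : ℂ => Zt z ^ 2 * A z) z :=
      (DifferentiableAt.pow (Zt_differentiableAt hz) 2).mul (hAd z)
    have d2 : DifferentiableAt ℂ (fun z : ℂ => (z - 1) ^ 2 * Q z) z := by fun_prop
    have d3 : DifferentiableAt ℂ (fun z : ℂ => z ^ 2) z := by fun_prop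
    refine (((d1.sub d2).div d3 (pow_ne_zero 2 (hne z hz))).mul ?_).mul ?_
    · exact DifferentiableAt.const_cpow (by fun_prop) (Or.inl hNc)
    · refine DifferentiableAt.pow ?_ _
      exact (differentiableAt_const _).div (by fun_prop) (hne2 z hz)
  have hg1 : ∀ z : ℂ, 1 / 2 ≤ z.re → 1 ≤ ‖1 + z - c‖ := by
    intro z hz
    have := Complex.re_le_norm (1 + z - c)
    simp only [Complex.add_re, Complex.sub_re, Complex.one_re, hcre] at this
    linarith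
  have hFn : ∀ z : ℂ, ‖F z‖ = ‖(Zt z ^ 2 * A z - (z - 1) ^ 2 * Q z) / z ^ 2‖ * N ^ (z.re - 1 / 2) *
      (1 / ‖1 + z - c‖) ^ (2 * M) := by
    intro z
    rw [hF]
    simp only
    rw [norm_mul, norm_mul, Complex.norm_cpow_eq_rpow_re_of_pos hN0, norm_pow, norm_div (1:ℂ), norm_one]
    congr 2
  have hZt : ∀ z : ℂ, 0 < z.re → z ≠ 1 → (Zt z ^ 2 * A z - (z - 1) ^ 2 * Q z) / z ^ 2 =
      ((z - 1) / z) ^ 2 * (riemannZeta z ^ 2 * A z - Q z) := by
    intro z hz h1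
    have h2 := hne z hz
    rw [← zeta_eq_pos hz h1]
    field_simp
  have hC1 : 0 ≤ C1 := (norm_nonneg _).trans (hQ1 1 (by norm_num))
  have hC2 : 0 ≤ C2 := (mul_nonneg (norm_nonneg _) (by positivity)).trans (hQ2 2 (by norm_num))
  set B : ℝ := 4 * (9 * CA + C1) * (2 + ‖c - 1‖) ^ 4 * N ^ 2 + C2 with hB
  have hb : ∀ z : ℂ, 1 / 2 ≤ z.re → ‖F z‖ ≤ B := by
    intro z hz
    have hz0 : 0 < z.re := by linarith
    have hgz := hg1 z hz
    have hgz0 : 0 < ‖1 + z - c‖ := by linarith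
    have hpw : (1 / ‖1 + z - c‖) ^ (2 * M) ≤ (1 / ‖1 + z - c‖) ^ 4 := by
      refine pow_le_pow_of_le_one (by positivity) ?_ (by omega)
      rw [div_le_one hgz0]; exact hgz
    have hzn : 1 / 2 ≤ ‖z‖ := hz.trans (Complex.re_le_norm z)
    rw [hFn]
    rcases le_total z.re 2 with h2 | h2
    · have b1 : ‖(Zt z ^ 2 * A z - (z - 1) ^ 2 * Q z) / z ^ 2‖ ≤ 4 * (9 * CA + C1) * (‖z‖ + 1) ^ 4 := by
        have hzq : ‖z ^ 2‖ = ‖z‖ ^ 2 := norm_pow z 2
        rw [norm_div, hzq, div_le_iff₀ (by positivity)]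
        have a1 : ‖Zt z ^ 2 * A z‖ ≤ 9 * (‖z‖ + 1) ^ 4 * CA := by
          rw [norm_mul, norm_pow]
          have g := pow_le_pow_left₀ (norm_nonneg _) (Zt_norm_le hz) 2
          calc _ ≤ (3 * (‖z‖ + 1) ^ 2) ^ 2 * CA := mul_le_mul g (hA z hz) (norm_nonneg _) (by positivity)
            _ = _ := by ring
        have a2 : ‖(z - 1) ^ 2 * Q z‖ ≤ (‖z‖ + 1) ^ 4 * C1 := by
          rw [norm_mul, norm_pow]
          have g := norm_sub_le z 1
          rw [norm_one] at g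
          have g2 := pow_le_pow_left₀ (norm_nonneg _) g 2
          have g3 : (‖z‖ + 1) ^ 2 ≤ (‖z‖ + 1) ^ 4 := pow_le_pow_right₀ (by linarith) (by norm_num)
          exact mul_le_mul (g2.trans g3) (hQ1 z hz) (norm_nonneg _) (by positivity)
        have a3 := norm_sub_le (Zt z ^ 2 * A z) ((z - 1) ^ 2 * Q z)
        have a5 : (9 * CA + C1) * (‖z‖ + 1) ^ 4 ≤ 4 * (9 * CA + C1) * (‖z‖ + 1) ^ 4 * ‖z‖ ^ 2 := by
          have g : 0 ≤ (9 * CA + C1) * (‖z‖ + 1) ^ 4 := by positivity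
          have g2 : 1 ≤ 4 * ‖z‖ ^ 2 := by nlinarith
          calc _ = (9 * CA + C1) * (‖z‖ + 1) ^ 4 * 1 := (mul_one _).symm
            _ ≤ (9 * CA + C1) * (‖z‖ + 1) ^ 4 * (4 * ‖z‖ ^ 2) := mul_le_mul_of_nonneg_left g2 g
            _ = _ := by ring
        linarith
      have b2 : N ^ (z.re - 1 / 2) ≤ N ^ 2 := by
        rw [← Real.rpow_natCast]
        refine Real.rpow_le_rpow_of_exponent_le hN ?_
        push_cast; linarith
      have b3 : ‖z‖ + 1 ≤ ‖1 + z - c‖ * (2 + ‖c - 1‖) := by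
        have a1 : ‖z‖ ≤ ‖1 + z - c‖ + ‖c - 1‖ := by
          have := norm_add_le (1 + z - c) (c - 1)
          rwa [show 1 + z - c + (c - 1) = z by ring] at this
        nlinarith [norm_nonneg (c - 1)]
      have b4 : (‖z‖ + 1) ^ 4 * (1 / ‖1 + z - c‖) ^ 4 ≤ (2 + ‖c - 1‖) ^ 4 := by
        rw [← mul_pow]
        refine pow_le_pow_left₀ (by positivity) ?_ 4
        rw [mul_one_div, div_le_iff₀ hgz0]
        linarith
      calc ‖(Zt z ^ 2 * A z - (z - 1) ^ 2 * Q z) / z ^ 2‖ * N ^ (z.re - 1 / 2) * (1 / ‖1 + z - c‖) ^ (2 * M) ≤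
          (4 * (9 * CA + C1) * (‖z‖ + 1) ^ 4) * N ^ 2 * (1 / ‖1 + z - c‖) ^ 4 := by gcongr
        _ = 4 * (9 * CA + C1) * ((‖z‖ + 1) ^ 4 * (1 / ‖1 + z - c‖) ^ 4) * N ^ 2 := by ring
        _ ≤ 4 * (9 * CA + C1) * (2 + ‖c - 1‖) ^ 4 * N ^ 2 := by gcongr
        _ ≤ B := by linarith
    · have hz1 : z ≠ 1 := by
        rintro rfl; norm_num at h2
      rw [hZt z hz0 hz1, norm_mul, norm_pow]
      have b1 : ‖(z - 1) / z‖ ≤ 1 := by
        rw [norm_div, div_le_one (by linarith)]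
        have e1 : ‖z - 1‖ ^ 2 ≤ ‖z‖ ^ 2 := by
          rw [Complex.sq_norm, Complex.sq_norm, Complex.normSq_apply, Complex.normSq_apply]
          simp
          nlinarith
        exact (abs_le_of_sq_le_sq' e1 (norm_nonneg _)).2
      have b1' : ‖(z - 1) / z‖ ^ 2 ≤ 1 := pow_le_one₀ (norm_nonneg _) b1
      have b2 : N ^ (z.re - 1 / 2) ≤ N ^ z.re := Real.rpow_le_rpow_of_exponent_le hN (by linarith)
      have b3 : (1 / ‖1 + z - c‖) ^ (2 * M) ≤ 1 := by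
        refine pow_le_one₀ (by positivity) ?_
        rw [div_le_one hgz0]; exact hgz
      calc ‖(z - 1) / z‖ ^ 2 * ‖riemannZeta z ^ 2 * A z - Q z‖ * N ^ (z.re - 1 / 2) * (1 / ‖1 + z - c‖) ^ (2 * M) ≤
          1 * ‖riemannZeta z ^ 2 * A z - Q z‖ * N ^ z.re * 1 := by gcongr
        _ = ‖riemannZeta z ^ 2 * A z - Q z‖ * N ^ z.re := by ring
        _ ≤ C2 := hQ2 z h2
        _ ≤ B := by
          have : 0 ≤ 4 * (9 * CA + C1) * (2 + ‖c - 1‖) ^ 4 * N ^ 2 := by positivity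
          linarith
  have hmain := hp_ineq (F := F) (b := 1 / 2) (t := t) (C := B) h0 hp ?_ ?_ ?_
  · have e1 : (((1 / 2 : ℝ) : ℂ) + Δ + t * I) = (((1 / 2 + Δ : ℝ) : ℂ) + t * I) := by push_cast; ring
    have hz1 : (((1 / 2 : ℝ) : ℂ) + Δ + t * I) ≠ 1 := by
      intro h
      have := congrArg Complex.re h
      simp at this
      linarith
    have hre : (((1 / 2 : ℝ) : ℂ) + Δ + t * I).re = 1 / 2 + Δ := by simp
    have hlow : ((1 - 8 * Δ) ^ 2 * N ^ Δ / (1 + Δ) ^ (2 * M)) *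
        ‖riemannZeta (((1 / 2 + Δ : ℝ) : ℂ) + t * I) ^ 2 * A (((1 / 2 + Δ : ℝ) : ℂ) + t * I) -
          Q (((1 / 2 + Δ : ℝ) : ℂ) + t * I)‖ ≤
        ‖F (((1 / 2 : ℝ) : ℂ) + Δ + t * I)‖ := by
      rw [hFn, hZt _ (by rw [hre]; linarith) hz1, norm_mul, norm_pow, hre, ← e1]
      have h3 := norm_ratio_ge (t := t) h0.le (by linarith : 8 * Δ ≤ 1)
      have h3' := pow_le_pow_left₀ (by linarith) h3 2
      have e2 : ‖1 + (((1 / 2 : ℝ) : ℂ) + Δ + t * I) - c‖ = 1 + Δ := by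
        rw [hc, show 1 + (((1 / 2 : ℝ) : ℂ) + Δ + t * I) - (((1 / 2 : ℝ) : ℂ) + t * I) =
          ((1 + Δ : ℝ) : ℂ) by push_cast; ring, Complex.norm_real, Real.norm_of_nonneg (by linarith)]
      rw [e2, show (1 / 2 + Δ - 1 / 2) = Δ by ring, one_div (1 + Δ), inv_pow]
      set X := ‖riemannZeta (((1 / 2 : ℝ) : ℂ) + Δ + t * I) ^ 2 * A (((1 / 2 : ℝ) : ℂ) + Δ + t * I) -
        Q (((1 / 2 : ℝ) : ℂ) + Δ + t * I)‖ with hXd
      have hX : 0 ≤ X := norm_nonneg _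
      have hY : 0 ≤ N ^ Δ * ((1 + Δ) ^ (2 * M))⁻¹ := by positivity
      calc ((1 - 8 * Δ) ^ 2 * N ^ Δ / (1 + Δ) ^ (2 * M)) * X =
            (1 - 8 * Δ) ^ 2 * (X * (N ^ Δ * ((1 + Δ) ^ (2 * M))⁻¹)) := by
              rw [div_eq_mul_inv]; ring
        _ ≤ ‖(((1 / 2 : ℝ) : ℂ) + Δ + t * I - 1) / (((1 / 2 : ℝ) : ℂ) + Δ + t * I)‖ ^ 2 *
            (X * (N ^ Δ * ((1 + Δ) ^ (2 * M))⁻¹)) :=
              mul_le_mul_of_nonneg_right h3' (mul_nonneg hX hY)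
        _ = _ := by ring
    have hlow2 : 0 ≤ (1 - 8 * Δ) ^ 2 * N ^ Δ / (1 + Δ) ^ (2 * M) := by positivity
    rw [← Real.mul_rpow hlow2 (norm_nonneg _)]
    refine (Real.rpow_le_rpow (mul_nonneg hlow2 (norm_nonneg _)) hlow hp.le).trans ?_
    refine hmain.trans (le_of_eq ?_)
    refine integral_congr_ae (Filter.Eventually.of_forall fun w => ?_)
    beta_reduce
    have r1 : (((1 / 2 : ℝ) : ℂ) + ((t + w : ℝ) : ℂ) * I).re = 1 / 2 := by simp
    have hz2 : (((1 / 2 : ℝ) : ℂ) + ((t + w : ℝ) : ℂ) * I) ≠ 1 := by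
      intro h
      have := congrArg Complex.re h
      rw [r1] at this
      norm_num at this
    rw [hFn, hZt _ (by rw [r1]; norm_num) hz2, norm_mul, norm_pow, r1,
      norm_ratio_half, sub_self, Real.rpow_zero, mul_one, one_pow, one_mul]
    have e3 : ‖1 + (((1 / 2 : ℝ) : ℂ) + ((t + w : ℝ) : ℂ) * I) - c‖ ^ 2 = 1 + w ^ 2 := by
      rw [hc, show 1 + (((1 / 2 : ℝ) : ℂ) + ((t + w : ℝ) : ℂ) * I) - (((1 / 2 : ℝ) : ℂ) + t * I) =
        1 + (w : ℂ) * I by push_cast; ring, Complex.sq_norm, Complex.normSq_apply]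
      simp
      ring
    have h4 : 0 < 1 + w ^ 2 := by positivity
    have e5 : (1 / ‖1 + (((1 / 2 : ℝ) : ℂ) + ((t + w : ℝ) : ℂ) * I) - c‖) ^ 2 = (1 + w ^ 2)⁻¹ := by
      rw [div_pow, one_pow, e3, one_div]
    rw [pow_mul, e5, Real.mul_rpow (norm_nonneg _) (by positivity)]
    have e4 : (((1 + w ^ 2)⁻¹) ^ M : ℝ) ^ p = (1 + w ^ 2) ^ (-(M * p)) := by
      rw [← Real.rpow_natCast, Real.inv_rpow h4.le, ← Real.rpow_neg h4.le, ← Real.rpow_mul h4.le]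
      congr 1; ring
    rw [e4]
    ring
  · intro z hz
    have hz' : (1:ℝ) / 2 < z.re := hz
    exact (hFd z (by linarith)).differentiableWithinAt
  · intro z hz
    have hz' : (1:ℝ) / 2 ≤ z.re := hz
    exact (hFd z (by linarith)).continuousAt.continuousWithinAt
  · intro z hz
    have hz' : (1:ℝ) / 2 < z.re := hz
    exact hb z hz'.le

/-- `|ζ^2 A - Q|^2` on the line `Re s = σ` -/
noncomputable def qd2 (A Q : ℂ → ℂ) (σ t : ℝ) : ℝ :=
  ‖riemannZeta ((σ : ℂ) + t * Complex.I) ^ 2 * A ((σ : ℂ) + t * Complex.I) - Q ((σ : ℂ) + t * Complex.I)‖ ^ 2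

lemma qd2_nonneg (A Q : ℂ → ℂ) (σ t : ℝ) : 0 ≤ qd2 A Q σ t := by unfold qd2; positivity

lemma qd2_cont {A Q : ℂ → ℂ} (hA : Differentiable ℂ A) (hQ : Differentiable ℂ Q) {σ : ℝ}
    (hσ : σ < 1) : Continuous (qd2 A Q σ) := by
  unfold qd2
  have h1 : Continuous fun t : ℝ => (σ : ℂ) + t * Complex.I := by fun_prop
  exact (((((zeta_cont hσ).pow 2).mul (hA.continuous.comp h1)).sub (hQ.continuous.comp h1)).norm).pow 2

/-- integrated form over a window -/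
theorem hp_win4 {Q A : ℂ → ℂ} {N C1 C2 CA Δ a b U B : ℝ} (hN : 1 ≤ N)
    (hAd : Differentiable ℂ A) (hA : ∀ z : ℂ, 1 / 2 ≤ z.re → ‖A z‖ ≤ CA)
    (hQd : Differentiable ℂ Q) (hQ1 : ∀ z : ℂ, 1 / 2 ≤ z.re → ‖Q z‖ ≤ C1)
    (hQ2 : ∀ z : ℂ, 2 ≤ z.re → ‖riemannZeta z ^ 2 * A z - Q z‖ * N ^ z.re ≤ C2)
    (h0 : 0 < Δ) (h1 : Δ ≤ 1 / 8) (ha : 0 ≤ a) (hab : a ≤ b) (hU : 1 ≤ U) (hB : 0 ≤ B)
    (hGB : ∀ x, qd2 A Q (1 / 2) x ≤ B * (1 + x ^ 2) ^ 2) :
    ((1 - 8 * Δ) ^ 2 * N ^ Δ / (1 + Δ) ^ 16) ^ 2 * ∫ t in a..b, qd2 A Q (1 / 2 + Δ) t ≤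
      (∫ t in (a - U)..(b + U), qd2 A Q (1 / 2) t) +
      (b - a) * (4 * B * (1 + b ^ 2) ^ 2) * (Real.pi * (1 / Δ) * (U ^ 26)⁻¹) := by
  set K : ℝ → ℝ := fun w => KP Δ w * (1 + w ^ 2) ^ (-(16:ℝ)) with hKe
  have hKc : Continuous K := by
    rw [hKe]
    refine (KP_cont h0).mul ?_
    refine Continuous.rpow_const (by fun_prop) fun w => Or.inl ?_
    positivity
  have hpw : ∀ w : ℝ, (1 + w ^ 2) ^ (-(16:ℝ)) ≤ 1 := fun w =>
    Real.rpow_le_one_of_one_le_of_nonpos (by nlinarith [sq_nonneg w]) (by norm_num)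
  have hK0 : ∀ w, 0 ≤ K w := by
    intro w
    rw [hKe]
    exact mul_nonneg (KP_nonneg h0 w) (by positivity)
  have hKb : ∀ w, K w ≤ (1 / Δ) * (1 + w ^ 2) ^ (-(16:ℝ)) := by
    intro w
    rw [hKe]
    exact mul_le_mul_of_nonneg_right (KP_le h0 w) (by positivity)
  obtain ⟨i1, -, -⟩ := tail_int (A := 1 / Δ) (U := U) (by positivity) hU hKc hK0 hKb
  obtain ⟨i2, i3⟩ := tail_int3 (A := 1 / Δ) (U := U) (by positivity) hU hKc hK0 hKb
  have hKm : ∫ w, K w ≤ 1 := by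
    obtain ⟨j1, j2⟩ := KP_int h0
    rw [← j2]
    refine integral_mono i1 j1 fun w => ?_
    rw [hKe]
    exact mul_le_of_le_one_right (KP_nonneg h0 w) (hpw w)
  have hc0 := qd2_cont hAd hQd (σ := 1 / 2) (by norm_num)
  have hc1 := qd2_cont hAd hQd (σ := 1 / 2 + Δ) (by linarith)
  set fac : ℝ := ((1 - 8 * Δ) ^ 2 * N ^ Δ / (1 + Δ) ^ 16) ^ 2 with hfac
  have hpt : ∀ t ∈ Set.Icc a b, fac * qd2 A Q (1 / 2 + Δ) t ≤ ∫ w, K w * qd2 A Q (1 / 2) (t + w) := by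
    intro t _
    have h2 := half_pt4 (t := t) (M := 8) (p := 2) (by norm_num) hN (by norm_num) hAd hA hQd hQ1 hQ2 h0 h1
    have e1 : ((8:ℕ):ℝ) * 2 = 16 := by norm_num
    simp only [Real.rpow_two, e1, Nat.reduceMul] at h2
    exact h2
  have hGB' : ∀ t ∈ Set.Icc a b, ∀ w, qd2 A Q (1 / 2) (t + w) ≤ (4 * B * (1 + b ^ 2) ^ 2) * (1 + w ^ 2) ^ 2 := by
    intro t ht w
    refine (hGB (t + w)).trans ?_
    have h2 : t ^ 2 ≤ b ^ 2 := pow_le_pow_left₀ (ha.trans ht.1) ht.2 2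
    have h3 : 1 + (t + w) ^ 2 ≤ 2 * (1 + b ^ 2) * (1 + w ^ 2) := by
      nlinarith [sq_nonneg (t - w), sq_nonneg w, mul_nonneg (sq_nonneg b) (sq_nonneg w)]
    have h4 := pow_le_pow_left₀ (by positivity) h3 2
    calc B * (1 + (t + w) ^ 2) ^ 2 ≤ B * (2 * (1 + b ^ 2) * (1 + w ^ 2)) ^ 2 := mul_le_mul_of_nonneg_left h4 hB
      _ = _ := by ring
  have hmain := avg_leG (K := K) (G := fun x => qd2 A Q (1 / 2) x) (H := fun t => fac * qd2 A Q (1 / 2 + Δ) t)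
    (φ := fun w => (1 + w ^ 2) ^ 2)
    (a := a) (b := b) (U := U) (D := 4 * B * (1 + b ^ 2) ^ 2) hab (by linarith) hKc hK0 i2 i1
    hc0 (fun x => qd2_nonneg _ _ _ _) hGB'
    (continuous_const.mul hc1) hpt
  rw [intervalIntegral.integral_const_mul] at hmain
  refine hmain.trans (add_le_add ?_ (mul_le_mul_of_nonneg_left i3 ?_))
  · have hE0 : 0 ≤ ∫ t in (a - U)..(b + U), qd2 A Q (1 / 2) t :=
      intervalIntegral.integral_nonneg (by linarith) fun x _ => qd2_nonneg _ _ _ _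
    exact mul_le_of_le_one_left hE0 hKm
  · have : 0 ≤ b - a := by linarith
    positivity

end Pool.Agent.Y755
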