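import Pool.Agent.Y755.Par
import Pool.Agent.Y755.HPl

set_option autoImplicit false

/-! The difference off the line is small on average. -/

namespace Pool.Agent.Y755

open Finset Filter MeasureTheory
open Pool.Agent.W184.NZ
open Pool.Agent.H306R2.SM (om cl Yf)
open Pool.Agent.H262R4.TM (Rng Ck)
open Pool.Agent.W184 (zn zn_nonneg zn_cont zn_le')

lemma fac_ge {N Δ : ℝ} (hN : 1 ≤ N) (h0 : 0 ≤ Δ) (h1 : Δ ≤ 1 / 16) :
    N ^ (2 * Δ) / 32 ≤ ((1 - 8 * Δ) * N ^ Δ / (1 + Δ) ^ 16) ^ 2 := by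
  have h2 : (1 + Δ) ^ 16 ≤ 2.64 := by
    calc (1 + Δ) ^ 16 ≤ (1 + 1 / 16 : ℝ) ^ 16 := by gcongr
      _ ≤ 2.64 := by norm_num
  have h3 : 0 < (1 + Δ) ^ 16 := by positivity
  have h4 : N ^ (2 * Δ) = (N ^ Δ) ^ 2 := by
    rw [← Real.rpow_natCast, ← Real.rpow_mul (by linarith)]; congr 1; push_cast; ring
  have h5 : 0 ≤ N ^ Δ := by positivity
  have h6 : (0.18:ℝ) * N ^ Δ ≤ (1 - 8 * Δ) * N ^ Δ / (1 + Δ) ^ 16 := by
    rw [le_div_iff₀ h3]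
    calc 0.18 * N ^ Δ * (1 + Δ) ^ 16 ≤ 0.18 * N ^ Δ * 2.64 := by gcongr
      _ ≤ (1 / 2) * N ^ Δ := by nlinarith
      _ ≤ (1 - 8 * Δ) * N ^ Δ := mul_le_mul_of_nonneg_right (by linarith) h5
  have h7 := pow_le_pow_left₀ (by positivity) h6 2
  rw [h4]
  nlinarith [sq_nonneg (N ^ Δ)]

lemma es_cont (σ : ℝ) {M : ℝ} {f : P1} (hf : Bd1 M f) : Continuous fun t : ℝ => es ((σ:ℂ) + t * Complex.I) f :=
  (es_diff hf).continuous.comp (by fun_prop)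

lemma zeta_cl_le (x : ℝ) : ‖riemannZeta (((1 / 2 : ℝ) : ℂ) + x * Complex.I)‖ ^ 2 ≤ 288 * (1 + x ^ 2) := by
  have hz := zn_le' (σ := 1 / 2) (t := x) (by norm_num) (by norm_num)
  have h0 := zn_nonneg (1 / 2) x
  have e : zn (1 / 2) x = ‖riemannZeta (((1 / 2 : ℝ) : ℂ) + x * Complex.I)‖ := rfl
  rw [e] at hz h0
  have h1 := pow_le_pow_left₀ h0 hz 2
  have h2 : (12 * (1 + |x|)) ^ 2 ≤ 288 * (1 + x ^ 2) := by
    rw [← sq_abs x]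
    nlinarith [sq_nonneg (|x| - 1), abs_nonneg x]
  exact h1.trans h2

lemma err_arith {B T X Y W p D : ℝ} (hT : 0 < T) (hB : 0 ≤ B) (hX0 : 0 ≤ X) (hY0 : 0 ≤ Y) (hW0 : 0 ≤ W)
    (hp0 : 0 ≤ p) (hD0 : 0 ≤ D) (hX : X ≤ T) (hY : Y ≤ 2 * T ^ 2) (hW : W ≤ 2 * T ^ 2) (hD : D ≤ T)
    (hp : p ≤ 63 / 20) : X * (2 * (2 * B * Y) * W) * (p * D * (T ^ 7)⁻¹) ≤ 51 * B / T := by
  have h1 : X * (Y * W) ≤ T * ((2 * T ^ 2) * (2 * T ^ 2)) := by gcongr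
  have h2 : p * D ≤ 63 / 20 * T := by gcongr
  have h3 : (X * (Y * W)) * (p * D) ≤ (T * ((2 * T ^ 2) * (2 * T ^ 2))) * (63 / 20 * T) :=
    mul_le_mul h1 h2 (by positivity) (by positivity)
  have h4 : (T ^ 7)⁻¹ * T ^ 6 = 1 / T := by field_simp
  have h5 : 0 ≤ (T ^ 7)⁻¹ := by positivity
  calc X * (2 * (2 * B * Y) * W) * (p * D * (T ^ 7)⁻¹) = 4 * B * ((X * (Y * W)) * (p * D)) * (T ^ 7)⁻¹ := by ring
    _ ≤ 4 * B * ((T * ((2 * T ^ 2) * (2 * T ^ 2))) * (63 / 20 * T)) * (T ^ 7)⁻¹ := by gcongr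
    _ = 252 / 5 * B * ((T ^ 7)⁻¹ * T ^ 6) := by ring
    _ = 252 / 5 * B * (1 / T) := by rw [h4]
    _ ≤ 51 * B * (1 / T) := by gcongr; norm_num
    _ = 51 * B / T := by ring

lemma qd_growth {f : P1} {M : ℝ} (hf : Bd1 M f) (N : ℕ) : ∀ x, qd (fun s => es s f) (fun s => es s (Dt N f)) (1 / 2) x ≤
    576 * ((1 + (N:ℝ) ^ 2) * l1' f ^ 2) * (1 + x ^ 2) := by
  have hD := Dt_Bd (N := N) hf
  have hDl := Dt_l1 N f
  have hl0 := l1'_nonneg f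
  intro x
  unfold qd
  set s : ℂ := ((1 / 2 : ℝ) : ℂ) + x * Complex.I with hs
  have hs0 : 0 ≤ s.re := by
    have : s.re = 1 / 2 := by rw [hs]; simp
    rw [this]; norm_num
  have a1 := es_norm_le hs0 hf
  have a2 := (es_norm_le hs0 hD).trans hDl
  have a3 : ‖riemannZeta s * es s f - es s (Dt N f)‖ ^ 2 ≤
      2 * (‖riemannZeta s‖ ^ 2 * ‖es s f‖ ^ 2) + 2 * ‖es s (Dt N f)‖ ^ 2 := by
    have a4 := norm_sub_le (riemannZeta s * es s f) (es s (Dt N f))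
    rw [norm_mul] at a4
    have a5 := pow_le_pow_left₀ (norm_nonneg _) a4 2
    refine a5.trans ?_
    nlinarith [sq_nonneg (‖riemannZeta s‖ * ‖es s f‖ - ‖es s (Dt N f)‖)]
  refine a3.trans ?_
  have a6 := zeta_cl_le x
  rw [← hs] at a6
  have a7 := pow_le_pow_left₀ (norm_nonneg _) a1 2
  have a8 := pow_le_pow_left₀ (norm_nonneg _) a2 2
  have a9 : ‖riemannZeta s‖ ^ 2 * ‖es s f‖ ^ 2 ≤ 288 * (1 + x ^ 2) * l1' f ^ 2 :=
    mul_le_mul a6 a7 (by positivity) (by positivity)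
  rw [mul_pow] at a8
  have a10 : 2 * ((N:ℝ) ^ 2 * l1' f ^ 2) ≤ 576 * ((N:ℝ) ^ 2 * l1' f ^ 2) * (1 + x ^ 2) := by
    have : 0 ≤ (N:ℝ) ^ 2 * l1' f ^ 2 := by positivity
    nlinarith [mul_nonneg this (sq_nonneg x)]
  nlinarith

/-- one polynomial -/
lemma hp_one {f : P1} {N : ℕ} {M T δ : ℝ} (hN : 1 ≤ N) (hf : Bd1 M f) (hT : 10 ^ 10 ≤ T) (hL : 1 / Real.log T ≤ δ)
    (hδ : δ ≤ 1 / 16) (hab : T ^ ((4:ℝ)/5) ≤ T / 2) (hU1 : T ^ ((3:ℝ)/4) ≤ T ^ ((4:ℝ)/5) - T ^ ((1:ℝ)/4))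
    (hU2 : T / 2 + T ^ ((1:ℝ)/4) ≤ T) :
    ∫ t in (T ^ ((4:ℝ)/5))..(T / 2), qd (fun s => es s f) (fun s => es s (Dt N f)) (1 / 2 + δ) t ≤
      32 * (N:ℝ) ^ (-(2 * δ)) * ((∫ t in (T ^ ((3:ℝ)/4))..T, qd (fun s => es s f) (fun s => es s (Dt N f)) (1 / 2) t) +
        30000 * ((1 + (N:ℝ) ^ 2) * l1' f ^ 2) / T) := by
  have hT0 : 0 < T := by linarith
  have hT1 : 1 ≤ T := by linarith
  have hL0 : 0 < Real.log T := Real.log_pos (by linarith)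
  have hδ0 : 0 < δ := lt_of_lt_of_le (by positivity) hL
  have hN1 : (1:ℝ) ≤ N := by exact_mod_cast hN
  have hD := Dt_Bd (N := N) hf
  have hDl := Dt_l1 N f
  have hl0 := l1'_nonneg f
  obtain ⟨C2, hC2⟩ := Dt_far hN hf
  set B : ℝ := 576 * ((1 + (N:ℝ) ^ 2) * l1' f ^ 2) with hB
  have hB0 : 0 ≤ B := by positivity
  have hGB := qd_growth hf N
  rw [← hB] at hGB
  have hm := hp_win (Q := fun s => es s (Dt N f)) (A := fun s => es s f) (N := N) (C1 := l1' (Dt N f)) (C2 := C2)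
    (CA := l1' f) (Δ := δ) (a := T ^ ((4:ℝ)/5)) (b := T / 2) (U := T ^ ((1:ℝ)/4)) (B := B) hN1 (es_diff hf)
    (fun z hz => es_norm_le (by linarith) hf) (es_diff hD) (fun z hz => es_norm_le (by linarith) hD) hC2
    hδ0 (by linarith) hab (Real.one_le_rpow hT1 (by norm_num)) hB0 hGB
  have hfac := fac_ge hN1 hδ0.le hδ
  have hI0 : 0 ≤ ∫ t in (T ^ ((4:ℝ)/5))..(T / 2), qd (fun s => es s f) (fun s => es s (Dt N f)) (1 / 2 + δ) t :=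
    intervalIntegral.integral_nonneg hab fun x _ => qd_nonneg _ _ _ _
  have h1 := (mul_le_mul_of_nonneg_right hfac hI0).trans hm
  have hc0 := qd_cont (es_diff hf) (es_diff hD) (σ := 1 / 2) (by norm_num)
  have h2 : ∫ t in (T ^ ((4:ℝ)/5) - T ^ ((1:ℝ)/4))..(T / 2 + T ^ ((1:ℝ)/4)),
      qd (fun s => es s f) (fun s => es s (Dt N f)) (1 / 2) t ≤
      ∫ t in (T ^ ((3:ℝ)/4))..T, qd (fun s => es s f) (fun s => es s (Dt N f)) (1 / 2) t := by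
    refine intervalIntegral.integral_mono_interval hU1 ?_ hU2
      (Filter.Eventually.of_forall fun t => qd_nonneg _ _ _ _) (hc0.intervalIntegrable _ _)
    have : 0 ≤ T ^ ((1:ℝ)/4) := by positivity
    linarith
  have h3 : (T / 2 - T ^ ((4:ℝ)/5)) * (2 * (2 * B * (1 + (T ^ ((4:ℝ)/5)) ^ 2)) * (1 + (T / 2 - T ^ ((4:ℝ)/5)) ^ 2)) *
      (Real.pi * (1 / δ) * ((T ^ ((1:ℝ)/4)) ^ 28)⁻¹) ≤ 30000 * ((1 + (N:ℝ) ^ 2) * l1' f ^ 2) / T := by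
    have b0 : 0 ≤ T ^ ((4:ℝ)/5) := by positivity
    have b1 : T ^ ((4:ℝ)/5) ≤ T := by linarith
    have b2 : T / 2 - T ^ ((4:ℝ)/5) ≤ T := by linarith
    have b2' : 0 ≤ T / 2 - T ^ ((4:ℝ)/5) := by linarith
    have b3 : 1 + (T ^ ((4:ℝ)/5)) ^ 2 ≤ 2 * T ^ 2 := by nlinarith
    have b4 : 1 + (T / 2 - T ^ ((4:ℝ)/5)) ^ 2 ≤ 2 * T ^ 2 := by nlinarith
    have b5 : (T ^ ((1:ℝ)/4)) ^ 28 = T ^ 7 := by
      rw [← Real.rpow_natCast, ← Real.rpow_mul hT0.le, ← Real.rpow_natCast]; congr 1; norm_num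
    have b6 : 1 / δ ≤ T := by
      have c1 : 1 / δ ≤ Real.log T := by
        rw [div_le_iff₀ hδ0, ← div_le_iff₀' hL0]; exact hL
      have c2 := Real.log_le_sub_one_of_pos hT0
      linarith
    have b7 : Real.pi ≤ 63 / 20 := by have := Real.pi_lt_d2; linarith
    rw [b5]
    refine (err_arith hT0 hB0 b2' (by positivity) (by positivity) Real.pi_pos.le (by positivity) b2 b3 b4 b6 b7).trans ?_
    rw [hB]
    refine div_le_div_of_nonneg_right ?_ hT0.le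
    have : 0 ≤ (1 + (N:ℝ) ^ 2) * l1' f ^ 2 := by positivity
    linarith
  have h4 := h1.trans (add_le_add h2 h3)
  have h5 : (N:ℝ) ^ (2 * δ) * (N:ℝ) ^ (-(2 * δ)) = 1 := by
    rw [← Real.rpow_add (by linarith)]; simp
  have h6 : 0 < (N:ℝ) ^ (-(2 * δ)) := Real.rpow_pos_of_pos (by linarith) _
  have h7 := mul_le_mul_of_nonneg_left h4 (by positivity : 0 ≤ 32 * (N:ℝ) ^ (-(2 * δ)))
  refine le_trans (le_of_eq ?_) h7
  have : ∀ I : ℝ, I = 32 * (N:ℝ) ^ (-(2 * δ)) * ((N:ℝ) ^ (2 * δ) / 32 * I) := by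
    intro I
    calc I = ((N:ℝ) ^ (2 * δ) * (N:ℝ) ^ (-(2 * δ))) * I := by rw [h5, one_mul]
      _ = _ := by ring
  exact this _

end Pool.Agent.Y755
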