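import Pool.Agent.Y755.Hpa

set_option autoImplicit false

/-! The difference off the line is small on average: the sum over all polynomials. -/

namespace Pool.Agent.Y755

open Finset Filter MeasureTheory
open Pool.Agent.W184.NZ
open Pool.Agent.H306R2.SM (om cl Yf)
open Pool.Agent.H262R4.TM (Rng Ck)

section

variable {c y δ a : ℝ} {z J Rs N K : ℕ} {A0 : P1} {m : ℝ}

lemma Sy.y1 (h : Sy c z y J Rs N K) : 1 ≤ y := by
  have h1 : (1000:ℝ) ≤ z := by exact_mod_cast h.z1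
  have h2 := h.zy
  linarith

lemma Bz_Bd (h : Sy c z y J Rs N K) (S : Finset ℕ) :
    Bd1 (Real.exp (Real.log y * (80 * ((Rs:ℝ) + 1)))) (Bz a z y J Rs S) := BS_Bd h.y1 h.rg S

lemma PB_Bd (h : Sy c z y J Rs N K) (hA : Bd1 m A0) (S : Finset ℕ) :
    Bd1 ((z:ℝ) ^ (S0 z).card * m * Real.exp (Real.log y * (80 * ((Rs:ℝ) + 1)))) (Pz z * A0 * Bz a z y J Rs S) :=
  ((Pz_Bd z).mul hA).mul (Bz_Bd h S)

lemma Bz_l1 (h : Sy c z y J Rs N K) (ha : |a| ≤ 2) :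
    ∑ S ∈ (range J).powerset, l1' (Bz a z y J Rs S) ^ 2 ≤ Real.exp (Real.log y * (180 * ((Rs:ℝ) + 1))) :=
  BS_l1 h.y1 h.rg h.R1 ha

lemma sum_Bz (δ a : ℝ) (z : ℕ) (y : ℝ) (J Rs : ℕ) (t : ℝ) :
    ∑ S ∈ (range J).powerset, ‖es (1 / 2 + δ + t * Complex.I) (Bz a z y J Rs S)‖ ^ 2 =
      gpd δ J a (RR Rs) (IZ z y) t := sum_BS δ J a (RR Rs) (IZ z y) t

lemma gpd_cont (h : Sy c z y J Rs N K) (δ a : ℝ) : Continuous fun t => gpd δ J a (RR Rs) (IZ z y) t := by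
  simp_rw [← sum_Bz]
  refine continuous_finsetSum _ fun S _ => ((((es_diff (Bz_Bd (a := a) h S)).continuous.comp ?_)).norm.pow 2)
  fun_prop

lemma PB_l1 (h : Sy c z y J Rs N K) (ha : |a| ≤ 2) :
    ∑ S ∈ (range J).powerset, l1' (Pz z * A0 * Bz a z y J Rs S) ^ 2 ≤
      l1' (Pz z * A0) ^ 2 * Real.exp (Real.log y * (180 * ((Rs:ℝ) + 1))) := by
  have h1 : ∀ S ∈ (range J).powerset, l1' (Pz z * A0 * Bz a z y J Rs S) ^ 2 ≤
      l1' (Pz z * A0) ^ 2 * l1' (Bz a z y J Rs S) ^ 2 := by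
    intro S _
    rw [← mul_pow]
    exact pow_le_pow_left₀ (l1'_nonneg _) (l1'_mul _ _) 2
  refine (sum_le_sum h1).trans ?_
  rw [← mul_sum]
  exact mul_le_mul_of_nonneg_left (Bz_l1 h ha) (sq_nonneg _)

lemma DS_l1 (h : Sy c z y J Rs N K) (ha : |a| ≤ 2) :
    ∑ S ∈ (range J).powerset, l1' (DS N a z y J Rs A0 S) ^ 2 ≤
      (N:ℝ) ^ 2 * (l1' (Pz z * A0) ^ 2 * Real.exp (Real.log y * (180 * ((Rs:ℝ) + 1)))) := by
  have h1 : ∀ S ∈ (range J).powerset, l1' (DS N a z y J Rs A0 S) ^ 2 ≤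
      (N:ℝ) ^ 2 * l1' (Pz z * A0 * Bz a z y J Rs S) ^ 2 := by
    intro S _
    rw [← mul_pow]
    exact pow_le_pow_left₀ (l1'_nonneg _) (Dt_l1 _ _) 2
  refine (sum_le_sum h1).trans ?_
  rw [← mul_sum]
  exact mul_le_mul_of_nonneg_left (PB_l1 h ha) (sq_nonneg _)

lemma DS_Bd (h : Sy c z y J Rs N K) (hA : Bd1 m A0) (S : Finset ℕ) : Bd1 N (DS N a z y J Rs A0 S) :=
  Dt_Bd (PB_Bd h hA S)

/-- the polynomials, integrated -/
lemma DS_int (h : Sy c z y J Rs N K) (hA : Bd1 m A0) (ha : |a| ≤ 2) (hδ : 0 ≤ δ) (T : ℝ) :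
    ∑ S ∈ (range J).powerset, ∫ t in (0:ℝ)..T, ‖es (1 / 2 + δ + t * Complex.I) (DS N a z y J Rs A0 S)‖ ^ 2 ≤
      T * (∑ S ∈ (range J).powerset, ip δ (DS N a z y J Rs A0 S) (DS N a z y J Rs A0 S)) +
      2 * (N:ℝ) ^ 3 * (l1' (Pz z * A0) ^ 2 * Real.exp (Real.log y * (180 * ((Rs:ℝ) + 1)))) := by
  have h1 : ∀ S ∈ (range J).powerset, ∫ t in (0:ℝ)..T, ‖es (1 / 2 + δ + t * Complex.I) (DS N a z y J Rs A0 S)‖ ^ 2 ≤
      T * ip δ (DS N a z y J Rs A0 S) (DS N a z y J Rs A0 S) + 2 * N * l1' (DS N a z y J Rs A0 S) ^ 2 := by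
    intro S _
    have := (abs_le.mp (mvt hδ (DS_Bd (a := a) h hA S) T)).2
    linarith
  refine (sum_le_sum h1).trans ?_
  rw [sum_add_distrib, ← mul_sum, ← mul_sum]
  have h2 := mul_le_mul_of_nonneg_left (DS_l1 (A0 := A0) h ha) (by positivity : (0:ℝ) ≤ 2 * N)
  linarith

/-- on the line, the integrand -/
lemma qd_line (f D : P1) (t : ℝ) : qd (fun s => es s f) (fun s => es s D) (1 / 2) t ≤
    2 * (‖riemannZeta (cl t)‖ ^ 2 * ‖es (1 / 2 + (0:ℝ) + t * Complex.I) f‖ ^ 2) +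
      2 * ‖es (1 / 2 + (0:ℝ) + t * Complex.I) D‖ ^ 2 := by
  have e1 : (((1 / 2 : ℝ) : ℂ) + t * Complex.I) = 1 / 2 + ((0:ℝ):ℂ) + t * Complex.I := by push_cast; ring
  have e2 : cl t = 1 / 2 + ((0:ℝ):ℂ) + t * Complex.I := by unfold cl; push_cast; ring
  unfold qd
  rw [e1, e2]
  set s : ℂ := 1 / 2 + ((0:ℝ):ℂ) + t * Complex.I
  have a4 := norm_sub_le (riemannZeta s * es s f) (es s D)
  rw [norm_mul] at a4
  have a5 := pow_le_pow_left₀ (norm_nonneg _) a4 2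
  refine a5.trans ?_
  nlinarith [sq_nonneg (‖riemannZeta s‖ * ‖es s f‖ - ‖es s D‖)]

lemma half_re (δ t : ℝ) : (1 / 2 + (δ:ℂ) + t * Complex.I).re = 1 / 2 + δ := by simp

lemma qd_line_sum (h : Sy c z y J Rs N K) (hA : Bd1 m A0) (t : ℝ) :
    ∑ S ∈ (range J).powerset, qd (fun s => es s (Pz z * A0 * Bz a z y J Rs S)) (fun s => es s (DS N a z y J Rs A0 S)) (1 / 2) t ≤
    2 * l1' (Pz z * A0) ^ 2 * (‖riemannZeta (cl t)‖ ^ 2 * gp J a (RR Rs) (IZ z y) t) +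
      2 * ∑ S ∈ (range J).powerset, ‖es (1 / 2 + (0:ℝ) + t * Complex.I) (DS N a z y J Rs A0 S)‖ ^ 2 := by
  refine (sum_le_sum fun S _ => qd_line _ _ t).trans ?_
  rw [sum_add_distrib, ← gpd_zero, ← sum_Bz]
  refine add_le_add ?_ (le_of_eq (mul_sum _ _ _).symm)
  rw [← mul_sum]
  have h1 : ∀ S ∈ (range J).powerset, ‖riemannZeta (cl t)‖ ^ 2 *
      ‖es (1 / 2 + (0:ℝ) + t * Complex.I) (Pz z * A0 * Bz a z y J Rs S)‖ ^ 2 ≤
      l1' (Pz z * A0) ^ 2 * (‖riemannZeta (cl t)‖ ^ 2 * ‖es (1 / 2 + (0:ℝ) + t * Complex.I) (Bz a z y J Rs S)‖ ^ 2) := by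
    intro S _
    rw [map_mul, norm_mul, mul_pow]
    have h2 := es_norm_le (s := 1 / 2 + ((0:ℝ):ℂ) + t * Complex.I) (by rw [half_re]; norm_num) ((Pz_Bd z).mul hA)
    have h3 := pow_le_pow_left₀ (norm_nonneg _) h2 2
    have h4 : 0 ≤ ‖riemannZeta (cl t)‖ ^ 2 * ‖es (1 / 2 + (0:ℝ) + t * Complex.I) (Bz a z y J Rs S)‖ ^ 2 := by positivity
    nlinarith [mul_le_mul_of_nonneg_right h3 h4]
  have h5 := mul_le_mul_of_nonneg_left (sum_le_sum h1) (by norm_num : (0:ℝ) ≤ 2)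
  refine h5.trans (le_of_eq ?_)
  rw [← mul_sum, ← mul_sum]
  ring

lemma cl_cont_zeta : Continuous fun t : ℝ => ‖riemannZeta (cl t)‖ ^ 2 := by
  have h := zeta_cont (σ := 1 / 2) (by norm_num)
  have e : (fun t : ℝ => riemannZeta (((1 / 2 : ℝ) : ℂ) + t * Complex.I)) = fun t : ℝ => riemannZeta (cl t) := by
    funext t; congr 1; unfold cl; push_cast; ring
  rw [e] at h
  exact h.norm.pow 2

lemma es_cont0 (δ : ℝ) {M : ℝ} {f : P1} (hf : Bd1 M f) :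
    Continuous fun t : ℝ => ‖es (1 / 2 + δ + t * Complex.I) f‖ ^ 2 :=
  ((es_diff hf).continuous.comp (by fun_prop : Continuous fun t : ℝ => (1 / 2 + (δ:ℂ) + t * Complex.I))).norm.pow 2

/-- on the line, integrated -/
lemma line_int (h : Sy c z y J Rs N K) (hA : Bd1 m A0) (ha : |a| ≤ 2) {A T : ℝ} (hA0 : 0 ≤ A) (hAT : A ≤ T) :
    ∑ S ∈ (range J).powerset, ∫ t in A..T, qd (fun s => es s (Pz z * A0 * Bz a z y J Rs S))
      (fun s => es s (DS N a z y J Rs A0 S)) (1 / 2) t ≤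
    2 * l1' (Pz z * A0) ^ 2 * (∫ t in A..T, ‖riemannZeta (cl t)‖ ^ 2 * gp J a (RR Rs) (IZ z y) t) +
      2 * (T * (∑ S ∈ (range J).powerset, ip 0 (DS N a z y J Rs A0 S) (DS N a z y J Rs A0 S)) +
      2 * (N:ℝ) ^ 3 * (l1' (Pz z * A0) ^ 2 * Real.exp (Real.log y * (180 * ((Rs:ℝ) + 1))))) := by
  have hgc : Continuous fun t => gp J a (RR Rs) (IZ z y) t := by
    have := gpd_cont h 0 a
    simpa only [gpd_zero] using this
  have hDc : ∀ S, Continuous fun t : ℝ => ‖es (1 / 2 + (0:ℝ) + t * Complex.I) (DS N a z y J Rs A0 S)‖ ^ 2 :=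
    fun S => es_cont0 0 (DS_Bd h hA S)
  have hqc : ∀ S, Continuous fun t : ℝ => qd (fun s => es s (Pz z * A0 * Bz a z y J Rs S))
      (fun s => es s (DS N a z y J Rs A0 S)) (1 / 2) t := fun S =>
    qd_cont (es_diff (PB_Bd h hA S)) (es_diff (DS_Bd h hA S)) (by norm_num)
  rw [← intervalIntegral.integral_finsetSum fun S _ => (hqc S).intervalIntegrable _ _]
  have h1 : ∫ t in A..T, ∑ S ∈ (range J).powerset, qd (fun s => es s (Pz z * A0 * Bz a z y J Rs S))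
      (fun s => es s (DS N a z y J Rs A0 S)) (1 / 2) t ≤
      ∫ t in A..T, (2 * l1' (Pz z * A0) ^ 2 * (‖riemannZeta (cl t)‖ ^ 2 * gp J a (RR Rs) (IZ z y) t) +
      2 * ∑ S ∈ (range J).powerset, ‖es (1 / 2 + (0:ℝ) + t * Complex.I) (DS N a z y J Rs A0 S)‖ ^ 2) := by
    refine intervalIntegral.integral_mono_on hAT ?_ ?_ fun t _ => qd_line_sum h hA t
    · exact (continuous_finsetSum _ fun S _ => hqc S).intervalIntegrable _ _
    · exact ((continuous_const.mul (cl_cont_zeta.mul hgc)).add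
        (continuous_const.mul (continuous_finsetSum _ fun S _ => hDc S))).intervalIntegrable _ _
  refine h1.trans ?_
  rw [intervalIntegral.integral_add, intervalIntegral.integral_const_mul, intervalIntegral.integral_const_mul,
    intervalIntegral.integral_finsetSum fun S _ => (hDc S).intervalIntegrable _ _]
  · refine add_le_add le_rfl (mul_le_mul_of_nonneg_left ?_ (by norm_num))
    refine le_trans (sum_le_sum fun S _ => ?_) (DS_int h hA ha le_rfl T)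
    exact intervalIntegral.integral_mono_interval hA0 hAT le_rfl
      (Filter.Eventually.of_forall fun t => by positivity) ((hDc S).intervalIntegrable _ _)
  · exact (continuous_const.mul (cl_cont_zeta.mul hgc)).intervalIntegrable _ _
  · exact (continuous_const.mul (continuous_finsetSum _ fun S _ => hDc S)).intervalIntegrable _ _

end

end Pool.Agent.Y755
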