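import Pool.Agent.Y755.Hp4

set_option autoImplicit false

/-! The difference off the line for the square of zeta. -/

namespace Pool.Agent.Y755

open Finset Filter MeasureTheory
open Pool.Agent.W184.NZ
open Pool.Agent.H306R2.SM (om cl Yf)
open Pool.Agent.W184 (zn zn_nonneg zn_cont zn_le')

lemma fac_ge4 {N Δ : ℝ} (hN : 1 ≤ N) (h0 : 0 ≤ Δ) (h1 : Δ ≤ 1 / 16) :
    N ^ (2 * Δ) / 128 ≤ ((1 - 8 * Δ) ^ 2 * N ^ Δ / (1 + Δ) ^ 16) ^ 2 := by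
  have h2 : (1 + Δ) ^ 16 ≤ 2.64 := by
    calc (1 + Δ) ^ 16 ≤ (1 + 1 / 16 : ℝ) ^ 16 := by gcongr
      _ ≤ 2.64 := by norm_num
  have h3 : 0 < (1 + Δ) ^ 16 := by positivity
  have h4 : N ^ (2 * Δ) = (N ^ Δ) ^ 2 := by
    rw [← Real.rpow_natCast, ← Real.rpow_mul (by linarith)]; congr 1; push_cast; ring
  have h5 : 0 ≤ N ^ Δ := by positivity
  have h6 : (0.09:ℝ) * N ^ Δ ≤ (1 - 8 * Δ) ^ 2 * N ^ Δ / (1 + Δ) ^ 16 := by
    rw [le_div_iff₀ h3]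
    calc 0.09 * N ^ Δ * (1 + Δ) ^ 16 ≤ 0.09 * N ^ Δ * 2.64 := by gcongr
      _ ≤ (1 / 4) * N ^ Δ := by nlinarith
      _ ≤ (1 - 8 * Δ) ^ 2 * N ^ Δ := mul_le_mul_of_nonneg_right (by nlinarith) h5
  have h7 := pow_le_pow_left₀ (by positivity) h6 2
  rw [h4]
  nlinarith [sq_nonneg (N ^ Δ)]

lemma zeta_cl_le4 (x : ℝ) : ‖riemannZeta (((1 / 2 : ℝ) : ℂ) + x * Complex.I)‖ ^ 4 ≤ 82944 * (1 + x ^ 2) ^ 2 := by
  have h := pow_le_pow_left₀ (by positivity) (zeta_cl_le x) 2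
  calc _ = (‖riemannZeta (((1 / 2 : ℝ) : ℂ) + x * Complex.I)‖ ^ 2) ^ 2 := by ring
    _ ≤ (288 * (1 + x ^ 2)) ^ 2 := h
    _ = _ := by ring

lemma qd2_growth {f : P1} {M : ℝ} (hf : Bd1 M f) (N : ℕ) :
    ∀ x, qd2 (fun s => es s f) (fun s => es s (D2 N f)) (1 / 2) x ≤
    165888 * ((1 + (N:ℝ) ^ 4) * l1' f ^ 2) * (1 + x ^ 2) ^ 2 := by
  have hD := D2_Bd (N := N) hf
  have hDl := D2_l1 N f
  have hl0 := l1'_nonneg f
  intro x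
  unfold qd2
  set s : ℂ := ((1 / 2 : ℝ) : ℂ) + x * Complex.I with hs
  have hs0 : 0 ≤ s.re := by
    have : s.re = 1 / 2 := by rw [hs]; simp
    rw [this]; norm_num
  have a1 := es_norm_le hs0 hf
  have a2 := (es_norm_le hs0 hD).trans hDl
  have a3 : ‖riemannZeta s ^ 2 * es s f - es s (D2 N f)‖ ^ 2 ≤
      2 * (‖riemannZeta s‖ ^ 4 * ‖es s f‖ ^ 2) + 2 * ‖es s (D2 N f)‖ ^ 2 := by
    have a4 := norm_sub_le (riemannZeta s ^ 2 * es s f) (es s (D2 N f))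
    rw [norm_mul, norm_pow] at a4
    have a5 := pow_le_pow_left₀ (norm_nonneg _) a4 2
    refine a5.trans ?_
    nlinarith [sq_nonneg (‖riemannZeta s‖ ^ 2 * ‖es s f‖ - ‖es s (D2 N f)‖)]
  refine a3.trans ?_
  have a6 := zeta_cl_le4 x
  rw [← hs] at a6
  have a7 := pow_le_pow_left₀ (norm_nonneg _) a1 2
  have a8 := pow_le_pow_left₀ (norm_nonneg _) a2 2
  have a9 : ‖riemannZeta s‖ ^ 4 * ‖es s f‖ ^ 2 ≤ 82944 * (1 + x ^ 2) ^ 2 * l1' f ^ 2 :=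
    mul_le_mul a6 a7 (by positivity) (by positivity)
  have e8 : ((N:ℝ) ^ 2 * l1' f) ^ 2 = (N:ℝ) ^ 4 * l1' f ^ 2 := by ring
  rw [e8] at a8
  have h1x : 1 ≤ (1 + x ^ 2) ^ 2 := one_le_pow₀ (by nlinarith [sq_nonneg x])
  have a10 : 2 * ((N:ℝ) ^ 4 * l1' f ^ 2) ≤ 165888 * ((N:ℝ) ^ 4 * l1' f ^ 2) * (1 + x ^ 2) ^ 2 := by
    have g : 0 ≤ (N:ℝ) ^ 4 * l1' f ^ 2 := by positivity
    have g2 : (N:ℝ) ^ 4 * l1' f ^ 2 * 1 ≤ (N:ℝ) ^ 4 * l1' f ^ 2 * (1 + x ^ 2) ^ 2 := mul_le_mul_of_nonneg_left h1x g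
    linarith
  linarith

lemma err_arith4 {B T X Y p D : ℝ} (hT : 0 < T) (hB : 0 ≤ B) (hY0 : 0 ≤ Y)
    (hp0 : 0 ≤ p) (hD0 : 0 ≤ D) (hX : X ≤ T) (hY : Y ≤ T ^ 4) (hD : D ≤ T)
    (hp : p ≤ 63 / 20) : X * (4 * B * Y) * (p * D * (T ^ ((13:ℝ) / 2))⁻¹) ≤ 13 * B * T ^ (-(1 / 2 : ℝ)) := by
  have h2 : p * D ≤ 63 / 20 * T := by gcongr
  have h4 : (T ^ ((13:ℝ) / 2))⁻¹ * T ^ 6 = T ^ (-(1 / 2 : ℝ)) := by
    rw [← Real.rpow_neg hT.le, ← Real.rpow_natCast, ← Real.rpow_add hT]; norm_num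
  have h5 : 0 ≤ (T ^ ((13:ℝ) / 2))⁻¹ := by positivity
  have h6 : 0 ≤ T ^ (-(1 / 2 : ℝ)) := by positivity
  calc X * (4 * B * Y) * (p * D * (T ^ ((13:ℝ) / 2))⁻¹) = 4 * B * (X * Y) * ((p * D) * (T ^ ((13:ℝ) / 2))⁻¹) := by ring
    _ ≤ 4 * B * (T * T ^ 4) * ((63 / 20 * T) * (T ^ ((13:ℝ) / 2))⁻¹) := by
        refine mul_le_mul ?_ (mul_le_mul_of_nonneg_right h2 h5) (by positivity) (by positivity)
        exact mul_le_mul_of_nonneg_left (mul_le_mul hX hY hY0 hT.le) (by positivity)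
    _ = 63 / 5 * B * ((T ^ ((13:ℝ) / 2))⁻¹ * T ^ 6) := by ring
    _ = 63 / 5 * B * T ^ (-(1 / 2 : ℝ)) := by rw [h4]
    _ ≤ _ := by
        refine mul_le_mul_of_nonneg_right ?_ h6
        linarith

/-- one polynomial -/
lemma hp_one4 {f : P1} {N : ℕ} {M T δ : ℝ} (hN : 1 ≤ N) (hf : Bd1 M f) (hT : 10 ^ 10 ≤ T) (hL : 1 / Real.log T ≤ δ)
    (hδ : δ ≤ 1 / 16) (hab : T ^ ((4:ℝ)/5) ≤ T / 2) (hU1 : T ^ ((3:ℝ)/4) ≤ T ^ ((4:ℝ)/5) - T ^ ((1:ℝ)/4))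
    (hU2 : T / 2 + T ^ ((1:ℝ)/4) ≤ T) :
    ∫ t in (T ^ ((4:ℝ)/5))..(T / 2), qd2 (fun s => es s f) (fun s => es s (D2 N f)) (1 / 2 + δ) t ≤
      128 * (N:ℝ) ^ (-(2 * δ)) * ((∫ t in (T ^ ((3:ℝ)/4))..T, qd2 (fun s => es s f) (fun s => es s (D2 N f)) (1 / 2) t) +
        2200000 * ((1 + (N:ℝ) ^ 4) * l1' f ^ 2) * T ^ (-(1 / 2 : ℝ))) := by
  have hT0 : 0 < T := by linarith
  have hT1 : 1 ≤ T := by linarith
  have hL0 : 0 < Real.log T := Real.log_pos (by linarith)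
  have hδ0 : 0 < δ := lt_of_lt_of_le (by positivity) hL
  have hN1 : (1:ℝ) ≤ N := by exact_mod_cast hN
  have hD := D2_Bd (N := N) hf
  have hDl := D2_l1 N f
  have hl0 := l1'_nonneg f
  obtain ⟨C2, hC2⟩ := D2_far hN hf
  set B : ℝ := 165888 * ((1 + (N:ℝ) ^ 4) * l1' f ^ 2) with hB
  have hB0 : 0 ≤ B := by positivity
  have hGB := qd2_growth hf N
  rw [← hB] at hGB
  have hm := hp_win4 (Q := fun s => es s (D2 N f)) (A := fun s => es s f) (N := N) (C1 := l1' (D2 N f)) (C2 := C2)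
    (CA := l1' f) (Δ := δ) (a := T ^ ((4:ℝ)/5)) (b := T / 2) (U := T ^ ((1:ℝ)/4)) (B := B) hN1 (es_diff hf)
    (fun z hz => es_norm_le (by linarith) hf) (es_diff hD) (fun z hz => es_norm_le (by linarith) hD) hC2
    hδ0 (by linarith) (by positivity) hab (Real.one_le_rpow hT1 (by norm_num)) hB0 hGB
  have hfac := fac_ge4 hN1 hδ0.le hδ
  have hI0 : 0 ≤ ∫ t in (T ^ ((4:ℝ)/5))..(T / 2), qd2 (fun s => es s f) (fun s => es s (D2 N f)) (1 / 2 + δ) t :=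
    intervalIntegral.integral_nonneg hab fun x _ => qd2_nonneg _ _ _ _
  have h1 := (mul_le_mul_of_nonneg_right hfac hI0).trans hm
  have hc0 := qd2_cont (es_diff hf) (es_diff hD) (σ := 1 / 2) (by norm_num)
  have h2 : ∫ t in (T ^ ((4:ℝ)/5) - T ^ ((1:ℝ)/4))..(T / 2 + T ^ ((1:ℝ)/4)),
      qd2 (fun s => es s f) (fun s => es s (D2 N f)) (1 / 2) t ≤
      ∫ t in (T ^ ((3:ℝ)/4))..T, qd2 (fun s => es s f) (fun s => es s (D2 N f)) (1 / 2) t := by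
    refine intervalIntegral.integral_mono_interval hU1 ?_ hU2
      (Filter.Eventually.of_forall fun t => qd2_nonneg _ _ _ _) (hc0.intervalIntegrable _ _)
    have : 0 ≤ T ^ ((1:ℝ)/4) := by positivity
    linarith
  have h3 : (T / 2 - T ^ ((4:ℝ)/5)) * (4 * B * (1 + (T / 2) ^ 2) ^ 2) *
      (Real.pi * (1 / δ) * ((T ^ ((1:ℝ)/4)) ^ 26)⁻¹) ≤ 2200000 * ((1 + (N:ℝ) ^ 4) * l1' f ^ 2) * T ^ (-(1 / 2 : ℝ)) := by
    have b0 : 0 ≤ T ^ ((4:ℝ)/5) := by positivity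
    have b2 : T / 2 - T ^ ((4:ℝ)/5) ≤ T := by linarith
    have b4 : (1 + (T / 2) ^ 2) ^ 2 ≤ T ^ 4 := by
      have : 1 + (T / 2) ^ 2 ≤ T ^ 2 := by nlinarith
      calc (1 + (T / 2) ^ 2) ^ 2 ≤ (T ^ 2) ^ 2 := pow_le_pow_left₀ (by positivity) this 2
        _ = T ^ 4 := by ring
    have b5 : (T ^ ((1:ℝ)/4)) ^ 26 = T ^ ((13:ℝ) / 2) := by
      rw [← Real.rpow_natCast, ← Real.rpow_mul hT0.le]; congr 1; norm_num
    have b6 : 1 / δ ≤ T := by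
      have c1 : 1 / δ ≤ Real.log T := by
        rw [div_le_iff₀ hδ0, ← div_le_iff₀' hL0]; exact hL
      have c2 := Real.log_le_sub_one_of_pos hT0
      linarith
    have b7 : Real.pi ≤ 63 / 20 := by have := Real.pi_lt_d2; linarith
    rw [b5]
    refine (err_arith4 hT0 hB0 (by positivity) Real.pi_pos.le (by positivity) b2 b4 b6 b7).trans ?_
    rw [hB]
    refine mul_le_mul_of_nonneg_right ?_ (by positivity)
    have : 0 ≤ (1 + (N:ℝ) ^ 4) * l1' f ^ 2 := by positivity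
    linarith
  have h4 := h1.trans (add_le_add h2 h3)
  have h5 : (N:ℝ) ^ (2 * δ) * (N:ℝ) ^ (-(2 * δ)) = 1 := by
    rw [← Real.rpow_add (by linarith)]; simp
  have h6 : 0 < (N:ℝ) ^ (-(2 * δ)) := Real.rpow_pos_of_pos (by linarith) _
  have h7 := mul_le_mul_of_nonneg_left h4 (by positivity : 0 ≤ 128 * (N:ℝ) ^ (-(2 * δ)))
  refine le_trans (le_of_eq ?_) h7
  have : ∀ I : ℝ, I = 128 * (N:ℝ) ^ (-(2 * δ)) * ((N:ℝ) ^ (2 * δ) / 128 * I) := by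
    intro I
    calc I = ((N:ℝ) ^ (2 * δ) * (N:ℝ) ^ (-(2 * δ))) * I := by rw [h5, one_mul]
      _ = _ := by ring
  exact this _

section

variable {c y δ a : ℝ} {z J Rs N K : ℕ} {A0 : P1} {m : ℝ}

lemma PB2_l1 (h : Sy c z y J Rs N K) (ha : |a| ≤ 2) :
    ∑ S ∈ (range J).powerset, l1' (Pz z ^ 2 * A0 * Bz a z y J Rs S) ^ 2 ≤
      l1' (Pz z ^ 2 * A0) ^ 2 * Real.exp (Real.log y * (180 * ((Rs:ℝ) + 1))) := by
  have h1 : ∀ S ∈ (range J).powerset, l1' (Pz z ^ 2 * A0 * Bz a z y J Rs S) ^ 2 ≤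
      l1' (Pz z ^ 2 * A0) ^ 2 * l1' (Bz a z y J Rs S) ^ 2 := by
    intro S _
    rw [← mul_pow]
    exact pow_le_pow_left₀ (l1'_nonneg _) (l1'_mul _ _) 2
  refine (sum_le_sum h1).trans ?_
  rw [← mul_sum]
  exact mul_le_mul_of_nonneg_left (Bz_l1 h ha) (sq_nonneg _)

lemma DS2_l1 (h : Sy c z y J Rs N K) (ha : |a| ≤ 2) :
    ∑ S ∈ (range J).powerset, l1' (DS2 N a z y J Rs A0 S) ^ 2 ≤
      (N:ℝ) ^ 4 * (l1' (Pz z ^ 2 * A0) ^ 2 * Real.exp (Real.log y * (180 * ((Rs:ℝ) + 1)))) := by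
  have h1 : ∀ S ∈ (range J).powerset, l1' (DS2 N a z y J Rs A0 S) ^ 2 ≤
      (N:ℝ) ^ 4 * l1' (Pz z ^ 2 * A0 * Bz a z y J Rs S) ^ 2 := by
    intro S _
    have e : (N:ℝ) ^ 4 * l1' (Pz z ^ 2 * A0 * Bz a z y J Rs S) ^ 2 =
        ((N:ℝ) ^ 2 * l1' (Pz z ^ 2 * A0 * Bz a z y J Rs S)) ^ 2 := by ring
    rw [e]
    exact pow_le_pow_left₀ (l1'_nonneg _) (D2_l1 _ _) 2
  refine (sum_le_sum h1).trans ?_
  rw [← mul_sum]
  exact mul_le_mul_of_nonneg_left (PB2_l1 h ha) (by positivity)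

lemma DS2_Bd (h : Sy c z y J Rs N K) (hA : Bd1 m A0) (S : Finset ℕ) : Bd1 N (DS2 N a z y J Rs A0 S) :=
  D2_Bd (PB2_Bd h hA S)

/-- the polynomials, integrated -/
lemma DS2_int (h : Sy c z y J Rs N K) (hA : Bd1 m A0) (ha : |a| ≤ 2) (hδ : 0 ≤ δ) (T : ℝ) :
    ∑ S ∈ (range J).powerset, ∫ t in (0:ℝ)..T, ‖es (1 / 2 + δ + t * Complex.I) (DS2 N a z y J Rs A0 S)‖ ^ 2 ≤
      T * (∑ S ∈ (range J).powerset, ip δ (DS2 N a z y J Rs A0 S) (DS2 N a z y J Rs A0 S)) +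
      2 * (N:ℝ) ^ 5 * (l1' (Pz z ^ 2 * A0) ^ 2 * Real.exp (Real.log y * (180 * ((Rs:ℝ) + 1)))) := by
  have h1 : ∀ S ∈ (range J).powerset, ∫ t in (0:ℝ)..T, ‖es (1 / 2 + δ + t * Complex.I) (DS2 N a z y J Rs A0 S)‖ ^ 2 ≤
      T * ip δ (DS2 N a z y J Rs A0 S) (DS2 N a z y J Rs A0 S) + 2 * N * l1' (DS2 N a z y J Rs A0 S) ^ 2 := by
    intro S _
    have := (abs_le.mp (mvt hδ (DS2_Bd (a := a) h hA S) T)).2
    linarith
  refine (sum_le_sum h1).trans ?_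
  rw [sum_add_distrib, ← mul_sum, ← mul_sum]
  have h2 := mul_le_mul_of_nonneg_left (DS2_l1 (A0 := A0) h ha) (by positivity : (0:ℝ) ≤ 2 * N)
  linarith

/-- on the line, the integrand -/
lemma qd2_line (f D : P1) (t : ℝ) : qd2 (fun s => es s f) (fun s => es s D) (1 / 2) t ≤
    2 * (‖riemannZeta (cl t)‖ ^ 4 * ‖es (1 / 2 + (0:ℝ) + t * Complex.I) f‖ ^ 2) +
      2 * ‖es (1 / 2 + (0:ℝ) + t * Complex.I) D‖ ^ 2 := by
  have e1 : (((1 / 2 : ℝ) : ℂ) + t * Complex.I) = 1 / 2 + ((0:ℝ):ℂ) + t * Complex.I := by push_cast; ring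
  have e2 : cl t = 1 / 2 + ((0:ℝ):ℂ) + t * Complex.I := by unfold cl; push_cast; ring
  unfold qd2
  rw [e1, e2]
  set s : ℂ := 1 / 2 + ((0:ℝ):ℂ) + t * Complex.I
  have a4 := norm_sub_le (riemannZeta s ^ 2 * es s f) (es s D)
  rw [norm_mul, norm_pow] at a4
  have a5 := pow_le_pow_left₀ (norm_nonneg _) a4 2
  refine a5.trans ?_
  nlinarith [sq_nonneg (‖riemannZeta s‖ ^ 2 * ‖es s f‖ - ‖es s D‖)]

lemma qd2_line_sum (h : Sy c z y J Rs N K) (hA : Bd1 m A0) (t : ℝ) :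
    ∑ S ∈ (range J).powerset, qd2 (fun s => es s (Pz z ^ 2 * A0 * Bz a z y J Rs S)) (fun s => es s (DS2 N a z y J Rs A0 S)) (1 / 2) t ≤
    2 * l1' (Pz z ^ 2 * A0) ^ 2 * (‖riemannZeta (cl t)‖ ^ 4 * gp J a (RR Rs) (IZ z y) t) +
      2 * ∑ S ∈ (range J).powerset, ‖es (1 / 2 + (0:ℝ) + t * Complex.I) (DS2 N a z y J Rs A0 S)‖ ^ 2 := by
  refine (sum_le_sum fun S _ => qd2_line _ _ t).trans ?_
  rw [sum_add_distrib, ← gpd_zero, ← sum_Bz]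
  refine add_le_add ?_ (le_of_eq (mul_sum _ _ _).symm)
  rw [← mul_sum]
  have h1 : ∀ S ∈ (range J).powerset, ‖riemannZeta (cl t)‖ ^ 4 *
      ‖es (1 / 2 + (0:ℝ) + t * Complex.I) (Pz z ^ 2 * A0 * Bz a z y J Rs S)‖ ^ 2 ≤
      l1' (Pz z ^ 2 * A0) ^ 2 * (‖riemannZeta (cl t)‖ ^ 4 * ‖es (1 / 2 + (0:ℝ) + t * Complex.I) (Bz a z y J Rs S)‖ ^ 2) := by
    intro S _
    have e1 : es (1 / 2 + ((0:ℝ):ℂ) + t * Complex.I) (Pz z ^ 2 * A0 * Bz a z y J Rs S) =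
        es (1 / 2 + ((0:ℝ):ℂ) + t * Complex.I) (Pz z ^ 2 * A0) * es (1 / 2 + ((0:ℝ):ℂ) + t * Complex.I) (Bz a z y J Rs S) :=
      map_mul _ _ _
    rw [e1, norm_mul, mul_pow]
    have h2 := es_norm_le (s := 1 / 2 + ((0:ℝ):ℂ) + t * Complex.I) (by rw [half_re]; norm_num) (((Pz_Bd z).pow 2).mul hA)
    have h3 := pow_le_pow_left₀ (norm_nonneg _) h2 2
    have h4 : 0 ≤ ‖riemannZeta (cl t)‖ ^ 4 * ‖es (1 / 2 + (0:ℝ) + t * Complex.I) (Bz a z y J Rs S)‖ ^ 2 := by positivity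
    nlinarith [mul_le_mul_of_nonneg_right h3 h4]
  have h5 := mul_le_mul_of_nonneg_left (sum_le_sum h1) (by norm_num : (0:ℝ) ≤ 2)
  refine h5.trans (le_of_eq ?_)
  rw [← mul_sum, ← mul_sum]
  ring

lemma cl_cont_zeta4 : Continuous fun t : ℝ => ‖riemannZeta (cl t)‖ ^ 4 := by
  have h := cl_cont_zeta.pow 2
  have e : (fun t : ℝ => (‖riemannZeta (cl t)‖ ^ 2) ^ 2) = fun t : ℝ => ‖riemannZeta (cl t)‖ ^ 4 := by
    funext t; ring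
  rwa [← e]

/-- on the line, integrated -/
lemma line_int4 (h : Sy c z y J Rs N K) (hA : Bd1 m A0) (ha : |a| ≤ 2) {A T : ℝ} (hA0 : 0 ≤ A) (hAT : A ≤ T) :
    ∑ S ∈ (range J).powerset, ∫ t in A..T, qd2 (fun s => es s (Pz z ^ 2 * A0 * Bz a z y J Rs S))
      (fun s => es s (DS2 N a z y J Rs A0 S)) (1 / 2) t ≤
    2 * l1' (Pz z ^ 2 * A0) ^ 2 * (∫ t in A..T, ‖riemannZeta (cl t)‖ ^ 4 * gp J a (RR Rs) (IZ z y) t) +
      2 * (T * (∑ S ∈ (range J).powerset, ip 0 (DS2 N a z y J Rs A0 S) (DS2 N a z y J Rs A0 S)) +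
      2 * (N:ℝ) ^ 5 * (l1' (Pz z ^ 2 * A0) ^ 2 * Real.exp (Real.log y * (180 * ((Rs:ℝ) + 1))))) := by
  have hgc : Continuous fun t => gp J a (RR Rs) (IZ z y) t := by
    have := gpd_cont h 0 a
    simpa only [gpd_zero] using this
  have hDc : ∀ S, Continuous fun t : ℝ => ‖es (1 / 2 + (0:ℝ) + t * Complex.I) (DS2 N a z y J Rs A0 S)‖ ^ 2 :=
    fun S => es_cont0 0 (DS2_Bd h hA S)
  have hqc : ∀ S, Continuous fun t : ℝ => qd2 (fun s => es s (Pz z ^ 2 * A0 * Bz a z y J Rs S))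
      (fun s => es s (DS2 N a z y J Rs A0 S)) (1 / 2) t := fun S =>
    qd2_cont (es_diff (PB2_Bd h hA S)) (es_diff (DS2_Bd h hA S)) (by norm_num)
  rw [← intervalIntegral.integral_finsetSum fun S _ => (hqc S).intervalIntegrable _ _]
  have h1 : ∫ t in A..T, ∑ S ∈ (range J).powerset, qd2 (fun s => es s (Pz z ^ 2 * A0 * Bz a z y J Rs S))
      (fun s => es s (DS2 N a z y J Rs A0 S)) (1 / 2) t ≤
      ∫ t in A..T, (2 * l1' (Pz z ^ 2 * A0) ^ 2 * (‖riemannZeta (cl t)‖ ^ 4 * gp J a (RR Rs) (IZ z y) t) +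
      2 * ∑ S ∈ (range J).powerset, ‖es (1 / 2 + (0:ℝ) + t * Complex.I) (DS2 N a z y J Rs A0 S)‖ ^ 2) := by
    refine intervalIntegral.integral_mono_on hAT ?_ ?_ fun t _ => qd2_line_sum h hA t
    · exact (continuous_finsetSum _ fun S _ => hqc S).intervalIntegrable _ _
    · exact ((continuous_const.mul (cl_cont_zeta4.mul hgc)).add
        (continuous_const.mul (continuous_finsetSum _ fun S _ => hDc S))).intervalIntegrable _ _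
  refine h1.trans ?_
  rw [intervalIntegral.integral_add, intervalIntegral.integral_const_mul, intervalIntegral.integral_const_mul,
    intervalIntegral.integral_finsetSum fun S _ => (hDc S).intervalIntegrable _ _]
  · refine add_le_add le_rfl (mul_le_mul_of_nonneg_left ?_ (by norm_num))
    refine le_trans (sum_le_sum fun S _ => ?_) (DS2_int h hA ha le_rfl T)
    exact intervalIntegral.integral_mono_interval hA0 hAT le_rfl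
      (Filter.Eventually.of_forall fun t => by positivity) ((hDc S).intervalIntegrable _ _)
  · exact (continuous_const.mul (cl_cont_zeta4.mul hgc)).intervalIntegrable _ _
  · exact (continuous_const.mul (continuous_finsetSum _ fun S _ => hDc S)).intervalIntegrable _ _

end

end Pool.Agent.Y755
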