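import Pool.Agent.Y755.Fm4

set_option autoImplicit false

/-! The twisted fourth moment on the line, for general blocks. -/

namespace Pool.Agent.Y755

open Finset Filter MeasureTheory
open Pool.Agent.W184.NZ
open Pool.Agent.H306R2.SM (om cl Yf)
open Pool.Agent.H262R4.TM (Rng Ck)
open Pool.Agent.H965R2.SMT1 (Ph Ph_nonneg Ph_le_one Ph_chernoff Ph_hasDeriv W_hasDeriv om_nonneg)

theorem winF {f : ℝ → ℝ} (hfc : Continuous f) (hf0 : ∀ t, 0 ≤ f t)
    {k : ℕ} (hk : 8 ≤ k) {A T S : ℝ} (hA : 0 < A) (hAT : A ≤ T) (hS0 : 0 ≤ S)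
    (hi : ∀ x ∈ Set.Ioc (A / 2) (8 * T), IntegrableOn (fun t => om k (k / x) t * f t) (Set.Ioi 0))
    (hS : ∀ x ∈ Set.Ioc (A / 2) (8 * T), ∫ t in Set.Ioi (0:ℝ), om k (k / x) t * f t ≤ S) :
    ∫ t in A..T, f t ≤ 16 * T * S := by
  have hT : 0 < T := hA.trans_le hAT
  have hmeas : Measurable (Function.uncurry fun (x t : ℝ) =>
      ENNReal.ofReal (om k (k / x) t * f t)) := by
    unfold om Function.uncurry
    have := hfc.measurable
    fun_prop
  -- lower bound
  have h1 : ENNReal.ofReal (1 / 2 * ∫ t in A..T, f t) ≤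
      ∫⁻ t in Set.Ioi (0 : ℝ), ∫⁻ x in Set.Ioc (A / 2) (8 * T), ENNReal.ofReal (om k (k / x) t * f t) := by
    have e1 : ENNReal.ofReal (1 / 2 * ∫ t in A..T, f t) =
        ∫⁻ t in Set.Ioc A T, ENNReal.ofReal (1 / 2 * f t) := by
      rw [← intervalIntegral.integral_const_mul, intervalIntegral.integral_of_le hAT,
        ofReal_integral_eq_lintegral_ofReal]
      · exact ((continuous_const.mul hfc).intervalIntegrable A T).1
      · exact Eventually.of_forall fun t => mul_nonneg (by norm_num) (hf0 t)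
    rw [e1]
    have hsub : Set.Ioc A T ⊆ Set.Ioi (0:ℝ) := fun t ht => hA.trans ht.1
    refine le_trans ?_ (lintegral_mono_set hsub)
    apply setLIntegral_mono' measurableSet_Ioc
    intro t ht
    have ht0 : 0 < t := hA.trans ht.1
    have h2 : ∀ x, ENNReal.ofReal (om k (k / x) t * f t) =
        ENNReal.ofReal (f t) * ENNReal.ofReal (om k (k / x) t) := by
      intro x
      rw [mul_comm, ENNReal.ofReal_mul (hf0 t)]
    simp_rw [h2]
    rw [lintegral_const_mul' _ _ ENNReal.ofReal_ne_top, om_int (by omega) ht0 (by positivity) (by linarith),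
      mul_comm (1 / 2) (f t), ENNReal.ofReal_mul (hf0 t)]
    gcongr
    have hk0 : (0:ℝ) < k := by exact_mod_cast (by omega : 0 < k)
    have a1 : 3 / 4 ≤ Ph k (k * t / (8 * T)) := by
      refine Ph_small hk (by positivity) ?_
      rw [div_le_div_iff₀ (by positivity) (by norm_num)]
      have := mul_le_mul_of_nonneg_left ht.2 hk0.le
      nlinarith
    have a2 : Ph k (k * t / (A / 2)) ≤ 1 / 4 := by
      have e3 : (k:ℝ) * t / (A / 2) = k * (2 * (t / A)) := by field_simp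
      rw [e3]
      refine Ph_big hk ?_
      have : 1 ≤ t / A := by rw [le_div_iff₀ hA]; linarith [ht.1]
      linarith
    linarith
  rw [← lintegral_lintegral_swap hmeas.aemeasurable] at h1
  have h3 : ∫⁻ x in Set.Ioc (A / 2) (8 * T), ∫⁻ t in Set.Ioi (0 : ℝ),
      ENNReal.ofReal (om k (k / x) t * f t) ≤ ENNReal.ofReal (8 * T * S) := by
    have e2 : ∫⁻ _ in Set.Ioc (A / 2) (8 * T), ENNReal.ofReal S ≤ ENNReal.ofReal (8 * T * S) := by
      rw [setLIntegral_const, Real.volume_Ioc, ← ENNReal.ofReal_mul hS0]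
      refine ENNReal.ofReal_le_ofReal ?_
      nlinarith
    refine le_trans ?_ e2
    apply setLIntegral_mono' measurableSet_Ioc
    intro x hx
    have hx0 : 0 < x := by have := hx.1; linarith
    have hk0 : (0:ℝ) < (k:ℝ) / x := by
      have : (0:ℝ) < k := by exact_mod_cast (by omega : 0 < k)
      positivity
    rw [← ofReal_integral_eq_lintegral_ofReal (hi x hx)]
    · exact ENNReal.ofReal_le_ofReal (hS x hx)
    · filter_upwards [ae_restrict_mem measurableSet_Ioi] with t ht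
      exact mul_nonneg (om_nonneg hk0.le (le_of_lt ht)) (hf0 t)
  have h4 := h1.trans h3
  rw [ENNReal.ofReal_le_ofReal_iff (by positivity)] at h4
  linarith

/-- the twisted fourth moment on the line -/
theorem onl4 {z0 : ℕ} (hz0 : 144 ≤ z0) : ∃ η0 : ℝ, 0 < η0 ∧ ∀ (c d : ℝ) (Rs : ℕ), 0 ≤ c → 0 ≤ d → 1 ≤ Rs → ∀ η : ℝ,
    0 < η → η * ((Rs:ℝ) + 1) ≤ η0 → ∃ C : ℝ, 0 < C ∧ ∀ᶠ T : ℝ in atTop, ∀ (J : ℕ) (I : ℕ → Finset ℕ),
      Rg c J I (bb (Real.exp (η * Real.log T))) →
      (∀ p : ℕ, p.Prime → z0 ≤ p → (p:ℝ) ≤ Real.exp (η * Real.log T) → ∃ i < J, p ∈ I i) →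
      |∑ i ∈ range J, vI (I i) - Real.log (Real.log T)| ≤ d →
      ∀ α : ℝ, 0 ≤ α → α ≤ 1 →
      ∫ t in (T ^ ((3:ℝ)/4))..T, ‖riemannZeta (cl t)‖ ^ 4 * gp J (-1 + α) (RR Rs) I t ≤
        C * (T * Real.log T ^ ((1 + α) ^ 2)) := by
  obtain ⟨η', hη', hη8, hX⟩ := X44 z0
  refine ⟨η' / 640, by positivity, fun c d Rs hc hd hRs η hη hηR => ?_⟩
  obtain ⟨C, hC, hX⟩ := hX c (2 / η)
  have hX := hX Rs hRs
  refine ⟨32 * C * Real.exp (3 * d), by positivity, ?_⟩
  rw [eventually_atTop] at hX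
  obtain ⟨Y0, hY0⟩ := hX
  have ht : Tendsto (fun T : ℝ => T ^ ((3:ℝ)/4) / 2) atTop atTop :=
    (tendsto_rpow_atTop (by norm_num)).atTop_div_const (by norm_num)
  filter_upwards [ht.eventually_ge_atTop Y0, TC_ev 1 1 Rs, Real.tendsto_log_atTop.eventually_ge_atTop 10,
    eventually_ge_atTop 1, Real.tendsto_log_atTop.eventually_ge_atTop (Real.log 144 / η)] with T h1 h4 h6 hT1 h144 J I hJ hcov hV α hα0 hα1
  obtain ⟨k, hk⟩ := h4
  have hT0 : 0 < T := by linarith
  set L := Real.log T with hL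
  have hL0 : 0 < L := by linarith
  set y : ℝ := Real.exp (η * L) with hy
  have hly : Real.log y = η * L := Real.log_exp _
  have hy144 : 144 ≤ y := by
    rw [hy, ← Real.log_le_iff_le_exp (by norm_num)]
    rw [div_le_iff₀ hη] at h144
    linarith
  have hB : BG c z0 y J I := ⟨hc, hz0, hy144, hJ, hcov⟩
  set V := ∑ i ∈ range J, vI (I i) with hVd
  set P := L ^ ((1 + α) ^ 2) with hP
  set A : ℝ := T ^ ((3:ℝ)/4) with hA
  have hA0 : 0 < A := by positivity
  have hAT : A ≤ T := by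
    have : T ^ ((3:ℝ)/4) ≤ T ^ (1:ℝ) := Real.rpow_le_rpow_of_exponent_le hT1 (by norm_num)
    rwa [Real.rpow_one] at this
  have hexpV : L * Real.exp ((α ^ 2 + 2 * α) * V) ≤ P * Real.exp (3 * d) := by
    have e1 : (α ^ 2 + 2 * α) * V ≤ (α ^ 2 + 2 * α) * Real.log L + 3 * d := by
      have h2 := (abs_le.mp hV).2
      have h3 : α ^ 2 + 2 * α ≤ 3 := by nlinarith
      have h5 : 0 ≤ α ^ 2 + 2 * α := by positivity
      calc (α ^ 2 + 2 * α) * V ≤ (α ^ 2 + 2 * α) * (Real.log L + d) := mul_le_mul_of_nonneg_left (by linarith) h5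
        _ = (α ^ 2 + 2 * α) * Real.log L + (α ^ 2 + 2 * α) * d := by ring
        _ ≤ _ := by
          have := mul_le_mul_of_nonneg_right h3 hd
          linarith
    have e2 : P * Real.exp (3 * d) = L * Real.exp ((α ^ 2 + 2 * α) * Real.log L + 3 * d) := by
      rw [hP, Real.rpow_def_of_pos hL0]
      nth_rewrite 2 [← Real.exp_log hL0]
      rw [← Real.exp_add, ← Real.exp_add]
      congr 1; ring
    rw [e2]
    exact mul_le_mul_of_nonneg_left (Real.exp_le_exp.mpr e1) hL0.le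
  have hlog8 : Real.log (8 * T) ≤ 2 * L := by
    rw [Real.log_mul (by norm_num) hT0.ne']
    have : Real.log 8 ≤ 10 := by
      have := Real.log_le_sub_one_of_pos (show (0:ℝ) < 8 by norm_num)
      linarith
    linarith
  have hbase : ∀ x ∈ Set.Ioc (A / 2) (8 * T), IntegrableOn (fun t => om k (k / x) t * (‖riemannZeta (cl t)‖ ^ 4 *
      gp J (-1 + α) (RR Rs) I t)) (Set.Ioi 0) ∧
      ∫ t in Set.Ioi (0:ℝ), om k (k / x) t * (‖riemannZeta (cl t)‖ ^ 4 * gp J (-1 + α) (RR Rs) I t) ≤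
        2 * C * (P * Real.exp (3 * d)) := by
    intro x hx
    have hx0 : 0 < x := by have := hx.1; linarith
    have hlx := hk.lg x hx
    have hlx2 : Real.log x ≤ 2 * L := (Real.log_le_log hx0 hx.2).trans hlog8
    have hlx0 : 0 ≤ Real.log x := by linarith
    obtain ⟨i1, i2⟩ := hY0 x (h1.trans hx.1.le) k (hk.rng x hx) y α J I hB (by
      rw [hly]
      calc 320 * ((Rs:ℝ) + 1) * (η * L) = 320 * (η * ((Rs:ℝ) + 1)) * L := by ring
        _ ≤ 320 * (η' / 640) * L := by gcongr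
        _ = η' * (1 / 2 * L) := by ring
        _ ≤ η' * Real.log x := mul_le_mul_of_nonneg_left hlx hη'.le) (by
      rw [hly]
      refine hlx2.trans (le_of_eq ?_)
      field_simp) hα0 hα1
    refine ⟨i1, i2.trans ?_⟩
    calc C * Real.log x * Real.exp ((α ^ 2 + 2 * α) * V) ≤ C * (2 * L) * Real.exp ((α ^ 2 + 2 * α) * V) := by gcongr
      _ = 2 * C * (L * Real.exp ((α ^ 2 + 2 * α) * V)) := by ring
      _ ≤ _ := mul_le_mul_of_nonneg_left hexpV (by positivity)
  have hgc := gp_contz (by linarith : 1 ≤ y) hJ (-1 + α) Rs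
  have hw := winF (f := fun t => ‖riemannZeta (cl t)‖ ^ 4 * gp J (-1 + α) (RR Rs) I t)
    ((Pool.Agent.H262R4.TM.TTW.zeta_cont.norm.pow 4).mul hgc) (fun t => mul_nonneg (by positivity) (gp_nonneg _ _ _ _ _))
    hk.k8 hA0 hAT (S := 2 * C * (P * Real.exp (3 * d))) (by positivity) (fun x hx => (hbase x hx).1)
    (fun x hx => (hbase x hx).2)
  refine hw.trans (le_of_eq ?_)
  ring

end Pool.Agent.Y755
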