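import Pool.Agent.Y755.Hq4
import Pool.Agent.Y755.Onl4

set_option autoImplicit false

/-! The difference off the line for the square of zeta: asymptotic form. -/

namespace Pool.Agent.Y755

open Finset Filter MeasureTheory
open Pool.Agent.W184.NZ
open Pool.Agent.H306R2.SM (om cl Yf)

/-- the sum of the norms on the line -/
lemma N1q_line {c d η a m : ℝ} {z Rs J : ℕ} {A0 : P1} {T : ℝ} (hS : Sy c z (yT η T) J Rs (NT T) (KT T))
    (hV : |∑ i ∈ range J, vI (IZ z (yT η T) i) - Real.log (Real.log T)| ≤ d) (hW : vd 0 (Rst (NT T) (yT η T)) ≤ d)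
    (hE : ET4 c z (yT η T) J Rs ≤ 1) (ha : |a| ≤ 1) (ha0 : a ≤ 0) (hA : Bd1 m A0) (hAm : A0 ∈ SA1 (M1 (S0 z)))
    (hm : m ≤ NT T) (hd : 0 ≤ d) (hL : 1 ≤ Real.log T) :
    ∑ S ∈ (range J).powerset, ip 0 (DS2 (NT T) a z (yT η T) J Rs A0 S) (DS2 (NT T) a z (yT η T) J Rs A0 S) ≤
      (ip 0 A0 A0 + (4 ^ (S0 z).card * l1' A0) ^ 2) * Real.exp (19 * d + 1) * Real.log T ^ ((2 + a) ^ 2) := by
  have hmK : m < 2 ^ (KT T + 1) := by
    have : ((NT T : ℕ) : ℝ) < ((2 ^ (KT T + 1) : ℕ) : ℝ) := by exact_mod_cast hS.NK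
    push_cast at this
    linarith
  refine (N1q hS le_rfl ha ha0 hA hAm hmK).trans ?_
  obtain ⟨ha1, ha2⟩ := abs_le.mp ha
  have h1 : (4 ^ (S0 z).card * l1' A0) ^ 2 / 2 ^ (KT T + 1) ≤ (4 ^ (S0 z).card * l1' A0) ^ 2 :=
    div_le_self (by positivity) (one_le_pow₀ (by norm_num))
  have h2 : Real.exp ((2 + a) ^ 2 * Vd 0 z (yT η T) J + ET4 c z (yT η T) J Rs) * Real.exp (15 * vd 0 (Rst (NT T) (yT η T))) ≤
      Real.exp (19 * d + 1) * Real.log T ^ ((2 + a) ^ 2) := by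
    rw [Real.rpow_def_of_pos (by linarith), ← Real.exp_add, ← Real.exp_add]
    refine Real.exp_le_exp.mpr ?_
    rw [Vd_zero]
    have h3 := (abs_le.mp hV).2
    have h4 : (2 + a) ^ 2 * (∑ i ∈ range J, vI (IZ z (yT η T) i)) ≤ (2 + a) ^ 2 * (Real.log (Real.log T) + d) :=
      mul_le_mul_of_nonneg_left (by linarith) (sq_nonneg _)
    have h5 : (2 + a) ^ 2 * d ≤ 4 * d := mul_le_mul_of_nonneg_right (by nlinarith only [ha1, ha2, ha0]) hd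
    linarith
  have h0 := ip_self_nonneg 0 A0
  calc _ = (ip 0 A0 A0 + (4 ^ (S0 z).card * l1' A0) ^ 2 / 2 ^ (KT T + 1)) *
        (Real.exp ((2 + a) ^ 2 * Vd 0 z (yT η T) J + ET4 c z (yT η T) J Rs) * Real.exp (15 * vd 0 (Rst (NT T) (yT η T)))) := by ring
    _ ≤ (ip 0 A0 A0 + (4 ^ (S0 z).card * l1' A0) ^ 2) * (Real.exp (19 * d + 1) * Real.log T ^ ((2 + a) ^ 2)) := by
        refine mul_le_mul (by linarith) h2 (by positivity) (by positivity)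
    _ = _ := by ring

/-- the difference off the line -/
theorem hpa4 {z : ℕ} (hz : 144 ≤ z) : ∃ η0 : ℝ, 0 < η0 ∧ ∀ (c d η m : ℝ) (Rs : ℕ) (A0 : P1), 0 ≤ c → 0 ≤ d → 1 ≤ Rs →
    0 < η → η * ((Rs:ℝ) + 1) ≤ η0 → η * ((Rs:ℝ) + 1) ≤ 1 / 16000 → Bd1 m A0 → A0 ∈ SA1 (M1 (S0 z)) →
    ∃ C : ℝ, 0 < C ∧ ∀ᶠ T : ℝ in atTop, ∀ J : ℕ, Sy c z (yT η T) J Rs (NT T) (KT T) →
      |∑ i ∈ range J, vI (IZ z (yT η T) i) - Real.log (Real.log T)| ≤ d → vd 0 (Rst (NT T) (yT η T)) ≤ d →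
      ET4 c z (yT η T) J Rs ≤ 1 → ∀ a : ℝ, |a| ≤ 1 → a ≤ 0 → ∀ δ : ℝ, 1 / Real.log T ≤ δ → δ ≤ 1 / 16 →
      ∑ S ∈ (range J).powerset, ∫ t in (T ^ ((4:ℝ)/5))..(T / 2),
        qd2 (fun s => es s (Pz z ^ 2 * A0 * Bz a z (yT η T) J Rs S))
          (fun s => es s (DS2 (NT T) a z (yT η T) J Rs A0 S)) (1 / 2 + δ) t ≤
        C * (T * Real.log T ^ ((2 + a) ^ 2)) * (NT T : ℝ) ^ (-(2 * δ)) := by
  obtain ⟨η0, hη0, hon⟩ := onl4 hz
  refine ⟨η0, hη0, fun c d η m Rs A0 hc hd hRs hη hη1 hη2 hA hAm => ?_⟩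
  obtain ⟨C1, hC1, hon⟩ := hon c d Rs hc hd hRs η hη hη1
  set LP := l1' (Pz z ^ 2 * A0) with hLP
  have hLP0 : 0 ≤ LP := l1'_nonneg _
  set A1 := (ip 0 A0 A0 + (4 ^ (S0 z).card * l1' A0) ^ 2) * Real.exp (19 * d + 1) with hA1
  have hA10 : 0 ≤ A1 := by have := ip_self_nonneg 0 A0; positivity
  refine ⟨128 * (2 * LP ^ 2 * C1 + 2 * (A1 + 1) + 1), by positivity, ?_⟩
  filter_upwards [hon, windows_ev, eventually_ge_atTop (10 ^ 10), NT_tendsto.eventually_ge_atTop (max 1 m),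
    rpow_ev (p := 1 / 50) (q := 1) (by norm_num) (4400000 * LP ^ 2),
    rpow_ev (p := 5 / 8 + 1 / 50) (q := 1) (by norm_num) (2 * LP ^ 2),
    Real.tendsto_log_atTop.eventually_ge_atTop 1] with T h1 h2 h3 h4 h5 h6 h7 J hS hV hW hE a ha ha0 δ hδ1 hδ2
  have hT0 : 0 < T := by linarith
  have hT1 : 1 ≤ T := by linarith
  obtain ⟨w1, w2, w3⟩ := h2
  rw [Real.rpow_one] at h5 h6
  have hN1 : 1 ≤ NT T := by exact_mod_cast (le_max_left _ _).trans h4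
  have hNm : m ≤ NT T := (le_max_right _ _).trans h4
  have ha2 : |a| ≤ 2 := by linarith
  set y := yT η T with hy
  set N := NT T with hN
  set P := Real.log T ^ ((2 + a) ^ 2) with hP
  have hP1 : 1 ≤ P := Real.one_le_rpow h7 (sq_nonneg _)
  have hNr : 0 < (N:ℝ) := by exact_mod_cast hN1
  have hex := ly_exp hT1 hη2
  rw [← hy] at hex
  have g1 : ∀ S ∈ (range J).powerset, ∫ t in (T ^ ((4:ℝ)/5))..(T / 2),
      qd2 (fun s => es s (Pz z ^ 2 * A0 * Bz a z y J Rs S)) (fun s => es s (DS2 N a z y J Rs A0 S)) (1 / 2 + δ) t ≤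
      128 * (N:ℝ) ^ (-(2 * δ)) * ((∫ t in (T ^ ((3:ℝ)/4))..T, qd2 (fun s => es s (Pz z ^ 2 * A0 * Bz a z y J Rs S))
        (fun s => es s (DS2 N a z y J Rs A0 S)) (1 / 2) t) +
        2200000 * (1 + (N:ℝ) ^ 4) * T ^ (-(1 / 2 : ℝ)) * l1' (Pz z ^ 2 * A0 * Bz a z y J Rs S) ^ 2) := by
    intro S _
    refine (hp_one4 hN1 (PB2_Bd hS hA S) h3 hδ1 hδ2 w1 w2 w3).trans (le_of_eq ?_)
    unfold DS2
    ring
  refine (sum_le_sum g1).trans ?_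
  rw [← mul_sum, sum_add_distrib, ← mul_sum]
  have g2 := line_int4 (a := a) hS hA ha2 (A := T ^ ((3:ℝ)/4)) (T := T) (by positivity) (by linarith [Real.rpow_nonneg hT0.le (1/4)])
  have g3 := h1 J (IZ z y) hS.rg (fun p hp hzp hpy => IZ_cover hS p hp hzp hpy) hV (1 + a)
    (by have := (abs_le.mp ha).1; linarith) (by linarith)
  have e1a : -1 + (1 + a) = a := by ring
  have e2a : (1 + (1 + a)) ^ 2 = (2 + a) ^ 2 := by ring
  rw [e1a, e2a] at g3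
  have g4 := N1q_line hS hV hW hE ha ha0 hA hAm hNm hd h7
  rw [← hN, ← hy, ← hA1, ← hP] at g4
  have g5 := PB2_l1 (A0 := A0) hS ha2
  rw [← hLP] at g2 g5
  have g6 : 2200000 * (1 + (N:ℝ) ^ 4) * T ^ (-(1 / 2 : ℝ)) *
      (∑ S ∈ (range J).powerset, l1' (Pz z ^ 2 * A0 * Bz a z y J Rs S) ^ 2) ≤ T := by
    have k1 : (1 + (N:ℝ) ^ 4) ≤ 2 * T ^ ((1:ℝ) / 2) := by
      have k2 := NT_pow hT1 4
      rw [← hN] at k2
      have k3 : T ^ (((4:ℕ):ℝ) / 8) = T ^ ((1:ℝ) / 2) := by congr 1; norm_num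
      rw [k3] at k2
      have k4 : 1 ≤ T ^ ((1:ℝ) / 2) := Real.one_le_rpow hT1 (by norm_num)
      linarith
    have k5 : T ^ ((1:ℝ) / 2) * T ^ (-(1 / 2 : ℝ)) = 1 := by rw [← Real.rpow_add hT0]; simp
    calc _ ≤ 2200000 * (2 * T ^ ((1:ℝ) / 2)) * T ^ (-(1 / 2 : ℝ)) * (LP ^ 2 * T ^ ((1:ℝ) / 50)) := by
          refine mul_le_mul ?_ (g5.trans (mul_le_mul_of_nonneg_left hex (sq_nonneg _))) ?_ (by positivity)
          · gcongr
          · exact sum_nonneg fun _ _ => sq_nonneg _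
      _ = 4400000 * LP ^ 2 * T ^ ((1:ℝ) / 50) * (T ^ ((1:ℝ) / 2) * T ^ (-(1 / 2 : ℝ))) := by ring
      _ ≤ T := by rw [k5, mul_one]; exact h5
  have g7 : 2 * (N:ℝ) ^ 5 * (LP ^ 2 * Real.exp (Real.log y * (180 * ((Rs:ℝ) + 1)))) ≤ T := by
    have k2 := NT_pow hT1 5
    rw [← hN] at k2
    have k3 : T ^ (((5:ℕ):ℝ) / 8) = T ^ ((5:ℝ) / 8) := by congr 1
    rw [k3] at k2
    calc _ ≤ 2 * T ^ ((5:ℝ) / 8) * (LP ^ 2 * T ^ ((1:ℝ) / 50)) := by gcongr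
      _ = 2 * LP ^ 2 * T ^ ((5:ℝ) / 8 + 1 / 50) := by rw [Real.rpow_add hT0]; ring
      _ ≤ T := h6
  have hTP2 : T ≤ T * P := le_mul_of_one_le_right hT0.le hP1
  have g8 : (∑ S ∈ (range J).powerset, ∫ t in (T ^ ((3:ℝ)/4))..T, qd2 (fun s => es s (Pz z ^ 2 * A0 * Bz a z y J Rs S))
        (fun s => es s (DS2 N a z y J Rs A0 S)) (1 / 2) t) ≤ (2 * LP ^ 2 * C1 + 2 * (A1 + 1)) * (T * P) := by
    refine g2.trans ?_
    have k1 := mul_le_mul_of_nonneg_left g3 (by positivity : 0 ≤ 2 * LP ^ 2)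
    have k2 := mul_le_mul_of_nonneg_left g4 hT0.le
    have k3 : T * (A1 * P) = A1 * (T * P) := by ring
    rw [k3] at k2
    linarith only [k1, k2, g7, hTP2]
  have g9 : 0 ≤ 128 * (N:ℝ) ^ (-(2 * δ)) := by positivity
  calc _ ≤ 128 * (N:ℝ) ^ (-(2 * δ)) * ((2 * LP ^ 2 * C1 + 2 * (A1 + 1)) * (T * P) + 1 * (T * P)) := by
        refine mul_le_mul_of_nonneg_left (add_le_add g8 ?_) g9
        linarith
    _ = _ := by ring

end Pool.Agent.Y755
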