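import Pool.Agent.Y755.Gn3
import Pool.Agent.Y755.Fin4

set_option autoImplicit false

/-!
The exceptional set of `path_all` can be taken inside the level set `|ζ| > δ^{-(2+c)}`, and then its measure is
`o(δ^{4+4c})`.
-/

namespace Pool.Agent.Y755

open Filter Topology MeasureTheory
open Pool.Agent.H306R2

/-- the value of `|ζ|` at the point of the randomly shifted path -/
noncomputable def fz (σ x T u : ℝ) : ℝ := ‖riemannZeta (σ + x * Complex.I + (u * T) * Complex.I)‖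

lemma fz_cont {σ : ℝ} (hσ : σ < 1) (x T : ℝ) : Continuous (fz σ x T) := by
  unfold fz
  refine continuous_norm.comp (continuous_iff_continuousAt.mpr fun u => ?_)
  have h : ((σ:ℂ) + x * Complex.I + (u * T) * Complex.I) ≠ 1 := by
    intro h
    have := congrArg Complex.re h
    simp at this
    linarith
  exact ContinuousAt.comp (f := fun u : ℝ => ((σ:ℂ) + x * Complex.I + (u * T) * Complex.I)) (x := u)
    (differentiableAt_riemannZeta h).continuousAt (by fun_prop)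

lemma fz_nonneg (σ x T u : ℝ) : 0 ≤ fz σ x T u := norm_nonneg _

lemma fzp_cont {σ β : ℝ} (hσ : σ < 1) (hβ : 0 ≤ β) (x T : ℝ) : Continuous (fun u => fz σ x T u ^ β) :=
  (fz_cont hσ x T).rpow_const fun _ => Or.inr hβ

lemma fzp_int {σ β : ℝ} (hσ : σ < 1) (hβ : 0 ≤ β) (x T : ℝ) {A : Set ℝ} (hA : A ⊆ Set.Icc 0 1) :
    IntegrableOn (fun u => fz σ x T u ^ β) A :=
  ((fzp_cont hσ hβ x T).integrableOn_Icc (a := 0) (b := 1)).mono_set hA

lemma fz_split {σ β : ℝ} (hσ : σ < 1) (hβ : 0 ≤ β) (x T : ℝ) {A : Set ℝ} (hA : MeasurableSet A)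
    (hA1 : A ⊆ Set.Icc 0 1) :
    mom β σ x T = (∫ u in Set.Icc (0:ℝ) 1 \ A, fz σ x T u ^ β) + ∫ u in A, fz σ x T u ^ β := by
  have h := integral_inter_add_sdiff hA (fzp_int hσ hβ x T (le_refl (Set.Icc (0:ℝ) 1)))
  rw [Set.inter_eq_self_of_subset_right hA1] at h
  have e : mom β σ x T = ∫ u in Set.Icc (0:ℝ) 1, fz σ x T u ^ β := by
    unfold mom
    rw [intervalIntegral.integral_of_le zero_le_one, ← integral_Icc_eq_integral_Ioc]
    rfl
  rw [e, ← h]
  ring

lemma fz_split2 {σ β : ℝ} (hσ : σ < 1) (hβ : 0 ≤ β) (x T : ℝ) {A B : Set ℝ} (hA : MeasurableSet A)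
    (hA1 : A ⊆ Set.Icc 0 1) (hB : MeasurableSet B) (hBA : B ⊆ A) :
    (∫ u in Set.Icc (0:ℝ) 1 \ B, fz σ x T u ^ β) =
      (∫ u in Set.Icc (0:ℝ) 1 \ A, fz σ x T u ^ β) + ∫ u in A \ B, fz σ x T u ^ β := by
  have h1 := fz_split hσ hβ x T hA hA1
  have h2 := fz_split hσ hβ x T hB (hBA.trans hA1)
  have h3 := integral_inter_add_sdiff hB (fzp_int hσ hβ x T hA1)
  rw [Set.inter_eq_self_of_subset_right hBA] at h3
  linarith

lemma fz_cheb {σ V : ℝ} (hσ : σ < 1) (hV : 0 < V) (x T : ℝ) {A : Set ℝ} (hA : MeasurableSet A)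
    (hA1 : A ⊆ Set.Icc 0 1) :
    (volume (A ∩ {u | V < fz σ x T u})).toReal * V ^ (4:ℝ) ≤ ∫ u in A, fz σ x T u ^ (4:ℝ) := by
  have hm : MeasurableSet {u | V < fz σ x T u} := (isOpen_lt continuous_const (fz_cont hσ x T)).measurableSet
  have hS : MeasurableSet (A ∩ {u | V < fz σ x T u}) := hA.inter hm
  have hfin : volume (A ∩ {u | V < fz σ x T u}) ≠ ⊤ :=
    ((measure_mono (Set.inter_subset_left.trans hA1)).trans_lt (by simp)).ne
  calc (volume (A ∩ {u | V < fz σ x T u})).toReal * V ^ (4:ℝ)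
      = ∫ _u in A ∩ {u | V < fz σ x T u}, V ^ (4:ℝ) := by
        rw [setIntegral_const, smul_eq_mul]; rfl
    _ ≤ ∫ u in A ∩ {u | V < fz σ x T u}, fz σ x T u ^ (4:ℝ) := by
        refine setIntegral_mono_on (integrableOn_const hfin) (fzp_int hσ (by norm_num) x T
          (Set.inter_subset_left.trans hA1)) hS fun u hu => ?_
        exact Real.rpow_le_rpow hV.le hu.2.le (by norm_num)
    _ ≤ ∫ u in A, fz σ x T u ^ (4:ℝ) :=
        setIntegral_mono_set (fzp_int hσ (by norm_num) x T hA1)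
          (Eventually.of_forall fun u => Real.rpow_nonneg (fz_nonneg _ _ _ _) _)
          (Eventually.of_forall fun u hu => hu.1)

lemma fz_low {σ V β : ℝ} (hσ : σ < 1) (hV : 0 < V) (hβ : 4 ≤ β) (x T : ℝ) {A : Set ℝ} (hA : MeasurableSet A)
    (hA1 : A ⊆ Set.Icc 0 1) :
    (∫ u in A \ (A ∩ {u | V < fz σ x T u}), fz σ x T u ^ β) ≤ V ^ (β - 4) * ∫ u in A, fz σ x T u ^ (4:ℝ) := by
  have hm : MeasurableSet {u | V < fz σ x T u} := (isOpen_lt continuous_const (fz_cont hσ x T)).measurableSet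
  have hS : MeasurableSet (A \ (A ∩ {u | V < fz σ x T u})) := hA.diff (hA.inter hm)
  have hi4 := fzp_int hσ (show (0:ℝ) ≤ 4 by norm_num) x T hA1
  calc (∫ u in A \ (A ∩ {u | V < fz σ x T u}), fz σ x T u ^ β)
      ≤ ∫ u in A \ (A ∩ {u | V < fz σ x T u}), V ^ (β - 4) * fz σ x T u ^ (4:ℝ) := by
        refine setIntegral_mono_on (fzp_int hσ (by linarith) x T (Set.sdiff_subset.trans hA1))
          ((hi4.mono_set Set.sdiff_subset).const_mul _) hS fun u hu => ?_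
        have hle : fz σ x T u ≤ V := by
          by_contra h
          exact hu.2 ⟨hu.1, not_le.mp h⟩
        have h0 := fz_nonneg σ x T u
        have e : fz σ x T u ^ β = fz σ x T u ^ (β - 4) * fz σ x T u ^ (4:ℝ) := by
          rw [← Real.rpow_add_of_nonneg h0 (by linarith) (by norm_num)]
          congr 1; ring
        rw [e]
        exact mul_le_mul_of_nonneg_right (Real.rpow_le_rpow h0 hle (by linarith)) (Real.rpow_nonneg h0 _)
    _ = V ^ (β - 4) * ∫ u in A \ (A ∩ {u | V < fz σ x T u}), fz σ x T u ^ (4:ℝ) := integral_const_mul _ _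
    _ ≤ V ^ (β - 4) * ∫ u in A, fz σ x T u ^ (4:ℝ) := by
        refine mul_le_mul_of_nonneg_left ?_ (Real.rpow_nonneg hV.le _)
        exact setIntegral_mono_set hi4
          (Eventually.of_forall fun u => Real.rpow_nonneg (fz_nonneg _ _ _ _) _)
          (Eventually.of_forall fun u hu => hu.1)

theorem path_lev (x : ℝ) {δ : ℝ → ℝ} (h1 : Tendsto δ atTop (nhds 0))
    (h2 : Tendsto (fun T => δ T * Real.log T) atTop atTop) :
    ∃ E₀ : ℝ → Set ℝ, ∀ c : ℝ, 0 ≤ c → ∃ E : ℝ → Set ℝ,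
      (∀ T, MeasurableSet (E T) ∧ E T ⊆ Set.Icc 0 1 ∧ ∀ u ∈ E T, δ T ^ (-(2 + c)) < fz (1 / 2 + δ T) x T u) ∧
      Tendsto (fun T => (volume (E T)).toReal / δ T ^ (4 + 4 * c)) atTop (nhds 0) ∧
      (∀ᶠ T in atTop, E T = E₀ T ∩ {u | δ T ^ (-(2 + c)) < fz (1 / 2 + δ T) x T u}) ∧
      ∀ α : ℝ, 0 < α → (α ≤ 2 ∨ 2 + 2 * c ≤ α) → Tendsto (fun T => (2 * δ T) ^ (α ^ 2) *
        ∫ u in Set.Icc (0:ℝ) 1 \ E T, fz (1 / 2 + δ T) x T u ^ (2 * α)) atTop (nhds (aF α)) := by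
  obtain ⟨E₀, hE₀, hE₁, hE₂⟩ := path_all x h1 h2
  refine ⟨E₀, fun c hc => ?_⟩
  have hpos : ∀ᶠ T in atTop, 0 < δ T := by
    filter_upwards [h2.eventually_gt_atTop 0, eventually_gt_atTop 1] with T hT hT1
    exact (pos_iff_pos_of_mul_pos hT).mpr (Real.log_pos hT1)
  have hlt : ∀ᶠ T in atTop, δ T < 1 / 16 := h1.eventually (gt_mem_nhds (show (0:ℝ) < 1 / 16 by norm_num))
  have hsm : ∀ α : ℝ, 0 < α → α ≤ 2 → Tendsto (fun T => (2 * δ T) ^ (α ^ 2) *
      ∫ u in E₀ T, fz (1 / 2 + δ T) x T u ^ (2 * α)) atTop (nhds 0) := by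
    intro α h0 h3
    have g1 := hE₂ α h0
    have g2 : Tendsto (fun T => (2 * δ T) ^ (α ^ 2) * mom (2 * α) (1 / 2 + δ T) x T) atTop (nhds (aF α)) := by
      rcases le_total α 1 with h | h
      · exact mom_path h0 h x h1 h2
      · exact mom_path4 h h3 x h1 h2
    have g3 := g2.sub g1
    rw [sub_self] at g3
    refine g3.congr' ?_
    filter_upwards [hlt] with T hT2
    rw [fz_split (σ := 1 / 2 + δ T) (by linarith) (show (0:ℝ) ≤ 2 * α by linarith) x T (hE₀ T).1 (hE₀ T).2]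
    unfold fz
    ring
  have hsm4 : Tendsto (fun T => (2 * δ T) ^ (4:ℝ) * ∫ u in E₀ T, fz (1 / 2 + δ T) x T u ^ (4:ℝ)) atTop (nhds 0) := by
    have := hsm 2 (by norm_num) le_rfl
    norm_num at this ⊢
    exact this
  classical
  set E : ℝ → Set ℝ := fun T => if δ T < 1 / 16 then E₀ T ∩ {u | δ T ^ (-(2 + c)) < fz (1 / 2 + δ T) x T u} else ∅ with hE
  have hEe : ∀ {T}, δ T < 1 / 16 → E T = E₀ T ∩ {u | δ T ^ (-(2 + c)) < fz (1 / 2 + δ T) x T u} := by
    intro T hT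
    simp only [hE, if_pos hT]
  have hEn : ∀ {T}, ¬ δ T < 1 / 16 → E T = ∅ := by
    intro T hT
    simp only [hE, if_neg hT]
  refine ⟨E, fun T => ?_, ?_, ?_, fun α hα hα2 => ?_⟩
  · by_cases hT : δ T < 1 / 16
    · rw [hEe hT]
      exact ⟨(hE₀ T).1.inter (isOpen_lt continuous_const (fz_cont (by linarith) x T)).measurableSet,
        Set.inter_subset_left.trans (hE₀ T).2, fun u hu => hu.2⟩
    · rw [hEn hT]
      exact ⟨MeasurableSet.empty, Set.empty_subset _, fun u hu => absurd hu (Set.notMem_empty u)⟩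
  · refine squeeze_zero' (g := fun T => (2 * δ T) ^ (4:ℝ) * ∫ u in E₀ T, fz (1 / 2 + δ T) x T u ^ (4:ℝ)) ?_ ?_ hsm4
    · filter_upwards [hpos] with T hT
      positivity
    · filter_upwards [hpos, hlt] with T hT hT2
      rw [hEe hT2]
      have hV : 0 < δ T ^ (-(2 + c)) := Real.rpow_pos_of_pos hT _
      have h3 := fz_cheb (σ := 1 / 2 + δ T) (by linarith) hV x T (hE₀ T).1 (hE₀ T).2
      rw [div_le_iff₀ (Real.rpow_pos_of_pos hT _)]
      have e1 : (δ T ^ (-(2 + c))) ^ (4:ℝ) = δ T ^ (-(8 + 4 * c)) := by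
        rw [← Real.rpow_mul hT.le]; congr 1; ring
      rw [e1] at h3
      have e2 : δ T ^ (-(8 + 4 * c)) * δ T ^ (8 + 4 * c) = 1 := by
        rw [← Real.rpow_add hT]; simp
      have e3 : δ T ^ (8 + 4 * c) = δ T ^ (4:ℝ) * δ T ^ (4 + 4 * c) := by
        rw [← Real.rpow_add hT]; congr 1; ring
      have h4 := mul_le_mul_of_nonneg_right h3 (Real.rpow_pos_of_pos hT (8 + 4 * c)).le
      rw [mul_assoc, e2, mul_one, e3] at h4
      have hI : 0 ≤ ∫ u in E₀ T, fz (1 / 2 + δ T) x T u ^ (4:ℝ) :=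
        integral_nonneg fun u => Real.rpow_nonneg (fz_nonneg _ _ _ _) _
      have h5 : δ T ^ (4:ℝ) ≤ (2 * δ T) ^ (4:ℝ) := Real.rpow_le_rpow hT.le (by linarith) (by norm_num)
      calc _ ≤ _ := h4
        _ = (δ T ^ (4:ℝ) * ∫ u in E₀ T, fz (1 / 2 + δ T) x T u ^ (4:ℝ)) * δ T ^ (4 + 4 * c) := by ring
        _ ≤ _ := mul_le_mul_of_nonneg_right (mul_le_mul_of_nonneg_right h5 hI) (Real.rpow_pos_of_pos hT _).le
  · filter_upwards [hlt] with T hT
    exact hEe hT
  · have hrem : Tendsto (fun T => (2 * δ T) ^ (α ^ 2) * ∫ u in E₀ T \ E T, fz (1 / 2 + δ T) x T u ^ (2 * α))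
        atTop (nhds 0) := by
      by_cases h2α : α ≤ 2
      · refine squeeze_zero' ?_ ?_ (hsm α hα h2α)
        · filter_upwards [hpos] with T hT
          exact mul_nonneg (by positivity) (integral_nonneg fun u => Real.rpow_nonneg (fz_nonneg _ _ _ _) _)
        · filter_upwards [hpos, hlt] with T hT hT2
          refine mul_le_mul_of_nonneg_left ?_ (by positivity)
          exact setIntegral_mono_set (fzp_int (by linarith) (by linarith) x T (hE₀ T).2)
            (Eventually.of_forall fun u => Real.rpow_nonneg (fz_nonneg _ _ _ _) _)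
            (Eventually.of_forall fun u hu => hu.1)
      · have h2c : 2 + 2 * c ≤ α := hα2.resolve_left h2α
        push Not at h2α
        have hlim : Tendsto (fun T => (2:ℝ) ^ (α ^ 2 - 4) * ((2 * δ T) ^ (4:ℝ) *
            ∫ u in E₀ T, fz (1 / 2 + δ T) x T u ^ (4:ℝ))) atTop (nhds 0) := by
          simpa using hsm4.const_mul ((2:ℝ) ^ (α ^ 2 - 4))
        refine squeeze_zero' ?_ ?_ hlim
        · filter_upwards [hpos] with T hT
          exact mul_nonneg (by positivity) (integral_nonneg fun u => Real.rpow_nonneg (fz_nonneg _ _ _ _) _)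
        · filter_upwards [hpos, hlt] with T hT hT2
          rw [hEe hT2]
          have hV : 0 < δ T ^ (-(2 + c)) := Real.rpow_pos_of_pos hT _
          have h3 := fz_low (σ := 1 / 2 + δ T) (β := 2 * α) (by linarith) hV (by linarith) x T (hE₀ T).1 (hE₀ T).2
          have hI : 0 ≤ ∫ u in E₀ T, fz (1 / 2 + δ T) x T u ^ (4:ℝ) :=
            integral_nonneg fun u => Real.rpow_nonneg (fz_nonneg _ _ _ _) _
          have hk : (2 * δ T) ^ (α ^ 2) * (δ T ^ (-(2 + c))) ^ (2 * α - 4) ≤ (2:ℝ) ^ (α ^ 2 - 4) * (2 * δ T) ^ (4:ℝ) := by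
            have a1 : (2 * δ T) ^ (α ^ 2) = (2:ℝ) ^ (α ^ 2) * δ T ^ (α ^ 2) := Real.mul_rpow (by norm_num) hT.le
            have a2 : (2 * δ T) ^ (4:ℝ) = (2:ℝ) ^ (4:ℝ) * δ T ^ (4:ℝ) := Real.mul_rpow (by norm_num) hT.le
            have a3 : (δ T ^ (-(2 + c))) ^ (2 * α - 4) = δ T ^ (-(2 + c) * (2 * α - 4)) := by
              rw [← Real.rpow_mul hT.le]
            have a4 : (2:ℝ) ^ (α ^ 2) = (2:ℝ) ^ (α ^ 2 - 4) * (2:ℝ) ^ (4:ℝ) := by
              rw [← Real.rpow_add (by norm_num)]; congr 1; ring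
            have a5 : δ T ^ (α ^ 2) * δ T ^ (-(2 + c) * (2 * α - 4)) ≤ δ T ^ (4:ℝ) := by
              rw [← Real.rpow_add hT]
              refine Real.rpow_le_rpow_of_exponent_ge hT (by linarith) ?_
              nlinarith [mul_nonneg (sub_nonneg.mpr h2α.le) (sub_nonneg.mpr h2c)]
            rw [a1, a2, a3, a4]
            calc _ = (2:ℝ) ^ (α ^ 2 - 4) * (2:ℝ) ^ (4:ℝ) * (δ T ^ (α ^ 2) * δ T ^ (-(2 + c) * (2 * α - 4))) := by ring
              _ ≤ (2:ℝ) ^ (α ^ 2 - 4) * (2:ℝ) ^ (4:ℝ) * δ T ^ (4:ℝ) := mul_le_mul_of_nonneg_left a5 (by positivity)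
              _ = _ := by ring
          calc _ ≤ (2 * δ T) ^ (α ^ 2) * ((δ T ^ (-(2 + c))) ^ (2 * α - 4) *
                ∫ u in E₀ T, fz (1 / 2 + δ T) x T u ^ (4:ℝ)) := mul_le_mul_of_nonneg_left h3 (by positivity)
            _ = ((2 * δ T) ^ (α ^ 2) * (δ T ^ (-(2 + c))) ^ (2 * α - 4)) *
                ∫ u in E₀ T, fz (1 / 2 + δ T) x T u ^ (4:ℝ) := by ring
            _ ≤ ((2:ℝ) ^ (α ^ 2 - 4) * (2 * δ T) ^ (4:ℝ)) * ∫ u in E₀ T, fz (1 / 2 + δ T) x T u ^ (4:ℝ) :=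
                mul_le_mul_of_nonneg_right hk hI
            _ = _ := by ring
    have h3 := (hE₂ α hα).add hrem
    rw [add_zero] at h3
    refine h3.congr' ?_
    filter_upwards [hlt] with T hT2
    have hm : MeasurableSet (E T) := by
      rw [hEe hT2]
      exact (hE₀ T).1.inter (isOpen_lt continuous_const (fz_cont (by linarith) x T)).measurableSet
    have hsub : E T ⊆ E₀ T := by rw [hEe hT2]; exact Set.inter_subset_left
    rw [fz_split2 (σ := 1 / 2 + δ T) (β := 2 * α) (by linarith) (by linarith) x T (hE₀ T).1 (hE₀ T).2 hm hsub]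
    unfold fz
    ring

end Pool.Agent.Y755
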