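import Pool.Agent.Y755.Torus

set_option autoImplicit false

/-! Local estimates: one prime. -/

namespace Pool.Agent.Y755

open Finset Filter MeasureTheory MonoidAlgebra
open Pool.Agent.W184.NZ

/-- the truncated geometric series -/
noncomputable def gz (K : ℕ) (z : ℂ) : ℂ := ∑ e ∈ range (K + 1), z ^ e

lemma gz_cont (K : ℕ) : Continuous (gz K) := by unfold gz; fun_prop

/-- second order expansions -/
def E3 (f : ℂ → ℂ) (c d C : ℝ) : Prop :=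
  ∀ z : ℂ, ‖z‖ ≤ 1 / 16 → ‖f z - (1 + c * z + d * z ^ 2)‖ ≤ C * ‖z‖ ^ 3

lemma gz_eq {K : ℕ} {z : ℂ} (hz : ‖z‖ ≤ 1 / 16) : gz K z = (1 - z ^ (K + 1)) / (1 - z) := by
  have h1 : (1 - z) ≠ 0 := by
    intro h
    have h2 : z = 1 := (sub_eq_zero.mp h).symm
    rw [h2, norm_one] at hz
    norm_num at hz
  rw [eq_div_iff h1, mul_comm]
  exact mul_neg_geom_sum z (K + 1)

lemma one_sub_ge {z : ℂ} (hz : ‖z‖ ≤ 1 / 16) : 15 / 16 ≤ ‖1 - z‖ := by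
  have := norm_sub_norm_le (1:ℂ) z
  rw [norm_one] at this
  linarith

lemma E3_gz {K : ℕ} (hK : 2 ≤ K) : E3 (gz K) 1 1 3 := by
  intro z hz
  have h1 : (1 - z) ≠ 0 := by
    intro h
    have h2 : z = 1 := (sub_eq_zero.mp h).symm
    rw [h2, norm_one] at hz
    norm_num at hz
  have h2 : gz K z - (1 + ((1:ℝ):ℂ) * z + ((1:ℝ):ℂ) * z ^ 2) = (z ^ 3 - z ^ (K + 1)) / (1 - z) := by
    rw [gz_eq hz]
    field_simp
    push_cast
    ring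
  rw [h2, norm_div]
  have h3 := one_sub_ge hz
  rw [div_le_iff₀ (by linarith)]
  have h4 : ‖z ^ 3 - z ^ (K + 1)‖ ≤ 2 * ‖z‖ ^ 3 := by
    refine (norm_sub_le _ _).trans ?_
    rw [norm_pow, norm_pow]
    have : ‖z‖ ^ (K + 1) ≤ ‖z‖ ^ 3 := pow_le_pow_of_le_one (norm_nonneg _) (by linarith) (by omega)
    linarith
  have h5 : 0 ≤ ‖z‖ ^ 3 := by positivity
  nlinarith

lemma exp_eighth : Real.exp (1 / 8) ≤ 2 := by
  have h1 : Real.exp (1 / 8) ≤ Real.exp (1 / 8) ^ 8 := by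
    refine le_self_pow₀ (Real.one_le_exp (by norm_num)) (by norm_num)
  have h2 : Real.exp (1 / 8) ^ 8 = Real.exp 1 := by rw [← Real.exp_nat_mul]; norm_num
  have h3 := Real.exp_one_lt_d9
  by_contra hc
  push Not at hc
  have h4 : (2:ℝ) ^ 8 ≤ Real.exp (1 / 8) ^ 8 := pow_le_pow_left₀ (by norm_num) hc.le 8
  rw [h2] at h4
  norm_num at h4
  linarith

lemma E3_exp {a : ℝ} (ha : |a| ≤ 2) : E3 (fun z => Complex.exp (a * z)) a (a ^ 2 / 2) 16 := by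
  intro z hz
  have hw : ‖(a:ℂ) * z‖ ≤ 2 * ‖z‖ := by
    rw [norm_mul, Complex.norm_real, Real.norm_eq_abs]
    exact mul_le_mul_of_nonneg_right ha (norm_nonneg _)
  have h1 := Complex.norm_exp_sub_sum_le_norm_mul_exp ((a:ℂ) * z) 3
  simp only [sum_range_succ, sum_range_zero, Nat.factorial] at h1
  have h2 : Complex.exp (a * z) - (1 + (a:ℂ) * z + ((a ^ 2 / 2 : ℝ) : ℂ) * z ^ 2) =
      Complex.exp (a * z) - (0 + ((a:ℂ) * z) ^ 0 / ((1:ℕ):ℂ) + ((a:ℂ) * z) ^ 1 / (((0 + 1) * 1 : ℕ):ℂ) +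
        ((a:ℂ) * z) ^ 2 / (((1 + 1) * ((0 + 1) * 1) : ℕ):ℂ)) := by
    push_cast
    ring
  simp only
  rw [h2]
  refine h1.trans ?_
  have h3 : Real.exp ‖(a:ℂ) * z‖ ≤ 2 := by
    refine le_trans (Real.exp_le_exp.mpr ?_) exp_eighth
    linarith
  calc ‖(a:ℂ) * z‖ ^ 3 * Real.exp ‖(a:ℂ) * z‖ ≤ (2 * ‖z‖) ^ 3 * 2 := by gcongr
    _ = 16 * ‖z‖ ^ 3 := by ring

lemma E3_norm {f : ℂ → ℂ} {c d C : ℝ} (h : E3 f c d C) (hc : |c| ≤ 5) (hd : |d| ≤ 5) (hC : C ≤ 50) {z : ℂ}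
    (hz : ‖z‖ ≤ 1 / 16) : ‖f z‖ ≤ 2 := by
  have h1 := h z hz
  have hz0 := norm_nonneg z
  have h2 : ‖(1 + (c:ℂ) * z + d * z ^ 2)‖ ≤ 1 + 5 * (1 / 16) + 5 * (1 / 16) ^ 2 := by
    refine (norm_add_le _ _).trans (add_le_add ((norm_add_le _ _).trans (add_le_add (by simp) ?_)) ?_)
    · rw [norm_mul, Complex.norm_real, Real.norm_eq_abs]
      gcongr
    · rw [norm_mul, Complex.norm_real, Real.norm_eq_abs, norm_pow]
      gcongr
  have h3 : ‖f z‖ ≤ ‖f z - (1 + c * z + d * z ^ 2)‖ + ‖(1 + (c:ℂ) * z + d * z ^ 2)‖ := by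
    have := norm_add_le (f z - (1 + c * z + d * z ^ 2)) (1 + (c:ℂ) * z + d * z ^ 2)
    rwa [sub_add_cancel] at this
  have h4 : C * ‖z‖ ^ 3 ≤ 50 * (1 / 16) ^ 3 := by
    have h5 : ‖z‖ ^ 3 ≤ (1 / 16) ^ 3 := pow_le_pow_left₀ hz0 hz 3
    have h6 : 0 ≤ ‖z‖ ^ 3 := by positivity
    nlinarith
  norm_num at h2 h4
  linarith

lemma E3_mul {a : ℝ} (ha : |a| ≤ 2) {K : ℕ} (hK : 2 ≤ K) :
    E3 (fun z => gz K z * Complex.exp (a * z)) (1 + a) (1 + a + a ^ 2 / 2) 50 := by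
  intro z hz
  have h1 := E3_gz hK z hz
  have h2 := E3_exp ha z hz
  have ha2 : a ^ 2 ≤ 4 := by
    have := pow_le_pow_left₀ (abs_nonneg a) ha 2
    rw [sq_abs] at this
    linarith
  have h3 := E3_norm (E3_exp ha) (by linarith) (by rw [abs_of_nonneg (by positivity)]; linarith) (by norm_num) hz
  have hz0 := norm_nonneg z
  simp only at h2 h3 ⊢
  set P : ℂ := 1 + ((1:ℝ):ℂ) * z + ((1:ℝ):ℂ) * z ^ 2 with hP
  set Q : ℂ := 1 + (a:ℂ) * z + ((a ^ 2 / 2 : ℝ) : ℂ) * z ^ 2 with hQ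
  have hPn : ‖P‖ ≤ 2 := by
    have : ‖P‖ ≤ 1 + 1 / 16 + (1 / 16) ^ 2 := by
      refine (norm_add_le _ _).trans (add_le_add ((norm_add_le _ _).trans (add_le_add (by simp) ?_)) ?_)
      · simpa using hz
      · simp only [Complex.ofReal_one, one_mul, norm_pow]
        gcongr
    norm_num at this
    linarith
  have e1 : gz K z * Complex.exp (a * z) - (1 + ((1 + a : ℝ):ℂ) * z + ((1 + a + a ^ 2 / 2 : ℝ) : ℂ) * z ^ 2) =
      (gz K z - P) * Complex.exp (a * z) + P * (Complex.exp (a * z) - Q) +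
        (((a ^ 2 / 2 + a : ℝ) : ℂ) * z ^ 3 + ((a ^ 2 / 2 : ℝ) : ℂ) * z ^ 4) := by
    rw [hP, hQ]
    push_cast
    ring
  rw [e1]
  have b1 : ‖(gz K z - P) * Complex.exp (a * z)‖ ≤ 6 * ‖z‖ ^ 3 := by
    rw [norm_mul]
    calc _ ≤ (3 * ‖z‖ ^ 3) * 2 := mul_le_mul h1 h3 (norm_nonneg _) (by positivity)
      _ = _ := by ring
  have b2 : ‖P * (Complex.exp (a * z) - Q)‖ ≤ 32 * ‖z‖ ^ 3 := by
    rw [norm_mul]
    calc _ ≤ 2 * (16 * ‖z‖ ^ 3) := mul_le_mul hPn h2 (norm_nonneg _) (by positivity)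
      _ = _ := by ring
  have b3 : ‖((a ^ 2 / 2 + a : ℝ) : ℂ) * z ^ 3‖ ≤ 4 * ‖z‖ ^ 3 := by
    rw [norm_mul, Complex.norm_real, Real.norm_eq_abs, norm_pow]
    refine mul_le_mul_of_nonneg_right ?_ (by positivity)
    refine (abs_add_le _ _).trans ?_
    rw [abs_of_nonneg (by positivity : 0 ≤ a ^ 2 / 2)]
    linarith
  have b4 : ‖((a ^ 2 / 2 : ℝ) : ℂ) * z ^ 4‖ ≤ 2 * ‖z‖ ^ 3 := by
    rw [norm_mul, Complex.norm_real, Real.norm_eq_abs, norm_pow, abs_of_nonneg (by positivity : 0 ≤ a ^ 2 / 2)]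
    have : ‖z‖ ^ 4 ≤ ‖z‖ ^ 3 := pow_le_pow_of_le_one hz0 (by linarith) (by norm_num)
    have h0 : 0 ≤ ‖z‖ ^ 4 := by positivity
    nlinarith
  have c1 := norm_add_le ((gz K z - P) * Complex.exp (a * z) + P * (Complex.exp (a * z) - Q))
        (((a ^ 2 / 2 + a : ℝ) : ℂ) * z ^ 3 + ((a ^ 2 / 2 : ℝ) : ℂ) * z ^ 4)
  have c2 := norm_add_le ((gz K z - P) * Complex.exp (a * z)) (P * (Complex.exp (a * z) - Q))
  have c3 := norm_add_le (((a ^ 2 / 2 + a : ℝ) : ℂ) * z ^ 3) (((a ^ 2 / 2 : ℝ) : ℂ) * z ^ 4)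
  have c4 : 0 ≤ ‖z‖ ^ 3 := by positivity
  linarith

lemma P_int {r : ℝ} (hr : 0 < r) (c d c' d' : ℝ) :
    ∫ z, (1 + (c:ℂ) * z + d * z ^ 2) * starRingEnd ℂ (1 + (c':ℂ) * z + d' * z ^ 2) ∂(cm r) =
      ((1 + c * c' * r ^ 2 + d * d' * r ^ 4 : ℝ) : ℂ) := by
  have m : ∀ k l : ℕ, Integrable (fun z : ℂ => z ^ k * (starRingEnd ℂ z) ^ l) (cm r) := fun k l =>
    cm_integrable hr (by fun_prop)
  have e1 : ∀ z : ℂ, (1 + (c:ℂ) * z + d * z ^ 2) * starRingEnd ℂ (1 + (c':ℂ) * z + d' * z ^ 2) =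
      ∑ k ∈ range 3, ∑ l ∈ range 3, ((![1, c, d] (Fin.ofNat 3 k) * ![1, c', d'] (Fin.ofNat 3 l) : ℝ) : ℂ) *
        (z ^ k * (starRingEnd ℂ z) ^ l) := by
    intro z
    simp only [sum_range_succ, sum_range_zero, map_add, map_mul, map_one, map_pow, Complex.conj_ofReal]
    simp [Fin.ofNat]
    ring
  simp_rw [e1]
  rw [integral_finsetSum _ fun k _ => integrable_finsetSum _ fun l _ => (m k l).const_mul _]
  have e2 : ∀ k ∈ range 3, ∫ z, ∑ l ∈ range 3, ((![1, c, d] (Fin.ofNat 3 k) * ![1, c', d'] (Fin.ofNat 3 l) : ℝ) : ℂ) *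
        (z ^ k * (starRingEnd ℂ z) ^ l) ∂(cm r) = ∑ l ∈ range 3,
        ((![1, c, d] (Fin.ofNat 3 k) * ![1, c', d'] (Fin.ofNat 3 l) : ℝ) : ℂ) *
          (if k = l then ((r ^ (2 * k) : ℝ) : ℂ) else 0) := by
    intro k _
    rw [integral_finsetSum _ fun l _ => (m k l).const_mul _]
    refine sum_congr rfl fun l _ => ?_
    rw [integral_const_mul, cm_mom hr]
  rw [sum_congr rfl e2]
  simp only [sum_range_succ, sum_range_zero]
  simp [Fin.ofNat]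

/-- the local integral of two functions -/
theorem int_E3 {f h : ℂ → ℂ} {c d C c' d' C' r : ℝ} (hr : 0 < r) (hr1 : r ≤ 1 / 16) (hf : E3 f c d C)
    (hh : E3 h c' d' C') (fc : Continuous f) (hc : Continuous h) (c1 : |c| ≤ 5) (d1 : |d| ≤ 5) (C1 : C ≤ 50)
    (c2 : |c'| ≤ 5) (d2 : |d'| ≤ 5) (C2 : C' ≤ 50) :
    ‖∫ z, f z * starRingEnd ℂ (h z) ∂(cm r) - ((1 + c * c' * r ^ 2 : ℝ) : ℂ)‖ ≤ 250 * r ^ 3 := by
  have hcj : Continuous fun z => starRingEnd ℂ (h z) := Complex.continuous_conj.comp hc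
  have h1 : ∫ z, f z * starRingEnd ℂ (h z) ∂(cm r) - ((1 + c * c' * r ^ 2 : ℝ) : ℂ) =
      (∫ z, (f z * starRingEnd ℂ (h z) - (1 + (c:ℂ) * z + d * z ^ 2) *
        starRingEnd ℂ (1 + (c':ℂ) * z + d' * z ^ 2)) ∂(cm r)) + ((d * d' * r ^ 4 : ℝ) : ℂ) := by
    have i1 : Integrable (fun z => f z * starRingEnd ℂ (h z)) (cm r) := cm_integrable hr (fc.mul hcj)
    have i2 : Integrable (fun z : ℂ => (1 + (c:ℂ) * z + d * z ^ 2) *
        starRingEnd ℂ (1 + (c':ℂ) * z + d' * z ^ 2)) (cm r) := cm_integrable hr (by fun_prop)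
    rw [integral_sub i1 i2, P_int hr]
    push_cast
    ring
  rw [h1]
  have h2 : ‖∫ z, (f z * starRingEnd ℂ (h z) - (1 + (c:ℂ) * z + d * z ^ 2) *
        starRingEnd ℂ (1 + (c':ℂ) * z + d' * z ^ 2)) ∂(cm r)‖ ≤ 200 * r ^ 3 := by
    have h3 : ∀ᵐ z ∂(cm r), ‖f z * starRingEnd ℂ (h z) - (1 + (c:ℂ) * z + d * z ^ 2) *
        starRingEnd ℂ (1 + (c':ℂ) * z + d' * z ^ 2)‖ ≤ 200 * r ^ 3 := by
      filter_upwards [cm_norm hr] with z hz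
      have hz1 : ‖z‖ ≤ 1 / 16 := by rw [hz]; exact hr1
      have a1 := hf z hz1
      have a2 := hh z hz1
      have a3 := E3_norm hh c2 d2 C2 hz1
      have a4 : ‖(1 + (c:ℂ) * z + d * z ^ 2)‖ ≤ 2 := by
        have : E3 (fun z => (1 + (c:ℂ) * z + d * z ^ 2)) c d 0 := by
          intro w _
          simp
        exact E3_norm this c1 d1 (by norm_num) hz1
      have e : f z * starRingEnd ℂ (h z) - (1 + (c:ℂ) * z + d * z ^ 2) *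
        starRingEnd ℂ (1 + (c':ℂ) * z + d' * z ^ 2) = (f z - (1 + (c:ℂ) * z + d * z ^ 2)) * starRingEnd ℂ (h z) +
        (1 + (c:ℂ) * z + d * z ^ 2) * starRingEnd ℂ (h z - (1 + (c':ℂ) * z + d' * z ^ 2)) := by
        rw [map_sub]; ring
      rw [e]
      refine (norm_add_le _ _).trans ?_
      rw [norm_mul, norm_mul, RCLike.norm_conj, RCLike.norm_conj]
      rw [hz] at a1 a2
      have r3 : 0 ≤ r ^ 3 := by positivity
      have b1 : ‖f z - (1 + (c:ℂ) * z + d * z ^ 2)‖ ≤ 50 * r ^ 3 := a1.trans (by gcongr)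
      have b2 : ‖h z - (1 + (c':ℂ) * z + d' * z ^ 2)‖ ≤ 50 * r ^ 3 := a2.trans (by gcongr)
      calc _ ≤ (50 * r ^ 3) * 2 + 2 * (50 * r ^ 3) := add_le_add
            (mul_le_mul b1 a3 (norm_nonneg _) (by positivity)) (mul_le_mul a4 b2 (norm_nonneg _) (by norm_num))
        _ = 200 * r ^ 3 := by ring
    refine (norm_integral_le_of_norm_le_const h3).trans ?_
    simp
  refine (norm_add_le _ _).trans ?_
  have h4 : ‖((d * d' * r ^ 4 : ℝ) : ℂ)‖ ≤ 50 * r ^ 3 := by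
    rw [Complex.norm_real, Real.norm_eq_abs, abs_mul, abs_mul, abs_of_nonneg (by positivity : 0 ≤ r ^ 4)]
    have h5 : |d| * |d'| ≤ 25 := by nlinarith [abs_nonneg d, abs_nonneg d']
    have h6 : r ^ 4 = r ^ 3 * r := by ring
    have h7 : 0 ≤ r ^ 3 := by positivity
    rw [h6]
    calc |d| * |d'| * (r ^ 3 * r) ≤ 25 * (r ^ 3 * (1 / 16)) := by gcongr
      _ ≤ 50 * r ^ 3 := by nlinarith
  linarith

lemma int_E3' {f h : ℂ → ℂ} {κ d C d' C' r : ℝ} (hr : 0 < r) (hr1 : r ≤ 1 / 16) (hf : E3 f κ d C)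
    (hh : E3 h κ d' C') (fc : Continuous f) (hc : Continuous h) (c1 : |κ| ≤ 2) (d1 : |d| ≤ 5) (C1 : C ≤ 50)
    (d2 : |d'| ≤ 5) (C2 : C' ≤ 50) :
    ‖∫ z, f z * starRingEnd ℂ (h z) ∂(cm r) - ((Real.exp (κ ^ 2 * r ^ 2) : ℝ) : ℂ)‖ ≤ 300 * r ^ 3 := by
  have h1 := int_E3 hr hr1 hf hh fc hc (by linarith) d1 C1 (by linarith) d2 C2
  have hκ : κ ^ 2 ≤ 4 := by
    have := pow_le_pow_left₀ (abs_nonneg κ) c1 2
    rw [sq_abs] at this
    linarith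
  have hr2 : r ^ 2 ≤ (1 / 16) ^ 2 := pow_le_pow_left₀ hr.le hr1 2
  have h2 : ‖κ ^ 2 * r ^ 2‖ ≤ 1 := by
    rw [Real.norm_of_nonneg (by positivity)]
    nlinarith [sq_nonneg κ, sq_nonneg r]
  have h3 := Real.norm_exp_sub_one_sub_id_le h2
  have h4 : ‖κ ^ 2 * r ^ 2‖ ^ 2 ≤ 16 * r ^ 4 := by
    rw [Real.norm_of_nonneg (by positivity), mul_pow, ← pow_mul, ← pow_mul]
    have : κ ^ (2 * 2) ≤ 16 := by
      calc κ ^ (2 * 2) = (κ ^ 2) ^ 2 := by ring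
        _ ≤ 4 ^ 2 := by gcongr
        _ = 16 := by norm_num
    simp only [Nat.reduceMul] at this ⊢
    gcongr
  have h5 : r ^ 4 = r ^ 3 * r := by ring
  have h6 : 0 ≤ r ^ 3 := by positivity
  have e : ∫ z, f z * starRingEnd ℂ (h z) ∂(cm r) - ((Real.exp (κ ^ 2 * r ^ 2) : ℝ) : ℂ) =
      (∫ z, f z * starRingEnd ℂ (h z) ∂(cm r) - ((1 + κ * κ * r ^ 2 : ℝ) : ℂ)) -
      ((Real.exp (κ ^ 2 * r ^ 2) - 1 - κ ^ 2 * r ^ 2 : ℝ) : ℂ) := by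
    push_cast; ring
  rw [e]
  refine (norm_sub_le _ _).trans ?_
  rw [Complex.norm_real]
  have : 16 * r ^ 4 ≤ r ^ 3 := by rw [h5]; nlinarith
  linarith

end Pool.Agent.Y755
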