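import Pool.Agent.Y755.Alg1

set_option autoImplicit false

/-! Mean squares of Dirichlet polynomials. -/

namespace Pool.Agent.Y755

open Finset Filter MeasureTheory MonoidAlgebra
open Pool.Agent.W184.NZ

lemma ev_Xh {δ : ℝ} (hδ : 0 ≤ δ) (t : ℝ) (f : P1) : ev t (Xh δ f) = es (1 / 2 + δ + t * Complex.I) f := by
  rw [es_apply]
  conv_lhs => rw [P1_sum f, map_sum, map_sum]
  refine sum_congr rfl fun n _ => ?_
  rw [Xh_single, ev_single]
  have e0 : mh t (n, 1) = (n : ℂ) ^ (-(1 / 2 + t * Complex.I)) * ((1:ℕ) : ℂ) ^ (-(1 / 2 - t * Complex.I)) := rfl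
  rw [e0, Nat.cast_one, Complex.one_cpow, mul_one]
  rcases Nat.eq_zero_or_pos n with h0 | h0
  · subst h0
    simp only [Nat.cast_zero]
    rw [Complex.zero_cpow, Complex.zero_cpow, mul_zero, mul_zero]
    · intro h
      have := congrArg Complex.re h
      simp at this
      linarith
    · intro h
      have := congrArg Complex.re h
      simp at this
  · have hn : (n:ℂ) ≠ 0 := by exact_mod_cast h0.ne'
    have e1 : (((n:ℝ) ^ (-δ) : ℝ) : ℂ) = (n:ℂ) ^ (-(δ:ℂ)) := by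
      rw [Complex.ofReal_cpow (by positivity)]
      push_cast; rfl
    push_cast
    rw [Complex.ofReal_cpow (by positivity)]
    push_cast
    rw [mul_assoc, ← Complex.cpow_add _ _ hn]
    congr 2
    ring

lemma ev_Yh {δ : ℝ} (hδ : 0 ≤ δ) (t : ℝ) (f : P1) :
    ev t (Yh δ f) = starRingEnd ℂ (es (1 / 2 + δ + t * Complex.I) f) := by
  rw [es_apply, map_sum]
  conv_lhs => rw [P1_sum f, map_sum, map_sum]
  refine sum_congr rfl fun n _ => ?_
  rw [Yh_single, ev_single, map_mul, Complex.conj_ofReal]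
  have e0 : mh t (1, n) = ((1:ℕ) : ℂ) ^ (-(1 / 2 + t * Complex.I)) * (n : ℂ) ^ (-(1 / 2 - t * Complex.I)) := rfl
  rw [e0, Nat.cast_one, Complex.one_cpow, one_mul]
  rcases Nat.eq_zero_or_pos n with h0 | h0
  · subst h0
    simp only [Nat.cast_zero]
    rw [Complex.zero_cpow, Complex.zero_cpow, map_zero (starRingEnd ℂ), mul_zero, mul_zero]
    · intro h
      have := congrArg Complex.re h
      simp at this
      linarith
    · intro h
      have := congrArg Complex.re h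
      simp at this
  · have hn : (n:ℂ) ≠ 0 := by exact_mod_cast h0.ne'
    rw [← natCast_cpow_conj n h0.ne']
    push_cast
    rw [Complex.ofReal_cpow (by positivity)]
    push_cast
    rw [mul_assoc, ← Complex.cpow_add _ _ hn]
    congr 2
    simp only [map_neg, map_add, map_mul, Complex.conj_ofReal, Complex.conj_I, map_div₀, map_one, map_ofNat]
    ring

lemma normsq_ev {δ : ℝ} (hδ : 0 ≤ δ) (t : ℝ) (f : P1) :
    (ev t (Xh δ f * Yh δ f)).re = ‖es (1 / 2 + δ + t * Complex.I) f‖ ^ 2 := by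
  rw [map_mul, ev_Xh hδ, ev_Yh hδ, Complex.mul_conj, Complex.ofReal_re, Complex.normSq_eq_norm_sq]

lemma Xh_Bd {δ N : ℝ} (hN : 1 ≤ N) {f : P1} (hf : Bd1 N f) : Bd N (Xh δ f) := by
  rw [P1_sum f, map_sum]
  refine Bd.sum fun n hn => ?_
  rw [Xh_single]
  refine Bd.single ⟨⟨(hf n hn).1, one_ne_zero⟩, (hf n hn).2, ?_⟩ _
  simpa using hN

lemma Yh_Bd {δ N : ℝ} (hN : 1 ≤ N) {f : P1} (hf : Bd1 N f) : Bd N (Yh δ f) := by
  rw [P1_sum f, map_sum]
  refine Bd.sum fun n hn => ?_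
  rw [Yh_single]
  refine Bd.single ⟨⟨one_ne_zero, (hf n hn).1⟩, ?_, (hf n hn).2⟩ _
  simpa using hN

/-- sharper size of the product -/
lemma XY_Bd {δ N : ℝ} {f g : P1} (hf : Bd1 N f) (hg : Bd1 N g) : Bd N (Xh δ f * Yh δ g) := by
  rw [P1_sum f, P1_sum g, map_sum, map_sum, sum_mul_sum]
  refine Bd.sum fun n hn => Bd.sum fun m hm => ?_
  rw [Xh_single, Yh_single, single_mul_single]
  refine Bd.single ?_ _
  simp only [Prod.mk_mul_mk, mul_one, one_mul]
  exact ⟨⟨(hf n hn).1, (hg m hm).1⟩, (hf n hn).2, (hg m hm).2⟩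

lemma rpow_neg_le_one {δ : ℝ} (hδ : 0 ≤ δ) {n : ℕ} (hn : n ≠ 0) : (n:ℝ) ^ (-δ) ≤ 1 :=
  Real.rpow_le_one_of_one_le_of_nonpos (by exact_mod_cast Nat.pos_of_ne_zero hn) (by linarith)

lemma Xh_l1 {δ N : ℝ} (hδ : 0 ≤ δ) {f : P1} (hf : Bd1 N f) : l1 (Xh δ f) ≤ l1' f := by
  conv_lhs => rw [P1_sum f, map_sum]
  refine (l1_sum _ _).trans (sum_le_sum fun n hn => ?_)
  rw [Xh_single, l1_single, abs_mul]
  refine mul_le_of_le_one_right (abs_nonneg _) ?_
  rw [abs_of_nonneg (by positivity)]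
  exact rpow_neg_le_one hδ (hf n hn).1

lemma Yh_l1 {δ N : ℝ} (hδ : 0 ≤ δ) {f : P1} (hf : Bd1 N f) : l1 (Yh δ f) ≤ l1' f := by
  conv_lhs => rw [P1_sum f, map_sum]
  refine (l1_sum _ _).trans (sum_le_sum fun n hn => ?_)
  rw [Yh_single, l1_single, abs_mul]
  refine mul_le_of_le_one_right (abs_nonneg _) ?_
  rw [abs_of_nonneg (by positivity)]
  exact rpow_neg_le_one hδ (hf n hn).1

/-- the mean value theorem -/
theorem mvt {δ N : ℝ} (hδ : 0 ≤ δ) {f : P1} (hf : Bd1 N f) (T : ℝ) :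
    |(∫ t in (0:ℝ)..T, ‖es (1 / 2 + δ + t * Complex.I) f‖ ^ 2) - T * ip δ f f| ≤ 2 * N * l1' f ^ 2 := by
  rcases eq_or_ne f 0 with h0 | h0
  · subst h0
    simp [ip, l1'_zero]
  have hN : 0 ≤ N := by
    have : f.coeff.support.Nonempty := by
      rw [Finsupp.support_nonempty_iff]
      intro h
      exact h0 (by
        rw [P1_sum f, h]; simp)
    obtain ⟨n, hn⟩ := this
    exact (Nat.cast_nonneg n).trans (hf n hn).2
  have h1 := avg0 (XY_Bd (δ := δ) hf hf) T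
  simp_rw [normsq_ev hδ] at h1
  refine h1.trans ?_
  have h2 : l1 (Xh δ f * Yh δ f) ≤ l1' f ^ 2 := by
    refine (l1_mul _ _).trans ?_
    rw [sq]
    exact mul_le_mul (Xh_l1 hδ hf) (Yh_l1 hδ hf) (l1_nonneg _) (l1'_nonneg _)
  exact mul_le_mul_of_nonneg_left h2 (by positivity)

/-- supremum bound -/
lemma es_norm_le {s : ℂ} (hs : 0 ≤ s.re) {N : ℝ} {f : P1} (hf : Bd1 N f) : ‖es s f‖ ≤ l1' f := by
  rw [es_apply]
  refine (norm_sum_le _ _).trans (sum_le_sum fun n hn => ?_)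
  rw [norm_mul, Complex.norm_real, Real.norm_eq_abs]
  refine mul_le_of_le_one_right (abs_nonneg _) ?_
  rw [Complex.norm_natCast_cpow_of_pos (Nat.pos_of_ne_zero (hf n hn).1)]
  refine Real.rpow_le_one_of_one_le_of_nonpos (by exact_mod_cast Nat.pos_of_ne_zero (hf n hn).1) ?_
  simpa using hs

lemma es_diff {N : ℝ} {f : P1} (hf : Bd1 N f) : Differentiable ℂ (fun s => es s f) := by
  simp_rw [es_apply]
  refine Differentiable.fun_sum fun n hn => ?_
  refine Differentiable.const_mul ?_ _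
  intro s
  refine DifferentiableAt.const_cpow (by fun_prop) (Or.inl ?_)
  exact_mod_cast (hf n hn).1

end Pool.Agent.Y755
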