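import Pool.Agent.Y755.Sys

set_option autoImplicit false

/-! Norms of the Dirichlet polynomials built from the blocks. -/

namespace Pool.Agent.Y755

open Finset Filter MeasureTheory MonoidAlgebra
open Pool.Agent.W184.NZ

/-- the standing assumptions -/
structure Sy (c : ℝ) (z : ℕ) (y : ℝ) (J Rs N K : ℕ) : Prop where
  z1 : 1000 ≤ z
  zy : (z:ℝ) ≤ y
  J1 : bb y J < 144
  rg : Rg c J (IZ z y) (bb y)
  yN : y ≤ N
  K2 : 2 ≤ K
  NK : N < 2 ^ (K + 1)
  R1 : 1 ≤ Rs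

/-- the variance -/
noncomputable def Vd (δ : ℝ) (z : ℕ) (y : ℝ) (J : ℕ) : ℝ := ∑ i ∈ range J, vd δ (IZ z y i)

/-- the error of a block -/
noncomputable def er (c : ℝ) (z : ℕ) (y : ℝ) (Rs i : ℕ) : ℝ :=
  eb c (IZ z y i) (RR Rs i) + CE c * Real.exp (-(2 * (RR Rs i : ℝ)))

/-- the total error -/
noncomputable def ET (c : ℝ) (z : ℕ) (y : ℝ) (J Rs : ℕ) : ℝ := ∑ i ∈ range J, er c z y Rs i

/-- the product of the blocks -/
noncomputable def Bz (a : ℝ) (z : ℕ) (y : ℝ) (J Rs : ℕ) (S : Finset ℕ) : P1 := BS J a (RR Rs) (IZ z y) S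

/-- the truncated polynomial -/
noncomputable def DS (N : ℕ) (a : ℝ) (z : ℕ) (y : ℝ) (J Rs : ℕ) (A0 : P1) (S : Finset ℕ) : P1 :=
  Dt N (Pz z * A0 * Bz a z y J Rs S)

lemma er_nonneg (c : ℝ) (z : ℕ) (y : ℝ) (Rs i : ℕ) : 0 ≤ er c z y Rs i := by
  unfold er
  have h1 := eb_nonneg c (IZ z y i) (RR Rs i)
  have h2 := CE_pos c
  positivity

lemma ET_nonneg (c : ℝ) (z : ℕ) (y : ℝ) (J Rs : ℕ) : 0 ≤ ET c z y J Rs := sum_nonneg fun _ _ => er_nonneg _ _ _ _ _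

lemma Vd_nonneg (δ : ℝ) (z : ℕ) (y : ℝ) (J : ℕ) : 0 ≤ Vd δ z y J := sum_nonneg fun _ _ => vd_nonneg _ _

lemma eb_le_er (c : ℝ) (z : ℕ) (y : ℝ) (Rs i : ℕ) : eb c (IZ z y i) (RR Rs i) ≤ er c z y Rs i := by
  unfold er
  have h2 := CE_pos c
  have : 0 ≤ CE c * Real.exp (-(2 * (RR Rs i : ℝ))) := by positivity
  linarith

lemma IZ_prime {z : ℕ} {y : ℝ} (i : ℕ) : ∀ p ∈ IZ z y i, p.Prime := by
  intro p hp; rw [mem_IZ, mem_II] at hp; exact hp.1.1

lemma Pz_mem (z : ℕ) : Pz z ∈ SA1 (M1 (S0 z)) := by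
  unfold Pz
  refine Subalgebra.prod_mem _ fun p hp => Subalgebra.sub_mem _ (Subalgebra.one_mem _)
    (single_mem_SA1 (prime_mem_M1 (mem_S0.mp hp).2 hp) 1)

section

variable {c y δ a : ℝ} {z J Rs N K : ℕ} {A0 : P1} {m : ℝ}

lemma Sy.dj (h : Sy c z y J Rs N K) : Disjoint (S0 z ∪ (range J).biUnion (IZ z y)) (Rst N y) :=
  dj2 (by have := h.z1; omega) h.zy h.J1 N

lemma IZ_dj (h : Sy c z y J Rs N K) (i j : ℕ) (hij : i < j) : Disjoint (IZ z y i) (IZ z y j) := h.rg.dj i j hij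

lemma ip3 (h : Sy c z y J Rs N K) {F1 F2 F3 G1 G2 G3 : P1} (f1 : F1 ∈ SA1 (M1 (S0 z)))
    (f2 : F2 ∈ SA1 (M1 ((range J).biUnion (IZ z y)))) (f3 : F3 ∈ SA1 (M1 (Rst N y)))
    (g1 : G1 ∈ SA1 (M1 (S0 z))) (g2 : G2 ∈ SA1 (M1 ((range J).biUnion (IZ z y)))) (g3 : G3 ∈ SA1 (M1 (Rst N y))) :
    ip δ (F1 * F2 * F3) (G1 * G2 * G3) = ip δ F1 G1 * ip δ F2 G2 * ip δ F3 G3 := by
  rw [ip_mul h.dj (Subalgebra.mul_mem _ (SA1_mono subset_union_left f1) (SA1_mono subset_union_right f2))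
    (Subalgebra.mul_mem _ (SA1_mono subset_union_left g1) (SA1_mono subset_union_right g2)) f3 g3,
    ip_mul (dj1 J) f1 g1 f2 g2]

lemma ip2 {F1 F2 G1 G2 : P1} (f1 : F1 ∈ SA1 (M1 (S0 z)))
    (f2 : F2 ∈ SA1 (M1 ((range J).biUnion (IZ z y))))
    (g1 : G1 ∈ SA1 (M1 (S0 z))) (g2 : G2 ∈ SA1 (M1 ((range J).biUnion (IZ z y)))) :
    ip δ (F1 * F2) (G1 * G2) = ip δ F1 G1 * ip δ F2 G2 := ip_mul (dj1 J) f1 g1 f2 g2

/-- the first factor -/
noncomputable def F1 (K z : ℕ) (A0 : P1) : P1 := GI K (S0 z) * Pz z * A0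

/-- the second factor -/
noncomputable def F2 (K : ℕ) (a : ℝ) (z : ℕ) (y : ℝ) (J Rs : ℕ) (S : Finset ℕ) : P1 :=
  ∏ i ∈ range J, (GI K (IZ z y i) * bs a (RR Rs) (IZ z y) S i)

lemma F1_mem (hA : A0 ∈ SA1 (M1 (S0 z))) : F1 K z A0 ∈ SA1 (M1 (S0 z)) :=
  Subalgebra.mul_mem _ (Subalgebra.mul_mem _ (GI_mem (fun p hp => (mem_S0.mp hp).2) K) (Pz_mem z)) hA

lemma F2_mem (S : Finset ℕ) : F2 K a z y J Rs S ∈ SA1 (M1 ((range J).biUnion (IZ z y))) :=
  prod_mem1 J fun i _ => Subalgebra.mul_mem _ (GI_mem (IZ_prime i) K) (bs_mem IZ_prime i)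

lemma Bz_mem (S : Finset ℕ) : Bz a z y J Rs S ∈ SA1 (M1 ((range J).biUnion (IZ z y))) :=
  prod_mem1 J fun i _ => bs_mem IZ_prime i

lemma Rst_prime : ∀ p ∈ Rst N y, p.Prime := fun p hp => Pn_prime (mem_Rst.mp hp).1

lemma F3_mem : GI K (Rst N y) ∈ SA1 (M1 (Rst N y)) := GI_mem Rst_prime K

lemma Pz_Bd (z : ℕ) : Bd1 ((z:ℝ) ^ (S0 z).card) (Pz z) := by
  unfold Pz
  have : ∀ P : Finset ℕ, (∀ p ∈ P, p < z ∧ p.Prime) → Bd1 ((z:ℝ) ^ P.card) (∏ p ∈ P, (1 - single p 1) : P1) := by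
    classical
    intro P
    induction P using Finset.induction_on with
    | empty => intro _; simp only [card_empty, pow_zero, prod_empty]; exact Bd1.one
    | insert p P hp ih =>
      intro h
      have hp1 := h p (mem_insert_self _ _)
      have hz : (1:ℝ) ≤ z := by exact_mod_cast (by omega : 1 ≤ z)
      have hh := (ih fun q hq => h q (mem_insert_of_mem hq)).mul
        ((Bd1.one.mono hz).sub (Bd1.single ⟨hp1.2.ne_zero, by exact_mod_cast hp1.1.le⟩ 1))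
      rw [card_insert_of_notMem hp, prod_insert hp, pow_succ, mul_comm (1 - single p 1 : P1)]
      exact hh
  exact this _ fun p hp => mem_S0.mp hp

lemma D_split (h : Sy c z y J Rs N K) (hA : Bd1 m A0) (S : Finset ℕ) :
    DS N a z y J Rs A0 S = trn N (F1 K z A0 * F2 K a z y J Rs S * GI K (Rst N y)) := by
  have hB : Bd1 (z ^ (S0 z).card * m * Real.exp (Real.log y * (80 * ((Rs:ℝ) + 1)))) (Pz z * A0 * Bz a z y J Rs S) :=
    ((Pz_Bd z).mul hA).mul (BS_Bd (by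
      have h1 : (1000:ℝ) ≤ z := by exact_mod_cast h.z1
      have h2 := h.zy
      linarith) h.rg S)
  unfold DS
  rw [Dt_eq h.NK hB, GI_split (by have := h.z1; omega) h.zy h.J1 h.yN]
  congr 1
  unfold F1 F2 Bz BS
  rw [prod_mul_distrib]
  ring

lemma blkS (h : Sy c z y J Rs N K) (hδ : 0 ≤ δ) (ha : |a| ≤ 1) (S : Finset ℕ) {i : ℕ} (hi : i < J) :
    ip δ (GI K (IZ z y i) * bs a (RR Rs) (IZ z y) S i) (GI K (IZ z y i) * bs a (RR Rs) (IZ z y) S i) ≤
      if i ∈ S then CE c * Real.exp (-(2 * (RR Rs i : ℝ))) else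
        (1 + eb c (IZ z y i) (RR Rs i)) * Real.exp ((1 + a) ^ 2 * vd δ (IZ z y i)) := by
  have hR : 1 ≤ RR Rs i := by have := h.R1; unfold RR; omega
  unfold bs
  split_ifs
  · exact blk4 hδ (Bg_IZ h.z1 y i) (h.rg.v i hi) (h.rg.u hi) h.K2 hR
  · have := blk1 hδ (Bg_IZ h.z1 y i) (h.rg.v i hi) (h.rg.u hi) h.K2 hR ha
    have h2 := (abs_le.mp this).2
    unfold Ae at h2
    linarith

lemma F2_ip (h : Sy c z y J Rs N K) (S : Finset ℕ) :
    ip δ (F2 K a z y J Rs S) (F2 K a z y J Rs S) =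
    ∏ i ∈ range J, ip δ (GI K (IZ z y i) * bs a (RR Rs) (IZ z y) S i) (GI K (IZ z y i) * bs a (RR Rs) (IZ z y) S i) := by
  have hm : ∀ i, GI K (IZ z y i) * bs a (RR Rs) (IZ z y) S i ∈ SA1 (M1 (IZ z y i)) := fun i =>
    Subalgebra.mul_mem _ (GI_mem (IZ_prime i) K) (bs_mem IZ_prime i)
  exact ip_prod δ J (IZ_dj h) hm hm

lemma prod_exp_le {f v e : ℕ → ℝ} {κ : ℝ} (hf0 : ∀ i < J, 0 ≤ f i)
    (hf : ∀ i < J, f i ≤ (1 + e i) * Real.exp (κ * v i)) :
    ∏ i ∈ range J, f i ≤ Real.exp (κ * (∑ i ∈ range J, v i) + ∑ i ∈ range J, e i) := by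
  rw [mul_sum, ← sum_add_distrib, Real.exp_sum]
  refine prod_le_prod (fun i hi => hf0 i (mem_range.mp hi)) fun i hi => ?_
  rw [mem_range] at hi
  refine (hf i hi).trans ?_
  rw [Real.exp_add, mul_comm]
  refine mul_le_mul_of_nonneg_left ?_ (Real.exp_pos _).le
  have := Real.add_one_le_exp (e i)
  linarith

lemma F2_sum (h : Sy c z y J Rs N K) (hδ : 0 ≤ δ) (ha : |a| ≤ 1) :
    ∑ S ∈ (range J).powerset, ip δ (F2 K a z y J Rs S) (F2 K a z y J Rs S) ≤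
      Real.exp ((1 + a) ^ 2 * Vd δ z y J + ET c z y J Rs) := by
  have h1 : ∀ S ∈ (range J).powerset, ip δ (F2 K a z y J Rs S) (F2 K a z y J Rs S) ≤
      ∏ i ∈ range J, if i ∈ S then CE c * Real.exp (-(2 * (RR Rs i : ℝ))) else
        (1 + eb c (IZ z y i) (RR Rs i)) * Real.exp ((1 + a) ^ 2 * vd δ (IZ z y i)) := by
    intro S _
    rw [F2_ip h S]
    exact prod_le_prod (fun i _ => ip_self_nonneg _ _) fun i hi => blkS h hδ ha S (mem_range.mp hi)
  refine (sum_le_sum h1).trans ?_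
  rw [sum_pow_prod (fun i => CE c * Real.exp (-(2 * (RR Rs i : ℝ))))
    (fun i => (1 + eb c (IZ z y i) (RR Rs i)) * Real.exp ((1 + a) ^ 2 * vd δ (IZ z y i)))]
  have hc := CE_pos c
  refine prod_exp_le (fun i _ => ?_) fun i _ => ?_
  · have := eb_nonneg c (IZ z y i) (RR Rs i)
    positivity
  · unfold er
    have h2 : 1 ≤ Real.exp ((1 + a) ^ 2 * vd δ (IZ z y i)) :=
      Real.one_le_exp (mul_nonneg (sq_nonneg _) (vd_nonneg _ _))
    have h3 : 0 ≤ CE c * Real.exp (-(2 * (RR Rs i : ℝ))) := by positivity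
    nlinarith

lemma F2_one (h : Sy c z y J Rs N K) (hδ : 0 ≤ δ) (ha : |a| ≤ 1) :
    ip δ (F2 K a z y J Rs ∅) (F2 K a z y J Rs ∅) ≤ Real.exp ((1 + a) ^ 2 * Vd δ z y J + ET c z y J Rs) := by
  refine le_trans ?_ (F2_sum h hδ ha)
  exact single_le_sum (f := fun S => ip δ (F2 K a z y J Rs S) (F2 K a z y J Rs S))
    (fun S _ => ip_self_nonneg _ _) (empty_mem_powerset _)

/-- all the polynomials -/
theorem N1 (h : Sy c z y J Rs N K) (hδ : 0 ≤ δ) (ha : |a| ≤ 1) (hA : Bd1 m A0) (hAm : A0 ∈ SA1 (M1 (S0 z)))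
    (hm : m < 2 ^ (K + 1)) :
    ∑ S ∈ (range J).powerset, ip δ (DS N a z y J Rs A0 S) (DS N a z y J Rs A0 S) ≤
      (ip δ A0 A0 + (2 ^ (S0 z).card * l1' A0) ^ 2 / 2 ^ (K + 1)) *
        Real.exp ((1 + a) ^ 2 * Vd δ z y J + ET c z y J Rs) * Real.exp (2 * vd δ (Rst N y)) := by
  have h1 : ∀ S ∈ (range J).powerset, ip δ (DS N a z y J Rs A0 S) (DS N a z y J Rs A0 S) ≤
      (ip δ A0 A0 + (2 ^ (S0 z).card * l1' A0) ^ 2 / 2 ^ (K + 1)) * ip δ (F2 K a z y J Rs S) (F2 K a z y J Rs S) *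
        Real.exp (2 * vd δ (Rst N y)) := by
    intro S _
    rw [D_split h hA S]
    refine (trn_ip_le δ N _).trans ?_
    rw [ip3 h (F1_mem hAm) (F2_mem S) F3_mem (F1_mem hAm) (F2_mem S) F3_mem]
    refine mul_le_mul (mul_le_mul_of_nonneg_right (small_ip hδ hA hm).2 (ip_self_nonneg _ _))
      (GI_ip_le hδ K Rst_prime) (ip_self_nonneg _ _) ?_
    exact mul_nonneg (le_trans (ip_self_nonneg δ (F1 K z A0)) (small_ip hδ hA hm).2) (ip_self_nonneg _ _)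
  refine (sum_le_sum h1).trans ?_
  rw [← sum_mul, ← mul_sum]
  refine mul_le_mul_of_nonneg_right (mul_le_mul_of_nonneg_left (F2_sum h hδ ha) ?_) (Real.exp_pos _).le
  exact le_trans (ip_self_nonneg δ (F1 K z A0)) (small_ip hδ hA hm).2

/-! the comparison polynomial -/

lemma Bz_empty (κ : ℝ) : Bz κ z y J Rs ∅ = ∏ i ∈ range J, NK (20 * RR Rs i) κ (x1 (IZ z y i)) := by
  unfold Bz BS
  exact prod_congr rfl fun i _ => by unfold bs; rw [if_neg (by simp)]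

lemma prod_low {f v e : ℕ → ℝ} {κ : ℝ} (he : ∑ i ∈ range J, e i ≤ 1) (he0 : ∀ i, 0 ≤ e i)
    (hf : ∀ i < J, (1 - e i) * Real.exp (κ * v i) ≤ f i) :
    (1 - ∑ i ∈ range J, e i) * Real.exp (κ * (∑ i ∈ range J, v i)) ≤ ∏ i ∈ range J, f i := by
  induction J with
  | zero => simp
  | succ J ih =>
    rw [sum_range_succ, sum_range_succ, prod_range_succ, mul_add, Real.exp_add]
    rw [sum_range_succ] at he
    have h0 : 0 ≤ ∑ i ∈ range J, e i := sum_nonneg fun i _ => he0 i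
    have h1 := ih (by linarith [he0 J]) fun i hi => hf i (by omega)
    have h2 := hf J (by omega)
    set E := Real.exp (κ * ∑ i ∈ range J, v i)
    set E2 := Real.exp (κ * v J)
    have hE : 0 < E := Real.exp_pos _
    have hE2 : 0 < E2 := Real.exp_pos _
    set s := ∑ i ∈ range J, e i
    have h3 : (1 - s) * E * ((1 - e J) * E2) ≤ (∏ i ∈ range J, f i) * f J := by
      refine mul_le_mul h1 h2 ?_ ?_
      · have := he0 J
        exact mul_nonneg (by linarith) hE2.le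
      · refine le_trans ?_ h1
        exact mul_nonneg (by linarith [he0 J]) hE.le
    refine le_trans ?_ h3
    have h4 : (1 - (s + e J)) ≤ (1 - s) * (1 - e J) := by nlinarith [mul_nonneg h0 (he0 J)]
    have h5 := mul_le_mul_of_nonneg_right h4 (mul_nonneg hE.le hE2.le)
    linarith

/-- the size of the comparison polynomial -/
theorem N45 (h : Sy c z y J Rs N K) (hδ : 0 ≤ δ) (ha : |a| ≤ 1) (hAm : A0 ∈ SA1 (M1 (S0 z)))
    (hE : ET c z y J Rs ≤ 1) :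
    (1 - ET c z y J Rs) * (ip δ A0 A0 * Real.exp ((1 + a) ^ 2 * Vd δ z y J)) ≤
      ip δ (A0 * Bz (1 + a) z y J Rs ∅) (A0 * Bz (1 + a) z y J Rs ∅) ∧
    ∑ S ∈ (range J).powerset, ip δ (A0 * Bz (1 + a) z y J Rs S) (A0 * Bz (1 + a) z y J Rs S) ≤
      ip δ A0 A0 * Real.exp ((1 + a) ^ 2 * Vd δ z y J + ET c z y J Rs) := by
  have h0 := ip_self_nonneg δ A0
  have hR : ∀ i, 1 ≤ RR Rs i := fun i => by have := h.R1; unfold RR; omega
  constructor
  · rw [ip2 hAm (Bz_mem ∅) hAm (Bz_mem ∅), Bz_empty, ip_prod δ J (IZ_dj h) (fun i => NK_mem1 (x1_mem (IZ_prime i)) _ _)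
      (fun i => NK_mem1 (x1_mem (IZ_prime i)) _ _)]
    have h1 := prod_low (J := J) (κ := (1 + a) ^ 2) (v := fun i => vd δ (IZ z y i)) (e := fun i => er c z y Rs i)
      (f := fun i => ip δ (NK (20 * RR Rs i) (1 + a) (x1 (IZ z y i))) (NK (20 * RR Rs i) (1 + a) (x1 (IZ z y i))))
      hE (fun i => er_nonneg _ _ _ _ _) (fun i hi => by
        have h2 := blk3 hδ (Bg_IZ h.z1 y i) (h.rg.v i hi) (h.rg.u hi) (hR i) ha
        have h3 := (abs_le.mp h2).1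
        have h4 := eb_le_er c z y Rs i
        have h5 : 0 < Real.exp ((1 + a) ^ 2 * vd δ (IZ z y i)) := Real.exp_pos _
        nlinarith)
    have h2 := mul_le_mul_of_nonneg_left h1 h0
    refine le_trans (le_of_eq ?_) h2
    unfold ET Vd
    ring
  · have h1 : ∀ S ∈ (range J).powerset, ip δ (A0 * Bz (1 + a) z y J Rs S) (A0 * Bz (1 + a) z y J Rs S) ≤
        ip δ A0 A0 * ∏ i ∈ range J, if i ∈ S then CE c * Real.exp (-(2 * (RR Rs i : ℝ))) else
        (1 + eb c (IZ z y i) (RR Rs i)) * Real.exp ((1 + a) ^ 2 * vd δ (IZ z y i)) := by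
      intro S _
      rw [ip2 hAm (Bz_mem S) hAm (Bz_mem S)]
      refine mul_le_mul_of_nonneg_left ?_ h0
      unfold Bz BS
      rw [ip_prod δ J (IZ_dj h) (fun i => bs_mem IZ_prime i) (fun i => bs_mem IZ_prime i)]
      refine prod_le_prod (fun i _ => ip_self_nonneg _ _) fun i hi => ?_
      rw [mem_range] at hi
      unfold bs
      split_ifs
      · exact blk6 hδ (Bg_IZ h.z1 y i) (h.rg.v i hi) (h.rg.u hi) (hR i)
      · have h2 := blk3 hδ (Bg_IZ h.z1 y i) (h.rg.v i hi) (h.rg.u hi) (hR i) ha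
        have h3 := (abs_le.mp h2).2
        linarith
    refine (sum_le_sum h1).trans ?_
    rw [← mul_sum, sum_pow_prod (fun i => CE c * Real.exp (-(2 * (RR Rs i : ℝ))))
      (fun i => (1 + eb c (IZ z y i) (RR Rs i)) * Real.exp ((1 + a) ^ 2 * vd δ (IZ z y i)))]
    refine mul_le_mul_of_nonneg_left ?_ h0
    have hc := CE_pos c
    refine prod_exp_le (fun i _ => ?_) fun i _ => ?_
    · have := eb_nonneg c (IZ z y i) (RR Rs i)
      positivity
    · unfold er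
      have h2 : 1 ≤ Real.exp ((1 + a) ^ 2 * vd δ (IZ z y i)) :=
        Real.one_le_exp (mul_nonneg (sq_nonneg _) (vd_nonneg _ _))
      have h3 : 0 ≤ CE c * Real.exp (-(2 * (RR Rs i : ℝ))) := by positivity
      nlinarith

/-- closeness -/
theorem N2 (h : Sy c z y J Rs N K) (hδ : 0 ≤ δ) (ha : |a| ≤ 1) (hA : Bd1 m A0) (hAm : A0 ∈ SA1 (M1 (S0 z)))
    (hm : m < 2 ^ (K + 1)) (hN : Bd1 N (A0 * Bz (1 + a) z y J Rs ∅)) (hE : ET c z y J Rs ≤ 1) :
    ip δ (DS N a z y J Rs A0 ∅ - A0 * Bz (1 + a) z y J Rs ∅) (DS N a z y J Rs A0 ∅ - A0 * Bz (1 + a) z y J Rs ∅) ≤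
      ((ip δ A0 A0 + (2 ^ (S0 z).card * l1' A0) ^ 2 / 2 ^ (K + 1)) *
        Real.exp (ET c z y J Rs + 2 * vd δ (Rst N y)) -
        2 * (1 - ET c z y J Rs) * ip δ A0 A0 + Real.exp (ET c z y J Rs) * ip δ A0 A0) *
        Real.exp ((1 + a) ^ 2 * Vd δ z y J) := by
  have h0 := ip_self_nonneg δ A0
  have hR : ∀ i, 1 ≤ RR Rs i := fun i => by have := h.R1; unfold RR; omega
  have e1 : DS N a z y J Rs A0 ∅ - A0 * Bz (1 + a) z y J Rs ∅ =
      trn N (F1 K z A0 * F2 K a z y J Rs ∅ * GI K (Rst N y) - A0 * Bz (1 + a) z y J Rs ∅) := by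
    rw [trn_sub, trn_self hN, D_split h hA]
  rw [e1]
  refine (trn_ip_le δ N _).trans ?_
  rw [ip_sub_self]
  have t1 : ip δ (F1 K z A0 * F2 K a z y J Rs ∅ * GI K (Rst N y)) (F1 K z A0 * F2 K a z y J Rs ∅ * GI K (Rst N y)) ≤
      (ip δ A0 A0 + (2 ^ (S0 z).card * l1' A0) ^ 2 / 2 ^ (K + 1)) *
        Real.exp (ET c z y J Rs + 2 * vd δ (Rst N y)) * Real.exp ((1 + a) ^ 2 * Vd δ z y J) := by
    rw [ip3 h (F1_mem hAm) (F2_mem ∅) F3_mem (F1_mem hAm) (F2_mem ∅) F3_mem]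
    have g1 := (small_ip (z := z) hδ hA hm).2
    have g2 := F2_one (K := K) h hδ ha
    have g3 := GI_ip_le hδ K (Rst_prime (N := N) (y := y))
    have g0 := le_trans (ip_self_nonneg δ (F1 K z A0)) g1
    calc _ ≤ (ip δ A0 A0 + (2 ^ (S0 z).card * l1' A0) ^ 2 / 2 ^ (K + 1)) *
          Real.exp ((1 + a) ^ 2 * Vd δ z y J + ET c z y J Rs) * Real.exp (2 * vd δ (Rst N y)) :=
          mul_le_mul (mul_le_mul g1 g2 (ip_self_nonneg _ _) g0) g3 (ip_self_nonneg _ _)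
            (mul_nonneg g0 (Real.exp_pos _).le)
      _ = _ := by rw [Real.exp_add, Real.exp_add]; ring
  have t2 : (1 - ET c z y J Rs) * ip δ A0 A0 * Real.exp ((1 + a) ^ 2 * Vd δ z y J) ≤
      ip δ (F1 K z A0 * F2 K a z y J Rs ∅ * GI K (Rst N y)) (A0 * Bz (1 + a) z y J Rs ∅) := by
    have e2 : A0 * Bz (1 + a) z y J Rs ∅ = A0 * Bz (1 + a) z y J Rs ∅ * 1 := (mul_one _).symm
    rw [e2, ip3 h (F1_mem hAm) (F2_mem ∅) F3_mem hAm (Bz_mem ∅) (Subalgebra.one_mem _), GI_ip_one δ K Rst_prime, mul_one]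
    have g1 : ip δ (F1 K z A0) A0 = ip δ A0 A0 := (small_ip hδ hA hm).1
    rw [g1, Bz_empty]
    unfold F2
    rw [ip_prod δ J (IZ_dj h) (fun i => Subalgebra.mul_mem _ (GI_mem (IZ_prime i) K) (bs_mem IZ_prime i))
      (fun i => NK_mem1 (x1_mem (IZ_prime i)) _ _)]
    have g2 := prod_low (J := J) (κ := (1 + a) ^ 2) (v := fun i => vd δ (IZ z y i)) (e := fun i => er c z y Rs i)
      (f := fun i => ip δ (GI K (IZ z y i) * bs a (RR Rs) (IZ z y) ∅ i) (NK (20 * RR Rs i) (1 + a) (x1 (IZ z y i))))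
      hE (fun i => er_nonneg _ _ _ _ _) (fun i hi => by
        have h2 := blk2 hδ (Bg_IZ h.z1 y i) (h.rg.v i hi) (h.rg.u hi) h.K2 (hR i) ha
        have h3 := (abs_le.mp h2).1
        have h4 := eb_le_er c z y Rs i
        have h5 : 0 < Real.exp ((1 + a) ^ 2 * vd δ (IZ z y i)) := Real.exp_pos _
        have e3 : bs a (RR Rs) (IZ z y) ∅ i = NK (20 * RR Rs i) a (x1 (IZ z y i)) := by
          unfold bs; rw [if_neg (by simp)]
        rw [e3]
        unfold Ae at h3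
        nlinarith)
    have h2 := mul_le_mul_of_nonneg_left g2 h0
    refine le_trans (le_of_eq ?_) h2
    unfold ET Vd
    ring
  have t3 : ip δ (A0 * Bz (1 + a) z y J Rs ∅) (A0 * Bz (1 + a) z y J Rs ∅) ≤
      Real.exp (ET c z y J Rs) * ip δ A0 A0 * Real.exp ((1 + a) ^ 2 * Vd δ z y J) := by
    have g1 := (N45 (K := K) h hδ ha hAm hE).2
    have g2 := single_le_sum (f := fun S => ip δ (A0 * Bz (1 + a) z y J Rs S) (A0 * Bz (1 + a) z y J Rs S))
      (fun S _ => ip_self_nonneg _ _) (empty_mem_powerset (range J))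
    refine g2.trans (g1.trans (le_of_eq ?_))
    rw [Real.exp_add]; ring
  linarith

/-- the far parts -/
theorem N3 (h : Sy c z y J Rs N K) (hδ : 0 ≤ δ) (ha : |a| ≤ 1) (hAm : A0 ∈ SA1 (M1 (S0 z))) :
    ∑ j ∈ range J, ip δ (A0 * Bz (1 + a) z y J Rs ∅ * Qe (RR Rs j) (IZ z y j))
      (A0 * Bz (1 + a) z y J Rs ∅ * Qe (RR Rs j) (IZ z y j)) ≤
      ET c z y J Rs * Real.exp (ET c z y J Rs) * (ip δ A0 A0 * Real.exp ((1 + a) ^ 2 * Vd δ z y J)) := by
  have h0 := ip_self_nonneg δ A0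
  have hR : ∀ i, 1 ≤ RR Rs i := fun i => by have := h.R1; unfold RR; omega
  have hc := CE_pos c
  obtain ⟨ha1, ha2⟩ := abs_le.mp ha
  have hj : ∀ j ∈ range J, ip δ (A0 * Bz (1 + a) z y J Rs ∅ * Qe (RR Rs j) (IZ z y j))
      (A0 * Bz (1 + a) z y J Rs ∅ * Qe (RR Rs j) (IZ z y j)) ≤
      er c z y Rs j * (Real.exp (ET c z y J Rs) * (ip δ A0 A0 * Real.exp ((1 + a) ^ 2 * Vd δ z y J))) := by
    intro j hj
    rw [mem_range] at hj
    set f : ℕ → P1 := fun i => NK (20 * RR Rs i) (1 + a) (x1 (IZ z y i)) * (if i = j then Qe (RR Rs j) (IZ z y j) else 1)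
      with hf
    have hfm : ∀ i, f i ∈ SA1 (M1 (IZ z y i)) := by
      intro i
      refine Subalgebra.mul_mem _ (NK_mem1 (x1_mem (IZ_prime i)) _ _) ?_
      split_ifs with hij
      · subst hij; exact Qe_mem (IZ_prime i) _
      · exact Subalgebra.one_mem _
    have e1 : A0 * Bz (1 + a) z y J Rs ∅ * Qe (RR Rs j) (IZ z y j) = A0 * ∏ i ∈ range J, f i := by
      rw [Bz_empty, hf, prod_mul_distrib, prod_ite_eq', if_pos (mem_range.mpr hj)]
      ring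
    rw [e1, ip2 hAm (prod_mem1 J fun i _ => hfm i) hAm (prod_mem1 J fun i _ => hfm i),
      ip_prod δ J (IZ_dj h) hfm hfm]
    have hs : (range J) = insert j ((range J).erase j) := (insert_erase (mem_range.mpr hj)).symm
    have g1 : ∏ i ∈ range J, ip δ (f i) (f i) ≤ er c z y Rs j * Real.exp ((1 + a) ^ 2 * Vd δ z y J + ET c z y J Rs) := by
      have g2 : ∏ i ∈ range J, ip δ (f i) (f i) ≤ ∏ i ∈ range J, ((if i = j then er c z y Rs j else 1) *
          (Real.exp ((1 + a) ^ 2 * vd δ (IZ z y i)) * Real.exp (er c z y Rs i))) := by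
        refine prod_le_prod (fun i _ => ip_self_nonneg _ _) fun i hi => ?_
        rw [mem_range] at hi
        have hE1 : 1 ≤ Real.exp ((1 + a) ^ 2 * vd δ (IZ z y i)) :=
          Real.one_le_exp (mul_nonneg (sq_nonneg _) (vd_nonneg _ _))
        have hE2 := Real.add_one_le_exp (er c z y Rs i)
        have hE3 := er_nonneg c z y Rs i
        have hE4 := eb_le_er c z y Rs i
        rw [hf]
        simp only
        split_ifs with hij
        · subst hij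
          have g3 := blk5 hδ (Bg_IZ h.z1 y i) (h.rg.v i hi) (h.rg.u hi) (hR i) (a := 1 + a) (by
            rw [abs_le]; constructor <;> linarith)
          have g4 : CE c * Real.exp (-(2 * (RR Rs i : ℝ))) ≤ er c z y Rs i := by
            unfold er; have := eb_nonneg c (IZ z y i) (RR Rs i); linarith
          refine g3.trans (g4.trans ?_)
          have g5 : 1 ≤ Real.exp ((1 + a) ^ 2 * vd δ (IZ z y i)) * Real.exp (er c z y Rs i) := by nlinarith
          nlinarith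
        · rw [mul_one, one_mul]
          have g3 := blk3 hδ (Bg_IZ h.z1 y i) (h.rg.v i hi) (h.rg.u hi) (hR i) ha
          have g4 := (abs_le.mp g3).2
          nlinarith
      refine g2.trans (le_of_eq ?_)
      rw [prod_mul_distrib, prod_ite_eq', if_pos (mem_range.mpr hj), prod_mul_distrib, ← Real.exp_sum, ← Real.exp_sum,
        Real.exp_add]
      unfold Vd ET
      rw [mul_sum]
    refine (mul_le_mul_of_nonneg_left g1 h0).trans (le_of_eq ?_)
    rw [Real.exp_add]; ring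
  refine (sum_le_sum hj).trans (le_of_eq ?_)
  rw [← sum_mul]
  unfold ET
  ring

end

end Pool.Agent.Y755
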