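import Pool.Agent.Y755.Tr
import Pool.Agent.W184.NZ.Up1

set_option autoImplicit false

/-! Products over the blocks. -/

namespace Pool.Agent.Y755

open Finset Filter MeasureTheory MonoidAlgebra
open Pool.Agent.W184.NZ

section
variable {I : ℕ → Finset ℕ} {f g : ℕ → P1}

lemma prod_mem1 (J : ℕ) (hf : ∀ i < J, f i ∈ SA1 (M1 (I i))) :
    ∏ i ∈ range J, f i ∈ SA1 (M1 ((range J).biUnion I)) := by
  refine Subalgebra.prod_mem _ fun i hi => ?_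
  exact SA1_mono (subset_biUnion_of_mem I hi) (hf i (mem_range.mp hi))

lemma ip_prod (δ : ℝ) (J : ℕ) (hd : ∀ i j, i < j → Disjoint (I i) (I j)) (hf : ∀ i, f i ∈ SA1 (M1 (I i)))
    (hg : ∀ i, g i ∈ SA1 (M1 (I i))) :
    ip δ (∏ i ∈ range J, f i) (∏ i ∈ range J, g i) = ∏ i ∈ range J, ip δ (f i) (g i) := by
  induction J with
  | zero => rw [range_zero, prod_empty, prod_empty, prod_empty, ip_one]
  | succ J ih =>
    rw [prod_range_succ, prod_range_succ, prod_range_succ, ip_mul (disj_union J hd)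
      (prod_mem1 J fun i _ => hf i) (prod_mem1 J fun i _ => hg i) (hf J) (hg J), ih]

lemma Bd1_prod (J : ℕ) {N : ℕ → ℝ} (hf : ∀ i < J, Bd1 (N i) (f i)) :
    Bd1 (∏ i ∈ range J, N i) (∏ i ∈ range J, f i) := by
  induction J with
  | zero => rw [range_zero, prod_empty, prod_empty]; exact Bd1.one
  | succ J ih =>
    rw [prod_range_succ, prod_range_succ]
    exact (ih (fun i hi => hf i (by omega))).mul (hf J (by omega))

lemma l1'_prod (J : ℕ) : l1' (∏ i ∈ range J, f i) ≤ ∏ i ∈ range J, l1' (f i) := by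
  induction J with
  | zero => rw [range_zero, prod_empty, prod_empty, l1'_one]
  | succ J ih =>
    rw [prod_range_succ, prod_range_succ]
    exact (l1'_mul _ _).trans (mul_le_mul_of_nonneg_right ih (l1'_nonneg _))

end

/-- expansion of a product of sums -/
lemma sum_pow_prod {s : Finset ℕ} (f g : ℕ → ℝ) :
    ∑ S ∈ s.powerset, ∏ i ∈ s, (if i ∈ S then f i else g i) = ∏ i ∈ s, (f i + g i) := by
  classical
  rw [prod_add]
  refine sum_congr rfl fun S hS => ?_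
  rw [mem_powerset] at hS
  rw [← prod_sdiff hS, mul_comm]
  congr 1
  · exact prod_congr rfl fun i hi => by rw [if_pos hi]
  · refine prod_congr rfl fun i hi => ?_
    rw [if_neg (Finset.mem_sdiff.mp hi).2]

/-- one factor -/
noncomputable def bs (a : ℝ) (R : ℕ → ℕ) (I : ℕ → Finset ℕ) (S : Finset ℕ) (i : ℕ) : P1 :=
  if i ∈ S then Qe (R i) (I i) else NK (20 * R i) a (x1 (I i))

/-- the product -/
noncomputable def BS (J : ℕ) (a : ℝ) (R : ℕ → ℕ) (I : ℕ → Finset ℕ) (S : Finset ℕ) : P1 :=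
  ∏ i ∈ range J, bs a R I S i

lemma bs_mem {a : ℝ} {R : ℕ → ℕ} {I : ℕ → Finset ℕ} {S : Finset ℕ} (h : ∀ i, ∀ p ∈ I i, p.Prime) (i : ℕ) :
    bs a R I S i ∈ SA1 (M1 (I i)) := by
  unfold bs
  split_ifs
  · exact Qe_mem (h i) _
  · exact NK_mem1 (x1_mem (h i)) _ _

lemma es_x1 (s : ℂ) (I : Finset ℕ) : es s (x1 I) = PI I s := by
  unfold x1 PI
  rw [map_sum]
  refine sum_congr rfl fun p _ => ?_
  rw [es_single]; simp

lemma es_Qe_sq (s : ℂ) (I : Finset ℕ) (R : ℕ) : ‖es s (Qe R I)‖ ^ 2 = (‖PI I s‖ / R) ^ (2 * R) := by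
  unfold Qe
  rw [map_smul, map_pow, es_x1, Complex.real_smul, norm_mul, Complex.norm_real,
    Real.norm_of_nonneg (by positivity), norm_pow, ← mul_pow, ← pow_mul, mul_comm R 2]
  congr 1
  ring

/-- values of the sums of squares at distance `δ` -/
noncomputable def gpd (δ : ℝ) (J : ℕ) (a : ℝ) (R : ℕ → ℕ) (I : ℕ → Finset ℕ) (t : ℝ) : ℝ :=
  ∏ i ∈ range J, gf (20 * R i) a (R i) (PI (I i) (1 / 2 + δ + t * Complex.I))

lemma gpd_nonneg (δ : ℝ) (J : ℕ) (a : ℝ) (R : ℕ → ℕ) (I : ℕ → Finset ℕ) (t : ℝ) : 0 ≤ gpd δ J a R I t :=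
  prod_nonneg fun _ _ => gf_nonneg _ _ _ _

lemma gpd_zero (J : ℕ) (a : ℝ) (R : ℕ → ℕ) (I : ℕ → Finset ℕ) (t : ℝ) : gpd 0 J a R I t = gp J a R I t := by
  unfold gpd gp
  refine prod_congr rfl fun i _ => ?_
  congr 2
  push_cast; ring

lemma sum_BS (δ : ℝ) (J : ℕ) (a : ℝ) (R : ℕ → ℕ) (I : ℕ → Finset ℕ) (t : ℝ) :
    ∑ S ∈ (range J).powerset, ‖es (1 / 2 + δ + t * Complex.I) (BS J a R I S)‖ ^ 2 = gpd δ J a R I t := by
  unfold gpd
  have e1 : ∀ i, gf (20 * R i) a (R i) (PI (I i) (1 / 2 + δ + t * Complex.I)) =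
      (‖PI (I i) (1 / 2 + δ + t * Complex.I)‖ / R i) ^ (2 * R i) +
      ‖NK (20 * R i) a (PI (I i) (1 / 2 + δ + t * Complex.I))‖ ^ 2 := by
    intro i; unfold gf; ring
  simp_rw [e1]
  rw [← sum_pow_prod]
  refine sum_congr rfl fun S _ => ?_
  unfold BS
  rw [map_prod, norm_prod, ← prod_pow]
  refine prod_congr rfl fun i _ => ?_
  unfold bs
  split_ifs
  · rw [es_Qe_sq]
  · rw [NK_map, es_x1]

/-! sizes -/

lemma x1_Bd {I : Finset ℕ} {b : ℝ} (hI : ∀ p ∈ I, p.Prime ∧ (p:ℝ) ≤ b) : Bd1 b (x1 I) :=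
  Bd1.sum fun p hp => Bd1.single ⟨(hI p hp).1.ne_zero, (hI p hp).2⟩ 1

lemma x1_l1 {I : Finset ℕ} {b : ℝ} (hb : 0 ≤ b) (hI : ∀ p ∈ I, p.Prime ∧ (p:ℝ) ≤ b) : l1' (x1 I) ≤ b := by
  refine (l1'_sum _ _).trans ?_
  refine le_trans (le_of_eq ?_) (card_le hb hI)
  simp [l1'_single]

lemma NK_Bd1 {b : ℝ} (hb : 1 ≤ b) {f : P1} (hf : Bd1 b f) (K : ℕ) (a : ℝ) : Bd1 (b ^ K) (NK K a f) := by
  refine Bd1.sum fun k hk => ((hf.pow k).smul _).mono ?_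
  rw [mem_range] at hk
  exact pow_le_pow_right₀ hb (by omega)

lemma NK_l1' {b : ℝ} (hb : 1 ≤ b) {f : P1} (hf : l1' f ≤ b) (K : ℕ) {a : ℝ} (ha : |a| ≤ 2) :
    l1' (NK K a f) ≤ 8 * b ^ K := by
  refine (l1'_sum _ _).trans ?_
  have h1 : ∀ k ∈ range (K + 1), l1' ((a ^ k / (k.factorial : ℝ)) • f ^ k) ≤ b ^ K * (2 ^ k / (k.factorial : ℝ)) := by
    intro k hk
    rw [mem_range] at hk
    refine (l1'_smul _ _).trans ?_
    have h2 : |a ^ k / (k.factorial : ℝ)| ≤ 2 ^ k / (k.factorial : ℝ) := by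
      rw [abs_div, abs_pow, abs_of_nonneg (by positivity : (0:ℝ) ≤ (k.factorial : ℝ))]
      gcongr
    have h3 : l1' (f ^ k) ≤ b ^ K := by
      refine (l1'_pow f k).trans ?_
      refine (pow_le_pow_left₀ (l1'_nonneg f) hf k).trans (pow_le_pow_right₀ hb (by omega))
    calc |a ^ k / (k.factorial : ℝ)| * l1' (f ^ k) ≤ (2 ^ k / (k.factorial : ℝ)) * b ^ K :=
          mul_le_mul h2 h3 (l1'_nonneg _) (by positivity)
      _ = _ := mul_comm _ _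
  refine (sum_le_sum h1).trans ?_
  rw [← mul_sum, mul_comm]
  refine mul_le_mul_of_nonneg_right ?_ (by positivity)
  refine (Real.sum_le_exp_of_nonneg (by norm_num) (K + 1)).trans ?_
  have h2 : Real.exp 2 = Real.exp 1 ^ 2 := by rw [← Real.exp_nat_mul]; norm_num
  have h3 := Real.exp_one_lt_d9
  rw [h2]
  nlinarith [Real.exp_pos 1]

lemma Qe_Bd {I : Finset ℕ} {b : ℝ} (hI : ∀ p ∈ I, p.Prime ∧ (p:ℝ) ≤ b) (R : ℕ) : Bd1 (b ^ R) (Qe R I) :=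
  ((x1_Bd hI).pow R).smul _

lemma Qe_l1 {I : Finset ℕ} {b : ℝ} (hb : 0 ≤ b) (hI : ∀ p ∈ I, p.Prime ∧ (p:ℝ) ≤ b) {R : ℕ} (hR : 1 ≤ R) :
    l1' (Qe R I) ≤ b ^ R := by
  refine (l1'_smul _ _).trans ?_
  have hR' : (1:ℝ) ≤ R := by exact_mod_cast hR
  have h1 : |((1 / (R:ℝ)) ^ R)| ≤ 1 := by
    rw [abs_of_nonneg (by positivity)]
    refine pow_le_one₀ (by positivity) ?_
    rw [div_le_one (by linarith)]; exact hR'
  have h2 : l1' (x1 I ^ R) ≤ b ^ R := (l1'_pow _ _).trans (pow_le_pow_left₀ (l1'_nonneg _) (x1_l1 hb hI) R)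
  calc |((1 / (R:ℝ)) ^ R)| * l1' (x1 I ^ R) ≤ 1 * b ^ R := mul_le_mul h1 h2 (l1'_nonneg _) zero_le_one
    _ = _ := one_mul _

section

variable {c y a : ℝ} {J Rs : ℕ} {I : ℕ → Finset ℕ}

lemma rg_b (h : Rg c J I (bb y)) (i : ℕ) : ∀ p ∈ I i, p.Prime ∧ (p:ℝ) ≤ bb y i :=
  fun p hp => ⟨(h.pr i p hp).1, (h.pr i p hp).2.2⟩

lemma bs_Bd (hy : 1 ≤ y) (h : Rg c J I (bb y)) (S : Finset ℕ) {i : ℕ} (hi : i < J) :
    Bd1 (bb y i ^ (40 * (Rs + i))) (bs a (RR Rs) I S i) := by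
  have hb : 1 ≤ bb y i := by have := h.b10 i hi; linarith
  unfold bs
  split_ifs
  · refine (Qe_Bd (rg_b h i) _).mono (pow_le_pow_right₀ hb ?_)
    unfold RR; omega
  · refine (NK_Bd1 hb (x1_Bd (rg_b h i)) _ _).mono (pow_le_pow_right₀ hb ?_)
    unfold RR; omega

lemma BS_Bd (hy : 1 ≤ y) (h : Rg c J I (bb y)) (S : Finset ℕ) :
    Bd1 (Real.exp (Real.log y * (80 * ((Rs:ℝ) + 1)))) (BS J a (RR Rs) I S) := by
  have h1 := Bd1_prod J (f := bs a (RR Rs) I S) (N := fun i => bb y i ^ (40 * (Rs + i))) fun i hi => bs_Bd hy h S hi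
  refine h1.mono ((len hy Rs J 40).trans (le_of_eq ?_))
  norm_num

lemma bs_l1 (hy : 1 ≤ y) (h : Rg c J I (bb y)) (hRs : 1 ≤ Rs) (ha : |a| ≤ 2) {i : ℕ} (hi : i < J) :
    l1' (Qe (RR Rs i) (I i)) ^ 2 + l1' (NK (20 * RR Rs i) a (x1 (I i))) ^ 2 ≤ bb y i ^ (90 * (Rs + i)) := by
  have hb10 : 10 ≤ bb y i := h.b10 i hi
  have hb : 1 ≤ bb y i := by linarith
  have h1 := Qe_l1 (R := RR Rs i) (by linarith) (rg_b h i) (by unfold RR; omega)
  have h2 := NK_l1' hb (x1_l1 (by linarith) (rg_b h i)) (20 * RR Rs i) ha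
  have h3 : l1' (Qe (RR Rs i) (I i)) ≤ bb y i ^ (20 * RR Rs i) :=
    h1.trans (pow_le_pow_right₀ hb (by omega))
  have h4 := pow_le_pow_left₀ (l1'_nonneg _) h3 2
  have h5 := pow_le_pow_left₀ (l1'_nonneg _) h2 2
  have h6 : (bb y i ^ (20 * RR Rs i)) ^ 2 = bb y i ^ (80 * (Rs + i)) := by
    rw [← pow_mul]; congr 1; unfold RR; ring
  rw [mul_pow, h6] at h5
  rw [h6] at h4
  have h7 : (65:ℝ) ≤ bb y i ^ (10 * (Rs + i)) := by
    calc (65:ℝ) ≤ 10 ^ 2 := by norm_num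
      _ ≤ bb y i ^ 2 := by gcongr
      _ ≤ bb y i ^ (10 * (Rs + i)) := pow_le_pow_right₀ hb (by omega)
  calc _ ≤ bb y i ^ (80 * (Rs + i)) + 8 ^ 2 * bb y i ^ (80 * (Rs + i)) := add_le_add h4 h5
    _ = 65 * bb y i ^ (80 * (Rs + i)) := by ring
    _ ≤ bb y i ^ (10 * (Rs + i)) * bb y i ^ (80 * (Rs + i)) := by gcongr
    _ = _ := by rw [← pow_add]; congr 1; ring

/-- the sum of the squares of the sizes -/
lemma BS_l1 (hy : 1 ≤ y) (h : Rg c J I (bb y)) (hRs : 1 ≤ Rs) (ha : |a| ≤ 2) :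
    ∑ S ∈ (range J).powerset, l1' (BS J a (RR Rs) I S) ^ 2 ≤ Real.exp (Real.log y * (180 * ((Rs:ℝ) + 1))) := by
  have h1 : ∀ S ∈ (range J).powerset, l1' (BS J a (RR Rs) I S) ^ 2 ≤ ∏ i ∈ range J,
      (if i ∈ S then l1' (Qe (RR Rs i) (I i)) ^ 2 else l1' (NK (20 * RR Rs i) a (x1 (I i))) ^ 2) := by
    intro S _
    refine (pow_le_pow_left₀ (l1'_nonneg _) (l1'_prod J) 2).trans (le_of_eq ?_)
    rw [← prod_pow]
    refine prod_congr rfl fun i _ => ?_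
    unfold bs
    split_ifs <;> rfl
  refine (sum_le_sum h1).trans ?_
  rw [sum_pow_prod (fun i => l1' (Qe (RR Rs i) (I i)) ^ 2) (fun i => l1' (NK (20 * RR Rs i) a (x1 (I i))) ^ 2)]
  refine (prod_le_prod (fun i _ => by positivity) fun i hi => bs_l1 hy h hRs ha (mem_range.mp hi)).trans ?_
  refine (len hy Rs J 90).trans (le_of_eq ?_)
  norm_num

end

end Pool.Agent.Y755
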