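import Pool.Agent.Y755.Wi2
import Pool.Agent.Y755.Hq4

set_option autoImplicit false

/-! Pointwise inequalities for the square of zeta. -/

namespace Pool.Agent.Y755

open Finset Filter MeasureTheory
open Pool.Agent.W184.NZ
open Pool.Agent.W184 (zn zn_nonneg zn_cont zn_le')

/-- the pointwise inequality with general weights -/
lemma star_gen {K K' R : ℕ} {θ a b : ℝ} (hθ : 0 ≤ θ) (hθ1 : θ ≤ 1) (hab : θ * b + (1 - θ) * a = 0) (hR : 1 ≤ R)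
    (h : Cl K a R) (h' : Cl K' b R) (z : ℂ) :
    (1 - Real.exp (-(R:ℝ))) ^ 2 ≤ gf K' b R z ^ θ * gf K a R z ^ (1 - θ) := by
  have hR' : (0:ℝ) < R := by exact_mod_cast hR
  set d := 1 - Real.exp (-(R:ℝ)) with hd
  have hd0 : 0 ≤ d := by
    have : Real.exp (-(R:ℝ)) ≤ 1 := Real.exp_le_one_iff.mpr (by simp)
    linarith
  have hd1 : d ≤ 1 := by
    have := Real.exp_pos (-(R:ℝ))
    linarith
  have hθ' : 0 ≤ 1 - θ := by linarith
  rcases le_or_gt ‖z‖ (R:ℝ) with hz | hz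
  · have h1 : d ^ 2 * Real.exp (2 * a * z.re) ≤ gf K a R z := by
      have h3 := pow_le_pow_left₀ (mul_nonneg hd0 (norm_nonneg _)) (NK_ge_of_cl h hz) 2
      rw [mul_pow, norm_exp_sq] at h3
      have h4 : 0 ≤ (‖z‖ / R) ^ (2 * R) := by positivity
      unfold gf; linarith
    have h2 : d ^ 2 * Real.exp (2 * b * z.re) ≤ gf K' b R z := by
      have h3 := pow_le_pow_left₀ (mul_nonneg hd0 (norm_nonneg _)) (NK_ge_of_cl h' hz) 2
      rw [mul_pow, norm_exp_sq] at h3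
      have h4 : 0 ≤ (‖z‖ / R) ^ (2 * R) := by positivity
      unfold gf; linarith
    have h5 : (d ^ 2) ^ θ * (d ^ 2) ^ (1 - θ) = d ^ 2 := by
      rw [← Real.rpow_add_of_nonneg (by positivity) hθ hθ']; simp
    have h6 : 2 * b * z.re * θ + 2 * a * z.re * (1 - θ) = 0 := by
      have : 2 * b * z.re * θ + 2 * a * z.re * (1 - θ) = 2 * z.re * (θ * b + (1 - θ) * a) := by ring
      rw [this, hab, mul_zero]
    calc d ^ 2 = ((d ^ 2) ^ θ * (d ^ 2) ^ (1 - θ)) *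
          (Real.exp (2 * b * z.re) ^ θ * Real.exp (2 * a * z.re) ^ (1 - θ)) := by
          rw [h5, ← Real.exp_mul, ← Real.exp_mul, ← Real.exp_add, h6, Real.exp_zero, mul_one]
      _ = (d ^ 2 * Real.exp (2 * b * z.re)) ^ θ * (d ^ 2 * Real.exp (2 * a * z.re)) ^ (1 - θ) := by
          rw [Real.mul_rpow (by positivity) (by positivity), Real.mul_rpow (by positivity) (by positivity)]
          ring
      _ ≤ _ := by
          gcongr
          exact Real.rpow_nonneg (gf_nonneg _ _ _ _) _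
  · have hq : 1 ≤ (‖z‖ / R) ^ (2 * R) := one_le_pow₀ (by rw [one_le_div hR']; exact hz.le)
    have h1 : 1 ≤ gf K a R z := by
      unfold gf; nlinarith [sq_nonneg ‖NK K a z‖]
    have h2 : 1 ≤ gf K' b R z := by
      unfold gf; nlinarith [sq_nonneg ‖NK K' b z‖]
    calc d ^ 2 ≤ 1 := pow_le_one₀ hd0 hd1
      _ = 1 * 1 := by ring
      _ ≤ _ := mul_le_mul (Real.one_le_rpow h2 hθ) (Real.one_le_rpow h1 hθ') zero_le_one (by positivity)

lemma gpd_star_gen {δ θ a b : ℝ} {J Rs : ℕ} (hRs : 1 ≤ Rs) (hθ : 0 ≤ θ) (hθ1 : θ ≤ 1)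
    (hab : θ * b + (1 - θ) * a = 0) (ha : |a| ≤ 2) (hb : |b| ≤ 2) (I : ℕ → Finset ℕ) (t : ℝ) :
    1 - 4 * Real.exp (-(2 * (Rs:ℝ))) ≤ gpd δ J b (RR Rs) I t ^ θ * gpd δ J a (RR Rs) I t ^ (1 - θ) := by
  unfold gpd
  rw [← Real.finsetProd_rpow _ _ (fun i _ => gf_nonneg _ _ _ _), ← Real.finsetProd_rpow _ _ (fun i _ => gf_nonneg _ _ _ _),
    ← prod_mul_distrib]
  have h1 : ∏ i ∈ range J, (1 - 2 * Real.exp (-(RR Rs i : ℝ))) ≤ ∏ i ∈ range J,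
      (gf (20 * RR Rs i) b (RR Rs i) (PI (I i) (1 / 2 + δ + t * Complex.I)) ^ θ *
        gf (20 * RR Rs i) a (RR Rs i) (PI (I i) (1 / 2 + δ + t * Complex.I)) ^ (1 - θ)) := by
    refine prod_le_prod (fun i _ => ?_) fun i _ => ?_
    · have := exp_RR_small hRs i; linarith
    · have hR : 1 ≤ RR Rs i := by unfold RR; omega
      have h2 := star_gen (K := 20 * RR Rs i) (K' := 20 * RR Rs i) hθ hθ1 hab hR (cl_two hR ha)
        (cl_two hR hb) (PI (I i) (1 / 2 + δ + t * Complex.I))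
      refine le_trans ?_ h2
      nlinarith [sq_nonneg (Real.exp (-(RR Rs i : ℝ)))]
  refine le_trans ?_ h1
  have h3 := prod_one_sub (J := J) (x := fun i => 2 * Real.exp (-(RR Rs i : ℝ))) (fun i => by positivity)
    (fun i => by have := exp_RR_small hRs i; linarith)
  refine le_trans ?_ h3
  rw [← mul_sum]
  have := sum_exp_two J Rs
  linarith

/-- the upper pointwise bound -/
theorem up_pw4 {δ α ε Z P A : ℝ} {J Rs : ℕ} (hRs : 1 ≤ Rs) (hα : 1 ≤ α) (hα2 : α ≤ 2) (I : ℕ → Finset ℕ) (t : ℝ)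
    (hZ : 0 ≤ Z) (hP : 0 ≤ P) (hA : 0 ≤ A) (hPA : 1 - ε ≤ P ^ (2 * α) * A ^ 2) (hε : ε ≤ 1)
    (h4 : 4 * Real.exp (-(2 * (Rs:ℝ))) ≤ 1) :
    (1 - ε) * (1 - 4 * Real.exp (-(2 * (Rs:ℝ)))) * Z ^ (2 * α) ≤
      α / 2 * (Z ^ 4 * (P ^ 2 * A) ^ 2 * gpd δ J (α - 2) (RR Rs) I t) + (1 - α / 2) * (A ^ 2 * gpd δ J α (RR Rs) I t) := by
  have hs := gpd_star_gen (δ := δ) (J := J) (θ := α / 2) (a := α) (b := α - 2) hRs (by linarith) (by linarith) (by ring)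
    (by rw [abs_le]; constructor <;> linarith) (by rw [abs_le]; constructor <;> linarith) I t
  set g1 := gpd δ J (α - 2) (RR Rs) I t with hg1
  set g2 := gpd δ J α (RR Rs) I t with hg2
  have g10 : 0 ≤ g1 := gpd_nonneg _ _ _ _ _ _
  have g20 : 0 ≤ g2 := gpd_nonneg _ _ _ _ _ _
  have h1 := Real.geom_mean_le_arith_mean2_weighted (by linarith : 0 ≤ α / 2) (by linarith : 0 ≤ 1 - α / 2)
    (by positivity : 0 ≤ Z ^ 4 * (P ^ 2 * A) ^ 2 * g1) (by positivity : 0 ≤ A ^ 2 * g2) (by ring)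
  refine le_trans ?_ h1
  have e1 : (Z ^ 4 * (P ^ 2 * A) ^ 2 * g1) ^ (α / 2) * (A ^ 2 * g2) ^ (1 - α / 2) =
      Z ^ (2 * α) * (P ^ (2 * α) * A ^ 2) * (g1 ^ (α / 2) * g2 ^ (1 - α / 2)) := by
    have e0 : Z ^ 4 * (P ^ 2 * A) ^ 2 * g1 = Z ^ 4 * (P ^ 4 * A ^ 2) * g1 := by ring
    rw [e0, Real.mul_rpow (by positivity) g10, Real.mul_rpow (by positivity) (by positivity),
      Real.mul_rpow (by positivity) g20, Real.mul_rpow (by positivity) (by positivity)]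
    have a1 : (Z ^ 4) ^ (α / 2) = Z ^ (2 * α) := by
      rw [← Real.rpow_natCast, ← Real.rpow_mul hZ]; congr 1; push_cast; ring
    have a2 : (P ^ 4) ^ (α / 2) = P ^ (2 * α) := by
      rw [← Real.rpow_natCast, ← Real.rpow_mul hP]; congr 1; push_cast; ring
    have a3 : (A ^ 2) ^ (α / 2) * (A ^ 2) ^ (1 - α / 2) = A ^ 2 := by
      rw [← Real.rpow_add_of_nonneg (by positivity) (by linarith) (by linarith)]
      simp
    rw [a1, a2]
    calc _ = Z ^ (2 * α) * (P ^ (2 * α) * ((A ^ 2) ^ (α / 2) * (A ^ 2) ^ (1 - α / 2))) * (g1 ^ (α / 2) * g2 ^ (1 - α / 2)) := by ring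
      _ = _ := by rw [a3]
  rw [e1]
  have hZp : 0 ≤ Z ^ (2 * α) := Real.rpow_nonneg hZ _
  calc (1 - ε) * (1 - 4 * Real.exp (-(2 * (Rs:ℝ)))) * Z ^ (2 * α) =
        Z ^ (2 * α) * (1 - ε) * (1 - 4 * Real.exp (-(2 * (Rs:ℝ)))) := by ring
    _ ≤ Z ^ (2 * α) * (P ^ (2 * α) * A ^ 2) * (g1 ^ (α / 2) * g2 ^ (1 - α / 2)) := by
        refine mul_le_mul (mul_le_mul_of_nonneg_left hPA hZp) hs (by linarith) ?_
        have : 0 ≤ P ^ (2 * α) := Real.rpow_nonneg hP _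
        positivity

/-- upper bound -/
theorem up_pw24 {y δ α ε τ : ℝ} {z J Rs N : ℕ} {A0 : P1} (hRs : 1 ≤ Rs) (hα : 1 ≤ α) (hα2 : α ≤ 2) (t : ℝ) (hτ : 0 < τ)
    (hPA : 1 - ε ≤ ‖es (1 / 2 + δ + t * Complex.I) (Pz z)‖ ^ (2 * α) * ‖es (1 / 2 + δ + t * Complex.I) A0‖ ^ 2)
    (hε : ε ≤ 1) (h4 : 4 * Real.exp (-(2 * (Rs:ℝ))) ≤ 1) :
    (1 - ε) * (1 - 4 * Real.exp (-(2 * (Rs:ℝ)))) * zn (1 / 2 + δ) t ^ (2 * α) ≤
      α / 2 * (∑ S ∈ (range J).powerset, ((1 + τ) * ‖es (1 / 2 + δ + t * Complex.I) (DS2 N (α - 2) z y J Rs A0 S)‖ ^ 2 +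
        (1 + 1 / τ) * qd2 (fun s => es s (Pz z ^ 2 * A0 * Bz (α - 2) z y J Rs S))
          (fun s => es s (DS2 N (α - 2) z y J Rs A0 S)) (1 / 2 + δ) t)) +
      (1 - α / 2) * ∑ S ∈ (range J).powerset, ‖es (1 / 2 + δ + t * Complex.I) (A0 * Bz α z y J Rs S)‖ ^ 2 := by
  have h1 := up_pw4 (δ := δ) (J := J) hRs hα hα2 (IZ z y) t (Z := zn (1 / 2 + δ) t)
    (P := ‖es (1 / 2 + δ + t * Complex.I) (Pz z)‖) (A := ‖es (1 / 2 + δ + t * Complex.I) A0‖)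
    (zn_nonneg _ _) (norm_nonneg _) (norm_nonneg _) hPA hε h4
  refine h1.trans (add_le_add (mul_le_mul_of_nonneg_left ?_ (by linarith)) (mul_le_mul_of_nonneg_left ?_ (by linarith)))
  · rw [← sum_Bz, mul_sum]
    refine sum_le_sum fun S _ => ?_
    have h2 := sq_add_le (x := riemannZeta (1 / 2 + δ + t * Complex.I) ^ 2 * es (1 / 2 + δ + t * Complex.I)
      (Pz z ^ 2 * A0 * Bz (α - 2) z y J Rs S)) (y := es (1 / 2 + δ + t * Complex.I) (DS2 N (α - 2) z y J Rs A0 S)) hτ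
    unfold qd2
    rw [s_eq]
    refine le_trans (le_of_eq ?_) h2
    unfold zn
    have e2 : es (1 / 2 + (δ:ℂ) + t * Complex.I) (Pz z ^ 2 * A0 * Bz (α - 2) z y J Rs S) =
        es (1 / 2 + (δ:ℂ) + t * Complex.I) (Pz z) ^ 2 * es (1 / 2 + (δ:ℂ) + t * Complex.I) A0 *
          es (1 / 2 + (δ:ℂ) + t * Complex.I) (Bz (α - 2) z y J Rs S) := by
      rw [map_mul, map_mul, map_pow]
    rw [s_eq, e2, norm_mul, norm_mul, norm_mul, norm_pow, norm_pow]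
    ring
  · rw [← sum_Bz, mul_sum]
    refine sum_le_sum fun S _ => le_of_eq ?_
    rw [map_mul, norm_mul, mul_pow]

end Pool.Agent.Y755
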