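import Pool.Agent.Y755.Blk2

set_option autoImplicit false

/-! Local estimates for the square of the zeta factor. -/

namespace Pool.Agent.Y755

open Finset Filter MeasureTheory MonoidAlgebra
open Pool.Agent.W184.NZ

lemma E3_exp1 {a : ℝ} (ha : |a| ≤ 1) : E3 (fun z => Complex.exp (a * z)) a (a ^ 2 / 2) 2 := by
  intro z hz
  have hw : ‖(a:ℂ) * z‖ ≤ ‖z‖ := by
    rw [norm_mul, Complex.norm_real, Real.norm_eq_abs]
    exact mul_le_of_le_one_left (norm_nonneg _) ha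
  have h1 := Complex.norm_exp_sub_sum_le_norm_mul_exp ((a:ℂ) * z) 3
  simp only [sum_range_succ, sum_range_zero, Nat.factorial] at h1
  have h2 : Complex.exp (a * z) - (1 + (a:ℂ) * z + ((a ^ 2 / 2 : ℝ) : ℂ) * z ^ 2) =
      Complex.exp (a * z) - (0 + ((a:ℂ) * z) ^ 0 / ((1:ℕ):ℂ) + ((a:ℂ) * z) ^ 1 / (((0 + 1) * 1 : ℕ):ℂ) +
        ((a:ℂ) * z) ^ 2 / (((1 + 1) * ((0 + 1) * 1) : ℕ):ℂ)) := by
    push_cast
    ring
  simp only
  rw [h2]
  refine h1.trans ?_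
  have h3 : Real.exp ‖(a:ℂ) * z‖ ≤ 2 := by
    refine le_trans (Real.exp_le_exp.mpr ?_) exp_eighth
    linarith
  calc ‖(a:ℂ) * z‖ ^ 3 * Real.exp ‖(a:ℂ) * z‖ ≤ ‖z‖ ^ 3 * 2 := by gcongr
    _ = 2 * ‖z‖ ^ 3 := by ring

lemma E3_gz2 {K : ℕ} (hK : 2 ≤ K) : E3 (fun z => gz K z ^ 2) 2 3 15 := by
  intro z hz
  have h1 := E3_gz hK z hz
  have h0 := E3_norm (E3_gz hK) (by norm_num) (by norm_num) (by norm_num) hz
  have hz0 := norm_nonneg z
  set P : ℂ := 1 + ((1:ℝ):ℂ) * z + ((1:ℝ):ℂ) * z ^ 2 with hP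
  have hPn : ‖P‖ ≤ 2 := by
    have : ‖P‖ ≤ 1 + 1 / 16 + (1 / 16) ^ 2 := by
      refine (norm_add_le _ _).trans (add_le_add ((norm_add_le _ _).trans (add_le_add (by simp) ?_)) ?_)
      · simpa using hz
      · simp only [Complex.ofReal_one, one_mul, norm_pow]
        gcongr
    norm_num at this
    linarith
  have e1 : gz K z ^ 2 - (1 + ((2:ℝ):ℂ) * z + ((3:ℝ):ℂ) * z ^ 2) =
      (gz K z - P) * (gz K z + P) + (2 * z ^ 3 + z ^ 4) := by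
    rw [hP]
    push_cast
    ring
  rw [e1]
  have b1 : ‖(gz K z - P) * (gz K z + P)‖ ≤ 12 * ‖z‖ ^ 3 := by
    rw [norm_mul]
    calc _ ≤ (3 * ‖z‖ ^ 3) * (2 + 2) := mul_le_mul h1 ((norm_add_le _ _).trans (add_le_add h0 hPn)) (norm_nonneg _) (by positivity)
      _ = _ := by ring
  have b2 : ‖2 * z ^ 3 + z ^ 4‖ ≤ 3 * ‖z‖ ^ 3 := by
    refine (norm_add_le _ _).trans ?_
    rw [norm_mul, norm_pow, norm_pow, Complex.norm_ofNat]
    have : ‖z‖ ^ 4 ≤ ‖z‖ ^ 3 := pow_le_pow_of_le_one hz0 (by linarith) (by norm_num)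
    linarith
  have := norm_add_le ((gz K z - P) * (gz K z + P)) (2 * z ^ 3 + z ^ 4)
  linarith

lemma E3_mul2 {a : ℝ} (ha : |a| ≤ 1) {K : ℕ} (hK : 2 ≤ K) :
    E3 (fun z => gz K z ^ 2 * Complex.exp (a * z)) (2 + a) (3 + 2 * a + a ^ 2 / 2) 50 := by
  intro z hz
  have h1 := E3_gz2 hK z hz
  have h2 := E3_exp1 ha z hz
  have ha2 : a ^ 2 ≤ 1 := by
    have := pow_le_pow_left₀ (abs_nonneg a) ha 2
    rw [sq_abs] at this
    linarith
  have h3 := E3_norm (E3_exp1 ha) (by linarith) (by rw [abs_of_nonneg (by positivity)]; linarith) (by norm_num) hz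
  have hz0 := norm_nonneg z
  simp only at h1 h2 h3 ⊢
  set P : ℂ := 1 + ((2:ℝ):ℂ) * z + ((3:ℝ):ℂ) * z ^ 2 with hP
  set Q : ℂ := 1 + (a:ℂ) * z + ((a ^ 2 / 2 : ℝ) : ℂ) * z ^ 2 with hQ
  have hPn : ‖P‖ ≤ 2 := by
    have : ‖P‖ ≤ 1 + 2 * (1 / 16) + 3 * (1 / 16) ^ 2 := by
      refine (norm_add_le _ _).trans (add_le_add ((norm_add_le _ _).trans (add_le_add (by simp) ?_)) ?_)
      · rw [norm_mul, Complex.norm_real]; norm_num; linarith
      · rw [norm_mul, Complex.norm_real, norm_pow]; norm_num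
        have : ‖z‖ ^ 2 ≤ (1 / 16) ^ 2 := pow_le_pow_left₀ hz0 hz 2
        norm_num at this
        linarith
    norm_num at this
    linarith
  have e1 : gz K z ^ 2 * Complex.exp (a * z) - (1 + ((2 + a : ℝ):ℂ) * z + ((3 + 2 * a + a ^ 2 / 2 : ℝ) : ℂ) * z ^ 2) =
      (gz K z ^ 2 - P) * Complex.exp (a * z) + P * (Complex.exp (a * z) - Q) +
        (((a ^ 2 + 3 * a : ℝ) : ℂ) * z ^ 3 + ((3 * a ^ 2 / 2 : ℝ) : ℂ) * z ^ 4) := by
    rw [hP, hQ]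
    push_cast
    ring
  rw [e1]
  have b1 : ‖(gz K z ^ 2 - P) * Complex.exp (a * z)‖ ≤ 30 * ‖z‖ ^ 3 := by
    rw [norm_mul]
    calc _ ≤ (15 * ‖z‖ ^ 3) * 2 := mul_le_mul h1 h3 (norm_nonneg _) (by positivity)
      _ = _ := by ring
  have b2 : ‖P * (Complex.exp (a * z) - Q)‖ ≤ 4 * ‖z‖ ^ 3 := by
    rw [norm_mul]
    calc _ ≤ 2 * (2 * ‖z‖ ^ 3) := mul_le_mul hPn h2 (norm_nonneg _) (by positivity)
      _ = _ := by ring
  have b3 : ‖((a ^ 2 + 3 * a : ℝ) : ℂ) * z ^ 3‖ ≤ 4 * ‖z‖ ^ 3 := by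
    rw [norm_mul, Complex.norm_real, Real.norm_eq_abs, norm_pow]
    refine mul_le_mul_of_nonneg_right ?_ (by positivity)
    refine (abs_add_le _ _).trans ?_
    rw [abs_of_nonneg (by positivity : 0 ≤ a ^ 2), abs_mul, abs_of_nonneg (by norm_num : (0:ℝ) ≤ 3)]
    linarith
  have b4 : ‖((3 * a ^ 2 / 2 : ℝ) : ℂ) * z ^ 4‖ ≤ 2 * ‖z‖ ^ 3 := by
    rw [norm_mul, Complex.norm_real, Real.norm_eq_abs, norm_pow, abs_of_nonneg (by positivity : 0 ≤ 3 * a ^ 2 / 2)]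
    have : ‖z‖ ^ 4 ≤ ‖z‖ ^ 3 := pow_le_pow_of_le_one hz0 (by linarith) (by norm_num)
    have h0 : 0 ≤ ‖z‖ ^ 4 := by positivity
    nlinarith
  have c1 := norm_add_le ((gz K z ^ 2 - P) * Complex.exp (a * z) + P * (Complex.exp (a * z) - Q))
        (((a ^ 2 + 3 * a : ℝ) : ℂ) * z ^ 3 + ((3 * a ^ 2 / 2 : ℝ) : ℂ) * z ^ 4)
  have c2 := norm_add_le ((gz K z ^ 2 - P) * Complex.exp (a * z)) (P * (Complex.exp (a * z) - Q))
  have c3 := norm_add_le (((a ^ 2 + 3 * a : ℝ) : ℂ) * z ^ 3) (((3 * a ^ 2 / 2 : ℝ) : ℂ) * z ^ 4)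
  have c4 : 0 ≤ ‖z‖ ^ 3 := by positivity
  linarith

/-- exponential moments -/
lemma EM_lin4 {δ : ℝ} (hδ : 0 ≤ δ) {I : Finset ℕ} (hI : Bg I) {w : ℂ → ℝ} (hw : Continuous w)
    (h0 : ∀ z, 0 ≤ w z) {s : ℝ} (hs : |s| ≤ 2) (hle : ∀ z, ‖z‖ ≤ 1 / 16 → w z ≤ Real.exp (2 * s * z.re + 8 * ‖z‖ ^ 2))
    {c : ℂ} (hc : ‖c‖ ≤ 12) :
    ∫ ω, (∏ p : I, w (ω p)) * Real.exp ((c * ∑ p : I, ω p).re) ∂(tm δ I) ≤
      Real.exp (72 * vd δ I + 4096 * uI I) := by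
  have e1 : ∀ ω : I → ℂ, (∏ p : I, w (ω p)) * Real.exp ((c * ∑ p : I, ω p).re) =
      ∏ p : I, (fun (_ : I) (z : ℂ) => w z * Real.exp ((c * z).re)) p (ω p) := by
    intro ω
    rw [prod_mul_distrib, mul_sum, Complex.re_sum, Real.exp_sum]
  rw [integral_congr_ae (ae_of_all _ e1),
    tm_prod_real (δ := δ) (fun (_ : I) (z : ℂ) => w z * Real.exp ((c * z).re))]
  have h1 : ∀ p : I, ∫ z, w z * Real.exp ((c * z).re) ∂(cm (rp δ p)) ≤
      Real.exp (72 * rp δ p ^ 2 + 4096 * rp δ p ^ 3) := by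
    intro p
    have hp := hI p p.2
    set r := rp δ p with hr
    have hr0 : 0 < r := rp_pos δ hp.1
    have hr1 : r ≤ 1 / 30 := rp_small hδ hp.2
    set c' : ℂ := c + ((2 * s : ℝ) : ℂ) with hc'
    have hcn : ‖c'‖ ≤ 16 := by
      refine (norm_add_le _ _).trans ?_
      rw [Complex.norm_real, Real.norm_eq_abs, abs_mul]
      norm_num
      linarith
    have h2 : ∫ z, w z * Real.exp ((c * z).re) ∂(cm r) ≤ ∫ z, Real.exp (8 * r ^ 2) * Real.exp ((c' * z).re) ∂(cm r) := by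
      refine integral_mono_ae (cm_integrable hr0 (by fun_prop)) (cm_integrable hr0 (by fun_prop)) ?_
      filter_upwards [cm_norm hr0] with z hz
      have h3 := hle z (by rw [hz]; linarith)
      rw [hz] at h3
      calc w z * Real.exp ((c * z).re) ≤ Real.exp (2 * s * z.re + 8 * r ^ 2) * Real.exp ((c * z).re) :=
            mul_le_mul_of_nonneg_right h3 (Real.exp_pos _).le
        _ = Real.exp (8 * r ^ 2) * Real.exp ((c' * z).re) := by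
            rw [← Real.exp_add, ← Real.exp_add]
            congr 1
            rw [hc', add_mul, Complex.add_re, Complex.re_ofReal_mul]
            ring
    refine h2.trans ?_
    rw [integral_const_mul]
    have h4 := single_exp (μ := cm r) hr0 le_rfl (cm_norm hr0) (cm_mom' hr0) (c := c')
      (by nlinarith [norm_nonneg c'])
    have h5 : Real.exp (c'.re * (r * 0) + ‖c'‖ ^ 2 * r ^ 2 / 4 + ‖c'‖ ^ 2 * (r * 0) ^ 2 / 4 + ‖c'‖ ^ 3 * r ^ 3) ≤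
        Real.exp (64 * r ^ 2 + 4096 * r ^ 3) := by
      refine Real.exp_le_exp.mpr ?_
      have a1 : ‖c'‖ ^ 2 ≤ 16 ^ 2 := pow_le_pow_left₀ (norm_nonneg _) hcn 2
      have a2 : ‖c'‖ ^ 3 ≤ 16 ^ 3 := pow_le_pow_left₀ (norm_nonneg _) hcn 3
      have a3 : ‖c'‖ ^ 2 * r ^ 2 ≤ 16 ^ 2 * r ^ 2 := mul_le_mul_of_nonneg_right a1 (by positivity)
      have a4 : ‖c'‖ ^ 3 * r ^ 3 ≤ 16 ^ 3 * r ^ 3 := mul_le_mul_of_nonneg_right a2 (by positivity)
      norm_num at a3 a4 ⊢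
      linarith
    calc _ ≤ Real.exp (8 * r ^ 2) * Real.exp (64 * r ^ 2 + 4096 * r ^ 3) :=
          mul_le_mul_of_nonneg_left (h4.trans h5) (Real.exp_pos _).le
      _ = _ := by rw [← Real.exp_add]; congr 1; ring
  have h6 : ∀ p : I, 0 ≤ ∫ z, w z * Real.exp ((c * z).re) ∂(cm (rp δ p)) := fun p =>
    integral_nonneg fun z => mul_nonneg (h0 z) (Real.exp_pos _).le
  refine (prod_le_prod (fun p _ => h6 p) (fun p _ => h1 p)).trans ?_
  rw [← Real.exp_sum, sum_add_distrib, ← mul_sum, ← mul_sum]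
  refine Real.exp_le_exp.mpr ?_
  rw [Finset.sum_coe_sort I (fun p => rp δ p ^ 2), Finset.sum_coe_sort I (fun p => rp δ p ^ 3)]
  have := cube_le hδ hI
  unfold vd
  linarith

lemma EM_w4 {δ : ℝ} (hδ : 0 ≤ δ) {I : Finset ℕ} (hI : Bg I) {w : ℂ → ℝ} (hw : Continuous w)
    (h0 : ∀ z, 0 ≤ w z) {s : ℝ} (hs : |s| ≤ 2)
    (hle : ∀ z, ‖z‖ ≤ 1 / 16 → w z ≤ Real.exp (2 * s * z.re + 8 * ‖z‖ ^ 2)) :
    ∫ ω, (∏ p : I, w (ω p)) * Real.exp (8 * ‖∑ p : I, ω p‖) ∂(tm δ I) ≤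
      4 * Real.exp (72 * vd δ I + 4096 * uI I) := by
  have hP : ∀ p ∈ I, p.Prime := fun p hp => (hI p hp).1
  have hwc : Continuous fun ω : I → ℂ => ∏ p : I, w (ω p) :=
    continuous_finsetProd _ fun p _ => hw.comp (continuous_apply p)
  have hi : ∀ c : ℂ, Integrable (fun ω : I → ℂ => (∏ p : I, w (ω p)) * Real.exp ((c * ∑ p : I, ω p).re)) (tm δ I) :=
    fun c => tm_integrable hP (hwc.mul (by fun_prop))
  have h1 : ∫ ω, (∏ p : I, w (ω p)) * Real.exp (8 * ‖∑ p : I, ω p‖) ∂(tm δ I) ≤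
      ∫ ω, ((∏ p : I, w (ω p)) * Real.exp ((((8:ℂ) - 8 * Complex.I) * ∑ p : I, ω p).re) +
        (∏ p : I, w (ω p)) * Real.exp ((((8:ℂ) + 8 * Complex.I) * ∑ p : I, ω p).re) +
        (∏ p : I, w (ω p)) * Real.exp ((((-8:ℂ) - 8 * Complex.I) * ∑ p : I, ω p).re) +
        (∏ p : I, w (ω p)) * Real.exp ((((-8:ℂ) + 8 * Complex.I) * ∑ p : I, ω p).re)) ∂(tm δ I) := by
    refine integral_mono (tm_integrable hP (hwc.mul (by fun_prop))) ((((hi _).add (hi _)).add (hi _)).add (hi _))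
      fun ω => ?_
    simp only
    rw [← mul_add, ← mul_add, ← mul_add]
    exact mul_le_mul_of_nonneg_left (norm_exp8_le _) (prod_nonneg fun p _ => h0 _)
  refine h1.trans ?_
  have j1 := (hi ((8:ℂ) - 8 * Complex.I)).add (hi ((8:ℂ) + 8 * Complex.I))
  have j2 := j1.add (hi ((-8:ℂ) - 8 * Complex.I))
  have s1 := integral_add j2 (hi ((-8:ℂ) + 8 * Complex.I))
  have s2 := integral_add j1 (hi ((-8:ℂ) - 8 * Complex.I))
  have s3 := integral_add (hi ((8:ℂ) - 8 * Complex.I)) (hi ((8:ℂ) + 8 * Complex.I))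
  simp only [Pi.add_apply] at s1 s2 s3
  rw [s1, s2, s3]
  have k1 := EM_lin4 hδ hI hw h0 hs hle (c := (8:ℂ) - 8 * Complex.I) (norm88 _ (by norm_num) (by norm_num))
  have k2 := EM_lin4 hδ hI hw h0 hs hle (c := (8:ℂ) + 8 * Complex.I) (norm88 _ (by norm_num) (by norm_num))
  have k3 := EM_lin4 hδ hI hw h0 hs hle (c := (-8:ℂ) - 8 * Complex.I) (norm88 _ (by norm_num) (by norm_num))
  have k4 := EM_lin4 hδ hI hw h0 hs hle (c := (-8:ℂ) + 8 * Complex.I) (norm88 _ (by norm_num) (by norm_num))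
  linarith

/-- the bound for the exponential moments -/
noncomputable def C4 (c : ℝ) : ℝ := 8 * Real.exp (4200 * c)

lemma C4_pos (c : ℝ) : 0 < C4 c := by unfold C4; positivity

lemma CE_le_C4 {c : ℝ} (hc : 0 ≤ c) : CE c ≤ C4 c := by
  unfold CE C4
  have : Real.exp (2800 * c) ≤ Real.exp (4200 * c) := Real.exp_le_exp.mpr (by linarith)
  linarith

theorem EM4 {δ c : ℝ} (hδ : 0 ≤ δ) {I : Finset ℕ} (hI : Bg I) (hv : vI I ≤ c) (hu : uI I ≤ c) {K : ℕ} (hK : 2 ≤ K) :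
    ∫ ω, (1 + ‖Gt K I ω‖ ^ 4) * Real.exp (8 * ‖∑ p : I, ω p‖) ∂(tm δ I) ≤ C4 c := by
  have hP : ∀ p ∈ I, p.Prime := fun p hp => (hI p hp).1
  have h1 := EM_w4 hδ hI (w := fun _ => 1) continuous_const (fun _ => zero_le_one) (s := 0) (by simp)
    (fun z _ => Real.one_le_exp (by rw [mul_zero, zero_mul, zero_add]; positivity))
  have h2 := EM_w4 hδ hI (w := fun z => ‖gz K z‖ ^ 4) ((gz_cont K).norm.pow 4) (fun _ => by positivity) (s := 2)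
    (by simp) (fun z hz => by
      have g1 := gz_sq_le hK hz
      calc ‖gz K z‖ ^ 4 = (‖gz K z‖ ^ 2) ^ 2 := by ring
        _ ≤ (Real.exp (2 * 1 * z.re + 4 * ‖z‖ ^ 2)) ^ 2 := pow_le_pow_left₀ (by positivity) g1 2
        _ = Real.exp (2 * 2 * z.re + 8 * ‖z‖ ^ 2) := by
          rw [← Real.exp_nat_mul]; congr 1; push_cast; ring)
  simp only [prod_const_one, one_mul] at h1
  have e1 : ∀ ω : I → ℂ, ‖Gt K I ω‖ ^ 4 = ∏ p : I, ‖gz K (ω p)‖ ^ 4 := by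
    intro ω
    unfold Gt
    rw [norm_prod, prod_pow]
  have hv0 : vd δ I ≤ c := (vd_le hδ hI).trans hv
  have hc0 : 0 ≤ c := (uI_nonneg I).trans hu
  have h3 : Real.exp (72 * vd δ I + 4096 * uI I) ≤ Real.exp (4200 * c) := Real.exp_le_exp.mpr (by linarith)
  have j1 : Integrable (fun ω : I → ℂ => Real.exp (8 * ‖∑ p : I, ω p‖)) (tm δ I) :=
    tm_integrable hP (by fun_prop)
  have j2 : Integrable (fun ω : I → ℂ => (∏ p : I, ‖gz K (ω p)‖ ^ 4) * Real.exp (8 * ‖∑ p : I, ω p‖)) (tm δ I) := by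
    refine tm_integrable hP (Continuous.mul ?_ (by fun_prop))
    exact continuous_finsetProd _ fun p _ => ((gz_cont K).comp (continuous_apply p)).norm.pow 4
  have e2 : ∀ ω : I → ℂ, (1 + ‖Gt K I ω‖ ^ 4) * Real.exp (8 * ‖∑ p : I, ω p‖) =
      Real.exp (8 * ‖∑ p : I, ω p‖) + (∏ p : I, ‖gz K (ω p)‖ ^ 4) * Real.exp (8 * ‖∑ p : I, ω p‖) := by
    intro ω; rw [e1]; ring
  simp_rw [e2]
  rw [integral_add j1 j2]
  unfold C4
  linarith

/-- the error of a block -/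
noncomputable def eb4 (c : ℝ) (I : Finset ℕ) (R : ℕ) : ℝ :=
  (Real.exp (300 * uI I) - 1) + 4 * C4 c * Real.exp (-(R:ℝ))

lemma eb4_nonneg (c : ℝ) (I : Finset ℕ) (R : ℕ) : 0 ≤ eb4 c I R := by
  unfold eb4
  have h1 : 1 ≤ Real.exp (300 * uI I) := Real.one_le_exp (by have := uI_nonneg I; positivity)
  have := C4_pos c
  have : 0 ≤ 4 * C4 c * Real.exp (-(R:ℝ)) := by positivity
  linarith

section

variable {δ c : ℝ} {I : Finset ℕ} {K R : ℕ} {a : ℝ}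

/-- the square of the zeta factor -/
theorem blk1q (hδ : 0 ≤ δ) (hI : Bg I) (hv : vI I ≤ c) (hu : uI I ≤ c) (hK : 2 ≤ K) (hR : 1 ≤ R) (ha : |a| ≤ 1)
    (ha0 : a ≤ 0) :
    ip δ (GI K I ^ 2 * NK (20 * R) a (x1 I)) (GI K I ^ 2 * NK (20 * R) a (x1 I)) ≤
      (1 + eb4 c I R) * Real.exp ((2 + a) ^ 2 * vd δ I) := by
  have hP : ∀ p ∈ I, p.Prime := fun p hp => (hI p hp).1
  have hm : GI K I ^ 2 * NK (20 * R) a (x1 I) ∈ SA1 (M1 I) :=
    Subalgebra.mul_mem _ (Subalgebra.pow_mem _ (GI_mem hP K) 2) (NK_mem1 (x1_mem hP) _ _)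
  obtain ⟨ha1, ha2⟩ := abs_le.mp ha
  have e1 : ∀ ω : I → ℂ, ph I ω (GI K I ^ 2 * NK (20 * R) a (x1 I)) = Gt K I ω ^ 2 * NK (20 * R) a (∑ p : I, ω p) := by
    intro ω
    rw [map_mul, map_pow, ph_GI hP, NK_map, ph_x1 hP]
  have hZc : Continuous fun ω : I → ℂ => ∑ p : I, ω p := by fun_prop
  have hNc : Continuous fun ω : I → ℂ => NK (20 * R) a (∑ p : I, ω p) := by
    unfold NK
    fun_prop
  have hG := Gt_cont K I
  have c1 : Continuous fun ω : I → ℂ => (Gt K I ω ^ 2 * NK (20 * R) a (∑ p : I, ω p)) *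
      starRingEnd ℂ (Gt K I ω ^ 2 * NK (20 * R) a (∑ p : I, ω p)) :=
    ((hG.pow 2).mul hNc).mul (Complex.continuous_conj.comp ((hG.pow 2).mul hNc))
  have c2 : Continuous fun ω : I → ℂ => (Gt K I ω ^ 2 * Complex.exp (a * ∑ p : I, ω p)) *
      starRingEnd ℂ (Gt K I ω ^ 2 * Complex.exp (a * ∑ p : I, ω p)) := by
    have : Continuous fun ω : I → ℂ => Gt K I ω ^ 2 * Complex.exp (a * ∑ p : I, ω p) := (hG.pow 2).mul (by fun_prop)
    exact this.mul (Complex.continuous_conj.comp this)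
  have hmain : ‖∫ ω, (Gt K I ω ^ 2 * Complex.exp (a * ∑ p : I, ω p)) * starRingEnd ℂ (Gt K I ω ^ 2 * Complex.exp (a * ∑ p : I, ω p))
      ∂(tm δ I) - ((Real.exp ((2 + a) ^ 2 * vd δ I) : ℝ) : ℂ)‖ ≤ (Real.exp (300 * uI I) - 1) * Real.exp ((2 + a) ^ 2 * vd δ I) := by
    have hd : |3 + 2 * a + a ^ 2 / 2| ≤ 5 := by
      rw [abs_of_nonneg (by nlinarith)]; nlinarith
    have h1 := tm_pair hδ hI (E3_mul2 (a := a) ha hK) (E3_mul2 (a := a) ha hK)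
      (((gz_cont K).pow 2).mul (by fun_prop)) (((gz_cont K).pow 2).mul (by fun_prop))
      (by rw [abs_le]; constructor <;> linarith) hd le_rfl hd le_rfl
    have e2 : ∀ ω : I → ℂ, Gt K I ω ^ 2 * Complex.exp (a * ∑ p : I, ω p) =
        ∏ p : I, gz K (ω p) ^ 2 * Complex.exp (a * ω p) := by
      intro ω
      rw [expZ, Gt, prod_mul_distrib, prod_pow]
    simp_rw [e2]
    exact h1
  have h1 : ‖(∫ ω, (Gt K I ω ^ 2 * NK (20 * R) a (∑ p : I, ω p)) * starRingEnd ℂ (Gt K I ω ^ 2 * NK (20 * R) a (∑ p : I, ω p))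
      ∂(tm δ I)) - ∫ ω, (Gt K I ω ^ 2 * Complex.exp (a * ∑ p : I, ω p)) *
      starRingEnd ℂ (Gt K I ω ^ 2 * Complex.exp (a * ∑ p : I, ω p)) ∂(tm δ I)‖ ≤ 4 * C4 c * Real.exp (-(R:ℝ)) := by
    rw [← integral_sub (tm_integrable hP c1) (tm_integrable hP c2)]
    have hb2 : ∀ ω : I → ℂ, ‖(Gt K I ω ^ 2 * NK (20 * R) a (∑ p : I, ω p)) * starRingEnd ℂ (Gt K I ω ^ 2 * NK (20 * R) a (∑ p : I, ω p)) -
        (Gt K I ω ^ 2 * Complex.exp (a * ∑ p : I, ω p)) * starRingEnd ℂ (Gt K I ω ^ 2 * Complex.exp (a * ∑ p : I, ω p))‖ ≤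
        4 * Real.exp (-(R:ℝ)) * ((1 + ‖Gt K I ω‖ ^ 4) * Real.exp (8 * ‖∑ p : I, ω p‖)) := by
      intro ω
      set Z := ∑ p : I, ω p with hZ
      have hZ0 := norm_nonneg Z
      have e1 : (Gt K I ω ^ 2 * NK (20 * R) a Z) * starRingEnd ℂ (Gt K I ω ^ 2 * NK (20 * R) a Z) -
        (Gt K I ω ^ 2 * Complex.exp (a * Z)) * starRingEnd ℂ (Gt K I ω ^ 2 * Complex.exp (a * Z)) =
        (Gt K I ω ^ 2 * starRingEnd ℂ (Gt K I ω ^ 2)) * ((NK (20 * R) a Z - Complex.exp (a * Z)) * starRingEnd ℂ (NK (20 * R) a Z) +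
          Complex.exp (a * Z) * starRingEnd ℂ (NK (20 * R) a Z - Complex.exp (a * Z))) := by
        rw [map_mul, map_mul, map_sub]; ring
      rw [e1, norm_mul, norm_mul, RCLike.norm_conj]
      have h2 : ‖(NK (20 * R) a Z - Complex.exp (a * Z)) * starRingEnd ℂ (NK (20 * R) a Z) +
          Complex.exp (a * Z) * starRingEnd ℂ (NK (20 * R) a Z - Complex.exp (a * Z))‖ ≤
          4 * Real.exp (-(R:ℝ)) * Real.exp (8 * ‖Z‖) := by
        refine (norm_add_le _ _).trans ?_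
        rw [norm_mul, norm_mul, RCLike.norm_conj, RCLike.norm_conj]
        have ha2' : |a| ≤ 2 := by linarith
        have a1 := rho_le hR ha2' Z
        have a3 := NK_norm_le2 (20 * R) ha2' Z
        have a4 := exp_norm_le2 ha2' Z
        have x0 := Real.exp_pos (-(R:ℝ))
        have x1 : Real.exp (3 * ‖Z‖) * Real.exp (2 * ‖Z‖) ≤ Real.exp (8 * ‖Z‖) := by
          rw [← Real.exp_add]; exact Real.exp_le_exp.mpr (by linarith)
        calc _ ≤ (2 * Real.exp (-(R:ℝ)) * Real.exp (3 * ‖Z‖)) * Real.exp (2 * ‖Z‖) +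
              Real.exp (2 * ‖Z‖) * (2 * Real.exp (-(R:ℝ)) * Real.exp (3 * ‖Z‖)) := by gcongr
          _ = 4 * Real.exp (-(R:ℝ)) * (Real.exp (3 * ‖Z‖) * Real.exp (2 * ‖Z‖)) := by ring
          _ ≤ _ := by gcongr
      have h3 : ‖Gt K I ω ^ 2‖ * ‖Gt K I ω ^ 2‖ ≤ 1 + ‖Gt K I ω‖ ^ 4 := by
        rw [norm_pow]
        have : ‖Gt K I ω‖ ^ 2 * ‖Gt K I ω‖ ^ 2 = ‖Gt K I ω‖ ^ 4 := by ring
        rw [this]; linarith
      calc _ ≤ (1 + ‖Gt K I ω‖ ^ 4) * (4 * Real.exp (-(R:ℝ)) * Real.exp (8 * ‖Z‖)) :=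
            mul_le_mul h3 h2 (norm_nonneg _) (by positivity)
        _ = _ := by ring
    have hic : Continuous fun ω : I → ℂ => 4 * Real.exp (-(R:ℝ)) * ((1 + ‖Gt K I ω‖ ^ 4) *
        Real.exp (8 * ‖∑ p : I, ω p‖)) :=
      continuous_const.mul ((continuous_const.add ((Gt_cont K I).norm.pow 4)).mul (by fun_prop))
    refine (norm_integral_le_of_norm_le (tm_integrable hP hic) (ae_of_all _ hb2)).trans ?_
    rw [integral_const_mul]
    have h3 := EM4 hδ hI hv hu hK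
    have x0 := Real.exp_pos (-(R:ℝ))
    calc _ ≤ 4 * Real.exp (-(R:ℝ)) * C4 c := mul_le_mul_of_nonneg_left h3 (by positivity)
      _ = _ := by ring
  have h2 := norm_add_le ((∫ ω, (Gt K I ω ^ 2 * NK (20 * R) a (∑ p : I, ω p)) * starRingEnd ℂ (Gt K I ω ^ 2 * NK (20 * R) a (∑ p : I, ω p))
      ∂(tm δ I)) - ∫ ω, (Gt K I ω ^ 2 * Complex.exp (a * ∑ p : I, ω p)) *
      starRingEnd ℂ (Gt K I ω ^ 2 * Complex.exp (a * ∑ p : I, ω p)) ∂(tm δ I))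
      ((∫ ω, (Gt K I ω ^ 2 * Complex.exp (a * ∑ p : I, ω p)) *
      starRingEnd ℂ (Gt K I ω ^ 2 * Complex.exp (a * ∑ p : I, ω p)) ∂(tm δ I)) - ((Real.exp ((2 + a) ^ 2 * vd δ I) : ℝ) : ℂ))
  rw [sub_add_sub_cancel] at h2
  have hip := ip_torus (δ := δ) hP hm hm
  simp_rw [e1] at hip
  have h5 := re_close hip (h2.trans (add_le_add h1 hmain))
  have h3 : 1 ≤ Real.exp ((2 + a) ^ 2 * vd δ I) := Real.one_le_exp (by have := vd_nonneg δ I; positivity)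
  have h4 : 4 * C4 c * Real.exp (-(R:ℝ)) ≤ 4 * C4 c * Real.exp (-(R:ℝ)) * Real.exp ((2 + a) ^ 2 * vd δ I) :=
    le_mul_of_one_le_right (by have := C4_pos c; positivity) h3
  have h6 := (abs_le.mp h5).2
  unfold eb4
  nlinarith

theorem blk4q (hδ : 0 ≤ δ) (hI : Bg I) (hv : vI I ≤ c) (hu : uI I ≤ c) (hK : 2 ≤ K) (hR : 1 ≤ R) :
    ip δ (GI K I ^ 2 * Qe R I) (GI K I ^ 2 * Qe R I) ≤ C4 c * Real.exp (-(2 * (R:ℝ))) := by
  have hP : ∀ p ∈ I, p.Prime := fun p hp => (hI p hp).1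
  rw [ip_torus_self hP (Subalgebra.mul_mem _ (Subalgebra.pow_mem _ (GI_mem hP K) 2) (Qe_mem hP R))]
  have h1 : ∀ ω : I → ℂ, ‖ph I ω (GI K I ^ 2 * Qe R I)‖ ^ 2 ≤ Real.exp (-(2 * (R:ℝ))) *
      ((1 + ‖Gt K I ω‖ ^ 4) * Real.exp (8 * ‖∑ p : I, ω p‖)) := by
    intro ω
    rw [map_mul, map_pow, norm_mul, mul_pow, ph_Qe_sq hP, ph_GI hP, norm_pow]
    have h2 := ball_pow_le hR (∑ p : I, ω p)
    have h3 : Real.exp (4 * ‖∑ p : I, ω p‖) ≤ Real.exp (8 * ‖∑ p : I, ω p‖) :=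
      Real.exp_le_exp.mpr (by linarith [norm_nonneg (∑ p : I, ω p)])
    have h4 : (‖Gt K I ω‖ ^ 2) ^ 2 ≤ 1 + ‖Gt K I ω‖ ^ 4 := by
      have : (‖Gt K I ω‖ ^ 2) ^ 2 = ‖Gt K I ω‖ ^ 4 := by ring
      rw [this]; linarith
    calc _ ≤ (1 + ‖Gt K I ω‖ ^ 4) * (Real.exp (-(2 * (R:ℝ))) * Real.exp (8 * ‖∑ p : I, ω p‖)) :=
          mul_le_mul h4 (h2.trans (mul_le_mul_of_nonneg_left h3 (Real.exp_pos _).le)) (by positivity) (by positivity)
      _ = _ := by ring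
  have hic : Continuous fun ω : I → ℂ => Real.exp (-(2 * (R:ℝ))) * ((1 + ‖Gt K I ω‖ ^ 4) *
        Real.exp (8 * ‖∑ p : I, ω p‖)) :=
      continuous_const.mul ((continuous_const.add ((Gt_cont K I).norm.pow 4)).mul (by fun_prop))
  have h3 := integral_mono (tm_integrable (δ := δ) hP ((ph_cont I (GI K I ^ 2 * Qe R I)).norm.pow 2))
    (tm_integrable (δ := δ) hP hic) h1
  refine h3.trans ?_
  rw [integral_const_mul, mul_comm]
  exact mul_le_mul_of_nonneg_right (EM4 hδ hI hv hu hK) (Real.exp_pos _).le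

end

end Pool.Agent.Y755
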