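import Pool.Agent.Y755.Sq1
import Pool.Agent.Y755.Par
import Pool.Agent.Y755.Hpb

set_option autoImplicit false

/-! The truncated square: norms. -/

namespace Pool.Agent.Y755

open Finset Filter MeasureTheory MonoidAlgebra
open Pool.Agent.W184.NZ

/-- the truncated product with the square of zeta -/
noncomputable def D2 (N : ℕ) (A : P1) : P1 := Dt N (zN N * A)

lemma exists_Bd {I : Finset ℕ} {f : P1} (hf : f ∈ SA1 (M1 I)) : ∃ M : ℝ, Bd1 M f :=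
  ⟨(f.coeff.support.sup id : ℕ), fun x hx => ⟨((mem_SA1.mp hf) x hx).1, by
    exact_mod_cast Finset.le_sup (f := id) hx⟩⟩

lemma D2_eq {K N : ℕ} (hK : N < 2 ^ (K + 1)) {A : P1} {M : ℝ} (hA : Bd1 M A) :
    D2 N A = trn N (GI K (Pn N) ^ 2 * A) := by
  obtain ⟨M', hM'⟩ := exists_Bd (GI_mem (I := Pn N) (fun p hp => Pn_prime hp) K)
  unfold D2
  rw [Dt_eq hK ((zN_Bd (N := N)).mul hA)]
  have e1 : GI K (Pn N) * (zN N * A) = zN N * (GI K (Pn N) * A) := by ring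
  rw [e1]
  have h2 := Dt_eq hK (hM'.mul hA)
  unfold Dt at h2
  rw [h2]
  congr 1; ring

lemma D2_Bd {N : ℕ} {M : ℝ} {A : P1} (hA : Bd1 M A) : Bd1 N (D2 N A) := Dt_Bd ((zN_Bd (N := N)).mul hA)

lemma D2_l1 (N : ℕ) (A : P1) : l1' (D2 N A) ≤ N ^ 2 * l1' A := by
  have h1 := Dt_l1 N (zN N * A)
  have h2 : l1' (zN N * A) ≤ N * l1' A :=
    (l1'_mul _ _).trans (mul_le_mul_of_nonneg_right (zN_l1 N) (l1'_nonneg _))
  unfold D2
  refine h1.trans ?_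
  have h3 := mul_le_mul_of_nonneg_left h2 (Nat.cast_nonneg (α := ℝ) N)
  linarith

theorem D2_far {N : ℕ} {M : ℝ} (hN : 1 ≤ N) {A : P1} (hA : Bd1 M A) : ∃ C : ℝ, ∀ z : ℂ, 2 ≤ z.re →
    ‖riemannZeta z ^ 2 * es z A - es z (D2 N A)‖ * (N:ℝ) ^ z.re ≤ C := by
  set c0 : ℝ := (N:ℝ) ^ 2 * ∑' n : ℕ, 1 / (n : ℝ) ^ 2 with hc0
  have hc00 : 0 ≤ c0 := mul_nonneg (by positivity) (tsum_nonneg fun _ => by positivity)
  refine ⟨c0 * ((N + N + c0) * l1' A) + l1' (zN N * (zN N * A)), fun z hz => ?_⟩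
  have hN1 : (1:ℝ) ≤ N := by exact_mod_cast hN
  have h1 := zN_far hN hz
  rw [← hc0] at h1
  have h2 := es_far hN (((zN_Bd (N := N)).mul ((zN_Bd (N := N)).mul hA))) (z := z) (by linarith)
  have h3 := es_norm_le (s := z) (by linarith) hA
  have hz0 : ‖es z (zN N)‖ ≤ N := (es_norm_le (by linarith) (zN_Bd (N := N))).trans (zN_l1 N)
  have hp1 : 1 ≤ (N:ℝ) ^ z.re := Real.one_le_rpow hN1 (by linarith)
  have hp : 0 ≤ (N:ℝ) ^ z.re := by linarith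
  have h4 : ‖riemannZeta z - es z (zN N)‖ ≤ c0 := by
    refine le_trans ?_ h1
    exact le_mul_of_one_le_right (norm_nonneg _) hp1
  have h5 : ‖riemannZeta z + es z (zN N)‖ ≤ N + N + c0 := by
    have e : riemannZeta z + es z (zN N) = (riemannZeta z - es z (zN N)) + es z (zN N) + es z (zN N) := by ring
    rw [e]
    refine (norm_add₃_le ).trans ?_
    linarith
  have e1 : riemannZeta z ^ 2 * es z A - es z (D2 N A) =
      (riemannZeta z - es z (zN N)) * ((riemannZeta z + es z (zN N)) * es z A) +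
      (es z (zN N * (zN N * A)) - es z (trn N (zN N * (zN N * A)))) := by
    unfold D2 Dt
    rw [map_mul, map_mul]; ring
  rw [e1]
  calc _ ≤ (‖riemannZeta z - es z (zN N)‖ * ((N + N + c0) * l1' A) +
        ‖es z (zN N * (zN N * A)) - es z (trn N (zN N * (zN N * A)))‖) * (N:ℝ) ^ z.re := by
        refine mul_le_mul_of_nonneg_right ?_ hp
        refine (norm_add_le _ _).trans (add_le_add ?_ le_rfl)
        rw [norm_mul, norm_mul]
        exact mul_le_mul_of_nonneg_left (mul_le_mul h5 h3 (norm_nonneg _) (by positivity)) (norm_nonneg _)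
    _ = (‖riemannZeta z - es z (zN N)‖ * (N:ℝ) ^ z.re) * ((N + N + c0) * l1' A) +
        ‖es z (zN N * (zN N * A)) - es z (trn N (zN N * (zN N * A)))‖ * (N:ℝ) ^ z.re := by ring
    _ ≤ _ := by
        refine add_le_add (mul_le_mul_of_nonneg_right h1 ?_) h2
        have := l1'_nonneg A
        positivity

/-! large primes -/

lemma GI2_ip_le {δ : ℝ} (hδ : 0 ≤ δ) {K : ℕ} (hK : 2 ≤ K) {P : Finset ℕ} (hP : Bg P) :
    ip δ (GI K P ^ 2) (GI K P ^ 2) ≤ Real.exp (15 * vd δ P) := by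
  have hPp : ∀ p ∈ P, p.Prime := fun p hp => (hP p hp).1
  rw [ip_torus_self hPp (Subalgebra.pow_mem _ (GI_mem hPp K) 2)]
  have e1 : ∀ ω : P → ℂ, ‖ph P ω (GI K P ^ 2)‖ ^ 2 = ∏ p : P, (fun (_ : P) (z : ℂ) => ‖gz K z‖ ^ 4) p (ω p) := by
    intro ω
    rw [map_pow, ph_GI hPp, norm_pow, ← pow_mul]
    unfold Gt
    rw [norm_prod, ← prod_pow]
  rw [integral_congr_ae (ae_of_all _ e1), tm_prod_real (δ := δ) (fun (_ : P) (z : ℂ) => ‖gz K z‖ ^ 4)]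
  have h1 : ∀ p : P, ∫ z, ‖gz K z‖ ^ 4 ∂(cm (rp δ p)) ≤ Real.exp (15 * rp δ p ^ 2) := by
    intro p
    have hp := hP p p.2
    set r := rp δ p with hr
    have hr0 : 0 < r := rp_pos δ hp.1
    have hr1 : r ≤ 1 / 30 := rp_small hδ hp.2
    have h2 : ∫ z, ‖gz K z‖ ^ 4 ∂(cm r) ≤ ∫ z, Real.exp (8 * r ^ 2) * Real.exp (((4:ℂ) * z).re) ∂(cm r) := by
      refine integral_mono_ae (cm_integrable hr0 ((gz_cont K).norm.pow 4)) (cm_integrable hr0 (by fun_prop)) ?_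
      filter_upwards [cm_norm hr0] with z hz
      have g1 := gz_sq_le hK (z := z) (by rw [hz]; linarith)
      rw [hz] at g1
      calc ‖gz K z‖ ^ 4 = (‖gz K z‖ ^ 2) ^ 2 := by ring
        _ ≤ (Real.exp (2 * 1 * z.re + 4 * r ^ 2)) ^ 2 := pow_le_pow_left₀ (by positivity) g1 2
        _ = Real.exp (8 * r ^ 2) * Real.exp (((4:ℂ) * z).re) := by
          have e4 : ((4:ℂ) * z).re = 4 * z.re := by simp
          rw [e4, ← Real.exp_nat_mul, ← Real.exp_add]; congr 1; push_cast; ring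
    refine h2.trans ?_
    rw [integral_const_mul]
    have h4 := single_exp (μ := cm r) hr0 le_rfl (cm_norm hr0) (cm_mom' hr0) (c := 4)
      (by rw [Complex.norm_ofNat]; linarith)
    rw [Complex.norm_ofNat] at h4
    have h5 : Real.exp ((4:ℂ).re * (r * 0) + 4 ^ 2 * r ^ 2 / 4 + 4 ^ 2 * (r * 0) ^ 2 / 4 + 4 ^ 3 * r ^ 3) ≤
        Real.exp (7 * r ^ 2) := by
      refine Real.exp_le_exp.mpr ?_
      nlinarith [sq_nonneg r]
    calc _ ≤ Real.exp (8 * r ^ 2) * Real.exp (7 * r ^ 2) :=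
          mul_le_mul_of_nonneg_left (h4.trans h5) (Real.exp_pos _).le
      _ = _ := by rw [← Real.exp_add]; congr 1; ring
  have h6 : ∀ p : P, 0 ≤ ∫ z, ‖gz K z‖ ^ 4 ∂(cm (rp δ p)) := fun p => integral_nonneg fun z => by positivity
  refine (prod_le_prod (fun p _ => h6 p) (fun p _ => h1 p)).trans ?_
  rw [← Real.exp_sum, ← mul_sum, Finset.sum_coe_sort P (fun p => rp δ p ^ 2)]
  rfl

/-! small primes -/

lemma Hi_add {M : ℕ} {f g : P1} (hf : Hi M f) (hg : Hi M g) : Hi M (f + g) := by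
  intro n hn
  rw [coeff_add] at hn
  have := Finsupp.support_add hn
  rw [mem_union] at this
  exact this.elim (hf n) (hg n)

lemma Hi_mul {M : ℕ} {f g : P1} (hf : Hi M f) (hg : ∀ n ∈ g.coeff.support, n ≠ 0) : Hi M (f * g) := by
  intro n hn
  have := support_coeff_mul_subset _ _ hn
  rw [Finset.mem_mul] at this
  obtain ⟨k, hk, m, hm, rfl⟩ := this
  refine ⟨mul_ne_zero (hf k hk).1 (hg m hm), ?_⟩
  calc M ≤ k := (hf k hk).2
    _ = k * 1 := (mul_one k).symm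
    _ ≤ k * m := Nat.mul_le_mul_left k (Nat.pos_of_ne_zero (hg m hm))

theorem small_ip2 {δ : ℝ} (hδ : 0 ≤ δ) {z K : ℕ} {A : P1} {m : ℝ} (hA : Bd1 m A) (hm : m < 2 ^ (K + 1)) :
    ip δ (GI K (S0 z) ^ 2 * Pz z ^ 2 * A) (GI K (S0 z) ^ 2 * Pz z ^ 2 * A) ≤
      ip δ A A + (4 ^ (S0 z).card * l1' A) ^ 2 / 2 ^ (K + 1) := by
  obtain ⟨E, h1, h2, h3, h4⟩ := small_fac K (S0 z) fun p hp => (mem_S0.mp hp).2
  set E' : P1 := E + E + E * E with hE'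
  have e1 : GI K (S0 z) ^ 2 * Pz z ^ 2 * A = A + E' * A := by
    have : GI K (S0 z) * Pz z = 1 + E := h1
    calc GI K (S0 z) ^ 2 * Pz z ^ 2 * A = (GI K (S0 z) * Pz z) ^ 2 * A := by ring
      _ = (1 + E) ^ 2 * A := by rw [this]
      _ = _ := by rw [hE']; ring
  have hE0 : Hi (2 ^ (K + 1)) E' := Hi_add (Hi_add h2 h2) (Hi_mul h2 fun n hn => (h2 n hn).1)
  have hEl : l1' E' ≤ 4 ^ (S0 z).card := by
    have b1 := l1'_add (E + E) (E * E)
    have b2 := l1'_add E E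
    have b3 := l1'_mul E E
    have b0 := l1'_nonneg E
    have b4 : (4:ℝ) ^ (S0 z).card = (2 ^ (S0 z).card) ^ 2 := by
      rw [← pow_mul, mul_comm, pow_mul]; norm_num
    rw [b4]
    nlinarith
  have hHi : Hi (2 ^ (K + 1)) (E' * A) := Hi_mul hE0 fun n hn => (hA n hn).1
  have hdj : ip δ (E' * A) A = 0 := by
    refine ip_disj δ fun n hn hn2 => ?_
    have a1 := (hHi n hn).2
    have a2 := (hA n hn2).2
    have a3 : ((2:ℝ) ^ (K + 1)) ≤ n := by exact_mod_cast a1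
    linarith
  rw [e1, ip_add_left, ip_add_right, ip_add_right, ip_comm δ A (E' * A), hdj]
  have h5 := Hi_ip hδ (Nat.one_le_two_pow) hHi
  have h6 : l1' (E' * A) ≤ 4 ^ (S0 z).card * l1' A :=
    (l1'_mul _ _).trans (mul_le_mul_of_nonneg_right hEl (l1'_nonneg _))
  have h7 := pow_le_pow_left₀ (l1'_nonneg _) h6 2
  have h8 : l1' (E' * A) ^ 2 / ((2 ^ (K + 1) : ℕ) : ℝ) ≤ (4 ^ (S0 z).card * l1' A) ^ 2 / 2 ^ (K + 1) := by
    push_cast
    gcongr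
  linarith

/-- the error of a block -/
noncomputable def er4 (c : ℝ) (z : ℕ) (y : ℝ) (Rs i : ℕ) : ℝ :=
  eb4 c (IZ z y i) (RR Rs i) + C4 c * Real.exp (-(2 * (RR Rs i : ℝ)))

/-- the total error -/
noncomputable def ET4 (c : ℝ) (z : ℕ) (y : ℝ) (J Rs : ℕ) : ℝ := ∑ i ∈ range J, er4 c z y Rs i

/-- the truncated polynomial -/
noncomputable def DS2 (N : ℕ) (a : ℝ) (z : ℕ) (y : ℝ) (J Rs : ℕ) (A0 : P1) (S : Finset ℕ) : P1 :=
  D2 N (Pz z ^ 2 * A0 * Bz a z y J Rs S)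

lemma er4_nonneg (c : ℝ) (z : ℕ) (y : ℝ) (Rs i : ℕ) : 0 ≤ er4 c z y Rs i := by
  unfold er4
  have h1 := eb4_nonneg c (IZ z y i) (RR Rs i)
  have h2 := C4_pos c
  positivity

lemma ET4_nonneg (c : ℝ) (z : ℕ) (y : ℝ) (J Rs : ℕ) : 0 ≤ ET4 c z y J Rs := sum_nonneg fun _ _ => er4_nonneg _ _ _ _ _

section

variable {c y δ a : ℝ} {z J Rs N K : ℕ} {A0 : P1} {m : ℝ}

/-- the first factor -/
noncomputable def F1q (K z : ℕ) (A0 : P1) : P1 := GI K (S0 z) ^ 2 * Pz z ^ 2 * A0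

/-- the second factor -/
noncomputable def F2q (K : ℕ) (a : ℝ) (z : ℕ) (y : ℝ) (J Rs : ℕ) (S : Finset ℕ) : P1 :=
  ∏ i ∈ range J, (GI K (IZ z y i) ^ 2 * bs a (RR Rs) (IZ z y) S i)

lemma F1q_mem (hA : A0 ∈ SA1 (M1 (S0 z))) : F1q K z A0 ∈ SA1 (M1 (S0 z)) :=
  Subalgebra.mul_mem _ (Subalgebra.mul_mem _ (Subalgebra.pow_mem _ (GI_mem (fun p hp => (mem_S0.mp hp).2) K) 2)
    (Subalgebra.pow_mem _ (Pz_mem z) 2)) hA

lemma F2q_mem (S : Finset ℕ) : F2q K a z y J Rs S ∈ SA1 (M1 ((range J).biUnion (IZ z y))) :=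
  prod_mem1 J fun i _ => Subalgebra.mul_mem _ (Subalgebra.pow_mem _ (GI_mem (IZ_prime i) K) 2) (bs_mem IZ_prime i)

lemma PB2_Bd (h : Sy c z y J Rs N K) (hA : Bd1 m A0) (S : Finset ℕ) :
    Bd1 (((z:ℝ) ^ (S0 z).card) ^ 2 * m * Real.exp (Real.log y * (80 * ((Rs:ℝ) + 1)))) (Pz z ^ 2 * A0 * Bz a z y J Rs S) :=
  (((Pz_Bd z).pow 2).mul hA).mul (Bz_Bd h S)

lemma D2_split (h : Sy c z y J Rs N K) (hA : Bd1 m A0) (S : Finset ℕ) :
    DS2 N a z y J Rs A0 S = trn N (F1q K z A0 * F2q K a z y J Rs S * GI K (Rst N y) ^ 2) := by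
  have hB := PB2_Bd (a := a) h hA S
  unfold DS2
  rw [D2_eq h.NK hB, GI_split (by have := h.z1; omega) h.zy h.J1 h.yN]
  congr 1
  unfold F1q F2q Bz BS
  rw [prod_mul_distrib, prod_pow]
  ring

lemma blkSq (h : Sy c z y J Rs N K) (hδ : 0 ≤ δ) (ha : |a| ≤ 1) (ha0 : a ≤ 0) (S : Finset ℕ) {i : ℕ} (hi : i < J) :
    ip δ (GI K (IZ z y i) ^ 2 * bs a (RR Rs) (IZ z y) S i) (GI K (IZ z y i) ^ 2 * bs a (RR Rs) (IZ z y) S i) ≤
      if i ∈ S then C4 c * Real.exp (-(2 * (RR Rs i : ℝ))) else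
        (1 + eb4 c (IZ z y i) (RR Rs i)) * Real.exp ((2 + a) ^ 2 * vd δ (IZ z y i)) := by
  have hR : 1 ≤ RR Rs i := by have := h.R1; unfold RR; omega
  unfold bs
  split_ifs
  · exact blk4q hδ (Bg_IZ h.z1 y i) (h.rg.v i hi) (h.rg.u hi) h.K2 hR
  · exact blk1q hδ (Bg_IZ h.z1 y i) (h.rg.v i hi) (h.rg.u hi) h.K2 hR ha ha0

lemma F2q_ip (h : Sy c z y J Rs N K) (S : Finset ℕ) :
    ip δ (F2q K a z y J Rs S) (F2q K a z y J Rs S) =
    ∏ i ∈ range J, ip δ (GI K (IZ z y i) ^ 2 * bs a (RR Rs) (IZ z y) S i) (GI K (IZ z y i) ^ 2 * bs a (RR Rs) (IZ z y) S i) := by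
  have hm : ∀ i, GI K (IZ z y i) ^ 2 * bs a (RR Rs) (IZ z y) S i ∈ SA1 (M1 (IZ z y i)) := fun i =>
    Subalgebra.mul_mem _ (Subalgebra.pow_mem _ (GI_mem (IZ_prime i) K) 2) (bs_mem IZ_prime i)
  exact ip_prod δ J (IZ_dj h) hm hm

lemma F2q_sum (h : Sy c z y J Rs N K) (hδ : 0 ≤ δ) (ha : |a| ≤ 1) (ha0 : a ≤ 0) :
    ∑ S ∈ (range J).powerset, ip δ (F2q K a z y J Rs S) (F2q K a z y J Rs S) ≤
      Real.exp ((2 + a) ^ 2 * Vd δ z y J + ET4 c z y J Rs) := by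
  have h1 : ∀ S ∈ (range J).powerset, ip δ (F2q K a z y J Rs S) (F2q K a z y J Rs S) ≤
      ∏ i ∈ range J, if i ∈ S then C4 c * Real.exp (-(2 * (RR Rs i : ℝ))) else
        (1 + eb4 c (IZ z y i) (RR Rs i)) * Real.exp ((2 + a) ^ 2 * vd δ (IZ z y i)) := by
    intro S _
    rw [F2q_ip h S]
    exact prod_le_prod (fun i _ => ip_self_nonneg _ _) fun i hi => blkSq h hδ ha ha0 S (mem_range.mp hi)
  refine (sum_le_sum h1).trans ?_
  rw [sum_pow_prod (fun i => C4 c * Real.exp (-(2 * (RR Rs i : ℝ))))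
    (fun i => (1 + eb4 c (IZ z y i) (RR Rs i)) * Real.exp ((2 + a) ^ 2 * vd δ (IZ z y i)))]
  have hc := C4_pos c
  refine prod_exp_le (fun i _ => ?_) fun i _ => ?_
  · have := eb4_nonneg c (IZ z y i) (RR Rs i)
    positivity
  · unfold er4
    have h2 : 1 ≤ Real.exp ((2 + a) ^ 2 * vd δ (IZ z y i)) :=
      Real.one_le_exp (mul_nonneg (sq_nonneg _) (vd_nonneg _ _))
    have h3 : 0 ≤ C4 c * Real.exp (-(2 * (RR Rs i : ℝ))) := by positivity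
    nlinarith

lemma Rst_Bg (h : Sy c z y J Rs N K) : Bg (Rst N y) := by
  intro p hp
  rw [mem_Rst] at hp
  refine ⟨Pn_prime hp.1, ?_⟩
  have h1 : (z:ℝ) < p := lt_of_le_of_lt h.zy hp.2
  have h2 : z < p := by exact_mod_cast h1
  have := h.z1
  omega

/-- all the polynomials -/
theorem N1q (h : Sy c z y J Rs N K) (hδ : 0 ≤ δ) (ha : |a| ≤ 1) (ha0 : a ≤ 0) (hA : Bd1 m A0) (hAm : A0 ∈ SA1 (M1 (S0 z)))
    (hm : m < 2 ^ (K + 1)) :
    ∑ S ∈ (range J).powerset, ip δ (DS2 N a z y J Rs A0 S) (DS2 N a z y J Rs A0 S) ≤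
      (ip δ A0 A0 + (4 ^ (S0 z).card * l1' A0) ^ 2 / 2 ^ (K + 1)) *
        Real.exp ((2 + a) ^ 2 * Vd δ z y J + ET4 c z y J Rs) * Real.exp (15 * vd δ (Rst N y)) := by
  have hsm := small_ip2 (z := z) hδ hA hm
  have h1 : ∀ S ∈ (range J).powerset, ip δ (DS2 N a z y J Rs A0 S) (DS2 N a z y J Rs A0 S) ≤
      (ip δ A0 A0 + (4 ^ (S0 z).card * l1' A0) ^ 2 / 2 ^ (K + 1)) * ip δ (F2q K a z y J Rs S) (F2q K a z y J Rs S) *
        Real.exp (15 * vd δ (Rst N y)) := by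
    intro S _
    rw [D2_split h hA S]
    refine (trn_ip_le δ N _).trans ?_
    have hR3 : GI K (Rst N y) ^ 2 ∈ SA1 (M1 (Rst N y)) := Subalgebra.pow_mem _ F3_mem 2
    rw [ip3 h (F1q_mem hAm) (F2q_mem S) hR3 (F1q_mem hAm) (F2q_mem S) hR3]
    refine mul_le_mul (mul_le_mul_of_nonneg_right hsm (ip_self_nonneg _ _))
      (GI2_ip_le hδ h.K2 (Rst_Bg h)) (ip_self_nonneg _ _) ?_
    exact mul_nonneg (le_trans (ip_self_nonneg δ (F1q K z A0)) hsm) (ip_self_nonneg _ _)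
  refine (sum_le_sum h1).trans ?_
  rw [← sum_mul, ← mul_sum]
  refine mul_le_mul_of_nonneg_right (mul_le_mul_of_nonneg_left (F2q_sum h hδ ha ha0) ?_) (Real.exp_pos _).le
  exact le_trans (ip_self_nonneg δ (F1q K z A0)) hsm

end

lemma ET4_small {c ε : ℝ} (hc : 0 ≤ c) (hε : 0 < ε) : ∃ z0 R0 : ℕ, ∀ z : ℕ, z0 ≤ z → ∀ Rs : ℕ, R0 ≤ Rs →
    ∀ (y : ℝ) (J : ℕ), Rg c J (IZ z y) (bb y) → ET4 c z y J Rs ≤ ε := by
  have hCE := C4_pos c
  set B := 300 * Real.exp (300 * c) with hB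
  have hB0 : 0 < B := by positivity
  obtain ⟨z0, hz0⟩ := uI_tail (ε := ε / 2 / B) (by positivity)
  obtain ⟨R0, hR0⟩ := exists_nat_gt (10 * C4 c / (ε / 2))
  refine ⟨z0, R0, fun z hz Rs hRs y J hJ => ?_⟩
  have h1 : ∀ i ∈ range J, er4 c z y Rs i ≤ B * uI (IZ z y i) + 5 * C4 c * Real.exp (-(RR Rs i : ℝ)) := by
    intro i hi
    rw [mem_range] at hi
    unfold er4 eb4
    have hu0 := uI_nonneg (IZ z y i)
    have hu1 := hJ.u hi
    have h2 := exp_sub_one_le (x := 300 * uI (IZ z y i)) (M := 300 * c) (by positivity) (by linarith)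
    have h3 : Real.exp (-(2 * (RR Rs i : ℝ))) ≤ Real.exp (-(RR Rs i : ℝ)) := by
      refine Real.exp_le_exp.mpr ?_
      have : (0:ℝ) ≤ (RR Rs i : ℝ) := Nat.cast_nonneg _
      linarith
    have h4 := mul_le_mul_of_nonneg_left h3 hCE.le
    rw [hB]
    linarith
  have h2 : ∑ i ∈ range J, uI (IZ z y i) ≤ ε / 2 / B := by
    have h3 : ∑ i ∈ range J, uI (IZ z y i) = ∑ p ∈ (range J).biUnion (IZ z y), (p:ℝ) ^ (-(3 / 2 : ℝ)) := by
      rw [sum_biUnion]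
      · rfl
      · intro i _ j _ hij
        rcases lt_or_gt_of_ne hij with h | h
        · exact hJ.dj i j h
        · exact (hJ.dj j i h).symm
    rw [h3]
    refine hz0 z hz _ fun p hp => ?_
    rw [mem_biUnion] at hp
    obtain ⟨i, _, hi⟩ := hp
    exact (mem_IZ.mp hi).2
  have h3 := sum_exp_two J Rs
  have h4 : 10 * C4 c * Real.exp (-(2 * (Rs:ℝ))) ≤ ε / 2 := by
    have h5 : (R0:ℝ) ≤ Rs := by exact_mod_cast hRs
    have h6 : 10 * C4 c / (ε / 2) ≤ Real.exp (2 * (Rs:ℝ)) := by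
      have := Real.add_one_le_exp (2 * (Rs:ℝ))
      have : (0:ℝ) ≤ Rs := Nat.cast_nonneg _
      linarith
    rw [div_le_iff₀ (by positivity)] at h6
    rw [Real.exp_neg, ← div_eq_mul_inv, div_le_iff₀ (Real.exp_pos _)]
    linarith
  unfold ET4
  refine (sum_le_sum h1).trans ?_
  rw [sum_add_distrib, ← mul_sum, ← mul_sum]
  have h5 : B * (ε / 2 / B) = ε / 2 := by field_simp
  have h6 := mul_le_mul_of_nonneg_left h2 hB0.le
  have h7 := mul_le_mul_of_nonneg_left h3 (by positivity : 0 ≤ 5 * C4 c)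
  linarith

lemma IZ_cover {c y : ℝ} {z J Rs N K : ℕ} (h : Sy c z y J Rs N K) (p : ℕ) (hp : p.Prime) (h1 : z ≤ p) (h2 : (p:ℝ) ≤ y) :
    ∃ i < J, p ∈ IZ z y i := by
  have h3 := (mem_blocks (by have := h.z1; omega : 144 ≤ z) h.y1 h.J1 (p := p)).mpr ⟨hp, h1, h2⟩
  rw [mem_biUnion] at h3
  obtain ⟨i, hi, h4⟩ := h3
  exact ⟨i, mem_range.mp hi, h4⟩

end Pool.Agent.Y755
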