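import Pool.Agent.Y755.OnL

set_option autoImplicit false

/-! The system of blocks, small primes and large primes. -/

namespace Pool.Agent.Y755

open Finset Filter MeasureTheory MonoidAlgebra
open Pool.Agent.W184.NZ

/-- the blocks above `z` -/
noncomputable def IZ (z : ℕ) (y : ℝ) (i : ℕ) : Finset ℕ := (II y i).filter fun p => z ≤ p

/-- the primes below `z` -/
def S0 (z : ℕ) : Finset ℕ := (range z).filter Nat.Prime

/-- the large primes -/
noncomputable def Rst (N : ℕ) (y : ℝ) : Finset ℕ := by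
  classical exact (Pn N).filter fun p => y < p

lemma mem_IZ {z : ℕ} {y : ℝ} {i p : ℕ} : p ∈ IZ z y i ↔ p ∈ II y i ∧ z ≤ p := by
  unfold IZ; rw [mem_filter]

lemma mem_S0 {z p : ℕ} : p ∈ S0 z ↔ p < z ∧ p.Prime := by
  unfold S0; rw [mem_filter, mem_range]

lemma mem_Rst {N : ℕ} {y : ℝ} {p : ℕ} : p ∈ Rst N y ↔ p ∈ Pn N ∧ y < p := by
  unfold Rst; rw [mem_filter]

lemma mem_Pn {N p : ℕ} : p ∈ Pn N ↔ p ≤ N ∧ p.Prime := by
  unfold Pn; rw [mem_filter, mem_range]; constructor <;> rintro ⟨h1, h2⟩ <;> exact ⟨by omega, h2⟩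

lemma vI_mono {I J : Finset ℕ} (h : I ⊆ J) : vI I ≤ vI J :=
  sum_le_sum_of_subset_of_nonneg h fun _ _ _ => by positivity

lemma uI_mono {I J : Finset ℕ} (h : I ⊆ J) : uI I ≤ uI J :=
  sum_le_sum_of_subset_of_nonneg h fun _ _ _ => by positivity

lemma IZ_sub (z : ℕ) (y : ℝ) (i : ℕ) : IZ z y i ⊆ II y i := filter_subset _ _

lemma Rg_IZ {c y : ℝ} {J : ℕ} (h : Rg c J (II y) (bb y)) (z : ℕ) : Rg c J (IZ z y) (bb y) where
  pr i p hp := h.pr i p (IZ_sub z y i hp)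
  dj i j hij := disjoint_of_subset_left (IZ_sub z y i) (disjoint_of_subset_right (IZ_sub z y j) (h.dj i j hij))
  b10 := h.b10
  v i hi := (vI_mono (IZ_sub z y i)).trans (h.v i hi)
  U := (sum_le_sum fun i _ => uI_mono (IZ_sub z y i)).trans h.U

lemma Bg_IZ {z : ℕ} (hz : 1000 ≤ z) (y : ℝ) (i : ℕ) : Bg (IZ z y i) := by
  intro p hp
  rw [mem_IZ, mem_II] at hp
  exact ⟨hp.1.1, hz.trans hp.2⟩

lemma find_block {y : ℝ} {J : ℕ} {x : ℝ} (h1 : bb y J < x) (h2 : x ≤ bb y 0) : ∃ i < J, bb y (i + 1) < x ∧ x ≤ bb y i := by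
  induction J with
  | zero => linarith
  | succ J ih =>
    rcases lt_or_ge (bb y J) x with h | h
    · obtain ⟨i, hi, h3⟩ := ih h
      exact ⟨i, by omega, h3⟩
    · exact ⟨J, by omega, h1, h⟩

lemma mem_blocks {z : ℕ} (hz : 144 ≤ z) {y : ℝ} (hy : 1 ≤ y) {J : ℕ} (hJ : bb y J < 144) {p : ℕ} :
    p ∈ (range J).biUnion (IZ z y) ↔ p.Prime ∧ z ≤ p ∧ (p:ℝ) ≤ y := by
  rw [mem_biUnion]
  constructor
  · rintro ⟨i, _, hp⟩
    rw [mem_IZ, mem_II] at hp
    exact ⟨hp.1.1, hp.2, hp.1.2.2.2.trans (bb_le hy i)⟩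
  · rintro ⟨h1, h2, h3⟩
    have hp : (144:ℝ) ≤ p := by exact_mod_cast hz.trans h2
    obtain ⟨i, hi, h4, h5⟩ := find_block (y := y) (J := J) (x := p) (by linarith) (by rw [bb_zero (by linarith)]; exact h3)
    exact ⟨i, mem_range.mpr hi, by rw [mem_IZ, mem_II]; exact ⟨⟨h1, by omega, h4, h5⟩, h2⟩⟩

lemma Pn_split {z : ℕ} (hz : 144 ≤ z) {y : ℝ} (hy : (z:ℝ) ≤ y) {J : ℕ} (hJ : bb y J < 144) {N : ℕ} (hN : y ≤ N) :
    Pn N = (S0 z ∪ (range J).biUnion (IZ z y)) ∪ Rst N y := by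
  have hz1 : (144:ℝ) ≤ z := by exact_mod_cast hz
  ext p
  rw [mem_union, mem_union, mem_blocks hz (by linarith) hJ, mem_S0, mem_Rst, mem_Pn]
  constructor
  · rintro ⟨h1, h2⟩
    rcases lt_or_ge p z with h3 | h3
    · exact Or.inl (Or.inl ⟨h3, h2⟩)
    · rcases lt_or_ge y p with h4 | h4
      · exact Or.inr ⟨⟨h1, h2⟩, h4⟩
      · exact Or.inl (Or.inr ⟨h2, h3, h4⟩)
  · rintro ((⟨h1, h2⟩ | ⟨h1, _, h3⟩) | ⟨h, _⟩)
    · refine ⟨?_, h2⟩
      have h4 : (p:ℝ) ≤ z := by exact_mod_cast h1.le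
      exact_mod_cast (h4.trans hy).trans hN
    · exact ⟨by exact_mod_cast h3.trans hN, h1⟩
    · exact h

lemma dj1 {z : ℕ} {y : ℝ} (J : ℕ) : Disjoint (S0 z) ((range J).biUnion (IZ z y)) := by
  rw [disjoint_left]
  intro p hp hq
  rw [mem_S0] at hp
  rw [mem_biUnion] at hq
  obtain ⟨i, _, hi⟩ := hq
  rw [mem_IZ] at hi
  omega

lemma dj2 {z : ℕ} (hz : 144 ≤ z) {y : ℝ} (hy : (z:ℝ) ≤ y) {J : ℕ} (hJ : bb y J < 144) (N : ℕ) :
    Disjoint (S0 z ∪ (range J).biUnion (IZ z y)) (Rst N y) := by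
  have hz1 : (144:ℝ) ≤ z := by exact_mod_cast hz
  rw [disjoint_left]
  intro p hp hq
  rw [mem_union, mem_blocks hz (by linarith) hJ, mem_S0] at hp
  rw [mem_Rst] at hq
  rcases hp with hp | hp
  · have : (p:ℝ) ≤ z := by exact_mod_cast hp.1.le
    linarith [hq.2]
  · linarith [hp.2.2, hq.2]

theorem GI_split {z : ℕ} (hz : 144 ≤ z) {y : ℝ} (hy : (z:ℝ) ≤ y) {J : ℕ} (hJ : bb y J < 144) {N : ℕ} (hN : y ≤ N)
    (K : ℕ) : GI K (Pn N) = GI K (S0 z) * (∏ i ∈ range J, GI K (IZ z y i)) * GI K (Rst N y) := by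
  have hz1 : (144:ℝ) ≤ z := by exact_mod_cast hz
  rw [Pn_split hz hy hJ hN]
  unfold GI
  rw [prod_union (dj2 hz hy hJ N), prod_union (dj1 J)]
  congr 2
  rw [prod_biUnion]
  intro i _ j _ hij
  have hlt : ∀ i j, i < j → Disjoint (IZ z y i) (IZ z y j) := fun i j h =>
    disjoint_of_subset_left (IZ_sub z y i) (disjoint_of_subset_right (IZ_sub z y j) (II_disj (by linarith) h))
  rcases lt_or_gt_of_ne hij with h | h
  · exact hlt i j h
  · exact (hlt j i h).symm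

/-! large primes -/

lemma wδ_pow (δ : ℝ) {p : ℕ} (hp : p.Prime) (e : ℕ) : wδ δ (p ^ e) = (rp δ p ^ 2) ^ e := by
  have hp0 : (0:ℝ) < p := by exact_mod_cast hp.pos
  unfold wδ rp
  push_cast
  rw [← Real.rpow_natCast, ← Real.rpow_natCast ((p:ℝ) ^ (-(1 / 2 + δ))), ← Real.rpow_mul hp0.le,
    ← Real.rpow_mul hp0.le, ← Real.rpow_natCast, ← Real.rpow_mul hp0.le, one_div, ← Real.rpow_neg hp0.le,
    ← Real.rpow_add hp0]
  congr 1
  push_cast; ring

lemma Gl_ip (δ : ℝ) (K : ℕ) {p : ℕ} (hp : p.Prime) : ip δ (Gl K p) (Gl K p) = ∑ e ∈ range (K + 1), (rp δ p ^ 2) ^ e := by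
  unfold Gl
  have e1 : ∀ e : ℕ, (single p (1:ℝ) : P1) ^ e = single (p ^ e) 1 := by
    intro e; rw [MonoidAlgebra.single_pow, one_pow]
  simp_rw [e1]
  rw [ip_sum_left]
  refine sum_congr rfl fun e he => ?_
  rw [ip_sum_right]
  simp_rw [ip_single]
  have e2 : ∀ f ∈ range (K + 1), (if p ^ e = p ^ f then (1:ℝ) * 1 * (((p ^ e : ℕ):ℝ) ^ (-(2 * δ)) * (1 / ((p ^ e : ℕ):ℝ))) else 0) =
      if e = f then wδ δ (p ^ e) else 0 := by
    intro f _
    by_cases h : e = f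
    · subst h; rw [if_pos rfl, if_pos rfl]; unfold wδ; ring
    · rw [if_neg h, if_neg (fun h2 => h (Nat.pow_right_injective hp.one_lt h2))]
  rw [sum_congr rfl e2, sum_ite_eq, if_pos he, wδ_pow δ hp]

lemma Gl_ip_le {δ : ℝ} (hδ : 0 ≤ δ) (K : ℕ) {p : ℕ} (hp : p.Prime) :
    ip δ (Gl K p) (Gl K p) ≤ Real.exp (2 * rp δ p ^ 2) := by
  rw [Gl_ip δ K hp]
  have h1 : rp δ p ^ 2 ≤ 1 / 2 := by
    refine (rp_sq_le hδ hp.one_lt.le).trans ?_
    exact one_div_le_one_div_of_le (by norm_num) (by exact_mod_cast hp.two_le)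
  set x := rp δ p ^ 2 with hx
  have hx0 : 0 ≤ x := sq_nonneg _
  have h2 : ∑ e ∈ range (K + 1), x ^ e ≤ (1 - x)⁻¹ := by
    have h3 := mul_neg_geom_sum x (K + 1)
    have h4 : 0 < 1 - x := by linarith
    rw [← one_div, le_div_iff₀ h4, mul_comm, h3]
    have : 0 ≤ x ^ (K + 1) := by positivity
    linarith
  have h3 : (1 - x)⁻¹ ≤ 1 + 2 * x := by
    rw [inv_le_comm₀ (by linarith) (by linarith), inv_eq_one_div, div_le_iff₀ (by linarith)]
    nlinarith
  have h4 := Real.add_one_le_exp (2 * x)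
  linarith

lemma GI_ip_le {δ : ℝ} (hδ : 0 ≤ δ) (K : ℕ) {P : Finset ℕ} (hP : ∀ p ∈ P, p.Prime) :
    ip δ (GI K P) (GI K P) ≤ Real.exp (2 * vd δ P) := by
  classical
  induction P using Finset.induction_on with
  | empty => simp [GI, vd, ip_one]
  | insert p P hpP ih =>
    have ih' := ih fun q hq => hP q (mem_insert_of_mem hq)
    have hp := hP p (mem_insert_self _ _)
    have e1 : GI K (insert p P) = Gl K p * GI K P := by unfold GI; rw [prod_insert hpP]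
    have e2 : vd δ (insert p P) = rp δ p ^ 2 + vd δ P := by unfold vd; rw [sum_insert hpP]
    rw [e1, e2, ip_mul (I := {p}) (J := P) (Finset.disjoint_singleton_left.mpr hpP)
      (Gl_mem hp (mem_singleton_self p) K) (Gl_mem hp (mem_singleton_self p) K)
      (GI_mem (fun q hq => hP q (mem_insert_of_mem hq)) K) (GI_mem (fun q hq => hP q (mem_insert_of_mem hq)) K),
      mul_add, Real.exp_add]
    exact mul_le_mul (Gl_ip_le hδ K hp) ih' (ip_self_nonneg _ _) (Real.exp_pos _).le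

lemma GI_ip_one (δ : ℝ) (K : ℕ) {P : Finset ℕ} (hP : ∀ p ∈ P, p.Prime) : ip δ (GI K P) 1 = 1 := by
  obtain ⟨S, h1, h2, h3⟩ := GI_set K P hP
  have h4 : 1 ∈ S := h3 1 (M1 P).one_mem (Nat.one_lt_two_pow (by omega))
  rw [h1, MonoidAlgebra.one_def, ip_sum_left]
  simp_rw [ip_single]
  rw [sum_ite_eq', if_pos h4]
  simp

/-! small primes -/

/-- the reciprocal Euler factor of the small primes -/
noncomputable def Pz (z : ℕ) : P1 := ∏ p ∈ S0 z, (1 - single p 1)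

/-- supported on large integers -/
def Hi (M : ℕ) (f : P1) : Prop := ∀ n ∈ f.coeff.support, n ≠ 0 ∧ M ≤ n

lemma small_fac (K : ℕ) (P : Finset ℕ) (hP : ∀ p ∈ P, p.Prime) :
    ∃ E : P1, GI K P * ∏ p ∈ P, (1 - single p 1) = 1 + E ∧ Hi (2 ^ (K + 1)) E ∧ l1' E ≤ 2 ^ P.card - 1 ∧
      E ∈ SA1 (M1 P) := by
  classical
  induction P using Finset.induction_on with
  | empty =>
    refine ⟨0, by simp [GI], fun n hn => by simp at hn, by simp [l1'_zero], Subalgebra.zero_mem _⟩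
  | insert p P hpP ih =>
    obtain ⟨E, h1, h2, h3, h4⟩ := ih fun q hq => hP q (mem_insert_of_mem hq)
    have hp := hP p (mem_insert_self _ _)
    set x : P1 := single p 1 with hx
    have hgeo : Gl K p * (1 - x) = 1 - x ^ (K + 1) := by
      unfold Gl
      rw [mul_comm]
      exact mul_neg_geom_sum x (K + 1)
    refine ⟨E + (-1 : ℝ) • (x ^ (K + 1)) + (-1 : ℝ) • (x ^ (K + 1) * E), ?_, ?_, ?_, ?_⟩
    · have e1 : GI K (insert p P) * ∏ q ∈ insert p P, (1 - single q 1) =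
          (Gl K p * (1 - x)) * (GI K P * ∏ q ∈ P, (1 - single q 1)) := by
        unfold GI
        rw [prod_insert hpP, prod_insert hpP]
        ring
      rw [e1, hgeo, h1, neg_one_smul, neg_one_smul]
      ring
    · have hxs : Hi (2 ^ (K + 1)) (x ^ (K + 1)) := by
        intro n hn
        rw [hx, MonoidAlgebra.single_pow, one_pow, coeff_single] at hn
        have := Finsupp.support_single_subset hn
        rw [mem_singleton] at this
        rw [this]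
        exact ⟨pow_ne_zero _ hp.ne_zero, Nat.pow_le_pow_left hp.two_le _⟩
      have hadd : ∀ {f g : P1}, Hi (2 ^ (K + 1)) f → Hi (2 ^ (K + 1)) g → Hi (2 ^ (K + 1)) (f + g) := by
        intro f g hf hg n hn
        rw [coeff_add] at hn
        have := Finsupp.support_add hn
        rw [mem_union] at this
        exact this.elim (hf n) (hg n)
      have hsm : ∀ {f : P1} (a : ℝ), Hi (2 ^ (K + 1)) f → Hi (2 ^ (K + 1)) (a • f) := by
        intro f a hf n hn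
        rw [coeff_smul] at hn
        exact hf n (Finsupp.support_smul hn)
      have hmul : Hi (2 ^ (K + 1)) (x ^ (K + 1) * E) := by
        intro n hn
        have := support_coeff_mul_subset _ _ hn
        rw [Finset.mem_mul] at this
        obtain ⟨k, hk, m, hm, rfl⟩ := this
        refine ⟨mul_ne_zero (hxs k hk).1 (h2 m hm).1, ?_⟩
        calc 2 ^ (K + 1) ≤ k := (hxs k hk).2
          _ = k * 1 := (mul_one k).symm
          _ ≤ k * m := Nat.mul_le_mul_left k (Nat.pos_of_ne_zero (h2 m hm).1)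
      exact hadd (hadd h2 (hsm _ hxs)) (hsm _ hmul)
    · have hx1 : l1' (x ^ (K + 1)) = 1 := by
        rw [hx, MonoidAlgebra.single_pow, one_pow, l1'_single, abs_one]
      have a1 := l1'_add (E + (-1 : ℝ) • (x ^ (K + 1))) ((-1 : ℝ) • (x ^ (K + 1) * E))
      have a2 := l1'_add E ((-1 : ℝ) • (x ^ (K + 1)))
      have a3 := l1'_smul (-1) (x ^ (K + 1))
      have a4 := l1'_smul (-1) (x ^ (K + 1) * E)
      have a5 := l1'_mul (x ^ (K + 1)) E
      rw [hx1] at a3 a5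
      rw [card_insert_of_notMem hpP, pow_succ (2:ℝ)]
      rw [show |(-1:ℝ)| = 1 by norm_num, one_mul] at a3 a4
      linarith
    · have hxm : x ∈ SA1 (M1 (insert p P)) := single_mem_SA1 (prime_mem_M1 hp (mem_insert_self _ _)) 1
      have hEm := SA1_mono (subset_insert p P) h4
      exact Subalgebra.add_mem _ (Subalgebra.add_mem _ hEm (Subalgebra.smul_mem _ (Subalgebra.pow_mem _ hxm _) _))
        (Subalgebra.smul_mem _ (Subalgebra.mul_mem _ (Subalgebra.pow_mem _ hxm _) hEm) _)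

lemma wδ_le {δ : ℝ} (hδ : 0 ≤ δ) {n M : ℕ} (hM : 1 ≤ M) (hn : M ≤ n) : wδ δ n ≤ 1 / (M:ℝ) := by
  unfold wδ
  have hn1 : (1:ℝ) ≤ n := by exact_mod_cast hM.trans hn
  have h1 : (n:ℝ) ^ (-(2 * δ)) ≤ 1 := Real.rpow_le_one_of_one_le_of_nonpos hn1 (by linarith)
  have h2 : 1 / (n:ℝ) ≤ 1 / (M:ℝ) :=
    one_div_le_one_div_of_le (by exact_mod_cast hM) (by exact_mod_cast hn)
  calc _ ≤ 1 * (1 / (M:ℝ)) := mul_le_mul h1 h2 (by positivity) zero_le_one
    _ = _ := one_mul _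

lemma Hi_ip {δ : ℝ} (hδ : 0 ≤ δ) {M : ℕ} (hM : 1 ≤ M) {f : P1} (hf : Hi M f) : ip δ f f ≤ l1' f ^ 2 / M := by
  rw [ip_eq δ f f (subset_refl _)]
  have h1 : ∀ n ∈ f.coeff.support, f.coeff n * f.coeff n * wδ δ n ≤ (l1' f * |f.coeff n|) * (1 / (M:ℝ)) := by
    intro n hn
    refine mul_le_mul ?_ (wδ_le hδ hM (hf n hn).2) (wδ_nonneg _ _) (by have := l1'_nonneg f; positivity)
    rw [← abs_mul_abs_self]
    refine mul_le_mul_of_nonneg_right ?_ (abs_nonneg _)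
    exact single_le_sum (f := fun n => |f.coeff n|) (fun _ _ => abs_nonneg _) hn
  refine (sum_le_sum h1).trans (le_of_eq ?_)
  rw [← sum_mul, ← mul_sum]
  have : ∑ n ∈ f.coeff.support, |f.coeff n| = l1' f := rfl
  rw [this]; ring

lemma ip_disj (δ : ℝ) {f g : P1} (h : ∀ n ∈ f.coeff.support, n ∉ g.coeff.support) : ip δ f g = 0 := by
  rw [ip_eq δ f g (subset_refl _)]
  refine sum_eq_zero fun n hn => ?_
  rw [Finsupp.notMem_support_iff.mp (h n hn)]; ring

/-- the small primes: norms -/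
theorem small_ip {δ : ℝ} (hδ : 0 ≤ δ) {z K : ℕ} {A : P1} {m : ℝ} (hA : Bd1 m A) (hm : m < 2 ^ (K + 1)) :
    ip δ (GI K (S0 z) * Pz z * A) A = ip δ A A ∧
    ip δ (GI K (S0 z) * Pz z * A) (GI K (S0 z) * Pz z * A) ≤
      ip δ A A + (2 ^ (S0 z).card * l1' A) ^ 2 / 2 ^ (K + 1) := by
  obtain ⟨E, h1, h2, h3, h4⟩ := small_fac K (S0 z) fun p hp => (mem_S0.mp hp).2
  have e1 : GI K (S0 z) * Pz z * A = A + E * A := by
    have : GI K (S0 z) * Pz z = 1 + E := h1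
    rw [this]; ring
  have hHi : Hi (2 ^ (K + 1)) (E * A) := by
    intro n hn
    have := support_coeff_mul_subset _ _ hn
    rw [Finset.mem_mul] at this
    obtain ⟨k, hk, l, hl, rfl⟩ := this
    refine ⟨mul_ne_zero (h2 k hk).1 (hA l hl).1, ?_⟩
    calc 2 ^ (K + 1) ≤ k := (h2 k hk).2
      _ = k * 1 := (mul_one k).symm
      _ ≤ k * l := Nat.mul_le_mul_left k (Nat.pos_of_ne_zero (hA l hl).1)
  have hdj : ip δ (E * A) A = 0 := by
    refine ip_disj δ fun n hn hn2 => ?_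
    have a1 := (hHi n hn).2
    have a2 := (hA n hn2).2
    have a3 : ((2:ℝ) ^ (K + 1)) ≤ n := by exact_mod_cast a1
    linarith
  rw [e1]
  constructor
  · rw [ip_add_left, hdj, add_zero]
  · rw [ip_add_left, ip_add_right, ip_add_right, ip_comm δ A (E * A), hdj]
    have h5 := Hi_ip hδ (Nat.one_le_two_pow) hHi
    have h6 : l1' (E * A) ≤ 2 ^ (S0 z).card * l1' A :=
      (l1'_mul _ _).trans (mul_le_mul_of_nonneg_right (by linarith) (l1'_nonneg _))
    have h7 := pow_le_pow_left₀ (l1'_nonneg _) h6 2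
    have h8 : l1' (E * A) ^ 2 / ((2 ^ (K + 1) : ℕ) : ℝ) ≤ (2 ^ (S0 z).card * l1' A) ^ 2 / 2 ^ (K + 1) := by
      push_cast
      gcongr
    linarith

end Pool.Agent.Y755
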