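import Pool.Agent.Y755.MV1

set_option autoImplicit false

/-! Inner products as integrals over a torus. -/

namespace Pool.Agent.Y755

open Finset Filter MeasureTheory MonoidAlgebra
open Pool.Agent.W184.NZ

/-- the uniform measure on the circle of radius `r` -/
noncomputable def cm (r : ℝ) : Measure ℂ :=
  if h : 0 < r then Classical.choose (single_law h le_rfl zero_lt_one) else Measure.dirac 0

instance cm_prob (r : ℝ) : IsProbabilityMeasure (cm r) := by
  unfold cm
  split_ifs with h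
  · exact (Classical.choose_spec (single_law h le_rfl zero_lt_one)).1
  · infer_instance

lemma cm_norm {r : ℝ} (hr : 0 < r) : ∀ᵐ z ∂(cm r), ‖z‖ = r := by
  unfold cm
  rw [dif_pos hr]
  exact (Classical.choose_spec (single_law hr le_rfl zero_lt_one)).2.1

lemma cm_mom {r : ℝ} (hr : 0 < r) (k l : ℕ) : ∫ z, z ^ k * (starRingEnd ℂ z) ^ l ∂(cm r) =
    if k = l then ((r ^ (2 * k) : ℝ) : ℂ) else 0 := by
  unfold cm
  rw [dif_pos hr, (Classical.choose_spec (single_law hr le_rfl zero_lt_one)).2.2 k l]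
  split_ifs with h
  · subst h
    simp [pow_mul]
  · rw [mul_zero, zero_pow, mul_zero]
    · simp
    · omega

lemma cm_integrable {E : Type*} [NormedAddCommGroup E] {r : ℝ} (hr : 0 < r) {f : ℂ → E} (hf : Continuous f) :
    Integrable f (cm r) := integrable_of_bdd ((cm_norm hr).mono fun _ hz => hz.le) hf

/-- the radius -/
noncomputable def rp (δ : ℝ) (p : ℕ) : ℝ := (p:ℝ) ^ (-(1 / 2 + δ))

lemma rp_pos (δ : ℝ) {p : ℕ} (hp : p.Prime) : 0 < rp δ p := by
  unfold rp
  have : (0:ℝ) < p := by exact_mod_cast hp.pos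
  positivity

/-- the torus measure -/
noncomputable def tm (δ : ℝ) (I : Finset ℕ) : Measure (I → ℂ) := Measure.pi fun p : I => cm (rp δ p)

instance tm_prob (δ : ℝ) (I : Finset ℕ) : IsProbabilityMeasure (tm δ I) := by
  unfold tm; infer_instance

lemma tm_norm {δ : ℝ} {I : Finset ℕ} (hI : ∀ p ∈ I, p.Prime) : ∀ᵐ ω ∂(tm δ I), ∀ p : I, ‖ω p‖ = rp δ p := by
  rw [ae_all_iff]
  intro p
  have h1 := cm_norm (rp_pos δ (hI p p.2))
  exact (Measure.quasiMeasurePreserving_eval (μ := fun p : I => cm (rp δ p)) p).ae h1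

lemma tm_integrable {E : Type*} [NormedAddCommGroup E] {δ : ℝ} {I : Finset ℕ} (hI : ∀ p ∈ I, p.Prime)
    {f : (I → ℂ) → E} (hf : Continuous f) : Integrable f (tm δ I) := by
  have hK : IsCompact (Set.pi Set.univ fun p : I => Metric.closedBall (0:ℂ) (rp δ p)) :=
    isCompact_univ_pi fun p => isCompact_closedBall _ _
  obtain ⟨C, hC⟩ := hK.exists_bound_of_continuousOn hf.continuousOn
  refine Integrable.of_bound hf.aestronglyMeasurable C ?_
  filter_upwards [tm_norm (δ := δ) hI] with ω hω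
  refine hC ω ?_
  rw [Set.mem_univ_pi]
  intro p
  rw [mem_closedBall_zero_iff]
  exact (hω p).le

lemma tm_prod {δ : ℝ} {I : Finset ℕ} (f : I → ℂ → ℂ) :
    ∫ ω, ∏ p : I, f p (ω p) ∂(tm δ I) = ∏ p : I, ∫ z, f p z ∂(cm (rp δ p)) := by
  unfold tm
  exact integral_fintype_prod_eq_prod (𝕜 := ℂ) f

lemma tm_prod_real {δ : ℝ} {I : Finset ℕ} (f : I → ℂ → ℝ) :
    ∫ ω, ∏ p : I, f p (ω p) ∂(tm δ I) = ∏ p : I, ∫ z, f p z ∂(cm (rp δ p)) := by
  unfold tm
  exact integral_fintype_prod_eq_prod (𝕜 := ℝ) f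

/-- value of the monomials at a point of the torus -/
noncomputable def hT (I : Finset ℕ) (ω : I → ℂ) : ℕ →* ℂ where
  toFun n := if n = 0 then 0 else ∏ p : I, ω p ^ (n.factorization p)
  map_one' := by simp
  map_mul' m n := by
    rcases Nat.eq_zero_or_pos m with hm | hm
    · subst hm; simp
    rcases Nat.eq_zero_or_pos n with hn | hn
    · subst hn; simp
    rw [if_neg (mul_ne_zero hm.ne' hn.ne'), if_neg hm.ne', if_neg hn.ne', ← prod_mul_distrib]
    refine prod_congr rfl fun p _ => ?_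
    rw [Nat.factorization_mul hm.ne' hn.ne', Finsupp.add_apply, pow_add]

noncomputable def ph (I : Finset ℕ) (ω : I → ℂ) : P1 →ₐ[ℝ] ℂ := MonoidAlgebra.lift ℝ ℂ ℕ (hT I ω)

lemma ph_single (I : Finset ℕ) (ω : I → ℂ) (n : ℕ) (c : ℝ) : ph I ω (single n c) = c * hT I ω n := by
  unfold ph; rw [MonoidAlgebra.lift_single, Complex.real_smul]

lemma ph_apply (I : Finset ℕ) (ω : I → ℂ) (f : P1) :
    ph I ω f = ∑ n ∈ f.coeff.support, (f.coeff n : ℂ) * hT I ω n := by
  conv_lhs => rw [P1_sum f, map_sum]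
  exact sum_congr rfl fun n _ => ph_single I ω n _

lemma hT_cont (I : Finset ℕ) (n : ℕ) : Continuous fun ω => hT I ω n := by
  have : (fun ω => hT I ω n) = fun ω : I → ℂ => if n = 0 then 0 else ∏ p : I, ω p ^ (n.factorization p) := rfl
  rw [this]
  split_ifs
  · exact continuous_const
  · exact continuous_finsetProd _ fun p _ => (continuous_apply p).pow _

lemma ph_cont (I : Finset ℕ) (f : P1) : Continuous fun ω => ph I ω f := by
  simp_rw [ph_apply]
  exact continuous_finsetSum _ fun n _ => continuous_const.mul (hT_cont I n)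

lemma prod_rp {δ : ℝ} {I : Finset ℕ} {n : ℕ} (hn : n ∈ M1 I) :
    ∏ p : I, (rp δ p) ^ (2 * n.factorization p) = wδ δ n := by
  have hn0 : (0:ℝ) < n := by exact_mod_cast Nat.pos_of_ne_zero hn.1
  have e1 : ∏ p : I, (rp δ p) ^ (2 * n.factorization p) = ∏ p ∈ I, (rp δ p) ^ (2 * n.factorization p) :=
    Finset.prod_coe_sort I (fun p => (rp δ p) ^ (2 * n.factorization p))
  have e2 : (n:ℝ) = ∏ p ∈ I, (p:ℝ) ^ (n.factorization p) := by
    have h1 := Nat.prod_factorization_pow_eq_self hn.1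
    have h2 : n.factorization.prod (· ^ ·) = ∏ p ∈ I, p ^ (n.factorization p) := by
      refine Finsupp.prod_of_support_subset _ ?_ _ (fun p _ => pow_zero p)
      intro p hp
      rw [Nat.support_factorization, Nat.mem_primeFactors] at hp
      exact hn.2 p hp.1 hp.2.1
    rw [h2] at h1
    conv_lhs => rw [← h1]
    push_cast
    rfl
  rw [e1]
  have e3 : ∀ p ∈ I, (rp δ p) ^ (2 * n.factorization p) = ((p:ℝ) ^ (n.factorization p)) ^ (-(1 + 2 * δ)) := by
    intro p _
    unfold rp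
    rw [← Real.rpow_natCast, ← Real.rpow_mul (Nat.cast_nonneg p), ← Real.rpow_natCast, ← Real.rpow_mul (Nat.cast_nonneg p)]
    congr 1
    push_cast
    ring
  rw [prod_congr rfl e3, Real.finsetProd_rpow _ _ (fun p _ => by positivity), ← e2]
  unfold wδ
  rw [one_div, ← Real.rpow_neg_one, ← Real.rpow_add hn0]
  congr 1; ring

lemma hT_int {δ : ℝ} {I : Finset ℕ} (hI : ∀ p ∈ I, p.Prime) {m n : ℕ} (hm : m ∈ M1 I) (hn : n ∈ M1 I) :
    ∫ ω, hT I ω m * starRingEnd ℂ (hT I ω n) ∂(tm δ I) = if m = n then ((wδ δ m : ℝ) : ℂ) else 0 := by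
  have e1 : ∀ ω : I → ℂ, hT I ω m * starRingEnd ℂ (hT I ω n) =
      ∏ p : I, (fun (p : I) (z : ℂ) => z ^ (m.factorization p) * (starRingEnd ℂ z) ^ (n.factorization p)) p (ω p) := by
    intro ω
    have a1 : hT I ω m = ∏ p : I, ω p ^ (m.factorization p) := by
      show (if m = 0 then 0 else _) = _
      rw [if_neg hm.1]
    have a2 : hT I ω n = ∏ p : I, ω p ^ (n.factorization p) := by
      show (if n = 0 then 0 else _) = _
      rw [if_neg hn.1]
    rw [a1, a2, map_prod, ← prod_mul_distrib]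
    simp only [map_pow]
  rw [integral_congr_ae (ae_of_all _ e1)]
  have hpr := tm_prod (δ := δ) (I := I)
    (fun (p : I) (z : ℂ) => z ^ (m.factorization p) * (starRingEnd ℂ z) ^ (n.factorization p))
  rw [hpr]
  have e2 : ∀ p : I, ∫ z, z ^ (m.factorization p) * (starRingEnd ℂ z) ^ (n.factorization p) ∂(cm (rp δ p)) =
      if m.factorization p = n.factorization p then ((rp δ p ^ (2 * m.factorization p) : ℝ) : ℂ) else 0 :=
    fun p => cm_mom (rp_pos δ (hI p p.2)) _ _
  simp_rw [e2]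
  split_ifs with h
  · subst h
    simp only [if_true]
    rw [← prod_rp hm, Complex.ofReal_prod]
  · have h1 : ∃ p : I, m.factorization p ≠ n.factorization p := by
      by_contra hc
      push Not at hc
      refine h (Nat.eq_of_factorization_eq hm.1 hn.1 fun p => ?_)
      by_cases hp : p ∈ I
      · exact hc ⟨p, hp⟩
      · have a1 : m.factorization p = 0 := by
          by_cases hpp : p.Prime
          · exact Nat.factorization_eq_zero_of_not_dvd fun hd => hp (hm.2 p hpp hd)
          · exact Nat.factorization_eq_zero_of_not_prime _ hpp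
        have a2 : n.factorization p = 0 := by
          by_cases hpp : p.Prime
          · exact Nat.factorization_eq_zero_of_not_dvd fun hd => hp (hn.2 p hpp hd)
          · exact Nat.factorization_eq_zero_of_not_prime _ hpp
        rw [a1, a2]
    obtain ⟨p, hp⟩ := h1
    exact prod_eq_zero (mem_univ p) (if_neg hp)

/-- the representation of the inner product -/
theorem ip_torus {δ : ℝ} {I : Finset ℕ} (hI : ∀ p ∈ I, p.Prime) {f g : P1} (hf : f ∈ SA1 (M1 I))
    (hg : g ∈ SA1 (M1 I)) :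
    ((ip δ f g : ℝ) : ℂ) = ∫ ω, ph I ω f * starRingEnd ℂ (ph I ω g) ∂(tm δ I) := by
  have hc : ∀ m n : ℕ, Continuous fun ω => hT I ω m * starRingEnd ℂ (hT I ω n) := fun m n =>
    (hT_cont I m).mul (Complex.continuous_conj.comp (hT_cont I n))
  have e1 : ∀ ω, ph I ω f * starRingEnd ℂ (ph I ω g) = ∑ m ∈ f.coeff.support, ∑ n ∈ g.coeff.support,
      ((f.coeff m : ℂ) * (g.coeff n : ℂ)) * (hT I ω m * starRingEnd ℂ (hT I ω n)) := by
    intro ω
    rw [ph_apply, ph_apply, map_sum, sum_mul_sum]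
    refine sum_congr rfl fun m _ => sum_congr rfl fun n _ => ?_
    rw [map_mul, Complex.conj_ofReal]; ring
  have hc2 : ∀ m n : ℕ, Continuous fun ω => ((f.coeff m : ℂ) * (g.coeff n : ℂ)) *
      (hT I ω m * starRingEnd ℂ (hT I ω n)) := fun m n => continuous_const.mul (hc m n)
  have hc3 : ∀ m : ℕ, Continuous fun ω => ∑ n ∈ g.coeff.support, ((f.coeff m : ℂ) * (g.coeff n : ℂ)) *
      (hT I ω m * starRingEnd ℂ (hT I ω n)) := fun m => continuous_finsetSum _ fun n _ => hc2 m n
  simp_rw [e1]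
  rw [integral_finsetSum _ fun m _ => tm_integrable hI (hc3 m)]
  have e2 : ∀ m ∈ f.coeff.support, ∫ ω, ∑ n ∈ g.coeff.support, ((f.coeff m : ℂ) * (g.coeff n : ℂ)) *
      (hT I ω m * starRingEnd ℂ (hT I ω n)) ∂(tm δ I) =
      ∑ n ∈ g.coeff.support, (if m = n then ((f.coeff m * g.coeff n * wδ δ m : ℝ) : ℂ) else 0) := by
    intro m hm
    rw [integral_finsetSum _ fun n _ => tm_integrable hI (hc2 m n)]
    refine sum_congr rfl fun n hn => ?_
    rw [integral_const_mul, hT_int hI (hf m hm) (hg n hn)]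
    split_ifs
    · push_cast; ring
    · rw [mul_zero]
  rw [sum_congr rfl e2]
  have e3 : ip δ f g = ∑ m ∈ f.coeff.support, ∑ n ∈ g.coeff.support,
      (if m = n then f.coeff m * g.coeff n * wδ δ m else 0) := by
    conv_lhs => rw [P1_sum f, P1_sum g]
    rw [ip_sum_left]
    refine sum_congr rfl fun m _ => ?_
    rw [ip_sum_right]
    refine sum_congr rfl fun n _ => ?_
    rw [ip_single]
    rfl
  rw [e3]
  push_cast
  refine sum_congr rfl fun m _ => sum_congr rfl fun n _ => ?_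
  split_ifs <;> simp

lemma ip_torus_self {δ : ℝ} {I : Finset ℕ} (hI : ∀ p ∈ I, p.Prime) {f : P1} (hf : f ∈ SA1 (M1 I)) :
    ip δ f f = ∫ ω, ‖ph I ω f‖ ^ 2 ∂(tm δ I) := by
  have h1 := ip_torus (δ := δ) hI hf hf
  have e1 : ∀ ω, ph I ω f * starRingEnd ℂ (ph I ω f) = ((‖ph I ω f‖ ^ 2 : ℝ) : ℂ) := by
    intro ω
    rw [Complex.mul_conj, Complex.normSq_eq_norm_sq]
  simp_rw [e1] at h1
  rw [integral_complex_ofReal] at h1
  exact Complex.ofReal_injective h1

end Pool.Agent.Y755
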