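import Pool.Agent.Y755.Blk2
import Pool.Agent.W184.Coef

set_option autoImplicit false

/-! The truncated product with zeta. -/

namespace Pool.Agent.Y755

open Finset Filter MeasureTheory MonoidAlgebra
open Pool.Agent.W184.NZ

/-- the product of the truncated geometric series is a sum over a set of integers -/
theorem GI_set (K : ℕ) (P : Finset ℕ) (hP : ∀ p ∈ P, p.Prime) : ∃ S : Finset ℕ,
    GI K P = ∑ k ∈ S, single k 1 ∧ (∀ k ∈ S, k ∈ M1 P) ∧ ∀ n ∈ M1 P, n < 2 ^ (K + 1) → n ∈ S := by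
  classical
  induction P using Finset.induction_on with
  | empty =>
    refine ⟨{1}, ?_, ?_, ?_⟩
    · simp [GI, MonoidAlgebra.one_def]
    · intro k hk
      rw [mem_singleton] at hk
      rw [hk]; exact (M1 ∅).one_mem
    · intro n hn _
      rw [mem_singleton]
      by_contra h
      obtain ⟨p, hp, hd⟩ := Nat.exists_prime_and_dvd h
      exact absurd (hn.2 p hp hd) (notMem_empty _)
  | insert p P hpP ih =>
    obtain ⟨S, h1, h2, h3⟩ := ih fun q hq => hP q (mem_insert_of_mem hq)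
    have hp := hP p (mem_insert_self _ _)
    have hnd : ∀ k ∈ S, ¬ p ∣ k := fun k hk hd => hpP ((h2 k hk).2 p hp hd)
    have hk0 : ∀ k ∈ S, k ≠ 0 := fun k hk => (h2 k hk).1
    have hfac : ∀ (e k : ℕ), k ∈ S → (p ^ e * k).factorization p = e := by
      intro e k hk
      rw [Nat.factorization_mul (pow_ne_zero _ hp.ne_zero) (hk0 k hk), Finsupp.add_apply,
        Nat.Prime.factorization_pow hp, Finsupp.single_eq_same,
        Nat.factorization_eq_zero_of_not_dvd (hnd k hk), add_zero]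
    have hinj : Set.InjOn (fun x : ℕ × ℕ => p ^ x.1 * x.2) ((range (K + 1) ×ˢ S : Finset (ℕ × ℕ)) : Set (ℕ × ℕ)) := by
      intro x hx y hy hxy
      simp only [coe_product, Set.mem_prod, mem_coe] at hx hy
      simp only at hxy
      have h4 : x.1 = y.1 := by
        rw [← hfac x.1 x.2 hx.2, ← hfac y.1 y.2 hy.2, hxy]
      rw [h4] at hxy
      have h5 : x.2 = y.2 := Nat.eq_of_mul_eq_mul_left (pow_pos hp.pos _) hxy
      exact Prod.ext h4 h5
    refine ⟨(range (K + 1) ×ˢ S).image (fun x => p ^ x.1 * x.2), ?_, ?_, ?_⟩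
    · rw [sum_image hinj, sum_product]
      unfold GI at h1 ⊢
      rw [prod_insert hpP, h1]
      unfold Gl
      rw [sum_mul_sum]
      refine sum_congr rfl fun e _ => sum_congr rfl fun k _ => ?_
      rw [MonoidAlgebra.single_pow, single_mul_single, one_pow, one_mul]
    · intro k hk
      rw [mem_image] at hk
      obtain ⟨x, hx, rfl⟩ := hk
      rw [mem_product] at hx
      exact (M1 _).mul_mem ((M1 _).pow_mem (prime_mem_M1 hp (mem_insert_self _ _)) _)
        (M1_mono (subset_insert _ _) (h2 _ hx.2))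
    · intro n hn hlt
      rw [mem_image]
      set e := n.factorization p with he
      refine ⟨(e, n / p ^ e), ?_, Nat.ordProj_mul_ordCompl_eq_self n p⟩
      have hpos : 0 < n := Nat.pos_of_ne_zero hn.1
      have hle : p ^ e ≤ n := Nat.ordProj_le p hn.1
      rw [mem_product, mem_range]
      constructor
      · by_contra hc
        push Not at hc
        have : 2 ^ (K + 1) ≤ p ^ e := (Nat.pow_le_pow_right (by norm_num) hc).trans (Nat.pow_le_pow_left hp.two_le e)
        simp only at hc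
        omega
      · refine h3 _ ⟨?_, fun q hq hd => ?_⟩ ?_
        · exact (Nat.div_pos hle (pow_pos hp.pos _)).ne'
        · have hqn : q ∣ n := hd.trans (Nat.ordCompl_dvd n p)
          have h4 := hn.2 q hq hqn
          rw [mem_insert] at h4
          rcases h4 with h4 | h4
          · exfalso
            rw [h4] at hd
            exact Nat.not_dvd_ordCompl hp hn.1 hd
          · exact h4
        · exact (Nat.div_le_self _ _).trans_lt hlt

/-- truncation -/
noncomputable def trn (N : ℕ) (f : P1) : P1 := ∑ n ∈ f.coeff.support, if n ≤ N then single n (f.coeff n) else 0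

lemma trn_eq (N : ℕ) (f : P1) {s : Finset ℕ} (hs : f.coeff.support ⊆ s) :
    trn N f = ∑ n ∈ s, if n ≤ N then single n (f.coeff n) else 0 := by
  refine sum_subset hs fun n _ hn => ?_
  rw [Finsupp.notMem_support_iff.mp hn, single_zero, ite_self]

lemma trn_coeff (N : ℕ) (f : P1) (n : ℕ) : (trn N f).coeff n = if n ≤ N then f.coeff n else 0 := by
  classical
  unfold trn
  rw [coeff_sum, Finsupp.finsetSum_apply]
  have e1 : ∀ m ∈ f.coeff.support, (if m ≤ N then single m (f.coeff m) else 0 : P1).coeff n =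
      if n = m then (if n ≤ N then f.coeff n else 0) else 0 := by
    intro m _
    by_cases h : m ≤ N
    · rw [if_pos h, coeff_single, Finsupp.single_apply]
      by_cases h2 : m = n
      · subst h2; rw [if_pos rfl, if_pos rfl, if_pos h]
      · rw [if_neg h2, if_neg (Ne.symm h2)]
    · rw [if_neg h]
      by_cases h2 : n = m
      · subst h2; rw [if_pos rfl, if_neg h]; simp
      · rw [if_neg h2]; simp
  rw [sum_congr rfl e1, sum_ite_eq]
  by_cases h : n ∈ f.coeff.support
  · rw [if_pos h]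
  · rw [if_neg h, Finsupp.notMem_support_iff.mp h, ite_self]

lemma trn_supp (N : ℕ) (f : P1) : (trn N f).coeff.support ⊆ f.coeff.support := by
  intro n hn
  rw [Finsupp.mem_support_iff, trn_coeff] at hn
  rw [Finsupp.mem_support_iff]
  intro h
  rw [h, ite_self] at hn
  exact hn rfl

lemma P1_ext {f g : P1} (h : ∀ n, f.coeff n = g.coeff n) : f = g := by
  apply MonoidAlgebra.ext
  ext n; exact h n

lemma trn_add (N : ℕ) (f g : P1) : trn N (f + g) = trn N f + trn N g := by
  refine P1_ext fun n => ?_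
  rw [coeff_add, Finsupp.add_apply, trn_coeff, trn_coeff, trn_coeff, coeff_add, Finsupp.add_apply]
  split_ifs <;> simp

lemma trn_Bd {N : ℕ} {M : ℝ} {f : P1} (hf : Bd1 M f) : Bd1 N (trn N f) := by
  intro n hn
  have h1 := hn
  rw [Finsupp.mem_support_iff, trn_coeff] at h1
  have h2 : n ≤ N := by
    by_contra h
    rw [if_neg h] at h1
    exact h1 rfl
  exact ⟨(hf n (trn_supp N f hn)).1, by exact_mod_cast h2⟩

lemma trn_ip_le (δ : ℝ) (N : ℕ) (f : P1) : ip δ (trn N f) (trn N f) ≤ ip δ f f := by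
  rw [ip_eq δ (trn N f) (trn N f) (trn_supp N f), ip_eq δ f f (subset_refl _)]
  refine sum_le_sum fun n _ => ?_
  refine mul_le_mul_of_nonneg_right ?_ (wδ_nonneg _ _)
  rw [trn_coeff]
  split_ifs
  · exact le_rfl
  · rw [mul_zero]; exact mul_self_nonneg _

lemma trn_self {N : ℕ} {f : P1} (h : Bd1 N f) : trn N f = f := by
  refine P1_ext fun n => ?_
  rw [trn_coeff]
  split_ifs with h1
  · rfl
  · symm
    rw [← Finsupp.notMem_support_iff]
    intro h2
    exact h1 (by exact_mod_cast (h n h2).2)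

lemma trn_sub (N : ℕ) (f g : P1) : trn N (f - g) = trn N f - trn N g := by
  refine P1_ext fun n => ?_
  rw [coeff_sub, Finsupp.sub_apply, trn_coeff, trn_coeff, trn_coeff, coeff_sub, Finsupp.sub_apply]
  split_ifs <;> simp

/-- the truncated zeta series -/
noncomputable def zN (N : ℕ) : P1 := ∑ k ∈ Icc 1 N, single k 1

/-- the truncated product -/
noncomputable def Dt (N : ℕ) (A : P1) : P1 := trn N (zN N * A)

lemma trn_zero_of {N : ℕ} {f : P1} (h : ∀ n ∈ f.coeff.support, N < n) : trn N f = 0 := by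
  refine P1_ext fun n => ?_
  rw [trn_coeff]
  split_ifs with h1
  · have h2 : n ∉ f.coeff.support := fun h3 => absurd (h n h3) (by omega)
    rw [Finsupp.notMem_support_iff.mp h2]; simp
  · simp

/-- primes up to `N` -/
def Pn (N : ℕ) : Finset ℕ := (range (N + 1)).filter Nat.Prime

lemma Pn_prime {N p : ℕ} (h : p ∈ Pn N) : p.Prime := (mem_filter.mp h).2

lemma Dt_eq {K N : ℕ} (hK : N < 2 ^ (K + 1)) {A : P1} {M : ℝ} (hA : Bd1 M A) :
    Dt N A = trn N (GI K (Pn N) * A) := by
  classical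
  obtain ⟨S, h1, h2, h3⟩ := GI_set K (Pn N) fun p hp => Pn_prime hp
  have hsub : Icc 1 N ⊆ S := by
    intro n hn
    rw [mem_Icc] at hn
    refine h3 n ⟨by omega, fun p hp hd => ?_⟩ (by omega)
    unfold Pn
    rw [mem_filter, mem_range]
    exact ⟨by have := Nat.le_of_dvd (by omega) hd; omega, hp⟩
  have e1 : GI K (Pn N) = zN N + ∑ k ∈ S \ Icc 1 N, single k 1 := by
    rw [h1]
    unfold zN
    rw [← sum_sdiff hsub, add_comm]
  rw [e1, add_mul, trn_add]
  unfold Dt
  have h4 : trn N ((∑ k ∈ S \ Icc 1 N, (single k 1 : P1)) * A) = 0 := by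
    refine trn_zero_of fun n hn => ?_
    have h5 := support_coeff_mul_subset _ _ hn
    rw [Finset.mem_mul] at h5
    obtain ⟨k, hk, m, hm, rfl⟩ := h5
    have h6 : k ∈ S \ Icc 1 N := by
      have : (∑ k ∈ S \ Icc 1 N, (single k 1 : P1)) ∈ SA1 (M1 (Pn N)) :=
        Subalgebra.sum_mem _ fun k hk => single_mem_SA1 (h2 k (Finset.mem_sdiff.mp hk).1) _
      by_contra hc
      rw [Finsupp.mem_support_iff, coeff_sum, Finsupp.finsetSum_apply] at hk
      refine hk (sum_eq_zero fun j hj => ?_)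
      rw [coeff_single, Finsupp.single_apply, if_neg]
      rintro rfl
      exact hc hj
    have h7 := (hA m hm).1
    have h8 : N < k := by
      rw [Finset.mem_sdiff, mem_Icc] at h6
      have := (h2 k h6.1).1
      have := h6.2
      omega
    calc N < k := h8
      _ = k * 1 := (mul_one k).symm
      _ ≤ k * m := Nat.mul_le_mul_left k (Nat.pos_of_ne_zero h7)
  rw [h4, add_zero]

lemma zN_Bd {N : ℕ} : Bd1 N (zN N) := by
  refine Bd1.sum fun k hk => Bd1.single ?_ 1
  rw [mem_Icc] at hk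
  exact ⟨by omega, by exact_mod_cast hk.2⟩

lemma zN_l1 (N : ℕ) : l1' (zN N) ≤ N := by
  refine (l1'_sum _ _).trans (le_of_eq ?_)
  simp [l1'_single]

lemma trn_l1 (N : ℕ) (f : P1) : l1' (trn N f) ≤ l1' f := by
  rw [l1'_eq (trn_supp N f), l1']
  refine sum_le_sum fun n _ => ?_
  rw [trn_coeff]
  split_ifs
  · exact le_rfl
  · rw [abs_zero]; exact abs_nonneg _

lemma Dt_Bd {N : ℕ} {M : ℝ} {A : P1} (hA : Bd1 M A) : Bd1 N (Dt N A) := trn_Bd (zN_Bd.mul hA)

lemma Dt_l1 (N : ℕ) (A : P1) : l1' (Dt N A) ≤ N * l1' A :=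
  (trn_l1 _ _).trans ((l1'_mul _ _).trans (mul_le_mul_of_nonneg_right (zN_l1 N) (l1'_nonneg _)))

/-- far to the right -/
lemma zN_far {N : ℕ} (hN : 1 ≤ N) {z : ℂ} (hz : 2 ≤ z.re) :
    ‖riemannZeta z - es z (zN N)‖ * (N:ℝ) ^ z.re ≤ (N:ℝ) ^ 2 * ∑' n : ℕ, 1 / (n : ℝ) ^ 2 := by
  have h1 := Pool.Agent.W184.zeta_sub_pow_le (v := 1) le_rfl hN hz
  have e1 : Pool.Agent.W184.DS (Pool.Agent.H306R2.dv (1 / ((1:ℕ):ℝ))) N z ^ 1 = es z (zN N) := by
    rw [pow_one]
    unfold Pool.Agent.W184.DS zN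
    rw [map_sum]
    refine sum_congr rfl fun n hn => ?_
    rw [mem_Icc] at hn
    rw [es_single]
    congr 2
    have h2 := Pool.Agent.W184.dA_pow_one (v := 1) le_rfl hn.1
    rw [pow_one, Pool.Agent.H306R2.dA_apply] at h2
    exact h2
  rwa [e1] at h1

lemma es_far {N : ℕ} {M : ℝ} (hN : 1 ≤ N) {f : P1} (hf : Bd1 M f) {z : ℂ} (hz : 0 ≤ z.re) :
    ‖es z f - es z (trn N f)‖ * (N:ℝ) ^ z.re ≤ l1' f := by
  have hN0 : (0:ℝ) < N := by exact_mod_cast hN
  rw [← map_sub]
  have hsup : (f - trn N f).coeff.support ⊆ f.coeff.support := by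
    intro n hn
    rw [Finsupp.mem_support_iff, coeff_sub, Finsupp.sub_apply, trn_coeff] at hn
    rw [Finsupp.mem_support_iff]
    intro h
    rw [h, ite_self, sub_zero] at hn
    exact hn rfl
  have e1 : es z (f - trn N f) = ∑ n ∈ f.coeff.support, ((f - trn N f).coeff n : ℂ) * (n:ℂ) ^ (-z) := by
    rw [es_apply]
    refine sum_subset hsup fun n _ hn => ?_
    rw [Finsupp.notMem_support_iff.mp hn]; simp
  rw [e1]
  have h1 : ‖∑ n ∈ f.coeff.support, ((f - trn N f).coeff n : ℂ) * (n:ℂ) ^ (-z)‖ ≤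
      ∑ n ∈ f.coeff.support, |f.coeff n| * (N:ℝ) ^ (-z.re) := by
    refine (norm_sum_le _ _).trans (sum_le_sum fun n hn => ?_)
    rw [norm_mul, Complex.norm_real, Real.norm_eq_abs, coeff_sub, Finsupp.sub_apply, trn_coeff,
      Complex.norm_natCast_cpow_of_pos (Nat.pos_of_ne_zero (hf n hn).1)]
    split_ifs with h
    · rw [sub_self, abs_zero, zero_mul]; positivity
    · rw [sub_zero]
      refine mul_le_mul_of_nonneg_left ?_ (abs_nonneg _)
      push Not at h
      have h2 : (N:ℝ) ≤ n := by exact_mod_cast h.le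
      rw [Complex.neg_re]
      exact Real.rpow_le_rpow_of_nonpos hN0 h2 (by linarith)
  rw [← sum_mul] at h1
  calc _ ≤ ((∑ n ∈ f.coeff.support, |f.coeff n|) * (N:ℝ) ^ (-z.re)) * (N:ℝ) ^ z.re :=
        mul_le_mul_of_nonneg_right h1 (by positivity)
    _ = l1' f := by
        rw [mul_assoc, ← Real.rpow_add hN0]
        simp [l1']

/-- the difference, far to the right -/
theorem Dt_far {N : ℕ} {M : ℝ} (hN : 1 ≤ N) {A : P1} (hA : Bd1 M A) : ∃ C : ℝ, ∀ z : ℂ, 2 ≤ z.re →
    ‖riemannZeta z * es z A - es z (Dt N A)‖ * (N:ℝ) ^ z.re ≤ C := by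
  refine ⟨((N:ℝ) ^ 2 * ∑' n : ℕ, 1 / (n : ℝ) ^ 2) * l1' A + l1' (zN N * A), fun z hz => ?_⟩
  have h1 := zN_far hN hz
  have h2 := es_far hN (Bd1.mul (zN_Bd (N := N)) hA) (z := z) (by linarith)
  have h3 := es_norm_le (s := z) (by linarith) hA
  have e1 : riemannZeta z * es z A - es z (Dt N A) = (riemannZeta z - es z (zN N)) * es z A +
      (es z (zN N * A) - es z (trn N (zN N * A))) := by
    unfold Dt
    rw [map_mul]; ring
  rw [e1]
  have hp : 0 ≤ (N:ℝ) ^ z.re := by positivity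
  calc _ ≤ (‖riemannZeta z - es z (zN N)‖ * ‖es z A‖ + ‖es z (zN N * A) - es z (trn N (zN N * A))‖) *
        (N:ℝ) ^ z.re := by
        refine mul_le_mul_of_nonneg_right ?_ hp
        refine (norm_add_le _ _).trans ?_
        rw [norm_mul]
    _ = (‖riemannZeta z - es z (zN N)‖ * (N:ℝ) ^ z.re) * ‖es z A‖ +
        ‖es z (zN N * A) - es z (trn N (zN N * A))‖ * (N:ℝ) ^ z.re := by ring
    _ ≤ _ := by
        refine add_le_add (mul_le_mul h1 h3 (norm_nonneg _) ?_) h2
        exact (mul_nonneg (norm_nonneg _) hp).trans h1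

end Pool.Agent.Y755
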