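import Pool.Agent.Y755.Wi1
import Pool.Agent.Y755.Pw

set_option autoImplicit false

/-! The pointwise inequalities, in terms of the polynomials. -/

namespace Pool.Agent.Y755

open Finset Filter MeasureTheory
open Pool.Agent.W184.NZ
open Pool.Agent.W184 (zn zn_nonneg zn_cont zn_le')

lemma s_eq (δ t : ℝ) : (((1 / 2 + δ : ℝ) : ℂ) + t * Complex.I) = 1 / 2 + (δ:ℂ) + t * Complex.I := by push_cast; ring

section

variable {y δ α ε τ : ℝ} {z J Rs N : ℕ} {A0 : P1}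

/-- upper bound -/
theorem up_pw2 (hRs : 1 ≤ Rs) (hα : 0 < α) (hα1 : α ≤ 1) (t : ℝ) (hτ : 0 < τ)
    (hPA : 1 - ε ≤ ‖es (1 / 2 + δ + t * Complex.I) (Pz z)‖ ^ (2 * α) * ‖es (1 / 2 + δ + t * Complex.I) A0‖ ^ 2)
    (hε : ε ≤ 1) (h4 : 4 * Real.exp (-(2 * (Rs:ℝ))) ≤ 1) :
    (1 - ε) * (1 - 4 * Real.exp (-(2 * (Rs:ℝ)))) * zn (1 / 2 + δ) t ^ (2 * α) ≤
      α * (∑ S ∈ (range J).powerset, ((1 + τ) * ‖es (1 / 2 + δ + t * Complex.I) (DS N (α - 1) z y J Rs A0 S)‖ ^ 2 +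
        (1 + 1 / τ) * qd (fun s => es s (Pz z * A0 * Bz (α - 1) z y J Rs S))
          (fun s => es s (DS N (α - 1) z y J Rs A0 S)) (1 / 2 + δ) t)) +
      (1 - α) * ∑ S ∈ (range J).powerset, ‖es (1 / 2 + δ + t * Complex.I) (A0 * Bz α z y J Rs S)‖ ^ 2 := by
  have h1 := up_pw (δ := δ) (J := J) hRs hα hα1 (IZ z y) t (Z := zn (1 / 2 + δ) t)
    (P := ‖es (1 / 2 + δ + t * Complex.I) (Pz z)‖) (A := ‖es (1 / 2 + δ + t * Complex.I) A0‖)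
    (zn_nonneg _ _) (norm_nonneg _) (norm_nonneg _) hPA hε h4
  refine h1.trans (add_le_add (mul_le_mul_of_nonneg_left ?_ hα.le) (mul_le_mul_of_nonneg_left ?_ (by linarith)))
  · rw [← sum_Bz, mul_sum]
    refine sum_le_sum fun S _ => ?_
    have h2 := sq_add_le (x := riemannZeta (1 / 2 + δ + t * Complex.I) * es (1 / 2 + δ + t * Complex.I)
      (Pz z * A0 * Bz (α - 1) z y J Rs S)) (y := es (1 / 2 + δ + t * Complex.I) (DS N (α - 1) z y J Rs A0 S)) hτ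
    unfold qd
    rw [s_eq]
    refine le_trans (le_of_eq ?_) h2
    unfold zn
    rw [s_eq, map_mul, map_mul, norm_mul, norm_mul, norm_mul]
    ring
  · rw [← sum_Bz, mul_sum]
    refine sum_le_sum fun S _ => le_of_eq ?_
    rw [map_mul, norm_mul, mul_pow]

lemma es_Bz_empty (s : ℂ) (a : ℝ) (z : ℕ) (y : ℝ) (J Rs : ℕ) :
    ‖es s (Bz a z y J Rs ∅)‖ = ∏ i ∈ range J, ‖NK (20 * RR Rs i) a (PI (IZ z y i) s)‖ := by
  rw [Bz_empty, map_prod, norm_prod]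
  refine prod_congr rfl fun i _ => ?_
  rw [NK_map, es_x1]

/-- lower bound -/
theorem low_pw2 (hRs : 1 ≤ Rs) (hα : 0 < α) (hα2 : α ≤ 2) (t : ℝ) (hτ : 0 < τ)
    (hA0 : 0 < ‖es (1 / 2 + δ + t * Complex.I) A0‖)
    (hPA : ‖es (1 / 2 + δ + t * Complex.I) (Pz z)‖ ^ (2 * α) * ‖es (1 / 2 + δ + t * Complex.I) A0‖ ^ 2 ≤ 1 + ε) :
    (1 - 2 * τ) * ‖es (1 / 2 + δ + t * Complex.I) (A0 * Bz α z y J Rs ∅)‖ ^ 2 -
      4 * (1 + 1 / τ) * (qd (fun s => es s (Pz z * A0 * Bz (α - 1) z y J Rs ∅))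
          (fun s => es s (DS N (α - 1) z y J Rs A0 ∅)) (1 / 2 + δ) t +
        ‖es (1 / 2 + δ + t * Complex.I) (DS N (α - 1) z y J Rs A0 ∅ - A0 * Bz α z y J Rs ∅)‖ ^ 2) -
      ∑ j ∈ range J, ‖es (1 / 2 + δ + t * Complex.I) (A0 * Bz α z y J Rs ∅ * Qe (RR Rs j) (IZ z y j))‖ ^ 2 ≤
    (1 + ε) * Real.exp (14 * Real.exp (-(2 * (Rs:ℝ)))) * zn (1 / 2 + δ) t ^ (2 * α) := by
  set s : ℂ := 1 / 2 + (δ:ℂ) + t * Complex.I with hs
  have h1 := low_pw (J := J) (Rs := Rs) hRs hα hα2 (fun i => PI (IZ z y i) s) (Z := zn (1 / 2 + δ) t)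
    (P := ‖es s (Pz z)‖) (A := ‖es s A0‖) (zn_nonneg _ _) (norm_nonneg _) hA0 hPA
  simp only at h1
  rw [← es_Bz_empty, ← es_Bz_empty] at h1
  refine le_trans ?_ h1
  set x := riemannZeta s * es s (Pz z * A0 * Bz (α - 1) z y J Rs ∅) with hx
  set w := es s (A0 * Bz α z y J Rs ∅) with hw
  set d := es s (DS N (α - 1) z y J Rs A0 ∅) with hd
  have e1 : ‖es s A0‖ * ‖es s (Bz α z y J Rs ∅)‖ = ‖w‖ := by rw [hw, map_mul, norm_mul]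
  have e2 : zn (1 / 2 + δ) t * (‖es s (Pz z)‖ * ‖es s A0‖) * ‖es s (Bz (α - 1) z y J Rs ∅)‖ = ‖x‖ := by
    unfold zn
    rw [hx, s_eq, ← hs, map_mul, map_mul, norm_mul, norm_mul, norm_mul]
    ring
  have e3 : ∀ j ∈ range J, ‖w‖ ^ 2 * (‖PI (IZ z y j) s‖ / (RR Rs j : ℝ)) ^ (2 * RR Rs j) =
      ‖es s (A0 * Bz α z y J Rs ∅ * Qe (RR Rs j) (IZ z y j))‖ ^ 2 := by
    intro j _
    rw [← es_Qe_sq, map_mul (es s) (A0 * Bz α z y J Rs ∅), norm_mul, mul_pow, ← hw]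
  rw [e1, e2, sum_congr rfl e3]
  have e4 : qd (fun s => es s (Pz z * A0 * Bz (α - 1) z y J Rs ∅))
      (fun s => es s (DS N (α - 1) z y J Rs A0 ∅)) (1 / 2 + δ) t = ‖x - d‖ ^ 2 := by
    unfold qd; rw [s_eq]
  have e5 : es s (DS N (α - 1) z y J Rs A0 ∅ - A0 * Bz α z y J Rs ∅) = d - w := by rw [map_sub]
  rw [e4, e5]
  have h2 := sq_diff_le (x := x) (y := w) hτ
  have h3 : ‖x - w‖ ^ 2 ≤ 2 * ‖x - d‖ ^ 2 + 2 * ‖d - w‖ ^ 2 := by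
    have h4 : ‖x - w‖ ≤ ‖x - d‖ + ‖d - w‖ := norm_sub_le_norm_sub_add_norm_sub x d w
    have h5 := pow_le_pow_left₀ (norm_nonneg _) h4 2
    nlinarith [sq_nonneg (‖x - d‖ - ‖d - w‖)]
  have h6 : 0 ≤ 1 + 1 / τ := by positivity
  have h7 := mul_le_mul_of_nonneg_left h3 h6
  linarith

end

end Pool.Agent.Y755
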