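import Pool.Agent.Y755.Pw4
import Pool.Agent.Y755.Hq5
import Pool.Agent.Y755.Wi5

set_option autoImplicit false

/-! The upper bound over a window for the moments of order between two and four. -/

namespace Pool.Agent.Y755

open Finset Filter MeasureTheory
open Pool.Agent.W184.NZ
open Pool.Agent.W184 (zn zn_nonneg zn_cont zn_le')

section

variable {c y δ α a ε τ W X1 X2 Q : ℝ} {z J Rs N K : ℕ} {A0 : P1} {m : ℝ}

/-- the truncated polynomials -/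
lemma I1q (h : Sy c z y J Rs N K) (hA : Bd1 m A0) (ha : |a| ≤ 2) (hδ : 0 ≤ δ) (hX1 : 0 ≤ X1)
    (hW : Real.exp (Real.log y * (180 * ((Rs:ℝ) + 1))) ≤ W) :
    ∑ S ∈ (range J).powerset, ∫ t in X1..X2, ‖es (1 / 2 + δ + t * Complex.I) (DS2 N a z y J Rs A0 S)‖ ^ 2 ≤
      X2 * (∑ S ∈ (range J).powerset, ip δ (DS2 N a z y J Rs A0 S) (DS2 N a z y J Rs A0 S)) +
      4 * (N:ℝ) ^ 5 * (l1' (Pz z ^ 2 * A0) ^ 2 * W) := by
  refine (sum_le_sum fun S _ => mvt_up hδ hX1 (DS2_Bd (a := a) h hA S)).trans ?_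
  rw [sum_add_distrib, ← mul_sum, ← mul_sum]
  have h2 := DS2_l1 (A0 := A0) h ha
  have h3 : (N:ℝ) ^ 4 * (l1' (Pz z ^ 2 * A0) ^ 2 * Real.exp (Real.log y * (180 * ((Rs:ℝ) + 1)))) ≤
      (N:ℝ) ^ 4 * (l1' (Pz z ^ 2 * A0) ^ 2 * W) := by gcongr
  have h4 := mul_le_mul_of_nonneg_left (h2.trans h3) (by positivity : (0:ℝ) ≤ 4 * N)
  linarith

lemma qd2S_cont (h : Sy c z y J Rs N K) (hA : Bd1 m A0) (hδ1 : δ ≤ 1 / 16) (a : ℝ) (S : Finset ℕ) :
    Continuous fun t => qd2 (fun s => es s (Pz z ^ 2 * A0 * Bz a z y J Rs S))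
          (fun s => es s (DS2 N a z y J Rs A0 S)) (1 / 2 + δ) t :=
  qd2_cont (es_diff (PB2_Bd h hA S)) (es_diff (DS2_Bd h hA S)) (by linarith)

/-- the upper bound over a window -/
theorem win_up4 (h : Sy c z y J Rs N K) (hA : Bd1 m A0) (hAm : A0 ∈ SA1 (M1 (S0 z))) (hm0 : 0 ≤ m)
    (hmK : m < 2 ^ (K + 1)) (hδ : 0 ≤ δ) (hδ1 : δ ≤ 1 / 16) (hα : 1 ≤ α) (hα2 : α ≤ 2) (hτ : 0 < τ)
    (hPA : ∀ t : ℝ, 1 - ε ≤ ‖es (1 / 2 + δ + t * Complex.I) (Pz z)‖ ^ (2 * α) * ‖es (1 / 2 + δ + t * Complex.I) A0‖ ^ 2)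
    (hε : ε ≤ 1) (h4 : 4 * Real.exp (-(2 * (Rs:ℝ))) ≤ 1) (hE : ET c z y J Rs ≤ 1) (hX1 : 0 ≤ X1) (hX12 : X1 ≤ X2)
    (hW : Real.exp (Real.log y * (180 * ((Rs:ℝ) + 1))) ≤ W)
    (hQ : ∑ S ∈ (range J).powerset, ∫ t in X1..X2, qd2 (fun s => es s (Pz z ^ 2 * A0 * Bz (α - 2) z y J Rs S))
          (fun s => es s (DS2 N (α - 2) z y J Rs A0 S)) (1 / 2 + δ) t ≤ Q) :
    (1 - ε) * (1 - 4 * Real.exp (-(2 * (Rs:ℝ)))) * (∫ t in X1..X2, zn (1 / 2 + δ) t ^ (2 * α)) ≤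
      α / 2 * ((1 + τ) * (X2 * ((ip δ A0 A0 + (4 ^ (S0 z).card * l1' A0) ^ 2 / 2 ^ (K + 1)) *
        Real.exp (α ^ 2 * Vd δ z y J + ET4 c z y J Rs) * Real.exp (15 * vd δ (Rst N y))) +
        4 * (N:ℝ) ^ 5 * (l1' (Pz z ^ 2 * A0) ^ 2 * W)) + (1 + 1 / τ) * Q) +
      (1 - α / 2) * (X2 * (ip δ A0 A0 * Real.exp (α ^ 2 * Vd δ z y J + ET c z y J Rs)) + 4 * (m * W) * (l1' A0 ^ 2 * W)) := by
  have ha : |α - 2| ≤ 1 := by rw [abs_le]; constructor <;> linarith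
  have ha' : |α - 1| ≤ 1 := by rw [abs_le]; constructor <;> linarith
  have hX2 : 0 ≤ X2 := hX1.trans hX12
  have hDc : ∀ S, Continuous fun t : ℝ => ‖es (1 / 2 + δ + t * Complex.I) (DS2 N (α - 2) z y J Rs A0 S)‖ ^ 2 :=
    fun S => es_cont0 δ (DS2_Bd h hA S)
  have hBc : ∀ S, Continuous fun t : ℝ => ‖es (1 / 2 + δ + t * Complex.I) (A0 * Bz α z y J Rs S)‖ ^ 2 :=
    fun S => es_cont0 δ (hA.mul (Bz_Bd h S))
  have hqc := qd2S_cont (δ := δ) h hA hδ1 (α - 2)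
  have h1 : ∫ t in X1..X2, (1 - ε) * (1 - 4 * Real.exp (-(2 * (Rs:ℝ)))) * zn (1 / 2 + δ) t ^ (2 * α) ≤
      ∫ t in X1..X2, (α / 2 * (∑ S ∈ (range J).powerset, ((1 + τ) * ‖es (1 / 2 + δ + t * Complex.I) (DS2 N (α - 2) z y J Rs A0 S)‖ ^ 2 +
        (1 + 1 / τ) * qd2 (fun s => es s (Pz z ^ 2 * A0 * Bz (α - 2) z y J Rs S))
          (fun s => es s (DS2 N (α - 2) z y J Rs A0 S)) (1 / 2 + δ) t)) +
      (1 - α / 2) * ∑ S ∈ (range J).powerset, ‖es (1 / 2 + δ + t * Complex.I) (A0 * Bz α z y J Rs S)‖ ^ 2) := by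
    refine intervalIntegral.integral_mono_on hX12 ?_ ?_ fun t _ => up_pw24 h.R1 hα hα2 t hτ (hPA t) hε h4
    · exact (continuous_const.mul (znp_cont (by linarith) (by linarith))).intervalIntegrable _ _
    · exact ((continuous_const.mul (continuous_finsetSum _ fun S _ => (continuous_const.mul (hDc S)).add
        (continuous_const.mul (hqc S)))).add (continuous_const.mul (continuous_finsetSum _ fun S _ => hBc S))).intervalIntegrable _ _
  rw [intervalIntegral.integral_const_mul] at h1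
  refine h1.trans ?_
  rw [int_comb hDc hqc hBc]
  have g1 := I1q (a := α - 2) (X2 := X2) h hA (ha.trans (by norm_num : (1:ℝ) ≤ 2)) hδ hX1 hW
  have g2 := N1q h hδ ha (by linarith) hA hAm hmK
  have g3 := I2 (a := α) (X2 := X2) h hA hm0 (by rw [abs_le]; constructor <;> linarith) hδ hX1 hW
  have g4 := (N45 h hδ ha' hAm hE).2
  have e1 : 1 + (α - 1) = α := by ring
  have e2 : 2 + (α - 2) = α := by ring
  rw [e2] at g2
  rw [e1] at g4
  have g5 := mul_le_mul_of_nonneg_left g2 hX2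
  have g6 := mul_le_mul_of_nonneg_left g4 hX2
  refine add_le_add (mul_le_mul_of_nonneg_left (add_le_add (mul_le_mul_of_nonneg_left ?_ (by linarith))
    (mul_le_mul_of_nonneg_left hQ (by positivity))) (by linarith)) (mul_le_mul_of_nonneg_left ?_ (by linarith))
  · linarith
  · linarith

end

lemma errs4 {T m l LP B : ℝ} (hT1 : 1 ≤ T) (hm : 0 ≤ m)
    (hK : (4 * LP ^ 2 + 4 * m * l ^ 2) * T ^ ((2:ℝ) / 3) ≤ B) :
    4 * (NT T : ℝ) ^ 5 * (LP ^ 2 * T ^ ((1:ℝ) / 50)) ≤ B ∧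
    4 * (m * T ^ ((1:ℝ) / 50)) * (l ^ 2 * T ^ ((1:ℝ) / 50)) ≤ B := by
  have hT0 : 0 < T := by linarith
  set W := T ^ ((1:ℝ) / 50) with hWdef
  set N := NT T with hN
  have hW0 : 0 < W := by positivity
  have hpw : ∀ q : ℝ, q ≤ 2 / 3 → T ^ q ≤ T ^ ((2:ℝ) / 3) := fun q hq => Real.rpow_le_rpow_of_exponent_le hT1 hq
  have hN5 := NT_pow hT1 5
  rw [← hN] at hN5
  have w1 : (N:ℝ) ^ 5 * W ≤ T ^ ((2:ℝ) / 3) := by
    calc (N:ℝ) ^ 5 * W ≤ T ^ (((5:ℕ):ℝ) / 8) * W := mul_le_mul_of_nonneg_right hN5 hW0.le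
      _ = T ^ (((5:ℕ):ℝ) / 8 + 1 / 50) := by rw [hWdef, ← Real.rpow_add hT0]
      _ ≤ _ := hpw _ (by norm_num)
  have w2 : W * W ≤ T ^ ((2:ℝ) / 3) := by
    rw [hWdef, ← Real.rpow_add hT0]; exact hpw _ (by norm_num)
  have hTh : 0 ≤ T ^ ((2:ℝ) / 3) := by positivity
  set X := T ^ ((2:ℝ) / 3)
  have hml : 0 ≤ m * l ^ 2 * X := by positivity
  have hLX : 0 ≤ LP ^ 2 * X := by positivity
  have v1 := mul_le_mul_of_nonneg_left w1 (sq_nonneg LP)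
  have v2 := mul_le_mul_of_nonneg_left w2 (by positivity : 0 ≤ m * l ^ 2)
  refine ⟨?_, ?_⟩ <;> linarith

/-- the upper bound over a window -/
theorem win_main4 {α : ℝ} (hα1 : 1 ≤ α) (hα2 : α ≤ 2) {ε : ℝ} (hε : 0 < ε) (hε1 : ε ≤ 1 / 10) :
    ∃ lam : ℝ, 1 ≤ lam ∧ ∀ᶠ T : ℝ in atTop, ∀ δ : ℝ, lam / Real.log T ≤ δ → δ ≤ 1 / 16 →
      ∫ t in (T ^ ((4:ℝ)/5))..(T / 2), zn (1 / 2 + δ) t ^ (2 * α) ≤ (1 + 13 * ε) * (T / 2 * DD α δ) := by
  have hα : 0 < α := by linarith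
  set e := ε ^ 2 with he
  have he0 : 0 < e := by positivity
  have he1 : e ≤ 1 / 100 := by rw [he]; nlinarith
  obtain ⟨c, hc, hpar⟩ := par_ex
  obtain ⟨z1, R1, hET⟩ := ET_small hc he0
  obtain ⟨z1', R1', hET4⟩ := ET4_small hc he0
  obtain ⟨z2, x0, hx0, hcmp⟩ := cmp hα hε
  set z : ℕ := max (max (max z1 z1') z2) 1000 with hz
  have hz1000 : 1000 ≤ z := le_max_right _ _
  have hzz1 : z1 ≤ z := (le_max_left _ _).trans ((le_max_left _ _).trans (le_max_left _ _))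
  have hzz1' : z1' ≤ z := (le_max_right _ _).trans ((le_max_left _ _).trans (le_max_left _ _))
  have hzz2 : z2 ≤ z := (le_max_right _ _).trans (le_max_left _ _)
  obtain ⟨Rs, hRok, hR, h4, h14⟩ := Rs_exists (c := c) hε (max R1 R1')
  have hR1 : R1 ≤ Rs := (le_max_left _ _).trans hR
  have hR1' : R1' ≤ Rs := (le_max_right _ _).trans hR
  have hRs1 : 1 ≤ Rs := hRok.1
  obtain ⟨A0, m0, hA', hAm, hPA, hip⟩ := small_ex hα z hε
  set m : ℝ := max m0 1 with hm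
  have hA : Bd1 m A0 := hA'.mono (le_max_left _ _)
  have hm0 : 0 ≤ m := le_trans zero_le_one (le_max_right _ _)
  obtain ⟨η0, hη0, hQ⟩ := hpa4 (z := z) (by omega)
  have hRp : (0:ℝ) < (Rs:ℝ) + 1 := by positivity
  set η : ℝ := min η0 (1 / 16000) / ((Rs:ℝ) + 1) with hηd
  have hq0 : 0 < min η0 (1 / 16000) := lt_min hη0 (by norm_num)
  have hη : 0 < η := by positivity
  have hηe : η * ((Rs:ℝ) + 1) = min η0 (1 / 16000) := by rw [hηd]; field_simp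
  have hη1 : η * ((Rs:ℝ) + 1) ≤ η0 := by rw [hηe]; exact min_le_left _ _
  have hη2 : η * ((Rs:ℝ) + 1) ≤ 1 / 16000 := by rw [hηe]; exact min_le_right _ _
  have hη16 : η ≤ 1 / 16 := by
    have : η * 1 ≤ η * ((Rs:ℝ) + 1) := mul_le_mul_of_nonneg_left (by
      have : (0:ℝ) ≤ Rs := Nat.cast_nonneg _
      linarith) hη.le
    linarith
  obtain ⟨d, hd, hpar2⟩ := hpar z Rs hz1000 hRs1 η hη hη16
  obtain ⟨C, hC, hQ⟩ := hQ c d η m Rs A0 hc hd hRs1 hη hη1 hη2 hA hAm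
  obtain ⟨c2, hc2, hDD⟩ := DD_low hα
  obtain ⟨l1, hl1⟩ := lam_ex (s := α ^ 2) (b := 2 / 9) (C := C / c2) (e := e) (by norm_num) he0
  obtain ⟨l2, hl2⟩ := exp_ex (C := 15 * d) hη he0
  set lam : ℝ := max 1 (max l1 (max l2 (x0 / η))) with hlam
  have hlam1 : 1 ≤ lam := le_max_left _ _
  have hlaml1 : l1 ≤ lam := (le_max_left _ _).trans (le_max_right _ _)
  have hlaml2 : l2 ≤ lam := (le_max_left _ _).trans ((le_max_right _ _).trans (le_max_right _ _))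
  have hlamx : x0 / η ≤ lam := (le_max_right _ _).trans ((le_max_right _ _).trans (le_max_right _ _))
  refine ⟨lam, hlam1, ?_⟩
  set LP := l1' (Pz z ^ 2 * A0) with hLP
  set l := l1' A0 with hl
  set K0 : ℝ := 4 * LP ^ 2 + 4 * m * l ^ 2 with hK0
  set sz : ℝ := (4 ^ (S0 z).card * l) ^ 2 with hsz
  have hsz0 : 0 ≤ sz := sq_nonneg _
  filter_upwards [hpar2, hQ, windows_ev, eventually_ge_atTop (10 ^ 10), NT_ev (max 1 (max m (sz / (e * (9 / 10))))),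
    rpow_ev (p := 2 / 3) (q := 1) (by norm_num) (2 * K0 / e),
    Real.tendsto_log_atTop.eventually_ge_atTop 1] with T t1 t2 t3 t4 t5 t7 t9 δ hδ1 hδ2
  obtain ⟨J, hS, hV, hWd⟩ := t1
  have hT0 : 0 < T := by linarith
  have hT1 : 1 ≤ T := by linarith
  have hL0 : 0 < Real.log T := by linarith
  have hx : lam ≤ δ * Real.log T := by rwa [div_le_iff₀ hL0] at hδ1
  have hδ0 : 0 < δ := by
    by_contra hcon
    have := mul_nonpos_of_nonpos_of_nonneg (not_lt.mp hcon) hL0.le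
    linarith
  set y := yT η T with hy
  set N := NT T with hN
  set K := KT T with hK
  have hly : Real.log y = η * Real.log T := Real.log_exp _
  have hE := hET z hzz1 Rs hR1 y J hS.rg
  have hE0 := ET_nonneg c z y J Rs
  have hE4 := hET4 z hzz1' Rs hR1' y J hS.rg
  have hE40 := ET4_nonneg c z y J Rs
  have hcm := hcmp z hzz2 hz1000 y δ hS.zy hδ0 (by
    rw [hly]
    have h1 : x0 ≤ lam * η := by rwa [div_le_iff₀ hη] at hlamx
    calc x0 ≤ lam * η := h1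
      _ ≤ (δ * Real.log T) * η := mul_le_mul_of_nonneg_right hx hη.le
      _ = _ := by ring) J hS.J1
  have hNr : (1:ℝ) ≤ N := (le_max_left _ _).trans t5.1
  have hmN : m ≤ N := ((le_max_left _ _).trans (le_max_right _ _)).trans t5.1
  have hszN : sz / (e * (9 / 10)) ≤ N := ((le_max_right _ _).trans (le_max_right _ _)).trans t5.1
  have hNK : (N:ℝ) < 2 ^ (K + 1) := by
    have : ((N : ℕ) : ℝ) < ((2 ^ (K + 1) : ℕ) : ℝ) := by exact_mod_cast hS.NK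
    push_cast at this
    exact this
  have hmK : m < 2 ^ (K + 1) := by linarith
  -- sizes
  set ip0 := ip δ A0 A0 with hip0
  set P0 := ∏ p ∈ S0 z, Ed α δ p with hP0
  obtain ⟨hi1, hi2⟩ := hip δ hδ0.le
  have hP01 : 1 ≤ P0 := by
    have := prod_le_prod (s := S0 z) (f := fun _ => (1:ℝ)) (g := fun p => Ed α δ p) (fun _ _ => zero_le_one)
      (fun p hp => Ed_ge_one hδ0.le (mem_S0.mp hp).2)
    simpa using this
  have hip9 : 9 / 10 ≤ ip0 := ax9 hε hε1 hP01 hi1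
  set EV := Real.exp (α ^ 2 * Vd δ z y J) with hEV
  have hEV0 : 0 < EV := Real.exp_pos _
  have hDD1 : 1 ≤ DD α δ := DD_ge_one hα hδ0
  set D := DD α δ with hD
  have hMup : ip0 * EV ≤ (1 + 2 * ε) * D := by
    calc ip0 * EV ≤ P0 * EV := mul_le_mul_of_nonneg_right hi2 hEV0.le
      _ ≤ Real.exp ε * D := hcm.2
      _ ≤ (1 + 2 * ε) * D := mul_le_mul_of_nonneg_right (exp_le_two hε.le (hε1.trans (by norm_num)))
          (zero_le_one.trans hDD1)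
  -- the tail
  have hv : 15 * vd δ (Rst N y) ≤ e := by
    have h1 := vd_rst hδ0.le hS.y1 (P := Rst N y) fun p hp => ⟨Rst_prime p hp, (mem_Rst.mp hp).2⟩
    rw [hly] at h1
    have h2 := hl2 (δ * Real.log T) (hlaml2.trans hx)
    have h3 : Real.exp (-(2 * (δ * (η * Real.log T)))) * vd 0 (Rst N y) ≤ Real.exp (-(2 * (δ * (η * Real.log T)))) * d :=
      mul_le_mul_of_nonneg_left hWd (Real.exp_pos _).le
    have e1 : δ * (η * Real.log T) = δ * Real.log T * η := by ring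
    rw [e1] at h1 h3
    linarith
  have hv0 := vd_nonneg δ (Rst N y)
  -- small primes
  have hsm : sz / 2 ^ (K + 1) ≤ e * ip0 := by
    have hN0 : (0:ℝ) < N := lt_of_lt_of_le one_pos hNr
    have h1 : sz / 2 ^ (K + 1) ≤ sz / N := div_le_div_of_nonneg_left hsz0 hN0 hNK.le
    have h2 : sz / N ≤ e * (9 / 10) := by
      rw [div_le_iff₀ hN0]
      rw [div_le_iff₀ (mul_pos he0 (by norm_num))] at hszN
      rwa [mul_comm]
    have h3 : e * (9 / 10) ≤ e * ip0 := mul_le_mul_of_nonneg_left hip9 he0.le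
    exact h1.trans (h2.trans h3)
  have e15 : 2 * (15 / 2 * vd δ (Rst N y)) = 15 * vd δ (Rst N y) := by ring
  have hip0' : 0 ≤ ip0 := (by norm_num : (0:ℝ) ≤ 9 / 10).trans hip9
  have hszK : 0 ≤ sz / 2 ^ (K + 1) := div_nonneg hsz0 (pow_nonneg (by norm_num) _)
  obtain ⟨k1, -, -, -⟩ := coef (E := α ^ 2 * Vd δ z y J) he0 he1 hip0' hszK
    hsm hE40 hE4 (mul_nonneg (by norm_num) hv0 : 0 ≤ 15 / 2 * vd δ (Rst N y)) (by rw [e15]; exact hv)
  rw [e15] at k1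
  obtain ⟨-, k2, -, -⟩ := coef (E := α ^ 2 * Vd δ z y J) he0 he1 hip0' hszK
    hsm hE0 hE hv0 (by linarith only [hv, hv0])
  -- the difference
  have hQ1 := t2 J hS hV hWd (hE4.trans (by linarith)) (α - 2) (by rw [abs_le]; constructor <;> linarith) (by linarith) δ
    (le_trans (div_le_div_of_nonneg_right hlam1 hL0.le) hδ1) hδ2
  have e0 : 2 + (α - 2) = α := by ring
  rw [e0] at hQ1
  have hX2 : (0:ℝ) ≤ T / 2 := by linarith
  set Y := T / 2 * D with hYd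
  have hY0 : 0 ≤ Y := mul_nonneg hX2 (zero_le_one.trans hDD1)
  have hQ2 : C * (T * Real.log T ^ (α ^ 2)) * (N : ℝ) ^ (-(2 * δ)) ≤ 2 * ε ^ 2 * Y := by
    have h1 : (N:ℝ) ^ (-(2 * δ)) ≤ Real.exp (-(2 / 9) * (δ * Real.log T)) := by
      calc (N:ℝ) ^ (-(2 * δ)) ≤ (T ^ ((1:ℝ) / 9)) ^ (-(2 * δ)) :=
            Real.rpow_le_rpow_of_nonpos (Real.rpow_pos_of_pos hT0 _) t5.2 (by linarith only [hδ0])
        _ = Real.exp (-(2 / 9) * (δ * Real.log T)) := by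
            rw [← Real.rpow_mul hT0.le, Real.rpow_def_of_pos hT0]
            congr 1; ring
    have h2 := hl1 (δ * Real.log T) (hlaml1.trans hx)
    have h3 := hDD δ hδ0 (hδ2.trans (by norm_num))
    rw [← hD] at h3
    have h4 : Real.log T ^ (α ^ 2) = (δ * Real.log T) ^ (α ^ 2) * δ ^ (-(α ^ 2)) := by
      rw [Real.mul_rpow hδ0.le hL0.le, mul_right_comm, ← Real.rpow_add hδ0]
      simp
    have h5 : 0 ≤ (δ * Real.log T) ^ (α ^ 2) := Real.rpow_nonneg (mul_nonneg hδ0.le hL0.le) _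
    have h6 : 0 ≤ δ ^ (-(α ^ 2)) := Real.rpow_nonneg hδ0.le _
    have h7 : 0 ≤ C * (T * Real.log T ^ (α ^ 2)) :=
      mul_nonneg hC.le (mul_nonneg hT0.le (Real.rpow_nonneg hL0.le _))
    calc C * (T * Real.log T ^ (α ^ 2)) * (N : ℝ) ^ (-(2 * δ)) ≤
          C * (T * Real.log T ^ (α ^ 2)) * Real.exp (-(2 / 9) * (δ * Real.log T)) :=
          mul_le_mul_of_nonneg_left h1 h7
      _ = T * (C / c2 * ((δ * Real.log T) ^ (α ^ 2) * Real.exp (-(2 / 9) * (δ * Real.log T)))) * (c2 * δ ^ (-(α ^ 2))) := by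
          rw [h4]; field_simp
      _ ≤ T * e * D := by
          refine mul_le_mul (mul_le_mul_of_nonneg_left h2 hT0.le) h3 (mul_nonneg hc2.le h6) (mul_nonneg hT0.le he0.le)
      _ = 2 * ε ^ 2 * Y := by rw [hYd, he]; ring
  -- errors
  set W := T ^ ((1:ℝ) / 50) with hWdef
  have hW : Real.exp (Real.log y * (180 * ((Rs:ℝ) + 1))) ≤ W := ly_exp hT1 hη2
  have hW0 : 0 < W := Real.rpow_pos_of_pos hT0 _
  have hK0T : K0 * T ^ ((2:ℝ) / 3) ≤ ε ^ 2 * Y := by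
    rw [Real.rpow_one] at t7
    have h1 : K0 * T ^ ((2:ℝ) / 3) ≤ e * (T / 2) := by
      have h2 := mul_le_mul_of_nonneg_left t7 (half_pos he0).le
      calc K0 * T ^ ((2:ℝ) / 3) = e / 2 * (2 * K0 / e * T ^ ((2:ℝ) / 3)) := by field_simp
        _ ≤ e / 2 * T := h2
        _ = e * (T / 2) := by ring
    have h3 : e * (T / 2) ≤ e * (T / 2) * D := le_mul_of_one_le_right (mul_nonneg he0.le hX2) hDD1
    calc K0 * T ^ ((2:ℝ) / 3) ≤ e * (T / 2) * D := h1.trans h3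
      _ = ε ^ 2 * Y := by rw [hYd, he]; ring
  obtain ⟨f1, f2⟩ := errs4 (LP := LP) (l := l) hT1 hm0 hK0T
  have hMX : T / 2 * (ip0 * EV) ≤ (1 + 2 * ε) * Y := by
    calc _ ≤ T / 2 * ((1 + 2 * ε) * D) := mul_le_mul_of_nonneg_left hMup hX2
      _ = _ := by rw [hYd]; ring
  have hX1 : 0 ≤ T ^ ((4:ℝ)/5) := by positivity
  have hI0 : 0 ≤ ∫ t in (T ^ ((4:ℝ)/5))..(T / 2), zn (1 / 2 + δ) t ^ (2 * α) :=
    intervalIntegral.integral_nonneg t3.1 fun t _ => Real.rpow_nonneg (zn_nonneg _ _) _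
  have hre : ∀ t : ℝ, (1:ℝ) / 2 ≤ (1 / 2 + (δ:ℂ) + t * Complex.I).re := fun t => by
    rw [half_re]; linarith only [hδ0]
  have hw := win_up4 (Q := C * (T * Real.log T ^ (α ^ 2)) * (N : ℝ) ^ (-(2 * δ))) (ε := ε) (τ := ε) hS hA hAm hm0 hmK
    hδ0.le hδ2 hα1 hα2 hε (fun t => (hPA _ (hre t)).1) (hε1.trans (by norm_num)) (h4.trans (hε1.trans (by norm_num)))
    (hE.trans (he1.trans (by norm_num))) hX1 t3.1 hW hQ1
  exact arith_up hε hε1 (by linarith only [hα1] : 0 ≤ α / 2) (by linarith only [hα2]) hX2 hY0 hI0 h4 k1 k2 hMX f1 f2 hQ2 hw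

end Pool.Agent.Y755
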